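import Pool.Agent.Lib.MP_97567f_al.SpecZ

/-!
# MP_97567f_al: module Ab (the action on the additive characters)
-/

set_option autoImplicit false

namespace Pool.Agent.Lib.MP_97567f_al

/-- the space of the additive characters -/
private def Ab_V (A K : Type) [Group A] [Field K] : Submodule K (A → K) where
  carrier := {f | ∀ x y, f (x * y) = f x + f y}
  add_mem' := by
    intro f g hf hg x y
    simp only [Pi.add_apply]
    rw [hf, hg]
    ring
  zero_mem' := by
    intro x y
    simp
  smul_mem' := by
    intro c f hf x y
    simp only [Pi.smul_apply, smul_eq_mul]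
    rw [hf]
    ring

private theorem Ab_fin (A K : Type) [Group A] [Field K] {n : ℕ} {S : Fin n → A}
    (hS : Subgroup.closure (Set.range S) = ⊤) : FiniteDimensional K (Ab_V A K) := by
  let L : Ab_V A K →ₗ[K] (Fin n → K) :=
    { toFun := fun f i => f.1 (S i)
      map_add' := fun f g => rfl
      map_smul' := fun c f => rfl }
  refine FiniteDimensional.of_injective L ?_
  rw [← LinearMap.ker_eq_bot, LinearMap.ker_eq_bot']
  intro f hf
  have h1 : ∀ i, f.1 (S i) = 0 := fun i => congrFun hf i
  have hone : f.1 1 = 0 := by
    have h2 := f.2 1 1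
    rw [mul_one] at h2
    exact left_eq_add.1 h2
  have hinv : ∀ x, f.1 x⁻¹ = -f.1 x := by
    intro x
    have h2 := f.2 x⁻¹ x
    rw [inv_mul_cancel, hone] at h2
    exact eq_neg_of_add_eq_zero_left h2.symm
  have h2 : ∀ x, f.1 x = 0 := by
    intro x
    have hx : x ∈ Subgroup.closure (Set.range S) := by
      rw [hS]
      trivial
    induction hx using Subgroup.closure_induction with
    | mem y hy =>
      obtain ⟨i, rfl⟩ := hy
      exact h1 i
    | one => exact hone
    | mul y z _ _ hy hz => rw [f.2 y z, hy, hz, add_zero]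
    | inv y _ hy => rw [hinv, hy, neg_zero]
  exact Subtype.ext (funext h2)

theorem pAb : SAb := by
  intro A _ K _ n S hS
  have hfd := Ab_fin A K hS
  let act : MulAut A →* Module.End K (Ab_V A K) :=
    { toFun := fun α =>
        { toFun := fun f => ⟨fun x => f.1 (α⁻¹ x), fun x y => by
            change f.1 (α⁻¹ (x * y)) = _
            rw [map_mul]
            exact f.2 _ _⟩
          map_add' := fun f g => rfl
          map_smul' := fun c f => rfl }
      map_one' := by
        refine LinearMap.ext fun f => Subtype.ext (funext fun x => ?_)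
        change f.1 ((1 : MulAut A)⁻¹ x) = f.1 x
        rw [inv_one]
        rfl
      map_mul' := by
        intro α β
        refine LinearMap.ext fun f => Subtype.ext (funext fun x => ?_)
        change f.1 ((α * β)⁻¹ x) = f.1 (β⁻¹ (α⁻¹ x))
        rw [mul_inv_rev]
        rfl }
  let b := Module.finBasis K (Ab_V A K)
  let φ : MulAut A →* Matrix (Fin (Module.finrank K (Ab_V A K)))
      (Fin (Module.finrank K (Ab_V A K))) K :=
    ((LinearMap.toMatrixAlgEquiv b : _ ≃ₐ[K] _) : _ →* _).comp act
  refine ⟨_, φ.toHomUnits, fun α hα ψ x => ?_⟩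
  have h1 : φ α = 1 := by
    rw [← MonoidHom.coe_toHomUnits, hα, Units.val_one]
  have h2 : act α = 1 := by
    apply (LinearMap.toMatrixAlgEquiv b).injective
    rw [map_one]
    exact h1
  let f : Ab_V A K := ⟨fun x => Multiplicative.toAdd (ψ x), fun x y => by
    change Multiplicative.toAdd (ψ (x * y)) = _
    rw [map_mul]
    rfl⟩
  have h3 : (act α f).1 (α x) = f.1 (α x) := by rw [h2]; rfl
  have h4 : (act α f).1 (α x) = f.1 x := by
    change f.1 (α⁻¹ (α x)) = f.1 x
    rw [MulAut.inv_apply_self]
  rw [h4] at h3
  exact (Multiplicative.toAdd.injective h3).symm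

end Pool.Agent.Lib.MP_97567f_al
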