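import Pool.Agent.Lib.MP_97567f_al.SpecZ

/-!
# MP_97567f_al: the action on the matrices
-/

set_option autoImplicit false

namespace Pool.Agent.Lib.MP_97567f_al

/-- Conjugation of matrices. -/
private def Ad_conj {K : Type} [Field K] {d : Type} [Fintype d] [DecidableEq d] (g : GL d K) :
    Matrix d d K →ₗ[K] Matrix d d K where
  toFun Y := g.1 * Y * (g⁻¹).1
  map_add' X Y := by rw [mul_add, add_mul]
  map_smul' c Y := by rw [Matrix.mul_smul, Matrix.smul_mul, RingHom.id_apply]

private theorem Ad_conj_apply {K : Type} [Field K] {d : Type} [Fintype d] [DecidableEq d]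
    (g : GL d K) (Y : Matrix d d K) : Ad_conj g Y = g.1 * Y * (g⁻¹).1 := rfl

/-- The data of a twist. -/
private def Ad_IsTw {A : Type} [Group A] {K : Type} [Field K] {d : Type} [Fintype d]
    [DecidableEq d] (ρ : A →* GL d K) (α : MulAut A) (χ : A →* Kˣ) (g : GL d K) : Prop :=
  ∀ x, (ρ (α x)).1 = (χ x : K) • (g.1 * (ρ x).1 * (g⁻¹).1)

private theorem Ad_uniq {A : Type} [Group A] {K : Type} [Field K] {n : ℕ} (S : Fin n → A)
    (hS : Subgroup.closure (Set.range S) = ⊤) {d : Type} [Fintype d] [DecidableEq d]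
    (ρ : A →* GL d K) (hspan : Submodule.span K (Set.range fun x => (ρ x).1) = ⊤)
    (htr : ∀ i, (ρ (S i)).1.trace ≠ 0) (α : MulAut A) {χ χ' : A →* Kˣ} {g g' : GL d K}
    (h : Ad_IsTw ρ α χ g) (h' : Ad_IsTw ρ α χ' g') : Ad_conj g = Ad_conj g' := by
  have htrace : ∀ (g : GL d K) (Y : Matrix d d K),
      (g.1 * Y * (g⁻¹).1).trace = Y.trace := by
    intro g Y
    rw [Matrix.trace_mul_comm, ← mul_assoc]
    have h1 : (g⁻¹).1 * g.1 = 1 := by
      rw [← Units.val_mul, inv_mul_cancel, Units.val_one]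
    rw [h1, one_mul]
  have h1 : ∀ i, χ (S i) = χ' (S i) := by
    intro i
    have e1 := congrArg Matrix.trace (h (S i))
    have e2 := congrArg Matrix.trace (h' (S i))
    rw [Matrix.trace_smul, htrace, smul_eq_mul] at e1 e2
    exact Units.ext (mul_right_cancel₀ (htr i) (e1.symm.trans e2))
  have h2 : χ = χ' := by
    apply MonoidHom.eq_of_eqOn_dense hS
    rintro _ ⟨i, rfl⟩
    exact h1 i
  subst h2
  refine LinearMap.ext_on hspan ?_
  rintro _ ⟨x, rfl⟩
  change Ad_conj g (ρ x).1 = Ad_conj g' (ρ x).1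
  rw [Ad_conj_apply, Ad_conj_apply]
  have e1 := (h x).symm.trans (h' x)
  have hx : (χ x : K) ≠ 0 := (χ x).ne_zero
  exact smul_right_injective _ hx e1

theorem pAd : SAd := by
  intro A _ K _ n S hS d _ _ ρ H hspan htr hTS
  have hTS' : ∀ α : H, ∃ (χ : A →* Kˣ) (g : GL d K), Ad_IsTw ρ α.1 χ g := fun α => hTS α.1 α.2
  choose χ g hg using hTS'
  have hmul : ∀ α β : H, Ad_conj (g (α * β)) = Ad_conj (g α) * Ad_conj (g β) := by
    intro α β
    have h1 : Ad_IsTw ρ (α * β).1 (((χ α).comp β.1.toMonoidHom) * χ β) (g α * g β) := by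
      intro x
      change (ρ (α.1 (β.1 x))).1 = _
      rw [hg α (β.1 x), hg β x]
      have e1 : ((((χ α).comp β.1.toMonoidHom) * χ β) x : K) = (χ α (β.1 x) : K) * (χ β x : K) := by
        rw [MonoidHom.mul_apply, Units.val_mul]
        rfl
      rw [e1, Matrix.mul_smul, Matrix.smul_mul, smul_smul, Units.val_mul, mul_inv_rev,
        Units.val_mul]
      simp only [mul_assoc]
    rw [Ad_uniq S hS ρ hspan htr _ (hg (α * β)) h1]
    apply LinearMap.ext
    intro Y
    rw [Module.End.mul_apply, Ad_conj_apply, Ad_conj_apply, Ad_conj_apply, mul_inv_rev,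
      Units.val_mul, Units.val_mul]
    simp only [mul_assoc]
  have hone : Ad_conj (g 1) = 1 := by
    have h1 : Ad_IsTw ρ (1 : H).1 1 1 := by
      intro x
      change (ρ x).1 = _
      rw [MonoidHom.one_apply, Units.val_one, one_smul, inv_one, Units.val_one, one_mul, mul_one]
    rw [Ad_uniq S hS ρ hspan htr _ (hg 1) h1]
    apply LinearMap.ext
    intro Y
    rw [Module.End.one_apply, Ad_conj_apply, inv_one, Units.val_one, one_mul, mul_one]
  let L : H →* Module.End K (Matrix d d K) :=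
    { toFun := fun α => Ad_conj (g α), map_one' := hone, map_mul' := hmul }
  let b := Module.finBasis K (Matrix d d K)
  let e := LinearMap.toMatrixAlgEquiv b
  refine ⟨_, (Units.map e.toMulEquiv.toMonoidHom).comp L.toHomUnits,
    fun α hα => ⟨χ α, fun x => ?_⟩⟩
  have h1 : e (Ad_conj (g α)) = 1 := congrArg Units.val hα
  have h2 : Ad_conj (g α) = 1 := by
    apply e.injective
    rw [h1, map_one]
  have h3 := congrArg (fun f : Module.End K (Matrix d d K) => f (ρ x).1) h2
  simp only [Module.End.one_apply, Ad_conj_apply] at h3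
  rw [hg α x, h3]

end Pool.Agent.Lib.MP_97567f_al
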