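import Pool.Agent.Lib.MP_97567f_al.SpecZ

/-!
# MP_97567f_al: assembly of the components
-/

set_option autoImplicit false

namespace Pool.Agent.Lib.MP_97567f_al

theorem pAsm (h1 : SInd) (h2 : SBlk) (h3 : SAd) (h4 : SAb) : SAsm := by
  intro A _ K _ n m S hS Sc hc hz
  have key : ∀ c, ∃ (H : Subgroup (MulAut A)) (r : ℕ) (Φ : H →* GL (Fin r) K), H.FiniteIndex ∧
      ∀ α : H, Φ α = 1 → ∀ x, Sc c (x⁻¹ * α.1 x) := by
    intro c
    obtain ⟨d, _, _, ρ, H, hH, hspan, htr, hTS, hsc⟩ := hc c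
    obtain ⟨r, Φ, hΦ⟩ := h3 A K n S hS d ρ H hspan htr hTS
    refine ⟨H, r, Φ, hH, fun α hα x => hsc _ ?_⟩
    obtain ⟨χ, hχ⟩ := hΦ α hα
    refine ⟨χ x, ?_⟩
    rw [map_mul, Units.val_mul, hχ, Matrix.mul_smul, ← Units.val_mul, ← map_mul,
      inv_mul_cancel, map_one, Units.val_one]
  choose H r Φ hH hΦ using key
  obtain ⟨r₀, Ψ, hΨ⟩ := h4 A K n S hS
  have hfin : (⨅ c, H c).FiniteIndex := Subgroup.finiteIndex_iInf hH
  refine h1 K (MulAut A) (⨅ c, H c) hfin ?_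
  refine h2 K (⨅ c, H c : Subgroup (MulAut A)) (m + 1) (Fin.cons r₀ r)
    (fun c => Fin.cases (motive := fun c => (⨅ c, H c : Subgroup (MulAut A)) →*
      GL (Fin ((Fin.cons r₀ r : Fin (m + 1) → ℕ) c)) K)
      (Ψ.comp (⨅ c, H c : Subgroup (MulAut A)).subtype)
      (fun c => (Φ c).comp (Subgroup.inclusion (iInf_le H c))) c) ?_
  intro α hα
  apply Subtype.ext
  apply MulEquiv.ext
  intro x
  have e1 : ∀ c, Sc c (x⁻¹ * α.1 x) := fun c =>
    hΦ c (Subgroup.inclusion (iInf_le H c) α) (hα c.succ) x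
  have e2 : ∀ φ : A →* Multiplicative K, φ (x⁻¹ * α.1 x) = 1 := by
    intro φ
    rw [map_mul, hΨ α.1 (hα 0) φ x, ← map_mul, inv_mul_cancel, map_one]
  have e3 := hz _ e1 e2
  exact (inv_mul_eq_one.1 e3).symm

end Pool.Agent.Lib.MP_97567f_al
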