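import Pool.Agent.Lib.MP_97567f_al.SpecZ

/-!
# MP_97567f_al: module Blk (block diagonal matrices)
-/

set_option autoImplicit false

namespace Pool.Agent.Lib.MP_97567f_al

theorem pBlk : SBlk := by
  intro K _ G _ m r f hf
  classical
  let φ₁ : G →* (∀ c, Matrix (Fin (r c)) (Fin (r c)) K) :=
    { toFun := fun x c => (f c x).1
      map_one' := by
        funext c
        rw [map_one]
        rfl
      map_mul' := by
        intro x y
        funext c
        rw [map_mul]
        rfl }
  let φ₂ : G →* Matrix (Σ c, Fin (r c)) (Σ c, Fin (r c)) K :=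
    ((Matrix.blockDiagonal'RingHom (fun c => Fin (r c)) K) : _ →* _).comp φ₁
  let e₀ : (Σ c, Fin (r c)) ≃ Fin (Fintype.card (Σ c, Fin (r c))) := Fintype.equivFin _
  let φ₃ : G →* Matrix (Fin (Fintype.card (Σ c, Fin (r c)))) (Fin (Fintype.card (Σ c, Fin (r c)))) K :=
    ((Matrix.reindexAlgEquiv K K e₀ : _ ≃ₐ[K] _) : _ →* _).comp φ₂
  refine ⟨_, φ₃.toHomUnits, ?_⟩
  rw [injective_iff_map_eq_one]
  intro x hx
  have h1 : φ₃ x = 1 := by
    rw [← MonoidHom.coe_toHomUnits, hx, Units.val_one]
  have h2 : φ₂ x = 1 := by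
    apply (Matrix.reindexAlgEquiv K K e₀).injective
    rw [map_one]
    exact h1
  have h3 : φ₁ x = 1 := by
    apply Matrix.blockDiagonal'_injective
    rw [Matrix.blockDiagonal'_one]
    exact h2
  refine hf x fun c => Units.ext ?_
  exact congrFun h3 c

end Pool.Agent.Lib.MP_97567f_al
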