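import Pool.Agent.Lib.MP_97567f_al.SpecG

/-!
# MP_97567f_al, module Char: the characteristic polynomial of a generator
-/

set_option autoImplicit false

namespace Pool.Agent.Lib.MP_97567f_al

open Polynomial

/-! ### Matrices annihilated by a product of three linear factors -/

private theorem Char_multiset {F : Type} [Field F] (x y z : F) (S : Multiset F)
    (hS : ∀ μ ∈ S, μ = x ∨ μ = y ∨ μ = z) :
    ∃ m a b : ℕ, (S.map fun μ => (X - C μ : Polynomial F)).prod =
      (X - C x) ^ m * (X - C y) ^ a * (X - C z) ^ b ∧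
      S.sum = m * x + a * y + b * z := by
  induction S using Multiset.induction_on with
  | empty => exact ⟨0, 0, 0, by simp, by simp⟩
  | cons μ S ih =>
    obtain ⟨m, a, b, h1, h2⟩ := ih fun ν hν => hS ν (Multiset.mem_cons_of_mem hν)
    rcases hS μ (Multiset.mem_cons_self μ S) with h | h | h
    · refine ⟨m + 1, a, b, ?_, ?_⟩
      · rw [Multiset.map_cons, Multiset.prod_cons, h1, h]
        ring
      · rw [Multiset.sum_cons, h2, h]
        push_cast
        ring
    · refine ⟨m, a + 1, b, ?_, ?_⟩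
      · rw [Multiset.map_cons, Multiset.prod_cons, h1, h]
        ring
      · rw [Multiset.sum_cons, h2, h]
        push_cast
        ring
    · refine ⟨m, a, b + 1, ?_, ?_⟩
      · rw [Multiset.map_cons, Multiset.prod_cons, h1, h]
        ring
      · rw [Multiset.sum_cons, h2, h]
        push_cast
        ring

private theorem Char_split {ι Ω : Type} [Fintype ι] [DecidableEq ι] [Field Ω] [IsAlgClosed Ω]
    (G : Matrix ι ι Ω) (x y z : Ω)
    (hG : ∀ v, (G - x • (1 : Matrix ι ι Ω)).mulVec ((G - y • (1 : Matrix ι ι Ω)).mulVec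
      ((G - z • (1 : Matrix ι ι Ω)).mulVec v)) = 0) :
    ∃ m a b : ℕ, G.charpoly = (X - C x) ^ m * (X - C y) ^ a * (X - C z) ^ b ∧
      G.trace = m * x + a * y + b * z := by
  have hs : G.charpoly.Splits := IsAlgClosed.splits _
  have h3 : ∀ μ ∈ G.charpoly.roots, μ = x ∨ μ = y ∨ μ = z := by
    intro μ hμ
    have h4 : G.charpoly.eval μ = 0 := (mem_roots'.1 hμ).2
    rw [Matrix.eval_charpoly] at h4
    obtain ⟨v, hv, h5⟩ := Matrix.exists_mulVec_eq_zero_iff.2 h4
    have h6 : G.mulVec v = μ • v := by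
      rw [Matrix.sub_mulVec, sub_eq_zero] at h5
      rw [← h5]
      ext i
      simp [Matrix.scalar_apply, Matrix.mulVec_diagonal]
    have h7 : ∀ c : Ω, (G - c • (1 : Matrix ι ι Ω)).mulVec v = (μ - c) • v := by
      intro c
      rw [Matrix.sub_mulVec, Matrix.smul_mulVec, Matrix.one_mulVec, h6, sub_smul]
    have h8 := hG v
    rw [h7, Matrix.mulVec_smul, h7, Matrix.mulVec_smul, Matrix.mulVec_smul, h7, smul_smul,
      smul_smul, smul_eq_zero_iff_left hv] at h8
    rcases mul_eq_zero.1 h8 with h9 | h9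
    · rcases mul_eq_zero.1 h9 with h9 | h9
      · exact Or.inr (Or.inr (sub_eq_zero.1 h9))
      · exact Or.inr (Or.inl (sub_eq_zero.1 h9))
    · exact Or.inl (sub_eq_zero.1 h9)
  obtain ⟨m, a, b, h1, h2⟩ := Char_multiset x y z _ h3
  refine ⟨m, a, b, ?_, ?_⟩
  · rw [← h1]
    exact hs.eq_prod_roots_of_monic (Matrix.charpoly_monic G)
  · rw [← h2]
    exact Matrix.trace_eq_sum_roots_charpoly_of_splits hs

/-! ### The trace -/

section trace

variable {n : ℕ} {M : CoxeterMatrix (Fin n)} {C : Finset (Fin n)}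

private theorem Char_e_ne (s : Fin n) : (e s : Fin n → ℤ) ≠ 0 := by
  intro h
  have h1 := congrFun h s
  unfold e at h1
  rw [Pi.single_eq_same] at h1
  exact one_ne_zero h1

private theorem Char_diag {R : Type} [CommRing R] (q l : R) (s : Fin n) (b : PR M C) :
    lk M C q l s b b = if b.1 = e s then l else if pr M b.1 s = -1 then 1 - q else
      if pr M b.1 s = 1 then 0 else 1 := by
  have h1 : ¬ b.1 = b.1 + e s := by
    intro h
    exact Char_e_ne s (left_eq_add.1 h)
  have h2 : ¬ b.1 = b.1 - e s := by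
    intro h
    exact Char_e_ne s (sub_eq_self.1 h.symm)
  unfold lk img
  rw [Matrix.of_apply]
  by_cases hb : b.1 = e s
  · rw [if_pos hb, if_pos hb]
    simp [xv, hb]
  · rw [if_neg hb, if_neg hb]
    by_cases h3 : pr M b.1 s = -1
    · rw [if_pos h3, if_pos h3]
      simp [xv, hb, h1]
    · rw [if_neg h3, if_neg h3]
      by_cases h4 : pr M b.1 s = 1
      · rw [if_pos h4, if_pos h4]
        simp [xv, hb, h2]
      · rw [if_neg h4, if_neg h4]
        simp [xv, hb]

private theorem Char_trace (hR : RF M) (hmem : ∀ b ∈ roots M C, Rt M b) {R : Type} [CommRing R]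
    (q l : R) (s : Fin n) (hs : e s ∈ roots M C) :
    (lk M C q l s).trace = l + (((roots M C).filter fun b => pr M b s = 0).card : R) +
      (((roots M C).filter fun b => pr M b s = -1).card : R) * (1 - q) := by
  have h1 : ∀ b : PR M C, lk M C q l s b b = (if b.1 = e s then l else 0) +
      (if pr M b.1 s = 0 then 1 else 0) + (if pr M b.1 s = -1 then 1 else 0) * (1 - q) := by
    intro b
    rw [Char_diag]
    by_cases hb : b.1 = e s
    · have h2 : pr M b.1 s = 2 := by rw [hb]; exact hR.a.pre s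
      simp [hb]
      rw [← hb, h2]
      norm_num
    · rcases hR.a.bnd b.1 s (hmem b.1 b.2) hb with h | h | h <;> simp [hb, h]
  unfold Matrix.trace
  simp only [Matrix.diag_apply]
  rw [Finset.sum_congr rfl fun b _ => h1 b, Finset.sum_add_distrib, Finset.sum_add_distrib,
    ← Finset.sum_mul]
  have e1 : ∑ b : PR M C, (if b.1 = e s then l else 0) = l := by
    rw [Finset.sum_coe_sort (roots M C) (fun b => if b = e s then l else 0),
      Finset.sum_ite_eq' (roots M C) (e s) (fun _ => l), if_pos hs]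
  have e2 : ∀ k : ℤ, ∑ b : PR M C, (if pr M b.1 s = k then (1 : R) else 0) =
      (((roots M C).filter fun b => pr M b s = k).card : R) := by
    intro k
    rw [Finset.sum_coe_sort (roots M C) (fun b => if pr M b s = k then (1 : R) else 0),
      Finset.sum_boole]
  rw [e1, e2 0, e2 (-1)]

end trace

/-! ### Three nodes -/

section nodes

variable {n : ℕ} {M : CoxeterMatrix (Fin n)} {C : Finset (Fin n)}

private theorem Char_nodes (hC : Sat M C) (hconn : Conn M C) (h3 : 3 ≤ C.card) {s : Fin n}
    (hs : s ∈ C) : ∃ t u, t ∈ C ∧ u ∈ C ∧ adj M s t ∧ u ≠ s ∧ u ≠ t ∧ (adj M s u ∨ adj M t u) := by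
  -- a neighbour of `s`
  obtain ⟨t, ht⟩ : ∃ t, adj M s t := by
    by_contra hne
    push Not at hne
    have h1 : ∀ x ∈ C, x = s := by
      intro x hx
      rcases (Relation.ReflTransGen.cases_head (hconn s hs x hx)) with h | ⟨c, h, _⟩
      · exact h.symm
      · exact absurd h (hne c)
    have h2 : C.card ≤ 1 := Finset.card_le_one.2 fun a ha b hb => by rw [h1 a ha, h1 b hb]
    omega
  have htC : t ∈ C := hC s hs t ht
  by_contra hne
  push Not at hne
  have h1 : ∀ x, Relation.ReflTransGen (adj M) s x → x ∈ C ∧ (x = s ∨ x = t) := by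
    intro x hx
    induction hx with
    | refl => exact ⟨hs, Or.inl rfl⟩
    | @tail y z _ h ih =>
      obtain ⟨hy, h2⟩ := ih
      have hz := hC y hy z h
      refine ⟨hz, ?_⟩
      by_contra h3
      push Not at h3
      have h4 := hne t z htC hz ht h3.1 h3.2
      rcases h2 with h2 | h2
      · exact h4.1 (h2 ▸ h)
      · exact h4.2 (h2 ▸ h)
  have h2 : C ⊆ {s, t} := by
    intro x hx
    rw [Finset.mem_insert, Finset.mem_singleton]
    exact (h1 x (hconn s hs x hx)).2
  have h4 := (Finset.card_le_card h2).trans Finset.card_le_two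
  omega

end nodes

/-- The closure of the field `K2`. -/
private noncomputable abbrev Char_Om : Type := AlgebraicClosure K2

private noncomputable def Char_rho : R2 →+* Char_Om :=
  (algebraMap K2 Char_Om).comp (algebraMap R2 K2)

private theorem Char_rho_inj : Function.Injective Char_rho :=
  (RingHom.injective (algebraMap K2 Char_Om)).comp (IsFractionRing.injective R2 K2)

/-- Comparing the coefficients of the trace. -/
private theorem Char_indep (m a b m0 m1 : ℕ)
    (h : ll + (m0 : R2) + (m1 : R2) * (1 - qq) = m * ll + a * 1 + b * (-qq)) :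
    m = 1 ∧ a = m0 + m1 ∧ b = m1 := by
  have key : ∀ x y : ℂ, x ≠ 0 → y ≠ 0 →
      y + (m0 : ℂ) + (m1 : ℂ) * (1 - x) = m * y + a * 1 + b * (-x) := by
    intro x y hx hy
    obtain ⟨φ, h1, h2⟩ := R2_lift (IsUnit.mk0 x hx) (IsUnit.mk0 y hy)
    have h3 := congrArg φ h
    simpa only [map_add, map_mul, map_neg, map_sub, map_one, map_natCast, h1, h2] using h3
  have k1 := key 1 1 one_ne_zero one_ne_zero
  have k2 := key 2 1 two_ne_zero one_ne_zero
  have k3 := key 1 2 one_ne_zero two_ne_zero
  have e1 : (b : ℂ) = m1 := by linear_combination k2 - k1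
  have e2 : (m : ℂ) = 1 := by linear_combination k1 - k3
  have e3 : (a : ℂ) = ((m0 + m1 : ℕ) : ℂ) := by
    push_cast
    linear_combination -2 * k1 + k3 + e1
  exact ⟨by exact_mod_cast e2, Nat.cast_injective e3, Nat.cast_injective e1⟩

theorem pChar (h1 : SLkA) (h2 : SLkQ) (h3 : SLKr) : SChar := by
  intro n M hSL hR hF C hC hconn hcard s hs
  obtain ⟨hmem, hup, -, hes, hact⟩ := h1 n M hR C
  obtain ⟨m0, hm0⟩ : ∃ m0 : ℕ, m0 = ((roots M C).filter fun b => pr M b s = 0).card := ⟨_, rfl⟩
  obtain ⟨m1, hm1⟩ : ∃ m1 : ℕ, m1 = ((roots M C).filter fun b => pr M b s = -1).card := ⟨_, rfl⟩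
  have htr : ∀ {R : Type} [CommRing R] (q l : R), (lk M C q l s).trace =
      l + (m0 : R) + (m1 : R) * (1 - q) := by
    intro R _ q l
    rw [Char_trace hR (fun b hb => ((hmem b).1 hb).1) q l s ((hes s).2 hs), hm0, hm1]
  -- base change
  have hbase : ∀ (S : Type) [CommRing S] (φ : R2 →+* S),
      lk M C (φ qq) (φ ll) s = (lk M C qq ll s).map φ := by
    intro S _ φ
    have e1 := (h3 n M hSL hR hF C hC).1 R2 qq ll qq_unit ll_unit s
    have e2 := (h3 n M hSL hR hF C hC).1 S (φ qq) (φ ll) (qq_unit.map φ) (ll_unit.map φ) s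
    have e3 := (h3 n M hSL hR hF C hC).2 R2 S φ qq ll qq_unit ll_unit (gn M s)
    rw [← e2, e3, e1]
  -- over the closure
  obtain ⟨m, a, b, hp, ht⟩ := Char_split (lk M C (Char_rho qq) (Char_rho ll) s)
    (Char_rho ll) 1 (-Char_rho qq) (by
      intro v
      obtain ⟨F, -, hFv⟩ := (h2 n M hR C hC Char_Om (Char_rho qq) (Char_rho ll)).1 s hs
      have h4 := hFv v
      rw [← Matrix.mulVec_mulVec] at h4
      rw [neg_smul, sub_neg_eq_add, one_smul, h4, Matrix.mulVec_smul, Matrix.sub_mulVec,
        Matrix.smul_mulVec, Matrix.one_mulVec,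
        (hact Char_Om (Char_rho qq) (Char_rho ll)).1 s (e s) ((hes s).2 hs)]
      unfold img
      rw [if_pos rfl, sub_self, smul_zero])
  rw [htr] at ht
  obtain ⟨hm, ha, hb⟩ : m = 1 ∧ a = m0 + m1 ∧ b = m1 := by
    apply Char_indep
    apply Char_rho_inj
    simp only [map_add, map_mul, map_neg, map_sub, map_one, map_natCast]
    exact ht
  rw [hm, ha, hb, pow_one] at hp
  have hpR : (lk M C qq ll s).charpoly =
      (X - Polynomial.C ll) * (X - Polynomial.C 1) ^ (m0 + m1) * (X - Polynomial.C (-qq)) ^ m1 := by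
    apply Polynomial.map_injective Char_rho Char_rho_inj
    rw [← Matrix.charpoly_map, ← hbase, hp]
    simp only [Polynomial.map_mul, Polynomial.map_pow, Polynomial.map_sub, Polynomial.map_X,
      Polynomial.map_C, Polynomial.map_neg, Polynomial.map_one, map_neg, map_one]
  -- positivity
  have hpos : 1 < m1 ∧ 0 < m0 := by
    obtain ⟨t, u, ht, hu, hst, hus, hut, h⟩ := Char_nodes hC hconn hcard hs
    have ht' := (hes t).2 ht
    have hu' := (hes u).2 hu
    have prts : pr M (e t) s = -1 := hR.a.pra t s (adj_symm hst)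
    rw [hm0, hm1, Finset.one_lt_card, Finset.card_pos]
    rcases h with h | h
    · have hntu : ¬ adj M t u := hR.b.tri t s u (adj_symm hst) h
      have prus : pr M (e u) s = -1 := hR.a.pra u s (adj_symm h)
      have prst : pr M (e s) t = -1 := hR.a.pra s t hst
      have prsu : pr M (e s) u = -1 := hR.a.pra s u h
      have prtu : pr M (e t) u = 0 := hR.a.prn t u hut.symm hntu
      have r1 : e s + e t ∈ roots M C := hup _ ((hes s).2 hs) t prst ht
      have r2 : e s + e t + e u ∈ roots M C := by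
        refine hup _ r1 u ?_ hu
        rw [hR.a.pr_add, prsu, prtu]
        norm_num
      refine ⟨⟨e t, Finset.mem_filter.2 ⟨ht', prts⟩, e u, Finset.mem_filter.2 ⟨hu', prus⟩, ?_⟩,
        ⟨e s + e t + e u, Finset.mem_filter.2 ⟨r2, ?_⟩⟩⟩
      · intro hh
        have h5 := hR.a.pre t
        rw [hh, hR.a.prn u t hut (fun h6 => hntu (adj_symm h6))] at h5
        norm_num at h5
      · rw [hR.a.pr_add, hR.a.pr_add, hR.a.pre, prts, prus]
        norm_num
    · have hnsu : ¬ adj M s u := hR.b.tri s t u hst h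
      have prus : pr M (e u) s = 0 := hR.a.prn u s hus (fun h6 => hnsu (adj_symm h6))
      have prtu : pr M (e t) u = -1 := hR.a.pra t u h
      have r1 : e t + e u ∈ roots M C := hup _ ht' u prtu hu
      refine ⟨⟨e t, Finset.mem_filter.2 ⟨ht', prts⟩, e t + e u,
        Finset.mem_filter.2 ⟨r1, ?_⟩, ?_⟩, ⟨e u, Finset.mem_filter.2 ⟨hu', prus⟩⟩⟩
      · rw [hR.a.pr_add, prts, prus]
        norm_num
      · intro hh
        exact Char_e_ne u (left_eq_add.1 hh)
  refine ⟨m0 + m1, m1, hpos.1, by omega, fun F _ _ ψ => ⟨?_, ?_⟩⟩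
  · have h5 := hbase F (ψ : R2 →+* F)
    simp only [RingHom.coe_coe] at h5
    rw [h5]
    rw [show (ψ : R2 → F) = ((ψ : R2 →+* F) : R2 → F) from rfl, Matrix.charpoly_map, hpR]
    simp only [Polynomial.map_mul, Polynomial.map_pow, Polynomial.map_sub, Polynomial.map_X,
      Polynomial.map_C, Polynomial.map_neg, Polynomial.map_one, map_neg, map_one]
  · rw [htr]
    push_cast
    ring

end Pool.Agent.Lib.MP_97567f_al
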