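import Pool.Agent.Lib.MP_97567f_al.SpecZ

/-!
# MP_97567f_al: one component
-/

set_option autoImplicit false

namespace Pool.Agent.Lib.MP_97567f_al

private theorem Cmp_inj : Function.Injective (algebraMap R2 K2) := IsFractionRing.injective R2 K2

private theorem Cmp_cz : CharZero K2 := by
  refine ⟨fun a b h => ?_⟩
  have h1 : algebraMap ℂ K2 (a : ℂ) = algebraMap ℂ K2 (b : ℂ) := by
    rw [map_natCast, map_natCast]
    exact h
  exact Nat.cast_injective ((algebraMap ℂ K2).injective h1)

private theorem Cmp_tr {a b : ℕ} (h : algebraMap R2 K2 ll + a - b * algebraMap R2 K2 qq = 0) :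
    False := by
  have h1 : ll + a - b * qq = 0 := by
    apply Cmp_inj
    rw [map_sub, map_add, map_mul, map_natCast, map_natCast, map_zero]
    exact h
  obtain ⟨φ, hq, hl⟩ := R2_lift (S := ℂ) (a := 1) (b := 1) isUnit_one isUnit_one
  obtain ⟨φ', hq', hl'⟩ := R2_lift (S := ℂ) (a := 1) (b := 2) isUnit_one
    (isUnit_iff_ne_zero.2 two_ne_zero)
  have e1 := congrArg φ h1
  have e2 := congrArg φ' h1
  rw [map_sub, map_add, map_mul, map_natCast, map_natCast, map_zero, hq, hl] at e1
  rw [map_sub, map_add, map_mul, map_natCast, map_natCast, map_zero, hq', hl'] at e2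
  have e3 : (1 : ℂ) = 0 := by linear_combination e2 - e1
  exact one_ne_zero e3

private theorem Cmp_q3 : (algebraMap R2 K2 qq) ^ 2 ≠ 3 := by
  intro h
  have h1 : qq ^ 2 = 3 := by
    apply Cmp_inj
    rw [map_pow, map_ofNat]
    exact h
  obtain ⟨φ, hq, -⟩ := R2_lift (S := ℂ) (a := 1) (b := 1) isUnit_one isUnit_one
  have e1 := congrArg φ h1
  rw [map_pow, hq, map_ofNat] at e1
  norm_num at e1

private theorem Cmp_single {n : ℕ} {M : CoxeterMatrix (Fin n)} (hRF : RF M) {s : Fin n}
    (hSat : Sat M {s}) {b : Fin n → ℤ} (hb : Rt M b) (hb0 : ∀ i, i ∉ ({s} : Finset (Fin n)) → b i = 0) :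
    b = e s := by
  have h0 : ∀ i, i ≠ s → b i = 0 := fun i hi => hb0 i (by rwa [Finset.mem_singleton])
  have h1 : ∃ t, b = e t := by
    by_contra hno
    obtain ⟨u, hu⟩ := hRF.a.desc b hb fun t ht => hno ⟨t, ht⟩
    by_cases hus : u = s
    · subst hus
      unfold pr at hu
      have h2 : (∑ j, if adj M j u then b j else 0) = 0 := by
        apply Finset.sum_eq_zero
        intro j _
        split_ifs with hj
        · exact h0 j (adj_ne hj)
        · rfl
      rw [h2] at hu
      omega
    · have h2 := hRF.c.sat {s} b u hSat hb0 (by rwa [Finset.mem_singleton])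
      omega
  obtain ⟨t, ht⟩ := h1
  have hts : t = s := by
    by_contra hne
    have h2 := h0 t hne
    rw [ht] at h2
    unfold e at h2
    rw [Pi.single_eq_same] at h2
    exact one_ne_zero h2
  rw [ht, hts]

theorem pCmp (h1 : SLkA) (h2 : SLKr) (h3 : SIrr) (h4 : SChar) (h5 : SG6) (h6 : ST1) (h7 : ST2)
    (h8 : ST7) (h9 : ST9) : SCmp := by
  intro n M hM hRF hFH s
  obtain ⟨hSat, hConn, hs⟩ := hRF.c.cmps s
  have hcz := Cmp_cz
  obtain ⟨hrt, -, -, hes, hlk⟩ := h1 n M hRF (cmp M s)
  by_cases h3c : 3 ≤ (cmp M s).card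
  · obtain ⟨hgen, hbase⟩ := h2 n M hM hRF hFH (cmp M s) hSat
    obtain ⟨H, hH, hTw⟩ := h5 n M hM hRF hFH (cmp M s) hSat hConn h3c
    have hmap : ∀ x, (LKr M (cmp M s) (algebraMap R2 K2 qq) (algebraMap R2 K2 ll) x).1 =
        (LKr M (cmp M s) qq ll x).1.map (algebraMap R2 K2) :=
      hbase R2 K2 (algebraMap R2 K2) qq ll qq_unit ll_unit
    refine ⟨PR M (cmp M s), inferInstance, inferInstance,
      LKr M (cmp M s) (algebraMap R2 K2 qq) (algebraMap R2 K2 ll), H, hH, ?_, ?_, ?_, ?_⟩
    · simp only [hmap]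
      exact h3 n M hM hRF hFH (cmp M s) hSat hConn ⟨s, hs⟩
    · intro i
      rw [hgen K2 _ _ (qq_unit.map _) (ll_unit.map _)]
      by_cases hi : i ∈ cmp M s
      · obtain ⟨a, b, -, -, hF⟩ := h4 n M hM hRF hFH (cmp M s) hSat hConn h3c i hi
        have e1 := (hF K2 (IsScalarTower.toAlgHom ℂ R2 K2)).2
        intro h0
        exact Cmp_tr (e1.symm.trans h0)
      · rw [(hlk K2 _ _).2.2.2 hSat i hi, Matrix.trace_one]
        have : Nonempty (PR M (cmp M s)) := ⟨⟨e s, (hes s).2 hs⟩⟩
        exact Nat.cast_ne_zero.2 Fintype.card_ne_zero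
    · intro α hα
      obtain ⟨-, χ, g, hg⟩ := hTw α hα
      refine ⟨(Units.map (algebraMap R2 K2).toMonoidHom).comp χ, g, fun x => ?_⟩
      rw [hmap, hmap]
      exact hg x
    · rintro z ⟨a, ha⟩
      exact ⟨a, by rw [← hmap]; exact ha⟩
  · by_cases h2c : (cmp M s).card = 2
    · obtain ⟨t, hts, hC⟩ : ∃ t, s ≠ t ∧ cmp M s = {s, t} := by
        obtain ⟨x, y, hxy, hC⟩ := Finset.card_eq_two.1 h2c
        rw [hC, Finset.mem_insert, Finset.mem_singleton] at hs
        rcases hs with hs | hs
        · exact ⟨y, by rw [hs]; exact hxy, by rw [hC, hs]⟩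
        · exact ⟨x, by rw [hs]; exact hxy.symm, by rw [hC, hs, Finset.pair_comm]⟩
      have hadj : adj M s t := by
        have ht : t ∈ cmp M s := by rw [hC]; simp
        have e1 := hConn s hs t ht
        rcases Relation.ReflTransGen.cases_head e1 with e2 | ⟨c, hc, -⟩
        · exact absurd e2 hts
        · have hcC := hSat s hs c hc
          rw [hC, Finset.mem_insert, Finset.mem_singleton] at hcC
          rcases hcC with rfl | rfl
          · exact absurd hc (adj_irrefl _)
          · exact hc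
      rw [hC] at hSat ⊢
      obtain ⟨hom, hT⟩ := h6
      obtain ⟨hT1, -, -⟩ := hT n M hM s t hadj hSat
      have hw : (algebraMap R2 K2 (algebraMap ℂ R2 om)) ^ 2 +
          algebraMap R2 K2 (algebraMap ℂ R2 om) + 1 = 0 := by
        have e1 := congrArg (fun c => algebraMap R2 K2 (algebraMap ℂ R2 c)) hom
        simpa only [map_add, map_pow, map_one, map_zero] using e1
      obtain ⟨H, hH, hTS⟩ := h8 n M hM s t hadj hSat
      refine ⟨Fin 2, inferInstance, inferInstance,
        T2 M s t (algebraMap R2 K2 (algebraMap ℂ R2 om)) (algebraMap R2 K2 qq), H, hH,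
        h7 n M hM s t hadj hSat K2 _ _ hw Cmp_q3, ?_, hTS,
        h9 n M hM hRF hFH s t hadj hSat⟩
      intro i
      have hq0 : algebraMap R2 K2 qq ≠ 0 := (qq_unit.map _).ne_zero
      rw [(hT1 K2 _ _ hw).1 i]
      unfold m2
      split_ifs with h11 h12
      · rw [Matrix.trace_fin_two_of, add_zero]
        exact hq0
      · rw [Matrix.trace_fin_two_of, zero_add]
        exact hq0
      · rw [Matrix.trace_one, Fintype.card_fin]
        exact Nat.cast_ne_zero.2 two_ne_zero
    · have hC : cmp M s = {s} := by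
        have h1c : (cmp M s).card = 1 := by
          have : 0 < (cmp M s).card := Finset.card_pos.2 ⟨s, hs⟩
          omega
        obtain ⟨x, hx⟩ := Finset.card_eq_one.1 h1c
        rw [hx, Finset.mem_singleton] at hs
        rw [hx, hs]
      refine ⟨Fin 1, inferInstance, inferInstance, 1, ⊤, inferInstance, ?_, ?_, ?_, ?_⟩
      · rw [eq_top_iff]
        intro Y _
        have e1 : Y = Y 0 0 • (1 : Matrix (Fin 1) (Fin 1) K2) := by
          ext i j
          have hi : i = 0 := Subsingleton.elim _ _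
          have hj : j = 0 := Subsingleton.elim _ _
          subst hi hj
          rw [Matrix.smul_apply, Matrix.one_apply_eq, smul_eq_mul, mul_one]
        rw [e1]
        exact Submodule.smul_mem _ _ (Submodule.subset_span ⟨1, rfl⟩)
      · intro i
        rw [MonoidHom.one_apply, Units.val_one, Matrix.trace_one, Fintype.card_fin]
        exact Nat.cast_ne_zero.2 one_ne_zero
      · intro α _
        refine ⟨1, 1, fun x => ?_⟩
        simp
      · intro z _
        have hall : ∀ i : PR M (cmp M s), i.1 = e s := by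
          intro i
          obtain ⟨e1, e2⟩ := (hrt i.1).1 i.2
          have hSat' : Sat M {s} := by rw [← hC]; exact hSat
          exact Cmp_single hRF hSat' e1 fun k hk => e2 k (by rw [hC]; exact hk)
        let i0 : PR M (cmp M s) := ⟨e s, (hes s).2 hs⟩
        have hi0 : ∀ i : PR M (cmp M s), i = i0 := fun i => Subtype.ext (hall i)
        refine ⟨(LKr M (cmp M s) qq ll z).1.map (algebraMap R2 K2) i0 i0, ?_⟩
        ext i j
        rw [hi0 i, hi0 j, Matrix.smul_apply, Matrix.one_apply_eq, smul_eq_mul, mul_one]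

end Pool.Agent.Lib.MP_97567f_al
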