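import Pool.Agent.Lib.MP_97567f_al.SpecD

/-!
# MP_97567f_al: components of the variety of representations
-/

set_option autoImplicit false

namespace Pool.Agent.Lib.MP_97567f_al

section univ

variable (A : Type) [Group A] (ι : Type) [Fintype ι] [DecidableEq ι]

/-- The relations of the universal ring. -/
private def Comp_rel : Set (MvPolynomial (A × ι × ι) ℂ) :=
  {p | (∃ i k, p = MvPolynomial.X (1, i, k) - MvPolynomial.C ((1 : Matrix ι ι ℂ) i k)) ∨
    ∃ x y i k, p = MvPolynomial.X (x * y, i, k) -
      ∑ m, MvPolynomial.X (x, i, m) * MvPolynomial.X (y, m, k)}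

/-- The universal ring of the representations. -/
private abbrev Comp_B : Type := MvPolynomial (A × ι × ι) ℂ ⧸ Ideal.span (Comp_rel A ι)

/-- The universal representation. -/
private noncomputable def Comp_U : A →* Matrix ι ι (Comp_B A ι) where
  toFun x := Matrix.of fun i k => Ideal.Quotient.mk (Ideal.span (Comp_rel A ι))
    (MvPolynomial.X (x, i, k))
  map_one' := by
    ext i k
    have h : MvPolynomial.X (1, i, k) - MvPolynomial.C ((1 : Matrix ι ι ℂ) i k) ∈
        Ideal.span (Comp_rel A ι) := Ideal.subset_span (Or.inl ⟨i, k, rfl⟩)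
    rw [Matrix.of_apply, (Ideal.Quotient.mk_eq_mk_iff_sub_mem _ _).2 h]
    by_cases hik : i = k
    · subst hik; simp
    · simp [hik]
  map_mul' := by
    intro x y
    ext i k
    have h : (MvPolynomial.X (x * y, i, k) -
      ∑ m, MvPolynomial.X (x, i, m) * MvPolynomial.X (y, m, k) : MvPolynomial (A × ι × ι) ℂ) ∈
        Ideal.span (Comp_rel A ι) := Ideal.subset_span (Or.inr ⟨x, y, i, k, rfl⟩)
    rw [Matrix.of_apply, (Ideal.Quotient.mk_eq_mk_iff_sub_mem _ _).2 h, Matrix.mul_apply, map_sum]
    simp only [map_mul, Matrix.of_apply]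

variable {A ι}

private lemma Comp_U_apply (x : A) (i k : ι) :
    Comp_U A ι x i k = Ideal.Quotient.mk (Ideal.span (Comp_rel A ι)) (MvPolynomial.X (x, i, k)) :=
  rfl

/-- The universal property. -/
private noncomputable def Comp_lift {S : Type} [CommRing S] [Algebra ℂ S]
    (τ : A →* Matrix ι ι S) : Comp_B A ι →ₐ[ℂ] S :=
  Ideal.Quotient.liftₐ (Ideal.span (Comp_rel A ι))
    (MvPolynomial.aeval fun p : A × ι × ι => τ p.1 p.2.1 p.2.2) (by
      intro a ha
      have h : Ideal.span (Comp_rel A ι) ≤ RingHom.ker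
          (MvPolynomial.aeval (R := ℂ) fun p : A × ι × ι => τ p.1 p.2.1 p.2.2) := by
        rw [Ideal.span_le]
        rintro p (⟨i, k, rfl⟩ | ⟨x, y, i, k, rfl⟩)
        · simp only [SetLike.mem_coe, RingHom.mem_ker, map_sub, MvPolynomial.aeval_X, map_one,
            MvPolynomial.algHom_C]
          by_cases hik : i = k
          · subst hik; simp
          · simp [hik]
        · simp only [SetLike.mem_coe, RingHom.mem_ker, map_sub, MvPolynomial.aeval_X, map_mul,
            map_sum, Matrix.mul_apply, sub_self]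
      exact h ha)

private lemma Comp_lift_U {S : Type} [CommRing S] [Algebra ℂ S]
    (τ : A →* Matrix ι ι S) (x : A) (i k : ι) :
    Comp_lift τ (Comp_U A ι x i k) = τ x i k := by
  rw [Comp_U_apply, Comp_lift]
  simp

private lemma Comp_ext {S : Type} [CommRing S] [Algebra ℂ S] {f g : Comp_B A ι →ₐ[ℂ] S}
    (h : ∀ x i k, f (Comp_U A ι x i k) = g (Comp_U A ι x i k)) : f = g := by
  apply Ideal.Quotient.algHom_ext
  apply MvPolynomial.algHom_ext
  rintro ⟨x, i, k⟩
  exact h x i k

private lemma Comp_adjoin (T : Subalgebra ℂ (Comp_B A ι)) (h : ∀ x i k, Comp_U A ι x i k ∈ T) :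
    T = ⊤ := by
  rw [eq_top_iff]
  rintro b -
  obtain ⟨b, rfl⟩ := Ideal.Quotient.mk_surjective b
  induction b using MvPolynomial.induction_on with
  | C a => exact T.algebraMap_mem a
  | add p q hp hq => rw [map_add]; exact T.add_mem hp hq
  | mul_X p n hp => rw [map_mul]; exact T.mul_mem hp (h n.1 n.2.1 n.2.2)

private lemma Comp_noeth (hA : Group.FG A) : IsNoetherianRing (Comp_B A ι) := by
  have h1 : Monoid.FG A := Group.fg_iff_monoid_fg.1 hA
  obtain ⟨S, hS, hfin⟩ := (Monoid.fg_iff).1 h1
  have hft : Algebra.FiniteType ℂ (Comp_B A ι) := by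
    refine ⟨(Subalgebra.fg_def).2 ⟨(fun p : A × ι × ι => Comp_U A ι p.1 p.2.1 p.2.2) ''
      (S ×ˢ Set.univ), (hfin.prod Set.finite_univ).image _, ?_⟩⟩
    apply Comp_adjoin
    intro x
    have hx : x ∈ Submonoid.closure S := by rw [hS]; trivial
    induction hx using Submonoid.closure_induction with
    | mem x hx =>
      intro i k
      exact Algebra.subset_adjoin ⟨(x, i, k), ⟨hx, trivial⟩, rfl⟩
    | one =>
      intro i k
      rw [map_one, Matrix.one_apply]
      split
      · exact one_mem _
      · exact zero_mem _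
    | mul x y _ _ hx hy =>
      intro i k
      rw [map_mul, Matrix.mul_apply]
      exact sum_mem fun m _ => mul_mem (hx i m) (hy m k)
  exact Algebra.FiniteType.isNoetherianRing ℂ _

/-- The action of the automorphisms. -/
private noncomputable def Comp_s (α : MulAut A) : Comp_B A ι →ₐ[ℂ] Comp_B A ι :=
  Comp_lift ((Comp_U A ι).comp (α : A →* A))

private lemma Comp_s_U (α : MulAut A) (x : A) (i k : ι) :
    Comp_s α (Comp_U A ι x i k) = Comp_U A ι (α x) i k := by
  rw [Comp_s, Comp_lift_U]; rfl

private lemma Comp_s_mul (α β : MulAut A) :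
    (Comp_s (α * β) : Comp_B A ι →ₐ[ℂ] Comp_B A ι) = (Comp_s α).comp (Comp_s β) := by
  apply Comp_ext
  intro x i k
  rw [AlgHom.comp_apply, Comp_s_U, Comp_s_U, Comp_s_U]; rfl

private lemma Comp_s_one :
    (Comp_s (1 : MulAut A) : Comp_B A ι →ₐ[ℂ] Comp_B A ι) = AlgHom.id ℂ _ := by
  apply Comp_ext
  intro x i k
  rw [Comp_s_U]; rfl

/-- The action of the automorphisms, as equivalences. -/
private noncomputable def Comp_e (α : MulAut A) : Comp_B A ι ≃ₐ[ℂ] Comp_B A ι :=
  AlgEquiv.ofAlgHom (Comp_s α) (Comp_s α⁻¹) (by rw [← Comp_s_mul, mul_inv_cancel, Comp_s_one])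
    (by rw [← Comp_s_mul, inv_mul_cancel, Comp_s_one])

private lemma Comp_e_U (α : MulAut A) (x : A) (i k : ι) :
    Comp_e α (Comp_U A ι x i k) = Comp_U A ι (α x) i k := Comp_s_U α x i k

private lemma Comp_e_mul (α β : MulAut A) (b : Comp_B A ι) :
    Comp_e (α * β) b = Comp_e α (Comp_e β b) := by
  change Comp_s (α * β) b = Comp_s α (Comp_s β b)
  rw [Comp_s_mul]; rfl

private lemma Comp_e_one (b : Comp_B A ι) :
    Comp_e (1 : MulAut A) b = b := by
  change Comp_s (1 : MulAut A) b = b
  rw [Comp_s_one]; rfl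

private lemma Comp_min_comap (e : Comp_B A ι ≃ₐ[ℂ] Comp_B A ι) {p : Ideal (Comp_B A ι)}
    (hp : p ∈ minimalPrimes (Comp_B A ι)) : p.comap e ∈
      minimalPrimes (Comp_B A ι) := by
  rw [minimalPrimes_eq_minimals] at hp ⊢
  have hpp : p.IsPrime := hp.1
  refine ⟨Ideal.comap_isPrime _ _, ?_⟩
  intro q hq hle
  have hq' : q.IsPrime := hq
  have h1 : q.comap e.symm ≤ p := by
    intro x hx
    have h2 := hle (Ideal.mem_comap.1 hx)
    simpa using h2
  have h3 : (q.comap e.symm).IsPrime := Ideal.comap_isPrime _ _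
  intro x hx
  have h4 := hp.2 h3 h1 (Ideal.mem_comap.1 hx)
  simpa using h4

/-- The action of the automorphisms on the minimal primes. -/
private noncomputable def Comp_perm : MulAut A →* Equiv.Perm (minimalPrimes (Comp_B A ι)) where
  toFun α :=
    { toFun := fun p => ⟨p.1.comap (Comp_e (ι := ι) α⁻¹),
        Comp_min_comap _ p.2⟩
      invFun := fun p => ⟨p.1.comap (Comp_e (ι := ι) α),
        Comp_min_comap _ p.2⟩
      left_inv := by
        intro p
        apply Subtype.ext
        ext x
        simp only [Ideal.mem_comap]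
        rw [← Comp_e_mul, inv_mul_cancel, Comp_e_one]
      right_inv := by
        intro p
        apply Subtype.ext
        ext x
        simp only [Ideal.mem_comap]
        rw [← Comp_e_mul, mul_inv_cancel, Comp_e_one] }
  map_one' := by
    apply Equiv.ext
    intro p
    apply Subtype.ext
    ext x
    change Comp_e (1 : MulAut A)⁻¹ x ∈ p.1 ↔ x ∈ p.1
    rw [inv_one, Comp_e_one]
  map_mul' := by
    intro α β
    apply Equiv.ext
    intro p
    apply Subtype.ext
    ext x
    change Comp_e (α * β)⁻¹ x ∈ p.1 ↔ Comp_e β⁻¹ (Comp_e α⁻¹ x) ∈ p.1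
    rw [mul_inv_rev, Comp_e_mul]

private lemma Comp_perm_mem {α : MulAut A} (hα : α ∈ (Comp_perm (A := A) (ι := ι)).ker)
    {p : Ideal (Comp_B A ι)} (hp : p ∈ minimalPrimes (Comp_B A ι)) :
    p.comap (Comp_e (ι := ι) α) = p := by
  have h1 : Comp_perm (ι := ι) α⁻¹ = 1 := by
    rw [map_inv, (MonoidHom.mem_ker).1 hα, inv_one]
  have h2 := congrArg (fun f : Equiv.Perm (minimalPrimes (Comp_B A ι)) => (f ⟨p, hp⟩).1) h1
  have h3 : p.comap (Comp_e (ι := ι) α⁻¹⁻¹) = p := h2
  rwa [inv_inv] at h3

end univ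

section val

/-- The valuation ring. -/
private lemma Comp_val {D F : Type} [CommRing D] [IsDomain D] [Field F] (f : D →+* F)
    (hf : Function.Injective f) (P : Ideal D) [P.IsPrime] :
    ∃ (O : ValuationSubring F) (h : ∀ d, f d ∈ O),
      ∀ d, IsLocalRing.residue O ⟨f d, h d⟩ = 0 ↔ d ∈ P := by
  have hu : ∀ y : P.primeCompl, IsUnit (f y) := by
    intro y
    rw [isUnit_iff_ne_zero]
    intro h0
    have h1 : (y : D) = 0 := hf (by rw [h0, map_zero])
    exact y.2 (by rw [h1]; exact P.zero_mem)
  obtain ⟨O, h, hloc⟩ := IsLocalRing.exists_factor_valuationRing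
    (IsLocalization.lift (S := Localization.AtPrime P) hu)
  have h' : ∀ d, f d ∈ O := by
    intro d
    have := h (algebraMap D (Localization.AtPrime P) d)
    rwa [IsLocalization.lift_eq] at this
  refine ⟨O, h', fun d => ?_⟩
  rw [IsLocalRing.residue_eq_zero_iff]
  have h2 : (⟨f d, h' d⟩ : O) = ((IsLocalization.lift (S := Localization.AtPrime P) hu).codRestrict
      O.toSubring h) (algebraMap D (Localization.AtPrime P) d) := by
    apply Subtype.ext
    change f d = IsLocalization.lift (S := Localization.AtPrime P) hu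
      (algebraMap D (Localization.AtPrime P) d)
    rw [IsLocalization.lift_eq]
  rw [h2, ← IsLocalization.AtPrime.to_map_mem_maximal_iff (Localization.AtPrime P) P d]
  rw [IsLocalRing.mem_maximalIdeal, IsLocalRing.mem_maximalIdeal, mem_nonunits_iff,
    mem_nonunits_iff, not_iff_not]
  constructor
  · intro h3
    exact hloc.map_nonunit _ h3
  · intro h3
    exact h3.map _

/-- Automorphisms extend to the algebraic closure. -/
private lemma Comp_aut (D : Type) [CommRing D] [IsDomain D] [Algebra ℂ D] (e : D ≃ₐ[ℂ] D) :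
    ∃ σ : AlgebraicClosure (FractionRing D) ≃ₐ[ℂ] AlgebraicClosure (FractionRing D), ∀ d,
      σ (algebraMap (FractionRing D) _ (algebraMap D (FractionRing D) d)) =
        algebraMap (FractionRing D) _ (algebraMap D (FractionRing D) (e d)) := by
  let eL : FractionRing D ≃ₐ[ℂ] FractionRing D := IsFractionRing.algEquivOfAlgEquiv e
  have heL : ∀ d, eL (algebraMap D (FractionRing D) d) = algebraMap D (FractionRing D) (e d) :=
    fun d => IsFractionRing.algEquivOfAlgEquiv_algebraMap e d
  let eF : AlgebraicClosure (FractionRing D) ≃+* AlgebraicClosure (FractionRing D) :=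
    IsAlgClosure.equivOfEquiv _ _ eL.toRingEquiv
  have heF : ∀ y : FractionRing D, eF (algebraMap (FractionRing D) _ y) =
      algebraMap (FractionRing D) _ (eL y) :=
    fun y => IsAlgClosure.equivOfEquiv_algebraMap _ _ eL.toRingEquiv y
  refine ⟨AlgEquiv.ofRingEquiv (f := eF) ?_, ?_⟩
  · intro c
    rw [IsScalarTower.algebraMap_apply ℂ (FractionRing D) (AlgebraicClosure (FractionRing D)) c,
      heF, eL.commutes]
  · intro d
    change eF _ = _
    rw [heF, heL]

/-- The valuation ring and the map of the residue fields. -/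
private lemma Comp_core (D R : Type) [CommRing D] [IsDomain D] [Algebra ℂ D] [CommRing R]
    [IsDomain R] [Algebra ℂ R] (q : D →ₐ[ℂ] R) (hq : Function.Surjective q) :
    ∃ (O : ValuationSubring (AlgebraicClosure (FractionRing D)))
      (j : R →+* IsLocalRing.ResidueField O) (g : D →+* O), Function.Injective j ∧
      (∀ d, (g d : AlgebraicClosure (FractionRing D)) =
        algebraMap (FractionRing D) _ (algebraMap D (FractionRing D) d)) ∧
      (∀ d, j (q d) = IsLocalRing.residue O (g d)) ∧
      ∀ c : ℂ, ∃ h : algebraMap ℂ (AlgebraicClosure (FractionRing D)) c ∈ O,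
        IsLocalRing.residue O ⟨algebraMap ℂ _ c, h⟩ = j (algebraMap ℂ R c) := by
  have hP' : (RingHom.ker q).IsPrime := RingHom.ker_isPrime _
  let f : D →+* AlgebraicClosure (FractionRing D) :=
    (algebraMap (FractionRing D) _).comp (algebraMap _ _)
  have hf : Function.Injective f :=
    (algebraMap (FractionRing D) _).injective.comp (IsFractionRing.injective D (FractionRing D))
  obtain ⟨O, h, hres⟩ := Comp_val f hf (RingHom.ker q)
  let g : D →+* O :=
    { toFun := fun b => ⟨f b, h _⟩
      map_one' := by apply Subtype.ext; simp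
      map_mul' := fun x y => by apply Subtype.ext; simp
      map_zero' := by apply Subtype.ext; simp
      map_add' := fun x y => by apply Subtype.ext; simp }
  have hker : ∀ b, IsLocalRing.residue O (g b) = 0 ↔ q b = 0 := by
    intro b
    have h1 := hres b
    rw [RingHom.mem_ker] at h1
    exact h1
  let j : R →+* IsLocalRing.ResidueField O :=
    RingHom.liftOfRightInverse (q : D →+* R) (Function.surjInv hq)
      (Function.rightInverse_surjInv hq) ⟨(IsLocalRing.residue O).comp g, by
        intro b hb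
        exact (hker b).2 hb⟩
  have hj : ∀ b, j (q b) = IsLocalRing.residue O (g b) := fun b =>
    RingHom.liftOfRightInverse_comp_apply (q : D →+* R) (Function.surjInv hq)
      (Function.rightInverse_surjInv hq) _ b
  refine ⟨O, j, g, ?_, fun d => rfl, hj, ?_⟩
  · rw [injective_iff_map_eq_zero]
    intro r hr
    obtain ⟨b, rfl⟩ := hq r
    rw [hj] at hr
    exact (hker b).1 hr
  · intro c
    have h1 : algebraMap ℂ (AlgebraicClosure (FractionRing D)) c = f (algebraMap ℂ D c) := by
      rw [IsScalarTower.algebraMap_apply ℂ (FractionRing D)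
        (AlgebraicClosure (FractionRing D)) c,
        IsScalarTower.algebraMap_apply ℂ D (FractionRing D) c]
      rfl
    refine ⟨by rw [h1]; exact h _, ?_⟩
    rw [← q.commutes, hj]
    congr 1

end val

/-- **Components of the variety of representations.** -/
theorem pComp : SComp := by
  intro A _ hA ι _ _ R _ _ _ ρ hρ
  have hnoeth := Comp_noeth (A := A) (ι := ι) hA
  let π : Comp_B A ι →ₐ[ℂ] R := Comp_lift ((Units.coeHom _).comp ρ)
  have hπU : ∀ x i k, π (Comp_U A ι x i k) = (ρ x).1 i k := fun x i k => Comp_lift_U _ x i k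
  have hπs : Function.Surjective π := by
    rw [← AlgHom.range_eq_top, eq_top_iff, ← hρ]
    apply Algebra.adjoin_le
    rintro _ ⟨p, rfl⟩
    exact ⟨Comp_U A ι p.1 p.2.1 p.2.2, hπU _ _ _⟩
  have hP : (RingHom.ker π).IsPrime := RingHom.ker_isPrime _
  obtain ⟨p, hp, hpP⟩ := Ideal.exists_minimalPrimes_le (bot_le : ⊥ ≤ RingHom.ker π)
  have hpp : p.IsPrime := hp.1.1
  let q : (Comp_B A ι ⧸ p) →ₐ[ℂ] R := Ideal.Quotient.liftₐ p π fun a ha => hpP ha
  have hqm : ∀ b, q (Ideal.Quotient.mk p b) = π b := fun b => rfl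
  have hq : Function.Surjective q := by
    intro r
    obtain ⟨b, rfl⟩ := hπs r
    exact ⟨Ideal.Quotient.mk p b, hqm b⟩
  obtain ⟨O, j, g, hjinj, hg, hj, hc⟩ := Comp_core (Comp_B A ι ⧸ p) R q hq
  let gB : Comp_B A ι →+* O :=
    { toFun := fun b => g (Ideal.Quotient.mk p b)
      map_one' := by rw [map_one, map_one]
      map_mul' := fun x y => by rw [map_mul, map_mul]
      map_zero' := by rw [map_zero, map_zero]
      map_add' := fun x y => by rw [map_add, map_add] }
  let ρ' : A →* GL ι O := MonoidHom.toHomUnits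
    (((gB.mapMatrix : Matrix ι ι (Comp_B A ι) →+* Matrix ι ι O) :
      Matrix ι ι (Comp_B A ι) →* Matrix ι ι O).comp (Comp_U A ι))
  have hρ' : ∀ x i k, (ρ' x).1 i k = g (Ideal.Quotient.mk p (Comp_U A ι x i k)) :=
    fun x i k => rfl
  refine ⟨AlgebraicClosure (FractionRing (Comp_B A ι ⧸ p)), inferInstance, inferInstance,
    inferInstance, O, j, ρ', (Comp_perm (A := A) (ι := ι)).ker, ?_, hjinj, hc, ?_, ?_⟩
  · have : Finite (minimalPrimes (Comp_B A ι)) :=
      (minimalPrimes.finite_of_isNoetherianRing (Comp_B A ι)).to_subtype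
    exact Subgroup.finiteIndex_ker _
  · intro x
    ext i k
    rw [Matrix.map_apply, Matrix.map_apply, hρ', ← hπU, ← hqm, hj]
  · intro α hα
    have h1 := Comp_perm_mem hα hp
    have h2 : p = p.map (Comp_e (ι := ι) α : Comp_B A ι →+* Comp_B A ι) := by
      have h5 : (p.comap (Comp_e (ι := ι) α)).map (Comp_e (ι := ι) α) = p :=
        Ideal.map_comap_of_surjective (Comp_e (ι := ι) α) (Comp_e (ι := ι) α).surjective p
      rw [h1] at h5
      exact h5.symm
    obtain ⟨σ, hσ⟩ := Comp_aut (Comp_B A ι ⧸ p) (Ideal.quotientEquivAlg p p (Comp_e α) h2)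
    refine ⟨σ, fun x => ?_⟩
    ext i k
    rw [Matrix.map_apply, Matrix.map_apply, Matrix.map_apply, hρ', hρ']
    have h3 := hσ (Ideal.Quotient.mk p (Comp_U A ι x i k))
    have h4 : (Ideal.quotientEquivAlg p p (Comp_e α) h2) (Ideal.Quotient.mk p
        (Comp_U A ι x i k)) = Ideal.Quotient.mk p (Comp_U A ι (α x) i k) := by
      rw [← Comp_e_U]; rfl
    rw [h4, ← hg, ← hg] at h3
    exact h3.symm

end Pool.Agent.Lib.MP_97567f_al
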