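import Pool.Agent.Lib.MP_97567f_al.SpecD

/-!
# MP_97567f_al: module D2 (the rank three part)
-/

set_option autoImplicit false

namespace Pool.Agent.Lib.MP_97567f_al

open Polynomial

/-- the coefficient -/
private noncomputable def D2_f {n : ℕ} (M : CoxeterMatrix (Fin n)) {R : Type} [CommRing R]
    (q l : R) (s : Fin n) (b : Fin n → ℤ) : R := l * aeval q (fh M s b)

/-- the action on the basis -/
private structure D2_D {n : ℕ} (M : CoxeterMatrix (Fin n)) (C : Finset (Fin n)) {R : Type}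
    [CommRing R] (q l : R) : Prop where
  rt : ∀ b ∈ roots M C, Rt M b
  add : ∀ b ∈ roots M C, ∀ s ∈ C, pr M b s = -1 → b + e s ∈ roots M C
  sub : ∀ b ∈ roots M C, ∀ s, pr M b s = 1 → b - e s ∈ roots M C
  es : ∀ s, e s ∈ roots M C ↔ s ∈ C
  ste : ∀ s ∈ C, (lk M C q l s).mulVec (xv M C (e s)) = l • xv M C (e s)
  stm : ∀ s, ∀ b ∈ roots M C, pr M b s = -1 → (lk M C q l s).mulVec (xv M C b) =
    xv M C (b + e s) + (1 - q) • xv M C b + D2_f M q l s b • xv M C (e s)
  stz : ∀ s, ∀ b ∈ roots M C, pr M b s = 0 → (lk M C q l s).mulVec (xv M C b) =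
    xv M C b + D2_f M q l s b • xv M C (e s)
  stp : ∀ s, ∀ b ∈ roots M C, pr M b s = 1 → (lk M C q l s).mulVec (xv M C b) =
    q • xv M C (b - e s) + D2_f M q l s b • xv M C (e s)
  exp : ∀ v : PR M C → R, v = ∑ b, v b • xv M C b.1

private theorem D2_mk (hL : SLkA) {n : ℕ} {M : CoxeterMatrix (Fin n)} (hM : RF M)
    (C : Finset (Fin n)) {R : Type} [CommRing R] (q l : R) : D2_D M C q l := by
  obtain ⟨h1, h2, h3, h4, h5⟩ := hL n M hM C
  obtain ⟨a1, a2, a3, a4⟩ := h5 R q l
  have hne : ∀ b s, pr M b s ≠ 2 → b ≠ e s := by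
    rintro b s h rfl
    exact h (hM.a.pre s)
  refine ⟨fun b hb => ((h1 b).1 hb).1, fun b hb s hs hp => h2 b hb s hp hs, h3, h4,
    fun s hs => ?_, fun s b hb hp => ?_, fun s b hb hp => ?_, fun s b hb hp => ?_, a3⟩
  · rw [a1 s _ ((h4 s).2 hs), img, if_pos rfl]
  · rw [a1 s b hb, img, if_neg (hne b s (by rw [hp]; decide)), if_pos hp]
    rfl
  · rw [a1 s b hb, img, if_neg (hne b s (by rw [hp]; decide)), if_neg (by rw [hp]; decide),
      if_neg (by rw [hp]; decide)]
    rfl
  · rw [a1 s b hb, img, if_neg (hne b s (by rw [hp]; decide)), if_neg (by rw [hp]; decide),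
      if_pos hp]
    rfl

section abs

variable {K W : Type} [Field K] [AddCommGroup W] [Module K W]

/-- the cubic relation -/
private def D2_Cub (A B : W →ₗ[K] W) (q : K) (u : W) : Prop :=
  A (B (A (B (A (B u))))) = (1 - q) • A (B (A (B u))) + (q * (1 - q)) • A (B u) + q ^ 2 • u

private theorem D2_tri1 {A B : W →ₗ[K] W} {q : K} {u0 u1 u2 : W}
    (a0 : A u0 = u1 + (1 - q) • u0) (a1 : A u1 = q • u0) (a2 : A u2 = u2)
    (b0 : B u0 = u0) (b1 : B u1 = u2 + (1 - q) • u1) (b2 : B u2 = q • u1) :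
    D2_Cub A B q u0 ∧ D2_Cub A B q u1 ∧ D2_Cub A B q u2 := by
  refine ⟨?_, ?_, ?_⟩ <;> unfold D2_Cub
  · simp only [a0, a1, a2, b0, b1, b2, map_add, map_smul]
    module
  · simp only [a0, a1, a2, b0, b1, b2, map_add, map_smul]
    module
  · simp only [a0, a1, a2, b0, b1, b2, map_add, map_smul]
    module

private theorem D2_tri2 {A B : W →ₗ[K] W} {q : K} {u0 u1 u2 : W}
    (a0 : B u0 = u1 + (1 - q) • u0) (a1 : B u1 = q • u0) (a2 : B u2 = u2)
    (b0 : A u0 = u0) (b1 : A u1 = u2 + (1 - q) • u1) (b2 : A u2 = q • u1) :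
    D2_Cub A B q u0 ∧ D2_Cub A B q u1 ∧ D2_Cub A B q u2 := by
  refine ⟨?_, ?_, ?_⟩ <;> unfold D2_Cub
  · simp only [a0, a1, a2, b0, b1, b2, map_add, map_smul]
    module
  · simp only [a0, a1, a2, b0, b1, b2, map_add, map_smul]
    module
  · simp only [a0, a1, a2, b0, b1, b2, map_add, map_smul]
    module

private theorem D2_fix {A B : W →ₗ[K] W} {q : K} {u : W} (a : A u = u) (b : B u = u) :
    D2_Cub A B q u := by
  unfold D2_Cub
  simp only [a, b]
  module

private theorem D2_final {A B : W →ₗ[K] W} {q z : K} (h : ∀ u, D2_Cub A B q u)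
    (h1 : z ≠ 1) (h3 : z ≠ q ^ 3) {w : W} (hw : A (B (A (B (A (B w))))) = z • w) : w = 0 := by
  have k0 := h w
  have k1 := h (A (B w))
  have k2 := h (A (B (A (B w))))
  have k3 := h (A (B (A (B (A (B w))))))
  unfold D2_Cub at k0 k1 k2 k3
  have e6 : A (B (A (B (A (B (A (B (A (B (A (B w))))))))))) = (z * z) • w := by
    rw [hw]
    simp only [map_smul]
    rw [hw, smul_smul]
  have e : ((z - 1) * (z - q ^ 3)) • w = 0 := by
    have e1 : A (B (A (B (A (B (A (B (A (B (A (B w))))))))))) -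
        (1 + q ^ 3) • A (B (A (B (A (B w))))) + q ^ 3 • w = 0 := by
      linear_combination (norm := module) k3 + (1 - q) • k2 + (1 - q) • k1 - q • k0
    rw [e6, hw] at e1
    rw [← e1]
    module
  rcases smul_eq_zero.1 e with h4 | h4
  · exfalso
    rcases mul_eq_zero.1 h4 with h5 | h5
    · exact h1 (sub_eq_zero.1 h5)
    · exact h3 (sub_eq_zero.1 h5)
  · exact h4

end abs

theorem pD2 (h1 : SLkA) : SD2 := by
  intro n M hM hF C hC K _ q l hG s hs t ht hst
  classical
  have D := D2_mk h1 hM C q l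
  have hts := adj_symm hst
  have pst := hM.a.pra s t hst
  have pts := hM.a.pra t s hts
  have pss := hM.a.pre s
  have ptt := hM.a.pre t
  have hes := (D.es s).2 hs
  have het := (D.es t).2 ht
  have hest := D.add _ hes t ht pst
  set A := (lk M C q l s).mulVecLin with hA
  set B := (lk M C q l t).mulVecLin with hB
  set T : Submodule K (PR M C → K) :=
    Submodule.span K (Set.range ![xv M C (R := K) (e s), xv M C (e t), xv M C (e s + e t)])
    with hT
  have ts : xv M C (R := K) (e s) ∈ T := Submodule.subset_span ⟨0, rfl⟩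
  have tt : xv M C (R := K) (e t) ∈ T := Submodule.subset_span ⟨1, rfl⟩
  have tst : xv M C (R := K) (e s + e t) ∈ T := Submodule.subset_span ⟨2, rfl⟩
  have hspan : ∀ L : (PR M C → K) →ₗ[K] (PR M C → K), L (xv M C (e s)) ∈ T →
      L (xv M C (e t)) ∈ T → L (xv M C (e s + e t)) ∈ T → T ≤ T.comap L := by
    intro L a b c
    rw [hT, Submodule.span_le]
    rintro _ ⟨i, rfl⟩
    fin_cases i
    · exact a
    · exact b
    · exact c
  have hAT : T ≤ T.comap A := by
    refine hspan A ?_ ?_ ?_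
    · rw [hA, Matrix.mulVecLin_apply, D.ste s hs]
      exact T.smul_mem _ ts
    · rw [hA, Matrix.mulVecLin_apply, D.stm s _ het pts, add_comm (e t) (e s)]
      exact add_mem (add_mem tst (T.smul_mem _ tt)) (T.smul_mem _ ts)
    · rw [hA, Matrix.mulVecLin_apply, D.stp s _ hest
        (by rw [hM.a.pr_add, pss, pts]; norm_num), add_sub_cancel_left]
      exact add_mem (T.smul_mem _ tt) (T.smul_mem _ ts)
  have hBT : T ≤ T.comap B := by
    refine hspan B ?_ ?_ ?_
    · rw [hB, Matrix.mulVecLin_apply, D.stm t _ hes pst]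
      exact add_mem (add_mem tst (T.smul_mem _ ts)) (T.smul_mem _ tt)
    · rw [hB, Matrix.mulVecLin_apply, D.ste t ht]
      exact T.smul_mem _ tt
    · rw [hB, Matrix.mulVecLin_apply, D.stp t _ hest
        (by rw [hM.a.pr_add, ptt, pst]; norm_num), add_sub_cancel_right]
      exact add_mem (T.smul_mem _ ts) (T.smul_mem _ tt)
  set A' : ((PR M C → K) ⧸ T) →ₗ[K] ((PR M C → K) ⧸ T) := T.mapQ T A hAT with hA'
  set B' : ((PR M C → K) ⧸ T) →ₗ[K] ((PR M C → K) ⧸ T) := T.mapQ T B hBT with hB'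
  have aA : ∀ x, A' (T.mkQ x) = T.mkQ ((lk M C q l s).mulVec x) := fun x => rfl
  have aB : ∀ x, B' (T.mkQ x) = T.mkQ ((lk M C q l t).mulVec x) := fun x => rfl
  have zs : T.mkQ (xv M C (R := K) (e s)) = 0 := by
    rw [Submodule.mkQ_apply, Submodule.Quotient.mk_eq_zero]
    exact ts
  have zt : T.mkQ (xv M C (R := K) (e t)) = 0 := by
    rw [Submodule.mkQ_apply, Submodule.Quotient.mk_eq_zero]
    exact tt
  have zst : T.mkQ (xv M C (R := K) (e s + e t)) = 0 := by
    rw [Submodule.mkQ_apply, Submodule.Quotient.mk_eq_zero]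
    exact tst
  have rAm : ∀ b ∈ roots M C, pr M b s = -1 → A' (T.mkQ (xv M C b)) =
      T.mkQ (xv M C (b + e s)) + (1 - q) • T.mkQ (xv M C b) := by
    intro b hb h
    rw [aA, D.stm s b hb h, map_add, map_add, map_smul, map_smul, zs, smul_zero, add_zero]
  have rAz : ∀ b ∈ roots M C, pr M b s = 0 → A' (T.mkQ (xv M C b)) = T.mkQ (xv M C b) := by
    intro b hb h
    rw [aA, D.stz s b hb h, map_add, map_smul, zs, smul_zero, add_zero]
  have rAp : ∀ b ∈ roots M C, pr M b s = 1 → A' (T.mkQ (xv M C b)) =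
      q • T.mkQ (xv M C (b - e s)) := by
    intro b hb h
    rw [aA, D.stp s b hb h, map_add, map_smul, map_smul, zs, smul_zero, add_zero]
  have rBm : ∀ b ∈ roots M C, pr M b t = -1 → B' (T.mkQ (xv M C b)) =
      T.mkQ (xv M C (b + e t)) + (1 - q) • T.mkQ (xv M C b) := by
    intro b hb h
    rw [aB, D.stm t b hb h, map_add, map_add, map_smul, map_smul, zt, smul_zero, add_zero]
  have rBz : ∀ b ∈ roots M C, pr M b t = 0 → B' (T.mkQ (xv M C b)) = T.mkQ (xv M C b) := by
    intro b hb h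
    rw [aB, D.stz t b hb h, map_add, map_smul, zt, smul_zero, add_zero]
  have rBp : ∀ b ∈ roots M C, pr M b t = 1 → B' (T.mkQ (xv M C b)) =
      q • T.mkQ (xv M C (b - e t)) := by
    intro b hb h
    rw [aB, D.stp t b hb h, map_add, map_smul, map_smul, zt, smul_zero, add_zero]
  -- the triples
  have tr1 : ∀ b ∈ roots M C, pr M b s = -1 → pr M b t = 0 →
      D2_Cub A' B' q (T.mkQ (xv M C b)) ∧ D2_Cub A' B' q (T.mkQ (xv M C (b + e s))) ∧
        D2_Cub A' B' q (T.mkQ (xv M C (b + e s + e t))) := by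
    intro b hb ha hc
    have m1 := D.add b hb s hs ha
    have p1 : pr M (b + e s) s = 1 := by rw [hM.a.pr_add, ha, pss]; norm_num
    have p2 : pr M (b + e s) t = -1 := by rw [hM.a.pr_add, hc, pst]; norm_num
    have m2 := D.add _ m1 t ht p2
    have p3 : pr M (b + e s + e t) s = 0 := by rw [hM.a.pr_add, p1, pts]; norm_num
    have p4 : pr M (b + e s + e t) t = 1 := by rw [hM.a.pr_add, p2, ptt]; norm_num
    refine D2_tri1 (rAm b hb ha) ?_ (rAz _ m2 p3) (rBz b hb hc) (rBm _ m1 p2) ?_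
    · rw [rAp _ m1 p1, add_sub_cancel_right]
    · rw [rBp _ m2 p4, add_sub_cancel_right]
  have tr2 : ∀ b ∈ roots M C, pr M b t = -1 → pr M b s = 0 →
      D2_Cub A' B' q (T.mkQ (xv M C b)) ∧ D2_Cub A' B' q (T.mkQ (xv M C (b + e t))) ∧
        D2_Cub A' B' q (T.mkQ (xv M C (b + e t + e s))) := by
    intro b hb ha hc
    have m1 := D.add b hb t ht ha
    have p1 : pr M (b + e t) t = 1 := by rw [hM.a.pr_add, ha, ptt]; norm_num
    have p2 : pr M (b + e t) s = -1 := by rw [hM.a.pr_add, hc, pts]; norm_num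
    have m2 := D.add _ m1 s hs p2
    have p3 : pr M (b + e t + e s) t = 0 := by rw [hM.a.pr_add, p1, pst]; norm_num
    have p4 : pr M (b + e t + e s) s = 1 := by rw [hM.a.pr_add, p2, pss]; norm_num
    refine D2_tri2 (rBm b hb ha) ?_ (rBz _ m2 p3) (rAz b hb hc) (rAm _ m1 p2) ?_
    · rw [rBp _ m1 p1, add_sub_cancel_right]
    · rw [rAp _ m2 p4, add_sub_cancel_right]
  have hzero : D2_Cub A' B' q 0 := by
    unfold D2_Cub
    simp
  have hall : ∀ b ∈ roots M C, D2_Cub A' B' q (T.mkQ (xv M C b)) := by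
    intro b hb
    have hbR := D.rt b hb
    by_cases hbs : b = e s
    · rw [hbs, zs]
      exact hzero
    by_cases hbt : b = e t
    · rw [hbt, zt]
      exact hzero
    rcases hM.a.bnd b s hbR hbs with h2 | h2 | h2 <;> rcases hM.a.bnd b t hbR hbt with h3 | h3 | h3
    · exact (hM.b.nomm b s t hbR hst h2 h3).elim
    · exact (tr1 b hb h2 h3).1
    · have k := tr2 (b - e t) (D.sub b hb t h3) (by rw [hM.a.pr_sub, h3, ptt]; norm_num)
        (by rw [hM.a.pr_sub, h2, pts]; norm_num)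
      rw [sub_add_cancel] at k
      exact k.2.1
    · exact (tr2 b hb h3 h2).1
    · exact D2_fix (rAz b hb h2) (rBz b hb h3)
    · have m1 := D.sub b hb t h3
      have p1 : pr M (b - e t) s = 1 := by rw [hM.a.pr_sub, h2, pts]; norm_num
      have k := tr1 (b - e t - e s) (D.sub _ m1 s p1)
        (by rw [hM.a.pr_sub, p1, pss]; norm_num)
        (by rw [hM.a.pr_sub, hM.a.pr_sub, h3, ptt, pst]; norm_num)
      rw [sub_add_cancel, sub_add_cancel] at k
      exact k.2.2
    · have k := tr1 (b - e s) (D.sub b hb s h2) (by rw [hM.a.pr_sub, h2, pss]; norm_num)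
        (by rw [hM.a.pr_sub, h3, pst]; norm_num)
      rw [sub_add_cancel] at k
      exact k.2.1
    · have m1 := D.sub b hb s h2
      have p1 : pr M (b - e s) t = 1 := by rw [hM.a.pr_sub, h3, pst]; norm_num
      have k := tr2 (b - e s - e t) (D.sub _ m1 t p1)
        (by rw [hM.a.pr_sub, p1, ptt]; norm_num)
        (by rw [hM.a.pr_sub, hM.a.pr_sub, h2, pss, pts]; norm_num)
      rw [sub_add_cancel, sub_add_cancel] at k
      exact k.2.2
    · rw [hM.b.pp b s t hbR hst h2 h3, zst]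
      exact hzero
  have hcub : ∀ u, D2_Cub A' B' q u := by
    intro u
    obtain ⟨v, rfl⟩ := T.mkQ_surjective u
    rw [D.exp v, map_sum]
    unfold D2_Cub
    simp only [map_sum, map_smul, Finset.smul_sum]
    rw [← Finset.sum_add_distrib, ← Finset.sum_add_distrib]
    refine Finset.sum_congr rfl fun b _ => ?_
    have k := hall b.1 b.2
    unfold D2_Cub at k
    rw [k]
    module
  have hker : LinearMap.ker (((lk M C q l s * lk M C q l t) ^ 3 -
        (l ^ 2 * q ^ 2) • (1 : Matrix (PR M C) (PR M C) K)).mulVecLin) ≤ T := by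
    intro v hv
    rw [LinearMap.mem_ker, Matrix.mulVecLin_apply, Matrix.sub_mulVec, Matrix.smul_mulVec,
      Matrix.one_mulVec, sub_eq_zero] at hv
    have k1 : A' (B' (A' (B' (A' (B' (T.mkQ v)))))) = (l ^ 2 * q ^ 2) • T.mkQ v := by
      simp only [aA, aB]
      rw [← map_smul, ← hv]
      simp only [pow_succ, pow_zero, one_mul, ← Matrix.mulVec_mulVec]
    have k2 := D2_final hcub hG.z1 hG.z3 k1
    rwa [Submodule.mkQ_apply, Submodule.Quotient.mk_eq_zero] at k2
  refine (Submodule.finrank_mono hker).trans ?_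
  have k := finrank_range_le_card (R := K) ![xv M C (R := K) (e s), xv M C (e t), xv M C (e s + e t)]
  rw [Fintype.card_fin] at k
  exact k

end Pool.Agent.Lib.MP_97567f_al
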