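import Pool.Agent.Lib.MP_97567f_al.SpecD

/-!
# MP_97567f_al: the relation of two adjacent nodes, first form
-/

set_option autoImplicit false

namespace Pool.Agent.Lib.MP_97567f_al

private theorem D3_e_ne {n : ℕ} {s t : Fin n} (h : s ≠ t) : (e s : Fin n → ℤ) ≠ e t := by
  intro h1
  have h2 := congrFun h1 s
  rw [e, e, Pi.single_eq_same, Pi.single_eq_of_ne h] at h2
  exact one_ne_zero h2

private theorem D3_e_ne0 {n : ℕ} (s : Fin n) : (e s : Fin n → ℤ) ≠ 0 := by
  intro h1
  have h2 := congrFun h1 s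
  rw [e, Pi.single_eq_same, Pi.zero_apply] at h2
  exact one_ne_zero h2

private theorem D3_sum_ne {n : ℕ} (s t : Fin n) : (e t + e s : Fin n → ℤ) ≠ e s := by
  intro h1
  exact D3_e_ne0 t (add_eq_right.1 h1)

private theorem D3_sum_ne' {n : ℕ} (s t : Fin n) : (e t + e s : Fin n → ℤ) ≠ e t := by
  intro h1
  exact D3_e_ne0 s (add_eq_left.1 h1)

section lk

variable {n : ℕ} {M : CoxeterMatrix (Fin n)} (hR : RF M) (hF : FH M (fh M))
  (C : Finset (Fin n)) (hA : SLkA) {R : Type} [CommRing R] (q l : R)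

include hR hA in
private theorem D3_i0 {s : Fin n} (hs : s ∈ C) :
    (lk M C q l s).mulVec (xv M C (e s)) = l • xv M C (e s) := by
  obtain ⟨-, -, -, h4, h5⟩ := hA n M hR C
  rw [(h5 R q l).1 s _ ((h4 s).2 hs), img, if_pos rfl]

include hR hA hF in
private theorem D3_i1 {s t : Fin n} (hc : t ∈ C) (h : adj M s t) :
    (lk M C q l s).mulVec (xv M C (e t)) = xv M C (e t + e s) + (1 - q) • xv M C (e t) := by
  obtain ⟨-, -, -, h4, h5⟩ := hA n M hR C
  rw [(h5 R q l).1 s _ ((h4 t).2 hc), img, if_neg (D3_e_ne (adj_ne h).symm),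
    if_pos (hR.a.pra t s (adj_symm h)), hF.simple s t (adj_ne h), map_zero, mul_zero, zero_smul,
    add_zero]

include hR hA hF in
private theorem D3_i2 {s t : Fin n} (hs : s ∈ C) (hc : t ∈ C) (h : adj M s t) :
    (lk M C q l s).mulVec (xv M C (e t + e s)) =
      q • xv M C (e t) - (l * (1 - q)) • xv M C (e s) := by
  obtain ⟨-, h2, -, h4, h5⟩ := hA n M hR C
  have hp := hR.a.pra t s (adj_symm h)
  have hp1 : pr M (e t + e s) s = 1 := by
    rw [hR.a.pr_add, hp, hR.a.pre]
    norm_num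
  have hh : ht (e t + e s) = 2 := by
    rw [hR.b.htu _ _ (hR.a.simple t), hR.b.hte]
  have hf : fh M s (e t + e s) = -(1 - Polynomial.X) := by
    rw [hF.one s _ (hR.a.up _ _ (hR.a.simple t) hp) hp1, hh]
    simp
  rw [(h5 R q l).1 s _ (h2 _ ((h4 t).2 hc) s hp hs), img, if_neg (D3_sum_ne s t),
    if_neg (by rw [hp1]; norm_num), if_pos hp1, hf, add_sub_cancel_right, map_neg, map_sub,
    map_one, Polynomial.aeval_X, mul_neg, neg_smul, ← sub_eq_add_neg]

include hR hA hF in
/-- `g s g t x (e s) = q x (e t)` -/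
private theorem D3_st {s t : Fin n} (hs : s ∈ C) (hc : t ∈ C) (h : adj M s t) :
    (lk M C q l s).mulVec ((lk M C q l t).mulVec (xv M C (e s))) = q • xv M C (e t) := by
  rw [D3_i1 hR hF C hA q l hs (adj_symm h), Matrix.mulVec_add, Matrix.mulVec_smul,
    add_comm (e s), D3_i2 hR hF C hA q l hs hc h, D3_i0 hR C hA q l hs, smul_smul]
  module

include hR hA hF in
/-- `g s g s x (e t)` -/
private theorem D3_sst {s t : Fin n} (hs : s ∈ C) (hc : t ∈ C) (h : adj M s t) :
    (lk M C q l s).mulVec ((lk M C q l s).mulVec (xv M C (e t))) =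
      (1 - q) • (xv M C (e t + e s) + (1 - q) • xv M C (e t)) + q • xv M C (e t) -
        (l * (1 - q)) • xv M C (e s) := by
  rw [D3_i1 hR hF C hA q l hc h, Matrix.mulVec_add, Matrix.mulVec_smul,
    D3_i2 hR hF C hA q l hs hc h, D3_i1 hR hF C hA q l hc h]
  module

end lk

section def_

variable {n : ℕ} {M : CoxeterMatrix (Fin n)} {C : Finset (Fin n)} {F : Type} [Field F]
    {O : ValuationSubring F} {q l : IsLocalRing.ResidueField O} {ρ : Art M →* GL (PR M C) O}
    {l' : O} {v : Fin n → PR M C → O}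

private theorem D3_red (A : Matrix (PR M C) (PR M C) O) (x : PR M C → O) :
    (fun i => IsLocalRing.residue O (A.mulVec x i)) =
      (A.map (IsLocalRing.residue O)).mulVec (fun i => IsLocalRing.residue O (x i)) :=
  funext fun i => RingHom.map_mulVec _ _ _ i

private theorem D3_up (A : Matrix (PR M C) (PR M C) O) (x : PR M C → O) :
    (fun i => ((A.mulVec x i : O) : F)) =
      (A.map (algebraMap O F)).mulVec (fun i => (x i : F)) :=
  funext fun i => RingHom.map_mulVec (algebraMap O F) _ _ i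

/-- multiples of the eigenvector -/
private theorem D3_mult (hA : SLkA) (hR : RF M) (hE : Eig M C O l ρ l' v) {t : Fin n}
    (hc : t ∈ C) {x : PR M C → O} (hx : (ρ (gn M t)).1.mulVec x = l' • x) :
    ∃ k : O, x = k • v t := by
  have hmem : e t ∈ roots M C := ((hA n M hR C).2.2.2.1 t).2 hc
  obtain ⟨c, hcx⟩ := hE.sgl t hc (fun i => (x i : F)) (by
    rw [← D3_up, hx]
    rfl)
  have h1 : IsLocalRing.residue O (v t ⟨e t, hmem⟩) ≠ 0 := by
    rw [hE.rv t hc, xv, if_pos rfl]
    exact one_ne_zero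
  have h2 : IsUnit (v t ⟨e t, hmem⟩) := by
    by_contra h
    exact h1 ((IsLocalRing.residue_eq_zero_iff _).2 ((IsLocalRing.mem_maximalIdeal _).2 h))
  obtain ⟨u, hu⟩ := h2
  have h3 : c = ((x ⟨e t, hmem⟩ * (u⁻¹ : Oˣ) : O) : F) := by
    have h4 := congrFun hcx ⟨e t, hmem⟩
    have h5 : (((u : O) : F)) * (((u⁻¹ : Oˣ) : O) : F) = 1 := by
      have h6 : (u : O) * ((u⁻¹ : Oˣ) : O) = 1 := Units.mul_inv u
      exact_mod_cast congrArg (fun z : O => (z : F)) h6
    have h7 : ((x ⟨e t, hmem⟩ * (u⁻¹ : Oˣ) : O) : F) = (x ⟨e t, hmem⟩ : F) * (((u⁻¹ : Oˣ) : O) : F) :=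
      rfl
    rw [h7]
    beta_reduce at h4
    rw [h4, ← hu, mul_assoc, h5, mul_one]
  refine ⟨x ⟨e t, hmem⟩ * (u⁻¹ : Oˣ), funext fun i => Subtype.val_injective ?_⟩
  have h8 := congrFun hcx i
  rw [h3] at h8
  exact h8

/-- the constant `k` -/
private theorem D3_k (hA : SLkA) (hR : RF M) (hF : FH M (fh M)) (hE : Eig M C O l ρ l' v)
    (hρ : IsDef M C O q l ρ) {s t : Fin n} (hs : s ∈ C) (hc : t ∈ C) (h : adj M s t)
    (hbr : (ρ (gn M s)).1 * (ρ (gn M t)).1 * (ρ (gn M s)).1 =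
      (ρ (gn M t)).1 * (ρ (gn M s)).1 * (ρ (gn M t)).1) :
    ∃ k : O, IsLocalRing.residue O k = q ∧
      (ρ (gn M s)).1.mulVec ((ρ (gn M t)).1.mulVec (v s)) = k • v t := by
  have hmem : e t ∈ roots M C := ((hA n M hR C).2.2.2.1 t).2 hc
  obtain ⟨k, hk⟩ := D3_mult hA hR hE hc
    (x := (ρ (gn M s)).1.mulVec ((ρ (gn M t)).1.mulVec (v s))) (by
      have h1 := congrArg (fun A => A.mulVec (v s)) hbr
      beta_reduce at h1
      rw [← Matrix.mulVec_mulVec, ← Matrix.mulVec_mulVec, ← Matrix.mulVec_mulVec,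
        ← Matrix.mulVec_mulVec, hE.eig s hs, Matrix.mulVec_smul, Matrix.mulVec_smul] at h1
      exact h1.symm)
  refine ⟨k, ?_, hk⟩
  have h2 : (fun i => IsLocalRing.residue O
      ((ρ (gn M s)).1.mulVec ((ρ (gn M t)).1.mulVec (v s)) i)) = q • xv M C (e t) := by
    rw [D3_red, D3_red, hρ s, hρ t]
    have h3 : (fun i => IsLocalRing.residue O (v s i)) = xv M C (e s) := funext (hE.rv s hs)
    rw [h3, D3_st hR hF C hA q l hs hc h]
  have h4 := congrFun h2 ⟨e t, hmem⟩
  rw [hk] at h4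
  simp only [Pi.smul_apply, smul_eq_mul, map_mul, hE.rv t hc] at h4
  rw [xv, if_pos rfl, mul_one, mul_one] at h4
  exact h4

end def_

theorem pD3 (h1 : SLkA) (_h2 : SLKr) (h3 : SVLI) (h4 : SVKer) (h5 : SD2) : SD3 := by
  intro n M hSL hR hF C hC F _ _ O q l hG ρ hρ l' v hE s hs t hc hst
  have hbr : (ρ (gn M s)).1 * (ρ (gn M t)).1 * (ρ (gn M s)).1 =
      (ρ (gn M t)).1 * (ρ (gn M s)).1 * (ρ (gn M t)).1 := by
    have h6 := congrArg (fun x => (ρ x).1) (art_braid hst)
    simpa only [map_mul, Units.val_mul] using h6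
  obtain ⟨k, hk, hkv⟩ := D3_k h1 hR hF hE hρ hs hc hst hbr
  obtain ⟨k', hk', hkv'⟩ := D3_k h1 hR hF hE hρ hc hs (adj_symm hst) hbr.symm
  have hst0 := D3_i1 (R := IsLocalRing.ResidueField O) hR hF C h1 q l hc hst
  have hsst0 := D3_sst (R := IsLocalRing.ResidueField O) hR hF C h1 q l hs hc hst
  have hrs := hρ s
  have hrt := hρ t
  have hevs := hE.eig s hs
  have hevt := hE.eig t hc
  generalize (ρ (gn M s)).1 = S at *
  generalize (ρ (gn M t)).1 = T at *
  -- the braid relation on vectors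
  have hbv : ∀ x, S.mulVec (T.mulVec (S.mulVec x)) = T.mulVec (S.mulVec (T.mulVec x)) := by
    intro x
    have h6 := congrArg (fun A => A.mulVec x) hbr
    beta_reduce at h6
    rwa [← Matrix.mulVec_mulVec, ← Matrix.mulVec_mulVec, ← Matrix.mulVec_mulVec,
        ← Matrix.mulVec_mulVec] at h6
  have hz : ∀ x, ((S * T) ^ 3).mulVec x =
      S.mulVec (T.mulVec (S.mulVec (T.mulVec (S.mulVec (T.mulVec x))))) := by
    intro x
    simp only [pow_succ, pow_zero, one_mul, Matrix.mulVec_mulVec, mul_assoc]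
  have hz' : ∀ x, S.mulVec (T.mulVec (S.mulVec (T.mulVec (S.mulVec (T.mulVec x))))) =
      T.mulVec (S.mulVec (T.mulVec (S.mulVec (T.mulVec (S.mulVec x))))) := by
    intro x
    rw [hbv (T.mulVec (S.mulVec (T.mulVec x))), ← hbv x]
  have hzs : ((S * T) ^ 3).mulVec (v s) = (l' ^ 2 * (k * k')) • v s := by
    rw [hz, hkv]
    simp only [Matrix.mulVec_smul]
    rw [hevt]
    simp only [Matrix.mulVec_smul]
    rw [hbv, hevt]
    simp only [Matrix.mulVec_smul]
    rw [hkv']
    simp only [smul_smul]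
    congr 1
    ring
  have hzt : ((S * T) ^ 3).mulVec (v t) = (l' ^ 2 * (k * k')) • v t := by
    rw [hz, hz', hkv']
    simp only [Matrix.mulVec_smul]
    rw [hevs]
    simp only [Matrix.mulVec_smul]
    rw [← hbv, hevs]
    simp only [Matrix.mulVec_smul]
    rw [hkv]
    simp only [smul_smul]
    congr 1
    ring
  have hzS : ∀ x, ((S * T) ^ 3).mulVec x = (l' ^ 2 * (k * k')) • x →
      ((S * T) ^ 3).mulVec (S.mulVec x) = (l' ^ 2 * (k * k')) • S.mulVec x := by
    intro x hx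
    rw [hz] at hx ⊢
    rw [← hz', hx, Matrix.mulVec_smul]
  have hzt1 := hzS _ hzt
  have hzt2 := hzS _ hzt1
  -- the kernel
  have hker : ∀ x, ((S * T) ^ 3).mulVec x = (l' ^ 2 * (k * k')) • x →
      (fun i => (x i : F)) ∈ LinearMap.ker
        ((((S * T) ^ 3 - (l' ^ 2 * (k * k')) • (1 : Matrix (PR M C) (PR M C) O)).map
          (algebraMap O F)).mulVecLin) := by
    intro x hx
    rw [LinearMap.mem_ker, Matrix.mulVecLin_apply, ← D3_up, Matrix.sub_mulVec,
      Matrix.smul_mulVec, Matrix.one_mulVec, hx, sub_self]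
    rfl
  have hdim := h4 F O (PR M C)
    ((S * T) ^ 3 - (l' ^ 2 * (k * k')) • (1 : Matrix (PR M C) (PR M C) O))
  have hmap : ((S * T) ^ 3 - (l' ^ 2 * (k * k')) • (1 : Matrix (PR M C) (PR M C) O)).map
      (IsLocalRing.residue O) = (lk M C q l s * lk M C q l t) ^ 3 -
        (l ^ 2 * q ^ 2) • (1 : Matrix (PR M C) (PR M C) (IsLocalRing.ResidueField O)) := by
    have e1 : ((S * T) ^ 3).map (IsLocalRing.residue O) = (lk M C q l s * lk M C q l t) ^ 3 := by
      rw [← hrs, ← hrt, ← RingHom.mapMatrix_apply, ← RingHom.mapMatrix_apply,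
        ← RingHom.mapMatrix_apply, map_pow, map_mul]
    rw [← e1]
    ext i j
    simp only [Matrix.map_apply, Matrix.sub_apply, Matrix.smul_apply, smul_eq_mul, map_sub,
      map_mul, map_pow, hE.rl, hk, hk', Matrix.one_apply]
    split_ifs
    · rw [map_one]
      ring
    · rw [map_zero]
      ring
  rw [hmap] at hdim
  have hdim3 := hdim.trans (h5 n M hR hF C hC (IsLocalRing.ResidueField O) q l hG s hs t hc hst)
  -- independence
  have hms : e s ∈ roots M C := ((h1 n M hR C).2.2.2.1 s).2 hs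
  have hmt : e t ∈ roots M C := ((h1 n M hR C).2.2.2.1 t).2 hc
  have hmst : e t + e s ∈ roots M C :=
    (h1 n M hR C).2.1 _ hmt s (hR.a.pra t s (adj_symm hst)) hs
  have hne1 := D3_e_ne (adj_ne hst)
  have hne2 := D3_sum_ne s t
  have hne3 := D3_sum_ne' s t
  have hrvs : (fun i => IsLocalRing.residue O (v s i)) = xv M C (e s) := funext (hE.rv s hs)
  have hrvt : (fun i => IsLocalRing.residue O (v t i)) = xv M C (e t) := funext (hE.rv t hc)
  have hrst : (fun i => IsLocalRing.residue O (S.mulVec (v t) i)) =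
      xv M C (e t + e s) + (1 - q) • xv M C (e t) := by
    rw [D3_red, hrs, hrvt, hst0]
  have hrsst : (fun i => IsLocalRing.residue O (S.mulVec (S.mulVec (v t)) i)) =
      (1 - q) • (xv M C (e t + e s) + (1 - q) • xv M C (e t)) + q • xv M C (e t) -
        (l * (1 - q)) • xv M C (e s) := by
    rw [D3_red, D3_red, hrs, hrvt, hsst0]
  -- coordinates
  have hco : ∀ α β γ : IsLocalRing.ResidueField O,
      (α • xv M C (e s) + β • xv M C (e t) + γ • (xv M C (e t + e s) + (1 - q) • xv M C (e t)) :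
        PR M C → IsLocalRing.ResidueField O) = 0 → α = 0 ∧ β = 0 ∧ γ = 0 := by
    intro α β γ h
    have a1 := congrFun h ⟨e s, hms⟩
    have a2 := congrFun h ⟨e t, hmt⟩
    have a3 := congrFun h ⟨e t + e s, hmst⟩
    simp only [Pi.add_apply, Pi.smul_apply, smul_eq_mul, xv, Pi.zero_apply, if_pos, if_neg hne1,
      if_neg hne1.symm, if_neg hne2, if_neg hne2.symm, if_neg hne3, if_neg hne3.symm] at a1 a2 a3
    have c3 : γ = 0 := by linear_combination a3
    have c1 : α = 0 := by linear_combination a1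
    rw [c3] at a2
    exact ⟨c1, by linear_combination a2, c3⟩
  have hli : LinearIndependent (IsLocalRing.ResidueField O)
      (fun (m : Fin 3) i => IsLocalRing.residue O ((![v s, v t, S.mulVec (v t)] m) i)) := by
    have e1 : (fun (m : Fin 3) i => IsLocalRing.residue O ((![v s, v t, S.mulVec (v t)] m) i)) =
        ![xv M C (e s), xv M C (e t), xv M C (e t + e s) + (1 - q) • xv M C (e t)] := by
      funext m
      fin_cases m
      · exact hrvs
      · exact hrvt
      · exact hrst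
    rw [e1, Fintype.linearIndependent_iff]
    intro g hg
    rw [Fin.sum_univ_three] at hg
    obtain ⟨c0, c1, c2⟩ := hco (g 0) (g 1) (g 2) hg
    intro i
    fin_cases i
    · exact c0
    · exact c1
    · exact c2
  obtain ⟨hliF, hint⟩ := h3 F O (PR M C) (Fin 3) ![v s, v t, S.mulVec (v t)] hli
  -- the span is the kernel
  have hle : Submodule.span F (Set.range (fun (m : Fin 3) i =>
      (((![v s, v t, S.mulVec (v t)] m) i : O) : F))) ≤ LinearMap.ker
        ((((S * T) ^ 3 - (l' ^ 2 * (k * k')) • (1 : Matrix (PR M C) (PR M C) O)).map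
          (algebraMap O F)).mulVecLin) := by
    rw [Submodule.span_le]
    rintro _ ⟨m, rfl⟩
    fin_cases m
    · exact hker _ hzs
    · exact hker _ hzt
    · exact hker _ hzt1
  have heq := Submodule.eq_of_le_of_finrank_le hle (by
    rw [finrank_span_eq_card hliF, Fintype.card_fin]
    exact hdim3)
  have hmem := hker _ hzt2
  rw [← heq, Submodule.mem_span_range_iff_exists_fun] at hmem
  obtain ⟨c, hc3⟩ := hmem
  have hcO := hint (S.mulVec (S.mulVec (v t))) c (fun i => by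
    have h6 := congrFun hc3 i
    rw [Finset.sum_apply] at h6
    exact h6.symm)
  refine ⟨⟨c 2, hcO 2⟩, -⟨c 1, hcO 1⟩, ⟨c 0, hcO 0⟩, k, ?_⟩
  have hrel : S.mulVec (S.mulVec (v t)) = (⟨c 2, hcO 2⟩ : O) • S.mulVec (v t) -
      (-⟨c 1, hcO 1⟩ : O) • v t + (⟨c 0, hcO 0⟩ : O) • v s := by
    rw [neg_smul, sub_neg_eq_add]
    funext i
    apply Subtype.val_injective
    have h6 := congrFun hc3 i
    rw [Finset.sum_apply, Fin.sum_univ_three] at h6
    have h7 : (((⟨c 2, hcO 2⟩ : O) • S.mulVec (v t) + (⟨c 1, hcO 1⟩ : O) • v t +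
        (⟨c 0, hcO 0⟩ : O) • v s) i : O) = ((⟨c 2, hcO 2⟩ : O) * S.mulVec (v t) i +
          (⟨c 1, hcO 1⟩ : O) * v t i + (⟨c 0, hcO 0⟩ : O) * v s i) := rfl
    rw [h7]
    have h8 : (((⟨c 2, hcO 2⟩ : O) * S.mulVec (v t) i + (⟨c 1, hcO 1⟩ : O) * v t i +
        (⟨c 0, hcO 0⟩ : O) * v s i : O) : F) = c 2 * (S.mulVec (v t) i : F) +
          c 1 * (v t i : F) + c 0 * (v s i : F) := rfl
    rw [h8, ← h6]
    show c 0 * (v s i : F) + c 1 * (v t i : F) + c 2 * (S.mulVec (v t) i : F) = _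
    ring
  have hrel2 : ((1 - q) • (xv M C (e t + e s) + (1 - q) • xv M C (e t)) + q • xv M C (e t) -
        (l * (1 - q)) • xv M C (e s) : PR M C → IsLocalRing.ResidueField O) =
      IsLocalRing.residue O ⟨c 2, hcO 2⟩ • (xv M C (e t + e s) + (1 - q) • xv M C (e t)) -
        IsLocalRing.residue O (-⟨c 1, hcO 1⟩) • xv M C (e t) +
        IsLocalRing.residue O ⟨c 0, hcO 0⟩ • xv M C (e s) := by
    rw [← hrsst, ← hrst, ← hrvs, ← hrvt]
    funext i
    have h6 := congrArg (IsLocalRing.residue O) (congrFun hrel i)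
    rw [h6]
    simp only [Pi.add_apply, Pi.sub_apply, Pi.smul_apply, smul_eq_mul, map_add, map_sub, map_mul]
  obtain ⟨d1, d2, d3⟩ := hco (-(l * (1 - q)) - IsLocalRing.residue O ⟨c 0, hcO 0⟩)
    (q + IsLocalRing.residue O (-⟨c 1, hcO 1⟩))
    ((1 - q) - IsLocalRing.residue O ⟨c 2, hcO 2⟩) (by
      rw [← sub_eq_zero] at hrel2
      rw [← hrel2]
      funext i
      simp only [Pi.add_apply, Pi.sub_apply, Pi.smul_apply, smul_eq_mul]
      ring)
  refine ⟨?_, ?_, ?_, hk, hkv, hrel⟩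
  · linear_combination -d3
  · linear_combination d2
  · linear_combination -d1

end Pool.Agent.Lib.MP_97567f_al
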