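import Pool.Agent.Lib.MP_97567f_al.SpecD

/-!
# MP_97567f_al: the relation of two adjacent nodes, second form
-/

set_option autoImplicit false

namespace Pool.Agent.Lib.MP_97567f_al

section alg

variable {O V : Type} [CommRing O] [AddCommGroup V] [Module O V] (S T : V →ₗ[O] V)
  (hb : ∀ x, S (T (S x)) = T (S (T x))) (vs vt : V) (l a b c k k' : O)
  (e1 : S vs = l • vs) (e2 : T vt = l • vt) (st : S (T vs) = k • vt) (ts : T (S vt) = k' • vs)
  (qu : S (S vt) = a • S vt - b • vt + c • vs)

include hb e1 e2 st ts qu in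
private theorem D4_two : (l * k') • T vs = (a * l * k') • vs - (b * l) • S vt + (c * k) • vt := by
  have h1 : T (T (S (T vt))) = S (T (S (S vt))) := by
    rw [← hb vt, hb (S vt)]
  rw [e2, qu] at h1
  simp only [map_smul, map_add, map_sub, ts, st, e2, e1] at h1
  rw [smul_smul, smul_smul, smul_smul, smul_smul, smul_smul] at h1
  rw [h1]
  congr 3
  ring

include hb e1 e2 st ts qu in
private theorem D4_sq : (l * k') • T (T vs) =
    (l * k') • (a • T vs - b • vs) + (c * k * l) • vt := by
  have h1 := congrArg T (D4_two S T hb vs vt l a b c k k' e1 e2 st ts qu)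
  simp only [map_smul, map_add, map_sub, ts, e2] at h1
  rw [h1]
  module

include e1 st qu in
private theorem D4_inv (hS : Function.Injective S) :
    (b * l) • T vs = k • ((a * l) • vt + c • vs - l • S vt) := by
  apply hS
  simp only [map_smul, map_add, map_sub, st, e1, qu]
  simp only [smul_sub, smul_add, smul_smul]
  module

end alg

private theorem D4_e_ne {n : ℕ} {s t : Fin n} (h : s ≠ t) : (e s : Fin n → ℤ) ≠ e t := by
  intro h1
  have h2 := congrFun h1 s
  simp [e, h] at h2

private theorem D4_add_ne1 {n : ℕ} {s t : Fin n} : (e s + e t : Fin n → ℤ) ≠ e s := by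
  intro h1
  have h2 := congrFun h1 t
  simp [e] at h2

private theorem D4_add_ne2 {n : ℕ} {s t : Fin n} : (e s + e t : Fin n → ℤ) ≠ e t := by
  intro h1
  have h2 := congrFun h1 s
  simp [e] at h2

private theorem D4_li {n : ℕ} (M : CoxeterMatrix (Fin n)) (C : Finset (Fin n)) {K : Type} [Field K]
    (x : K) (s t : Fin n) (hs : e s ∈ roots M C) (ht : e t ∈ roots M C)
    (hst : e s + e t ∈ roots M C) (h : s ≠ t) :
    LinearIndependent K ![xv M C (e s + e t) + x • xv M C (R := K) (e s), xv M C (e s),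
      xv M C (e t)] := by
  rw [Fintype.linearIndependent_iff]
  intro g hg
  have h0 := congrFun hg ⟨e s + e t, hst⟩
  have h1 := congrFun hg ⟨e s, hs⟩
  have h2 := congrFun hg ⟨e t, ht⟩
  simp only [Fin.sum_univ_three, Matrix.cons_val_zero, Matrix.cons_val_one, Matrix.cons_val_two,
    Matrix.tail_cons, Matrix.head_cons, Pi.add_apply, Pi.smul_apply, xv, smul_eq_mul,
    Pi.zero_apply] at h0 h1 h2
  have n1 : (e s + e t : Fin n → ℤ) ≠ e s := D4_add_ne1
  have n2 : (e s + e t : Fin n → ℤ) ≠ e t := D4_add_ne2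
  have n3 : (e s : Fin n → ℤ) ≠ e t := D4_e_ne h
  simp only [n1, n2, n3, n1.symm, n2.symm, n3.symm, if_true, if_false, mul_one, mul_zero,
    add_zero, zero_add] at h0 h1 h2
  have g0 : g 0 = 0 := by simpa using h0
  have g1 : g 1 = 0 := by simpa [g0] using h1
  have g2 : g 2 = 0 := by simpa [g0] using h2
  intro i
  fin_cases i
  · exact g0
  · exact g1
  · exact g2

theorem pD4 (h1 : SLkA) (h2 : SVLI) (h3 : SD3) : SD4 := by
  intro n M hSL hRF hFH C hC F _ _ O q l hG ρ hdef l' v hE s hs t ht hst
  have hne : s ≠ t := adj_ne hst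
  obtain ⟨a, b, c, k, ra, rb, rc, rk, hst1, hqu⟩ :=
    h3 n M hSL hRF hFH C hC F O q l hG ρ hdef l' v hE s hs t ht hst
  obtain ⟨a2, b2, c2, k', _, _, _, rk', hts1, _⟩ :=
    h3 n M hSL hRF hFH C hC F O q l hG ρ hdef l' v hE t ht s hs (adj_symm hst)
  obtain ⟨hr, hup, _, hsim, hact⟩ := h1 n M hRF C
  have hs' : e s ∈ roots M C := (hsim s).2 hs
  have ht' : e t ∈ roots M C := (hsim t).2 ht
  have hst' : e s + e t ∈ roots M C := hup _ hs' t (hRF.a.pra s t hst) ht
  obtain ⟨hmul, _, _, _⟩ := hact (IsLocalRing.ResidueField O) q l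
  -- the operators
  set Sm : Matrix (PR M C) (PR M C) O := (ρ (gn M s)).1 with hSm
  set Tm : Matrix (PR M C) (PR M C) O := (ρ (gn M t)).1 with hTm
  have hbm : Sm * Tm * Sm = Tm * Sm * Tm := by
    have h := congrArg (fun x => (ρ x).1) (art_braid hst)
    simpa only [map_mul, Units.val_mul] using h
  have hb : ∀ x, Sm.mulVecLin (Tm.mulVecLin (Sm.mulVecLin x)) =
      Tm.mulVecLin (Sm.mulVecLin (Tm.mulVecLin x)) := by
    intro x
    simp only [Matrix.mulVecLin_apply, Matrix.mulVec_mulVec]
    rw [← mul_assoc, hbm, mul_assoc]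
  have hSinj : Function.Injective Sm.mulVecLin := by
    intro x y hxy
    have h : ((ρ (gn M s))⁻¹).1.mulVec (Sm.mulVec x) = ((ρ (gn M s))⁻¹).1.mulVec (Sm.mulVec y) :=
      congrArg _ hxy
    rw [Matrix.mulVec_mulVec, Matrix.mulVec_mulVec, hSm, ← Units.val_mul, inv_mul_cancel,
      Units.val_one, Matrix.one_mulVec, Matrix.one_mulVec] at h
    exact h
  have e1 : Sm.mulVecLin (v s) = l' • v s := hE.eig s hs
  have e2 : Tm.mulVecLin (v t) = l' • v t := hE.eig t ht
  have ulr : IsUnit l' := by
    rw [← IsLocalRing.residue_ne_zero_iff_isUnit, hE.rl]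
    exact hG.l0
  have uk' : IsUnit k' := by
    rw [← IsLocalRing.residue_ne_zero_iff_isUnit, rk']
    exact hG.q0
  have uk : IsUnit k := by
    rw [← IsLocalRing.residue_ne_zero_iff_isUnit, rk]
    exact hG.q0
  have E2 := D4_two Sm.mulVecLin Tm.mulVecLin hb (v s) (v t) l' a b c k k' e1 e2 hst1 hts1 hqu
  have E3 := D4_sq Sm.mulVecLin Tm.mulVecLin hb (v s) (v t) l' a b c k k' e1 e2 hst1 hts1 hqu
  have E4 := D4_inv Sm.mulVecLin Tm.mulVecLin (v s) (v t) l' a b c k e1 hst1 hqu hSinj
  -- the relation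
  have E5 : (b * b * l' - k * k' * l') • Tm.mulVecLin (v s) +
      (k * (a * l' * k' - b * c)) • v s + (k * (c * k - a * b * l')) • v t = 0 := by
    have h := congrArg (fun x => b • x) E4
    have h' := congrArg (fun x => k • x) E2
    simp only [smul_sub, smul_add, smul_smul] at h h'
    have h5 : (b * b * l' - k * k' * l') • Tm.mulVecLin (v s) +
      (k * (a * l' * k' - b * c)) • v s + (k * (c * k - a * b * l')) • v t =
      ((b * (b * l')) • Tm.mulVecLin (v s) - ((b * (k * (a * l'))) • v t + (b * (k * c)) • v s -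
        (b * (k * l')) • Sm.mulVecLin (v t))) -
      ((k * (l' * k')) • Tm.mulVecLin (v s) - ((k * (a * l' * k')) • v s -
        (k * (b * l')) • Sm.mulVecLin (v t) + (k * (c * k)) • v t)) := by
      module
    rw [h5, h, h', sub_self, sub_self, sub_zero]
  -- independence
  have hred : ∀ i, IsLocalRing.residue O (Tm.mulVec (v s) i) =
      (xv M C (e s + e t) + (1 - q) • xv M C (e s) : PR M C → IsLocalRing.ResidueField O) i := by
    intro i
    have h : (IsLocalRing.residue O) ∘ (v s) = xv M C (e s) := funext fun b => hE.rv s hs b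
    rw [RingHom.map_mulVec, h, hTm, hdef t, hmul t _ hs', img, if_neg (D4_e_ne hne),
      if_pos (hRF.a.pra s t hst), hFH.simple t s hne.symm, map_zero, mul_zero, zero_smul, add_zero]
  have hli := (h2 F O (PR M C) (Fin 3) ![Tm.mulVec (v s), v s, v t] (by
    have h := D4_li M C (K := IsLocalRing.ResidueField O) (1 - q) s t hs' ht' hst' hne
    convert h using 1
    funext j i
    fin_cases j
    · exact hred i
    · exact hE.rv s hs i
    · exact hE.rv t ht i)).1
  rw [Fintype.linearIndependent_iff] at hli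
  have hco := hli ![((b * b * l' - k * k' * l' : O) : F), ((k * (a * l' * k' - b * c) : O) : F),
    ((k * (c * k - a * b * l') : O) : F)] (by
      funext i
      have h := congrArg (fun x : O => (x : F)) (congrFun E5 i)
      simp only [Pi.add_apply, Pi.smul_apply, smul_eq_mul, Pi.zero_apply,
        Matrix.mulVecLin_apply] at h
      simp only [Fin.sum_univ_three, Matrix.cons_val_zero, Matrix.cons_val_one,
        Matrix.cons_val, Pi.add_apply, Pi.smul_apply, smul_eq_mul, Pi.zero_apply]
      push_cast at h ⊢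
      exact h)
  have hc0 : b * b * l' - k * k' * l' = 0 := by
    have h := hco 0
    simp only [Matrix.cons_val_zero] at h
    exact_mod_cast h
  have hc2 : k * (c * k - a * b * l') = 0 := by
    have h := hco 2
    simp only [Matrix.cons_val] at h
    exact_mod_cast h
  have hkk : k * k' = b ^ 2 := by
    have h : l' * (k * k') = l' * b ^ 2 := by linear_combination -hc0
    exact ulr.mul_left_cancel h
  have hck : c * k = a * b * l' := by
    have h : c * k - a * b * l' = 0 := by
      refine uk.mul_left_cancel ?_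
      rw [hc2, mul_zero]
    linear_combination h
  obtain ⟨u, hu⟩ := uk'
  have hu1 : k' * (↑(u⁻¹) : O) = 1 := by
    rw [← hu, Units.mul_inv]
  refine ⟨a, b, k, k', hkk, ⟨ra, rb, rk, hst1, c, hck, hqu⟩,
    ⟨ra, rb, rk', hts1, c * k * (↑(u⁻¹) : O), ?_, ?_⟩⟩
  · rw [← hck]
    linear_combination (c * k) * hu1
  · have hu2 : IsUnit (l' * k') := ulr.mul (by rw [← hu]; exact u.isUnit)
    refine hu2.smul_left_cancel.1 ?_
    change (l' * k') • Tm.mulVecLin (Tm.mulVecLin (v s)) = _
    rw [E3]
    change (l' * k') • (a • Tm.mulVecLin (v s) - b • v s) + (c * k * l') • v t =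
      (l' * k') • (a • Tm.mulVecLin (v s) - b • v s + (c * k * (↑(u⁻¹) : O)) • v t)
    rw [smul_add (l' * k'), smul_smul]
    congr 2
    linear_combination (-(c * k * l')) * hu1

end Pool.Agent.Lib.MP_97567f_al
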