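import Pool.Agent.Lib.MP_97567f_al.SpecD

/-!
# MP_97567f_al: the same coefficients for all edges
-/

set_option autoImplicit false

namespace Pool.Agent.Lib.MP_97567f_al

private theorem D5_li (h1 : SLkA) (h2 : SVLI) {n : ℕ} {M : CoxeterMatrix (Fin n)} (hRF : RF M)
    (hFH : FH M (fh M)) {C : Finset (Fin n)} {F : Type} [Field F] (O : ValuationSubring F)
    (q l : IsLocalRing.ResidueField O) {ρ : Art M →* GL (PR M C) O} (hρ : IsDef M C O q l ρ)
    {l' : O} {v : Fin n → PR M C → O} (hE : Eig M C O l ρ l' v) {s t : Fin n} (hs : s ∈ C)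
    (ht : t ∈ C) (hst : adj M s t) (c0 c1 c2 : F)
    (hc : ∀ i, c0 * (v s i : F) + c1 * (v t i : F) +
      c2 * (((ρ (gn M s)).1.mulVec (v t)) i : F) = 0) : c0 = 0 ∧ c1 = 0 ∧ c2 = 0 := by
  obtain ⟨hA0, hA1, _, hA3, hA4⟩ := h1 n M hRF C
  have hes : e s ∈ roots M C := (hA3 s).2 hs
  have het : e t ∈ roots M C := (hA3 t).2 ht
  have hpr : pr M (e t) s = -1 := hRF.a.pra t s (adj_symm hst)
  have hest : e t + e s ∈ roots M C := hA1 _ het s hpr hs
  have hst' : s ≠ t := adj_ne hst
  have hne1 : (e t + e s : Fin n → ℤ) ≠ e s := by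
    intro h
    have h' := congrFun h t
    simp [e] at h'
  have hne2 : (e t + e s : Fin n → ℤ) ≠ e t := by
    intro h
    have h' := congrFun h s
    simp [e] at h'
  have hne3 : (e t : Fin n → ℤ) ≠ e s := by
    intro h
    have h' := congrFun h t
    simp [e, hst'.symm] at h'
  have hrs : ∀ i, IsLocalRing.residue O (((ρ (gn M s)).1.mulVec (v t)) i) =
      (xv M C (e t + e s) + (1 - q) • xv M C (e t) : PR M C → IsLocalRing.ResidueField O) i := by
    intro i
    rw [RingHom.map_mulVec, hρ s]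
    have h3 : (fun i => IsLocalRing.residue O (v t i)) = xv M C (e t) := funext (hE.rv t ht)
    have h4 : (⇑(IsLocalRing.residue O) ∘ v t) = xv M C (e t) := h3
    rw [h4, (hA4 _ q l).1 s (e t) het, img, if_neg hne3, if_pos hpr,
      hFH.simple s t hst', map_zero, mul_zero, zero_smul, add_zero]
  have hli : LinearIndependent (IsLocalRing.ResidueField O)
      (fun (k : Fin 3) i => IsLocalRing.residue O
        ((![v s, v t, (ρ (gn M s)).1.mulVec (v t)] : Fin 3 → PR M C → O) k i)) := by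
    rw [Fintype.linearIndependent_iff]
    intro g hg
    rw [Fin.sum_univ_three] at hg
    have hev : ∀ i, g 0 * xv M C (e s) i + g 1 * xv M C (e t) i +
        g 2 * (xv M C (e t + e s) + (1 - q) • xv M C (e t) :
          PR M C → IsLocalRing.ResidueField O) i = 0 := by
      intro i
      have h3 := congrFun hg i
      rw [← hE.rv s hs, ← hE.rv t ht, ← hrs]
      exact h3
    have e1 := hev ⟨e t + e s, hest⟩
    have e2 := hev ⟨e t, het⟩
    have e3 := hev ⟨e s, hes⟩
    simp only [Pi.add_apply, Pi.smul_apply, smul_eq_mul, xv, hne1, hne2, hne3, hne3.symm,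
      hne1.symm, hne2.symm, if_true, if_false] at e1 e2 e3
    have g2 : g 2 = 0 := by linear_combination e1
    have g1 : g 1 = 0 := by linear_combination e2 - (1 - q) * g2
    have g0 : g 0 = 0 := by linear_combination e3
    intro i
    fin_cases i
    · exact g0
    · exact g1
    · exact g2
  have h5 := (h2 F O (PR M C) (Fin 3) _ hli).1
  rw [Fintype.linearIndependent_iff] at h5
  have h6 := h5 ![c0, c1, c2] (by
    rw [Fin.sum_univ_three]
    funext i
    exact hc i)
  exact ⟨h6 0, h6 1, h6 2⟩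

private theorem D5_grp {n : ℕ} {M : CoxeterMatrix (Fin n)} (hSL : SL M) {s t u : Fin n}
    (hst : adj M s t) (htu : adj M t u) (hsu : s ≠ u) (hn : ¬ adj M s u) :
    gn M s * gn M t * gn M u * gn M s = gn M t * (gn M s * gn M t * gn M u) ∧
    gn M s * gn M t * gn M u * gn M t = gn M u * (gn M s * gn M t * gn M u) := by
  have e1 := art_comm hSL.sl hsu hn
  have e2 := art_braid hst
  have e3 := art_braid htu
  constructor
  · calc gn M s * gn M t * gn M u * gn M s = gn M s * gn M t * (gn M u * gn M s) := by group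
      _ = (gn M s * gn M t * gn M s) * gn M u := by rw [← e1]; group
      _ = gn M t * (gn M s * gn M t * gn M u) := by rw [e2]; group
  · calc gn M s * gn M t * gn M u * gn M t = gn M s * (gn M t * gn M u * gn M t) := by group
      _ = (gn M s * gn M u) * gn M t * gn M u := by rw [e3]; group
      _ = gn M u * (gn M s * gn M t * gn M u) := by rw [e1]; group

private theorem D5_path (h1 : SLkA) (h2 : SVLI) {n : ℕ} {M : CoxeterMatrix (Fin n)} (hSL : SL M)
    (hRF : RF M) (hFH : FH M (fh M)) {C : Finset (Fin n)} {F : Type} [Field F]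
    (O : ValuationSubring F) (q l : IsLocalRing.ResidueField O) {ρ : Art M →* GL (PR M C) O}
    (hρ : IsDef M C O q l ρ) {l' : O} {v : Fin n → PR M C → O} (hE : Eig M C O l ρ l' v)
    {s t u : Fin n} (hs : s ∈ C) (ht : t ∈ C) (hu : u ∈ C) (hst : adj M s t) (htu : adj M t u)
    (hsu : s ≠ u) {a b k a' b' k' : O} (h3 : Edg M C O q ρ l' v s t a b k)
    (h4 : Edg M C O q ρ l' v t u a' b' k') : a = a' ∧ b = b' := by
  obtain ⟨x1, x2⟩ := D5_grp hSL hst htu hsu (hRF.b.tri s t u hst htu)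
  set x : Art M := gn M s * gn M t * gn M u with hx
  obtain ⟨G, hG⟩ : ∃ G : Art M → Matrix (PR M C) (PR M C) F,
      ∀ y, G y = (ρ y).1.map (algebraMap O F) := ⟨_, fun _ => rfl⟩
  have hGm : ∀ y z, G (y * z) = G y * G z := by
    intro y z
    rw [hG, hG, hG, map_mul, Units.val_mul, Matrix.map_mul]
  have hG1 : G 1 = 1 := by
    rw [hG, map_one, Units.val_one, Matrix.map_one _ (map_zero _) (map_one _)]
  obtain ⟨V, hV⟩ : ∃ V : (PR M C → O) → (PR M C → F), ∀ y i, V y i = (y i : F) :=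
    ⟨fun y i => (y i : F), fun _ _ => rfl⟩
  have hGV : ∀ y w, (G y).mulVec (V w) = V ((ρ y).1.mulVec w) := by
    intro y w
    funext i
    rw [hV, hG]
    have h5 := RingHom.map_mulVec (algebraMap O F) (ρ y).1 w i
    have h6 : V w = (algebraMap O F) ∘ w := funext fun j => hV w j
    rw [h6]
    exact h5.symm
  have hVs : ∀ (c : O) w, V (c • w) = (c : F) • V w := by
    intro c w
    funext i
    rw [hV, Pi.smul_apply, Pi.smul_apply, hV, smul_eq_mul, smul_eq_mul]
    push_cast
    rfl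
  have hVa : ∀ w w', V (w + w') = V w + V w' := by
    intro w w'
    funext i
    rw [hV, Pi.add_apply, Pi.add_apply, hV, hV]
    push_cast
    rfl
  have hVb : ∀ w w', V (w - w') = V w - V w' := by
    intro w w'
    funext i
    rw [hV, Pi.sub_apply, Pi.sub_apply, hV, hV]
    push_cast
    rfl
  -- transport
  have htr : ∀ p ∈ C, ∀ r ∈ C, x * gn M p = gn M r * x →
      ∃ c : F, (G x).mulVec (V (v p)) = c • V (v r) := by
    intro p hp r hr hpr
    have h5 : (G (gn M r)).mulVec ((G x).mulVec (V (v p))) =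
        (l' : F) • (G x).mulVec (V (v p)) := by
      rw [Matrix.mulVec_mulVec, ← hGm, ← hpr, hGm, ← Matrix.mulVec_mulVec, hGV (gn M p),
        hE.eig p hp, hVs, Matrix.mulVec_smul]
    rw [hG (gn M r)] at h5
    obtain ⟨c, hc⟩ := hE.sgl r hr _ h5
    refine ⟨c, ?_⟩
    rw [hc]
    funext i
    rw [Pi.smul_apply, hV, smul_eq_mul]
  obtain ⟨α, hα⟩ := htr s hs t ht x1
  obtain ⟨β, hβ⟩ := htr t ht u hu x2
  have hβ0 : β ≠ 0 := by
    rintro rfl
    rw [zero_smul] at hβ
    have h5 : V (v t) = 0 := by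
      have h6 : (G x⁻¹).mulVec ((G x).mulVec (V (v t))) = 0 := by
        rw [hβ, Matrix.mulVec_zero]
      rwa [Matrix.mulVec_mulVec, ← hGm, inv_mul_cancel, hG1, Matrix.one_mulVec] at h6
    have h7 := D5_li h1 h2 hRF hFH O q l hρ hE ht hu htu 1 0 0 (fun i => by
      have h8 := congrFun h5 i
      rw [hV] at h8
      rw [h8]
      simp)
    exact one_ne_zero h7.1
  obtain ⟨c, _, hc⟩ := h3.qu
  obtain ⟨c', _, hc'⟩ := h4.qu
  have hc1 : (G (gn M s)).mulVec ((G (gn M s)).mulVec (V (v t))) =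
      (a : F) • (G (gn M s)).mulVec (V (v t)) - (b : F) • V (v t) + (c : F) • V (v s) := by
    rw [hGV, hGV, hc, hVa, hVb, hVs, hVs, hVs]
  have hc2 : (G (gn M t)).mulVec ((G (gn M t)).mulVec (V (v u))) =
      (a' : F) • (G (gn M t)).mulVec (V (v u)) - (b' : F) • V (v u) + (c' : F) • V (v t) := by
    rw [hGV, hGV, hc', hVa, hVb, hVs, hVs, hVs]
  have hxs : ∀ w, (G x).mulVec ((G (gn M s)).mulVec w) =
      (G (gn M t)).mulVec ((G x).mulVec w) := by
    intro w
    rw [Matrix.mulVec_mulVec, Matrix.mulVec_mulVec, ← hGm, ← hGm, x1]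
  have h5 := congrArg (G x).mulVec hc1
  rw [hxs, hxs, hβ, Matrix.mulVec_add, Matrix.mulVec_sub, Matrix.mulVec_smul, Matrix.mulVec_smul,
    Matrix.mulVec_smul, Matrix.mulVec_smul, Matrix.mulVec_smul, hc2, hxs, hβ, hα,
    Matrix.mulVec_smul, hGV] at h5
  have h6 := D5_li h1 h2 hRF hFH O q l hρ hE ht hu htu (β * c' - c * α) (b * β - β * b')
    (β * a' - a * β) (fun i => by
      have h7 := congrFun h5 i
      simp only [Pi.smul_apply, Pi.add_apply, Pi.sub_apply, smul_eq_mul, hV] at h7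
      linear_combination h7)
  have e1 : (a : F) = a' := by
    have h7 : β * ((a : F) - a') = 0 := by linear_combination -h6.2.2
    exact sub_eq_zero.1 ((mul_eq_zero.1 h7).resolve_left hβ0)
  have e2 : (b : F) = b' := by
    have h7 : β * ((b : F) - b') = 0 := by linear_combination h6.2.1
    exact sub_eq_zero.1 ((mul_eq_zero.1 h7).resolve_left hβ0)
  exact ⟨Subtype.ext e1, Subtype.ext e2⟩

theorem pD5 (h1 : SLkA) (h2 : SVLI) (h3 : SD4) : SD5 := by
  intro n M hSL hRF hFH C hSat hConn F _ _ O q l hG ρ hρ l' v hE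
  by_cases hC : ∃ s ∈ C, ∃ t ∈ C, adj M s t
  · obtain ⟨s, hs, t, ht, hst⟩ := hC
    have h4 := h3 n M hSL hRF hFH C hSat F O q l hG ρ hρ l' v hE
    obtain ⟨a, b, k, k', hkk, hE1, hE2⟩ := h4 s hs t ht hst
    refine ⟨a, b, hE1.ra, hE1.rb, ?_⟩
    have hstep : ∀ p ∈ C, ∀ r ∈ C, adj M p r → (∃ k k' : O, k * k' = b ^ 2 ∧
        Edg M C O q ρ l' v p r a b k ∧ Edg M C O q ρ l' v r p a b k') →
        ∀ w, adj M r w → ∃ k k' : O, k * k' = b ^ 2 ∧
          Edg M C O q ρ l' v r w a b k ∧ Edg M C O q ρ l' v w r a b k' := by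
      intro p hp r hr hpr hk w hrw
      obtain ⟨k1, k2, hk1, hk2, hk3⟩ := hk
      by_cases hpw : w = p
      · subst hpw
        exact ⟨k2, k1, by rw [mul_comm]; exact hk1, hk3, hk2⟩
      · have hw : w ∈ C := hSat r hr w hrw
        obtain ⟨a', b', k3, k4, hk4, hk5, hk6⟩ := h4 r hr w hw hrw
        obtain ⟨rfl, rfl⟩ := D5_path h1 h2 hSL hRF hFH O q l hρ hE hp hr hw hpr hrw
          (fun h => hpw h.symm) hk2 hk5
        exact ⟨k3, k4, hk4, hk5, hk6⟩
    have hall : ∀ r, Relation.ReflTransGen (adj M) s r → r ∈ C ∧ ∀ w, adj M r w →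
        ∃ k k' : O, k * k' = b ^ 2 ∧ Edg M C O q ρ l' v r w a b k ∧
          Edg M C O q ρ l' v w r a b k' := by
      intro r hr
      induction hr with
      | refl =>
        exact ⟨hs, hstep t ht s hs (adj_symm hst) ⟨k', k, by rw [mul_comm]; exact hkk, hE2, hE1⟩⟩
      | tail _ hpr ih =>
        have hr' := hSat _ ih.1 _ hpr
        exact ⟨hr', hstep _ ih.1 _ hr' hpr (ih.2 _ hpr)⟩
    intro r hr w _ hrw
    exact (hall r (hConn s hs r hr)).2 w hrw
  · obtain ⟨a, ha⟩ := IsLocalRing.residue_surjective (R := O) (1 - q)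
    obtain ⟨b, hb⟩ := IsLocalRing.residue_surjective (R := O) (-q)
    exact ⟨a, b, ha, hb, fun s hs t ht hst => absurd ⟨s, hs, t, ht, hst⟩ hC⟩

end Pool.Agent.Lib.MP_97567f_al
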