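import Pool.Agent.Lib.MP_97567f_al.SpecD

/-!
# MP_97567f_al: scaling of the eigenvectors
-/

set_option autoImplicit false

namespace Pool.Agent.Lib.MP_97567f_al

private theorem D6_unit {R : Type} [CommRing R] [IsLocalRing R] {x : R}
    (h : IsLocalRing.residue R x ≠ 0) : IsUnit x := by
  by_contra hx
  exact h ((IsLocalRing.residue_eq_zero_iff x).2 hx)

private theorem D6_fam {n : ℕ} {M : CoxeterMatrix (Fin n)} {R : Type} [CommRing R] [IsLocalRing R]
    (hleaf : ∀ U : Finset (Fin n), U.Nonempty → ∃ u ∈ U, ∀ v ∈ U, ∀ w ∈ U,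
      adj M u v → adj M u w → v = w) (C : Finset (Fin n)) (b : R) (hb : IsUnit b)
    (q : IsLocalRing.ResidueField R) (hbq : IsLocalRing.residue R b = -q)
    (k : Fin n → Fin n → R)
    (hk : ∀ s ∈ C, ∀ t ∈ C, adj M s t → IsLocalRing.residue R (k s t) = q)
    (hkk : ∀ s ∈ C, ∀ t ∈ C, adj M s t → k s t * k t s = b ^ 2) :
    ∀ (m : ℕ) (U : Finset (Fin n)), U.card = m → U ⊆ C →
      ∃ c : Fin n → R, (∀ s, IsLocalRing.residue R (c s) = 1) ∧
        ∀ s ∈ U, ∀ t ∈ U, adj M s t → c s * k s t = -b * c t := by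
  intro m
  induction m with
  | zero =>
    intro U hU _
    rw [Finset.card_eq_zero] at hU
    subst hU
    exact ⟨fun _ => 1, fun _ => map_one _, fun s hs => absurd hs (Finset.notMem_empty s)⟩
  | succ m ih =>
    intro U hU hUC
    obtain ⟨u, hu, hl⟩ := hleaf U (Finset.card_pos.1 (by omega))
    obtain ⟨c, hc1, hc2⟩ := ih (U.erase u) (by rw [Finset.card_erase_of_mem hu, hU]; rfl)
      ((Finset.erase_subset _ _).trans hUC)
    by_cases hw : ∃ w ∈ U, adj M u w
    · obtain ⟨w, hwU, hw⟩ := hw
      have hwu : w ≠ u := (adj_ne hw).symm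
      obtain ⟨b', hb'⟩ := hb.exists_left_inv
      have h1 : IsLocalRing.residue R b' * -q = 1 := by
        rw [← hbq, ← map_mul, hb', map_one]
      refine ⟨Function.update c u (-(c w * k w u * b')), fun s => ?_, fun s hs t ht hst => ?_⟩
      · by_cases hsu : s = u
        · subst hsu
          rw [Function.update_self, map_neg, map_mul, map_mul, hc1, hk w (hUC hwU) s (hUC hu)
            (adj_symm hw)]
          linear_combination h1
        · rw [Function.update_of_ne hsu]
          exact hc1 s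
      · by_cases hsu : s = u
        · subst hsu
          have htw : t = w := hl t ht w hwU hst hw
          subst htw
          rw [Function.update_self, Function.update_of_ne hwu]
          have h2 := hkk s (hUC hu) t (hUC hwU) hw
          linear_combination (-(c t * b')) * h2 - c t * b * hb'
        · rw [Function.update_of_ne hsu]
          by_cases htu : t = u
          · subst htu
            have hsw : s = w := hl s hs w hwU (adj_symm hst) hw
            subst hsw
            rw [Function.update_self]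
            linear_combination (-(c s * k s t)) * hb'
          · rw [Function.update_of_ne htu]
            exact hc2 s (Finset.mem_erase.2 ⟨hsu, hs⟩) t (Finset.mem_erase.2 ⟨htu, ht⟩) hst
    · refine ⟨c, hc1, fun s hs t ht hst => ?_⟩
      by_cases hsu : s = u
      · subst hsu
        exact absurd ⟨t, ht, hst⟩ hw
      · by_cases htu : t = u
        · subst htu
          exact absurd ⟨s, hs, adj_symm hst⟩ hw
        · exact hc2 s (Finset.mem_erase.2 ⟨hsu, hs⟩) t (Finset.mem_erase.2 ⟨htu, ht⟩) hst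

theorem pD6 (h1 : SLkA) (h2 : SD5) : SD6 := by
  intro n M hSL hRF hFH C hSat hConn F _ _ O q l hG ρ hρ l' v hE
  obtain ⟨a, b, ha, hb, hab⟩ := h2 n M hSL hRF hFH C hSat hConn F O q l hG ρ hρ l' v hE
  have hmem : ∀ s, s ∈ C → e s ∈ roots M C := fun s hs => ((h1 n M hRF C).2.2.2.1 s).2 hs
  have hone : ∀ s (hs : s ∈ C), IsUnit (v s ⟨e s, hmem s hs⟩) := by
    intro s hs
    apply D6_unit
    rw [hE.rv s hs, xv, if_pos rfl]
    exact one_ne_zero
  have hbu : IsUnit b := by
    apply D6_unit
    rw [hb]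
    exact neg_ne_zero.2 hG.q0
  -- the coefficients
  have huni : ∀ s ∈ C, ∀ x y : O, x • v s = y • v s → x = y := by
    intro s hs x y hxy
    have h3 := congrFun hxy ⟨e s, hmem s hs⟩
    simp only [Pi.smul_apply, smul_eq_mul] at h3
    exact (hone s hs).mul_right_cancel h3
  have hk0 : ∀ s t, ∃ k : O, s ∈ C → t ∈ C → adj M s t → Edg M C O q ρ l' v s t a b k := by
    intro s t
    by_cases h : s ∈ C ∧ t ∈ C ∧ adj M s t
    · obtain ⟨k, _, _, hk, _⟩ := hab s h.1 t h.2.1 h.2.2
      exact ⟨k, fun _ _ _ => hk⟩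
    · exact ⟨0, fun h3 h4 h5 => absurd ⟨h3, h4, h5⟩ h⟩
  choose k hk using hk0
  have hkk : ∀ s ∈ C, ∀ t ∈ C, adj M s t → k s t * k t s = b ^ 2 := by
    intro s hs t ht hst
    obtain ⟨k1, k2, h3, h4, h5⟩ := hab s hs t ht hst
    have h6 : k s t = k1 := huni t ht _ _ (by rw [← (hk s t hs ht hst).st, ← h4.st])
    have h7 : k t s = k2 := huni s hs _ _ (by rw [← (hk t s ht hs (adj_symm hst)).st, ← h5.st])
    rw [h6, h7, h3]
  obtain ⟨c, hc1, hc2⟩ := D6_fam hRF.c.leaf C b hbu q hb k
    (fun s hs t ht hst => (hk s t hs ht hst).rk) hkk C.card C rfl subset_rfl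
  refine ⟨a, b, fun s => c s • v s, ⟨hE.rl, fun s hs b' => ?_, fun s hs => ?_, fun s hs x hx => ?_⟩,
    ha, hb, fun s hs t ht hst => ⟨?_, ?_⟩⟩
  · rw [Pi.smul_apply, smul_eq_mul, map_mul, hc1, one_mul, hE.rv s hs]
  · rw [Matrix.mulVec_smul, hE.eig s hs, smul_comm]
  · obtain ⟨d, hd⟩ := hE.sgl s hs x hx
    have h3 : (c s : F) ≠ 0 := by
      intro h4
      have h5 : c s = 0 := Subtype.ext h4
      have h6 := hc1 s
      rw [h5, map_zero] at h6
      exact zero_ne_one h6
    refine ⟨d / (c s : F), ?_⟩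
    rw [hd]
    funext b'
    rw [Pi.smul_apply, smul_eq_mul]
    push_cast
    field_simp
  · simp only [Matrix.mulVec_smul]
    rw [(hk s t hs ht hst).st, smul_smul, smul_smul, hc2 s hs t ht hst]
  · obtain ⟨d, hd1, hd2⟩ := (hk s t hs ht hst).qu
    simp only [Matrix.mulVec_smul]
    rw [hd2]
    have h3 : c t * d = -(a * l') * c s := by
      have h4 : IsUnit (k s t) := by
        apply D6_unit
        rw [(hk s t hs ht hst).rk]
        exact hG.q0
      refine h4.mul_right_cancel ?_
      linear_combination c t * hd1 + a * l' * hc2 s hs t ht hst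
    rw [smul_add, smul_sub, smul_smul, smul_smul, smul_smul, smul_smul, smul_smul, smul_smul, h3,
      mul_comm (c t) a, mul_comm (c t) b, neg_mul, neg_smul, sub_eq_add_neg _ ((a * l' * c s) • v s)]

end Pool.Agent.Lib.MP_97567f_al
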