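import Pool.Agent.Lib.MP_97567f_al.SpecD

/-!
# MP_97567f_al: commuting nodes
-/

set_option autoImplicit false

namespace Pool.Agent.Lib.MP_97567f_al

private theorem D7_e_ne {n : ℕ} {s t : Fin n} (h : s ≠ t) : (e s : Fin n → ℤ) ≠ e t := by
  intro h1
  have h2 := congrFun h1 s
  rw [e, e, Pi.single_eq_same, Pi.single_eq_of_ne h] at h2
  exact one_ne_zero h2

private theorem D7_e_ne0 {n : ℕ} (s : Fin n) : (e s : Fin n → ℤ) ≠ 0 := by
  intro h1
  have h2 := congrFun h1 s
  rw [e, Pi.single_eq_same, Pi.zero_apply] at h2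
  exact one_ne_zero h2

private theorem D7_sum_ne {n : ℕ} (s t : Fin n) : (e t + e s : Fin n → ℤ) ≠ e s := by
  intro h1
  exact D7_e_ne0 t (add_eq_right.1 h1)

private theorem D7_sum_ne' {n : ℕ} (s t : Fin n) : (e t + e s : Fin n → ℤ) ≠ e t := by
  intro h1
  exact D7_e_ne0 s (add_eq_left.1 h1)

section lk

variable {n : ℕ} {M : CoxeterMatrix (Fin n)} (hR : RF M) (hF : FH M (fh M))
  (C : Finset (Fin n)) (hA : SLkA) {R : Type} [CommRing R] (q l : R)

include hR hA in
private theorem D7_i0 {s : Fin n} (hs : s ∈ C) :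
    (lk M C q l s).mulVec (xv M C (e s)) = l • xv M C (e s) := by
  obtain ⟨-, -, -, h4, h5⟩ := hA n M hR C
  rw [(h5 R q l).1 s _ ((h4 s).2 hs), img, if_pos rfl]

include hR hA hF in
private theorem D7_i1 {s t : Fin n} (hc : t ∈ C) (h : adj M s t) :
    (lk M C q l s).mulVec (xv M C (e t)) = xv M C (e t + e s) + (1 - q) • xv M C (e t) := by
  obtain ⟨-, -, -, h4, h5⟩ := hA n M hR C
  rw [(h5 R q l).1 s _ ((h4 t).2 hc), img, if_neg (D7_e_ne (adj_ne h).symm),
    if_pos (hR.a.pra t s (adj_symm h)), hF.simple s t (adj_ne h), map_zero, mul_zero, zero_smul,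
    add_zero]

include hR hA hF in
private theorem D7_i00 {s t : Fin n} (hs : s ∈ C) (hne : s ≠ t) (h : ¬ adj M s t) :
    (lk M C q l t).mulVec (xv M C (e s)) = xv M C (e s) := by
  obtain ⟨-, -, -, h4, h5⟩ := hA n M hR C
  have hp := hR.a.prn s t hne h
  rw [(h5 R q l).1 t _ ((h4 s).2 hs), img, if_neg (D7_e_ne hne),
    if_neg (by rw [hp]; norm_num), if_neg (by rw [hp]; norm_num), hF.simple t s hne.symm,
    map_zero, mul_zero, zero_smul, add_zero]

include hR hA in
private theorem D7_i3 {s u t : Fin n} (hs : s ∈ C) (hu : u ∈ C) (hsu : adj M s u)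
    (hut : adj M u t) (hne : s ≠ t) (hst : ¬ adj M s t) : ∃ f : R,
    (lk M C q l t).mulVec (xv M C (e s + e u)) =
      xv M C (e s + e u + e t) + (1 - q) • xv M C (e s + e u) + f • xv M C (e t) := by
  obtain ⟨-, h2, -, h4, h5⟩ := hA n M hR C
  have hp : pr M (e s + e u) t = -1 := by
    rw [hR.a.pr_add, hR.a.prn s t hne hst, hR.a.pra u t hut]
    norm_num
  have hb : e s + e u ≠ e t := by
    intro h6
    have h7 := congrFun h6 s
    rw [Pi.add_apply, e, e, e, Pi.single_eq_same, Pi.single_eq_of_ne (adj_ne hsu),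
      Pi.single_eq_of_ne hne] at h7
    norm_num at h7
  refine ⟨l * Polynomial.aeval q (fh M t (e s + e u)), ?_⟩
  rw [(h5 R q l).1 t _ (h2 _ ((h4 s).2 hs) u (hR.a.pra s u hsu) hu), img, if_neg hb,
    if_pos hp]

end lk

section def_

variable {n : ℕ} {M : CoxeterMatrix (Fin n)} {C : Finset (Fin n)} {F : Type} [Field F]
    {O : ValuationSubring F} {q l : IsLocalRing.ResidueField O} {ρ : Art M →* GL (PR M C) O}
    {l' : O} {v : Fin n → PR M C → O}

private theorem D7_red (A : Matrix (PR M C) (PR M C) O) (x : PR M C → O) :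
    (fun i => IsLocalRing.residue O (A.mulVec x i)) =
      (A.map (IsLocalRing.residue O)).mulVec (fun i => IsLocalRing.residue O (x i)) :=
  funext fun i => RingHom.map_mulVec _ _ _ i

private theorem D7_up (A : Matrix (PR M C) (PR M C) O) (x : PR M C → O) :
    (fun i => ((A.mulVec x i : O) : F)) =
      (A.map (algebraMap O F)).mulVec (fun i => (x i : F)) :=
  funext fun i => RingHom.map_mulVec (algebraMap O F) _ _ i

/-- multiples of the eigenvector -/
private theorem D7_mult (hA : SLkA) (hR : RF M) (hE : Eig M C O l ρ l' v) {t : Fin n}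
    (hc : t ∈ C) {x : PR M C → O} (hx : (ρ (gn M t)).1.mulVec x = l' • x) :
    ∃ k : O, x = k • v t := by
  have hmem : e t ∈ roots M C := ((hA n M hR C).2.2.2.1 t).2 hc
  obtain ⟨c, hcx⟩ := hE.sgl t hc (fun i => (x i : F)) (by
    rw [← D7_up, hx]
    rfl)
  have h1 : IsLocalRing.residue O (v t ⟨e t, hmem⟩) ≠ 0 := by
    rw [hE.rv t hc, xv, if_pos rfl]
    exact one_ne_zero
  have h2 : IsUnit (v t ⟨e t, hmem⟩) := by
    by_contra h
    exact h1 ((IsLocalRing.residue_eq_zero_iff _).2 ((IsLocalRing.mem_maximalIdeal _).2 h))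
  obtain ⟨u, hu⟩ := h2
  have h3 : c = ((x ⟨e t, hmem⟩ * (u⁻¹ : Oˣ) : O) : F) := by
    have h4 := congrFun hcx ⟨e t, hmem⟩
    have h5 : (((u : O) : F)) * (((u⁻¹ : Oˣ) : O) : F) = 1 := by
      have h6 : (u : O) * ((u⁻¹ : Oˣ) : O) = 1 := Units.mul_inv u
      exact_mod_cast congrArg (fun z : O => (z : F)) h6
    have h7 : ((x ⟨e t, hmem⟩ * (u⁻¹ : Oˣ) : O) : F) = (x ⟨e t, hmem⟩ : F) * (((u⁻¹ : Oˣ) : O) : F) :=
      rfl
    rw [h7]
    beta_reduce at h4
    rw [h4, ← hu, mul_assoc, h5, mul_one]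
  refine ⟨x ⟨e t, hmem⟩ * (u⁻¹ : Oˣ), funext fun i => Subtype.val_injective ?_⟩
  have h8 := congrFun hcx i
  rw [h3] at h8
  exact h8

/-- the eigenvalue of a commuting node -/
private theorem D7_mu (hM : ∀ i j, i ≠ j → M.M i j = 2 ∨ M.M i j = 3) (hA : SLkA) (hR : RF M)
    (hF : FH M (fh M)) (hE : Eig M C O l ρ l' v)
    (hρ : IsDef M C O q l ρ) {s t : Fin n} (hs : s ∈ C) (hne : s ≠ t) (h : ¬ adj M s t) :
    ∃ μ : O, IsLocalRing.residue O μ = 1 ∧ (ρ (gn M t)).1.mulVec (v s) = μ • v s := by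
  have hmem : e s ∈ roots M C := ((hA n M hR C).2.2.2.1 s).2 hs
  have hcm : (ρ (gn M s)).1 * (ρ (gn M t)).1 = (ρ (gn M t)).1 * (ρ (gn M s)).1 := by
    have h6 := congrArg (fun x => (ρ x).1) (art_comm hM hne h)
    simpa only [map_mul, Units.val_mul] using h6
  obtain ⟨μ, hμ⟩ := D7_mult hA hR hE hs (x := (ρ (gn M t)).1.mulVec (v s)) (by
    rw [Matrix.mulVec_mulVec, hcm, ← Matrix.mulVec_mulVec, hE.eig s hs, Matrix.mulVec_smul])
  refine ⟨μ, ?_, hμ⟩
  have h2 : (fun i => IsLocalRing.residue O ((ρ (gn M t)).1.mulVec (v s) i)) =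
      xv M C (e s) := by
    rw [D7_red, hρ t]
    have h3 : (fun i => IsLocalRing.residue O (v s i)) = xv M C (e s) := funext (hE.rv s hs)
    rw [h3, D7_i00 hR hF C hA q l hs hne h]
  have h4 := congrFun h2 ⟨e s, hmem⟩
  rw [hμ] at h4
  simp only [Pi.smul_apply, smul_eq_mul, map_mul, hE.rv s hs] at h4
  rw [xv, if_pos rfl, mul_one] at h4
  exact h4

end def_

section path

variable {n : ℕ} {M : CoxeterMatrix (Fin n)} {C : Finset (Fin n)} {F : Type} [Field F]
    {O : ValuationSubring F} {q l : IsLocalRing.ResidueField O} {ρ : Art M →* GL (PR M C) O}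
    {l' a b : O} {v : Fin n → PR M C → O}

private theorem D7_isUnit {x : O} (h : IsLocalRing.residue O x ≠ 0) : IsUnit x := by
  by_contra h1
  exact h ((IsLocalRing.residue_eq_zero_iff _).2 ((IsLocalRing.mem_maximalIdeal _).2 h1))

private theorem D7_inj {x y : PR M C → O} (s : Art M)
    (h : (ρ s).1.mulVec x = (ρ s).1.mulVec y) : x = y := by
  have h1 := congrArg (fun z => ((ρ s)⁻¹).1.mulVec z) h
  beta_reduce at h1
  rw [Matrix.mulVec_mulVec, Matrix.mulVec_mulVec] at h1
  have h2 : ((ρ s)⁻¹).1 * (ρ s).1 = 1 := Units.inv_mul _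
  rwa [h2, Matrix.one_mulVec, Matrix.one_mulVec] at h1

/-- The path `s - u - t`. -/
private theorem D7_path (hM : ∀ i j, i ≠ j → M.M i j = 2 ∨ M.M i j = 3) (hA : SLkA) (h3 : SVLI)
    (hR : RF M) (hF : FH M (fh M)) (hG : Gen q l) (hE : Eig M C O l ρ l' v)
    (hρ : IsDef M C O q l ρ) (ha : IsLocalRing.residue O a = 1 - q)
    (hrel : ∀ s ∈ C, ∀ t ∈ C, adj M s t →
        (ρ (gn M s)).1.mulVec ((ρ (gn M t)).1.mulVec (v s)) = (-b) • v t ∧
        (ρ (gn M s)).1.mulVec ((ρ (gn M s)).1.mulVec (v t)) =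
          a • (ρ (gn M s)).1.mulVec (v t) - b • v t - (a * l') • v s)
    {s u t : Fin n} (hs : s ∈ C) (hu : u ∈ C) (ht : t ∈ C) (hsu : adj M s u) (hut : adj M u t)
    (hne : s ≠ t) (hst : ¬ adj M s t) {μ : O}
    (hμ : (ρ (gn M t)).1.mulVec (v s) = μ • v s) : μ ^ 2 - a * μ + b = 0 := by
  obtain ⟨μ', hμ'1, hμ'⟩ := D7_mu hM hA hR hF hE hρ ht hne.symm (fun h => hst (adj_symm h))
  have hcm : (ρ (gn M s)).1 * (ρ (gn M t)).1 = (ρ (gn M t)).1 * (ρ (gn M s)).1 := by
    have h6 := congrArg (fun x => (ρ x).1) (art_comm hM hne hst)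
    simpa only [map_mul, Units.val_mul] using h6
  have hbr : (ρ (gn M u)).1 * (ρ (gn M t)).1 * (ρ (gn M u)).1 =
      (ρ (gn M t)).1 * (ρ (gn M u)).1 * (ρ (gn M t)).1 := by
    have h6 := congrArg (fun x => (ρ x).1) (art_braid hut)
    simpa only [map_mul, Units.val_mul] using h6
  obtain ⟨hsu1, hsu2⟩ := hrel s hs u hu hsu
  obtain ⟨hus1, hus2⟩ := hrel u hu s hs (adj_symm hsu)
  obtain ⟨hut1, hut2⟩ := hrel u hu t ht hut
  obtain ⟨htu1, htu2⟩ := hrel t ht u hu (adj_symm hut)
  have hinjS : ∀ x y, (ρ (gn M s)).1.mulVec x = (ρ (gn M s)).1.mulVec y → x = y :=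
    fun x y h => D7_inj (gn M s) h
  have hinjU : ∀ x y, (ρ (gn M u)).1.mulVec x = (ρ (gn M u)).1.mulVec y → x = y :=
    fun x y h => D7_inj (gn M u) h
  have hrt := hρ t
  have hru := hρ u
  have hevs := hE.eig s hs
  have hevt := hE.eig t ht
  have hevu := hE.eig u hu
  generalize (ρ (gn M s)).1 = S at *
  generalize (ρ (gn M u)).1 = U at *
  generalize (ρ (gn M t)).1 = T at *
  have hcv : ∀ x, S.mulVec (T.mulVec x) = T.mulVec (S.mulVec x) := by
    intro x
    rw [Matrix.mulVec_mulVec, Matrix.mulVec_mulVec, hcm]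
  have hbv : ∀ x, U.mulVec (T.mulVec (U.mulVec x)) = T.mulVec (U.mulVec (T.mulVec x)) := by
    intro x
    have h6 := congrArg (fun A => A.mulVec x) hbr
    beta_reduce at h6
    rwa [← Matrix.mulVec_mulVec, ← Matrix.mulVec_mulVec, ← Matrix.mulVec_mulVec,
        ← Matrix.mulVec_mulVec] at h6
  -- the vectors
  have hUy1 : U.mulVec (T.mulVec (U.mulVec (v s))) = μ • T.mulVec (U.mulVec (v s)) := by
    rw [hbv, hμ, Matrix.mulVec_smul, Matrix.mulVec_smul]
  obtain ⟨w, hw⟩ : ∃ w, μ' * w = 1 := by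
    obtain ⟨w, hw⟩ := D7_isUnit (x := μ') (by rw [hμ'1]; exact one_ne_zero)
    exact ⟨((w⁻¹ : Oˣ) : O), by rw [← hw]; exact Units.mul_inv w⟩
  obtain ⟨m, hTy1⟩ : ∃ m : O, T.mulVec (T.mulVec (U.mulVec (v s))) =
      a • T.mulVec (U.mulVec (v s)) - b • U.mulVec (v s) + m • v t := by
    refine ⟨w * (b * (a * l')), hinjS _ _ ?_⟩
    simp only [hcv, hsu1, Matrix.mulVec_add, Matrix.mulVec_sub, Matrix.mulVec_smul, hμ', htu2]
    funext i
    simp only [Pi.add_apply, Pi.sub_apply, Pi.smul_apply, smul_eq_mul]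
    linear_combination (-(b * (a * l')) * v t i) * hw
  have hTvu : T.mulVec (v u) = U.mulVec (v t) - a • v t + a • v u := by
    apply hinjU
    rw [hut1, Matrix.mulVec_add, Matrix.mulVec_sub, Matrix.mulVec_smul, Matrix.mulVec_smul,
      hut2, hevu]
    funext i
    simp only [Pi.add_apply, Pi.sub_apply, Pi.smul_apply, smul_eq_mul]
    ring
  have hmain : (a ^ 2 * μ - a * b - a * μ ^ 2) • T.mulVec (U.mulVec (v s)) +
      (a ^ 2 * b * l' - m * b - a * b * l' * μ) • v u + (a * μ * m - a ^ 2 * b * l') • v t +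
      (a * b * l' - μ * m) • U.mulVec (v t) = 0 := by
    have h7 := hbv (T.mulVec (U.mulVec (v s)))
    rw [hUy1] at h7
    simp only [Matrix.mulVec_smul, hTy1, Matrix.mulVec_add, Matrix.mulVec_sub, hUy1, hus2,
      htu1, hμ, hTvu] at h7
    rw [← sub_eq_zero] at h7
    funext i
    have h8 := congrFun h7 i
    simp only [Pi.add_apply, Pi.sub_apply, Pi.smul_apply, smul_eq_mul, Pi.zero_apply] at h8 ⊢
    linear_combination -h8
  -- independence
  have hms : e s ∈ roots M C := ((hA n M hR C).2.2.2.1 s).2 hs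
  have hmu : e u ∈ roots M C := ((hA n M hR C).2.2.2.1 u).2 hu
  have hmt : e t ∈ roots M C := ((hA n M hR C).2.2.2.1 t).2 ht
  have hmtu : e t + e u ∈ roots M C :=
    (hA n M hR C).2.1 _ hmt u (hR.a.pra t u (adj_symm hut)) hu
  have hmsu : e s + e u ∈ roots M C := (hA n M hR C).2.1 _ hms u (hR.a.pra s u hsu) hu
  have hmsut : e s + e u + e t ∈ roots M C := by
    refine (hA n M hR C).2.1 _ hmsu t ?_ ht
    rw [hR.a.pr_add, hR.a.prn s t hne hst, hR.a.pra u t hut]
    norm_num
  have hes : ∀ x y : Fin n, (e x : Fin n → ℤ) y = if y = x then 1 else 0 := fun x y => by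
    rw [e, Pi.single_apply]
  have nsu := adj_ne hsu
  have nut := adj_ne hut
  have hru2 : (fun i => IsLocalRing.residue O (v u i)) = xv M C (e u) := funext (hE.rv u hu)
  have hrs2 : (fun i => IsLocalRing.residue O (v s i)) = xv M C (e s) := funext (hE.rv s hs)
  have hrt2 : (fun i => IsLocalRing.residue O (v t i)) = xv M C (e t) := funext (hE.rv t ht)
  have hrut : (fun i => IsLocalRing.residue O (U.mulVec (v t) i)) =
      xv M C (e t + e u) + (1 - q) • xv M C (e t) := by
    rw [D7_red, hru, hrt2, D7_i1 hR hF C hA q l ht (adj_symm (adj_symm hut))]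
  obtain ⟨f, hf⟩ := D7_i3 (R := IsLocalRing.ResidueField O) hR C hA q l hs hu hsu hut hne hst
  have hrtus : (fun i => IsLocalRing.residue O (T.mulVec (U.mulVec (v s)) i)) =
      xv M C (e s + e u + e t) + (1 - q) • xv M C (e s + e u) + f • xv M C (e t) +
        (1 - q) • xv M C (e s) := by
    rw [D7_red, D7_red, hrt, hru, hrs2, D7_i1 hR hF C hA q l hs (adj_symm hsu),
      Matrix.mulVec_add, Matrix.mulVec_smul, hf, D7_i00 hR hF C hA q l hs hne hst]
  -- coordinates
  have hco : ∀ c0 c1 c2 c3 : IsLocalRing.ResidueField O,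
      (c0 • xv M C (e u) + c1 • xv M C (e t) +
        c2 • (xv M C (e t + e u) + (1 - q) • xv M C (e t)) +
        c3 • (xv M C (e s + e u + e t) + (1 - q) • xv M C (e s + e u) + f • xv M C (e t) +
        (1 - q) • xv M C (e s)) : PR M C → IsLocalRing.ResidueField O) = 0 →
      c0 = 0 ∧ c1 = 0 ∧ c2 = 0 ∧ c3 = 0 := by
    intro c0 c1 c2 c3 h
    have a1 := congrFun h ⟨e s + e u + e t, hmsut⟩
    have a2 := congrFun h ⟨e t + e u, hmtu⟩
    have a3 := congrFun h ⟨e t, hmt⟩
    have a4 := congrFun h ⟨e u, hmu⟩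
    have d : ∀ (x y : Fin n → ℤ) (z : Fin n), x z ≠ y z → x ≠ y := fun x y z h1 h2 =>
      h1 (congrFun h2 z)
    have n1 : e s + e u + e t ≠ (e u : Fin n → ℤ) := d _ _ s (by
      simp [hes, nsu, hne])
    have n2 : e s + e u + e t ≠ (e t : Fin n → ℤ) := d _ _ s (by
      simp [hes, nsu, hne])
    have n3 : e s + e u + e t ≠ (e t + e u : Fin n → ℤ) := d _ _ s (by
      simp [hes, nsu, hne])
    have n4 : e s + e u + e t ≠ (e s + e u : Fin n → ℤ) := d _ _ t (by
      simp [hes, nut.symm, hne.symm])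
    have n5 : e s + e u + e t ≠ (e s : Fin n → ℤ) := d _ _ t (by
      simp [hes, nut.symm, hne.symm])
    have n6 : e t + e u ≠ (e u : Fin n → ℤ) := d _ _ t (by
      simp [hes, nut.symm])
    have n7 : e t + e u ≠ (e t : Fin n → ℤ) := d _ _ u (by
      simp [hes, nut])
    have n8 : e t + e u ≠ (e s + e u : Fin n → ℤ) := d _ _ t (by
      simp [hes, nut.symm, hne.symm])
    have n9 : e t + e u ≠ (e s : Fin n → ℤ) := d _ _ t (by
      simp [hes, nut.symm, hne.symm])
    have n10 : e t ≠ (e u : Fin n → ℤ) := d _ _ t (by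
      simp [hes, nut.symm])
    have n11 : e t ≠ (e s + e u : Fin n → ℤ) := d _ _ t (by
      simp [hes, nut.symm, hne.symm])
    have n12 : e t ≠ (e s : Fin n → ℤ) := d _ _ t (by
      simp [hes, hne.symm])
    have n13 : e u ≠ (e s + e u : Fin n → ℤ) := d _ _ s (by
      simp [hes, nsu])
    have n14 : e u ≠ (e s : Fin n → ℤ) := d _ _ s (by
      simp [hes, nsu])
    simp only [Pi.add_apply, Pi.smul_apply, smul_eq_mul, xv, Pi.zero_apply, if_pos, if_neg n1,
      if_neg n2, if_neg n3, if_neg n4, if_neg n5] at a1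
    simp only [Pi.add_apply, Pi.smul_apply, smul_eq_mul, xv, Pi.zero_apply, if_pos, if_neg n6,
      if_neg n7, if_neg n8, if_neg n9, if_neg n3.symm] at a2
    simp only [Pi.add_apply, Pi.smul_apply, smul_eq_mul, xv, Pi.zero_apply, if_pos, if_neg n10,
      if_neg n11, if_neg n12, if_neg n2.symm, if_neg n7.symm] at a3
    simp only [Pi.add_apply, Pi.smul_apply, smul_eq_mul, xv, Pi.zero_apply, if_pos,
      if_neg n10.symm, if_neg n13, if_neg n14, if_neg n1.symm, if_neg n6.symm] at a4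
    have e3 : c3 = 0 := by linear_combination a1
    rw [e3] at a2 a3 a4
    have e2 : c2 = 0 := by linear_combination a2
    rw [e2] at a3
    exact ⟨by linear_combination a4, by linear_combination a3, e2, e3⟩
  have hli : LinearIndependent (IsLocalRing.ResidueField O)
      (fun (m : Fin 4) i => IsLocalRing.residue O
        ((![v u, v t, U.mulVec (v t), T.mulVec (U.mulVec (v s))] m) i)) := by
    have e1 : (fun (m : Fin 4) i => IsLocalRing.residue O
        ((![v u, v t, U.mulVec (v t), T.mulVec (U.mulVec (v s))] m) i)) =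
        ![xv M C (e u), xv M C (e t), xv M C (e t + e u) + (1 - q) • xv M C (e t),
          xv M C (e s + e u + e t) + (1 - q) • xv M C (e s + e u) + f • xv M C (e t) +
        (1 - q) • xv M C (e s)] := by
      funext m
      fin_cases m
      · exact hru2
      · exact hrt2
      · exact hrut
      · exact hrtus
    rw [e1, Fintype.linearIndependent_iff]
    intro g hg
    rw [Fin.sum_univ_four] at hg
    obtain ⟨c0, c1, c2, c3⟩ := hco (g 0) (g 1) (g 2) (g 3) hg
    intro i
    fin_cases i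
    · exact c0
    · exact c1
    · exact c2
    · exact c3
  obtain ⟨hliF, -⟩ := h3 F O (PR M C) (Fin 4) _ hli
  rw [Fintype.linearIndependent_iff] at hliF
  have hc := hliF ![((a ^ 2 * b * l' - m * b - a * b * l' * μ : O) : F),
    ((a * μ * m - a ^ 2 * b * l' : O) : F), ((a * b * l' - μ * m : O) : F),
    ((a ^ 2 * μ - a * b - a * μ ^ 2 : O) : F)] (by
      rw [Fin.sum_univ_four]
      funext i
      have h8 := congrArg (fun z : O => (z : F)) (congrFun hmain i)
      have h9 : (((a ^ 2 * μ - a * b - a * μ ^ 2 : O) : F) *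
          (T.mulVec (U.mulVec (v s)) i : F) + ((a ^ 2 * b * l' - m * b - a * b * l' * μ : O) : F) *
          (v u i : F) + ((a * μ * m - a ^ 2 * b * l' : O) : F) * (v t i : F) +
          ((a * b * l' - μ * m : O) : F) * (U.mulVec (v t) i : F)) = 0 := h8
      show ((a ^ 2 * b * l' - m * b - a * b * l' * μ : O) : F) * (v u i : F) +
        ((a * μ * m - a ^ 2 * b * l' : O) : F) * (v t i : F) +
        ((a * b * l' - μ * m : O) : F) * (U.mulVec (v t) i : F) +
        ((a ^ 2 * μ - a * b - a * μ ^ 2 : O) : F) * (T.mulVec (U.mulVec (v s)) i : F) = 0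
      rw [← h9]
      ring) 3
  have hc' : (a ^ 2 * μ - a * b - a * μ ^ 2 : O) = 0 := Subtype.val_injective hc
  have ha0 : a ≠ 0 := by
    intro h
    rw [h, map_zero] at ha
    exact hG.q1 (sub_eq_zero.1 ha.symm).symm
  have hfin : a * (μ ^ 2 - a * μ + b) = 0 := by linear_combination -hc'
  exact (mul_eq_zero.1 hfin).resolve_left ha0

end path

theorem pD7 (h1 : SLkA) (h2 : SVLI) : SD7 := by
  intro n M hSL hR hF C hC hCo F _ _ O q l hG ρ hρ l' a b v hE ha hb hrel
  -- the roots
  obtain ⟨r1, r2, hr1, hr2, hr3, hr4⟩ : ∃ r1 r2 : O, a = r1 + r2 ∧ b = r1 * r2 ∧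
      IsLocalRing.residue O r1 = 1 ∧ IsLocalRing.residue O r2 = -q := by
    obtain ⟨x, hx⟩ : ∃ x : F, x ^ 2 - (a : F) * x + (b : F) = 0 := by
      obtain ⟨x, hx⟩ := IsAlgClosed.exists_root
        (Polynomial.X ^ 2 + (Polynomial.C (-(a : F)) * Polynomial.X + Polynomial.C (b : F))) (by
          have h6 : (Polynomial.C (-(a : F)) * Polynomial.X + Polynomial.C (b : F)).degree <
              ((Polynomial.X : Polynomial F) ^ 2).degree := by
            rw [Polynomial.degree_X_pow]
            refine lt_of_le_of_lt Polynomial.degree_linear_le ?_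
            norm_num
          rw [Polynomial.degree_add_eq_left_of_degree_lt h6, Polynomial.degree_X_pow]
          norm_num)
      refine ⟨x, ?_⟩
      simp only [Polynomial.IsRoot, Polynomial.eval_add, Polynomial.eval_mul,
        Polynomial.eval_pow, Polynomial.eval_X, Polynomial.eval_C] at hx
      linear_combination hx
    have hxO : x ∈ O := by
      rcases O.mem_or_inv_mem x with h | h
      · exact h
      · by_cases h0 : x = 0
        · rw [h0]
          exact O.zero_mem
        · have h6 : x = (a : F) - (b : F) * x⁻¹ := by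
            field_simp
            linear_combination hx
          rw [h6]
          exact sub_mem a.2 (mul_mem b.2 h)
    obtain ⟨r, hr⟩ : ∃ r : O, (r : F) = x := ⟨⟨x, hxO⟩, rfl⟩
    have hrr : r ^ 2 - a * r + b = 0 := by
      apply Subtype.val_injective
      rw [← hr] at hx
      exact hx
    have h7 := congrArg (IsLocalRing.residue O) hrr
    rw [map_add, map_sub, map_pow, map_mul, map_zero, ha, hb] at h7
    have h8 : (IsLocalRing.residue O r - 1) * (IsLocalRing.residue O r + q) = 0 := by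
      linear_combination h7
    rcases mul_eq_zero.1 h8 with h9 | h9
    · refine ⟨r, a - r, by ring, by linear_combination hrr, sub_eq_zero.1 h9, ?_⟩
      rw [map_sub, ha, sub_eq_zero.1 h9]
      ring
    · refine ⟨a - r, r, by ring, by linear_combination hrr, ?_, by linear_combination h9⟩
      rw [map_sub, ha]
      linear_combination -h9
  refine ⟨r1, r2, hr1, hr2, hr3, hr4, ?_⟩
  intro s hs
  have hmem : e s ∈ roots M C := ((h1 n M hR C).2.2.2.1 s).2 hs
  have hv0 : ∀ α β : O, α • v s = β • v s → α = β := by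
    intro α β h
    have h6 := congrFun h ⟨e s, hmem⟩
    obtain ⟨w, hw⟩ := D7_isUnit (x := v s ⟨e s, hmem⟩) (by
      rw [hE.rv s hs, xv, if_pos rfl]
      exact one_ne_zero)
    rw [Pi.smul_apply, Pi.smul_apply, smul_eq_mul, smul_eq_mul, ← hw] at h6
    exact w.mul_left_inj.1 h6
  have key : ∀ t, Relation.ReflTransGen (adj M) s t → t ∈ C ∧
      (s ≠ t → ¬ adj M s t → (ρ (gn M t)).1.mulVec (v s) = r1 • v s) := by
    intro t hpath
    induction hpath with
    | refl => exact ⟨hs, fun h => absurd rfl h⟩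
    | @tail y x _ hyx ih =>
      obtain ⟨hyC, hy⟩ := ih
      have hxC : x ∈ C := hC y hyC x hyx
      refine ⟨hxC, fun hsx hnsx => ?_⟩
      obtain ⟨μ, hμ1, hμ⟩ := D7_mu hSL.sl h1 hR hF hE hρ hs hsx hnsx
      by_cases hsy : s = y
      · subst hsy
        exact absurd hyx hnsx
      by_cases hasy : adj M s y
      · have h6 := D7_path hSL.sl h1 h2 hR hF hG hE hρ ha hrel hs hyC hxC hasy hyx hsx hnsx hμ
        rw [hr1, hr2] at h6
        have h7 : (μ - r1) * (μ - r2) = 0 := by linear_combination h6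
        rcases mul_eq_zero.1 h7 with h8 | h8
        · rw [hμ, sub_eq_zero.1 h8]
        · exfalso
          have h9 := congrArg (IsLocalRing.residue O) (sub_eq_zero.1 h8)
          rw [hμ1, hr4] at h9
          exact hG.qm (by linear_combination h9)
      · have hy' := hy hsy hasy
        have hbr : (ρ (gn M y)).1 * (ρ (gn M x)).1 * (ρ (gn M y)).1 =
            (ρ (gn M x)).1 * (ρ (gn M y)).1 * (ρ (gn M x)).1 := by
          have h6 := congrArg (fun x => (ρ x).1) (art_braid hyx)
          simpa only [map_mul, Units.val_mul] using h6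
        have h6 := congrArg (fun A => A.mulVec (v s)) hbr
        beta_reduce at h6
        rw [← Matrix.mulVec_mulVec, ← Matrix.mulVec_mulVec, ← Matrix.mulVec_mulVec,
          ← Matrix.mulVec_mulVec] at h6
        simp only [hy', hμ, Matrix.mulVec_smul, smul_smul] at h6
        have h7 := hv0 _ _ h6
        have hu1 : IsUnit r1 := D7_isUnit (by rw [hr3]; exact one_ne_zero)
        have hu2 : IsUnit μ := D7_isUnit (by rw [hμ1]; exact one_ne_zero)
        have h8 : (r1 * μ) * μ = (r1 * μ) * r1 := by linear_combination -h7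
        rw [hμ, (hu1.mul hu2).mul_left_cancel h8]
  intro t ht hst hnst
  exact (key t (hCo s hs t ht)).2 hst hnst

end Pool.Agent.Lib.MP_97567f_al
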