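import Pool.Agent.Lib.MP_97567f_al.SpecD

/-!
# MP_97567f_al: the other nodes act by scalars
-/

set_option autoImplicit false

namespace Pool.Agent.Lib.MP_97567f_al

private theorem D8_res (h2 : SLKr) {n : ℕ} {M : CoxeterMatrix (Fin n)} (hSL : SL M)
    (hRF : RF M) (hFH : FH M (fh M)) {C : Finset (Fin n)} (hSat : Sat M C) {F : Type} [Field F]
    (O : ValuationSubring F) (q l : IsLocalRing.ResidueField O) (hq : q ≠ 0) (hl : l ≠ 0)
    {ρ : Art M →* GL (PR M C) O} (hρ : IsDef M C O q l ρ) (x : Art M) :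
    (ρ x).1.map (IsLocalRing.residue O) = (LKr M C q l x).1 := by
  have h3 : (Matrix.GeneralLinearGroup.map (IsLocalRing.residue O)).comp ρ = LKr M C q l := by
    apply art_ext
    intro i
    apply Units.ext
    rw [(h2 n M hSL hRF hFH C hSat).1 _ q l hq.isUnit hl.isUnit i, ← hρ i]
    rfl
  rw [← h3]
  rfl

private theorem D8_span (h2 : SLKr) (h3 : SLkS) (h4 : SVLI) {n : ℕ}
    {M : CoxeterMatrix (Fin n)} (hSL : SL M)
    (hRF : RF M) (hFH : FH M (fh M)) {C : Finset (Fin n)} (hSat : Sat M C) (hConn : Conn M C)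
    {F : Type} [Field F]
    (O : ValuationSubring F) (q l : IsLocalRing.ResidueField O) (hq : q ≠ 0) (hl : l ≠ 0)
    {ρ : Art M →* GL (PR M C) O} (hρ : IsDef M C O q l ρ) {l' : O} {v : Fin n → PR M C → O}
    (hE : Eig M C O l ρ l' v) {s : Fin n} (hs : s ∈ C) :
    Submodule.span F {y : PR M C → F | ∃ x ∈ Subgroup.closure (gn M '' (C : Set (Fin n))),
        y = ((ρ x).1.map (algebraMap O F)).mulVec fun b => (v s b : F)} = ⊤ := by
  classical
  have h5 := h3 n M hSL hRF hFH C hSat hConn (IsLocalRing.ResidueField O) q l hq hl s hs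
  obtain ⟨B, hB1, hB2, hB3⟩ := exists_linearIndependent (IsLocalRing.ResidueField O)
    {y | ∃ x ∈ Subgroup.closure (gn M '' (C : Set (Fin n))),
        y = (LKr M C q l x).1.mulVec (xv M C (e s))}
  rw [h5] at hB2
  have hfin : B.Finite := hB3.setFinite
  have := hfin.fintype
  have hx : ∀ y : B, ∃ x ∈ Subgroup.closure (gn M '' (C : Set (Fin n))),
      (y : PR M C → IsLocalRing.ResidueField O) = (LKr M C q l x).1.mulVec (xv M C (e s)) :=
    fun y => hB1 y.2
  choose x hx1 hx2 using hx
  have hcard : Fintype.card B = Fintype.card (PR M C) := by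
    have h6 := finrank_span_eq_card hB3
    rw [Subtype.range_coe, hB2, finrank_top, Module.finrank_fintype_fun_eq_card] at h6
    exact h6.symm
  have hli : LinearIndependent (IsLocalRing.ResidueField O) (fun (k : B) i =>
      IsLocalRing.residue O ((ρ (x k)).1.mulVec (v s) i)) := by
    have h6 : (fun (k : B) i => IsLocalRing.residue O ((ρ (x k)).1.mulVec (v s) i)) =
        fun k : B => (k : PR M C → IsLocalRing.ResidueField O) := by
      funext k i
      rw [hx2 k, RingHom.map_mulVec, D8_res h2 hSL hRF hFH hSat O q l hq hl hρ]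
      have h7 : (⇑(IsLocalRing.residue O) ∘ v s) = xv M C (e s) := funext (hE.rv s hs)
      rw [h7]
    rw [h6]
    exact hB3
  have h6 := (h4 F O (PR M C) B _ hli).1
  have h7 := h6.span_eq_top_of_card_eq_finrank' (by
    rw [hcard, Module.finrank_fintype_fun_eq_card])
  rw [eq_top_iff, ← h7, Submodule.span_le]
  rintro _ ⟨k, rfl⟩
  refine Submodule.subset_span ⟨x k, hx1 k, ?_⟩
  funext i
  exact RingHom.map_mulVec (algebraMap O F) (ρ (x k)).1 (v s) i

theorem pD8 (_h1 : SLkA) (h2 : SLKr) (h3 : SLkS) (h4 : SVLI) : SD8 := by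
  intro n M hSL hRF hFH C hSat hConn hCne F _ _ O q l hG ρ hρ l' v hE
  have hsp : ∀ s ∈ C, Submodule.span F {y : PR M C → F |
      ∃ x ∈ Subgroup.closure (gn M '' (C : Set (Fin n))),
        y = ((ρ x).1.map (algebraMap O F)).mulVec fun b => (v s b : F)} = ⊤ :=
    fun s hs => D8_span h2 h3 h4 hSL hRF hFH hSat hConn O q l hG.q0 hG.l0 hρ hE hs
  refine ⟨fun u hu => ?_, fun s hs => ?_⟩
  · obtain ⟨s, hs⟩ := hCne
    obtain ⟨G, hG'⟩ : ∃ G : Art M → Matrix (PR M C) (PR M C) F,
        ∀ y, G y = (ρ y).1.map (algebraMap O F) := ⟨_, fun _ => rfl⟩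
    have hGm : ∀ y z, G (y * z) = G y * G z := by
      intro y z
      rw [hG', hG', hG', map_mul, Units.val_mul, Matrix.map_mul]
    have hcomm : ∀ x ∈ Subgroup.closure (gn M '' (C : Set (Fin n))),
        gn M u * x = x * gn M u := by
      intro x hx
      have h5 : Subgroup.closure (gn M '' (C : Set (Fin n))) ≤
          Subgroup.centralizer {gn M u} := by
        rw [Subgroup.closure_le]
        rintro _ ⟨t, ht, rfl⟩
        have ht' : t ∈ C := ht
        rw [SetLike.mem_coe, Subgroup.mem_centralizer_singleton_iff]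
        refine art_comm hSL.sl ?_ ?_
        · rintro rfl
          exact hu ht'
        · exact fun h6 => hu (hSat t ht' u h6)
      exact (Subgroup.mem_centralizer_singleton_iff.1 (h5 hx)).symm
    have hus : gn M u * gn M s = gn M s * gn M u :=
      hcomm _ (Subgroup.subset_closure ⟨s, hs, rfl⟩)
    have hVs : (G (gn M s)).mulVec (fun b => (v s b : F)) = (l' : F) • fun b => (v s b : F) := by
      funext i
      have h5 := RingHom.map_mulVec (algebraMap O F) (ρ (gn M s)).1 (v s) i
      rw [hG']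
      refine h5.symm.trans ?_
      rw [hE.eig s hs]
      exact map_mul (algebraMap O F) _ _
    obtain ⟨m, hm⟩ : ∃ m : F, (G (gn M u)).mulVec (fun b => (v s b : F)) =
        m • fun b => (v s b : F) := by
      have h5 : ((ρ (gn M s)).1.map (algebraMap O F)).mulVec
          ((G (gn M u)).mulVec (fun b => (v s b : F))) =
          (l' : F) • (G (gn M u)).mulVec (fun b => (v s b : F)) := by
        rw [← hG', Matrix.mulVec_mulVec, ← hGm, ← hus, hGm, ← Matrix.mulVec_mulVec, hVs,
          Matrix.mulVec_smul]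
      obtain ⟨c, hc⟩ := hE.sgl s hs _ h5
      exact ⟨c, hc⟩
    refine ⟨m, ?_⟩
    rw [← hG']
    have hall : ∀ y : PR M C → F, (G (gn M u)).mulVec y = m • y := by
      intro y
      have hy : y ∈ Submodule.span F {y : PR M C → F |
          ∃ x ∈ Subgroup.closure (gn M '' (C : Set (Fin n))),
            y = ((ρ x).1.map (algebraMap O F)).mulVec fun b => (v s b : F)} := by
        rw [hsp s hs]
        trivial
      induction hy using Submodule.span_induction with
      | mem y hy =>
        obtain ⟨x, hx, rfl⟩ := hy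
        rw [← hG', Matrix.mulVec_mulVec, ← hGm, hcomm x hx, hGm, ← Matrix.mulVec_mulVec, hm,
          Matrix.mulVec_smul]
      | zero => rw [Matrix.mulVec_zero, smul_zero]
      | add y z _ _ hy hz => rw [Matrix.mulVec_add, hy, hz, smul_add]
      | smul c y _ hy => rw [Matrix.mulVec_smul, hy, smul_comm]
    apply Matrix.toLin'.injective
    apply LinearMap.ext
    intro y
    rw [Matrix.toLin'_apply, Matrix.toLin'_apply, hall, Matrix.smul_mulVec, Matrix.one_mulVec]
  · rw [eq_top_iff, ← hsp s hs]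
    refine Submodule.span_mono ?_
    rintro _ ⟨x, _, rfl⟩
    exact ⟨x, rfl⟩

end Pool.Agent.Lib.MP_97567f_al
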