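import Pool.Agent.Lib.MP_97567f_al.SpecG

/-!
# MP_97567f_al: descent of an intertwiner
-/

set_option autoImplicit false

namespace Pool.Agent.Lib.MP_97567f_al

open Matrix

theorem pDesc : SDesc := by
  classical
  intro K F _ _ _ _ ι J _ _ A B g hg
  -- the span of the entries of g
  let V : Submodule K F := Submodule.span K (Set.range fun p : ι × ι => g.1 p.1 p.2)
  have : Module.Finite K V := Module.Finite.span_of_finite K (Set.finite_range _)
  let bs := Module.finBasis K V
  let r := Module.finrank K V
  have hmem : ∀ i j, g.1 i j ∈ V := fun i j => Submodule.subset_span ⟨(i, j), rfl⟩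
  -- the components
  let gk : Fin (Module.finrank K V) → Matrix ι ι K := fun k => Matrix.of fun i j => bs.repr ⟨g.1 i j, hmem i j⟩ k
  let e : Fin (Module.finrank K V) → F := fun k => ((bs k : V) : F)
  have he : LinearIndependent K e := by
    have h1 := bs.linearIndependent.map' V.subtype (Submodule.ker_subtype V)
    exact h1
  have hgsum : ∀ i j, g.1 i j = ∑ k, algebraMap K F (gk k i j) * e k := by
    intro i j
    have h1 := bs.sum_repr ⟨g.1 i j, hmem i j⟩
    have h2 := congrArg (fun v : V => (v : F)) h1
    simp only [Submodule.coe_sum, Submodule.coe_smul] at h2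
    rw [← h2]
    refine Finset.sum_congr rfl fun k _ => ?_
    rw [Algebra.smul_def]
    rfl
  have hcomm : ∀ j k, A j * gk k = gk k * B j := by
    intro l k
    ext i j
    have h1 := congrFun (congrFun (hg l) i) j
    rw [Matrix.mul_apply, Matrix.mul_apply] at h1
    simp only [Matrix.map_apply, hgsum] at h1
    have h2 : ∑ x, algebraMap K F (A l i x) * ∑ k, algebraMap K F (gk k x j) * e k =
        ∑ k, (A l * gk k) i j • e k := by
      simp only [Matrix.mul_apply, Finset.mul_sum]
      rw [Finset.sum_comm]
      refine Finset.sum_congr rfl fun k _ => ?_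
      rw [Algebra.smul_def, map_sum, Finset.sum_mul]
      refine Finset.sum_congr rfl fun x _ => ?_
      rw [map_mul, mul_assoc]
    have h3 : ∑ x, (∑ k, algebraMap K F (gk k i x) * e k) * algebraMap K F (B l x j) =
        ∑ k, (gk k * B l) i j • e k := by
      simp only [Matrix.mul_apply, Finset.sum_mul]
      rw [Finset.sum_comm]
      refine Finset.sum_congr rfl fun k _ => ?_
      rw [Algebra.smul_def, map_sum, Finset.sum_mul]
      refine Finset.sum_congr rfl fun x _ => ?_
      rw [map_mul]
      ring
    rw [h2, h3] at h1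
    have h4 : ∑ k, ((A l * gk k) i j - (gk k * B l) i j) • e k = 0 := by
      simp only [sub_smul]
      rw [Finset.sum_sub_distrib, h1, sub_self]
    have h5 := Fintype.linearIndependent_iff.1 he _ h4 k
    exact sub_eq_zero.1 h5
  -- the polynomial
  let D : MvPolynomial (Fin (Module.finrank K V)) K :=
    (∑ k, (MvPolynomial.X k : MvPolynomial (Fin (Module.finrank K V)) K) •
      (gk k).map (MvPolynomial.C : K →+* _)).det
  have hev : ∀ (L : Type) [Field L] [Algebra K L] (t : Fin (Module.finrank K V) → L),
      MvPolynomial.aeval t D = (∑ k, t k • (gk k).map (algebraMap K L)).det := by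
    intro L _ _ t
    have h1 : MvPolynomial.aeval t D = (MvPolynomial.aeval t).toRingHom D := rfl
    rw [h1, RingHom.map_det]
    congr 1
    ext i j
    simp [Matrix.sum_apply, Matrix.smul_apply, Matrix.map_apply]
  have hD : D ≠ 0 := by
    intro h0
    have h1 := hev F e
    rw [h0, map_zero] at h1
    have h2 : ∑ k, e k • (gk k).map (algebraMap K F) = g.1 := by
      ext i j
      rw [hgsum, Matrix.sum_apply]
      refine Finset.sum_congr rfl fun k _ => ?_
      rw [Matrix.smul_apply, Matrix.map_apply, smul_eq_mul, mul_comm]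
    rw [h2] at h1
    have h3 := (Matrix.isUnit_iff_isUnit_det _).1 g.isUnit
    rw [← h1] at h3
    exact not_isUnit_zero h3
  obtain ⟨t, ht⟩ : ∃ t : Fin (Module.finrank K V) → K, MvPolynomial.eval t D ≠ 0 := by
    by_contra hcon
    push Not at hcon
    apply hD
    apply MvPolynomial.funext
    intro t
    rw [hcon, map_zero]
  have ht' : (∑ k, t k • gk k).det ≠ 0 := by
    have h1 := hev K t
    have h2 : (∑ k, t k • (gk k).map (algebraMap K K)) = ∑ k, t k • gk k := by
      refine Finset.sum_congr rfl fun k _ => ?_
      congr 1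
    rw [h2] at h1
    rw [← h1]
    rw [MvPolynomial.aeval_eq_eval]
    exact ht
  refine ⟨Matrix.GeneralLinearGroup.mkOfDetNeZero _ ht', fun j => ?_⟩
  change A j * ∑ k, t k • gk k = (∑ k, t k • gk k) * B j
  rw [Finset.mul_sum, Finset.sum_mul]
  refine Finset.sum_congr rfl fun k _ => ?_
  rw [Matrix.mul_smul, Matrix.smul_mul, hcomm]

end Pool.Agent.Lib.MP_97567f_al
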