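import Pool.Agent.Lib.MP_97567f_al.SpecR

/-!
# MP_97567f_al: existence of the polynomials of the Lawrence-Krammer representation
-/

set_option autoImplicit false

namespace Pool.Agent.Lib.MP_97567f_al

open Polynomial

variable {n : ℕ} {M : CoxeterMatrix (Fin n)}

/-- The recursion. -/
noncomputable def FHex_R (M : CoxeterMatrix (Fin n)) (f : Fin n → (Fin n → ℤ) → Polynomial ℤ)
    (s : Fin n) (b : Fin n → ℤ) (u : Fin n) : Polynomial ℤ :=
  if adj M s u then
    (if pr M b s = 0 then X * f u (b - e u - e s) - (1 - X) * f s (b - e u)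
      else f u (b - e u) - (1 - X) * f s (b - e u))
  else X * f s (b - e u)

/-- The properties up to the height `N`. -/
private structure FHex_N (M : CoxeterMatrix (Fin n)) (N : ℕ)
    (f : Fin n → (Fin n → ℤ) → Polynomial ℤ) : Prop where
  self : ∀ s, f s (e s) = 1
  simple : ∀ s t, s ≠ t → f s (e t) = 0
  one : ∀ s b, Rt M b → ht b ≤ N → pr M b s = 1 → f s b = -(1 - X) * X ^ (ht b - 2)
  step : ∀ s b u, Rt M b → ht b ≤ N → pr M b u = 1 → pr M b s ≠ 1 → f s b = FHex_R M f s b u

private theorem FHex_ns (hR : RF M) {b : Fin n → ℤ} {u : Fin n} (h : pr M b u = 1) (t : Fin n) :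
    b ≠ e t := by
  rintro rfl
  by_cases htu : t = u
  · subst htu
    rw [hR.a.pre] at h
    norm_num at h
  · by_cases ha : adj M t u
    · rw [hR.a.pra _ _ ha] at h
      norm_num at h
    · rw [hR.a.prn _ _ htu ha] at h
      norm_num at h

private theorem FHex_ht2 (hR : RF M) {b : Fin n → ℤ} {u : Fin n} (hb : Rt M b)
    (h : pr M b u = 1) : 2 ≤ ht b := by
  have h1 := hR.b.ht1 b hb
  by_contra h2
  obtain ⟨t, ht⟩ := hR.b.ht1e b hb (by omega)
  exact FHex_ns hR h t ht

private theorem FHex_prs (hR : RF M) (b : Fin n → ℤ) (u : Fin n) :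
    pr M (b - e u) u = pr M b u - 2 := by
  rw [hR.a.pr_sub, hR.a.pre]

private theorem FHex_pra (hR : RF M) (b : Fin n → ℤ) {u s : Fin n} (h : adj M s u) :
    pr M (b - e u) s = pr M b s + 1 := by
  rw [hR.a.pr_sub, hR.a.pra _ _ (adj_symm h)]
  ring

private theorem FHex_prn (hR : RF M) (b : Fin n → ℤ) {u s : Fin n} (h : s ≠ u) (h' : ¬ adj M s u) :
    pr M (b - e u) s = pr M b s := by
  rw [hR.a.pr_sub, hR.a.prn _ _ (Ne.symm h) fun h1 => h' (adj_symm h1), sub_zero]

private theorem FHex_bnd (hR : RF M) {b : Fin n → ℤ} {u : Fin n} (hb : Rt M b)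
    (h : pr M b u = 1) (s : Fin n) : pr M b s = -1 ∨ pr M b s = 0 ∨ pr M b s = 1 :=
  hR.a.bnd b s hb (FHex_ns hR h s)

section N

variable {N : ℕ} {f : Fin n → (Fin n → ℤ) → Polynomial ℤ}

private theorem FHex_comm (hR : RF M) (hf : FHex_N M N f) {s u : Fin n} {b : Fin n → ℤ}
    (hb : Rt M b) (hN : ht b ≤ N) (hu : pr M b u = 1) (hsu : s ≠ u) (ha : ¬ adj M s u) :
    f s b = X * f s (b - e u) := by
  by_cases hs : pr M b s = 1
  · have h1 := hR.a.down b u hb hu
    have h2 := hR.b.htd b u hb hu
    have h3 : pr M (b - e u) s = 1 := by rw [FHex_prn hR b hsu ha, hs]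
    have h4 := FHex_ht2 hR h1 h3
    rw [hf.one s b hb hN hs, hf.one s (b - e u) h1 (by omega) h3, h2]
    have h5 : ht (b - e u) + 1 - 2 = (ht (b - e u) - 2) + 1 := by omega
    rw [h5, pow_succ]
    ring
  · rw [hf.step s b u hb hN hu hs, FHex_R, if_neg ha]

/-- the adjacent case -/
private theorem FHex_A (hR : RF M) (hf : FHex_N M N f) {s u u' : Fin n} {b : Fin n → ℤ}
    (hb : b = e u + e u') (ha : adj M u u') (hu : s ≠ u) (hu' : s ≠ u') :
    FHex_R M f s b u = 0 := by
  have hne : u ≠ u' := by
    rintro rfl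
    exact adj_irrefl _ ha
  have h1 : b - e u = e u' := by rw [hb, add_sub_cancel_left]
  rw [FHex_R, h1]
  by_cases hs : adj M s u
  · have h2 : pr M b s = -1 := by
      rw [hb, hR.a.pr_add, hR.a.pra _ _ (adj_symm hs), hR.a.prn _ _ (Ne.symm hu')
        (fun h => hR.b.tri s u u' hs ha (adj_symm h))]
      norm_num
    rw [if_pos hs, if_neg (by rw [h2]; norm_num), hf.simple u u' hne, hf.simple s u' hu']
    ring
  · rw [if_neg hs, hf.simple s u' hu', mul_zero]

/-- the node `s` is adjacent to `u'` only -/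
private theorem FHex_B (hR : RF M) (hf : FHex_N M N f) {s u u' : Fin n} {b : Fin n → ℤ}
    (hb : Rt M b) (hN : ht b ≤ N + 1) (hu : pr M b u = 1) (hu' : pr M b u' = 1)
    (hs : pr M b s ≠ 1) (hne : u ≠ u') (ha : ¬ adj M u u') (h1 : ¬ adj M s u) (h2 : adj M s u') :
    FHex_R M f s b u = FHex_R M f s b u' := by
  have hsu : s ≠ u := fun h => hs (h ▸ hu)
  have hsu' : s ≠ u' := fun h => hs (h ▸ hu')
  have hd := hR.a.down b u hb hu
  have hd' := hR.a.down b u' hb hu'
  have hht := hR.b.htd b u hb hu
  have hht' := hR.b.htd b u' hb hu'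
  have hpu' : pr M (b - e u) u' = 1 := by
    rw [FHex_prn hR b (Ne.symm hne) (fun h => ha (adj_symm h)), hu']
  have hpu : pr M (b - e u') u = 1 := by rw [FHex_prn hR b hne ha, hu]
  have hps : pr M (b - e u) s = pr M b s := FHex_prn hR b hsu h1
  have hst := hf.step s (b - e u) u' hd (by omega) hpu' (by rw [hps]; exact hs)
  have hcomm : b - e u' - e u = b - e u - e u' := sub_right_comm _ _ _
  have hc1 := FHex_comm hR hf hd' (by omega) hpu hsu h1
  rw [hcomm] at hc1
  rw [FHex_R, if_neg h1, hst, FHex_R, if_pos h2, FHex_R, if_pos h2, hps]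
  by_cases h0 : pr M b s = 0
  · have hq : pr M (b - e u') s = 1 := by rw [FHex_pra hR b h2, h0]; norm_num
    have hd2 := hR.a.down _ s hd' hq
    have hht2 := hR.b.htd _ s hd' hq
    have hq2 : pr M (b - e u' - e s) u = 1 := by
      rw [FHex_prn hR _ (Ne.symm hsu) (fun h => h1 (adj_symm h)), hpu]
    have hc2 := FHex_comm hR hf hd2 (by omega) hq2 (Ne.symm hne) (fun h => ha (adj_symm h))
    have hcomm2 : b - e u' - e s - e u = b - e u - e u' - e s := by
      rw [sub_right_comm (b - e u') (e s) (e u), hcomm]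
    rw [hcomm2] at hc2
    rw [if_pos h0, if_pos h0, hc1, hc2]
    ring
  · have hc2 := FHex_comm hR hf hd' (by omega) hpu (Ne.symm hne) (fun h => ha (adj_symm h))
    rw [hcomm] at hc2
    rw [if_neg h0, if_neg h0, hc1, hc2]
    ring

/-- the value if the node `s` is adjacent to both and `pr b s = -1` -/
private theorem FHex_C (hR : RF M) (hf : FHex_N M N f) {s u u' : Fin n} {b : Fin n → ℤ}
    (hb : Rt M b) (hN : ht b ≤ N + 1) (hu : pr M b u = 1) (hu' : pr M b u' = 1)
    (hs : pr M b s = -1) (hne : u ≠ u') (ha : ¬ adj M u u') (h1 : adj M s u) (h2 : adj M s u') :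
    FHex_R M f s b u = X * f s (b - e u - e u' - e s) -
      X * (1 - X) * (f u (b - e u - e u' - e s) + f u' (b - e u - e u' - e s)) +
      (1 - X) ^ 2 * f s (b - e u - e u') := by
  have hd := hR.a.down b u hb hu
  have hht := hR.b.htd b u hb hu
  have hpu' : pr M (b - e u) u' = 1 := by
    rw [FHex_prn hR b (Ne.symm hne) (fun h => ha (adj_symm h)), hu']
  have hps : pr M (b - e u) s = 0 := by rw [FHex_pra hR b h1, hs]; norm_num
  have hd2 := hR.a.down _ u' hd hpu'
  have hht2 := hR.b.htd _ u' hd hpu'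
  have hps2 : pr M (b - e u - e u') s = 1 := by rw [FHex_pra hR _ h2, hps]; norm_num
  have hpu2 : pr M (b - e u - e u') u = -1 := by
    rw [FHex_prn hR _ hne ha, FHex_prs hR, hu]
    norm_num
  have hc1 := FHex_comm hR hf hd (by omega) hpu' hne ha
  have hst1 := hf.step u (b - e u - e u') s hd2 (by omega) hps2 (by rw [hpu2]; norm_num)
  rw [FHex_R, if_pos (adj_symm h1), if_neg (by rw [hpu2]; norm_num)] at hst1
  have hst2 := hf.step s (b - e u) u' hd (by omega) hpu' (by rw [hps]; norm_num)
  rw [FHex_R, if_pos h2, if_pos hps] at hst2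
  rw [FHex_R, if_pos h1, if_neg (by rw [hs]; norm_num), hc1, hst1, hst2]
  ring

/-- independence -/
private theorem FHex_ind (hR : RF M) (hf : FHex_N M N f) {s u u' : Fin n} {b : Fin n → ℤ}
    (hb : Rt M b) (hN : ht b ≤ N + 1) (hu : pr M b u = 1) (hu' : pr M b u' = 1)
    (hs : pr M b s ≠ 1) : FHex_R M f s b u = FHex_R M f s b u' := by
  by_cases hne : u = u'
  · rw [hne]
  have hsu : s ≠ u := fun h => hs (h ▸ hu)
  have hsu' : s ≠ u' := fun h => hs (h ▸ hu')
  by_cases ha : adj M u u'
  · have h1 := hR.b.pp b u u' hb ha hu hu'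
    rw [FHex_A hR hf h1 ha hsu hsu', FHex_A hR hf (h1.trans (add_comm _ _)) (adj_symm ha) hsu' hsu]
  have ha' : ¬ adj M u' u := fun h => ha (adj_symm h)
  by_cases h1 : adj M s u
  · by_cases h2 : adj M s u'
    · have hd := hR.a.down b u hb hu
      have hd' := hR.a.down b u' hb hu'
      have hht := hR.b.htd b u hb hu
      have hht' := hR.b.htd b u' hb hu'
      have hcomm : b - e u' - e u = b - e u - e u' := sub_right_comm _ _ _
      have hpu' : pr M (b - e u) u' = 1 := by rw [FHex_prn hR b (Ne.symm hne) ha', hu']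
      rcases FHex_bnd hR hb hu s with h0 | h0 | h0
      · rw [FHex_C hR hf hb hN hu hu' h0 hne ha h1 h2,
          FHex_C hR hf hb hN hu' hu h0 (Ne.symm hne) ha' h2 h1, hcomm]
        ring
      · have hps : pr M (b - e u) s = 1 := by rw [FHex_pra hR b h1, h0]; norm_num
        have hps' : pr M (b - e u') s = 1 := by rw [FHex_pra hR b h2, h0]; norm_num
        have hps2 : pr M (b - e u - e u') s = 2 := by rw [FHex_pra hR _ h2, hps]; norm_num
        have hd2 := hR.a.down _ u' hd hpu'
        have hb2 : b - e u - e u' = e s := by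
          by_contra h3
          rcases hR.a.bnd _ s hd2 h3 with h4 | h4 | h4 <;> rw [hps2] at h4 <;> norm_num at h4
        have e1 : b - e u - e s = e u' := by
          rw [← hb2]
          abel
        have e2 : b - e u' - e s = e u := by
          rw [← hb2]
          abel
        rw [FHex_R, if_pos h1, if_pos h0, FHex_R, if_pos h2, if_pos h0, e1, e2,
          hf.simple u u' hne, hf.simple u' u (Ne.symm hne),
          hf.one s (b - e u) hd (by omega) hps, hf.one s (b - e u') hd' (by omega) hps']
        have h5 : ht (b - e u) = ht (b - e u') := by omega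
        rw [h5]
      · exact absurd h0 hs
    · exact (FHex_B hR hf hb hN hu' hu hs (Ne.symm hne) ha' h2 h1).symm
  · by_cases h2 : adj M s u'
    · exact FHex_B hR hf hb hN hu hu' hs hne ha h1 h2
    · have hd := hR.a.down b u hb hu
      have hd' := hR.a.down b u' hb hu'
      have hht := hR.b.htd b u hb hu
      have hht' := hR.b.htd b u' hb hu'
      have hpu' : pr M (b - e u) u' = 1 := by rw [FHex_prn hR b (Ne.symm hne) ha', hu']
      have hpu : pr M (b - e u') u = 1 := by rw [FHex_prn hR b hne ha, hu]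
      have hc1 := FHex_comm hR hf hd (by omega) hpu' hsu' h2
      have hc2 := FHex_comm hR hf hd' (by omega) hpu hsu h1
      rw [FHex_R, if_neg h1, FHex_R, if_neg h2, hc1, hc2, sub_right_comm b (e u) (e u')]

end N

/-- existence up to the height `N + 1` -/
private theorem FHex_exN (hR : RF M) (N : ℕ) : ∃ f, FHex_N M (N + 1) f := by
  classical
  induction N with
  | zero =>
    refine ⟨fun s b => if b = e s then 1 else 0, fun s => if_pos rfl, fun s t hst => if_neg ?_, ?_,
      ?_⟩
    · intro h
      have h1 := congrFun h t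
      unfold e at h1
      rw [Pi.single_eq_same, Pi.single_eq_of_ne (Ne.symm hst)] at h1
      norm_num at h1
    · intro s b hb hN hs
      have := FHex_ht2 hR hb hs
      omega
    · intro s b u hb hN hu _
      have := FHex_ht2 hR hb hu
      omega
  | succ N ih =>
    obtain ⟨f, hf⟩ := ih
    let G : Fin n → (Fin n → ℤ) → Polynomial ℤ := fun s b =>
      if pr M b s = 1 then -(1 - X) * X ^ (ht b - 2)
      else if h : ∃ u, pr M b u = 1 then FHex_R M f s b h.choose else 0
    let g : Fin n → (Fin n → ℤ) → Polynomial ℤ := fun s b =>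
      if ht b ≤ N + 1 then f s b else G s b
    have hg1 : ∀ s b, ht b ≤ N + 1 → g s b = f s b := fun s b h => if_pos h
    have hg2 : ∀ s b, ¬ ht b ≤ N + 1 → g s b = G s b := fun s b h => if_neg h
    have hRR : ∀ s b u, Rt M b → ht b ≤ N + 1 + 1 → pr M b u = 1 →
        FHex_R M g s b u = FHex_R M f s b u := by
      intro s b u hb hN hu
      have hd := hR.a.down b u hb hu
      have hht := hR.b.htd b u hb hu
      unfold FHex_R
      by_cases h1 : adj M s u
      · rw [if_pos h1, if_pos h1]
        by_cases h2 : pr M b s = 0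
        · have hps : pr M (b - e u) s = 1 := by rw [FHex_pra hR b h1, h2]; norm_num
          have hht2 := hR.b.htd _ s hd hps
          rw [if_pos h2, if_pos h2, hg1 _ _ (by omega), hg1 _ _ (by omega)]
        · rw [if_neg h2, if_neg h2, hg1 _ _ (by omega), hg1 _ _ (by omega)]
      · rw [if_neg h1, if_neg h1, hg1 _ _ (by omega)]
    refine ⟨g, fun s => ?_, fun s t hst => ?_, fun s b hb hN hs => ?_,
      fun s b u hb hN hu hs => ?_⟩
    · rw [hg1 _ _ (by rw [hR.b.hte]; omega), hf.self]
    · rw [hg1 _ _ (by rw [hR.b.hte]; omega), hf.simple s t hst]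
    · by_cases h : ht b ≤ N + 1
      · rw [hg1 _ _ h, hf.one s b hb h hs]
      · rw [hg2 _ _ h]
        exact if_pos hs
    · rw [hRR s b u hb hN hu]
      by_cases h : ht b ≤ N + 1
      · rw [hg1 _ _ h, hf.step s b u hb h hu hs]
      · rw [hg2 _ _ h]
        have hex : ∃ u, pr M b u = 1 := ⟨u, hu⟩
        have h3 : G s b = FHex_R M f s b hex.choose := by
          show (if pr M b s = 1 then -(1 - X) * X ^ (ht b - 2)
            else if h : ∃ u, pr M b u = 1 then FHex_R M f s b h.choose else 0) = _
          rw [if_neg hs, dif_pos hex]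
        rw [h3]
        exact FHex_ind hR hf hb hN hex.choose_spec hu hs

/-- `zz`, one case -/
private theorem FHex_zz1 (hR : RF M) {N : ℕ} {f : Fin n → (Fin n → ℤ) → Polynomial ℤ}
    (hf : FHex_N M N f) {s u v : Fin n} {b : Fin n → ℤ} (hb : Rt M b) (hN : ht b ≤ N)
    (hsu : adj M s u) (hs : pr M b s = 0) (hu : pr M b u = 0) (hv : pr M b v = 1)
    (hsv : adj M s v)
    (ih : ∀ s u c, adj M s u → Rt M c → ht c < ht b → pr M c s = 0 → pr M c u = 0 →
      f s c = f u c) : f s b = f u b := by
  have huv : ¬ adj M u v := hR.b.tri u s v (adj_symm hsu) hsv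
  have hsne : s ≠ v := adj_ne hsv
  have hune : u ≠ v := by
    rintro rfl
    rw [hu] at hv
    norm_num at hv
  have hsune : s ≠ u := adj_ne hsu
  -- `c = b - v`
  have hc := hR.a.down b v hb hv
  have hhc := hR.b.htd b v hb hv
  have hcs : pr M (b - e v) s = 1 := by rw [FHex_pra hR b hsv, hs]; norm_num
  have hcu : pr M (b - e v) u = 0 := by rw [FHex_prn hR b hune huv, hu]
  have hcv : pr M (b - e v) v = -1 := by rw [FHex_prs hR, hv]; norm_num
  -- `d = c - s`
  have hd := hR.a.down _ s hc hcs
  have hhd := hR.b.htd _ s hc hcs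
  have hdv : pr M (b - e v - e s) v = 0 := by
    rw [FHex_pra hR _ (adj_symm hsv), hcv]
    norm_num
  have hds : pr M (b - e v - e s) s = -1 := by rw [FHex_prs hR, hcs]; norm_num
  have hdu : pr M (b - e v - e s) u = 1 := by rw [FHex_pra hR _ (adj_symm hsu), hcu]; norm_num
  -- `d1 = d - u`
  have h1 := hR.a.down _ u hd hdu
  have hh1 := hR.b.htd _ u hd hdu
  have h1s : pr M (b - e v - e s - e u) s = 0 := by rw [FHex_pra hR _ hsu, hds]; norm_num
  have h1v : pr M (b - e v - e s - e u) v = 0 := by
    rw [FHex_prn hR _ (Ne.symm hune) (fun h => huv (adj_symm h)), hdv]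
  have hd2 := FHex_ht2 hR hd hdu
  -- the values
  have e1 := hf.step s b v hb hN hv (by rw [hs]; norm_num)
  rw [FHex_R, if_pos hsv, if_pos hs] at e1
  have e2 := FHex_comm hR hf hd (by omega) hdu (Ne.symm hune) (fun h => huv (adj_symm h))
  have e3 := FHex_comm hR hf hb hN hv hune huv
  have e4 := hf.step u (b - e v) s hc (by omega) hcs (by rw [hcu]; norm_num)
  rw [FHex_R, if_pos (adj_symm hsu), if_pos hcu] at e4
  have e5 := ih v s _ (adj_symm hsv) h1 (by omega) h1v h1s
  have e6 := hf.one s _ hc (by omega) hcs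
  have e7 := hf.one u _ hd (by omega) hdu
  have e8 : f s (b - e v) = X * f u (b - e v - e s) := by
    rw [e6, e7, hhd]
    have h5 : ht (b - e v - e s) + 1 - 2 = (ht (b - e v - e s) - 2) + 1 := by omega
    rw [h5, pow_succ]
    ring
  rw [e1, e2, e3, e4, e5, e8]
  ring

private theorem FHex_zz (hR : RF M) {N : ℕ} {f : Fin n → (Fin n → ℤ) → Polynomial ℤ}
    (hf : FHex_N M N f) : ∀ (k : ℕ) (s u : Fin n) (b : Fin n → ℤ), adj M s u → Rt M b → ht b ≤ k →
      ht b ≤ N → pr M b s = 0 → pr M b u = 0 → f s b = f u b := by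
  intro k
  induction k with
  | zero =>
    intro s u b _ hb hk
    have := hR.b.ht1 b hb
    omega
  | succ k ih =>
    intro s u b hsu hb hk hN hs hu
    have ih' : ∀ s u c, adj M s u → Rt M c → ht c < ht b → pr M c s = 0 → pr M c u = 0 →
        f s c = f u c := fun s u c h1 h2 h3 h4 h5 => ih s u c h1 h2 (by omega) (by omega) h4 h5
    by_cases hsim : ∀ t, b ≠ e t
    · obtain ⟨v, hv⟩ := hR.a.desc b hb hsim
      have hsne : s ≠ v := by
        rintro rfl
        rw [hs] at hv
        norm_num at hv
      have hune : u ≠ v := by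
        rintro rfl
        rw [hu] at hv
        norm_num at hv
      by_cases hsv : adj M s v
      · exact FHex_zz1 hR hf hb hN hsu hs hu hv hsv ih'
      · by_cases huv : adj M u v
        · exact (FHex_zz1 hR hf hb hN (adj_symm hsu) hu hs hv huv ih').symm
        · have hd := hR.a.down b v hb hv
          have hht := hR.b.htd b v hb hv
          rw [FHex_comm hR hf hb hN hv hsne hsv, FHex_comm hR hf hb hN hv hune huv,
            ih' s u _ hsu hd (by omega) (by rw [FHex_prn hR b hsne hsv, hs])
              (by rw [FHex_prn hR b hune huv, hu])]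
    · push Not at hsim
      obtain ⟨t, rfl⟩ := hsim
      have h1 : s ≠ t := by
        rintro rfl
        rw [hR.a.pre] at hs
        norm_num at hs
      have h2 : u ≠ t := by
        rintro rfl
        rw [hR.a.pre] at hu
        norm_num at hu
      rw [hf.simple s t h1, hf.simple u t h2]

private theorem FHex_ev (hR : RF M) {N : ℕ} {f : Fin n → (Fin n → ℤ) → Polynomial ℤ}
    (hf : FHex_N M N f) : ∀ (k : ℕ) (s : Fin n) (b : Fin n → ℤ), Rt M b → ht b ≤ k →
      ht b ≤ N → b ≠ e s → (f s b).eval 1 = 0 := by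
  intro k
  induction k with
  | zero =>
    intro s b hb hk
    have := hR.b.ht1 b hb
    omega
  | succ k ih =>
    intro s b hb hk hN hs
    by_cases hsim : ∀ t, b ≠ e t
    · obtain ⟨v, hv⟩ := hR.a.desc b hb hsim
      by_cases h1 : pr M b s = 1
      · rw [hf.one s b hb hN h1]
        simp
      · have hsv : s ≠ v := fun h => h1 (h ▸ hv)
        have hd := hR.a.down b v hb hv
        have hht := hR.b.htd b v hb hv
        have hdv : pr M (b - e v) v = -1 := by rw [FHex_prs hR, hv]; norm_num
        have hne : ∀ c : Fin n → ℤ, ∀ t, pr M c t ≠ 2 → c ≠ e t := by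
          rintro c t h2 rfl
          exact h2 (hR.a.pre t)
        rw [hf.step s b v hb hN hv h1, FHex_R]
        by_cases h2 : adj M s v
        · rw [if_pos h2]
          by_cases h3 : pr M b s = 0
          · have hds : pr M (b - e v) s = 1 := by rw [FHex_pra hR b h2, h3]; norm_num
            have hd2 := hR.a.down _ s hd hds
            have hht2 := hR.b.htd _ s hd hds
            have h4 := ih v (b - e v - e s) hd2 (by omega) (by omega) (hne _ _ (by
              rw [FHex_pra hR _ (adj_symm h2), hdv]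
              norm_num))
            rw [if_pos h3]
            simp [h4]
          · have h4 := ih v (b - e v) hd (by omega) (by omega) (hne _ _ (by
              rw [hdv]
              norm_num))
            rw [if_neg h3]
            simp [h4]
        · have h4 := ih s (b - e v) hd (by omega) (by omega) (by
            intro h5
            rw [h5, hR.a.prn s v hsv h2] at hdv
            norm_num at hdv)
          rw [if_neg h2]
          simp [h4]
    · push Not at hsim
      obtain ⟨t, rfl⟩ := hsim
      rw [hf.simple s t (by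
        rintro rfl
        exact hs rfl), eval_zero]

/-- **Existence of the polynomials.** -/
theorem pFHex : SFHex := by
  intro n M hR
  have hex : ∃ f, FH M f := by
    -- the heights are bounded
    obtain ⟨N, hN⟩ : ∃ N, ∀ b, Rt M b → ht b ≤ N + 1 := by
      have h1 := (hR.b.fin Finset.univ).image ht
      obtain ⟨N, hN⟩ := h1.bddAbove
      refine ⟨N, fun b hb => ?_⟩
      have h2 : ht b ≤ N := hN ⟨b, ⟨hb, fun i hi => absurd (Finset.mem_univ i) hi⟩, rfl⟩
      omega
    obtain ⟨f, hf⟩ := FHex_exN hR N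
    refine ⟨f, hf.self, hf.simple, fun s b hb hs => hf.one s b hb (hN b hb) hs, ?_, ?_, ?_, ?_, ?_⟩
    · intro s u b hsu ha hb hu
      have hc := hR.a.up b u hb hu
      have hcu : pr M (b + e u) u = 1 := by
        rw [hR.a.pr_add, hR.a.pre, hu]
        norm_num
      have h1 := FHex_comm hR hf hc (hN _ hc) hcu hsu ha
      rwa [add_sub_cancel_right] at h1
    · intro s u b ha hb hs hu
      have hc := hR.a.up b u hb hu
      have hcu : pr M (b + e u) u = 1 := by
        rw [hR.a.pr_add, hR.a.pre, hu]
        norm_num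
      have hcs : pr M (b + e u) s = -1 := by
        rw [hR.a.pr_add, hs, hR.a.pra _ _ (adj_symm ha)]
        norm_num
      have h1 := hf.step s (b + e u) u hc (hN _ hc) hcu (by rw [hcs]; norm_num)
      rwa [FHex_R, if_pos ha, if_neg (by rw [hcs]; norm_num), add_sub_cancel_right] at h1
    · intro s u b ha hb hs hu
      have hc := hR.a.up b u hb hu
      have hcu : pr M (b + e u) u = 1 := by
        rw [hR.a.pr_add, hR.a.pre, hu]
        norm_num
      have hcs : pr M (b + e u) s = 0 := by
        rw [hR.a.pr_add, hs, hR.a.pra _ _ (adj_symm ha)]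
        norm_num
      have h1 := hf.step s (b + e u) u hc (hN _ hc) hcu (by rw [hcs]; norm_num)
      rwa [FHex_R, if_pos ha, if_pos hcs, add_sub_cancel_right] at h1
    · intro s u b ha hb hs hu
      exact FHex_zz hR hf (ht b) s u b ha hb le_rfl (hN b hb) hs hu
    · intro s b hb hs
      exact FHex_ev hR hf (ht b) s b hb le_rfl (hN b hb) hs
  unfold fh
  rw [dif_pos hex]
  exact hex.choose_spec

end Pool.Agent.Lib.MP_97567f_al
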