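import Pool.Agent.Lib.MP_97567f_al.SpecD

/-!
# MP_97567f_al: faithfulness of the Lawrence-Krammer representation
-/

set_option autoImplicit false

namespace Pool.Agent.Lib.MP_97567f_al

open Polynomial

private theorem Fai_img {n : ℕ} (M : CoxeterMatrix (Fin n)) (C : Finset (Fin n)) {R R' : Type}
    [CommRing R] [CommRing R'] (ψ : R →+* R') (q l : R) (s : Fin n) (b : Fin n → ℤ)
    (g : PR M C) : ψ (img M C q l s b g) = img M C (ψ q) (ψ l) s b g := by
  have hx : ∀ (c : Fin n → ℤ) (g : PR M C), ψ (xv M C c g) = xv M C c g := by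
    intro c g
    unfold xv
    split_ifs
    · exact map_one ψ
    · exact map_zero ψ
  have ha : ∀ p : ℤ[X], ψ (aeval q p) = aeval (ψ q) p := fun p =>
    (Polynomial.aeval_algHom_apply ψ.toIntAlgHom q p).symm
  unfold img
  split_ifs <;>
    simp only [Pi.add_apply, Pi.smul_apply, smul_eq_mul, map_add, map_mul, map_sub, map_one, hx, ha]

private theorem Fai_lk {n : ℕ} (M : CoxeterMatrix (Fin n)) (C : Finset (Fin n)) {R R' : Type}
    [CommRing R] [CommRing R'] (ψ : R →+* R') (q l : R) (s : Fin n) :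
    (lk M C q l s).map ψ = lk M C (ψ q) (ψ l) s := by
  ext g b
  exact Fai_img M C ψ q l s b.1 g

private theorem Fai_prod {n : ℕ} (M : CoxeterMatrix (Fin n)) (C : Finset (Fin n)) {R R' : Type}
    [CommRing R] [CommRing R'] (ψ : R →+* R') (q l : R) (w : List (Fin n)) :
    ((w.map (lk M C q l)).prod).map ψ = (w.map (lk M C (ψ q) (ψ l))).prod := by
  induction w with
  | nil =>
    simp only [List.map_nil, List.prod_nil]
    exact Matrix.map_one ψ (map_zero ψ) (map_one ψ)
  | cons s w ih =>
    simp only [List.map_cons, List.prod_cons]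
    rw [Matrix.map_mul, ih, Fai_lk]

private theorem Fai_append {n : ℕ} (M : CoxeterMatrix (Fin n)) (w w' : List (Fin n)) :
    wd M (w ++ w') = wd M w * wd M w' := by
  simp [wd]

private theorem Fai_cons {n : ℕ} (M : CoxeterMatrix (Fin n)) (s : Fin n) (w : List (Fin n)) :
    wd M (s :: w) = gn M s * wd M w := by
  simp [wd]

private theorem Fai_pow {n : ℕ} (M : CoxeterMatrix (Fin n)) (z : List (Fin n)) (k : ℕ) :
    ∃ w, wd M w = wd M z ^ k := by
  induction k with
  | zero => exact ⟨[], by simp [wd]⟩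
  | succ k ih =>
    obtain ⟨w, hw⟩ := ih
    exact ⟨w ++ z, by rw [Fai_append, hw, pow_succ]⟩

theorem pFai (h1 : SMon) (h2 : SGar) (h3 : SLKr) : SFai := by
  intro n M hSL hRF hFH
  obtain ⟨z, hz, hzd⟩ := h2 n M hSL hRF
  have hM := hSL.sl
  have hsat : Sat M Finset.univ := fun i _ j _ => Finset.mem_univ j
  obtain ⟨hL1, hL2⟩ := h3 n M hSL hRF hFH Finset.univ hsat
  -- the central element commutes with the words
  have hzw : ∀ w, wd M w * wd M z = wd M z * wd M w := by
    intro w
    induction w with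
    | nil => simp [wd]
    | cons s w ih => rw [Fai_cons, mul_assoc, ih, ← mul_assoc, hz s, mul_assoc]
  have hx : ∀ x : Art M, ∃ (w : List (Fin n)) (k : ℕ), x = wd M w * (wd M z ^ k)⁻¹ := by
    intro x
    induction x using art_induction with
    | h1 => exact ⟨[], 0, by simp [wd]⟩
    | hg i x ih =>
      obtain ⟨w, k, rfl⟩ := ih
      exact ⟨i :: w, k, by rw [Fai_cons, mul_assoc]⟩
    | hi i x ih =>
      obtain ⟨w, k, rfl⟩ := ih
      obtain ⟨w', hw'⟩ := hzd i
      refine ⟨w' ++ w, k + 1, ?_⟩
      have e1 : (gn M i)⁻¹ = (wd M z)⁻¹ * wd M w' := by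
        have e2 : wd M z * (gn M i)⁻¹ = wd M w' := by
          rw [mul_inv_eq_iff_eq_mul, hw', ← hw']
          have e3 := hz i
          rw [hw'] at e3
          have e4 : wd M w' * gn M i = gn M i * wd M w' := by
            rw [mul_assoc] at e3
            exact (mul_left_cancel e3).symm
          rw [hw', e4]
        rw [← e2, inv_mul_cancel_left]
      have e5 : Commute (wd M z)⁻¹ (wd M (w' ++ w)) :=
        ((show Commute (wd M z) (wd M (w' ++ w)) from (hzw _).symm)).inv_left
      calc (gn M i)⁻¹ * (wd M w * (wd M z ^ k)⁻¹)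
          = ((wd M z)⁻¹ * wd M (w' ++ w)) * (wd M z ^ k)⁻¹ := by
            rw [e1, Fai_append]
            group
        _ = wd M (w' ++ w) * (wd M z ^ (k + 1))⁻¹ := by
            rw [e5.eq, mul_assoc, ← mul_inv_rev, pow_succ]
  -- the specialization
  let K := FractionRing ℂ[X]
  let a : K := algebraMap ℂ[X] K (C (1 / 2))
  let b : K := algebraMap ℂ[X] K X
  have hinj : Function.Injective (algebraMap ℂ[X] K) := IsFractionRing.injective ℂ[X] K
  have ha : IsUnit a := by
    rw [isUnit_iff_ne_zero]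
    intro h
    have h' : (C (1 / 2 : ℂ)) = 0 := hinj (h.trans (map_zero _).symm)
    rw [C_eq_zero] at h'
    norm_num at h'
  have hb : IsUnit b := by
    rw [isUnit_iff_ne_zero]
    intro h
    exact X_ne_zero (hinj (h.trans (map_zero _).symm))
  obtain ⟨φ, hφq, hφl⟩ := R2_lift (S := K) ha hb
  let ψ : ℚ[X] →+* K := (algebraMap ℂ[X] K).comp (Polynomial.mapRingHom (algebraMap ℚ ℂ))
  have hψ : Function.Injective ψ := by
    refine hinj.comp ?_
    exact Polynomial.map_injective _ (algebraMap ℚ ℂ).injective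
  have hψq : ψ (C (1 / 2)) = a := by
    simp only [ψ, a, RingHom.comp_apply, Polynomial.coe_mapRingHom, Polynomial.map_C]
    norm_num
  have hψl : ψ X = b := by
    simp only [ψ, b, RingHom.comp_apply, Polynomial.coe_mapRingHom, Polynomial.map_X]
  have hword : ∀ w, (LKr M Finset.univ a b (wd M w)).1 = (Pw M w).map ψ := by
    intro w
    unfold Pw
    rw [Fai_prod, hψq, hψl]
    induction w with
    | nil => simp [wd]
    | cons s w ih =>
      rw [Fai_cons, map_mul, Units.val_mul, ih, hL1 K a b ha hb s, List.map_cons, List.prod_cons]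
  have hmap : ∀ x : Art M, LKr M Finset.univ qq ll x = 1 → LKr M Finset.univ a b x = 1 := by
    intro x hx
    have h := hL2 R2 K (φ : R2 →+* K) qq ll qq_unit ll_unit x
    have hq' : (φ : R2 →+* K) qq = a := hφq
    have hl' : (φ : R2 →+* K) ll = b := hφl
    rw [hq', hl', hx] at h
    apply Units.ext
    rw [h, Units.val_one, Units.val_one]
    exact Matrix.map_one _ (map_zero _) (map_one _)
  rw [injective_iff_map_eq_one]
  intro x hx1
  obtain ⟨w, k, rfl⟩ := hx x
  obtain ⟨w', hw'⟩ := Fai_pow M z k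
  have h4 := hmap _ hx1
  rw [map_mul, map_inv, mul_inv_eq_one, ← hw'] at h4
  have h5 : Pw M w = Pw M w' := by
    refine Matrix.map_injective hψ ?_
    change (Pw M w).map ψ = (Pw M w').map ψ
    rw [← hword, ← hword, h4]
  rw [h1 n M hSL hRF hFH w w' h5, hw', mul_inv_cancel]

end Pool.Agent.Lib.MP_97567f_al
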