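import Pool.Agent.Lib.MP_97567f_al.SpecG

/-!
# MP_97567f_al: a finite group of automorphisms
-/

set_option autoImplicit false

namespace Pool.Agent.Lib.MP_97567f_al

open Polynomial

/-- **A finite group of automorphisms.** -/
theorem pFinA (h1 : SStab) (h2 : SFinU) (h3 : SKerQ) (h4 : SKerF) : SFinA := by
  intro Γ I J F hF hI hJ hIq hJl hΓI hΓJ
  obtain ⟨_, _, _, _, hpq⟩ := h3
  obtain ⟨_, _, _, _, _, hpl⟩ := h4 F hF
  obtain ⟨Γ₁, _, hf1, hs1⟩ := h1 Γ I (qq - 1) hpq hI hIq hΓI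
  obtain ⟨Γ₂, _, hf2, hs2⟩ := h1 Γ J (aeval qq F * ll - 1) hpl hJ hJl hΓJ
  have := hf1
  have := hf2
  have hfin : (((Γ₁.subgroupOf Γ) ⊓ (Γ₂.subgroupOf Γ) : Subgroup Γ) : Set Γ).Finite := by
    refine Set.Finite.subset ((h2 F hF).preimage (f := (Subtype.val : Γ → _))
      (Subtype.val_injective.injOn)) ?_
    intro θ hθ
    exact ⟨hs1 θ.1 hθ.1, hs2 θ.1 hθ.2⟩
  have : Finite ((Γ₁.subgroupOf Γ) ⊓ (Γ₂.subgroupOf Γ) : Subgroup Γ) := hfin.to_subtype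
  have : ((Γ₁.subgroupOf Γ) ⊓ (Γ₂.subgroupOf Γ) : Subgroup Γ).FiniteIndex := inferInstance
  exact Finite.of_subgroup_quotient ((Γ₁.subgroupOf Γ) ⊓ (Γ₂.subgroupOf Γ))

end Pool.Agent.Lib.MP_97567f_al
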