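import Pool.Agent.Lib.MP_97567f_al.SpecG

/-!
# MP_97567f_al: the automorphisms fixing both curves
-/

set_option autoImplicit false

namespace Pool.Agent.Lib.MP_97567f_al

open Polynomial

private theorem FinU_xx_ne : xx ≠ 0 := by
  unfold xx
  rw [Ne, ← map_zero (algebraMap ℂ[X] K1)]
  intro h
  exact X_ne_zero (IsFractionRing.injective ℂ[X] K1 h)

private theorem FinU_alg (c : ℂ) : algebraMap ℂ K1 c = algebraMap ℂ[X] K1 (C c) := by
  rw [IsScalarTower.algebraMap_apply ℂ ℂ[X] K1, Polynomial.algebraMap_eq]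

private theorem FinU_aux {c c' : ℂ} (hc : c ≠ 0) {j j' : ℤ} (hj : j ≤ j')
    (h : algebraMap ℂ K1 c * xx ^ j = algebraMap ℂ K1 c' * xx ^ j') : c = c' ∧ j = j' := by
  obtain ⟨n, rfl⟩ := Int.le.dest hj
  rw [zpow_add₀ FinU_xx_ne, zpow_natCast] at h
  have h1 : algebraMap ℂ K1 c = algebraMap ℂ K1 c' * xx ^ n := by
    have h2 : (algebraMap ℂ K1 c - algebraMap ℂ K1 c' * xx ^ n) * xx ^ j = 0 := by
      rw [sub_mul, h]
      ring
    rcases mul_eq_zero.1 h2 with h3 | h3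
    · exact sub_eq_zero.1 h3
    · exact absurd h3 (zpow_ne_zero _ FinU_xx_ne)
  rw [FinU_alg, FinU_alg] at h1
  unfold xx at h1
  rw [← map_pow, ← map_mul] at h1
  have h2 : (C c : ℂ[X]) = C c' * X ^ n := IsFractionRing.injective ℂ[X] K1 h1
  have h3 : n = 0 := by
    by_contra hn
    have h4 := congrArg (fun p : ℂ[X] => p.coeff 0) h2
    simp only [coeff_C_zero, coeff_C_mul, coeff_X_pow] at h4
    rw [if_neg (fun h => hn h.symm), mul_zero] at h4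
    exact hc h4
  subst h3
  rw [pow_zero, mul_one] at h2
  exact ⟨C_injective h2, by simp⟩

private theorem FinU_ind {c c' : ℂ} (hc : c ≠ 0) (hc' : c' ≠ 0) {j j' : ℤ}
    (h : algebraMap ℂ K1 c * xx ^ j = algebraMap ℂ K1 c' * xx ^ j') : c = c' ∧ j = j' := by
  rcases le_total j j' with hj | hj
  · exact FinU_aux hc hj h
  · obtain ⟨h1, h2⟩ := FinU_aux hc' hj h.symm
    exact ⟨h1.symm, h2.symm⟩

/-- The value of a monomial. -/
private theorem FinU_val (φ : R2 →ₐ[ℂ] K1) (i j : ℤ) :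
    φ ((qq_unit.unit ^ i * ll_unit.unit ^ j : R2ˣ) : R2) = φ qq ^ i * φ ll ^ j := by
  have h1 : φ ((qq_unit.unit ^ i * ll_unit.unit ^ j : R2ˣ) : R2) =
      ((Units.map (φ : R2 →* K1) (qq_unit.unit ^ i * ll_unit.unit ^ j) : K1ˣ) : K1) := rfl
  rw [h1, map_mul, map_zpow, map_zpow, Units.val_mul, Units.val_zpow_eq_zpow_val,
    Units.val_zpow_eq_zpow_val]
  rfl

/-- The value of an image. -/
private theorem FinU_val2 (φ : R2 →ₐ[ℂ] K1) {c : ℂ} {i j : ℤ} {u : R2}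
    (h : u = algebraMap ℂ R2 c * ((qq_unit.unit ^ i * ll_unit.unit ^ j : R2ˣ) : R2)) :
    φ u = algebraMap ℂ K1 c * (φ qq ^ i * φ ll ^ j) := by
  rw [h, map_mul, AlgHom.commutes, FinU_val]

private theorem FinU_aeval (φ : R2 →ₐ[ℂ] K1) (F : ℤ[X]) (x : R2) :
    φ (aeval x F) = aeval (φ x) F := by
  have h1 : φ (aeval x F) = (φ : R2 →+* K1) (eval₂ (algebraMap ℤ R2) x F) := rfl
  rw [h1, Polynomial.hom_eval₂, aeval_def]
  have h2 : (φ : R2 →+* K1).comp (algebraMap ℤ R2) = algebraMap ℤ K1 := RingHom.ext_int _ _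
  rw [h2]
  rfl

private theorem FinU_symm {θ : R2 ≃ₐ[ℂ] R2} {a : R2} (h : Ideal.span {θ a} = Ideal.span {a}) :
    Ideal.span {θ.symm a} = Ideal.span {a} := by
  have h1 := (Ideal.span_singleton_eq_span_singleton.1 h).map θ.symm
  rw [AlgEquiv.symm_apply_apply] at h1
  exact Ideal.span_singleton_eq_span_singleton.2 h1.symm

private theorem FinU_zero (φ : R2 →ₐ[ℂ] K1) {θ : R2 ≃ₐ[ℂ] R2} {a : R2}
    (h : Ideal.span {θ a} = Ideal.span {a}) (ha : φ a = 0) : φ (θ a) = 0 := by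
  have h1 : θ a ∈ Ideal.span {a} := h ▸ Ideal.mem_span_singleton_self _
  obtain ⟨y, hy⟩ := Ideal.mem_span_singleton.1 h1
  rw [hy, map_mul, ha, zero_mul]

/-- The form of `θ qq`. -/
private theorem FinU_q (h1 : SUnits) {π : R2 →ₐ[ℂ] K1} (hq : π qq = 1) (hl : π ll = xx)
    {θ : R2 ≃ₐ[ℂ] R2} (h : Ideal.span {θ (qq - 1)} = Ideal.span {qq - 1}) :
    ∃ i : ℤ, θ qq = algebraMap ℂ R2 1 * ((qq_unit.unit ^ i * ll_unit.unit ^ (0 : ℤ) : R2ˣ) : R2) := by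
  obtain ⟨c, i, j, hc, hu⟩ := h1 (θ qq) (qq_unit.map θ)
  have h2 := FinU_zero π h (by rw [map_sub, hq, map_one, sub_self])
  rw [map_sub, map_sub, map_one, map_one, FinU_val2 π hu, hq, hl, one_zpow, one_mul,
    sub_eq_zero] at h2
  have h3 : algebraMap ℂ K1 c * xx ^ j = algebraMap ℂ K1 1 * xx ^ (0 : ℤ) := by
    rw [h2, map_one, zpow_zero, one_mul]
  obtain ⟨h4, h5⟩ := FinU_ind hc one_ne_zero h3
  subst h4
  subst h5
  exact ⟨i, hu⟩

/-- The automorphisms with given exponents. -/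
private def FinU_A (F : ℤ[X]) (i m : ℤ) : Set (R2 ≃ₐ[ℂ] R2) :=
  {θ | θ qq = algebraMap ℂ R2 1 * ((qq_unit.unit ^ i * ll_unit.unit ^ (0 : ℤ) : R2ˣ) : R2) ∧
    Ideal.span {θ (aeval qq F * ll - 1)} = Ideal.span {aeval qq F * ll - 1} ∧
    ∃ (c : ℂ) (k : ℤ), c ≠ 0 ∧
      θ ll = algebraMap ℂ R2 c * ((qq_unit.unit ^ k * ll_unit.unit ^ m : R2ˣ) : R2)}

private theorem FinU_sub (h3 : SKerF) {F : ℤ[X]} (hF : F.eval 1 = 1) (i m : ℤ) :
    (FinU_A F i m).Subsingleton := by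
  obtain ⟨hF0, π, hq, hl, -, -⟩ := h3 F hF
  have key : ∀ θ ∈ FinU_A F i m, ∀ (c : ℂ) (k : ℤ),
      θ ll = algebraMap ℂ R2 c * ((qq_unit.unit ^ k * ll_unit.unit ^ m : R2ˣ) : R2) →
      aeval (xx ^ i) F * (algebraMap ℂ K1 c * xx ^ k) * ((aeval xx F)⁻¹) ^ m = 1 := by
    rintro θ ⟨h1, h2, -⟩ c k hck
    have h4 := FinU_zero π h2 (by
      rw [map_sub, map_mul, FinU_aeval, hq, hl, map_one, mul_inv_cancel₀ hF0, sub_self])
    rw [map_sub, map_one, map_sub, map_one, map_mul, map_mul, sub_eq_zero, FinU_val2 π hck,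
      hq, hl] at h4
    have h5 : π (θ (aeval qq F)) = aeval (xx ^ i) F := by
      have h6 : π (θ (aeval qq F)) = (π.comp (θ : R2 →ₐ[ℂ] R2)) (aeval qq F) := rfl
      rw [h6, FinU_aeval]
      have h7 : (π.comp (θ : R2 →ₐ[ℂ] R2)) qq = xx ^ i := by
        have h8 : (π.comp (θ : R2 →ₐ[ℂ] R2)) qq = π (θ qq) := rfl
        rw [h8, FinU_val2 π h1, hq, zpow_zero, mul_one, map_one, one_mul]
      rw [h7]
    rw [h5] at h4
    rw [← h4]
    ring
  rintro θ hθ η hη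
  obtain ⟨-, -, c, k, hc, hck⟩ := id hθ
  obtain ⟨-, -, c', k', hc', hck'⟩ := id hη
  have e1 := key θ hθ c k hck
  have e2 := key η hη c' k' hck'
  have e3 : algebraMap ℂ K1 c * xx ^ k = algebraMap ℂ K1 c' * xx ^ k' := by
    have n1 : aeval (xx ^ i) F * ((aeval xx F)⁻¹) ^ m ≠ (0 : K1) := by
      intro h0
      have : aeval (xx ^ i) F * (algebraMap ℂ K1 c * xx ^ k) * ((aeval xx F)⁻¹) ^ m = (0 : K1) := by
        calc _ = (aeval (xx ^ i) F * ((aeval xx F)⁻¹) ^ m) * (algebraMap ℂ K1 c * xx ^ k) := by ring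
          _ = 0 := by rw [h0, zero_mul]
      rw [this] at e1
      exact zero_ne_one e1
    apply mul_left_cancel₀ n1
    calc _ = aeval (xx ^ i) F * (algebraMap ℂ K1 c * xx ^ k) * ((aeval xx F)⁻¹) ^ m := by ring
      _ = aeval (xx ^ i) F * (algebraMap ℂ K1 c' * xx ^ k') * ((aeval xx F)⁻¹) ^ m := by
        rw [e1, e2]
      _ = _ := by ring
  obtain ⟨rfl, rfl⟩ := FinU_ind hc hc' e3
  have e4 : (θ : R2 →ₐ[ℂ] R2) = (η : R2 →ₐ[ℂ] R2) :=
    R2_ext (hθ.1.trans hη.1.symm) (hck.trans hck'.symm)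
  exact AlgEquiv.ext fun x => DFunLike.congr_fun e4 x

theorem pFinU (h1 : SUnits) (h2 : SKerQ) (h3 : SKerF) : SFinU := by
  intro F hF
  obtain ⟨π, hq, hl, -, -⟩ := h2
  obtain ⟨ρ, hρq, hρl⟩ := R2_lift (S := K1) (a := xx) (b := 1)
    (isUnit_iff_ne_zero.2 FinU_xx_ne) isUnit_one
  have hsub : {θ : R2 ≃ₐ[ℂ] R2 | Ideal.span {θ (qq - 1)} = Ideal.span {qq - 1} ∧
      Ideal.span {θ (aeval qq F * ll - 1)} = Ideal.span {aeval qq F * ll - 1}} ⊆
      (FinU_A F 1 1 ∪ FinU_A F 1 (-1)) ∪ (FinU_A F (-1) 1 ∪ FinU_A F (-1) (-1)) := by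
    rintro θ ⟨hθ1, hθ2⟩
    obtain ⟨i, hi⟩ := FinU_q h1 hq hl hθ1
    obtain ⟨i', hi'⟩ := FinU_q h1 hq hl (FinU_symm hθ1)
    obtain ⟨c, k, m, hc, hm⟩ := h1 (θ ll) (ll_unit.map θ)
    obtain ⟨c', k', m', hc', hm'⟩ := h1 (θ.symm ll) (ll_unit.map θ.symm)
    have hii : i * i' = 1 := by
      have e1 : ρ qq = (ρ.comp (θ : R2 →ₐ[ℂ] R2)) (θ.symm qq) := by
        change ρ qq = ρ (θ (θ.symm qq))
        rw [AlgEquiv.apply_symm_apply]
      have e2 : (ρ.comp (θ : R2 →ₐ[ℂ] R2)) qq = xx ^ i := by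
        change ρ (θ qq) = _
        rw [FinU_val2 ρ hi, hρq, zpow_zero, mul_one, map_one, one_mul]
      rw [FinU_val2 _ hi', e2, zpow_zero, mul_one, map_one, one_mul, ← zpow_mul, hρq] at e1
      have e3 : algebraMap ℂ K1 1 * xx ^ (1 : ℤ) = algebraMap ℂ K1 1 * xx ^ (i * i') := by
        rw [zpow_one, ← e1]
      exact (FinU_ind one_ne_zero one_ne_zero e3).2.symm
    have hmm : m' * m = 1 := by
      have e1 : π ll = (π.comp (θ.symm : R2 →ₐ[ℂ] R2)) (θ ll) := by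
        change π ll = π (θ.symm (θ ll))
        rw [AlgEquiv.symm_apply_apply]
      have e2 : (π.comp (θ.symm : R2 →ₐ[ℂ] R2)) qq = 1 := by
        change π (θ.symm qq) = _
        rw [FinU_val2 π hi', hq, zpow_zero, mul_one, map_one, one_mul, one_zpow]
      have e3 : (π.comp (θ.symm : R2 →ₐ[ℂ] R2)) ll = algebraMap ℂ K1 c' * xx ^ m' := by
        change π (θ.symm ll) = _
        rw [FinU_val2 π hm', hq, hl, one_zpow, one_mul]
      rw [FinU_val2 _ hm, e2, e3, one_zpow, one_mul, hl, mul_zpow, ← zpow_mul] at e1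
      have e4 : algebraMap ℂ K1 1 * xx ^ (1 : ℤ) =
          algebraMap ℂ K1 (c * c' ^ m) * xx ^ (m' * m) := by
        rw [map_one, one_mul, zpow_one, map_mul, map_zpow₀, mul_assoc]
        exact e1
      exact (FinU_ind one_ne_zero (mul_ne_zero hc (zpow_ne_zero _ hc')) e4).2.symm
    rcases Int.eq_one_or_neg_one_of_mul_eq_one hii with rfl | rfl <;>
      rcases Int.eq_one_or_neg_one_of_mul_eq_one' hmm with ⟨-, rfl⟩ | ⟨-, rfl⟩
    · exact Or.inl (Or.inl ⟨hi, hθ2, c, k, hc, hm⟩)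
    · exact Or.inl (Or.inr ⟨hi, hθ2, c, k, hc, hm⟩)
    · exact Or.inr (Or.inl ⟨hi, hθ2, c, k, hc, hm⟩)
    · exact Or.inr (Or.inr ⟨hi, hθ2, c, k, hc, hm⟩)
  refine Set.Finite.subset ?_ hsub
  exact ((FinU_sub h3 hF _ _).finite.union (FinU_sub h3 hF _ _).finite).union
    ((FinU_sub h3 hF _ _).finite.union (FinU_sub h3 hF _ _).finite)

end Pool.Agent.Lib.MP_97567f_al
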