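import Pool.Agent.Lib.MP_97567f_al.SpecG

/-!
# MP_97567f_al: the component of the representation
-/

set_option autoImplicit false

namespace Pool.Agent.Lib.MP_97567f_al

open Polynomial

private theorem G0_gen {κ : Type} [Field κ] (j : R2 →+* κ) (hj : Function.Injective j) :
    Gen (j qq) (j ll) := by
  obtain ⟨φ, hq, hl⟩ := R2_lift (S := ℂ) (a := 2) (b := 3) (by norm_num) (by norm_num)
  have key : ∀ a b : R2, φ a ≠ φ b → j a ≠ j b := fun a b h h' => h (congrArg φ (hj h'))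
  refine ⟨?_, ?_, ?_, ?_, ?_, ?_, ?_, ?_, ?_⟩
  · have := key 2 0 (by rw [map_ofNat, map_zero]; norm_num)
    rwa [map_ofNat, map_zero] at this
  · have := key qq 0 (by rw [hq, map_zero]; norm_num)
    rwa [map_zero] at this
  · have := key ll 0 (by rw [hl, map_zero]; norm_num)
    rwa [map_zero] at this
  · have := key qq 1 (by rw [hq, map_one]; norm_num)
    rwa [map_one] at this
  · have := key qq (-1) (by rw [hq, map_neg, map_one]; norm_num)
    rwa [map_neg, map_one] at this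
  · have := key ll 1 (by rw [hl, map_one]; norm_num)
    rwa [map_one] at this
  · have := key ll (-qq) (by rw [hl, map_neg, hq]; norm_num)
    rwa [map_neg] at this
  · have := key (ll ^ 2 * qq ^ 2) 1 (by rw [map_mul, map_pow, map_pow, hl, hq, map_one]; norm_num)
    rwa [map_mul, map_pow, map_pow, map_one] at this
  · have := key (ll ^ 2 * qq ^ 2) (qq ^ 3)
      (by rw [map_mul, map_pow, map_pow, map_pow, hl, hq]; norm_num)
    rwa [map_mul, map_pow, map_pow, map_pow] at this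

private theorem G0_inj {F : Type} [Field F] [Algebra ℂ F] (O : ValuationSubring F)
    (j : R2 →+* IsLocalRing.ResidueField O) (hj : Function.Injective j)
    (hc : ∀ c : ℂ, ∃ h : algebraMap ℂ F c ∈ O,
        IsLocalRing.residue O ⟨algebraMap ℂ F c, h⟩ = j (algebraMap ℂ R2 c))
    (q' l' : O) (hq : IsLocalRing.residue O q' = j qq) (hl : IsLocalRing.residue O l' = j ll)
    (ψ : R2 →ₐ[ℂ] F) (h1 : ψ qq = (q' : F)) (h2 : ψ ll = (l' : F)) : Function.Injective ψ := by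
  have key : ∀ p : P2, ∃ o : O, (o : F) = ψ (algebraMap P2 R2 p) ∧
      IsLocalRing.residue O o = j (algebraMap P2 R2 p) := by
    intro p
    induction p using MvPolynomial.induction_on with
    | C c =>
      obtain ⟨h, hh⟩ := hc c
      have e1 : algebraMap P2 R2 (MvPolynomial.C c) = algebraMap ℂ R2 c := by
        rw [← MvPolynomial.algebraMap_eq, ← IsScalarTower.algebraMap_apply]
      refine ⟨⟨algebraMap ℂ F c, h⟩, ?_, ?_⟩
      · rw [e1, AlgHom.commutes]
      · rw [e1, hh]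
    | add p r hp hr =>
      obtain ⟨o, ho, ho'⟩ := hp
      obtain ⟨u, hu, hu'⟩ := hr
      refine ⟨o + u, ?_, ?_⟩
      · rw [map_add, map_add, ← ho, ← hu]
        rfl
      · rw [map_add, map_add, map_add, ho', hu']
    | mul_X p i hp =>
      obtain ⟨o, ho, ho'⟩ := hp
      have hi : ∃ u : O, (u : F) = ψ (algebraMap P2 R2 (MvPolynomial.X i)) ∧
          IsLocalRing.residue O u = j (algebraMap P2 R2 (MvPolynomial.X i)) := by
        fin_cases i
        · exact ⟨q', h1.symm, hq⟩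
        · exact ⟨l', h2.symm, hl⟩
      obtain ⟨u, hu, hu'⟩ := hi
      refine ⟨o * u, ?_, ?_⟩
      · rw [map_mul, map_mul, ← ho, ← hu]
        rfl
      · rw [map_mul, map_mul, map_mul, ho', hu']
  rw [injective_iff_map_eq_zero]
  intro x hx
  obtain ⟨⟨p, s⟩, hps⟩ := IsLocalization.surj
    (Submonoid.powers (MvPolynomial.X 0 * MvPolynomial.X 1 : P2)) x
  simp only at hps
  obtain ⟨o, ho, ho'⟩ := key p
  rw [← hps, map_mul, hx, zero_mul] at ho
  have h3 : o = 0 := Subtype.ext ho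
  rw [h3, map_zero, ← hps] at ho'
  have h4 : x * algebraMap P2 R2 s = 0 := hj (by rw [← ho', map_zero])
  have h5 : IsUnit (algebraMap P2 R2 s) := IsLocalization.map_units R2 s
  exact (h5.mul_left_eq_zero).1 h4

private theorem G0_mat {ι F : Type} [Fintype ι] [DecidableEq ι] [Field F] (σ : F →+* F)
    (c d : Fˣ) (g : GL ι F) (A B P Q : Matrix ι ι F)
    (hP : P = (c : F) • (g.1 * A * (g⁻¹).1)) (hQ : Q = (d : F) • (g.1 * B * (g⁻¹).1))
    (h : P = Q.map σ) :
    A = ((Units.map (σ : F →* F) d * c⁻¹ : Fˣ) : F) •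
      ((g⁻¹ * Matrix.GeneralLinearGroup.map σ g).1 * B.map σ *
        ((g⁻¹ * Matrix.GeneralLinearGroup.map σ g)⁻¹).1) := by
  have e1 : Q.map σ = σ (d : F) • ((Matrix.GeneralLinearGroup.map σ g).1 * B.map σ *
      ((Matrix.GeneralLinearGroup.map σ g)⁻¹).1) := by
    rw [hQ, ← map_inv]
    have e2 : (Matrix.GeneralLinearGroup.map σ g).1 = g.1.map σ := rfl
    have e3 : (Matrix.GeneralLinearGroup.map σ g⁻¹).1 = (g⁻¹).1.map σ := rfl
    rw [e2, e3, ← Matrix.map_mul, ← Matrix.map_mul]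
    ext i k
    simp only [Matrix.map_apply, Matrix.smul_apply, smul_eq_mul, map_mul]
  have e4 : (c : F) • (g.1 * A * (g⁻¹).1) = σ (d : F) • ((Matrix.GeneralLinearGroup.map σ g).1 *
      B.map σ * ((Matrix.GeneralLinearGroup.map σ g)⁻¹).1) := by rw [← hP, h, e1]
  have e5 : g.1 * A * (g⁻¹).1 = ((c⁻¹ : Fˣ) : F) • (σ (d : F) •
      ((Matrix.GeneralLinearGroup.map σ g).1 * B.map σ *
        ((Matrix.GeneralLinearGroup.map σ g)⁻¹).1)) := by
    rw [← e4, smul_smul, Units.inv_mul, one_smul]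
  have e6 : (g⁻¹).1 * g.1 = 1 := by rw [← Units.val_mul, inv_mul_cancel, Units.val_one]
  have e7 : A = (g⁻¹).1 * (g.1 * A * (g⁻¹).1) * g.1 := by
    have : (g⁻¹).1 * (g.1 * A * (g⁻¹).1) * g.1 = ((g⁻¹).1 * g.1) * A * ((g⁻¹).1 * g.1) := by
      simp only [Matrix.mul_assoc]
    rw [this, e6, Matrix.one_mul, Matrix.mul_one]
  rw [e7, e5, mul_inv_rev, inv_inv, Units.val_mul, Units.val_mul, Units.val_mul, Units.coe_map,
    smul_smul, mul_comm ((c⁻¹ : Fˣ) : F)]
  simp only [Matrix.mul_smul, Matrix.smul_mul, Matrix.mul_assoc]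
  rfl

theorem pG0 (h1 : SComp) (h2 : SRig) (h3 : SLkGen) (h4 : SLKr) : SG0 := by
  intro n M hSL hRF hFH C hSat hConn hcard
  obtain ⟨F, iF, iA, iC, O, j, ρ', H, hH, hj, hc, hρ, hσ⟩ := h1 (Art M) (art_fg M) (PR M C) R2
    (LKr M C qq ll) (h3 n M hSL hRF hFH C hSat hConn hcard)
  obtain ⟨hk1, hk2⟩ := h4 n M hSL hRF hFH C hSat
  have hCne : C.Nonempty := Finset.card_pos.1 (by omega)
  have hdef : IsDef M C O (j qq) (j ll) ρ' := by
    intro s
    rw [hρ, ← hk2 R2 _ j qq ll qq_unit ll_unit, hk1 _ _ _ (qq_unit.map j) (ll_unit.map j)]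
  obtain ⟨q', l', χ, g, hq', hl', hx⟩ := h2 n M hSL hRF hFH C hSat hConn hCne F O (j qq) (j ll)
    (G0_gen j hj) ρ' hdef
  have hG := G0_gen j hj
  have uq : IsUnit (q' : F) := by
    rw [isUnit_iff_ne_zero]
    intro h
    have h5 : q' = 0 := Subtype.ext h
    rw [h5, map_zero] at hq'
    exact hG.q0 hq'.symm
  have ul : IsUnit (l' : F) := by
    rw [isUnit_iff_ne_zero]
    intro h
    have h5 : l' = 0 := Subtype.ext h
    rw [h5, map_zero] at hl'
    exact hG.l0 hl'.symm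
  obtain ⟨ψ, hψq, hψl⟩ := R2_lift uq ul
  have hψ := G0_inj O j hj hc q' l' hq' hl' ψ hψq hψl
  refine ⟨F, iF, iC, ψ, H, hψ, hH, fun α hα => ?_⟩
  obtain ⟨σ, hσ'⟩ := hσ α hα
  refine ⟨(σ : F →ₐ[ℂ] F).comp ψ, (Units.map ((σ : F →+* F) : F →* F)).comp χ *
    (χ.comp α.toMonoidHom)⁻¹, g⁻¹ * Matrix.GeneralLinearGroup.map (σ : F →+* F) g,
    σ.injective.comp hψ, fun x => ?_⟩
  have e1 : (LKr M C (((σ : F →ₐ[ℂ] F).comp ψ) qq) (((σ : F →ₐ[ℂ] F).comp ψ) ll) x).1 =
      (LKr M C (ψ qq) (ψ ll) x).1.map (σ : F →+* F) :=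
    hk2 F F (σ : F →+* F) (ψ qq) (ψ ll) (qq_unit.map ψ) (ll_unit.map ψ) x
  rw [e1, hψq, hψl]
  exact G0_mat (σ : F →+* F) (χ (α x)) (χ x) g _ _ _ _ (hx (α x)) (hx x) (hσ' x)

end Pool.Agent.Lib.MP_97567f_al
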