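import Pool.Agent.Lib.MP_97567f_al.SpecG

/-!
# MP_97567f_al: the parameters are units
-/

set_option autoImplicit false

namespace Pool.Agent.Lib.MP_97567f_al

open Polynomial

/-- Characteristic polynomial of a multiple. -/
private lemma G1_scale {F : Type} [Field F] [Infinite F] {ι : Type} [Fintype ι] [DecidableEq ι]
    (N : Matrix ι ι F) (c l q : F) (hc : c ≠ 0) (a b : ℕ)
    (h : N.charpoly = (X - C l) * (X - C 1) ^ a * (X - C (-q)) ^ b) :
    (c • N).charpoly = (X - C (c * l)) * (X - C c) ^ a * (X - C (-(c * q))) ^ b := by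
  have hdeg : Fintype.card ι = 1 + a + b := by
    have h1 := N.charpoly_natDegree_eq_dim
    rw [h] at h1
    rw [← h1]
    have m1 : (X - C l : F[X]).Monic := monic_X_sub_C _
    have m2 : ((X - C 1 : F[X]) ^ a).Monic := (monic_X_sub_C _).pow a
    have m3 : ((X - C (-q) : F[X]) ^ b).Monic := (monic_X_sub_C _).pow b
    rw [(m1.mul m2).natDegree_mul m3, m1.natDegree_mul m2, natDegree_X_sub_C,
      (monic_X_sub_C (1 : F)).natDegree_pow, (monic_X_sub_C (-q)).natDegree_pow,
      natDegree_X_sub_C, natDegree_X_sub_C]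
    ring
  apply Polynomial.funext
  intro t
  rw [Matrix.eval_charpoly]
  have h2 : Matrix.scalar ι t - c • N = c • (Matrix.scalar ι (t / c) - N) := by
    rw [smul_sub]
    congr 1
    ext i j
    simp only [Matrix.scalar_apply, Matrix.smul_apply, Matrix.diagonal_apply, smul_eq_mul]
    split_ifs
    · field_simp
    · simp
  rw [h2, Matrix.det_smul, ← Matrix.eval_charpoly, h, hdeg]
  simp only [eval_mul, eval_pow, eval_sub, eval_X, eval_C, pow_add, pow_one]
  have e1 : c * (t / c - l) = t - c * l := by field_simp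
  have e2 : c * (t / c - 1) = t - c := by field_simp
  have e3 : c * (t / c - -q) = t - -(c * q) := by field_simp
  rw [← e1, ← e3, ← e2, mul_pow, mul_pow]
  ring


/-- Units from the constant coefficient. -/
private lemma G1_coeff {F : Type} [Field F] [Algebra ℂ F] (ψ : R2 →ₐ[ℂ] F)
    (hψ : Function.Injective ψ) (P : R2[X]) (hP : IsUnit (P.coeff 0)) (x y z : R2) (a b : ℕ)
    (ha : a ≠ 0) (hb : b ≠ 0)
    (h : P.map (ψ : R2 →+* F) = (X - C (ψ x)) * (X - C (ψ y)) ^ a * (X - C (ψ z)) ^ b) :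
    IsUnit x ∧ IsUnit y ∧ IsUnit z := by
  have h1 : ψ (P.coeff 0) = ψ (-x * (-y) ^ a * (-z) ^ b) := by
    have h2 := congrArg (fun p : F[X] => p.coeff 0) h
    simp only [coeff_map] at h2
    change ψ (P.coeff 0) = _ at h2
    rw [h2, coeff_zero_eq_eval_zero]
    simp
  have h3 := hψ h1
  rw [h3] at hP
  have h4 := isUnit_of_mul_isUnit_left hP
  have hz := isUnit_of_mul_isUnit_right hP
  have hx := isUnit_of_mul_isUnit_left h4
  have hy := isUnit_of_mul_isUnit_right h4
  rw [isUnit_pow_iff ha] at hy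
  rw [isUnit_pow_iff hb] at hz
  exact ⟨(IsUnit.neg_iff _).1 hx, (IsUnit.neg_iff _).1 hy, (IsUnit.neg_iff _).1 hz⟩

/-- Roots are in the image of the ring. -/
private lemma G1_roots (h2 : SRt) {F : Type} [Field F] [Algebra ℂ F] (ψ : R2 →ₐ[ℂ] F)
    (hψ : Function.Injective ψ) (P : R2[X]) (hm : P.Monic) (x y z : F) (a b : ℕ)
    (hb : 1 < b) (hab : b < a) (hxy : x ≠ y) (hyz : y ≠ z) (hxz : x ≠ z)
    (h : P.map (ψ : R2 →+* F) = (X - C x) * (X - C y) ^ a * (X - C z) ^ b) :
    ∃ x' y' z' : R2, ψ x' = x ∧ ψ y' = y ∧ ψ z' = z := by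
  let _ : Algebra K2 F := (IsFractionRing.lift (A := R2) (K := K2) (L := F)
    (g := (ψ : R2 →+* F)) hψ).toAlgebra
  have hal : ∀ r : R2, algebraMap K2 F (algebraMap R2 K2 r) = ψ r := fun r =>
    IsFractionRing.lift_algebraMap (A := R2) (K := K2) (L := F) (g := (ψ : R2 →+* F)) hψ r
  have hcomp : (algebraMap K2 F).comp (algebraMap R2 K2) = (ψ : R2 →+* F) := RingHom.ext hal
  have hinj : Function.Injective (algebraMap K2 F) := (algebraMap K2 F).injective
  have hP : (P.map (algebraMap R2 K2)).map (algebraMap K2 F) =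
      (X - C x) * (X - C y) ^ a * (X - C z) ^ b := by
    rw [Polynomial.map_map, hcomp, h]
  have : CharZero K2 := by
    have : CharZero R2 := algebraRat.charZero R2
    exact IsFractionRing.charZero_of_isFractionRing R2 (K := K2)
  have key : ∀ w : F, ((X - C x) * (X - C y) ^ a * (X - C z) ^ b).eval w = 0 →
      (∃ w' : K2, algebraMap K2 F w' = w) → ∃ r : R2, ψ r = w := by
    rintro w hw ⟨w', rfl⟩
    have h3 : IsIntegral R2 w' := by
      refine ⟨P, hm, ?_⟩
      apply hinj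
      rw [map_zero, ← hw, ← h, ← hcomp, Polynomial.eval_map, ← Polynomial.hom_eval₂]
    obtain ⟨r, hr⟩ := (IsIntegrallyClosed.isIntegral_iff (R := R2) (K := K2)).1 h3
    exact ⟨r, by rw [← hal, hr]⟩
  obtain ⟨hx, hy, hz⟩ := h2 K2 F (P.map (algebraMap R2 K2)) x y z a b hb hab hxy hyz hxz hP
  obtain ⟨x', hx'⟩ := key x (by simp) hx
  obtain ⟨y', hy'⟩ := key y (by simp [show a ≠ 0 by omega]) hy
  obtain ⟨z', hz'⟩ := key z (by simp [show b ≠ 0 by omega]) hz
  exact ⟨x', y', z', hx', hy', hz'⟩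

private lemma G1_ne {f g : P2} (h : f ≠ g) {F : Type} [Field F] [Algebra ℂ F] (ψ : R2 →ₐ[ℂ] F)
    (hψ : Function.Injective ψ) : ψ (algebraMap P2 R2 f) ≠ ψ (algebraMap P2 R2 g) :=
  fun h' => R2_ne h (hψ h')

private lemma G1_gen {F : Type} [Field F] [Algebra ℂ F] (ψ : R2 →ₐ[ℂ] F)
    (hψ : Function.Injective ψ) : ψ ll ≠ 1 ∧ ψ qq ≠ -1 ∧ ψ ll ≠ -ψ qq := by
  have hev : ∀ (f g : P2) (a b : ℂ), MvPolynomial.eval ![a, b] f ≠ MvPolynomial.eval ![a, b] g →
      f ≠ g := fun f g a b h h' => h (by rw [h'])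
  refine ⟨?_, ?_, ?_⟩
  · have h := G1_ne (hev (MvPolynomial.X 1) 1 0 0 (by simp)) ψ hψ
    rw [map_one, map_one] at h
    exact h
  · have h := G1_ne (hev (MvPolynomial.X 0) (-1) 0 0 (by simp)) ψ hψ
    rw [map_neg, map_one, map_neg, map_one] at h
    exact h
  · have h := G1_ne (hev (MvPolynomial.X 1) (-MvPolynomial.X 0) 0 1 (by simp)) ψ hψ
    rw [map_neg, map_neg] at h
    exact h

private lemma G1_conj {F : Type} [Field F] {ι : Type} [Fintype ι] [DecidableEq ι] (g : GL ι F)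
    (N : Matrix ι ι F) : (g.1 * N * (g⁻¹).1).charpoly = N.charpoly := by
  rw [Matrix.coe_units_inv]
  exact Matrix.charpoly_units_conj g N

/-- **The parameters are units.** -/
theorem pG1 (h1 : SChar) (h2 : SRt) (h3 : SLKr) (h4 : SLkA) : SG1 := by
  intro n M hSL hRF hFH C hC hconn hcard F _ _ ψ ψ' hψ hψ' α χ g hg
  have : Infinite F := Infinite.of_injective _ (algebraMap ℂ F).injective
  obtain ⟨hA1, -, -, hA4, hA5⟩ := h4 n M hRF C
  obtain ⟨hr1, hr2⟩ := h3 n M hSL hRF hFH C hC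
  -- the matrices over `R2`
  have hA : ∀ x : Art M, (LKr M C (ψ qq) (ψ ll) x).1 =
      (LKr M C qq ll x).1.map (ψ : R2 →+* F) := fun x =>
    hr2 R2 F (ψ : R2 →+* F) qq ll qq_unit ll_unit x
  have hq' : IsUnit (ψ' qq) := qq_unit.map ψ'
  have hl' : IsUnit (ψ' ll) := ll_unit.map ψ'
  have hdet : ∀ x : Art M, IsUnit (LKr M C qq ll x).1.det := fun x =>
    (Matrix.isUnit_iff_isUnit_det _).1 (LKr M C qq ll x).isUnit
  obtain ⟨g1, g2, g3⟩ := G1_gen ψ' hψ'
  -- generators in `C`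
  have hin : ∀ s ∈ C, ∃ x y z : R2, IsUnit x ∧ IsUnit y ∧ IsUnit z ∧
      ψ y = χ (gn M s) ∧ ψ x = χ (gn M s) * ψ' ll ∧ ψ z = -(χ (gn M s) * ψ' qq) := by
    intro s hs
    obtain ⟨a, b, hb, hab, hch⟩ := h1 n M hSL hRF hFH C hC hconn hcard s hs
    have hc : (χ (gn M s) : F) ≠ 0 := (χ (gn M s)).ne_zero
    have e1 := (hch F ψ').1
    have e2 : ((χ (gn M s) : F) • (g.1 * (LKr M C (ψ' qq) (ψ' ll) (gn M s)).1 *
        (g⁻¹).1)).charpoly = (X - Polynomial.C ((χ (gn M s) : F) * ψ' ll)) *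
        (X - Polynomial.C (χ (gn M s) : F)) ^ a *
        (X - Polynomial.C (-((χ (gn M s) : F) * ψ' qq))) ^ b := by
      refine G1_scale _ _ _ _ hc a b ((G1_conj g _).trans ?_)
      rw [hr1 F _ _ hq' hl', e1]
    rw [← hg, hA, Matrix.charpoly_map] at e2
    obtain ⟨x, y, z, hx, hy, hz⟩ := G1_roots h2 ψ hψ _
      (Matrix.charpoly_monic _) _ _ _ a b hb hab
      (by
        intro h
        apply g1
        have := mul_left_cancel₀ hc (h.trans (mul_one _).symm)
        exact this)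
      (by
        intro h
        apply g2
        have h5 : (χ (gn M s) : F) * (-1) = χ (gn M s) * ψ' qq := by
          rw [mul_neg_one]
          exact neg_eq_iff_eq_neg.2 h
        exact (mul_left_cancel₀ hc h5).symm)
      (by
        intro h
        apply g3
        rw [← mul_neg] at h
        exact mul_left_cancel₀ hc h) e2
    have e3 := G1_coeff ψ hψ (LKr M C qq ll (α (gn M s))).1.charpoly (by
        have h5 := hdet (α (gn M s))
        rw [Matrix.det_eq_sign_charpoly_coeff] at h5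
        exact isUnit_of_mul_isUnit_right h5) x y z a b (by omega) (by omega)
        (by rw [hx, hy, hz]; exact e2)
    exact ⟨x, y, z, e3.1, e3.2.1, e3.2.2, hy, hx, hz⟩
  obtain ⟨s0, hs0⟩ : C.Nonempty := Finset.card_pos.1 (by omega)
  -- generators outside of `C`
  have hall : ∀ s, ∃ y : R2, IsUnit y ∧ ψ y = χ (gn M s) := by
    intro s
    by_cases hs : s ∈ C
    · obtain ⟨x, y, z, -, hy, -, hy', -, -⟩ := hin s hs
      exact ⟨y, hy, hy'⟩
    · have e1 := hg (gn M s)
      rw [hr1 F _ _ hq' hl', (hA5 F _ _).2.2.2 hC s hs, mul_one, hA] at e1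
      have e2 : g.1 * (g⁻¹).1 = 1 := by
        rw [← Units.val_mul, mul_inv_cancel]; rfl
      rw [e2] at e1
      let b0 : PR M C := ⟨e s0, (hA4 s0).2 hs0⟩
      have e3 : ψ ((LKr M C qq ll (α (gn M s))).1 b0 b0) = χ (gn M s) := by
        have := congrFun (congrFun e1 b0) b0
        simpa using this
      refine ⟨_, ?_, e3⟩
      have e4 : ((LKr M C qq ll (α (gn M s))).1 b0 b0) ^ (Fintype.card (PR M C)) =
          (LKr M C qq ll (α (gn M s))).1.det := by
        apply hψ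
        rw [map_pow, e3]
        have e5 := congrArg Matrix.det e1
        rw [Matrix.det_smul, Matrix.det_one, mul_one] at e5
        rw [← e5]
        exact (RingHom.map_det (ψ : R2 →+* F) _).symm
      have hne : Nonempty (PR M C) := ⟨b0⟩
      have hcard0 : Fintype.card (PR M C) ≠ 0 := Fintype.card_ne_zero
      rw [← isUnit_pow_iff hcard0, e4]
      exact hdet _
  -- the character
  let Ψ : R2ˣ →* Fˣ := Units.map ((ψ : R2 →+* F) : R2 →* F)
  have hΨ : Function.Injective Ψ := by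
    intro u v huv
    apply Units.ext
    apply hψ
    exact congrArg Units.val huv
  have hran : ∀ x, χ x ∈ Ψ.range := by
    intro x
    have hx : x ∈ Subgroup.closure (Set.range (gn M)) := by rw [art_closure]; trivial
    have hle : Subgroup.closure (Set.range (gn M)) ≤ Ψ.range.comap χ := by
      rw [Subgroup.closure_le]
      rintro _ ⟨s, rfl⟩
      obtain ⟨y, hy, hy'⟩ := hall s
      exact ⟨hy.unit, Units.ext hy'⟩
    exact hle hx
  let χ' : Art M →* R2ˣ :=
    (MonoidHom.ofInjective hΨ).symm.toMonoidHom.comp (χ.codRestrict Ψ.range hran)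
  have hχ' : ∀ x, Ψ (χ' x) = χ x := by
    intro x
    have h5 : (MonoidHom.ofInjective hΨ) (χ' x) = χ.codRestrict Ψ.range hran x :=
      (MonoidHom.ofInjective hΨ).apply_symm_apply _
    exact congrArg Subtype.val h5
  -- the parameters
  obtain ⟨x, y, z, hx, hy, hz, hy', hx', hz'⟩ := hin s0 hs0
  have hc : (χ (gn M s0) : F) ≠ 0 := (χ (gn M s0)).ne_zero
  obtain ⟨θ, hθq, hθl⟩ := R2_lift (S := R2) (a := -z * ↑hy.unit⁻¹) (b := x * ↑hy.unit⁻¹)
    (((IsUnit.neg_iff _).2 hz).mul (Units.isUnit _)) (hx.mul (Units.isUnit _))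
  have hyi : ψ (↑hy.unit⁻¹ : R2) = (χ (gn M s0) : F)⁻¹ := by
    rw [← hy']
    apply eq_inv_of_mul_eq_one_left
    rw [← map_mul]
    have h5 : ((hy.unit⁻¹ : R2ˣ) : R2) * y = 1 := hy.val_inv_mul
    rw [h5, map_one]
  have hcomp : ψ.comp θ = ψ' := by
    apply R2_ext
    · rw [AlgHom.comp_apply, hθq, map_mul, map_neg, hz', hyi]
      field_simp
    · rw [AlgHom.comp_apply, hθl, map_mul, hx', hyi]
      field_simp
  have hθ : ∀ r, ψ (θ r) = ψ' r := fun r => congrArg (fun f : R2 →ₐ[ℂ] F => f r) hcomp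
  refine ⟨θ, χ', ?_, hθ, ?_⟩
  · intro r t hrt
    apply hψ'
    rw [← hθ, ← hθ, hrt]
  · intro x
    exact congrArg Units.val (hχ' x)

end Pool.Agent.Lib.MP_97567f_al
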