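import Pool.Agent.Lib.MP_97567f_al.SpecG

/-!
# MP_97567f_al: existence of the twist
-/

set_option autoImplicit false

namespace Pool.Agent.Lib.MP_97567f_al

private theorem G2_map_lk {n : ℕ} (h4 : SLKr) (M : CoxeterMatrix (Fin n)) (hSL : SL M)
    (hRF : RF M) (hFH : FH M (fh M)) (C : Finset (Fin n)) (hC : Sat M C) {R S : Type}
    [CommRing R] [CommRing S] (φ : R →+* S) {q l : R} (hq : IsUnit q) (hl : IsUnit l)
    (x : Art M) : (LKr M C q l x).1.map φ = (LKr M C (φ q) (φ l) x).1 :=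
  ((h4 n M hSL hRF hFH C hC).2 R S φ q l hq hl x).symm

/-- **Existence of the twist.** -/
theorem pG2 (h1 : SG0) (h2 : SG1) (h3 : SDesc) (h4 : SLKr) : SG2 := by
  intro n M hSL hRF hFH C hC hconn hcard
  obtain ⟨F, hF, hAF, ψ, H, hψ, hH, hα⟩ :=
    h1 n M hSL hRF hFH C hC hconn (le_trans (by norm_num) hcard)
  refine ⟨H, hH, fun α hαH => ?_⟩
  obtain ⟨ψ', χ, g, hψ', hx⟩ := hα α hαH
  obtain ⟨θ, χ', hθ, hψθ, hχ⟩ := h2 n M hSL hRF hFH C hC hconn hcard F ψ ψ' hψ hψ' α χ g hx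
  refine ⟨θ, hθ, ?_⟩
  let Ψ : K2 →+* F := IsFractionRing.lift (A := R2) (g := (ψ : R2 →+* F)) hψ
  have hΨ : ∀ r : R2, Ψ (algebraMap R2 K2 r) = ψ r := fun r =>
    IsFractionRing.lift_algebraMap (A := R2) (g := (ψ : R2 →+* F)) hψ r
  let _ : Algebra K2 F := Ψ.toAlgebra
  have hAm : algebraMap K2 F = Ψ := rfl
  have hinf : Infinite K2 :=
    Infinite.of_injective (algebraMap ℂ K2) (algebraMap ℂ K2).injective
  have e1 : ∀ y : Art M, ((LKr M C qq ll y).1.map (algebraMap R2 K2)).map Ψ =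
      (LKr M C (ψ qq) (ψ ll) y).1 := by
    intro y
    rw [Matrix.map_map]
    have h5 := G2_map_lk h4 M hSL hRF hFH C hC (ψ : R2 →+* F) qq_unit ll_unit y
    change _ = (LKr M C ((ψ : R2 →+* F) qq) ((ψ : R2 →+* F) ll) y).1
    rw [← h5]
    ext i j
    rw [Matrix.map_apply, Matrix.map_apply, Function.comp_apply]
    exact hΨ _
  have e2 : ∀ y : Art M, ((LKr M C (θ qq) (θ ll) y).1.map (algebraMap R2 K2)).map Ψ =
      (LKr M C (ψ' qq) (ψ' ll) y).1 := by
    intro y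
    have h6 := G2_map_lk h4 M hSL hRF hFH C hC (θ : R2 →+* R2) qq_unit ll_unit y
    have h7 := G2_map_lk h4 M hSL hRF hFH C hC (ψ' : R2 →+* F) qq_unit ll_unit y
    change ((LKr M C ((θ : R2 →+* R2) qq) ((θ : R2 →+* R2) ll) y).1.map
      (algebraMap R2 K2)).map Ψ = (LKr M C ((ψ' : R2 →+* F) qq) ((ψ' : R2 →+* F) ll) y).1
    rw [← h6, ← h7, Matrix.map_map, Matrix.map_map]
    ext i j
    rw [Matrix.map_apply, Matrix.map_apply, Function.comp_apply, Function.comp_apply]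
    exact (hΨ _).trans (hψθ _)
  obtain ⟨h, hh⟩ := h3 K2 F (PR M C) (Art M)
    (fun x => (LKr M C qq ll (α x)).1.map (algebraMap R2 K2))
    (fun x => (algebraMap R2 K2 (χ' x : R2)) • (LKr M C (θ qq) (θ ll) x).1.map (algebraMap R2 K2))
    g (by
      intro x
      have e3 : ((algebraMap R2 K2 (χ' x : R2)) •
          (LKr M C (θ qq) (θ ll) x).1.map (algebraMap R2 K2)).map (algebraMap K2 F) =
          (χ x : F) • (LKr M C (ψ' qq) (ψ' ll) x).1 := by
        rw [← e2 x]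
        ext i j
        simp only [Matrix.map_apply, Matrix.smul_apply, smul_eq_mul, map_mul]
        rw [hAm, hΨ, hχ]
      rw [e3, hAm, e1, hx x]
      have hg : (g⁻¹).1 * g.1 = 1 := by
        rw [← Units.val_mul, inv_mul_cancel, Units.val_one]
      rw [smul_mul_assoc, mul_assoc, hg, mul_one, mul_smul_comm])
  refine ⟨χ', h, fun x => ?_⟩
  have h5 := hh x
  have hg : h.1 * (h⁻¹).1 = 1 := by
    rw [← Units.val_mul, mul_inv_cancel, Units.val_one]
  calc (LKr M C qq ll (α x)).1.map (algebraMap R2 K2)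
      = (LKr M C qq ll (α x)).1.map (algebraMap R2 K2) * h.1 * (h⁻¹).1 := by
        rw [mul_assoc, hg, mul_one]
    _ = _ := by
        rw [h5, mul_smul_comm, smul_mul_assoc]

end Pool.Agent.Lib.MP_97567f_al
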