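import Pool.Agent.Lib.MP_97567f_al.SpecG

/-!
# MP_97567f_al: uniqueness of the twist
-/

set_option autoImplicit false

namespace Pool.Agent.Lib.MP_97567f_al

open Polynomial

section G3

variable {K : Type} [Field K]

private theorem G3_roots (x y z : K) (a b : ℕ) :
    ((X - C x) * (X - C y) ^ a * (X - C z) ^ b : K[X]).roots = {x} + a • {y} + b • {z} := by
  have h1 : (X - C x : K[X]) ≠ 0 := X_sub_C_ne_zero x
  have h2 : ((X - C y) ^ a : K[X]) ≠ 0 := pow_ne_zero _ (X_sub_C_ne_zero y)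
  have h3 : ((X - C z) ^ b : K[X]) ≠ 0 := pow_ne_zero _ (X_sub_C_ne_zero z)
  rw [roots_mul (mul_ne_zero (mul_ne_zero h1 h2) h3), roots_mul (mul_ne_zero h1 h2), roots_X_sub_C,
    roots_pow, roots_pow, roots_X_sub_C, roots_X_sub_C]

private theorem G3_count [DecidableEq K] (x y z w : K) (a b : ℕ) :
    ((X - C x) * (X - C y) ^ a * (X - C z) ^ b : K[X]).roots.count w =
      (if w = x then 1 else 0) + a * (if w = y then 1 else 0) + b * (if w = z then 1 else 0) := by
  rw [G3_roots, Multiset.count_add, Multiset.count_add, Multiset.count_nsmul,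
    Multiset.count_nsmul, Multiset.count_singleton, Multiset.count_singleton,
    Multiset.count_singleton]

/-- Comparing the three roots. -/
private theorem G3_eq [DecidableEq K] {x y z x' y' z' : K} {a b : ℕ} (hb : 1 < b) (ha : b < a) (hxy : x ≠ y)
    (hyz : y ≠ z) (hxz : x ≠ z) (hxy' : x' ≠ y') (_hyz' : y' ≠ z') (hxz' : x' ≠ z')
    (h : ((X - C x) * (X - C y) ^ a * (X - C z) ^ b : K[X]) =
      (X - C x') * (X - C y') ^ a * (X - C z') ^ b) : x = x' ∧ y = y' ∧ z = z' := by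
  have hc : ∀ w, (if w = x then 1 else 0) + a * (if w = y then 1 else 0) +
      b * (if w = z then 1 else 0) = (if w = x' then 1 else 0) + a * (if w = y' then 1 else 0) +
      b * (if w = z' then 1 else 0) := by
    intro w
    rw [← G3_count, ← G3_count, h]
  refine ⟨?_, ?_, ?_⟩
  · have h1 := hc x
    rw [if_pos rfl, if_neg hxy, if_neg hxz] at h1
    by_contra hne
    rw [if_neg hne] at h1
    split_ifs at h1 <;> omega
  · have h1 := hc y
    rw [if_neg hxy.symm, if_pos rfl, if_neg hyz] at h1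
    by_contra hne
    rw [if_neg hne] at h1
    split_ifs at h1 with h2 h3 h3
    · exact hxz' (h2.symm.trans h3)
    · omega
    · omega
    · omega
  · have h1 := hc z
    rw [if_neg hxz.symm, if_neg hyz.symm, if_pos rfl] at h1
    by_contra hne
    rw [if_neg hne] at h1
    split_ifs at h1 with h2 h3 h3
    · exact hxy' (h2.symm.trans h3)
    · omega
    · omega
    · omega

end G3

section G3b

variable {K ι : Type} [Field K] [Infinite K] [Fintype ι] [DecidableEq ι]

/-- The characteristic polynomial of a multiple. -/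
private theorem G3_scale (A : Matrix ι ι K) (c x y z : K) (hc : c ≠ 0) (a b : ℕ)
    (h : A.charpoly = (X - C x) * (X - C y) ^ a * (X - C z) ^ b) :
    (c • A).charpoly = (X - C (c * x)) * (X - C (c * y)) ^ a * (X - C (c * z)) ^ b := by
  have hN : Fintype.card ι = 1 + a + b := by
    have h1 := A.charpoly_natDegree_eq_dim
    rw [h] at h1
    have h2 : (X - C x : K[X]) ≠ 0 := X_sub_C_ne_zero x
    have h3 : ((X - C y) ^ a : K[X]) ≠ 0 := pow_ne_zero _ (X_sub_C_ne_zero y)
    have h4 : ((X - C z) ^ b : K[X]) ≠ 0 := pow_ne_zero _ (X_sub_C_ne_zero z)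
    rw [natDegree_mul (mul_ne_zero h2 h3) h4, natDegree_mul h2 h3, natDegree_X_sub_C,
      natDegree_pow, natDegree_pow, natDegree_X_sub_C, natDegree_X_sub_C] at h1
    omega
  apply Polynomial.funext
  intro t
  have e1 : (c • A).charpoly.eval t = (Matrix.scalar ι t - c • A).det := by
    rw [Matrix.eval_charpoly]
  have e2 : A.charpoly.eval (c⁻¹ * t) = (Matrix.scalar ι (c⁻¹ * t) - A).det := by
    rw [Matrix.eval_charpoly]
  have e3 : Matrix.scalar ι t - c • A = c • (Matrix.scalar ι (c⁻¹ * t) - A) := by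
    rw [smul_sub]
    congr 1
    ext i j
    rw [Matrix.smul_apply, Matrix.scalar_apply, Matrix.scalar_apply]
    by_cases hij : i = j
    · subst hij
      rw [Matrix.diagonal_apply_eq, Matrix.diagonal_apply_eq, smul_eq_mul, mul_inv_cancel_left₀ hc]
    · rw [Matrix.diagonal_apply_ne _ hij, Matrix.diagonal_apply_ne _ hij, smul_zero]
  rw [e1, e3, Matrix.det_smul, ← e2, h, hN]
  simp only [eval_mul, eval_pow, eval_sub, eval_X, eval_C]
  have f : ∀ w : K, t - c * w = c * (c⁻¹ * t - w) := by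
    intro w
    rw [mul_sub, mul_inv_cancel_left₀ hc]
  rw [f x, f y, f z, mul_pow, mul_pow]
  ring

end G3b

private theorem G3_ne {φ : R2 →+* K2} (hφ : Function.Injective φ) :
    φ ll ≠ 1 ∧ (1 : K2) ≠ -φ qq ∧ φ ll ≠ -φ qq := by
  have hX : (MvPolynomial.X 1 : P2) ≠ 1 := by
    intro h
    have h1 := congrArg (MvPolynomial.eval (fun _ => (0 : ℂ))) h
    rw [MvPolynomial.eval_X, map_one] at h1
    exact zero_ne_one h1
  have hq : (1 : P2) ≠ -MvPolynomial.X 0 := by
    intro h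
    have h1 := congrArg (MvPolynomial.eval (fun _ => (0 : ℂ))) h
    rw [map_neg, MvPolynomial.eval_X, map_one, neg_zero] at h1
    exact one_ne_zero h1
  have hlq : (MvPolynomial.X 1 : P2) ≠ -MvPolynomial.X 0 := by
    intro h
    have h1 := congrArg (MvPolynomial.eval (fun _ => (1 : ℂ))) h
    rw [map_neg, MvPolynomial.eval_X, MvPolynomial.eval_X] at h1
    norm_num at h1
  refine ⟨fun h => ?_, fun h => ?_, fun h => ?_⟩
  · refine R2_ne hX (hφ ?_)
    rw [map_one, map_one]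
    exact h
  · refine R2_ne hq (hφ ?_)
    rw [map_one, map_one, map_neg, map_neg]
    exact h
  · refine R2_ne hlq (hφ ?_)
    rw [map_neg, map_neg]
    exact h

/-- **Uniqueness.** -/
theorem pG3 (h1 : SChar) (h2 : SLKr) : SG3 := by
  classical
  intro n M hSL hRF hFH C hC hconn hcard θ hTw
  obtain ⟨hθ, χ, g, hx⟩ := hTw
  have hne : C.Nonempty := Finset.card_pos.1 (lt_of_lt_of_le (by norm_num) hcard)
  obtain ⟨s, hs⟩ := hne
  obtain ⟨a, b, hb, ha, hch⟩ := h1 n M hSL hRF hFH C hC hconn hcard s hs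
  obtain ⟨k1, k2⟩ := h2 n M hSL hRF hFH C hC
  have hinf : Infinite K2 :=
    Infinite.of_injective (algebraMap ℂ K2) (algebraMap ℂ K2).injective
  let ψ1 : R2 →ₐ[ℂ] K2 := IsScalarTower.toAlgHom ℂ R2 K2
  have hψ1 : ∀ r, ψ1 r = algebraMap R2 K2 r := fun r => rfl
  have hψinj : Function.Injective (algebraMap R2 K2) := IsFractionRing.injective R2 K2
  let ψ2 : R2 →ₐ[ℂ] K2 := ψ1.comp θ
  have hψ2 : ∀ r, ψ2 r = algebraMap R2 K2 (θ r) := fun r => rfl
  have c1 := (hch K2 ψ1).1
  have c2 := (hch K2 ψ2).1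
  have hqu : IsUnit (algebraMap R2 K2 qq) := qq_unit.map _
  have hlu : IsUnit (algebraMap R2 K2 ll) := ll_unit.map _
  have m1 : (LKr M C qq ll (gn M s)).1.map (algebraMap R2 K2) =
      lk M C (ψ1 qq) (ψ1 ll) s := by
    rw [← k2 R2 K2 (algebraMap R2 K2) qq ll qq_unit ll_unit, k1 K2 _ _ hqu hlu]
    rfl
  have m2 : (LKr M C (θ qq) (θ ll) (gn M s)).1.map (algebraMap R2 K2) =
      lk M C (ψ2 qq) (ψ2 ll) s := by
    have hq' : IsUnit (θ qq) := qq_unit.map θ
    have hl' : IsUnit (θ ll) := ll_unit.map θ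
    rw [← k2 R2 K2 (algebraMap R2 K2) (θ qq) (θ ll) hq' hl', k1 K2 _ _ (hq'.map _) (hl'.map _)]
    rfl
  have hxs := hx (gn M s)
  rw [MulAut.one_apply, m1, m2] at hxs
  set c : K2 := algebraMap R2 K2 (χ (gn M s) : R2) with hcdef
  have hc : c ≠ 0 := ((χ (gn M s)).isUnit.map (algebraMap R2 K2)).ne_zero
  have e1 : (lk M C (ψ1 qq) (ψ1 ll) s).charpoly =
      (c • lk M C (ψ2 qq) (ψ2 ll) s).charpoly := by
    rw [hxs]
    have e2 : c • (g.1 * lk M C (ψ2 qq) (ψ2 ll) s * (g⁻¹).1) =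
        g.1 * (c • lk M C (ψ2 qq) (ψ2 ll) s) * (g⁻¹).1 := by
      rw [mul_smul_comm, smul_mul_assoc]
    rw [e2, Matrix.charpoly_mul_comm, ← mul_assoc, ← Units.val_mul, inv_mul_cancel,
      Units.val_one, one_mul]
  rw [c1, G3_scale _ c _ _ _ hc a b c2] at e1
  obtain ⟨n1, n2, n3⟩ := G3_ne (φ := algebraMap R2 K2) hψinj
  obtain ⟨n4, n5, n6⟩ := G3_ne (φ := (algebraMap R2 K2).comp (θ : R2 →+* R2)) (hψinj.comp hθ)
  have n4' : ψ2 ll ≠ 1 := n4
  have n5' : (1 : K2) ≠ -ψ2 qq := n5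
  have n6' : ψ2 ll ≠ -ψ2 qq := n6
  obtain ⟨r1, r2, r3⟩ := G3_eq hb ha n1 n2 n3
    (fun h => n4' (mul_left_cancel₀ hc h)) (fun h => n5' (mul_left_cancel₀ hc h))
    (fun h => n6' (mul_left_cancel₀ hc h)) e1
  have hc1 : c = 1 := by rw [r2, mul_one]
  rw [hc1, one_mul] at r1 r3
  refine R2_ext ?_ ?_
  · apply hψinj
    have := neg_injective r3
    exact this.symm
  · apply hψinj
    exact r1.symm

end Pool.Agent.Lib.MP_97567f_al
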