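import Pool.Agent.Lib.MP_97567f_al.SpecG

/-!
# MP_97567f_al: composition of twists
-/

set_option autoImplicit false

namespace Pool.Agent.Lib.MP_97567f_al

/-- **Composition.** -/
theorem pG4 (h1 : SLKr) : SG4 := by
  intro n M hSL hRF hFH C hC α β θ η hα hβ
  obtain ⟨hθ, χ, g, hx⟩ := hα
  obtain ⟨hη, χ', h, hy⟩ := hβ
  have hinj : Function.Injective ((algebraMap R2 K2).comp (θ : R2 →+* R2)) :=
    (IsFractionRing.injective R2 K2).comp hθ
  let Θ : K2 →+* K2 := IsFractionRing.lift (A := R2) hinj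
  have hΘ : ∀ r : R2, Θ (algebraMap R2 K2 r) = algebraMap R2 K2 (θ r) := fun r =>
    IsFractionRing.lift_algebraMap (A := R2) hinj r
  have hmap := (h1 n M hSL hRF hFH C hC).2
  refine ⟨hθ.comp hη, (χ.comp (β : Art M →* Art M)) *
    ((Units.map ((θ : R2 →+* R2) : R2 →* R2)).comp χ'),
    g * Matrix.GeneralLinearGroup.map Θ h, fun x => ?_⟩
  have e1 : (LKr M C (θ qq) (θ ll) (β x)).1.map (algebraMap R2 K2) =
      ((LKr M C qq ll (β x)).1.map (algebraMap R2 K2)).map Θ := by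
    have h2 : (LKr M C (θ qq) (θ ll) (β x)).1 = (LKr M C qq ll (β x)).1.map (θ : R2 →+* R2) :=
      hmap R2 R2 (θ : R2 →+* R2) qq ll qq_unit ll_unit (β x)
    rw [h2, Matrix.map_map, Matrix.map_map]
    ext i j
    rw [Matrix.map_apply, Matrix.map_apply, Function.comp_apply, Function.comp_apply]
    exact (hΘ _).symm
  have e2 : (LKr M C ((θ.comp η) qq) ((θ.comp η) ll) x).1.map (algebraMap R2 K2) =
      ((LKr M C (η qq) (η ll) x).1.map (algebraMap R2 K2)).map Θ := by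
    have h2 : (LKr M C (θ (η qq)) (θ (η ll)) x).1 =
        (LKr M C (η qq) (η ll) x).1.map (θ : R2 →+* R2) :=
      hmap R2 R2 (θ : R2 →+* R2) (η qq) (η ll) (qq_unit.map η) (ll_unit.map η) x
    change (LKr M C (θ (η qq)) (θ (η ll)) x).1.map (algebraMap R2 K2) = _
    rw [h2, Matrix.map_map, Matrix.map_map]
    ext i j
    rw [Matrix.map_apply, Matrix.map_apply, Function.comp_apply, Function.comp_apply]
    exact (hΘ _).symm
  have e3 : ∀ (c : K2) (A : Matrix (PR M C) (PR M C) K2),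
      (c • (h.1 * A * (h⁻¹).1)).map Θ = Θ c • ((Matrix.GeneralLinearGroup.map Θ h).1 *
        A.map Θ * ((Matrix.GeneralLinearGroup.map Θ h)⁻¹).1) := by
    intro c A
    have h2 : ((Matrix.GeneralLinearGroup.map Θ h)⁻¹).1 = (h⁻¹).1.map Θ := by
      rw [← map_inv]
      rfl
    have h3 : (Matrix.GeneralLinearGroup.map Θ h).1 = h.1.map Θ := rfl
    rw [h2, h3, ← Matrix.map_mul, ← Matrix.map_mul]
    ext i j
    rw [Matrix.map_apply, Matrix.smul_apply, Matrix.smul_apply, smul_eq_mul, smul_eq_mul, map_mul,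
      Matrix.map_apply]
  have e4 : ((α * β) x : Art M) = α (β x) := rfl
  rw [e4, hx (β x), e1, hy x, e3, ← e2, hΘ, mul_smul_comm, smul_mul_assoc, smul_smul]
  have e5 : algebraMap R2 K2 ((((χ.comp (β : Art M →* Art M)) *
      ((Units.map ((θ : R2 →+* R2) : R2 →* R2)).comp χ')) x : R2ˣ) : R2) =
      algebraMap R2 K2 (χ (β x) : R2) * algebraMap R2 K2 (θ (χ' x : R2)) := by
    rw [← map_mul]
    rfl
  rw [e5]
  congr 1
  have h4 : ((g * Matrix.GeneralLinearGroup.map Θ h)⁻¹ : GL (PR M C) K2).1 =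
      ((Matrix.GeneralLinearGroup.map Θ h)⁻¹).1 * (g⁻¹).1 := by
    rw [mul_inv_rev, Units.val_mul]
  rw [h4, Units.val_mul]
  simp only [mul_assoc]

end Pool.Agent.Lib.MP_97567f_al
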