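import Pool.Agent.Lib.MP_97567f_al.SpecG

/-!
# MP_97567f_al: a finite index subgroup acts by twists with the same parameters
-/

set_option autoImplicit false

namespace Pool.Agent.Lib.MP_97567f_al

open Polynomial

/-- **A finite index subgroup acts by twists with the same parameters.** -/
theorem pG6 (h1 : SG2) (h2 : SG3) (h3 : SG4) (h4 : SFinA) (h5 : SIdA) (h6 : SIdB) (h7 : SIdC)
    (h8 : SIdD) (h9 : SIdE) : SG6 := by
  intro n M hSL hRF hFH C hC hconn hcard
  obtain ⟨H, hH, hα⟩ := h1 n M hSL hRF hFH C hC hconn hcard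
  have hun := h2 n M hSL hRF hFH C hC hconn hcard
  have hco := h3 n M hSL hRF hFH C hC
  have hex : ∀ α : H, ∃ θ : R2 →ₐ[ℂ] R2, Tw M C (α : MulAut (Art M)) θ := fun α => hα α α.2
  choose θ hθ using hex
  have hli : ∀ α : H, (θ α⁻¹).comp (θ α) = AlgHom.id ℂ R2 := by
    intro α
    refine hun _ ?_
    have h := hco ((α⁻¹ : H) : MulAut (Art M)) (α : MulAut (Art M)) _ _ (hθ α⁻¹) (hθ α)
    have e : ((α⁻¹ : H) : MulAut (Art M)) * (α : MulAut (Art M)) = 1 := by
      rw [← Subgroup.coe_mul, inv_mul_cancel, Subgroup.coe_one]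
    rwa [e] at h
  have hri : ∀ α : H, (θ α).comp (θ α⁻¹) = AlgHom.id ℂ R2 := by
    intro α
    refine hun _ ?_
    have h := hco (α : MulAut (Art M)) ((α⁻¹ : H) : MulAut (Art M)) _ _ (hθ α) (hθ α⁻¹)
    have e : (α : MulAut (Art M)) * ((α⁻¹ : H) : MulAut (Art M)) = 1 := by
      rw [← Subgroup.coe_mul, mul_inv_cancel, Subgroup.coe_one]
    rwa [e] at h
  have huniq : ∀ (α : H) (η : R2 →ₐ[ℂ] R2), Tw M C (α : MulAut (Art M)) η → η = θ α := by
    intro α η hη
    have h10 : η.comp (θ α⁻¹) = AlgHom.id ℂ R2 := by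
      refine hun _ ?_
      have h := hco (α : MulAut (Art M)) ((α⁻¹ : H) : MulAut (Art M)) _ _ hη (hθ α⁻¹)
      have e : (α : MulAut (Art M)) * ((α⁻¹ : H) : MulAut (Art M)) = 1 := by
        rw [← Subgroup.coe_mul, mul_inv_cancel, Subgroup.coe_one]
      rwa [e] at h
    calc η = η.comp ((θ α⁻¹).comp (θ α)) := by rw [hli, AlgHom.comp_id]
      _ = (η.comp (θ α⁻¹)).comp (θ α) := by rw [AlgHom.comp_assoc]
      _ = θ α := by rw [h10, AlgHom.id_comp]
  have hmul : ∀ α β : H, θ (α * β) = (θ α).comp (θ β) := by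
    intro α β
    exact (huniq (α * β) _ (hco (α : MulAut (Art M)) (β : MulAut (Art M)) _ _ (hθ α)
      (hθ β))).symm
  let Θ : H →* (R2 ≃ₐ[ℂ] R2) := MonoidHom.mk'
    (fun α => AlgEquiv.ofAlgHom (θ α) (θ α⁻¹) (hri α) (hli α)) (by
      intro α β
      apply AlgEquiv.ext
      intro r
      change θ (α * β) r = θ α (θ β r)
      rw [hmul]
      rfl)
  have hΘ : ∀ α r, Θ α r = θ α r := fun α r => rfl
  obtain ⟨F, hF1, hF⟩ := h8 n M hSL hRF hFH C hC hconn (le_trans (by norm_num) hcard)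
  have hne : C.Nonempty := Finset.card_pos.1 (lt_of_lt_of_le (by norm_num) hcard)
  have hfin : Finite Θ.range := by
    refine h4 Θ.range (I1 M C) (I2 M C) F hF1
      (h5 n M hSL hRF hFH C hC hconn (le_trans (by norm_num) hcard))
      (h7 n M hSL hRF hFH C hC hconn hne) (h6 n M hSL hRF hFH C hC) hF ?_ ?_
    · rintro _ ⟨α, rfl⟩ x hx
      rw [hΘ]
      exact (h9 n M hSL hRF hFH C hC _ _ (hθ α)).1 x hx
    · rintro _ ⟨α, rfl⟩ x hx
      rw [hΘ]
      exact (h9 n M hSL hRF hFH C hC _ _ (hθ α)).2 x hx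
  have hker : Θ.ker.FiniteIndex := inferInstance
  refine ⟨Θ.ker.map H.subtype, ?_, ?_⟩
  · refine ⟨?_⟩
    rw [Subgroup.index_map_subtype]
    exact mul_ne_zero hker.index_ne_zero hH.index_ne_zero
  · rintro _ ⟨α, hαk, rfl⟩
    have e : θ α = AlgHom.id ℂ R2 := by
      apply AlgHom.ext
      intro r
      have h := hΘ α r
      have hαk' : Θ α = 1 := hαk
      rw [hαk'] at h
      exact h.symm
    rw [← e]
    exact hθ α

end Pool.Agent.Lib.MP_97567f_al
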