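import Pool.Agent.Lib.MP_97567f_al.SpecD

/-!
# MP_97567f_al: the Garside element (SGar)
-/

set_option autoImplicit false

namespace Pool.Agent.Lib.MP_97567f_al

variable {n : ℕ} {M : CoxeterMatrix (Fin n)}

private theorem Gar_bf_eq (a b : Fin n → ℤ) : bf M a b =
    ∑ s, 2 * (a s * b s) - ∑ s, ∑ j, (if adj M j s then a s * b j else 0) := by
  unfold bf pr
  rw [← Finset.sum_sub_distrib]
  refine Finset.sum_congr rfl fun s _ => ?_
  rw [mul_sub, Finset.mul_sum]
  congr 1
  · ring
  · refine Finset.sum_congr rfl fun j _ => ?_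
    split_ifs
    · rfl
    · rw [mul_zero]

private theorem Gar_bf_symm (a b : Fin n → ℤ) : bf M a b = bf M b a := by
  rw [Gar_bf_eq, Gar_bf_eq]
  congr 1
  · exact Finset.sum_congr rfl fun s _ => by ring
  · rw [Finset.sum_comm]
    refine Finset.sum_congr rfl fun j _ => Finset.sum_congr rfl fun s _ => ?_
    by_cases h : adj M j s
    · rw [if_pos h, if_pos (adj_symm h), mul_comm]
    · rw [if_neg h, if_neg fun h' => h (adj_symm h')]

private theorem Gar_bf_sub_smul (x y z : Fin n → ℤ) (c : ℤ) :
    bf M (x - c • y) z = bf M x z - c * bf M y z := by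
  unfold bf
  rw [Finset.mul_sum, ← Finset.sum_sub_distrib]
  refine Finset.sum_congr rfl fun s _ => ?_
  simp only [Pi.sub_apply, Pi.smul_apply, smul_eq_mul]
  ring

private theorem Gar_bf_e (b : Fin n → ℤ) (s : Fin n) : bf M (e s) b = pr M b s := by
  unfold bf e
  rw [Finset.sum_eq_single s]
  · rw [Pi.single_eq_same, one_mul]
  · intro t _ ht
    rw [Pi.single_eq_of_ne ht, zero_mul]
  · intro h
    exact absurd (Finset.mem_univ _) h

private theorem Gar_bf_e' (b : Fin n → ℤ) (s : Fin n) : bf M b (e s) = pr M b s := by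
  rw [Gar_bf_symm, Gar_bf_e]

private theorem Gar_pr_sub_smul (x y : Fin n → ℤ) (c : ℤ) (s : Fin n) :
    pr M (x - c • y) s = pr M x s - c * pr M y s := by
  rw [← Gar_bf_e', ← Gar_bf_e', ← Gar_bf_e', Gar_bf_sub_smul]

private theorem Gar_pre (s : Fin n) : pr M (e s) s = 2 := by
  unfold pr e
  rw [Pi.single_eq_same, Finset.sum_eq_zero]
  · norm_num
  · intro j _
    split_ifs with h
    · exact Pi.single_eq_of_ne (adj_ne h) _
    · rfl

private theorem Gar_rs_sub_smul (s : Fin n) (x y : Fin n → ℤ) (c : ℤ) :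
    rs M s (x - c • y) = rs M s x - c • rs M s y := by
  unfold rs
  rw [Gar_pr_sub_smul]
  funext i
  simp only [Pi.sub_apply, Pi.smul_apply, smul_eq_mul]
  ring

private theorem Gar_rs_e (s : Fin n) : rs M s (e s) = -e s := by
  unfold rs
  rw [Gar_pre]
  funext i
  simp only [Pi.sub_apply, Pi.smul_apply, smul_eq_mul, Pi.neg_apply]
  ring

private theorem Gar_rs_rs (s : Fin n) (x : Fin n → ℤ) : rs M s (rs M s x) = x := by
  conv_lhs => rw [show rs M s x = x - (pr M x s) • e s from rfl]
  rw [Gar_rs_sub_smul, Gar_rs_e]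
  unfold rs
  funext i
  simp only [Pi.sub_apply, Pi.smul_apply, smul_eq_mul, Pi.neg_apply]
  ring

private theorem Gar_rs_inj (s : Fin n) : Function.Injective (rs M s) :=
  Function.LeftInverse.injective (g := rs M s) (Gar_rs_rs s)

private theorem Gar_bf_rs (s : Fin n) (x y : Fin n → ℤ) :
    bf M (rs M s x) (rs M s y) = bf M x y := by
  unfold rs
  rw [Gar_bf_sub_smul, Gar_bf_e, Gar_pr_sub_smul, Gar_pre, Gar_bf_symm x, Gar_bf_sub_smul,
    Gar_bf_e, Gar_bf_symm y x]
  ring

private theorem Gar_act_nil (x : Fin n → ℤ) : act M [] x = x := rfl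

private theorem Gar_act_cons (s : Fin n) (w : List (Fin n)) (x : Fin n → ℤ) :
    act M (s :: w) x = rs M s (act M w x) := rfl

private theorem Gar_iact_cons (s : Fin n) (w : List (Fin n)) (x : Fin n → ℤ) :
    iact M (s :: w) x = iact M w (rs M s x) := rfl

private theorem Gar_act_append (u w : List (Fin n)) (x : Fin n → ℤ) :
    act M (u ++ w) x = act M u (act M w x) := by
  unfold act
  rw [List.foldr_append]

private theorem Gar_act_sub_smul (w : List (Fin n)) (x y : Fin n → ℤ) (c : ℤ) :
    act M w (x - c • y) = act M w x - c • act M w y := by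
  induction w with
  | nil => rfl
  | cons s w ih => rw [Gar_act_cons, Gar_act_cons, Gar_act_cons, ih, Gar_rs_sub_smul]

private theorem Gar_iact_sub_smul (w : List (Fin n)) (x y : Fin n → ℤ) (c : ℤ) :
    iact M w (x - c • y) = iact M w x - c • iact M w y := by
  induction w generalizing x y with
  | nil => rfl
  | cons s w ih => rw [Gar_iact_cons, Gar_iact_cons, Gar_iact_cons, Gar_rs_sub_smul, ih]

private theorem Gar_iact_neg (w : List (Fin n)) (x : Fin n → ℤ) :
    iact M w (-x) = -iact M w x := by
  have h := Gar_iact_sub_smul (M := M) w x x 2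
  have h1 : x - (2 : ℤ) • x = -x := by
    funext i
    simp only [Pi.sub_apply, Pi.smul_apply, smul_eq_mul, Pi.neg_apply]
    ring
  rw [h1] at h
  rw [h]
  funext i
  simp only [Pi.sub_apply, Pi.smul_apply, smul_eq_mul, Pi.neg_apply]
  ring

private theorem Gar_act_neg (w : List (Fin n)) (x : Fin n → ℤ) :
    act M w (-x) = -act M w x := by
  have h := Gar_act_sub_smul (M := M) w x x 2
  have h1 : x - (2 : ℤ) • x = -x := by
    funext i
    simp only [Pi.sub_apply, Pi.smul_apply, smul_eq_mul, Pi.neg_apply]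
    ring
  rw [h1] at h
  rw [h]
  funext i
  simp only [Pi.sub_apply, Pi.smul_apply, smul_eq_mul, Pi.neg_apply]
  ring

private theorem Gar_bf_act (w : List (Fin n)) (x y : Fin n → ℤ) :
    bf M (act M w x) (act M w y) = bf M x y := by
  induction w with
  | nil => rfl
  | cons s w ih => rw [Gar_act_cons, Gar_act_cons, Gar_bf_rs, ih]

private theorem Gar_not_both {b : Fin n → ℤ} (h : Rt M b) (h' : Rt M (-b)) : False := by
  have h0 : b = 0 := by
    funext i
    have h1 := h.2 i
    have h2 := h'.2 i
    rw [Pi.neg_apply] at h2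
    simp only [Pi.zero_apply]
    omega
  have h1 := h.1
  rw [h0] at h1
  unfold bf at h1
  simp at h1

private theorem Gar_comm (u : List (Fin n)) {s t : Fin n} (h : act M u (e t) = -e s)
    (x : Fin n → ℤ) : rs M s (act M u x) = act M u (rs M t x) := by
  have h0 : act M u (-e t) = e s := by rw [Gar_act_neg, h, neg_neg]
  have h2 : ∀ y : Fin n → ℤ, bf M y (-e t) = -bf M y (e t) := by
    intro y
    rw [Gar_bf_symm, Gar_bf_symm y, show (-e t : Fin n → ℤ) = 0 - (1 : ℤ) • e t by
      funext i
      simp, Gar_bf_sub_smul]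
    unfold bf
    simp
  have h1 : pr M (act M u x) s = -pr M x t := by
    rw [← Gar_bf_e', ← h0, Gar_bf_act, h2, Gar_bf_e']
  unfold rs
  rw [Gar_act_sub_smul, h1, h]
  funext i
  simp only [Pi.sub_apply, Pi.smul_apply, smul_eq_mul, Pi.neg_apply]
  ring

private theorem Gar_e_inj {s t : Fin n} (h : e s = e t) : s = t := by
  by_contra hne
  have h1 := congrFun h s
  unfold e at h1
  rw [Pi.single_eq_same, Pi.single_eq_of_ne hne] at h1
  exact one_ne_zero h1

private theorem Gar_wd_append (u w : List (Fin n)) : wd M (u ++ w) = wd M u * wd M w := by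
  unfold wd
  rw [List.map_append, List.prod_append]

private theorem Gar_wd_single (s : Fin n) : wd M [s] = gn M s := by
  unfold wd
  rw [List.map_cons, List.map_nil, List.prod_cons, List.prod_nil, mul_one]

private theorem Gar_sum (hF : RF2 M) {b : Fin n → ℤ} (h : Rt M b) : 1 ≤ ∑ i, b i := by
  have h1 := hF.ht1 b h
  unfold ht at h1
  omega

private theorem Gar_sum_e (s : Fin n) : ∑ i, (e s : Fin n → ℤ) i = 1 := by
  unfold e
  rw [Finset.sum_eq_single s]
  · exact Pi.single_eq_same _ _
  · intro t _ ht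
    exact Pi.single_eq_of_ne ht _
  · intro h
    exact absurd (Finset.mem_univ _) h

private theorem Gar_act_add (w : List (Fin n)) (x y : Fin n → ℤ) :
    act M w (x + y) = act M w x + act M w y := by
  have h := Gar_act_sub_smul (M := M) w x y (-1)
  rw [show x - (-1 : ℤ) • y = x + y by
    funext i
    simp] at h
  rw [h]
  funext i
  simp

private theorem Gar_iact_add (w : List (Fin n)) (x y : Fin n → ℤ) :
    iact M w (x + y) = iact M w x + iact M w y := by
  have h := Gar_iact_sub_smul (M := M) w x y (-1)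
  rw [show x - (-1 : ℤ) • y = x + y by
    funext i
    simp] at h
  rw [h]
  funext i
  simp

theorem pGar (h1 : SInv) (h2 : SMat) : SGar := by
  intro n M hS hF
  obtain ⟨hia, hiR, haR, -, -, hfc, hr1, hr2, hInv, -⟩ := h1 n M hS hF
  obtain ⟨hm1, hm2⟩ := h2 n M hS hF
  -- a longest reduced word
  have hBfin := hF.b.fin Finset.univ
  obtain ⟨B, hB⟩ : ∃ B : ℕ, ∀ w, Red M w → w.length ≤ B := by
    refine ⟨Set.ncard {b : Fin n → ℤ | Rt M b ∧ ∀ i, i ∉ Finset.univ → b i = 0},
      fun w hw => ?_⟩
    rw [← show (Inv M w).ncard = w.length from hw]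
    exact Set.ncard_le_ncard
      (fun b hb => ⟨hb.1, fun i hi => absurd (Finset.mem_univ i) hi⟩) hBfin
  have hnil : Red M [] := by
    have := (hfc []).2
    unfold Red
    rw [List.length_nil] at this ⊢
    omega
  obtain ⟨w0, hw0, hmin⟩ := (measure fun w : List (Fin n) => B - w.length).wf.has_min
    {w | Red M w} ⟨[], hnil⟩
  have hw0 : Red M w0 := hw0
  have hmax : ∀ w, Red M w → w.length ≤ w0.length := by
    intro w hw
    have h3 := hmin w hw
    have h3 : ¬ (B - w.length < B - w0.length) := h3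
    have h4 := hB w hw
    have h5 := hB w0 hw0
    omega
  have hes : ∀ s, e s ∈ Inv M w0 := by
    intro s
    by_contra hs
    have := hmax _ (hr2 s w0 hw0 hs)
    rw [List.length_cons] at this
    omega
  -- all positive roots become negative
  have hneg : ∀ k : ℕ, ∀ b, Rt M b → ht b ≤ k → ∀ i, iact M w0 b i ≤ 0 := by
    intro k
    induction k with
    | zero =>
      intro b hb hk
      have := hF.b.ht1 b hb
      omega
    | succ k ih =>
      intro b hb hk i
      by_cases hsim : ∃ s, b = e s
      · obtain ⟨s, rfl⟩ := hsim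
        have := (hes s).2.2 i
        rw [Pi.neg_apply] at this
        omega
      · push Not at hsim
        obtain ⟨s, hs⟩ := hF.a.desc b hb hsim
        have hd := hF.a.down b s hb hs
        have hh := hF.b.htd b s hb hs
        have h3 := ih (b - e s) hd (by omega) i
        have h4 := (hes s).2.2 i
        rw [Pi.neg_apply] at h4
        have h5 := Gar_iact_add (M := M) w0 (b - e s) (e s)
        rw [sub_add_cancel] at h5
        rw [h5, Pi.add_apply]
        omega
  have hg : ∀ b, Rt M b → Rt M (-(iact M w0 b)) := by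
    intro b hb
    rcases hiR w0 b hb with h3 | h3
    · exfalso
      have h4 : iact M w0 b = 0 := by
        funext i
        have h5 := hneg _ b hb le_rfl i
        have h6 := h3.2 i
        simp only [Pi.zero_apply]
        omega
      refine Gar_not_both h3 ?_
      rw [h4, neg_zero]
      rw [h4] at h3
      exact h3
    · exact h3
  have hh : ∀ b, Rt M b → Rt M (-(act M w0 b)) := by
    intro b hb
    rcases haR w0 b hb with h3 | h3
    · exfalso
      have h4 := hg _ h3
      rw [(hia w0 b).1] at h4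
      exact Gar_not_both hb h4
    · exact h3
  have hsim : ∀ s, ∃ t, iact M w0 (e s) = -e t := by
    intro s
    by_contra hcon
    push Not at hcon
    have hc := hg _ (hF.a.simple s)
    obtain ⟨u, hu⟩ := hF.a.desc _ hc fun t ht => hcon t (by rw [← ht, neg_neg])
    have hd := hF.a.down _ u hc hu
    have h3 := Gar_sum hF.b (hh _ hd)
    have h4 := Gar_sum hF.b (hh _ (hF.a.simple u))
    have h5 : -(act M w0 (-(iact M w0 (e s)) - e u)) + -(act M w0 (e u)) = e s := by
      rw [← neg_add, ← Gar_act_add, sub_add_cancel, Gar_act_neg, neg_neg, (hia w0 (e s)).2]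
    have h6 := Gar_sum_e s
    rw [← h5] at h6
    simp only [Pi.add_apply] at h6
    rw [Finset.sum_add_distrib] at h6
    omega
  choose τ hτ using hsim
  have hτinj : Function.Injective τ := by
    intro s t hst
    have h3 : iact M w0 (e s) = iact M w0 (e t) := by rw [hτ, hτ, hst]
    have h4 := congrArg (act M w0) h3
    rw [(hia _ _).2, (hia _ _).2] at h4
    exact Gar_e_inj h4
  have hact : ∀ s, act M w0 (e (τ s)) = -e s := by
    intro s
    rw [show (e (τ s) : Fin n → ℤ) = -(iact M w0 (e s)) by rw [hτ, neg_neg], Gar_act_neg,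
      (hia _ _).2]
  have hsw : ∀ s, gn M s * wd M w0 = wd M w0 * gn M (τ s) := by
    intro s
    obtain ⟨w1, _, h4, h5, h6⟩ := hm2 s w0 hw0 (hes s)
    have h7 : ∀ x, act M (w1 ++ [τ s]) x = act M w0 x := by
      intro x
      have h8 : ∀ y, act M w1 y = rs M s (act M w0 y) := by
        intro y
        rw [← h6 y, Gar_act_cons, Gar_rs_rs]
      rw [Gar_act_append, h8, Gar_comm w0 (hact s)]
      change act M w0 (rs M (τ s) (rs M (τ s) x)) = _
      rw [Gar_rs_rs]
    have h8 : Red M (w1 ++ [τ s]) := by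
      unfold Red
      rw [hInv _ _ h7, List.length_append, List.length_singleton, h5]
      exact hw0
    have h9 := hm1 _ _ h8 hw0 h7
    rw [Gar_wd_append, Gar_wd_single] at h9
    conv_lhs => rw [← h9]
    rw [← mul_assoc, ← h4]
  let σ : Equiv.Perm (Fin n) := Equiv.ofBijective τ (Finite.injective_iff_bijective.1 hτinj)
  have hσ : ∀ s, σ s = τ s := fun s => rfl
  have hpow : ∀ k : ℕ, ∀ s, gn M s * wd M w0 ^ k = wd M w0 ^ k * gn M ((σ ^ k) s) := by
    intro k
    induction k with
    | zero =>
      intro s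
      simp
    | succ k ih =>
      intro s
      rw [pow_succ' (wd M w0), ← mul_assoc, hsw, mul_assoc, ih, ← mul_assoc, pow_succ σ,
        Equiv.Perm.mul_apply, hσ]
  have hz : ∀ k : ℕ, ∃ z, wd M z = wd M w0 ^ k := by
    intro k
    induction k with
    | zero =>
      refine ⟨[], ?_⟩
      unfold wd
      simp
    | succ k ih =>
      obtain ⟨z, hz⟩ := ih
      exact ⟨z ++ w0, by rw [Gar_wd_append, hz, pow_succ]⟩
  obtain ⟨m, hm⟩ : ∃ m, orderOf σ = m + 1 := Nat.exists_eq_succ_of_ne_zero (orderOf_pos σ).ne'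
  obtain ⟨z, hz⟩ := hz m
  have hz2 : wd M (w0 ++ z) = wd M w0 ^ (m + 1) := by
    rw [Gar_wd_append, hz, pow_succ']
  refine ⟨w0 ++ z, fun s => ?_, fun s => ?_⟩
  · rw [hz2, hpow, ← hm, pow_orderOf_eq_one]
    rfl
  · obtain ⟨w1, _, h4, _⟩ := hm2 s w0 hw0 (hes s)
    exact ⟨w1 ++ z, by rw [Gar_wd_append, h4, Gar_wd_append, mul_assoc]⟩

end Pool.Agent.Lib.MP_97567f_al
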