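import Pool.Agent.Lib.MP_97567f_al.SpecD

/-!
# MP_97567f_al: positivity (SHee)
-/

set_option autoImplicit false

namespace Pool.Agent.Lib.MP_97567f_al

open Polynomial

variable {n : ℕ} {M : CoxeterMatrix (Fin n)}

private theorem Hee_aeval {R R' : Type} [CommRing R] [CommRing R'] (φ : R →+* R') (q : R)
    (p : Polynomial ℤ) : φ (aeval q p) = aeval (φ q) p := by
  rw [aeval_def, aeval_def, hom_eval₂]
  congr 1
  exact RingHom.ext_int _ _

private theorem Hee_xv (C : Finset (Fin n)) {R R' : Type} [CommRing R] [CommRing R']
    (φ : R →+* R') (b : Fin n → ℤ) (g : PR M C) :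
    φ (xv M C b g) = xv M C b g := by
  unfold xv
  split_ifs
  · exact map_one φ
  · exact map_zero φ

private theorem Hee_lk (C : Finset (Fin n)) {R R' : Type} [CommRing R] [CommRing R']
    (φ : R →+* R') (q l : R) (s : Fin n) :
    (lk M C q l s).map φ = lk M C (φ q) (φ l) s := by
  ext g b
  change φ (img M C q l s b.1 g) = img M C (φ q) (φ l) s b.1 g
  unfold img
  split_ifs <;> simp only [Pi.add_apply, Pi.smul_apply, smul_eq_mul, map_add, map_mul, map_sub,
    map_one, Hee_xv, Hee_aeval]

/-- The product of the matrices. -/
private noncomputable def Hee_P (M : CoxeterMatrix (Fin n)) {R : Type} [CommRing R] (q l : R)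
    (w : List (Fin n)) : Matrix (PR M Finset.univ) (PR M Finset.univ) R :=
  (w.map (lk M Finset.univ q l)).prod

private theorem Hee_P_cons {R : Type} [CommRing R] (q l : R) (s : Fin n) (w : List (Fin n)) :
    Hee_P M q l (s :: w) = lk M Finset.univ q l s * Hee_P M q l w := by
  unfold Hee_P
  rw [List.map_cons, List.prod_cons]

private theorem Hee_P_map {R R' : Type} [CommRing R] [CommRing R'] (φ : R →+* R') (q l : R)
    (w : List (Fin n)) : (Hee_P M q l w).map φ = Hee_P M (φ q) (φ l) w := by
  induction w with
  | nil =>
    unfold Hee_P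
    rw [List.map_nil, List.map_nil, List.prod_nil, List.prod_nil]
    exact Matrix.map_one φ (map_zero φ) (map_one φ)
  | cons s w ih =>
    rw [Hee_P_cons, Hee_P_cons, Matrix.map_mul, ih, Hee_lk]

private theorem Hee_wd_cons (s : Fin n) (w : List (Fin n)) :
    wd M (s :: w) = gn M s * wd M w := by
  unfold wd
  rw [List.map_cons, List.prod_cons]

private theorem Hee_LKr (h2 : SLKr) (hS : SL M) (hF : RF M) (hf : FH M (fh M)) {K : Type}
    [CommRing K] (q l : K) (hq : IsUnit q) (hl : IsUnit l) (w : List (Fin n)) :
    (LKr M Finset.univ q l (wd M w)).1 = Hee_P M q l w := by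
  have hsat : Sat M Finset.univ := fun _ _ _ _ => Finset.mem_univ _
  have h := (h2 n M hS hF hf Finset.univ hsat).1 K q l hq hl
  induction w with
  | nil =>
    unfold Hee_P wd
    rw [List.map_nil, List.map_nil, List.prod_nil, List.prod_nil, map_one]
    rfl
  | cons s w ih =>
    rw [Hee_wd_cons, Hee_P_cons, map_mul, ← h s, ← ih]
    rfl

private theorem Hee_len (hS : SL M) {w w' : List (Fin n)} {s : Fin n}
    (h : wd M w = gn M s * wd M w') : w.length = w'.length + 1 := by
  obtain ⟨φ, hφ⟩ := exists_deg hS.sl (C := Finset.univ) fun _ _ _ _ => Finset.mem_univ _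
  have key : ∀ w : List (Fin n), φ (wd M w) = Multiplicative.ofAdd (w.length : ℤ) := by
    intro w
    induction w with
    | nil =>
      unfold wd
      rw [List.map_nil, List.prod_nil, map_one]
      rfl
    | cons s w ih =>
      rw [Hee_wd_cons, map_mul, ih, hφ, if_pos (Finset.mem_univ _), ← ofAdd_add,
        List.length_cons]
      push_cast
      rw [add_comm]
  have h1 := congrArg φ h
  rw [← Hee_wd_cons, key, key] at h1
  have h2 := Multiplicative.ofAdd.injective h1
  rw [List.length_cons] at h2
  exact_mod_cast h2

private theorem Hee_entry_nonneg (s : Fin n) (g b : PR M Finset.univ) :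
    0 ≤ lk M Finset.univ (1 / 2 : ℚ) 0 s g b := by
  change 0 ≤ img M Finset.univ (1 / 2 : ℚ) 0 s b.1 g
  have hx : ∀ c : Fin n → ℤ, (0 : ℚ) ≤ xv M Finset.univ c g := by
    intro c
    unfold xv
    split_ifs <;> norm_num
  unfold img
  have h1 := hx (b.1 + e s)
  have h2 := hx b.1
  have h3 := hx (b.1 - e s)
  split_ifs <;> simp only [Pi.add_apply, Pi.smul_apply, smul_eq_mul, zero_mul, add_zero] <;>
    first | exact le_refl _ | linarith

private theorem Hee_P_nonneg (w : List (Fin n)) (g b : PR M Finset.univ) :
    0 ≤ Hee_P M (1 / 2 : ℚ) 0 w g b := by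
  induction w generalizing g with
  | nil =>
    unfold Hee_P
    rw [List.map_nil, List.prod_nil, Matrix.one_apply]
    split_ifs <;> norm_num
  | cons s w ih =>
    rw [Hee_P_cons, Matrix.mul_apply]
    exact Finset.sum_nonneg fun c _ => mul_nonneg (Hee_entry_nonneg s g c) (ih c)

private theorem Hee_P_pos {s : Fin n} {w : List (Fin n)} {g c b : PR M Finset.univ}
    (h1 : 0 < lk M Finset.univ (1 / 2 : ℚ) 0 s g c) (h2 : 0 < Hee_P M (1 / 2 : ℚ) 0 w c b) :
    0 < Hee_P M (1 / 2 : ℚ) 0 (s :: w) g b := by
  rw [Hee_P_cons, Matrix.mul_apply]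
  exact lt_of_lt_of_le (mul_pos h1 h2) (Finset.single_le_sum
    (f := fun c => lk M Finset.univ (1 / 2 : ℚ) 0 s g c * Hee_P M (1 / 2 : ℚ) 0 w c b)
    (fun c _ => mul_nonneg (Hee_entry_nonneg s g c) (Hee_P_nonneg w c b)) (Finset.mem_univ c))

private theorem Hee_e_inj {s t : Fin n} (h : e s = e t) : s = t := by
  by_contra hne
  have h1 := congrFun h s
  unfold e at h1
  rw [Pi.single_eq_same, Pi.single_eq_of_ne hne] at h1
  exact one_ne_zero h1

private theorem Hee_e_ne_zero (s : Fin n) : e s ≠ 0 := by
  intro h
  have h1 := congrFun h s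
  unfold e at h1
  rw [Pi.single_eq_same] at h1
  exact one_ne_zero h1

/-- The entries of the rows of simple roots, and of `e s + e t`. -/
private theorem Hee_row_self (hF : RF M) {s : Fin n} {g : PR M Finset.univ} (hg : g.1 = e s)
    (hR : Rt M g.1) (b : PR M Finset.univ) (hb : Rt M b.1) :
    lk M Finset.univ (1 / 2 : ℚ) 0 s g b = 0 := by
  change img M Finset.univ (1 / 2 : ℚ) 0 s b.1 g = 0
  unfold img
  by_cases h0 : b.1 = e s
  · rw [if_pos h0, zero_smul]
    rfl
  · rw [if_neg h0, zero_mul, zero_smul, add_zero]
    have hx : xv M Finset.univ (R := ℚ) b.1 g = 0 := by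
      unfold xv
      rw [if_neg]
      rw [hg]
      exact fun h => h0 h.symm
    have hx1 : xv M Finset.univ (R := ℚ) (b.1 + e s) g = 0 := by
      unfold xv
      rw [if_neg]
      rw [hg]
      intro h
      have hb0 : b.1 = 0 := by
        have := congrArg (fun x => x - e s) h
        simpa using this.symm
      have h2 := hF.b.ht1 _ hb
      rw [hb0] at h2
      unfold ht at h2
      simp at h2
    have hx2 : pr M b.1 s = 1 → xv M Finset.univ (R := ℚ) (b.1 - e s) g = 0 := by
      intro h1
      unfold xv
      rw [if_neg]
      rw [hg]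
      intro h
      have hb2 : b.1 = e s + e s := eq_add_of_sub_eq h.symm
      rw [hb2, hF.a.pr_add, hF.a.pre] at h1
      omega
    split_ifs with h1 h2
    · rw [Pi.add_apply, Pi.smul_apply, hx, hx1, smul_zero, add_zero]
    · rw [Pi.smul_apply, hx2 h2, smul_zero]
    · exact hx

theorem pHee (h1 : SLkA) (h2 : SLKr) : SHee := by
  intro n M hS hF hf
  have hA := h1 n M hF Finset.univ
  have hm : ∀ b, b ∈ roots M Finset.univ ↔ Rt M b := by
    intro b
    rw [hA.1]
    exact ⟨fun h => h.1, fun h => ⟨h, fun i hi => absurd (Finset.mem_univ i) hi⟩⟩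
  have hw : ∀ w w', wd M w = wd M w' → Pw M w = Pw M w' := by
    intro w w' h
    have hinj : Function.Injective (algebraMap ℚ[X] (FractionRing ℚ[X])) :=
      IsFractionRing.injective ℚ[X] (FractionRing ℚ[X])
    have hq : IsUnit (algebraMap ℚ[X] (FractionRing ℚ[X]) (C (1 / 2))) := by
      refine (IsUnit.map _ ?_)
      rw [Polynomial.isUnit_C]
      exact IsUnit.mk0 _ (by norm_num)
    have hl : IsUnit (algebraMap ℚ[X] (FractionRing ℚ[X]) X) := by
      refine IsUnit.mk0 _ ?_
      rw [Ne, map_eq_zero_iff _ hinj]
      exact X_ne_zero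
    have hk : ∀ w, (Pw M w).map (algebraMap ℚ[X] (FractionRing ℚ[X])) =
        (LKr M Finset.univ (algebraMap ℚ[X] (FractionRing ℚ[X]) (C (1 / 2)))
          (algebraMap ℚ[X] (FractionRing ℚ[X]) X) (wd M w)).1 := by
      intro w
      rw [Hee_LKr h2 hS hF hf _ _ hq hl, ← Hee_P_map]
      rfl
    have h3 := hk w
    rw [h, ← hk w'] at h3
    exact Matrix.map_injective hinj h3
  have hev : ∀ w g b, (Pw M w g b).eval 0 = Hee_P M (1 / 2 : ℚ) 0 w g b := by
    intro w g b
    have h3 := Hee_P_map (M := M) (Polynomial.evalRingHom (0 : ℚ)) (C (1 / 2)) X w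
    rw [coe_evalRingHom, eval_C, eval_X] at h3
    rw [← h3]
    rfl
  refine ⟨hw, fun w s => ⟨?_, ?_⟩⟩
  · rintro ⟨w', h⟩ g hg b
    rw [← Hee_wd_cons] at h
    rw [hw _ _ h, hev, Hee_P_cons, Matrix.mul_apply]
    refine Finset.sum_eq_zero fun c _ => ?_
    rw [Hee_row_self hF hg ((hm _).1 g.2) c ((hm _).1 c.2), zero_mul]
  · intro h
    by_contra hdiv
    have hwP : ∀ w w', wd M w = wd M w' →
        Hee_P M (1 / 2 : ℚ) 0 w = Hee_P M (1 / 2 : ℚ) 0 w' := by
      intro w w' h
      ext g b
      rw [← hev, ← hev, hw w w' h]
    have key : ∀ N : ℕ, ∀ w : List (Fin n), w.length ≤ N → ∀ s, (¬ ∃ w', wd M w = gn M s * wd M w') →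
        ∀ g : PR M Finset.univ, g.1 = e s → ∃ b, 0 < Hee_P M (1 / 2 : ℚ) 0 w g b := by
      intro N
      induction N with
      | zero =>
        intro w hN s hs g hg
        have hw0 : w = [] := List.length_eq_zero_iff.1 (by omega)
        rw [hw0]
        refine ⟨g, ?_⟩
        unfold Hee_P
        rw [List.map_nil, List.prod_nil, Matrix.one_apply_eq]
        norm_num
      | succ N ih =>
        intro w hN s hs g hg
        cases w with
        | nil =>
          refine ⟨g, ?_⟩
          unfold Hee_P
          rw [List.map_nil, List.prod_nil, Matrix.one_apply_eq]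
          norm_num
        | cons t w1 =>
          rw [List.length_cons] at hN
          have hts : t ≠ s := by
            rintro rfl
            exact hs ⟨w1, Hee_wd_cons _ _⟩
          have hes : e s ≠ e t := fun h => hts (Hee_e_inj h).symm
          by_cases hadj : adj M s t
          · have hgg : 0 < lk M Finset.univ (1 / 2 : ℚ) 0 t g g := by
              change 0 < img M Finset.univ (1 / 2 : ℚ) 0 t g.1 g
              unfold img
              rw [hg, if_neg hes, hF.a.pra s t hadj, if_pos rfl, zero_mul, zero_smul, add_zero,
                Pi.add_apply, Pi.smul_apply]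
              have hx : xv M Finset.univ (R := ℚ) (e s + e t) g = 0 := by
                unfold xv
                rw [if_neg]
                rw [hg]
                intro h
                have := congrArg (fun x => x - e s) h
                simp at this
                exact Hee_e_ne_zero t this.symm
              have hx1 : xv M Finset.univ (R := ℚ) (e s) g = 1 := by
                unfold xv
                rw [if_pos hg]
              rw [hx, hx1]
              norm_num
            by_cases hs1 : ∃ w2, wd M w1 = gn M s * wd M w2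
            · obtain ⟨w2, hw2⟩ := hs1
              have hlen := Hee_len hS hw2
              have ht2 : ¬ ∃ w3, wd M w2 = gn M t * wd M w3 := by
                rintro ⟨w3, hw3⟩
                refine hs ⟨t :: s :: w3, ?_⟩
                rw [Hee_wd_cons, hw2, hw3, Hee_wd_cons, Hee_wd_cons]
                have hb := art_braid hadj
                rw [← mul_assoc, ← mul_assoc, ← hb]
                group
              have hst : e s + e t ∈ roots M Finset.univ :=
                hA.2.1 (e s) ((hm _).2 (hF.a.simple s)) t (hF.a.pra s t hadj) (Finset.mem_univ _)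
              have htm : e t ∈ roots M Finset.univ := (hm _).2 (hF.a.simple t)
              obtain ⟨b, hb⟩ := ih w2 (by omega) t ht2 ⟨e t, htm⟩ rfl
              refine ⟨b, ?_⟩
              have h5 : 0 < Hee_P M (1 / 2 : ℚ) 0 (s :: w2) ⟨e s + e t, hst⟩ b := by
                refine Hee_P_pos ?_ hb
                change 0 < img M Finset.univ (1 / 2 : ℚ) 0 s (e t) ⟨e s + e t, hst⟩
                unfold img
                rw [if_neg fun h => hes h.symm, hF.a.pra t s (adj_symm hadj), if_pos rfl,
                  zero_mul, zero_smul, add_zero, Pi.add_apply, Pi.smul_apply]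
                have hx : xv M Finset.univ (R := ℚ) (e t + e s) ⟨e s + e t, hst⟩ = 1 := by
                  unfold xv
                  rw [if_pos (add_comm _ _)]
                have hx1 : xv M Finset.univ (R := ℚ) (e t) ⟨e s + e t, hst⟩ = 0 := by
                  unfold xv
                  rw [if_neg]
                  intro h
                  simp at h
                  exact Hee_e_ne_zero s h
                rw [hx, hx1]
                norm_num
              refine Hee_P_pos (c := ⟨e s + e t, hst⟩) ?_ ?_
              · change 0 < img M Finset.univ (1 / 2 : ℚ) 0 t (e s + e t) g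
                unfold img
                have hp : pr M (e s + e t) t = 1 := by
                  rw [hF.a.pr_add, hF.a.pra s t hadj, hF.a.pre]
                  norm_num
                rw [if_neg, hp, if_neg (by norm_num), if_pos rfl, zero_mul, zero_smul, add_zero,
                  Pi.smul_apply]
                · have hx : xv M Finset.univ (R := ℚ) (e s + e t - e t) g = 1 := by
                    unfold xv
                    rw [if_pos]
                    rw [hg]
                    simp
                  rw [hx]
                  norm_num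
                · intro h
                  simp at h
                  exact Hee_e_ne_zero s h
              · rw [hwP w1 (s :: w2) (by rw [hw2, Hee_wd_cons])]
                exact h5
            · obtain ⟨b, hb⟩ := ih w1 (by omega) s hs1 g hg
              exact ⟨b, Hee_P_pos hgg hb⟩
          · have hs1 : ¬ ∃ w2, wd M w1 = gn M s * wd M w2 := by
              rintro ⟨w2, hw2⟩
              refine hs ⟨t :: w2, ?_⟩
              rw [Hee_wd_cons, hw2, Hee_wd_cons, ← mul_assoc, ← mul_assoc,
                art_comm hS.sl hts fun h => hadj (adj_symm h)]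
            obtain ⟨b, hb⟩ := ih w1 (by omega) s hs1 g hg
            refine ⟨b, Hee_P_pos ?_ hb⟩
            change 0 < img M Finset.univ (1 / 2 : ℚ) 0 t g.1 g
            unfold img
            rw [hg, if_neg hes, hF.a.prn s t hts.symm hadj, if_neg (by norm_num),
              if_neg (by norm_num), zero_mul, zero_smul, add_zero]
            have hx1 : xv M Finset.univ (R := ℚ) (e s) g = 1 := by
              unfold xv
              rw [if_pos hg]
            rw [hx1]
            norm_num
    obtain ⟨b, hb⟩ := key w.length w le_rfl s hdiv ⟨e s, (hm _).2 (hF.a.simple s)⟩ rfl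
    have h3 := h ⟨e s, (hm _).2 (hF.a.simple s)⟩ rfl b
    rw [hev] at h3
    exact hb.ne' h3

end Pool.Agent.Lib.MP_97567f_al
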