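import Pool.Agent.Lib.MP_97567f_al.SpecG

/-!
# MP_97567f_al: the ideal of the commutators of powers is not zero
-/

set_option autoImplicit false

namespace Pool.Agent.Lib.MP_97567f_al

private theorem IdA_adj {n : ℕ} {M : CoxeterMatrix (Fin n)} {C : Finset (Fin n)} (hS : Sat M C)
    (hC : Conn M C) (h2 : 2 ≤ C.card) : ∃ s ∈ C, ∃ t ∈ C, adj M s t := by
  obtain ⟨a, ha, b, hb, hab⟩ := Finset.one_lt_card.1 h2
  rcases Relation.ReflTransGen.cases_head (hC a ha b hb) with h | ⟨c, hc, _⟩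
  · exact absurd h hab
  · exact ⟨a, ha, c, hS a ha c hc, hc⟩

private theorem IdA_tr {ι K : Type} [Fintype ι] [DecidableEq ι] [Field K] (S : Set (Matrix ι ι K))
    (hS : Submodule.span K S = ⊤) (Y : Matrix ι ι K) (h : ∀ Z ∈ S, (Z * Y).trace = 0) : Y = 0 := by
  have h1 : ∀ Z : Matrix ι ι K, (Z * Y).trace = 0 := by
    intro Z
    have hZ : Z ∈ Submodule.span K S := by rw [hS]; trivial
    induction hZ using Submodule.span_induction with
    | mem x hx => exact h x hx
    | zero => simp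
    | add x y _ _ hx hy => rw [Matrix.add_mul, Matrix.trace_add, hx, hy, add_zero]
    | smul a x _ hx => rw [Matrix.smul_mul, Matrix.trace_smul, hx, smul_zero]
  ext i j
  have h2 := h1 (Matrix.single j i 1)
  rw [Matrix.trace_single_mul] at h2
  simpa using h2

private theorem IdA_one {n : ℕ} {M : CoxeterMatrix (Fin n)} {C : Finset (Fin n)}
    (hirr : Submodule.span K2 (Set.range fun x : Art M =>
      (LKr M C qq ll x).1.map (algebraMap R2 K2)) = ⊤)
    (hI : I1 M C = ⊥) (x y : Art M) : LKr M C qq ll (cmx M C x y) = 1 := by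
  have h1 : ∀ z : Art M,
      (LKr M C qq ll (z * cmx M C x y)).1.trace = (LKr M C qq ll z).1.trace := by
    intro z
    have h2 : (LKr M C qq ll (z * cmx M C x y)).1.trace - (LKr M C qq ll z).1.trace ∈ I1 M C :=
      Ideal.subset_span ⟨x, y, z, rfl⟩
    rw [hI, Ideal.mem_bot] at h2
    exact sub_eq_zero.1 h2
  have h3 : (LKr M C qq ll (cmx M C x y)).1.map (algebraMap R2 K2) - 1 = 0 := by
    refine IdA_tr _ hirr _ ?_
    rintro _ ⟨z, rfl⟩
    have h4 := congrArg (algebraMap R2 K2) (h1 z)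
    rw [map_mul, Units.val_mul] at h4
    have key : ∀ X : Matrix (PR M C) (PR M C) R2,
        (X.map (algebraMap R2 K2)).trace = algebraMap R2 K2 X.trace := by
      intro X
      simp only [Matrix.trace, map_sum, Matrix.diag_apply, Matrix.map_apply]
    rw [Matrix.mul_sub, Matrix.mul_one, Matrix.trace_sub, ← Matrix.map_mul, sub_eq_zero, key]
    refine h4.trans (key _).symm
  have h5 : (LKr M C qq ll (cmx M C x y)).1 = 1 := by
    have h6 : (LKr M C qq ll (cmx M C x y)).1.map (algebraMap R2 K2) =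
        (1 : Matrix (PR M C) (PR M C) R2).map (algebraMap R2 K2) := by
      rw [sub_eq_zero.1 h3, Matrix.map_one _ (map_zero _) (map_one _)]
    exact Matrix.map_injective (IsFractionRing.injective R2 K2) h6
  exact Units.ext h5

private theorem IdA_pow {ι R : Type} [Fintype ι] [DecidableEq ι] [CommRing R] (B : Matrix ι ι R)
    (v : ι → R) (μ : R) (h : B.mulVec v = μ • v) (k : ℕ) : (B ^ k).mulVec v = μ ^ k • v := by
  induction k with
  | zero => simp
  | succ k ih => rw [pow_succ, ← Matrix.mulVec_mulVec, h, Matrix.mulVec_smul, ih, smul_smul,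
      pow_succ, mul_comm]

private theorem IdA_canc {ι R : Type} [CommRing R] [IsDomain R] {a b : R} {u : ι → R}
    (h : a • u = b • u) (hab : a ≠ b) : u = 0 := by
  funext i
  have h1 := congrFun h i
  simp only [Pi.smul_apply, smul_eq_mul] at h1
  have h2 : (a - b) * u i = 0 := by rw [sub_mul, h1, sub_self]
  rcases mul_eq_zero.1 h2 with h3 | h3
  · exact absurd (sub_eq_zero.1 h3) hab
  · exact h3

private theorem IdA_core {ι R : Type} [Fintype ι] [DecidableEq ι] [CommRing R] [IsDomain R]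
    (A B : Matrix ι ι R) (q l : R) (j : ℕ) (hAB : A ^ j * B ^ j = B ^ j * A ^ j) (x : ι → R)
    (hx : B.mulVec x = l • x) (F : (ι → R) →ₗ[R] R)
    (hF : ∀ v, ((B - 1) * (B + q • (1 : Matrix ι ι R))).mulVec v = F v • x)
    (h1 : l ^ j ≠ 1) (h2 : (-q) ^ j ≠ l ^ j) :
    ∃ c : R, ((l - 1) * (l + q)) • (A ^ j).mulVec x = c • x := by
  set y := (A ^ j).mulVec x with hy
  have hTy : (B ^ j).mulVec y = l ^ j • y := by
    rw [hy, Matrix.mulVec_mulVec, ← hAB, ← Matrix.mulVec_mulVec, IdA_pow B x l hx j,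
      Matrix.mulVec_smul]
  have hcomm : B ^ j * B = B * B ^ j := by rw [← pow_succ, ← pow_succ']
  have hBy : (B ^ j).mulVec (B.mulVec y) = l ^ j • B.mulVec y := by
    rw [Matrix.mulVec_mulVec, hcomm, ← Matrix.mulVec_mulVec, hTy, Matrix.mulVec_smul]
  set u := B.mulVec y - l • y with hu
  have hTu : (B ^ j).mulVec u = l ^ j • u := by
    rw [hu, Matrix.mulVec_sub, Matrix.mulVec_smul, hBy, hTy, smul_sub, smul_comm]
  have hu0 : ((B - 1) * (B + q • (1 : Matrix ι ι R))).mulVec u = 0 := by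
    have e1 : u = (B - l • (1 : Matrix ι ι R)).mulVec y := by
      rw [hu, Matrix.sub_mulVec, Matrix.smul_mulVec, Matrix.one_mulVec]
    have e2 : ((B - 1) * (B + q • (1 : Matrix ι ι R))) * (B - l • (1 : Matrix ι ι R)) =
        (B - l • (1 : Matrix ι ι R)) * ((B - 1) * (B + q • (1 : Matrix ι ι R))) := by
      have c1 : Commute B (B - l • (1 : Matrix ι ι R)) :=
        (Commute.refl B).sub_right ((Commute.one_right B).smul_right l)
      have c2 : Commute (1 : Matrix ι ι R) (B - l • (1 : Matrix ι ι R)) := Commute.one_left _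
      exact ((c1.sub_left c2).mul_left (c1.add_left (c2.smul_left q))).eq
    rw [e1, Matrix.mulVec_mulVec, e2, ← Matrix.mulVec_mulVec, hF, Matrix.mulVec_smul,
      Matrix.sub_mulVec, Matrix.smul_mulVec, Matrix.one_mulVec, hx, sub_self, smul_zero]
  set u1 := (B + q • (1 : Matrix ι ι R)).mulVec u with hu1
  have hu1' : u1 = B.mulVec u + q • u := by
    rw [hu1, Matrix.add_mulVec, Matrix.smul_mulVec, Matrix.one_mulVec]
  have hBu1 : B.mulVec u1 = (1 : R) • u1 := by
    rw [← Matrix.mulVec_mulVec, ← hu1, Matrix.sub_mulVec, Matrix.one_mulVec] at hu0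
    rw [one_smul]
    exact sub_eq_zero.1 hu0
  have hTu1 : (B ^ j).mulVec u1 = l ^ j • u1 := by
    rw [hu1', Matrix.mulVec_add, Matrix.mulVec_smul, hTu, Matrix.mulVec_mulVec, hcomm,
      ← Matrix.mulVec_mulVec, hTu, Matrix.mulVec_smul, smul_add, smul_comm q]
  have hu10 : u1 = 0 := by
    refine IdA_canc (a := l ^ j) (b := 1) ?_ h1
    rw [← hTu1, IdA_pow B u1 1 hBu1 j, one_pow]
  have hBu : B.mulVec u = (-q) • u := by
    rw [hu10] at hu1'
    rw [neg_smul]
    exact eq_neg_of_add_eq_zero_left hu1'.symm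
  have hu00 : u = 0 := by
    refine IdA_canc (a := (-q) ^ j) (b := l ^ j) ?_ h2
    rw [← hTu, IdA_pow B u (-q) hBu j]
  have hBy' : B.mulVec y = l • y := by
    rw [hu00] at hu
    exact sub_eq_zero.1 hu.symm
  refine ⟨F y, ?_⟩
  rw [← hF y, ← Matrix.mulVec_mulVec, Matrix.add_mulVec, Matrix.smul_mulVec, Matrix.one_mulVec, hBy',
    ← add_smul, Matrix.mulVec_smul, Matrix.sub_mulVec, Matrix.one_mulVec, hBy']
  rw [show l • y - y = (l - 1) • y by rw [sub_smul, one_smul], smul_smul, mul_comm]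

private theorem IdA_img {n : ℕ} (M : CoxeterMatrix (Fin n)) (C : Finset (Fin n)) {R : Type}
    [CommRing R] (q l : R) (s : Fin n) (b : Fin n → ℤ) (hb : b ≠ e s) (hp : pr M b s = 1) :
    ∃ f : R, img M C q l s b = q • xv M C (b - e s) + f • xv M C (e s) := by
  refine ⟨l * Polynomial.aeval q (fh M s b), ?_⟩
  unfold img
  rw [if_neg hb, if_neg (by rw [hp]; norm_num), if_pos hp]

/-- evaluation homomorphisms -/
private theorem IdA_ev (a b : ℂ) (ha : a ≠ 0) (hb : b ≠ 0) :
    ∃ φ : R2 →ₐ[ℂ] ℂ, φ qq = a ∧ φ ll = b :=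
  R2_lift (isUnit_iff_ne_zero.2 ha) (isUnit_iff_ne_zero.2 hb)

private theorem IdA_two (j : ℕ) (hj : 1 ≤ j) : (2 : ℂ) ^ j ≠ 1 ∧ (-1 : ℂ) ^ j ≠ 2 ^ j ∧
    (-2 : ℂ) ^ j ≠ 1 := by
  have h1 : (1 : ℝ) < 2 ^ j := one_lt_pow₀ (by norm_num) (by omega)
  refine ⟨fun h => ?_, fun h => ?_, fun h => ?_⟩
  · have := congrArg norm h
    rw [norm_pow, norm_one, Complex.norm_ofNat] at this
    linarith
  · have := congrArg norm h
    rw [norm_pow, norm_pow, norm_neg, norm_one, one_pow, Complex.norm_ofNat] at this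
    linarith
  · have := congrArg norm h
    rw [norm_pow, norm_neg, norm_one, Complex.norm_ofNat] at this
    linarith

theorem pIdA (h1 : SLkA) (h2 : SLkQ) (h3 : SLKr) (h4 : SIrr) : SIdA := by
  intro n M hM hRF hFH C hS hC h2C hI
  obtain ⟨s, hs, t, ht, hst⟩ := IdA_adj hS hC h2C
  have hne : s ≠ t := adj_ne hst
  have hirr := h4 n M hM hRF hFH C hS hC ⟨s, hs⟩
  obtain ⟨hroots, hup, _, hsimp, hact⟩ := h1 n M hRF C
  obtain ⟨hlk, _⟩ := hact R2 qq ll
  obtain ⟨hLK, _⟩ := h3 n M hM hRF hFH C hS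
  have hLK' := hLK R2 qq ll qq_unit ll_unit
  obtain ⟨hF, _⟩ := h2 n M hRF C hS R2 qq ll
  obtain ⟨F, _, hF⟩ := hF t ht
  set j := (Fintype.card (PR M C)).factorial with hj
  have hj1 : 1 ≤ j := Nat.factorial_pos _
  -- commutation
  have hAB : lk M C qq ll s ^ j * lk M C qq ll t ^ j = lk M C qq ll t ^ j * lk M C qq ll s ^ j := by
    have h5 := IdA_one hirr hI (gn M s) (gn M t)
    unfold cmx at h5
    rw [← hj, map_mul, map_mul, map_mul, map_inv, map_inv, map_pow, map_pow] at h5
    have h6 : LKr M C qq ll (gn M s) ^ j * LKr M C qq ll (gn M t) ^ j =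
        LKr M C qq ll (gn M t) ^ j * LKr M C qq ll (gn M s) ^ j := by
      rw [mul_inv_eq_one, mul_inv_eq_iff_eq_mul] at h5
      exact h5
    have h7 := congrArg (fun X : GL (PR M C) R2 => X.1) h6
    simp only [Units.val_mul, Units.val_pow_eq_pow_val] at h7
    rw [hLK', hLK'] at h7
    exact h7
  -- the vectors
  have hprts : pr M (e t) s = -1 := hRF.a.pra t s (adj_symm hst)
  have het : e t ∈ roots M C := (hsimp t).2 ht
  have hets : e t + e s ∈ roots M C := hup (e t) het s hprts hs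
  have hprs : pr M (e t + e s) s = 1 := by
    rw [hRF.a.pr_add, hprts, hRF.a.pre]
    norm_num
  have ht_ne_s : (e t : Fin n → ℤ) ≠ e s := by
    intro h
    have := congrFun h t
    unfold e at this
    rw [Pi.single_eq_same, Pi.single_eq_of_ne (Ne.symm hne)] at this
    norm_num at this
  have hts_ne_s : (e t + e s : Fin n → ℤ) ≠ e s := by
    intro h
    have := congrFun h t
    unfold e at this
    rw [Pi.add_apply, Pi.single_eq_same, Pi.single_eq_of_ne (Ne.symm hne)] at this
    norm_num at this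
  have hts_ne_t : (e t + e s : Fin n → ℤ) ≠ e t := by
    intro h
    have := congrFun h s
    unfold e at this
    rw [Pi.add_apply, Pi.single_eq_same, Pi.single_eq_of_ne hne] at this
    norm_num at this
  have hBt : (lk M C qq ll t).mulVec (xv M C (e t)) = ll • xv M C (e t) := by
    rw [hlk t (e t) het]
    unfold img
    rw [if_pos rfl]
  have hAt : (lk M C qq ll s).mulVec (xv M C (e t)) =
      xv M C (e t + e s) + (1 - qq) • xv M C (e t) := by
    rw [hlk s (e t) het]
    unfold img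
    rw [if_neg ht_ne_s, if_pos hprts, hFH.simple s t hne, map_zero, mul_zero, zero_smul, add_zero]
  have hAs : (lk M C qq ll s).mulVec (xv M C (e s)) = ll • xv M C (e s) := by
    rw [hlk s (e s) ((hsimp s).2 hs)]
    unfold img
    rw [if_pos rfl]
  obtain ⟨f, hAts⟩ : ∃ f : R2, (lk M C qq ll s).mulVec (xv M C (e t + e s)) =
      qq • xv M C (e t) + f • xv M C (e s) := by
    obtain ⟨f, hf⟩ := IdA_img M C qq ll s (e t + e s) hts_ne_s hprs
    refine ⟨f, ?_⟩
    rw [hlk s (e t + e s) hets, hf, add_sub_cancel_right]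
  have hpow : ∀ k : ℕ, ∃ α β γ : R2, (lk M C qq ll s ^ k).mulVec (xv M C (e t)) =
      α • xv M C (e t + e s) + β • xv M C (e t) + γ • xv M C (e s) ∧
      (1 + qq) * α = 1 - (-qq) ^ k ∧ (1 + qq) * β = 1 - (-qq) ^ (k + 1) := by
    intro k
    induction k with
    | zero =>
      refine ⟨0, 1, 0, ?_, ?_, ?_⟩
      · simp
      · simp
      · ring
    | succ k ih =>
      obtain ⟨α, β, γ, hk, hα, hβ⟩ := ih
      refine ⟨β, α * qq + (1 - qq) * β, α * f + γ * ll, ?_, hβ, ?_⟩
      · rw [pow_succ', ← Matrix.mulVec_mulVec, hk, Matrix.mulVec_add, Matrix.mulVec_add,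
          Matrix.mulVec_smul, Matrix.mulVec_smul, Matrix.mulVec_smul, hAts, hAt, hAs]
        simp only [smul_add, smul_smul, add_smul]
        rw [mul_comm β (1 - qq)]
        abel
      · have : (1 + qq) * (α * qq + (1 - qq) * β) =
            qq * ((1 + qq) * α) + (1 - qq) * ((1 + qq) * β) := by ring
        rw [this, hα, hβ]
        ring
  obtain ⟨α, β, γ, hk, hα, _⟩ := hpow j
  obtain ⟨hn1, hn2, hn3⟩ := IdA_two j hj1
  obtain ⟨φ, hφq, hφl⟩ := IdA_ev 1 2 (by norm_num) (by norm_num)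
  obtain ⟨φ', hφq', _⟩ := IdA_ev 2 2 (by norm_num) (by norm_num)
  have hc1 : ll ^ j ≠ 1 := by
    intro h
    have := congrArg φ h
    rw [map_pow, map_one, hφl] at this
    exact hn1 this
  have hc2 : (-qq) ^ j ≠ ll ^ j := by
    intro h
    have := congrArg φ h
    rw [map_pow, map_pow, map_neg, hφl, hφq] at this
    exact hn2 this
  have hc3 : (ll - 1) * (ll + qq) ≠ 0 := by
    intro h
    have := congrArg φ h
    rw [map_mul, map_sub, map_add, map_one, hφl, hφq, map_zero] at this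
    norm_num at this
  have hα0 : α ≠ 0 := by
    rintro rfl
    rw [mul_zero] at hα
    have := congrArg φ' hα
    rw [map_zero, map_sub, map_one, map_pow, map_neg, hφq'] at this
    exact hn3 (sub_eq_zero.1 this.symm).symm
  obtain ⟨c, hc⟩ := IdA_core (lk M C qq ll s) (lk M C qq ll t) qq ll j hAB (xv M C (e t)) hBt F hF
    hc1 hc2
  have hcoord := congrFun hc ⟨e t + e s, hets⟩
  rw [hk] at hcoord
  simp only [Pi.smul_apply, Pi.add_apply, smul_eq_mul, xv, if_neg hts_ne_t, if_neg hts_ne_s,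
    if_true, mul_zero, mul_one, add_zero] at hcoord
  exact mul_ne_zero hc3 hα0 hcoord

end Pool.Agent.Lib.MP_97567f_al
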