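import Pool.Agent.Lib.MP_97567f_al.SpecG

/-!
# MP_97567f_al: the ideal `I1` on the line `q = 1` (`SIdB`)
-/

set_option autoImplicit false

namespace Pool.Agent.Lib.MP_97567f_al

open Polynomial

private theorem IdB_xx : (xx : K1) ≠ 0 := by
  unfold xx
  intro h
  have h2 := (map_eq_zero_iff (algebraMap ℂ[X] K1) (IsFractionRing.injective ℂ[X] K1)).1 h
  exact X_ne_zero h2

private theorem IdB_ext {n : ℕ} {M : CoxeterMatrix (Fin n)} {C : Finset (Fin n)} {K : Type} [Field K]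
    {A B : Matrix (PR M C) (PR M C) K}
    (h : ∀ b : PR M C, A.mulVec (xv M C b.1) = B.mulVec (xv M C b.1)) : A = B := by
  have hx : ∀ b : PR M C, (xv M C b.1 : PR M C → K) = Pi.single b 1 := by
    intro b
    funext g
    rw [Pi.single_apply]
    unfold xv
    by_cases hg : g = b
    · rw [if_pos hg, if_pos (by rw [hg])]
    · rw [if_neg hg, if_neg (fun h' => hg (Subtype.ext h'))]
  apply Matrix.ext_of_mulVec_single
  intro b
  rw [← hx b]
  exact h b

/-- powers of monomial matrices -/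
private theorem IdB_pow {n : ℕ} {M : CoxeterMatrix (Fin n)} {C : Finset (Fin n)} {K : Type} [Field K]
    {A : Matrix (PR M C) (PR M C) K} {σ : Equiv.Perm (PR M C)}
    (h : ∀ b : PR M C, ∃ c : K, A.mulVec (xv M C b.1) = c • xv M C (σ b).1) (m : ℕ) :
    ∀ b : PR M C, ∃ c : K, (A ^ m).mulVec (xv M C b.1) = c • xv M C ((σ ^ m) b).1 := by
  induction m with
  | zero => intro b; exact ⟨1, by simp⟩
  | succ m ih =>
    intro b
    obtain ⟨c, hc⟩ := ih b
    obtain ⟨d, hd⟩ := h ((σ ^ m) b)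
    refine ⟨c * d, ?_⟩
    rw [pow_succ', ← Matrix.mulVec_mulVec, hc, Matrix.mulVec_smul, hd, smul_smul, pow_succ',
      Equiv.Perm.mul_apply]

private theorem IdB_diag (h1 : SMono) {n : ℕ} {M : CoxeterMatrix (Fin n)} (hM : SL M) (hRF : RF M)
    (hFH : FH M (fh M)) {C : Finset (Fin n)} (hC : Sat M C) (x : Art M) :
    ∀ b : PR M C, ∃ c : K1, (LKr M C (1 : K1) xx
      (x ^ (Fintype.card (PR M C)).factorial)).1.mulVec (xv M C b.1) = c • xv M C b.1 := by
  obtain ⟨σ, k, hk⟩ := (h1 n M hM hRF hFH C hC K1 xx IdB_xx).1 x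
  have h := IdB_pow (A := (LKr M C (1 : K1) xx x).1) (σ := σ) (fun b => ⟨_, hk b⟩)
    (Fintype.card (PR M C)).factorial
  have hσ : σ ^ (Fintype.card (PR M C)).factorial = 1 := by
    rw [← Fintype.card_perm]
    exact pow_card_eq_one
  intro b
  obtain ⟨c, hc⟩ := h b
  rw [hσ] at hc
  refine ⟨c, ?_⟩
  rw [map_pow, Units.val_pow_eq_pow_val]
  exact hc

private theorem IdB_one (h1 : SMono) {n : ℕ} {M : CoxeterMatrix (Fin n)} (hM : SL M) (hRF : RF M)
    (hFH : FH M (fh M)) {C : Finset (Fin n)} (hC : Sat M C) (x y : Art M) :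
    LKr M C (1 : K1) xx (cmx M C x y) = 1 := by
  have hx := IdB_diag h1 hM hRF hFH hC x
  have hy := IdB_diag h1 hM hRF hFH hC y
  unfold cmx
  rw [map_mul, map_mul, map_mul, map_inv, map_inv, mul_inv_eq_one, mul_inv_eq_iff_eq_mul]
  apply Units.ext
  rw [Units.val_mul, Units.val_mul]
  apply IdB_ext
  intro b
  obtain ⟨c, hc⟩ := hx b
  obtain ⟨d, hd⟩ := hy b
  rw [← Matrix.mulVec_mulVec, ← Matrix.mulVec_mulVec, hc, hd, Matrix.mulVec_smul, Matrix.mulVec_smul,
    hc, hd, smul_comm]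

theorem pIdB (h1 : SMono) (h2 : SKerQ) (h3 : SLKr) : SIdB := by
  intro n M hM hRF hFH C hC
  obtain ⟨π, hq, hl, hker, _⟩ := h2
  have hbase : ∀ x : Art M, (LKr M C (1 : K1) xx x).1 = (LKr M C qq ll x).1.map π := by
    intro x
    have h := (h3 n M hM hRF hFH C hC).2 R2 K1 (π : R2 →+* K1) qq ll qq_unit ll_unit x
    have e1 : (π : R2 →+* K1) qq = 1 := hq
    have e2 : (π : R2 →+* K1) ll = xx := hl
    rw [e1, e2] at h
    exact h
  have htr : ∀ x : Art M, π (LKr M C qq ll x).1.trace = (LKr M C (1 : K1) xx x).1.trace := by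
    intro x
    rw [hbase, Matrix.trace, Matrix.trace, map_sum]
    rfl
  unfold I1
  rw [Ideal.span_le]
  rintro r ⟨x, y, z, rfl⟩
  apply hker
  rw [map_sub, htr, htr, map_mul, IdB_one h1 hM hRF hFH hC x y, mul_one, sub_self]

end Pool.Agent.Lib.MP_97567f_al
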