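import Pool.Agent.Lib.MP_97567f_al.SpecG

/-!
# MP_97567f_al: the ideal `I2` on the curve `F (q) l = 1`
-/

set_option autoImplicit false

namespace Pool.Agent.Lib.MP_97567f_al

open Polynomial

private theorem IdD_fix {n : ℕ} {M : CoxeterMatrix (Fin n)} {C : Finset (Fin n)} {K : Type}
    [Field K] {q l : K} {w : PR M C → K}
    (hg : ∀ s, (LKr M C q l (gn M s)).1.mulVec w = w) (x : Art M) :
    (LKr M C q l x).1.mulVec w = w := by
  induction x using art_induction with
  | h1 =>
    rw [map_one]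
    exact Matrix.one_mulVec w
  | hg i x hx =>
    rw [map_mul, Units.val_mul, ← Matrix.mulVec_mulVec, hx, hg]
  | hi i x hx =>
    rw [map_mul, Units.val_mul, ← Matrix.mulVec_mulVec, hx]
    have h1 := congrArg (fun v => (LKr M C q l (gn M i)⁻¹).1.mulVec v) (hg i)
    simp only [Matrix.mulVec_mulVec] at h1
    rw [← h1, ← Units.val_mul, ← map_mul, inv_mul_cancel, map_one]
    exact Matrix.one_mulVec w

private theorem IdD_det {N K : Type} [Fintype N] [DecidableEq N] [Field K] {b0 b1 : N}
    (hb : b0 ≠ b1) (Y : N × N → Matrix N N K) (hY : ∀ i, (Y i).mulVec (fun _ => 1) = fun _ => 1) :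
    (Matrix.of fun i j => (Y i * Y j).trace).det = 0 := by
  let L : Matrix N N K →ₗ[K] K :=
    { toFun := fun A => A.mulVec (fun _ => 1) b1 - A.mulVec (fun _ => 1) b0
      map_add' := by
        intro A B
        rw [Matrix.add_mulVec, Pi.add_apply, Pi.add_apply]
        ring
      map_smul' := by
        intro c A
        rw [Matrix.smul_mulVec, Pi.smul_apply, Pi.smul_apply, RingHom.id_apply, smul_sub] }
  have hL : ∀ A, L A = A.mulVec (fun _ => 1) b1 - A.mulVec (fun _ => 1) b0 := fun A => rfl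
  have hdep : ¬ LinearIndependent K Y := by
    intro hli
    have hcard : Fintype.card (N × N) = Module.finrank K (Matrix N N K) := by
      rw [Module.finrank_matrix, Module.finrank_self, mul_one, Fintype.card_prod]
    have : Nonempty (N × N) := ⟨(b0, b0)⟩
    have hspan := hli.span_eq_top_of_card_eq_finrank hcard
    have hle : Submodule.span K (Set.range Y) ≤ LinearMap.ker L := by
      rw [Submodule.span_le]
      rintro _ ⟨i, rfl⟩
      rw [SetLike.mem_coe, LinearMap.mem_ker, hL, hY, sub_self]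
    rw [hspan] at hle
    have h1 : Matrix.single b1 b1 (1 : K) ∈ LinearMap.ker L := hle Submodule.mem_top
    rw [LinearMap.mem_ker, hL] at h1
    have h2 : (Matrix.single b1 b1 (1 : K)).mulVec (fun _ => 1) b1 = 1 := by
      simp [Matrix.mulVec, dotProduct, Matrix.single_apply]
    have h3 : (Matrix.single b1 b1 (1 : K)).mulVec (fun _ => 1) b0 = 0 := by
      simp [Matrix.mulVec, dotProduct, Ne.symm hb]
    rw [h2, h3, sub_zero] at h1
    exact one_ne_zero h1
  obtain ⟨c, hc, j, hj⟩ := Fintype.not_linearIndependent_iff.1 hdep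
  rw [← Matrix.exists_mulVec_eq_zero_iff]
  refine ⟨c, fun h => hj (congrFun h j), ?_⟩
  funext i
  rw [Pi.zero_apply]
  have h1 : ((Matrix.of fun i j => (Y i * Y j).trace).mulVec c) i =
      (Y i * ∑ j, c j • Y j).trace := by
    rw [Finset.mul_sum, Matrix.trace_sum]
    simp only [Matrix.mulVec, dotProduct, Matrix.of_apply]
    refine Finset.sum_congr rfl fun j _ => ?_
    rw [Matrix.mul_smul, Matrix.trace_smul, smul_eq_mul, mul_comm]
  rw [h1, hc, mul_zero, Matrix.trace_zero]

private theorem IdD_int {R : Type} [CommRing R] [Algebra ℤ R] (q : R) (F : ℤ[X]) :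
    @aeval ℤ R _ _ (Ring.toIntAlgebra R) q F = aeval q F := by
  have h : (Ring.toIntAlgebra R : Algebra ℤ R) = ‹Algebra ℤ R› := Subsingleton.elim _ _
  rw [h]

theorem pIdD (h1 : SLkA) (h2 : SLkW) (h3 : SKerF) (h4 : SLKr) : SIdD := by
  intro n M hS hR hF C hC hconn hcard
  obtain ⟨F, hF1, hW⟩ := h2 n M hR hF C hC hconn
  refine ⟨F, hF1, ?_⟩
  obtain ⟨hne, π, hπq, hπl, hker, -⟩ := h3 F hF1
  obtain ⟨-, -, -, hroots, hA⟩ := h1 n M hR C
  obtain ⟨hgen, hmap⟩ := h4 n M hS hR hF C hC
  obtain ⟨s, hs, t, ht, hst⟩ := Finset.one_lt_card.1 (show 1 < C.card by omega)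
  have hest : e s ≠ e t := by
    intro h
    have h5 := congrFun h s
    unfold e at h5
    rw [Pi.single_eq_same, Pi.single_eq_of_ne hst] at h5
    exact one_ne_zero h5
  have hq : IsUnit (π qq) := qq_unit.map π
  have hl : IsUnit (π ll) := ll_unit.map π
  have hfix : ∀ x : Art M, (LKr M C (π qq) (π ll) x).1.mulVec (fun _ => 1) = fun _ => 1 := by
    refine IdD_fix fun s => ?_
    rw [hgen K1 (π qq) (π ll) hq hl s]
    by_cases hsC : s ∈ C
    · rw [hW K1 (π qq) (π ll) s hsC]
      have h6 : π ll * @aeval ℤ K1 _ _ (Ring.toIntAlgebra K1) (π qq) F - 1 = 0 := by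
        rw [IdD_int, hπl, hπq, sub_eq_zero]
        exact inv_mul_cancel₀ hne
      rw [h6, zero_smul, add_zero]
    · rw [(hA K1 (π qq) (π ll)).2.2.2 hC s hsC, Matrix.one_mulVec]
  unfold I2
  rw [Ideal.span_le]
  rintro _ ⟨x, rfl⟩
  refine hker _ ?_
  have h5 := IdD_det (b0 := (⟨e s, (hroots s).2 hs⟩ : PR M C))
    (b1 := (⟨e t, (hroots t).2 ht⟩ : PR M C)) (fun h => hest (congrArg Subtype.val h))
    (fun i => (LKr M C (π qq) (π ll) (x i)).1) (fun i => hfix (x i))
  have h6 : (π : R2 →+* K1) ((Matrix.of fun i j =>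
      (LKr M C qq ll (x i * x j)).1.trace).det) = 0 := by
    rw [RingHom.map_det]
    rw [← h5]
    congr 1
    ext i j
    rw [RingHom.mapMatrix_apply, Matrix.map_apply, Matrix.of_apply, Matrix.of_apply]
    have h7 := hmap R2 K1 (π : R2 →+* K1) qq ll qq_unit ll_unit (x i * x j)
    have h8 : (π : R2 →+* K1) (LKr M C qq ll (x i * x j)).1.trace =
        ((LKr M C qq ll (x i * x j)).1.map (π : R2 →+* K1)).trace := by
      simp only [Matrix.trace, map_sum, Matrix.diag_apply, Matrix.map_apply]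
    rw [h8, ← h7, map_mul, Units.val_mul]
    rfl
  exact h6

end Pool.Agent.Lib.MP_97567f_al
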