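import Pool.Agent.Lib.MP_97567f_al.SpecG

/-!
# MP_97567f_al, module IdE: the ideals are invariant
-/

set_option autoImplicit false

namespace Pool.Agent.Lib.MP_97567f_al

private theorem IdE_trace_map {ι R S : Type} [Fintype ι] [CommRing R] [CommRing S] (f : R →+* S)
    (A : Matrix ι ι R) : (A.map f).trace = f A.trace := by
  unfold Matrix.trace
  rw [map_sum]
  rfl

theorem pIdE (h1 : SLKr) : SIdE := by
  intro n M hSL hR hF C hC α θ hT
  obtain ⟨-, χ, g, hg⟩ := hT
  obtain ⟨-, h2⟩ := h1 n M hSL hR hF C hC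
  have hinj : Function.Injective (algebraMap R2 K2) := IsFractionRing.injective R2 K2
  have htr : ∀ x, (LKr M C qq ll (α x)).1.trace =
      (χ x : R2) * θ (LKr M C qq ll x).1.trace := by
    intro x
    apply hinj
    have h3 : (LKr M C (θ qq) (θ ll) x).1 = (LKr M C qq ll x).1.map (θ : R2 →+* R2) :=
      h2 R2 R2 (θ : R2 →+* R2) qq ll qq_unit ll_unit x
    have h4 := congrArg Matrix.trace (hg x)
    rw [IdE_trace_map, Matrix.trace_smul, Matrix.trace_units_conj, IdE_trace_map, h3,
      IdE_trace_map, smul_eq_mul, ← map_mul] at h4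
    exact h4
  have htr' : ∀ x, θ (LKr M C qq ll x).1.trace =
      (((χ x)⁻¹ : R2ˣ) : R2) * (LKr M C qq ll (α x)).1.trace := by
    intro x
    rw [htr, Units.inv_mul_cancel_left]
  have hcm : ∀ x y, α (cmx M C x y) = cmx M C (α x) (α y) := by
    intro x y
    simp only [cmx, map_mul, map_pow, map_inv]
  have hχ : ∀ x y, χ (cmx M C x y) = 1 := by
    intro x y
    simp only [cmx, map_mul, map_pow, map_inv]
    rw [mul_comm (χ x ^ _) (χ y ^ _), mul_inv_cancel_right, mul_inv_cancel]
  constructor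
  · intro r hr
    have hle : I1 M C ≤ Ideal.comap (θ : R2 →+* R2) (I1 M C) := by
      refine Ideal.span_le.2 ?_
      rintro _ ⟨x, y, z, rfl⟩
      change θ ((LKr M C qq ll (z * cmx M C x y)).1.trace - (LKr M C qq ll z).1.trace) ∈ I1 M C
      have h5 : θ ((LKr M C qq ll (z * cmx M C x y)).1.trace - (LKr M C qq ll z).1.trace) =
          (((χ z)⁻¹ : R2ˣ) : R2) * ((LKr M C qq ll (α z * cmx M C (α x) (α y))).1.trace -
            (LKr M C qq ll (α z)).1.trace) := by
        rw [map_sub, htr', htr', map_mul α, map_mul χ, hχ, mul_one, hcm, mul_sub]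
      rw [h5]
      exact Ideal.mul_mem_left _ _ (Ideal.subset_span ⟨α x, α y, α z, rfl⟩)
    exact hle hr
  · intro r hr
    have hle : I2 M C ≤ Ideal.comap (θ : R2 →+* R2) (I2 M C) := by
      refine Ideal.span_le.2 ?_
      rintro _ ⟨x, rfl⟩
      change θ (Matrix.of fun i j => (LKr M C qq ll (x i * x j)).1.trace).det ∈ I2 M C
      have h5 : θ (Matrix.of fun i j => (LKr M C qq ll (x i * x j)).1.trace).det =
          (∏ i, (((χ (x i))⁻¹ : R2ˣ) : R2)) * ((∏ i, (((χ (x i))⁻¹ : R2ˣ) : R2)) *
            (Matrix.of fun i j => (LKr M C qq ll (α (x i) * α (x j))).1.trace).det) := by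
        rw [← Matrix.det_mul_row, ← Matrix.det_mul_column, AlgHom.map_det]
        congr 1
        ext i j
        simp only [AlgHom.mapMatrix_apply, Matrix.map_apply, Matrix.of_apply]
        rw [htr', map_mul α, map_mul χ, mul_inv, Units.val_mul, mul_assoc]
      rw [h5]
      exact Ideal.mul_mem_left _ _ (Ideal.mul_mem_left _ _
        (Ideal.subset_span ⟨fun i => α (x i), rfl⟩))
    exact hle hr

end Pool.Agent.Lib.MP_97567f_al
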