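import Pool.Agent.Lib.MP_97567f_al.SpecZ

/-!
# MP_97567f_al: induced representations
-/

set_option autoImplicit false

namespace Pool.Agent.Lib.MP_97567f_al

section

variable {K : Type} [Field K] {G : Type} [Group G] {H : Subgroup G} {d : ℕ}
  (f : H →* GL (Fin d) K)

/-- The space of the induced representation. -/
private def Ind_W : Submodule K (G → Fin d → K) where
  carrier := {v | ∀ (h : H) (x : G), v (h * x) = (f h).1.mulVec (v x)}
  zero_mem' := fun h x => by
    simp only [Pi.zero_apply]
    rw [Matrix.mulVec_zero]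
  add_mem' := fun {v w} hv hw h x => by
    simp only [Pi.add_apply]
    rw [hv h x, hw h x, Matrix.mulVec_add]
  smul_mem' := fun c v hv h x => by
    simp only [Pi.smul_apply]
    rw [hv h x, Matrix.mulVec_smul]

private theorem Ind_fin [H.FiniteIndex] : Module.Finite K (Ind_W f) := by
  let ev : Ind_W f →ₗ[K] (G ⧸ H → Fin d → K) :=
    { toFun := fun v q => v.1 (q.out)⁻¹
      map_add' := fun v w => rfl
      map_smul' := fun c v => rfl }
  have hinj : Function.Injective ev := by
    rw [injective_iff_map_eq_zero]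
    intro v hv
    apply Subtype.ext
    funext x
    obtain ⟨h, hh⟩ := QuotientGroup.mk_out_eq_mul H x⁻¹
    have h1 : v.1 (((x⁻¹ : G) : G ⧸ H).out)⁻¹ = 0 := congrFun hv ((x⁻¹ : G) : G ⧸ H)
    rw [hh, mul_inv_rev, inv_inv] at h1
    have h2 : v.1 (((h⁻¹ : H) : G) * x) = (f h⁻¹).1.mulVec (v.1 x) := v.2 h⁻¹ x
    rw [Subgroup.coe_inv, h1] at h2
    have h3 : (f h).1.mulVec ((f h⁻¹).1.mulVec (v.1 x)) = v.1 x := by
      rw [Matrix.mulVec_mulVec, ← Units.val_mul, ← map_mul, mul_inv_cancel, map_one,
        Units.val_one, Matrix.one_mulVec]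
    rw [← h2, Matrix.mulVec_zero] at h3
    exact h3.symm
  exact Module.Finite.of_injective ev hinj

/-- The action. -/
private def Ind_rho : G →* Module.End K (Ind_W f) where
  toFun g :=
    { toFun := fun v => ⟨fun x => v.1 (x * g), fun h x => by
        change v.1 ((h : G) * x * g) = _
        rw [mul_assoc]
        exact v.2 h (x * g)⟩
      map_add' := fun v w => rfl
      map_smul' := fun c v => rfl }
  map_one' := by
    ext v x : 3
    change v.1 (x * 1) = v.1 x
    rw [mul_one]
  map_mul' g g' := by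
    ext v x : 3
    change v.1 (x * (g * g')) = v.1 (x * g * g')
    rw [mul_assoc]

private theorem Ind_one (hf : Function.Injective f) (hd : 0 < d) (g : G)
    (hg : Ind_rho f g = 1) : g = 1 := by
  classical
  let v : (Fin d → K) → Ind_W f := fun u =>
    ⟨fun x => if hx : x ∈ H then (f ⟨x, hx⟩).1.mulVec u else 0, fun h x => by
      by_cases hx : x ∈ H
      · have hx' : (h : G) * x ∈ H := mul_mem h.2 hx
        simp only []
        rw [dif_pos hx, dif_pos hx', Matrix.mulVec_mulVec, ← Units.val_mul, ← map_mul]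
        rfl
      · have hx' : (h : G) * x ∉ H := fun h' => hx (by
          have := mul_mem (inv_mem h.2) h'
          rwa [inv_mul_cancel_left] at this)
        simp only []
        rw [dif_neg hx, dif_neg hx', Matrix.mulVec_zero]⟩
  have h1 : ∀ u, (v u).1 g = u := by
    intro u
    have h2 : (Ind_rho f g (v u)).1 1 = (v u).1 1 := by
      rw [hg]
      rfl
    have h3 : (Ind_rho f g (v u)).1 1 = (v u).1 (1 * g) := rfl
    rw [one_mul] at h3
    rw [← h3, h2]
    change (if hx : (1 : G) ∈ H then (f ⟨1, hx⟩).1.mulVec u else 0) = u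
    rw [dif_pos (one_mem H)]
    have h4 : (⟨1, one_mem H⟩ : H) = 1 := rfl
    rw [h4, map_one, Units.val_one, Matrix.one_mulVec]
  have hgH : g ∈ H := by
    by_contra hn
    have h2 := h1 (fun _ => 1)
    have h3 : (v (fun _ => 1)).1 g = 0 := dif_neg hn
    rw [h3] at h2
    exact zero_ne_one (congrFun h2 ⟨0, hd⟩)
  have h5 : f ⟨g, hgH⟩ = 1 := by
    apply Units.ext
    apply Matrix.ext_of_mulVec_single
    intro i
    have h2 := h1 (Pi.single i 1)
    have h3 : (v (Pi.single i 1)).1 g = (f ⟨g, hgH⟩).1.mulVec (Pi.single i 1) := dif_pos hgH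
    rw [← h3, h2, Units.val_one, Matrix.one_mulVec]
  have h6 : (⟨g, hgH⟩ : H) = 1 := hf (h5.trans (map_one f).symm)
  exact congrArg Subtype.val h6

private theorem Ind_core [H.FiniteIndex] (hf : Function.Injective f) (hd : 0 < d) :
    LinOver K G := by
  have := Ind_fin f
  let b := Module.finBasis K (Ind_W f)
  refine ⟨Module.finrank K (Ind_W f), (Units.map
    ((LinearMap.toMatrixAlgEquiv b : Module.End K (Ind_W f) ≃ₐ[K] _) :
      Module.End K (Ind_W f) →* Matrix _ _ K)).comp (Ind_rho f).toHomUnits, ?_⟩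
  rw [injective_iff_map_eq_one]
  intro g hg
  apply Ind_one f hf hd
  have h1 := congrArg Units.val hg
  change LinearMap.toMatrixAlgEquiv b (Ind_rho f g) = 1 at h1
  exact (LinearMap.toMatrixAlgEquiv b).injective (h1.trans (map_one _).symm)

end

theorem pInd : SInd := by
  intro K _ G _ H hH hL
  obtain ⟨d, f, hf⟩ := hL
  rcases Nat.eq_zero_or_pos d with rfl | hd
  · have hs : Subsingleton (GL (Fin 0) K) :=
      ⟨fun a b => Units.ext (Subsingleton.elim _ _)⟩
    have hs' : Subsingleton H := hf.subsingleton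
    exact Ind_core (1 : H →* GL (Fin 1) K) (Function.injective_of_subsingleton _) one_pos
  · exact Ind_core f hf hd

end Pool.Agent.Lib.MP_97567f_al
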