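import Pool.Agent.Lib.MP_97567f_al.SpecD

/-!
# MP_97567f_al: inversions of words (SInv)
-/

set_option autoImplicit false

namespace Pool.Agent.Lib.MP_97567f_al

variable {n : ℕ} {M : CoxeterMatrix (Fin n)}

private theorem Inv_adjc (i j : Fin n) : adj M i j ↔ adj M j i := ⟨adj_symm, adj_symm⟩

private theorem Inv_bf_eq (a b : Fin n → ℤ) : bf M a b =
    ∑ s, 2 * (a s * b s) - ∑ s, ∑ j, (if adj M j s then a s * b j else 0) := by
  unfold bf pr
  rw [← Finset.sum_sub_distrib]
  refine Finset.sum_congr rfl fun s _ => ?_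
  rw [mul_sub, Finset.mul_sum]
  congr 1
  · ring
  · refine Finset.sum_congr rfl fun j _ => ?_
    split_ifs
    · rfl
    · rw [mul_zero]

private theorem Inv_bf_symm (a b : Fin n → ℤ) : bf M a b = bf M b a := by
  rw [Inv_bf_eq, Inv_bf_eq]
  congr 1
  · exact Finset.sum_congr rfl fun s _ => by ring
  · rw [Finset.sum_comm]
    refine Finset.sum_congr rfl fun j _ => Finset.sum_congr rfl fun s _ => ?_
    by_cases h : adj M j s
    · rw [if_pos h, if_pos (adj_symm h), mul_comm]
    · rw [if_neg h, if_neg fun h' => h (adj_symm h')]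

private theorem Inv_bf_sub_smul (x y z : Fin n → ℤ) (c : ℤ) :
    bf M (x - c • y) z = bf M x z - c * bf M y z := by
  unfold bf
  rw [Finset.mul_sum, ← Finset.sum_sub_distrib]
  refine Finset.sum_congr rfl fun s _ => ?_
  simp only [Pi.sub_apply, Pi.smul_apply, smul_eq_mul]
  ring

private theorem Inv_bf_e (b : Fin n → ℤ) (s : Fin n) : bf M (e s) b = pr M b s := by
  unfold bf e
  rw [Finset.sum_eq_single s]
  · rw [Pi.single_eq_same, one_mul]
  · intro t _ ht
    rw [Pi.single_eq_of_ne ht, zero_mul]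
  · intro h
    exact absurd (Finset.mem_univ _) h

private theorem Inv_bf_e' (b : Fin n → ℤ) (s : Fin n) : bf M b (e s) = pr M b s := by
  rw [Inv_bf_symm, Inv_bf_e]

private theorem Inv_pr_sub_smul (x y : Fin n → ℤ) (c : ℤ) (s : Fin n) :
    pr M (x - c • y) s = pr M x s - c * pr M y s := by
  rw [← Inv_bf_e', ← Inv_bf_e', ← Inv_bf_e', Inv_bf_sub_smul]

private theorem Inv_pre (s : Fin n) : pr M (e s) s = 2 := by
  unfold pr e
  rw [Pi.single_eq_same, Finset.sum_eq_zero]
  · norm_num
  · intro j _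
    split_ifs with h
    · exact Pi.single_eq_of_ne (adj_ne h) _
    · rfl

private theorem Inv_rs_sub_smul (s : Fin n) (x y : Fin n → ℤ) (c : ℤ) :
    rs M s (x - c • y) = rs M s x - c • rs M s y := by
  unfold rs
  rw [Inv_pr_sub_smul]
  funext i
  simp only [Pi.sub_apply, Pi.smul_apply, smul_eq_mul]
  ring

private theorem Inv_rs_e (s : Fin n) : rs M s (e s) = -e s := by
  unfold rs
  rw [Inv_pre]
  funext i
  simp only [Pi.sub_apply, Pi.smul_apply, smul_eq_mul, Pi.neg_apply]
  ring

private theorem Inv_rs_rs (s : Fin n) (x : Fin n → ℤ) : rs M s (rs M s x) = x := by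
  conv_lhs => rw [show rs M s x = x - (pr M x s) • e s from rfl]
  rw [Inv_rs_sub_smul, Inv_rs_e]
  unfold rs
  funext i
  simp only [Pi.sub_apply, Pi.smul_apply, smul_eq_mul, Pi.neg_apply]
  ring

private theorem Inv_rs_inj (s : Fin n) : Function.Injective (rs M s) :=
  Function.LeftInverse.injective (g := rs M s) (Inv_rs_rs s)

private theorem Inv_bf_rs (s : Fin n) (x y : Fin n → ℤ) :
    bf M (rs M s x) (rs M s y) = bf M x y := by
  unfold rs
  rw [Inv_bf_sub_smul, Inv_bf_e, Inv_pr_sub_smul, Inv_pre, Inv_bf_symm x, Inv_bf_sub_smul,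
    Inv_bf_e, Inv_bf_symm y x]
  ring

private theorem Inv_act_nil (x : Fin n → ℤ) : act M [] x = x := rfl

private theorem Inv_act_cons (s : Fin n) (w : List (Fin n)) (x : Fin n → ℤ) :
    act M (s :: w) x = rs M s (act M w x) := rfl

private theorem Inv_iact_cons (s : Fin n) (w : List (Fin n)) (x : Fin n → ℤ) :
    iact M (s :: w) x = iact M w (rs M s x) := rfl

private theorem Inv_act_append (u w : List (Fin n)) (x : Fin n → ℤ) :
    act M (u ++ w) x = act M u (act M w x) := by
  unfold act
  rw [List.foldr_append]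

private theorem Inv_act_sub_smul (w : List (Fin n)) (x y : Fin n → ℤ) (c : ℤ) :
    act M w (x - c • y) = act M w x - c • act M w y := by
  induction w with
  | nil => rfl
  | cons s w ih => rw [Inv_act_cons, Inv_act_cons, Inv_act_cons, ih, Inv_rs_sub_smul]

private theorem Inv_iact_sub_smul (w : List (Fin n)) (x y : Fin n → ℤ) (c : ℤ) :
    iact M w (x - c • y) = iact M w x - c • iact M w y := by
  induction w generalizing x y with
  | nil => rfl
  | cons s w ih => rw [Inv_iact_cons, Inv_iact_cons, Inv_iact_cons, Inv_rs_sub_smul, ih]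

private theorem Inv_iact_neg (w : List (Fin n)) (x : Fin n → ℤ) :
    iact M w (-x) = -iact M w x := by
  have h := Inv_iact_sub_smul (M := M) w x x 2
  have h1 : x - (2 : ℤ) • x = -x := by
    funext i
    simp only [Pi.sub_apply, Pi.smul_apply, smul_eq_mul, Pi.neg_apply]
    ring
  rw [h1] at h
  rw [h]
  funext i
  simp only [Pi.sub_apply, Pi.smul_apply, smul_eq_mul, Pi.neg_apply]
  ring

private theorem Inv_act_neg (w : List (Fin n)) (x : Fin n → ℤ) :
    act M w (-x) = -act M w x := by
  have h := Inv_act_sub_smul (M := M) w x x 2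
  have h1 : x - (2 : ℤ) • x = -x := by
    funext i
    simp only [Pi.sub_apply, Pi.smul_apply, smul_eq_mul, Pi.neg_apply]
    ring
  rw [h1] at h
  rw [h]
  funext i
  simp only [Pi.sub_apply, Pi.smul_apply, smul_eq_mul, Pi.neg_apply]
  ring

private theorem Inv_bf_act (w : List (Fin n)) (x y : Fin n → ℤ) :
    bf M (act M w x) (act M w y) = bf M x y := by
  induction w with
  | nil => rfl
  | cons s w ih => rw [Inv_act_cons, Inv_act_cons, Inv_bf_rs, ih]

private theorem Inv_iact_act (w : List (Fin n)) (x : Fin n → ℤ) :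
    iact M w (act M w x) = x := by
  induction w with
  | nil => rfl
  | cons s w ih => rw [Inv_act_cons, Inv_iact_cons, Inv_rs_rs, ih]

private theorem Inv_act_iact (w : List (Fin n)) (x : Fin n → ℤ) :
    act M w (iact M w x) = x := by
  induction w generalizing x with
  | nil => rfl
  | cons s w ih => rw [Inv_iact_cons, Inv_act_cons, ih, Inv_rs_rs]

private theorem Inv_not_both {b : Fin n → ℤ} (h : Rt M b) (h' : Rt M (-b)) : False := by
  have h0 : b = 0 := by
    funext i
    have h1 := h.2 i
    have h2 := h'.2 i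
    rw [Pi.neg_apply] at h2
    simp only [Pi.zero_apply]
    omega
  have h1 := h.1
  rw [h0] at h1
  unfold bf at h1
  simp at h1

private theorem Inv_rs_Rt (hF : RF1 M) {b : Fin n → ℤ} {s : Fin n} (h : Rt M b)
    (hb : b ≠ e s) : Rt M (rs M s b) := by
  unfold rs
  rcases hF.bnd b s h hb with h1 | h1 | h1
  · have := hF.up b s h h1
    rw [h1]
    convert this using 1
    funext i
    simp
  · rw [h1]
    convert h using 1
    funext i
    simp
  · have := hF.down b s h h1
    rw [h1]
    convert this using 1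
    funext i
    simp

private theorem Inv_iact_Rt (hF : RF1 M) (w : List (Fin n)) {b : Fin n → ℤ} (h : Rt M b) :
    Rt M (iact M w b) ∨ Rt M (-(iact M w b)) := by
  induction w generalizing b with
  | nil => exact Or.inl h
  | cons s w ih =>
    rw [Inv_iact_cons]
    by_cases hb : b = e s
    · rw [hb, Inv_rs_e, Inv_iact_neg, neg_neg]
      exact (ih (hF.simple s)).symm
    · exact ih (Inv_rs_Rt hF h hb)

private theorem Inv_act_Rt (hF : RF1 M) (w : List (Fin n)) {b : Fin n → ℤ} (h : Rt M b) :
    Rt M (act M w b) ∨ Rt M (-(act M w b)) := by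
  induction w with
  | nil => exact Or.inl h
  | cons s w ih =>
    rw [Inv_act_cons]
    have key : ∀ c, Rt M c → Rt M (rs M s c) ∨ Rt M (-(rs M s c)) := by
      intro c hc
      by_cases hcs : c = e s
      · right
        rw [hcs, Inv_rs_e, neg_neg]
        exact hF.simple s
      · exact Or.inl (Inv_rs_Rt hF hc hcs)
    rcases ih with ih | ih
    · exact key _ ih
    · have h1 : rs M s (act M w b) = -rs M s (-(act M w b)) := by
        have := Inv_act_neg (M := M) [s] (act M w b)
        change rs M s (-(act M w b)) = -rs M s (act M w b) at this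
        rw [this, neg_neg]
      rw [h1, neg_neg]
      exact (key _ ih).symm

private theorem Inv_rs_ne {b : Fin n → ℤ} {s : Fin n} (hF : RF1 M) (h : Rt M b) :
    rs M s b ≠ e s := by
  intro h1
  have h2 : b = -e s := by
    rw [← Inv_rs_e (M := M), ← h1, Inv_rs_rs]
  refine Inv_not_both h ?_
  rw [h2, neg_neg]
  exact hF.simple s

private theorem Inv_mem_cons (hF : RF1 M) (s : Fin n) (w : List (Fin n)) {b : Fin n → ℤ}
    (hb : b ≠ e s) : b ∈ Inv M (s :: w) ↔ rs M s b ∈ Inv M w ∧ rs M s b ≠ e s := by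
  constructor
  · rintro ⟨h1, h2⟩
    exact ⟨⟨Inv_rs_Rt hF h1 hb, h2⟩, Inv_rs_ne hF h1⟩
  · rintro ⟨⟨h1, h2⟩, h3⟩
    have h4 := Inv_rs_Rt hF h1 h3
    rw [Inv_rs_rs] at h4
    exact ⟨h4, h2⟩

private theorem Inv_e_cons (hF : RF1 M) (s : Fin n) (w : List (Fin n)) :
    e s ∈ Inv M (s :: w) ↔ e s ∉ Inv M w := by
  have h1 : e s ∈ Inv M (s :: w) ↔ Rt M (iact M w (e s)) := by
    constructor
    · rintro ⟨_, h2⟩
      rw [Inv_iact_cons, Inv_rs_e, Inv_iact_neg, neg_neg] at h2
      exact h2
    · intro h2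
      refine ⟨hF.simple s, ?_⟩
      rw [Inv_iact_cons, Inv_rs_e, Inv_iact_neg, neg_neg]
      exact h2
  rw [h1]
  constructor
  · rintro h2 ⟨_, h3⟩
    exact Inv_not_both h2 h3
  · intro h2
    rcases Inv_iact_Rt hF w (hF.simple s) with h3 | h3
    · exact h3
    · exact absurd ⟨hF.simple s, h3⟩ h2

private theorem Inv_fin (hF : RF M) (w : List (Fin n)) : (Inv M w).Finite :=
  (hF.b.fin Finset.univ).subset fun _ h => ⟨h.1, fun i hi => absurd (Finset.mem_univ i) hi⟩

private theorem Inv_card_up (hF : RF M) (s : Fin n) (w : List (Fin n)) (h : e s ∉ Inv M w) :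
    (Inv M (s :: w)).ncard = (Inv M w).ncard + 1 := by
  have h1 : Inv M (s :: w) = insert (e s) (rs M s '' Inv M w) := by
    ext b
    rw [Set.mem_insert_iff, Set.mem_image]
    by_cases hb : b = e s
    · simp only [hb, true_or, iff_true]
      exact (Inv_e_cons hF.a s w).2 h
    · rw [Inv_mem_cons hF.a s w hb]
      constructor
      · rintro ⟨h1, _⟩
        exact Or.inr ⟨_, h1, Inv_rs_rs s b⟩
      · rintro (h1 | ⟨c, hc, rfl⟩)
        · exact absurd h1 hb
        · rw [Inv_rs_rs]
          exact ⟨hc, fun h2 => h (h2 ▸ hc)⟩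
  have h2 : e s ∉ rs M s '' Inv M w := by
    rintro ⟨c, hc, h3⟩
    exact Inv_rs_ne hF.a hc.1 h3
  rw [h1, Set.ncard_insert_of_notMem h2 ((Inv_fin hF w).image _),
    Set.ncard_image_of_injective _ (Inv_rs_inj s)]

private theorem Inv_card_down (hF : RF M) (s : Fin n) (w : List (Fin n)) (h : e s ∈ Inv M w) :
    (Inv M (s :: w)).ncard + 1 = (Inv M w).ncard := by
  have h1 : Inv M (s :: w) = rs M s '' (Inv M w \ {e s}) := by
    ext b
    rw [Set.mem_image]
    by_cases hb : b = e s
    · rw [hb, Inv_e_cons hF.a s w]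
      constructor
      · intro h1
        exact absurd h h1
      · rintro ⟨c, hc, h3⟩
        exact absurd h3 (Inv_rs_ne hF.a hc.1.1)
    · rw [Inv_mem_cons hF.a s w hb]
      constructor
      · rintro ⟨h1, h2⟩
        exact ⟨_, ⟨h1, h2⟩, Inv_rs_rs s b⟩
      · rintro ⟨c, hc, rfl⟩
        rw [Inv_rs_rs]
        exact ⟨hc.1, hc.2⟩
  rw [h1, Set.ncard_image_of_injective _ (Inv_rs_inj s)]
  exact Set.ncard_sdiff_singleton_add_one h (Inv_fin hF w)

private theorem Inv_nil : Inv M [] = ∅ := by
  rw [Set.eq_empty_iff_forall_notMem]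
  rintro b ⟨h1, h2⟩
  exact Inv_not_both h1 h2

private theorem Inv_card_le (hF : RF M) (w : List (Fin n)) : (Inv M w).ncard ≤ w.length := by
  induction w with
  | nil => rw [Inv_nil, Set.ncard_empty]; exact Nat.zero_le _
  | cons s w ih =>
    rw [List.length_cons]
    by_cases h : e s ∈ Inv M w
    · have := Inv_card_down hF s w h
      omega
    · have := Inv_card_up hF s w h
      omega

private theorem Inv_first (hF : RF1 M) (w : List (Fin n)) {b : Fin n → ℤ} (h : Rt M b)
    (h' : Rt M (-(iact M w b))) : ∃ (u : List (Fin n)) (t : Fin n) (u' : List (Fin n)),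
      w = u ++ t :: u' ∧ iact M u b = e t := by
  induction w generalizing b with
  | nil => exact absurd h' fun h' => Inv_not_both h h'
  | cons t w ih =>
    by_cases hb : b = e t
    · exact ⟨[], t, w, rfl, hb⟩
    · obtain ⟨u, t', u', h1, h2⟩ := ih (Inv_rs_Rt hF h hb) h'
      exact ⟨t :: u, t', u', by rw [h1]; rfl, h2⟩

private theorem Inv_comm (u : List (Fin n)) {s t : Fin n} (h : act M u (e t) = e s)
    (x : Fin n → ℤ) : rs M s (act M u x) = act M u (rs M t x) := by
  have h1 : pr M (act M u x) s = pr M x t := by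
    rw [← Inv_bf_e', ← h, Inv_bf_act, Inv_bf_e']
  unfold rs
  rw [Inv_act_sub_smul, h1, h]

theorem pInv : SInv := by
  intro n M _ hF
  refine ⟨fun w x => ⟨Inv_iact_act w x, Inv_act_iact w x⟩, fun w b h => Inv_iact_Rt hF.a w h,
    fun w b h => Inv_act_Rt hF.a w h, fun s w h => Inv_card_up hF s w h,
    fun s w h => Inv_card_down hF s w h, fun w => ⟨Inv_fin hF w, Inv_card_le hF w⟩,
    fun s w h => ?_, fun s w h h' => ?_, fun w w' h => ?_, fun s w h => ?_⟩
  · have h1 := Inv_card_le hF w
    unfold Red at h ⊢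
    rw [List.length_cons] at h
    by_cases h2 : e s ∈ Inv M w
    · have h3 := Inv_card_down hF s w h2
      omega
    · have h3 := Inv_card_up hF s w h2
      exact ⟨by omega, h2, (Inv_e_cons hF.a s w).2 h2⟩
  · unfold Red at h ⊢
    rw [Inv_card_up hF s w h', h, List.length_cons]
  · have h1 : ∀ x, iact M w x = iact M w' x := by
      intro x
      conv_rhs => rw [← Inv_act_iact w x, h, Inv_iact_act]
    ext b
    unfold Inv
    rw [Set.mem_ofPred_eq, Set.mem_ofPred_eq, h1]
  · obtain ⟨u, t, u', h1, h2⟩ := Inv_first hF.a w h.1 h.2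
    have h3 : act M u (e t) = e s := by rw [← h2, Inv_act_iact]
    refine ⟨u ++ u', ?_, fun x => ?_⟩
    · rw [h1, List.length_append, List.length_append, List.length_cons]
      omega
    · rw [h1, Inv_act_cons, Inv_act_append, Inv_act_append, Inv_comm u h3]
      rfl

end Pool.Agent.Lib.MP_97567f_al
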