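import Pool.Agent.Lib.MP_97567f_al.SpecG

/-!
# MP_97567f_al: absolute irreducibility of the Lawrence-Krammer representation
-/

set_option autoImplicit false

namespace Pool.Agent.Lib.MP_97567f_al

open Polynomial

section abs

variable {ι : Type} [Fintype ι] [DecidableEq ι] {K G : Type} [Field K] [Group G]

/-- A matrix of rank one in the span, and enough vectors and functionals. -/
private theorem Irr_abs (ρ : G → Matrix ι ι K) (hmul : ∀ x y, ρ (x * y) = ρ x * ρ y)
    (u w : ι → K) (h1 : Matrix.vecMulVec u w ∈ Submodule.span K (Set.range ρ))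
    (h2 : Submodule.span K {y | ∃ x, y = (ρ x).mulVec u} = ⊤)
    (h : ι → G) (h3 : (Matrix.of fun b c => (Matrix.vecMul w (ρ (h b))) c).det ≠ 0) :
    Submodule.span K (Set.range ρ) = ⊤ := by
  let A := Submodule.span K (Set.range ρ)
  have hl : ∀ x, ∀ a ∈ A, ρ x * a ∈ A := by
    intro x a ha
    have h4 : A ≤ A.comap (LinearMap.mulLeft K (ρ x)) := by
      refine Submodule.span_le.2 ?_
      rintro _ ⟨y, rfl⟩
      refine Submodule.subset_span ⟨x * y, ?_⟩
      rw [hmul]
      rfl
    exact h4 ha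
  have hr : ∀ x, ∀ a ∈ A, a * ρ x ∈ A := by
    intro x a ha
    have h4 : A ≤ A.comap (LinearMap.mulRight K (ρ x)) := by
      refine Submodule.span_le.2 ?_
      rintro _ ⟨y, rfl⟩
      refine Submodule.subset_span ⟨y * x, ?_⟩
      rw [hmul]
      rfl
    exact h4 ha
  have e1 : ∀ u' : ι → K, Matrix.vecMulVec u' w ∈ A := by
    intro u'
    have h4 : u' ∈ Submodule.span K {y | ∃ x, y = (ρ x).mulVec u} := by
      rw [h2]
      trivial
    induction h4 using Submodule.span_induction with
    | mem y hy =>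
      obtain ⟨x, rfl⟩ := hy
      rw [← Matrix.mul_vecMulVec]
      exact hl x _ h1
    | zero =>
      rw [Matrix.zero_vecMulVec]
      exact A.zero_mem
    | add x y _ _ hx hy =>
      rw [Matrix.add_vecMulVec]
      exact A.add_mem hx hy
    | smul a x _ hx =>
      rw [Matrix.smul_vecMulVec]
      exact A.smul_mem a hx
  have e2 : ∀ (u' : ι → K) (x : G), Matrix.vecMulVec u' (Matrix.vecMul w (ρ x)) ∈ A := by
    intro u' x
    rw [← Matrix.vecMulVec_mul]
    exact hr x _ (e1 u')
  have e3 : ∀ u' w' : ι → K, Matrix.vecMulVec u' w' ∈ A := by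
    intro u' w'
    let Q : Matrix ι ι K := Matrix.of fun b c => (Matrix.vecMul w (ρ (h b))) c
    have h4 : w' = Matrix.vecMul (Matrix.vecMul w' Q⁻¹) Q := by
      rw [Matrix.vecMul_vecMul, Matrix.nonsing_inv_mul Q (isUnit_iff_ne_zero.2 h3),
        Matrix.vecMul_one]
    rw [h4, Matrix.vecMul_eq_sum]
    have h5 : Matrix.vecMulVec u' (∑ i, Matrix.vecMul w' Q⁻¹ i • Q i) =
        ∑ i, Matrix.vecMul w' Q⁻¹ i • Matrix.vecMulVec u' (Q i) := by
      ext a b
      simp only [Matrix.vecMulVec_apply, Finset.sum_apply, Pi.smul_apply, Matrix.sum_apply,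
        Matrix.smul_apply, smul_eq_mul, Finset.mul_sum]
      refine Finset.sum_congr rfl fun i _ => ?_
      ring
    rw [h5]
    exact Submodule.sum_mem _ fun i _ => A.smul_mem _ (e2 u' (h i))
  rw [eq_top_iff]
  intro N _
  have h4 : N = ∑ i, Matrix.vecMulVec (Pi.single i 1) (N i) := by
    ext a b
    rw [Matrix.sum_apply, Finset.sum_eq_single a]
    · rw [Matrix.vecMulVec_apply, Pi.single_eq_same, one_mul]
    · intro i _ hi
      rw [Matrix.vecMulVec_apply, Pi.single_eq_of_ne (Ne.symm hi), zero_mul]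
    · intro ha
      exact absurd (Finset.mem_univ _) ha
  rw [h4]
  exact Submodule.sum_mem _ fun i _ => e3 _ _

end abs

section lk

variable {n : ℕ} {M : CoxeterMatrix (Fin n)} {C : Finset (Fin n)} {R : Type} [CommRing R]

private theorem Irr_xv [DecidableEq (PR M C)] (c : PR M C) :
    xv M C (R := R) c.1 = Pi.single c 1 := by
  funext g
  by_cases h : g = c
  · subst h
    rw [Pi.single_eq_same]
    exact if_pos rfl
  · rw [Pi.single_eq_of_ne h]
    exact if_neg fun h' => h (Subtype.ext h')

private theorem Irr_col (A : Matrix (PR M C) (PR M C) R) (g c : PR M C) :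
    (A.mulVec (xv M C c.1)) g = A g c := by
  classical
  rw [Irr_xv, Matrix.mulVec_single_one]
  rfl

private theorem Irr_xx : xx ^ 2 - 1 ≠ 0 := by
  intro h
  have h1 : algebraMap ℂ[X] K1 (X ^ 2 - 1) = 0 := by
    rw [map_sub, map_pow, map_one]
    exact h
  have h2 : (X ^ 2 - 1 : ℂ[X]) = 0 := by
    apply IsFractionRing.injective ℂ[X] K1
    rw [h1, map_zero]
  have h3 := congrArg (Polynomial.eval 0) h2
  norm_num at h3

private theorem Irr_xx0 : xx ≠ 0 := by
  intro h
  have h2 : (X : ℂ[X]) = 0 := by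
    apply IsFractionRing.injective ℂ[X] K1
    rw [map_zero]
    exact h
  exact X_ne_zero h2

/-- the square of a generator for `q = 1` -/
private theorem Irr_sq (h5 : SLkO) (hR : RF M) (hF : FH M (fh M)) (hC : Sat M C)
    (hr : ∀ b, b ∈ roots M C ↔ Rt M b ∧ ∀ i, i ∉ C → b i = 0) (l : R) (s : Fin n)
    (b : Fin n → ℤ) (hb : b ∈ roots M C) (hbs : b ≠ e s) :
    (lk M C 1 l s).mulVec ((lk M C 1 l s).mulVec (xv M C b)) = xv M C b := by
  obtain ⟨-, h6⟩ := h5 n M hR hF C hC R l s b hb
  obtain ⟨h7, h8⟩ := h6 hbs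
  obtain ⟨-, h9⟩ := h5 n M hR hF C hC R l s _ h7
  have hp : pr M (b - (pr M b s) • e s) s = - pr M b s := by
    rw [hR.a.pr_sub]
    have h10 : pr M ((pr M b s) • e s) s = 2 * pr M b s := by
      have h11 : (pr M b s) • e s = fun i => pr M b s * e s i := rfl
      have h12 := hR.a.pre s
      unfold pr at h12 ⊢
      simp only [Pi.smul_apply, smul_eq_mul]
      have h13 : ∀ j, (if adj M j s then (2 * b s - ∑ j, if adj M j s then b j else 0) * e s j
          else 0) = (2 * b s - ∑ j, if adj M j s then b j else 0) *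
            (if adj M j s then e s j else 0) := by
        intro j
        split_ifs
        · rfl
        · ring
      rw [Finset.sum_congr rfl fun j _ => h13 j, ← Finset.mul_sum]
      linear_combination (2 * b s - ∑ j, if adj M j s then b j else 0) * h12
    rw [h10]
    ring
  have hne : b - (pr M b s) • e s ≠ e s := by
    intro h
    rw [h, hR.a.pre] at hp
    rcases hR.a.bnd b s ((hr b).1 hb).1 hbs with h0 | h0 | h0 <;> rw [h0] at hp <;>
      norm_num at hp
  obtain ⟨-, h10⟩ := h9 hne
  rw [h8, h10, hp]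
  congr 1
  rw [neg_smul, sub_neg_eq_add, sub_add_cancel]

end lk

/-- **Absolute irreducibility.** -/
theorem pIrr (h1 : SLkA) (h2 : SLkQ) (h3 : SLKr) (h4 : SLkS) (h5 : SLkO) (h6 : SMono)
    (h7 : SKerQ) : SIrr := by
  classical
  intro n M hM hR hF C hC hconn hCn
  obtain ⟨s, hsC⟩ := hCn
  obtain ⟨hr, hrup, hrdn, hre, -⟩ := h1 n M hR C
  have hes : e s ∈ roots M C := (hre s).2 hsC
  obtain ⟨hgen, hmap⟩ := h3 n M hM hR hF C hC
  obtain ⟨F0, hF0e, hF0⟩ := (h2 n M hR C hC R2 qq ll).1 s hsC
  obtain ⟨π, hπq, hπl, -, -⟩ := h7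
  let f0 : PR M C → R2 := fun c => F0 (xv M C c.1)
  let E : Matrix (PR M C) (PR M C) R2 :=
    (lk M C qq ll s - 1) * (lk M C qq ll s + qq • (1 : Matrix (PR M C) (PR M C) R2))
  have hE : ∀ g c, E g c = f0 c * xv M C (e s) g := by
    intro g c
    rw [← Irr_col E g c, hF0]
    rfl
  have hxe : ∀ (R : Type) [CommRing R], xv M C (R := R) (e s) ⟨e s, hes⟩ = 1 := fun R _ =>
    if_pos rfl
  -- the ring homomorphism to `K1`
  have hlk1 : (lk M C qq ll s).map π = lk M C 1 xx s := by
    have e1 := hmap R2 K1 (π : R2 →+* K1) qq ll qq_unit ll_unit (gn M s)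
    have e2 : (π : R2 →+* K1) qq = 1 := hπq
    have e3 : (π : R2 →+* K1) ll = xx := hπl
    rw [e2, e3, hgen K1 1 xx isUnit_one (isUnit_iff_ne_zero.2 Irr_xx0) s,
      hgen R2 qq ll qq_unit ll_unit s] at e1
    exact e1.symm
  have hf0 : ∀ c : PR M C, π (f0 c) = if c.1 = e s then xx ^ 2 - 1 else 0 := by
    intro c
    by_cases hc : c.1 = e s
    · rw [if_pos hc]
      show π (F0 (xv M C c.1)) = _
      rw [hc, hF0e, map_mul, map_sub, map_add, map_one, hπq, hπl]
      ring
    · rw [if_neg hc]
      have e1 : f0 c = E ⟨e s, hes⟩ c := by rw [hE, hxe, mul_one]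
      have e2 : E.map π = (lk M C 1 xx s - 1) * (lk M C 1 xx s + 1) := by
        have e3 : (lk M C qq ll s - 1).map π = lk M C 1 xx s - 1 := by
          rw [← hlk1]
          ext i j
          simp [Matrix.one_apply]
        have e4 : (lk M C qq ll s + qq • (1 : Matrix (PR M C) (PR M C) R2)).map π =
            lk M C 1 xx s + 1 := by
          rw [← hlk1]
          ext i j
          by_cases hij : i = j <;> simp [Matrix.one_apply, hπq, hij]
        rw [← e3, ← e4]
        exact Matrix.map_mul
      have e3 : π (f0 c) = ((E.map π).mulVec (xv M C c.1)) ⟨e s, hes⟩ := by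
        rw [Irr_col, e1]
        rfl
      have e4 : (lk M C 1 xx s - 1) * (lk M C 1 xx s + 1) =
          lk M C 1 xx s * lk M C 1 xx s - 1 := by noncomm_ring
      rw [e3, e2, e4, Matrix.sub_mulVec, ← Matrix.mulVec_mulVec, Matrix.one_mulVec,
        Irr_sq h5 hR hF hC hr xx s c.1 c.2 hc, sub_self]
      rfl
  -- the representation over `K2`
  let ρ : Art M → Matrix (PR M C) (PR M C) K2 := fun x =>
    (LKr M C qq ll x).1.map (algebraMap R2 K2)
  have hρmul : ∀ x y, ρ (x * y) = ρ x * ρ y := by
    intro x y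
    show (LKr M C qq ll (x * y)).1.map (algebraMap R2 K2) = _
    rw [map_mul, Units.val_mul, Matrix.map_mul]
  let u : PR M C → K2 := xv M C (e s)
  let w : PR M C → K2 := fun c => algebraMap R2 K2 (f0 c)
  have hEmap : E.map (algebraMap R2 K2) = Matrix.vecMulVec u w := by
    ext g c
    rw [Matrix.map_apply, hE, map_mul, Matrix.vecMulVec_apply, mul_comm]
    congr 1
    show algebraMap R2 K2 (if g.1 = e s then 1 else 0) = if g.1 = e s then 1 else 0
    split_ifs
    · exact map_one _
    · exact map_zero _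
  have hA1 : Matrix.vecMulVec u w ∈ Submodule.span K2 (Set.range ρ) := by
    have e1 : E.map (algebraMap R2 K2) = ρ (gn M s * gn M s) +
        (algebraMap R2 K2 qq - 1) • ρ (gn M s) - (algebraMap R2 K2 qq) • ρ 1 := by
      have e2 : ρ (gn M s) = (lk M C qq ll s).map (algebraMap R2 K2) := by
        show (LKr M C qq ll (gn M s)).1.map (algebraMap R2 K2) = _
        rw [hgen R2 qq ll qq_unit ll_unit s]
      have e3 : ρ 1 = 1 := by
        show (LKr M C qq ll 1).1.map (algebraMap R2 K2) = 1
        rw [map_one, Units.val_one]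
        exact Matrix.map_one _ (map_zero _) (map_one _)
      have e4 : E = lk M C qq ll s * lk M C qq ll s + (qq - 1) • lk M C qq ll s -
          qq • (1 : Matrix (PR M C) (PR M C) R2) := by
        show (lk M C qq ll s - 1) * (lk M C qq ll s + qq • (1 : Matrix (PR M C) (PR M C) R2)) = _
        rw [sub_mul, mul_add, one_mul, mul_smul_comm, mul_one, sub_smul, one_smul]
        abel
      rw [hρmul, e2, e3, e4]
      ext i j
      have e5 : algebraMap R2 K2 ((lk M C qq ll s * lk M C qq ll s) i j) =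
          ((lk M C qq ll s).map (algebraMap R2 K2) * (lk M C qq ll s).map (algebraMap R2 K2)) i j := by
        rw [← Matrix.map_mul]
        rfl
      by_cases hij : i = j
      · subst hij
        show algebraMap R2 K2 ((lk M C qq ll s * lk M C qq ll s) i i +
          (qq - 1) * lk M C qq ll s i i - qq * (1 : Matrix (PR M C) (PR M C) R2) i i) =
          ((lk M C qq ll s).map (algebraMap R2 K2) * (lk M C qq ll s).map (algebraMap R2 K2)) i i +
          (algebraMap R2 K2 qq - 1) * algebraMap R2 K2 (lk M C qq ll s i i) -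
          algebraMap R2 K2 qq * (1 : Matrix (PR M C) (PR M C) K2) i i
        rw [map_sub, map_add, map_mul, map_mul, map_sub, e5, Matrix.one_apply_eq,
          Matrix.one_apply_eq, map_one]
      · show algebraMap R2 K2 ((lk M C qq ll s * lk M C qq ll s) i j +
          (qq - 1) * lk M C qq ll s i j - qq * (1 : Matrix (PR M C) (PR M C) R2) i j) =
          ((lk M C qq ll s).map (algebraMap R2 K2) * (lk M C qq ll s).map (algebraMap R2 K2)) i j +
          (algebraMap R2 K2 qq - 1) * algebraMap R2 K2 (lk M C qq ll s i j) -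
          algebraMap R2 K2 qq * (1 : Matrix (PR M C) (PR M C) K2) i j
        rw [map_sub, map_add, map_mul, map_mul, map_sub, e5, Matrix.one_apply_ne hij,
          Matrix.one_apply_ne hij, map_one, map_zero]
    rw [← hEmap, e1]
    exact Submodule.sub_mem _ (Submodule.add_mem _ (Submodule.subset_span ⟨_, rfl⟩)
      (Submodule.smul_mem _ _ (Submodule.subset_span ⟨_, rfl⟩)))
      (Submodule.smul_mem _ _ (Submodule.subset_span ⟨_, rfl⟩))
  have hinj : Function.Injective (algebraMap R2 K2) := IsFractionRing.injective R2 K2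
  have hA2 : Submodule.span K2 {y | ∃ x, y = (ρ x).mulVec u} = ⊤ := by
    have e1 := h4 n M hM hR hF C hC hconn K2 (algebraMap R2 K2 qq) (algebraMap R2 K2 ll)
      (fun h => qq_ne (hinj (h.trans (map_zero _).symm)))
      (fun h => ll_ne (hinj (h.trans (map_zero _).symm))) s hsC
    rw [eq_top_iff, ← e1]
    refine Submodule.span_mono ?_
    rintro y ⟨x, -, rfl⟩
    refine ⟨x, ?_⟩
    rw [hmap R2 K2 (algebraMap R2 K2) qq ll qq_unit ll_unit x]
  -- the elements which move the basis vectors to the fixed one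
  obtain ⟨hmon, htr⟩ := h6 n M hM hR hF C hC K1 xx Irr_xx0
  have hch := fun b : PR M C => htr hconn b ⟨e s, hes⟩
  choose h k hk using hch
  refine Irr_abs ρ hρmul u w hA1 hA2 h ?_
  let Q : Matrix (PR M C) (PR M C) R2 := Matrix.of fun b c =>
    (Matrix.vecMul f0 (LKr M C qq ll (h b)).1) c
  have hQ : (Matrix.of fun b c => (Matrix.vecMul w (ρ (h b))) c) = Q.map (algebraMap R2 K2) := by
    ext b c
    show (Matrix.vecMul w (ρ (h b))) c =
      algebraMap R2 K2 ((Matrix.vecMul f0 (LKr M C qq ll (h b)).1) c)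
    rw [Matrix.vecMul, Matrix.vecMul, dotProduct, dotProduct, map_sum]
    refine Finset.sum_congr rfl fun d _ => ?_
    rw [map_mul]
    rfl
  rw [hQ]
  have hQ2 : Q.map π = Matrix.diagonal fun b => (xx ^ 2 - 1) * xx ^ k b := by
    ext b c
    have e0 : (Q.map π) b c = (xx ^ 2 - 1) * (LKr M C 1 xx (h b)).1 ⟨e s, hes⟩ c := by
      show π ((Matrix.vecMul f0 (LKr M C qq ll (h b)).1) c) = _
      rw [Matrix.vecMul, dotProduct, map_sum, Finset.sum_eq_single ⟨e s, hes⟩]
      · rw [map_mul, hf0, if_pos rfl]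
        congr 1
        have e1 := hmap R2 K1 (π : R2 →+* K1) qq ll qq_unit ll_unit (h b)
        have e2 : (π : R2 →+* K1) qq = 1 := hπq
        have e3 : (π : R2 →+* K1) ll = xx := hπl
        rw [e2, e3] at e1
        rw [e1]
        rfl
      · intro d _ hd
        rw [map_mul, hf0, if_neg fun h' => hd (Subtype.ext h'), zero_mul]
      · intro h'
        exact absurd (Finset.mem_univ _) h'
    have e1 : (LKr M C 1 xx (h b)).1 ⟨e s, hes⟩ b = xx ^ k b := by
      rw [← Irr_col (LKr M C 1 xx (h b)).1 ⟨e s, hes⟩ b, hk b]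
      show xx ^ k b * (if (e s : Fin n → ℤ) = e s then (1 : K1) else 0) = _
      rw [if_pos rfl, mul_one]
    rw [e0]
    by_cases hbc : b = c
    · subst hbc
      rw [e1, Matrix.diagonal_apply_eq]
    · rw [Matrix.diagonal_apply_ne _ hbc]
      obtain ⟨σ, m, hσ⟩ := hmon (h b)
      have e2 : ∀ c : PR M C, (LKr M C 1 xx (h b)).1 ⟨e s, hes⟩ c =
          xx ^ m c * (if (e s : Fin n → ℤ) = (σ c).1 then (1 : K1) else 0) := by
        intro c
        rw [← Irr_col (LKr M C 1 xx (h b)).1 ⟨e s, hes⟩ c, hσ c]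
        rfl
      have e3 : (e s : Fin n → ℤ) = (σ b).1 := by
        by_contra h'
        have e4 := e2 b
        rw [e1, if_neg h', mul_zero] at e4
        exact zpow_ne_zero _ Irr_xx0 e4
      have e4 : ¬ (e s : Fin n → ℤ) = (σ c).1 := fun h' =>
        hbc (σ.injective (Subtype.ext (e3.symm.trans h')))
      rw [e2, if_neg e4, mul_zero, mul_zero]
  have hdet : Q.det ≠ 0 := by
    intro h0
    have e1 : π Q.det = (Q.map π).det := by
      rw [AlgHom.map_det]
      rfl
    rw [h0, map_zero, hQ2, Matrix.det_diagonal] at e1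
    exact Finset.prod_ne_zero_iff.2
      (fun b _ => mul_ne_zero Irr_xx (zpow_ne_zero _ Irr_xx0)) e1.symm
  have hfin : algebraMap R2 K2 Q.det = (Q.map (algebraMap R2 K2)).det := by
    rw [RingHom.map_det]
    rfl
  rw [← hfin]
  exact fun h' => hdet (hinj (h'.trans (map_zero _).symm))

end Pool.Agent.Lib.MP_97567f_al
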