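import Pool.Agent.Lib.MP_97567f_al.SpecG

/-!
# MP_97567f_al, module KerQ: the line `q = 1`
-/

set_option autoImplicit false

namespace Pool.Agent.Lib.MP_97567f_al

open Polynomial

private theorem KerQ_xx : xx ≠ 0 := by
  unfold xx
  rw [Ne, map_eq_zero_iff _ (IsFractionRing.injective ℂ[X] K1)]
  exact X_ne_zero

private theorem KerQ_aeval (r : ℂ[X]) : aeval xx r = algebraMap ℂ[X] K1 r := by
  unfold xx
  rw [aeval_algebraMap_apply, aeval_X_left_apply]

private theorem KerQ_surj (x : R2) : ∃ (k : ℕ) (p : P2), x * (qq * ll) ^ k = algebraMap P2 R2 p := by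
  obtain ⟨k, p, h⟩ := IsLocalization.Away.surj (MvPolynomial.X 0 * MvPolynomial.X 1 : P2) x
  refine ⟨k, p, ?_⟩
  rw [← h, map_mul]
  rfl

private theorem KerQ_ne : qq - 1 ≠ 0 := by
  intro h
  obtain ⟨φ, h1, _⟩ := R2_lift (S := ℂ) (IsUnit.mk0 2 two_ne_zero) (IsUnit.mk0 1 one_ne_zero)
  have h2 := congrArg φ h
  rw [map_sub, h1, map_one, map_zero] at h2
  norm_num at h2

theorem pKerQ : SKerQ := by
  obtain ⟨π, hq, hl⟩ := R2_lift (S := K1) (a := 1) (b := xx) isUnit_one (IsUnit.mk0 _ KerQ_xx)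
  have key : ∀ x, π x = 0 → x ∈ Ideal.span {qq - 1} := by
    intro x hx
    obtain ⟨k, p, hp⟩ := KerQ_surj x
    obtain ⟨B, hB⟩ : ∃ B : P2 →ₐ[ℂ] ℂ[X], B = MvPolynomial.aeval ![1, X] := ⟨_, rfl⟩
    -- the image in `K1`
    have h1 : ∀ p : P2, π (algebraMap P2 R2 p) = aeval xx (B p) := by
      intro p
      have e : (π.comp (IsScalarTower.toAlgHom ℂ P2 R2)) = ((aeval xx : ℂ[X] →ₐ[ℂ] K1).comp B) := by
        apply MvPolynomial.algHom_ext
        intro i
        rw [hB]
        fin_cases i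
        · simpa [qq] using hq
        · simpa [ll] using hl
      exact congrArg (fun f => f p) e
    have h2 : B p = 0 := by
      have h3 : π (algebraMap P2 R2 p) = 0 := by
        rw [← hp, map_mul, hx, zero_mul]
      rw [h1, KerQ_aeval, map_eq_zero_iff _ (IsFractionRing.injective ℂ[X] K1)] at h3
      exact h3
    -- the image in the quotient
    have h4 : ∀ p : P2, Ideal.Quotient.mkₐ ℂ (Ideal.span {qq - 1}) (algebraMap P2 R2 p) =
        aeval (Ideal.Quotient.mkₐ ℂ (Ideal.span {qq - 1}) ll) (B p) := by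
      intro p
      have e : ((Ideal.Quotient.mkₐ ℂ (Ideal.span {qq - 1})).comp
          (IsScalarTower.toAlgHom ℂ P2 R2)) =
          ((aeval (Ideal.Quotient.mkₐ ℂ (Ideal.span {qq - 1}) ll)).comp B) := by
        apply MvPolynomial.algHom_ext
        intro i
        rw [hB]
        fin_cases i
        · have h5 : Ideal.Quotient.mkₐ ℂ (Ideal.span {qq - 1}) (qq - 1) = 0 :=
            Ideal.Quotient.eq_zero_iff_mem.2 (Ideal.mem_span_singleton_self _)
          rw [map_sub, map_one, sub_eq_zero] at h5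
          change Ideal.Quotient.mkₐ ℂ (Ideal.span {qq - 1}) qq =
            aeval (Ideal.Quotient.mkₐ ℂ (Ideal.span {qq - 1}) ll)
              (MvPolynomial.aeval ![1, X] (MvPolynomial.X 0))
          rw [MvPolynomial.aeval_X, Matrix.cons_val_zero, map_one, h5]
        · simp [ll]
      exact congrArg (fun f => f p) e
    have h5 : algebraMap P2 R2 p ∈ Ideal.span {qq - 1} := by
      rw [← Ideal.Quotient.eq_zero_iff_mem]
      have h6 := h4 p
      rw [h2, map_zero] at h6
      exact h6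
    rw [← hp] at h5
    exact (Ideal.mul_unit_mem_iff_mem _ (qqll_unit.pow k)).1 h5
  refine ⟨π, hq, hl, key, ?_⟩
  rw [← Ideal.span_singleton_prime KerQ_ne]
  have h6 : Ideal.span {qq - 1} = RingHom.ker (π : R2 →+* K1) := by
    refine le_antisymm ?_ fun x hx => key x hx
    rw [Ideal.span_singleton_le_iff_mem, RingHom.mem_ker]
    change π (qq - 1) = 0
    rw [map_sub, hq, map_one, sub_self]
  rw [h6]
  exact RingHom.ker_isPrime _

end Pool.Agent.Lib.MP_97567f_al
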