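import Pool.Agent.Lib.MP_97567f_al.SpecZ

/-!
# MP_97567f_al: the kernel is trivial
-/

set_option autoImplicit false

namespace Pool.Agent.Lib.MP_97567f_al

private theorem Kill_single {n : ℕ} (M : CoxeterMatrix (Fin n)) (C : Finset (Fin n)) {R : Type}
    [CommRing R] (b : PR M C) : (Pi.single b 1 : PR M C → R) = xv M C b.1 := by
  funext g
  unfold xv
  by_cases h : g = b
  · rw [h, Pi.single_eq_same, if_pos rfl]
  · rw [Pi.single_eq_of_ne h, if_neg fun h' => h (Subtype.ext h')]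

private theorem Kill_ext {n : ℕ} (M : CoxeterMatrix (Fin n)) (C : Finset (Fin n)) {R : Type}
    [CommRing R] (b : Fin n → ℤ) (hb : b ∈ roots M C) :
    ext0 M C (xv M C b : PR M C → R) = xv M Finset.univ b := by
  funext g
  unfold ext0 xv
  by_cases h : g.1 ∈ roots M C
  · rw [dif_pos h]
  · have h1 : g.1 ≠ b := by
      rintro h'
      rw [h'] at h
      exact h hb
    rw [dif_neg h, if_neg h1]

theorem pKill (h1 : SRestr) (h2 : SSca) (h3 : SFai) (h4 : SLkA) : SKill := by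
  intro n M hM hR hF z hz hφ
  have h5 : ∀ s, LKr M (cmp M s) qq ll z = 1 := fun s =>
    h2 n M hM hR hF (cmp M s) (hR.c.cmps s).1 (hR.c.cmps s).2.1 ⟨s, (hR.c.cmps s).2.2⟩ z (hz s) hφ
  have h6 : LKr M Finset.univ qq ll z = 1 := by
    apply Units.ext
    apply Matrix.ext_of_mulVec_single
    intro b
    rw [Kill_single, Units.val_one, Matrix.one_mulVec]
    have hb : Rt M b.1 := (((h4 n M hR Finset.univ).1 b.1).1 b.2).1
    obtain ⟨s, hs⟩ := hR.c.suppc b.1 hb
    have hb' : b.1 ∈ roots M (cmp M s) := ((h4 n M hR (cmp M s)).1 b.1).2 ⟨hb, hs⟩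
    rw [← Kill_ext M (cmp M s) b.1 hb', h1 n M hM hR hF (cmp M s) (hR.c.cmps s).1 R2 qq ll
      qq_unit ll_unit, h5 s, Units.val_one, Matrix.one_mulVec]
  exact h3 n M hM hR hF (h6.trans (map_one _).symm)

end Pool.Agent.Lib.MP_97567f_al
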