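import Pool.Agent.Lib.MP_97567f_al.SpecR

/-!
# MP_97567f_al: the Lawrence-Krammer representation exists (`SLKr`)
-/

set_option autoImplicit false

namespace Pool.Agent.Lib.MP_97567f_al

variable {n : ℕ}

private theorem LKr_xv (M : CoxeterMatrix (Fin n)) (C : Finset (Fin n)) {R R' : Type} [CommRing R]
    [CommRing R'] (φ : R →+* R') (b : Fin n → ℤ) (g : PR M C) :
    xv M C (R := R') b g = φ (xv M C b g) := by
  unfold xv
  split_ifs
  · rw [map_one]
  · rw [map_zero]

private theorem LKr_img (M : CoxeterMatrix (Fin n)) (C : Finset (Fin n)) {R R' : Type} [CommRing R]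
    [CommRing R'] (φ : R →+* R') (q l : R) (s : Fin n) (b : Fin n → ℤ) (g : PR M C) :
    img M C (φ q) (φ l) s b g = φ (img M C q l s b g) := by
  have h1 : ∀ p : Polynomial ℤ, Polynomial.aeval (φ q) p = φ (Polynomial.aeval q p) := fun p =>
    Polynomial.aeval_algHom_apply φ.toIntAlgHom q p
  unfold img
  rw [h1]
  split_ifs <;>
    simp only [Pi.add_apply, Pi.smul_apply, smul_eq_mul, map_add, map_mul, map_sub, map_one,
      LKr_xv M C φ]

private theorem LKr_lk (M : CoxeterMatrix (Fin n)) (C : Finset (Fin n)) {R R' : Type} [CommRing R]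
    [CommRing R'] (φ : R →+* R') (q l : R) (s : Fin n) :
    lk M C (φ q) (φ l) s = (lk M C q l s).map φ := by
  ext g b
  exact LKr_img M C φ q l s b.1 g

theorem pLKr (h1 : SLkC) (h2 : SLkB) (h3 : SLkQ) : SLKr := by
  intro n M hM hR hF C hC
  have key : ∀ (R : Type) [CommRing R] (q l : R), IsUnit q → IsUnit l →
      ∀ s, (LKr M C q l (gn M s)).1 = lk M C q l s := by
    intro R _ q l hq hl
    have hu := (h3 n M hR C hC R q l).2 hq hl
    have hex : ∃ ρ : Art M →* GL (PR M C) R, ∀ s, (ρ (gn M s)).1 = lk M C q l s := by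
      obtain ⟨ρ, hρ⟩ := art_lift hM.sl (G := GL (PR M C) R) (fun s => (hu s).unit)
        (fun s t hst hn => by
          apply Units.ext
          rw [Units.val_mul, Units.val_mul, IsUnit.unit_spec, IsUnit.unit_spec]
          exact h1 n M hR hF C hC R q l s t hst hn)
        (fun s t hst => by
          apply Units.ext
          rw [Units.val_mul, Units.val_mul, Units.val_mul, Units.val_mul, IsUnit.unit_spec,
            IsUnit.unit_spec]
          exact h2 n M hR hF C hC R q l s t hst)
      refine ⟨ρ, fun s => ?_⟩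
      rw [hρ]
      exact IsUnit.unit_spec _
    unfold LKr
    rw [dif_pos hex]
    exact hex.choose_spec
  refine ⟨key, ?_⟩
  intro R R' _ _ φ q l hq hl x
  have h4 : LKr M C (φ q) (φ l) = (Matrix.GeneralLinearGroup.map φ).comp (LKr M C q l) := by
    refine art_ext fun s => ?_
    apply Units.ext
    rw [key R' (φ q) (φ l) (hq.map φ) (hl.map φ) s, LKr_lk]
    rw [← key R q l hq hl s]
    rfl
  rw [h4]
  rfl

end Pool.Agent.Lib.MP_97567f_al
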