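import Pool.Agent.Lib.MP_97567f_al.SpecR

/-!
# MP_97567f_al: the action on basis vectors (SLkA)
-/

set_option autoImplicit false

namespace Pool.Agent.Lib.MP_97567f_al

variable {n : ℕ} {M : CoxeterMatrix (Fin n)}

private theorem LkA_mem (hF : RF M) (C : Finset (Fin n)) (b : Fin n → ℤ) :
    b ∈ roots M C ↔ Rt M b ∧ ∀ i, i ∉ C → b i = 0 := by
  unfold roots
  rw [dif_pos (hF.b.fin C), Set.Finite.mem_toFinset]
  exact Iff.rfl

private theorem LkA_e_ne {i s : Fin n} (h : i ≠ s) : e s i = 0 := Pi.single_eq_of_ne h _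

private theorem LkA_e_self (s : Fin n) : e s s = 1 := Pi.single_eq_same _ _

theorem pLkA : SLkA := by
  intro n M hF C
  have hmem := LkA_mem hF C
  have hse : ∀ s, e s ∈ roots M C ↔ s ∈ C := by
    intro s
    rw [hmem]
    constructor
    · rintro ⟨_, h⟩
      by_contra hs
      have := h s hs
      rw [LkA_e_self] at this
      exact one_ne_zero this
    · intro hs
      exact ⟨hF.a.simple s, fun i hi => LkA_e_ne fun h => hi (h ▸ hs)⟩
  have hup : ∀ b ∈ roots M C, ∀ s, pr M b s = -1 → s ∈ C → b + e s ∈ roots M C := by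
    intro b hb s h1 hs
    rw [hmem] at hb ⊢
    refine ⟨hF.a.up b s hb.1 h1, fun i hi => ?_⟩
    have hne : e s i = 0 := LkA_e_ne fun h => hi (h ▸ hs)
    rw [Pi.add_apply, hb.2 i hi, hne, add_zero]
  have hdown : ∀ b ∈ roots M C, ∀ s, pr M b s = 1 → b - e s ∈ roots M C := by
    intro b hb s h1
    rw [hmem] at hb ⊢
    have hs : s ∈ C := by
      by_contra hs
      have h2 := hF.a.coord b s hb.1 h1
      rw [hb.2 s hs] at h2
      omega
    refine ⟨hF.a.down b s hb.1 h1, fun i hi => ?_⟩
    have hne : e s i = 0 := LkA_e_ne fun h => hi (h ▸ hs)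
    rw [Pi.sub_apply, hb.2 i hi, hne, sub_zero]
  refine ⟨hmem, hup, hdown, hse, fun R _ q l => ⟨fun s b hb => ?_, fun s hs => ?_, fun v => ?_,
    fun hC s hs => ?_⟩⟩
  · funext g
    unfold Matrix.mulVec dotProduct
    rw [Finset.sum_eq_single ⟨b, hb⟩]
    · change img M C q l s b g * (if b = b then (1 : R) else 0) = _
      rw [if_pos rfl, mul_one]
    · intro g' _ hg'
      have : xv M C (R := R) b g' = 0 := by
        unfold xv
        rw [if_neg]
        intro h
        exact hg' (Subtype.ext h)
      rw [this, mul_zero]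
    · intro h
      exact absurd (Finset.mem_univ _) h
  · funext g
    unfold xv
    rw [if_neg]
    · rfl
    · intro h
      exact hs ((hse s).1 (h ▸ g.2))
  · funext g
    rw [Finset.sum_apply, Finset.sum_eq_single g]
    · simp only [Pi.smul_apply, xv, if_true, smul_eq_mul, mul_one]
    · intro g' _ hg'
      have : xv M C (R := R) g'.1 g = 0 := by
        unfold xv
        rw [if_neg]
        intro h
        exact hg' (Subtype.ext h.symm)
      rw [Pi.smul_apply, this, smul_zero]
    · intro h
      exact absurd (Finset.mem_univ _) h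
  · funext g b
    have hb := (hmem b.1).1 b.2
    have h0 : pr M b.1 s = 0 := hF.c.sat C b.1 s hC hb.2 hs
    have hne : b.1 ≠ e s := by
      intro h
      exact hs ((hse s).1 (h ▸ b.2))
    have hx : xv M C (R := R) (e s) = 0 := by
      funext g
      unfold xv
      rw [if_neg]
      · rfl
      · intro h
        exact hs ((hse s).1 (h ▸ g.2))
    change img M C q l s b.1 g = _
    unfold img
    rw [if_neg hne, h0, if_neg (by norm_num), if_neg (by norm_num), hx, smul_zero, add_zero]
    unfold xv
    rw [Matrix.one_apply]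
    by_cases h : g = b
    · rw [if_pos (congrArg Subtype.val h), if_pos h]
    · rw [if_neg fun h' => h (Subtype.ext h'), if_neg h]

end Pool.Agent.Lib.MP_97567f_al
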