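import Pool.Agent.Lib.MP_97567f_al.SpecR

/-!
# MP_97567f_al: the braid relation for the Lawrence-Krammer matrices
-/

set_option autoImplicit false

namespace Pool.Agent.Lib.MP_97567f_al

/-- The abstract computation. -/
private theorem LkB_abs {R V : Type} [CommRing R] [AddCommGroup V] [Module R V] (q l : R)
    (P Q : V →ₗ[R] V) (f g : V →ₗ[R] R) (a b c : V)
    (h1 : ∀ x, P (Q (P x)) = Q (P (Q x))) (h2 : ∀ x, g (P x) = f (Q x))
    (h3 : ∀ x, f (Q (P x)) = (1 - q) * f (Q x) + q * g x)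
    (h3' : ∀ x, g (P (Q x)) = (1 - q) * g (P x) + q * f x)
    (e1 : P a = 0) (e2 : Q b = 0) (e3 : P b = c + (1 - q) • b) (e4 : Q a = c + (1 - q) • a)
    (e5 : P c = q • b) (e6 : Q c = q • a) (k1 : f a = l) (k2 : g b = l) (k3 : f b = 0)
    (k4 : g a = 0) (G H : V →ₗ[R] V) (hG : ∀ x, G x = P x + f x • a)
    (hH : ∀ x, H x = Q x + g x • b) (x : V) : G (H (G x)) = H (G (H x)) := by
  have fc : f c = -((1 - q) * l) := by
    have := h2 a
    rw [e1, map_zero, e4, map_add, map_smul, k1, smul_eq_mul] at this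
    linear_combination -this
  have gc : g c = -((1 - q) * l) := by
    have := h2 b
    rw [e2, map_zero, e3, map_add, map_smul, k2, smul_eq_mul] at this
    linear_combination this
  simp only [hG, hH, map_add, map_smul, e1, e2, e3, e4, e5, e6, smul_eq_mul, k1, k2, k3, k4, fc, gc,
    h3, h3', h2, h1, smul_zero, mul_zero, add_zero, smul_add, smul_smul]
  module

/-- The braid relation on a triple. -/
private theorem LkB_tri {R V : Type} [CommRing R] [AddCommGroup V] [Module R V] (q : R)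
    (P Q : V →ₗ[R] V) (c0 c1 c2 : V) (p0 : P c0 = c1 + (1 - q) • c0) (p1 : P c1 = q • c0)
    (p2 : P c2 = c2) (q0 : Q c0 = c0) (q1 : Q c1 = c2 + (1 - q) • c1) (q2 : Q c2 = q • c1) :
    P (Q (P c0)) = Q (P (Q c0)) ∧ P (Q (P c1)) = Q (P (Q c1)) ∧ P (Q (P c2)) = Q (P (Q c2)) := by
  refine ⟨?_, ?_, ?_⟩
  · simp only [p0, p1, p2, q0, q1, q2, map_add, map_smul]
    module
  · simp only [p0, p1, p2, q0, q1, q2, map_add, map_smul]
    module
  · simp only [p0, p1, p2, q0, q1, q2, map_add, map_smul]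

section

variable {n : ℕ} (M : CoxeterMatrix (Fin n)) (C : Finset (Fin n)) {R : Type} [CommRing R] (q l : R)

/-- The part of `img` without the last term. -/
private noncomputable def LkB_phi (s : Fin n) (b : Fin n → ℤ) : PR M C → R :=
  if b = e s then 0
  else if pr M b s = -1 then xv M C (b + e s) + (1 - q) • xv M C b
    else if pr M b s = 1 then q • xv M C (b - e s) else xv M C b

private noncomputable def LkB_P (s : Fin n) : (PR M C → R) →ₗ[R] (PR M C → R) :=
  Fintype.linearCombination R fun b : PR M C => LkB_phi M C q s b.1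

private noncomputable def LkB_f (s : Fin n) : (PR M C → R) →ₗ[R] R :=
  Fintype.linearCombination R fun b : PR M C =>
    if b.1 = e s then l else l * Polynomial.aeval q (fh M s b.1)

private theorem LkB_xv (b : PR M C) : xv M C (R := R) b.1 = Pi.single b 1 := by
  classical
  ext g
  rw [xv, Pi.single_apply]
  by_cases h : g = b
  · rw [if_pos h, if_pos (by rw [h])]
  · rw [if_neg h, if_neg (fun h' => h (Subtype.ext h'))]

private theorem LkB_Px (s : Fin n) {b : Fin n → ℤ} (hb : b ∈ roots M C) :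
    LkB_P M C q s (xv M C b) = LkB_phi M C q s b := by
  classical
  rw [LkB_xv M C (R := R) ⟨b, hb⟩, LkB_P, Fintype.linearCombination_apply_single, one_smul]

private theorem LkB_fx (s : Fin n) {b : Fin n → ℤ} (hb : b ∈ roots M C) :
    LkB_f M C q l s (xv M C b) = if b = e s then l else l * Polynomial.aeval q (fh M s b) := by
  classical
  rw [LkB_xv M C (R := R) ⟨b, hb⟩, LkB_f, Fintype.linearCombination_apply_single, one_smul]

private theorem LkB_ext (hv : ∀ v : PR M C → R, v = ∑ b, v b • xv M C b.1) {W : Type}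
    [AddCommGroup W] [Module R W] (A B : (PR M C → R) →ₗ[R] W)
    (h : ∀ b ∈ roots M C, A (xv M C b) = B (xv M C b)) (v : PR M C → R) : A v = B v := by
  rw [hv v, map_sum, map_sum]
  refine Finset.sum_congr rfl fun b _ => ?_
  rw [map_smul, map_smul, h b.1 b.2]

private theorem LkB_lk (s : Fin n) (hv : ∀ v : PR M C → R, v = ∑ b, v b • xv M C b.1)
    (himg : ∀ b ∈ roots M C, (lk M C q l s).mulVec (xv M C b) = img M C q l s b)
    (v : PR M C → R) :
    (lk M C q l s).mulVec v = LkB_P M C q s v + LkB_f M C q l s v • xv M C (e s) := by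
  have h := LkB_ext M C hv ((lk M C q l s).mulVecLin)
    (LkB_P M C q s + (LkB_f M C q l s).smulRight (xv M C (e s))) (fun b hb => ?_) v
  · exact h
  · rw [Matrix.mulVecLin_apply, himg b hb, LinearMap.add_apply, LinearMap.smulRight_apply,
      LkB_Px M C q s hb, LkB_fx M C q l s hb]
    unfold img LkB_phi
    by_cases h : b = e s
    · rw [if_pos h, if_pos h, if_pos h, zero_add]
    · rw [if_neg h, if_neg h, if_neg h]

end

section

variable {n : ℕ} {M : CoxeterMatrix (Fin n)} {C : Finset (Fin n)} {R : Type} [CommRing R] (q l : R)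
  (hRF : RF M)
  (hup : ∀ b ∈ roots M C, ∀ s, pr M b s = -1 → s ∈ C → b + e s ∈ roots M C)
  (hdn : ∀ b ∈ roots M C, ∀ s, pr M b s = 1 → b - e s ∈ roots M C)
  (hrt : ∀ b ∈ roots M C, Rt M b)

include hRF

private theorem LkB_ne {b : Fin n → ℤ} {s : Fin n} (h : pr M b s ≠ 2) : b ≠ e s := by
  rintro rfl
  exact h (hRF.a.pre s)

private theorem LkB_self (s : Fin n) (hb : e s ∈ roots M C) :
    LkB_P M C q s (xv M C (e s)) = 0 := by
  rw [LkB_Px M C q s hb, LkB_phi, if_pos rfl]

private theorem LkB_neg {b : Fin n → ℤ} {s : Fin n} (hb : b ∈ roots M C) (h : pr M b s = -1) :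
    LkB_P M C q s (xv M C b) = xv M C (b + e s) + (1 - q) • xv M C b := by
  rw [LkB_Px M C q s hb, LkB_phi, if_neg (LkB_ne hRF (by rw [h]; norm_num)), if_pos h]

private theorem LkB_pos {b : Fin n → ℤ} {s : Fin n} (hb : b ∈ roots M C) (h : pr M b s = 1) :
    LkB_P M C q s (xv M C b) = q • xv M C (b - e s) := by
  rw [LkB_Px M C q s hb, LkB_phi, if_neg (LkB_ne hRF (by rw [h]; norm_num)),
    if_neg (by rw [h]; norm_num), if_pos h]

private theorem LkB_zero {b : Fin n → ℤ} {s : Fin n} (hb : b ∈ roots M C) (h : pr M b s = 0) :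
    LkB_P M C q s (xv M C b) = xv M C b := by
  rw [LkB_Px M C q s hb, LkB_phi, if_neg (LkB_ne hRF (by rw [h]; norm_num)),
    if_neg (by rw [h]; norm_num), if_neg (by rw [h]; norm_num)]

private theorem LkB_fval {b : Fin n → ℤ} {s : Fin n} (hb : b ∈ roots M C) (h : pr M b s ≠ 2) :
    LkB_f M C q l s (xv M C b) = l * Polynomial.aeval q (fh M s b) := by
  rw [LkB_fx M C q l s hb, if_neg (LkB_ne hRF h)]

include hup

/-- the triple starting with `b` -/
private theorem LkB_braidA {b : Fin n → ℤ} {s t : Fin n} (hst : adj M s t) (hs : s ∈ C)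
    (ht : t ∈ C) (hb : b ∈ roots M C) (h1 : pr M b s = -1) (h2 : pr M b t = 0) :
    (∀ c, c = b ∨ c = b + e s ∨ c = b + e s + e t →
      LkB_P M C q s (LkB_P M C q t (LkB_P M C q s (xv M C c))) =
        LkB_P M C q t (LkB_P M C q s (LkB_P M C q t (xv M C c)))) := by
  have a1 := hup b hb s h1 hs
  have g1 : pr M (b + e s) s = 1 := by
    rw [hRF.a.pr_add, hRF.a.pre, h1]; norm_num
  have g2 : pr M (b + e s) t = -1 := by
    rw [hRF.a.pr_add, hRF.a.pra s t hst, h2]; norm_num
  have a2 := hup _ a1 t g2 ht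
  have k1 : pr M (b + e s + e t) s = 0 := by
    rw [hRF.a.pr_add, hRF.a.pra t s (adj_symm hst), g1]; norm_num
  have k2 : pr M (b + e s + e t) t = 1 := by
    rw [hRF.a.pr_add, hRF.a.pre, g2]; norm_num
  have p0 := LkB_neg q hRF hb h1
  have p1 := LkB_pos q hRF a1 g1
  have p2 := LkB_zero q hRF a2 k1
  have q0 := LkB_zero q hRF hb h2
  have q1 := LkB_neg q hRF a1 g2
  have q2 := LkB_pos q hRF a2 k2
  rw [add_sub_cancel_right] at p1 q2
  obtain ⟨r0, r1, r2⟩ := LkB_tri q (LkB_P M C q s) (LkB_P M C q t) _ _ _ p0 p1 p2 q0 q1 q2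
  rintro c (rfl | rfl | rfl)
  exacts [r0, r1, r2]

private theorem LkB_braidB {s t : Fin n} (hst : adj M s t) (ht : t ∈ C)
    (hes : e s ∈ roots M C) (het : e t ∈ roots M C) :
    LkB_P M C q s (xv M C (e s)) = 0 ∧
    LkB_P M C q t (xv M C (e s)) = xv M C (e s + e t) + (1 - q) • xv M C (e s) ∧
    LkB_P M C q s (xv M C (e s + e t)) = q • xv M C (e t) := by
  have h1 : pr M (e s) t = -1 := hRF.a.pra s t hst
  have a1 := hup _ hes t h1 ht
  have g1 : pr M (e s + e t) s = 1 := by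
    rw [hRF.a.pr_add, hRF.a.pre, hRF.a.pra t s (adj_symm hst)]; norm_num
  refine ⟨LkB_self q hRF s hes, LkB_neg q hRF hes h1, ?_⟩
  rw [LkB_pos q hRF a1 g1, add_sub_cancel_left]

include hdn hrt

private theorem LkB_braid {b : Fin n → ℤ} {s t : Fin n} (hst : adj M s t) (hs : s ∈ C)
    (ht : t ∈ C) (hes : e s ∈ roots M C) (het : e t ∈ roots M C) (hb : b ∈ roots M C) :
    LkB_P M C q s (LkB_P M C q t (LkB_P M C q s (xv M C b))) =
      LkB_P M C q t (LkB_P M C q s (LkB_P M C q t (xv M C b))) := by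
  have hts := adj_symm hst
  obtain ⟨b1, b2, b3⟩ := LkB_braidB q hRF hup hst ht hes het
  obtain ⟨c1, c2, c3⟩ := LkB_braidB q hRF hup hts hs het hes
  rw [add_comm (e t) (e s)] at c2 c3
  by_cases hbs : b = e s
  · subst hbs
    rw [b1, b2, map_zero, map_zero, map_add, map_smul, b1, smul_zero, add_zero, b3, map_smul, c1,
      smul_zero]
  by_cases hbt : b = e t
  · subst hbt
    rw [c1, c2, map_zero, map_zero, map_add, map_smul, c1, smul_zero, add_zero, c3, map_smul, b1,
      smul_zero]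
  rcases hRF.a.bnd b s (hrt b hb) hbs with h1 | h1 | h1 <;>
    rcases hRF.a.bnd b t (hrt b hb) hbt with h2 | h2 | h2
  · exact (hRF.b.nomm b s t (hrt b hb) hst h1 h2).elim
  · exact LkB_braidA q hRF hup hst hs ht hb h1 h2 b (Or.inl rfl)
  · have g1 : pr M (b - e t) t = -1 := by rw [hRF.a.pr_sub, hRF.a.pre, h2]; norm_num
    have g2 : pr M (b - e t) s = 0 := by rw [hRF.a.pr_sub, hRF.a.pra t s hts, h1]; norm_num
    exact (LkB_braidA q hRF hup hts ht hs (hdn b hb t h2) g1 g2 b
      (Or.inr (Or.inl (by rw [sub_add_cancel])))).symm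
  · exact (LkB_braidA q hRF hup hts ht hs hb h2 h1 b (Or.inl rfl)).symm
  · rw [LkB_zero q hRF hb h1, LkB_zero q hRF hb h2, LkB_zero q hRF hb h1, LkB_zero q hRF hb h2]
  · have a1 := hdn b hb t h2
    have g1 : pr M (b - e t) t = -1 := by rw [hRF.a.pr_sub, hRF.a.pre, h2]; norm_num
    have g2 : pr M (b - e t) s = 1 := by rw [hRF.a.pr_sub, hRF.a.pra t s hts, h1]; norm_num
    have a2 := hdn _ a1 s g2
    have k1 : pr M (b - e t - e s) s = -1 := by rw [hRF.a.pr_sub, hRF.a.pre, g2]; norm_num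
    have k2 : pr M (b - e t - e s) t = 0 := by
      rw [hRF.a.pr_sub, hRF.a.pra s t hst, g1]; norm_num
    exact LkB_braidA q hRF hup hst hs ht a2 k1 k2 b (Or.inr (Or.inr (by abel)))
  · have g1 : pr M (b - e s) s = -1 := by rw [hRF.a.pr_sub, hRF.a.pre, h1]; norm_num
    have g2 : pr M (b - e s) t = 0 := by rw [hRF.a.pr_sub, hRF.a.pra s t hst, h2]; norm_num
    exact LkB_braidA q hRF hup hst hs ht (hdn b hb s h1) g1 g2 b
      (Or.inr (Or.inl (by rw [sub_add_cancel])))
  · have a1 := hdn b hb s h1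
    have g1 : pr M (b - e s) s = -1 := by rw [hRF.a.pr_sub, hRF.a.pre, h1]; norm_num
    have g2 : pr M (b - e s) t = 1 := by rw [hRF.a.pr_sub, hRF.a.pra s t hst, h2]; norm_num
    have a2 := hdn _ a1 t g2
    have k1 : pr M (b - e s - e t) t = -1 := by rw [hRF.a.pr_sub, hRF.a.pre, g2]; norm_num
    have k2 : pr M (b - e s - e t) s = 0 := by
      rw [hRF.a.pr_sub, hRF.a.pra t s hts, g1]; norm_num
    exact (LkB_braidA q hRF hup hts ht hs a2 k1 k2 b (Or.inr (Or.inr (by abel)))).symm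
  · have h3 := hRF.b.pp b s t (hrt b hb) hst h1 h2
    subst h3
    simp only [b3, c3, map_smul, b1, c1, smul_zero, map_zero]

/-- the quadratic relation -/
private theorem LkB_quad {b : Fin n → ℤ} {s : Fin n} (hs : s ∈ C) (hb : b ∈ roots M C)
    (hbs : b ≠ e s) : LkB_P M C q s (LkB_P M C q s (xv M C b)) =
      (1 - q) • LkB_P M C q s (xv M C b) + q • xv M C b := by
  rcases hRF.a.bnd b s (hrt b hb) hbs with h1 | h1 | h1
  · have a1 := hup b hb s h1 hs
    have g1 : pr M (b + e s) s = 1 := by rw [hRF.a.pr_add, hRF.a.pre, h1]; norm_num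
    have p1 := LkB_pos q hRF a1 g1
    rw [add_sub_cancel_right] at p1
    rw [LkB_neg q hRF hb h1, map_add, map_smul, p1, LkB_neg q hRF hb h1]
    module
  · rw [LkB_zero q hRF hb h1, LkB_zero q hRF hb h1]
    module
  · have a1 := hdn b hb s h1
    have g1 : pr M (b - e s) s = -1 := by rw [hRF.a.pr_sub, hRF.a.pre, h1]; norm_num
    have p1 := LkB_neg q hRF a1 g1
    rw [sub_add_cancel] at p1
    rw [LkB_pos q hRF hb h1, map_smul, p1]
    module

variable (hFH : FH M (fh M))

include hFH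

private theorem LkB_f0 {s t : Fin n} (hst : adj M s t) (hes : e s ∈ roots M C) :
    LkB_f M C q l t (xv M C (e s)) = 0 := by
  rw [LkB_fval q l hRF hes (by rw [hRF.a.pra s t hst]; norm_num),
    hFH.simple t s (adj_ne hst).symm, map_zero, mul_zero]

/-- the relation of the functionals, one half of the cases -/
private theorem LkB_relA {b : Fin n → ℤ} {s t : Fin n} (hst : adj M s t) (hs : s ∈ C)
    (htC : t ∈ C) (hes : e s ∈ roots M C) (het : e t ∈ roots M C) (hb : b ∈ roots M C)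
    (h : b = e s ∨ (pr M b s = 1 ∧ pr M b t = 1) ∨ (pr M b s = 0 ∧ pr M b t = 0) ∨
      (pr M b s = -1 ∧ pr M b t = 0) ∨ (pr M b s = 1 ∧ pr M b t = 0) ∨
      (pr M b s = 1 ∧ pr M b t = -1)) :
    LkB_f M C q l t (LkB_P M C q s (xv M C b)) = LkB_f M C q l s (LkB_P M C q t (xv M C b)) := by
  have hts := adj_symm hst
  obtain ⟨b1, b2, b3⟩ := LkB_braidB q hRF hup hst htC hes het
  obtain ⟨c1, c2, c3⟩ := LkB_braidB q hRF hup hts hs het hes
  rw [add_comm (e t) (e s)] at c2 c3
  have fs : LkB_f M C q l s (xv M C (e s)) = l := by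
    rw [LkB_fx M C q l s hes, if_pos rfl]
  have ft : LkB_f M C q l t (xv M C (e t)) = l := by
    rw [LkB_fx M C q l t het, if_pos rfl]
  rcases h with rfl | ⟨h1, h2⟩ | ⟨h1, h2⟩ | ⟨h1, h2⟩ | ⟨h1, h2⟩ | ⟨h1, h2⟩
  · have a1 := hup _ hes t (hRF.a.pra s t hst) htC
    have g1 : pr M (e s + e t) s = 1 := by
      rw [hRF.a.pr_add, hRF.a.pre, hRF.a.pra t s hts]; norm_num
    rw [b1, b2, map_zero, map_add, map_smul, fs, smul_eq_mul,
      LkB_fval q l hRF a1 (by omega), hFH.one s _ (hrt _ a1) g1,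
      hRF.b.htu _ _ (hRF.a.simple s), hRF.b.hte]
    simp
    ring
  · have h3 := hRF.b.pp b s t (hrt b hb) hst h1 h2
    subst h3
    rw [b3, c3, map_smul, map_smul, fs, ft]
  · rw [LkB_zero q hRF hb h1, LkB_zero q hRF hb h2, LkB_fval q l hRF hb (by omega),
      LkB_fval q l hRF hb (by omega), hFH.zz s t b hst (hrt b hb) h1 h2]
  · have a1 := hup b hb s h1 hs
    have g2 : pr M (b + e s) t = -1 := by
      rw [hRF.a.pr_add, hRF.a.pra s t hst, h2]; norm_num
    rw [LkB_neg q hRF hb h1, LkB_zero q hRF hb h2, map_add, map_smul, smul_eq_mul,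
      LkB_fval q l hRF a1 (by omega), LkB_fval q l hRF hb (by omega),
      LkB_fval q l hRF hb (by omega), hFH.r0 t s b hts (hrt b hb) h2 h1]
    simp only [map_sub, map_mul, map_one, Polynomial.aeval_X]
    ring
  · have a1 := hdn b hb s h1
    have g2 : pr M (b - e s) t = 1 := by rw [hRF.a.pr_sub, hRF.a.pra s t hst, h2]; norm_num
    have hh := hRF.b.htd b s (hrt b hb) h1
    have h3 : 2 ≤ ht (b - e s) := by
      by_contra h4
      have h5 := hRF.b.ht1 _ (hrt _ a1)
      obtain ⟨u, hu⟩ := hRF.b.ht1e _ (hrt _ a1) (by omega)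
      rw [hu] at g2
      by_cases hut : u = t
      · rw [hut, hRF.a.pre] at g2
        norm_num at g2
      · by_cases hu2 : adj M u t
        · rw [hRF.a.pra u t hu2] at g2
          norm_num at g2
        · rw [hRF.a.prn u t hut hu2] at g2
          norm_num at g2
    rw [LkB_pos q hRF hb h1, LkB_zero q hRF hb h2, map_smul, smul_eq_mul,
      LkB_fval q l hRF a1 (by omega), LkB_fval q l hRF hb (by omega),
      hFH.one s b (hrt b hb) h1, hFH.one t _ (hrt _ a1) g2]
    have h4 : ht b - 2 = ht (b - e s) - 2 + 1 := by omega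
    rw [h4]
    simp only [map_neg, map_sub, map_mul, map_one, map_pow, Polynomial.aeval_X]
    ring
  · have a1 := hdn b hb s h1
    have a2 := hup b hb t h2 htC
    have g2 : pr M (b - e s) t = 0 := by rw [hRF.a.pr_sub, hRF.a.pra s t hst, h2]; norm_num
    have g3 : pr M (b + e t) s = 0 := by rw [hRF.a.pr_add, hRF.a.pra t s hts, h1]; norm_num
    rw [LkB_pos q hRF hb h1, LkB_neg q hRF hb h2, map_smul, map_add, map_smul, smul_eq_mul,
      smul_eq_mul, LkB_fval q l hRF a1 (by omega),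
      LkB_fval q l hRF hb (by omega), LkB_fval q l hRF a2 (by omega),
      hFH.r1 s t b hst (hrt b hb) h1 h2]
    simp only [map_sub, map_mul, map_one, Polynomial.aeval_X]
    ring

private theorem LkB_rel {b : Fin n → ℤ} {s t : Fin n} (hst : adj M s t) (hs : s ∈ C)
    (ht : t ∈ C) (hes : e s ∈ roots M C) (het : e t ∈ roots M C) (hb : b ∈ roots M C) :
    LkB_f M C q l t (LkB_P M C q s (xv M C b)) = LkB_f M C q l s (LkB_P M C q t (xv M C b)) := by
  have hts := adj_symm hst
  have A := LkB_relA q l hRF hup hdn hrt hFH hst hs ht hes het hb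
  have B := fun h => (LkB_relA q l hRF hup hdn hrt hFH hts ht hs het hes hb h).symm
  by_cases hbs : b = e s
  · exact A (Or.inl hbs)
  by_cases hbt : b = e t
  · exact B (Or.inl hbt)
  rcases hRF.a.bnd b s (hrt b hb) hbs with h1 | h1 | h1 <;>
    rcases hRF.a.bnd b t (hrt b hb) hbt with h2 | h2 | h2
  · exact (hRF.b.nomm b s t (hrt b hb) hst h1 h2).elim
  · exact A (Or.inr (Or.inr (Or.inr (Or.inl ⟨h1, h2⟩))))
  · exact B (Or.inr (Or.inr (Or.inr (Or.inr (Or.inr ⟨h2, h1⟩)))))
  · exact B (Or.inr (Or.inr (Or.inr (Or.inl ⟨h2, h1⟩))))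
  · exact A (Or.inr (Or.inr (Or.inl ⟨h1, h2⟩)))
  · exact B (Or.inr (Or.inr (Or.inr (Or.inr (Or.inl ⟨h2, h1⟩)))))
  · exact A (Or.inr (Or.inr (Or.inr (Or.inr (Or.inr ⟨h1, h2⟩)))))
  · exact A (Or.inr (Or.inr (Or.inr (Or.inr (Or.inl ⟨h1, h2⟩)))))
  · exact A (Or.inr (Or.inl ⟨h1, h2⟩))

private theorem LkB_three {b : Fin n → ℤ} {s t : Fin n} (hst : adj M s t) (hs : s ∈ C)
    (ht : t ∈ C) (hes : e s ∈ roots M C) (het : e t ∈ roots M C) (hb : b ∈ roots M C)
    (hrel : ∀ x, LkB_f M C q l t (LkB_P M C q s x) = LkB_f M C q l s (LkB_P M C q t x)) :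
    LkB_f M C q l s (LkB_P M C q t (LkB_P M C q s (xv M C b))) =
      (1 - q) * LkB_f M C q l s (LkB_P M C q t (xv M C b)) + q * LkB_f M C q l t (xv M C b) := by
  by_cases hbs : b = e s
  · subst hbs
    rw [← hrel (xv M C (e s)), LkB_self q hRF s hes, map_zero, map_zero, map_zero,
      LkB_f0 q l hRF hup hdn hrt hFH hst hes]
    ring
  · rw [← hrel, LkB_quad q hRF hup hdn hrt hs hb hbs, map_add, map_smul, map_smul, hrel]
    rfl

end

theorem pLkB (h1 : SLkA) : SLkB := by
  intro n M hRF hFH C hSat R _ q l s t hst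
  have hts := adj_symm hst
  obtain ⟨hr, hup, hdn, hsi, hR⟩ := h1 n M hRF C
  obtain ⟨himg, -, hv, hone⟩ := hR R q l
  by_cases hs : s ∈ C
  · have ht : t ∈ C := hSat s hs t hst
    have hrt : ∀ b ∈ roots M C, Rt M b := fun b hb => ((hr b).1 hb).1
    have hes := (hsi s).2 hs
    have het := (hsi t).2 ht
    obtain ⟨b1, b2, b3⟩ := LkB_braidB q hRF hup hst ht hes het
    obtain ⟨c1, c2, c3⟩ := LkB_braidB q hRF hup hts hs het hes
    rw [add_comm (e t) (e s)] at c2 c3
    have hG := LkB_lk M C q l s hv (himg s)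
    have hH := LkB_lk M C q l t hv (himg t)
    have r2 : ∀ x, LkB_f M C q l t (LkB_P M C q s x) = LkB_f M C q l s (LkB_P M C q t x) :=
      LkB_ext M C hv ((LkB_f M C q l t).comp (LkB_P M C q s))
        ((LkB_f M C q l s).comp (LkB_P M C q t)) fun b hb =>
          LkB_rel q l hRF hup hdn hrt hFH hst hs ht hes het hb
    have r1 : ∀ x, LkB_P M C q s (LkB_P M C q t (LkB_P M C q s x)) =
        LkB_P M C q t (LkB_P M C q s (LkB_P M C q t x)) :=
      LkB_ext M C hv ((LkB_P M C q s).comp ((LkB_P M C q t).comp (LkB_P M C q s)))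
        ((LkB_P M C q t).comp ((LkB_P M C q s).comp (LkB_P M C q t))) fun b hb =>
          LkB_braid q hRF hup hdn hrt hst hs ht hes het hb
    have r3 : ∀ x, LkB_f M C q l s (LkB_P M C q t (LkB_P M C q s x)) =
        (1 - q) * LkB_f M C q l s (LkB_P M C q t x) + q * LkB_f M C q l t x :=
      LkB_ext M C hv ((LkB_f M C q l s).comp ((LkB_P M C q t).comp (LkB_P M C q s)))
        ((1 - q) • (LkB_f M C q l s).comp (LkB_P M C q t) + q • LkB_f M C q l t) fun b hb =>
          LkB_three q l hRF hup hdn hrt hFH hst hs ht hes het hb r2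
    have r3' : ∀ x, LkB_f M C q l t (LkB_P M C q s (LkB_P M C q t x)) =
        (1 - q) * LkB_f M C q l t (LkB_P M C q s x) + q * LkB_f M C q l s x :=
      LkB_ext M C hv ((LkB_f M C q l t).comp ((LkB_P M C q s).comp (LkB_P M C q t)))
        ((1 - q) • (LkB_f M C q l t).comp (LkB_P M C q s) + q • LkB_f M C q l s) fun b hb =>
          LkB_three q l hRF hup hdn hrt hFH hts ht hs het hes hb fun x => (r2 x).symm
    have hmain := LkB_abs q l (LkB_P M C q s) (LkB_P M C q t) (LkB_f M C q l s)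
      (LkB_f M C q l t) (xv M C (e s)) (xv M C (e t)) (xv M C (e s + e t)) r1 r2 r3 r3' b1 c1 c2 b2
      b3 c3 (by rw [LkB_fx M C q l s hes, if_pos rfl]) (by rw [LkB_fx M C q l t het, if_pos rfl])
      (LkB_f0 q l hRF hup hdn hrt hFH hts het) (LkB_f0 q l hRF hup hdn hrt hFH hst hes)
      ((lk M C q l s).mulVecLin) ((lk M C q l t).mulVecLin) hG hH
    apply Matrix.toLin'.injective
    ext1 x
    refine LinearMap.ext fun y => ?_
    simp only [Matrix.toLin'_mul, LinearMap.comp_apply]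
    exact hmain _
  · have ht : t ∉ C := fun h => hs (hSat t h s hts)
    rw [hone hSat s hs, hone hSat t ht]

end Pool.Agent.Lib.MP_97567f_al
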