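import Pool.Agent.Lib.MP_97567f_al.SpecR

/-!
# MP_97567f_al: module LkC (commuting generators)
-/

set_option autoImplicit false

namespace Pool.Agent.Lib.MP_97567f_al

open Polynomial

/-- the coefficient -/
private noncomputable def LkC_f {n : ℕ} (M : CoxeterMatrix (Fin n)) {R : Type} [CommRing R]
    (q l : R) (s : Fin n) (b : Fin n → ℤ) : R := l * aeval q (fh M s b)

/-- the action on the basis -/
private structure LkC_D {n : ℕ} (M : CoxeterMatrix (Fin n)) (C : Finset (Fin n)) {R : Type}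
    [CommRing R] (q l : R) : Prop where
  rt : ∀ b ∈ roots M C, Rt M b
  add : ∀ b ∈ roots M C, ∀ s ∈ C, pr M b s = -1 → b + e s ∈ roots M C
  sub : ∀ b ∈ roots M C, ∀ s, pr M b s = 1 → b - e s ∈ roots M C
  es : ∀ s, e s ∈ roots M C ↔ s ∈ C
  ste : ∀ s ∈ C, (lk M C q l s).mulVec (xv M C (e s)) = l • xv M C (e s)
  stm : ∀ s, ∀ b ∈ roots M C, pr M b s = -1 → (lk M C q l s).mulVec (xv M C b) =
    xv M C (b + e s) + (1 - q) • xv M C b + LkC_f M q l s b • xv M C (e s)
  stz : ∀ s, ∀ b ∈ roots M C, pr M b s = 0 → (lk M C q l s).mulVec (xv M C b) =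
    xv M C b + LkC_f M q l s b • xv M C (e s)
  stp : ∀ s, ∀ b ∈ roots M C, pr M b s = 1 → (lk M C q l s).mulVec (xv M C b) =
    q • xv M C (b - e s) + LkC_f M q l s b • xv M C (e s)
  exp : ∀ v : PR M C → R, v = ∑ b, v b • xv M C b.1

private theorem LkC_mk (hL : SLkA) {n : ℕ} {M : CoxeterMatrix (Fin n)} (hM : RF M)
    (C : Finset (Fin n)) {R : Type} [CommRing R] (q l : R) : LkC_D M C q l := by
  obtain ⟨h1, h2, h3, h4, h5⟩ := hL n M hM C
  obtain ⟨a1, a2, a3, a4⟩ := h5 R q l
  have hne : ∀ b s, pr M b s ≠ 2 → b ≠ e s := by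
    rintro b s h rfl
    exact h (hM.a.pre s)
  refine ⟨fun b hb => ((h1 b).1 hb).1, fun b hb s hs hp => h2 b hb s hp hs, h3, h4,
    fun s hs => ?_, fun s b hb hp => ?_, fun s b hb hp => ?_, fun s b hb hp => ?_, a3⟩
  · rw [a1 s _ ((h4 s).2 hs), img, if_pos rfl]
  · rw [a1 s b hb, img, if_neg (hne b s (by rw [hp]; decide)), if_pos hp]
    rfl
  · rw [a1 s b hb, img, if_neg (hne b s (by rw [hp]; decide)), if_neg (by rw [hp]; decide),
      if_neg (by rw [hp]; decide)]
    rfl
  · rw [a1 s b hb, img, if_neg (hne b s (by rw [hp]; decide)), if_neg (by rw [hp]; decide),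
      if_pos hp]
    rfl

private theorem LkC_ext {n : ℕ} {M : CoxeterMatrix (Fin n)} {C : Finset (Fin n)} {R : Type}
    [CommRing R] {q l : R} (D : LkC_D M C q l) {A B : Matrix (PR M C) (PR M C) R}
    (h : ∀ b ∈ roots M C, A.mulVec (xv M C b) = B.mulVec (xv M C b)) : A = B := by
  classical
  refine Matrix.toLin'.injective (LinearMap.ext fun v => ?_)
  rw [Matrix.toLin'_apply, Matrix.toLin'_apply, D.exp v, Matrix.mulVec_sum, Matrix.mulVec_sum]
  refine Finset.sum_congr rfl fun b _ => ?_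
  rw [Matrix.mulVec_smul, Matrix.mulVec_smul, h b.1 b.2]

private theorem LkC_fm {n : ℕ} {M : CoxeterMatrix (Fin n)} {R : Type} [CommRing R] {q l : R}
    (hF : FH M (fh M)) {s t : Fin n} (hst : s ≠ t) (ha : ¬ adj M s t) {b : Fin n → ℤ}
    (hb : Rt M b) (h : pr M b t = -1) :
    LkC_f M q l s (b + e t) = q * LkC_f M q l s b := by
  unfold LkC_f
  rw [hF.comm s t b hst ha hb h, map_mul, aeval_X]
  ring

private theorem LkC_fp {n : ℕ} {M : CoxeterMatrix (Fin n)} {R : Type} [CommRing R] {q l : R}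
    (hM : RF M) (hF : FH M (fh M)) {s t : Fin n} (hst : s ≠ t) (ha : ¬ adj M s t)
    {b : Fin n → ℤ} (hb : Rt M b) (h : pr M b t = 1) :
    LkC_f M q l s b = q * LkC_f M q l s (b - e t) := by
  have h1 := LkC_fm (q := q) (l := l) hF hst ha (hM.a.down b t hb h)
    (by rw [hM.a.pr_sub, h, hM.a.pre]; norm_num)
  rw [sub_add_cancel] at h1
  exact h1

private theorem LkC_key {n : ℕ} {M : CoxeterMatrix (Fin n)} (hM : RF M) (hF : FH M (fh M))
    {C : Finset (Fin n)} {R : Type} [CommRing R] {q l : R} (D : LkC_D M C q l) {s t : Fin n}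
    (hs : s ∈ C) (ht : t ∈ C) (hst : s ≠ t) (ha : ¬ adj M s t) {b : Fin n → ℤ}
    (hb : b ∈ roots M C) :
    (lk M C q l s).mulVec ((lk M C q l t).mulVec (xv M C b)) =
      (lk M C q l t).mulVec ((lk M C q l s).mulVec (xv M C b)) := by
  have ha' : ¬ adj M t s := fun h => ha (adj_symm h)
  have hbR := D.rt b hb
  have z1 : (lk M C q l s).mulVec (xv M C (e t)) = xv M C (e t) := by
    rw [D.stz s (e t) ((D.es t).2 ht) (hM.a.prn t s hst.symm ha'), LkC_f,
      hF.simple s t hst, map_zero, mul_zero, zero_smul, add_zero]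
  have z2 : (lk M C q l t).mulVec (xv M C (e s)) = xv M C (e s) := by
    rw [D.stz t (e s) ((D.es s).2 hs) (hM.a.prn s t hst ha), LkC_f,
      hF.simple t s hst.symm, map_zero, mul_zero, zero_smul, add_zero]
  by_cases hbs : b = e s
  · subst hbs
    rw [z2, D.ste s hs, Matrix.mulVec_smul, z2]
  by_cases hbt : b = e t
  · subst hbt
    rw [z1, D.ste t ht, Matrix.mulVec_smul, z1]
  have p1 : pr M (b + e t) s = pr M b s := by
    rw [hM.a.pr_add, hM.a.prn t s hst.symm ha', add_zero]
  have p2 : pr M (b + e s) t = pr M b t := by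
    rw [hM.a.pr_add, hM.a.prn s t hst ha, add_zero]
  have p3 : pr M (b - e t) s = pr M b s := by
    rw [hM.a.pr_sub, hM.a.prn t s hst.symm ha', sub_zero]
  have p4 : pr M (b - e s) t = pr M b t := by
    rw [hM.a.pr_sub, hM.a.prn s t hst ha, sub_zero]
  rcases hM.a.bnd b s hbR hbs with h1 | h1 | h1 <;> rcases hM.a.bnd b t hbR hbt with h2 | h2 | h2
  · have e1 := D.stm t b hb h2
    have e2 := D.stm s b hb h1
    have e3 := D.stm s _ (D.add b hb t ht h2) (p1.trans h1)
    have f1 := LkC_fm (q := q) (l := l) hF hst ha hbR h2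
    have e4 := D.stm t _ (D.add b hb s hs h1) (p2.trans h2)
    have f2 := LkC_fm (q := q) (l := l) hF hst.symm ha' hbR h1
    rw [e1, e2]
    simp only [Matrix.mulVec_add, Matrix.mulVec_smul]
    simp only [z1, z2, e1, e2, e3, e4]
    rw [f1, f2]
    rw [show b + e t + e s = b + e s + e t by abel]
    module
  · have e1 := D.stz t b hb h2
    have e2 := D.stm s b hb h1
    have e4 := D.stz t _ (D.add b hb s hs h1) (p2.trans h2)
    have f2 := LkC_fm (q := q) (l := l) hF hst.symm ha' hbR h1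
    rw [e1, e2]
    simp only [Matrix.mulVec_add, Matrix.mulVec_smul]
    simp only [z1, z2, e1, e2, e4]
    rw [f2]
    module
  · have e1 := D.stp t b hb h2
    have e2 := D.stm s b hb h1
    have e3 := D.stm s _ (D.sub b hb t h2) (p3.trans h1)
    have f1 := LkC_fp (q := q) (l := l) hM hF hst ha hbR h2
    have e4 := D.stp t _ (D.add b hb s hs h1) (p2.trans h2)
    have f2 := LkC_fm (q := q) (l := l) hF hst.symm ha' hbR h1
    rw [e1, e2]
    simp only [Matrix.mulVec_add, Matrix.mulVec_smul]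
    simp only [z1, z2, e1, e3, e4]
    rw [f1, f2]
    rw [show b - e t + e s = b + e s - e t by abel]
    module
  · have e1 := D.stm t b hb h2
    have e2 := D.stz s b hb h1
    have e3 := D.stz s _ (D.add b hb t ht h2) (p1.trans h1)
    have f1 := LkC_fm (q := q) (l := l) hF hst ha hbR h2
    rw [e1, e2]
    simp only [Matrix.mulVec_add, Matrix.mulVec_smul]
    simp only [z1, z2, e1, e2, e3]
    rw [f1]
    module
  · have e1 := D.stz t b hb h2
    have e2 := D.stz s b hb h1
    rw [e1, e2]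
    simp only [Matrix.mulVec_add, Matrix.mulVec_smul]
    simp only [z1, z2, e1, e2]
    module
  · have e1 := D.stp t b hb h2
    have e2 := D.stz s b hb h1
    have e3 := D.stz s _ (D.sub b hb t h2) (p3.trans h1)
    have f1 := LkC_fp (q := q) (l := l) hM hF hst ha hbR h2
    rw [e1, e2]
    simp only [Matrix.mulVec_add, Matrix.mulVec_smul]
    simp only [z1, z2, e1, e3]
    rw [f1]
    module
  · have e1 := D.stm t b hb h2
    have e2 := D.stp s b hb h1
    have e3 := D.stp s _ (D.add b hb t ht h2) (p1.trans h1)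
    have f1 := LkC_fm (q := q) (l := l) hF hst ha hbR h2
    have e4 := D.stm t _ (D.sub b hb s h1) (p4.trans h2)
    have f2 := LkC_fp (q := q) (l := l) hM hF hst.symm ha' hbR h1
    rw [e1, e2]
    simp only [Matrix.mulVec_add, Matrix.mulVec_smul]
    simp only [z1, z2, e2, e3, e4]
    rw [f1, f2]
    rw [show b + e t - e s = b - e s + e t by abel]
    module
  · have e1 := D.stz t b hb h2
    have e2 := D.stp s b hb h1
    have e4 := D.stz t _ (D.sub b hb s h1) (p4.trans h2)
    have f2 := LkC_fp (q := q) (l := l) hM hF hst.symm ha' hbR h1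
    rw [e1, e2]
    simp only [Matrix.mulVec_add, Matrix.mulVec_smul]
    simp only [z1, z2, e2, e4]
    rw [f2]
    module
  · have e1 := D.stp t b hb h2
    have e2 := D.stp s b hb h1
    have e3 := D.stp s _ (D.sub b hb t h2) (p3.trans h1)
    have f1 := LkC_fp (q := q) (l := l) hM hF hst ha hbR h2
    have e4 := D.stp t _ (D.sub b hb s h1) (p4.trans h2)
    have f2 := LkC_fp (q := q) (l := l) hM hF hst.symm ha' hbR h1
    rw [e1, e2]
    simp only [Matrix.mulVec_add, Matrix.mulVec_smul]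
    simp only [z1, z2, e3, e4]
    rw [f1, f2]
    rw [show b - e t - e s = b - e s - e t by abel]
    module

theorem pLkC (h1 : SLkA) : SLkC := by
  intro n M hM hF C hC R _ q l s t hst ha
  obtain ⟨-, -, -, -, h5⟩ := h1 n M hM C
  obtain ⟨-, -, -, a4⟩ := h5 R q l
  by_cases hs : s ∈ C
  · by_cases ht : t ∈ C
    · have D := LkC_mk h1 hM C q l
      refine LkC_ext D fun b hb => ?_
      rw [← Matrix.mulVec_mulVec, ← Matrix.mulVec_mulVec]
      exact LkC_key hM hF D hs ht hst ha hb
    · rw [a4 hC t ht, mul_one, one_mul]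
  · rw [a4 hC s hs, mul_one, one_mul]

end Pool.Agent.Lib.MP_97567f_al
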