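import Pool.Agent.Lib.MP_97567f_al.SpecG

/-!
# MP_97567f_al: the entries of the Lawrence-Krammer representation generate the ring
-/

set_option autoImplicit false

namespace Pool.Agent.Lib.MP_97567f_al

/-- a subalgebra which contains the generators and their inverses is everything -/
theorem lkgen_top (S : Subalgebra ℂ R2) (hq : qq ∈ S) (hl : ll ∈ S) {u v : R2} (hu : qq * u = 1)
    (hv : ll * v = 1) (hu' : u ∈ S) (hv' : v ∈ S) : S = ⊤ := by
  have hp : ∀ p : P2, algebraMap P2 R2 p ∈ S := by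
    intro p
    induction p using MvPolynomial.induction_on with
    | C c =>
      have e1 : algebraMap P2 R2 (MvPolynomial.C c) = algebraMap ℂ R2 c := by
        rw [← MvPolynomial.algebraMap_eq, ← IsScalarTower.algebraMap_apply]
      rw [e1]
      exact S.algebraMap_mem c
    | add p q hp hq =>
      rw [map_add]
      exact S.add_mem hp hq
    | mul_X p i hp =>
      rw [map_mul]
      refine S.mul_mem hp ?_
      fin_cases i
      · exact hq
      · exact hl
  rw [eq_top_iff]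
  intro x _
  obtain ⟨⟨p, ⟨_, k, rfl⟩⟩, h⟩ := IsLocalization.surj (Submonoid.powers (MvPolynomial.X 0 * MvPolynomial.X 1 : P2)) x
  have h1 : x * (qq * ll) ^ k = algebraMap P2 R2 p := by
    rw [← h]
    simp only [map_pow, map_mul]
    rfl
  have h2 : x = algebraMap P2 R2 p * (u * v) ^ k := by
    rw [← h1, mul_assoc, ← mul_pow]
    have h3 : qq * ll * (u * v) = 1 := by
      calc qq * ll * (u * v) = (qq * u) * (ll * v) := by ring
        _ = 1 := by rw [hu, hv, mul_one]
    rw [h3, one_pow, mul_one]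
  rw [h2]
  exact S.mul_mem (hp p) (S.pow_mem (S.mul_mem hu' hv') k)

theorem lkgen_col {n : ℕ} {M : CoxeterMatrix (Fin n)} {C : Finset (Fin n)} {R : Type} [CommRing R]
    (N : Matrix (PR M C) (PR M C) R) {b : Fin n → ℤ} (hb : b ∈ roots M C) (g : PR M C) :
    (N.mulVec (xv M C b)) g = N g ⟨b, hb⟩ := by
  rw [Matrix.mulVec, dotProduct]
  rw [Finset.sum_eq_single (⟨b, hb⟩ : PR M C)]
  · simp [xv]
  · intro j _ hj
    have h1 : j.1 ≠ b := fun h => hj (Subtype.ext h)
    simp [xv, h1]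
  · intro h
    exact absurd (Finset.mem_univ _) h

theorem lkgen_img {n : ℕ} {M : CoxeterMatrix (Fin n)} {C : Finset (Fin n)} {R : Type} [CommRing R]
    (q l : R) {s t : Fin n} (h1 : e s + e t ≠ e t) (h2 : pr M (e s + e t) t = 1) :
    ∃ c : R, img M C q l t (e s + e t) = q • xv M C (e s) + c • xv M C (e t) := by
  refine ⟨l * Polynomial.aeval q (fh M t (e s + e t)), ?_⟩
  unfold img
  rw [if_neg h1, if_neg (by rw [h2]; norm_num), if_pos h2, add_sub_cancel_right]

theorem pLkGen (hA : SLkA) (hK : SLKr) : SLkGen := by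
  intro n M hSL hRF hFH C hSat hConn hcard
  obtain ⟨hroots, hup, hdn, hsim, hact⟩ := hA n M hRF C
  obtain ⟨hact, hzero, hsum, htriv⟩ := hact R2 qq ll
  have hgn := (hK n M hSL hRF hFH C hSat).1 R2 qq ll qq_unit ll_unit
  -- adjacent nodes
  obtain ⟨s, hs, t, ht, hadj⟩ : ∃ s ∈ C, ∃ t ∈ C, adj M s t := by
    obtain ⟨s, hs, t', ht', hne⟩ := Finset.one_lt_card.1 hcard
    rcases (Relation.ReflTransGen.cases_head (hConn s hs t' ht')) with h | ⟨c, hc, _⟩
    · exact absurd h hne
    · exact ⟨s, hs, c, hSat s hs c hc, hc⟩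
  have hst : s ≠ t := adj_ne hadj
  have hest : (e s : Fin n → ℤ) ≠ e t := by
    intro h
    have h1 := congrFun h s
    simp [e, hst] at h1
  have hes : e s ∈ roots M C := (hsim s).2 hs
  have het : e t ∈ roots M C := (hsim t).2 ht
  have hprst : pr M (e s) t = -1 := hRF.a.pra s t hadj
  have hes1 : e s + e t ∈ roots M C := hup _ hes t hprst ht
  have hpr1 : pr M (e s + e t) t = 1 := by
    rw [hRF.a.pr_add, hprst, hRF.a.pre]
    norm_num
  have hne1 : e s + e t ≠ e t := by
    intro h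
    have h1 : (e s : Fin n → ℤ) = 0 := by simpa using h
    have h2 := congrFun h1 s
    simp [e] at h2
  have hne2 : e s + e t ≠ e s := by
    intro h
    have h1 : (e t : Fin n → ℤ) = 0 := by simpa using h
    have h2 := congrFun h1 t
    simp [e] at h2
  -- the algebra
  set S : Subalgebra ℂ R2 := Algebra.adjoin ℂ (Set.range fun p : Art M × PR M C × PR M C =>
      (LKr M C qq ll p.1).1 p.2.1 p.2.2) with hS
  have hmem : ∀ (x : Art M) (i j : PR M C), (LKr M C qq ll x).1 i j ∈ S := fun x i j =>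
    Algebra.subset_adjoin ⟨(x, i, j), rfl⟩
  have hinv : ∀ u, (LKr M C qq ll (gn M u)⁻¹).1 * lk M C qq ll u = 1 := by
    intro u
    rw [← hgn u]
    have h1 : LKr M C qq ll (gn M u)⁻¹ * LKr M C qq ll (gn M u) = 1 := by
      rw [← map_mul, inv_mul_cancel, map_one]
    exact congrArg Units.val h1
  -- the entries of the first generator
  have a1 : (lk M C qq ll s).mulVec (xv M C (e s)) = ll • xv M C (e s) := by
    rw [hact s _ hes]
    simp [img]
  have hl : ll ∈ S := by
    have h1 := hmem (gn M s) ⟨e s, hes⟩ ⟨e s, hes⟩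
    rw [hgn] at h1
    have h2 : lk M C qq ll s ⟨e s, hes⟩ ⟨e s, hes⟩ = ll := by
      rw [← lkgen_col (lk M C qq ll s) hes, a1]
      simp [xv]
    rwa [h2] at h1
  have hl' : ll * (LKr M C qq ll (gn M s)⁻¹).1 ⟨e s, hes⟩ ⟨e s, hes⟩ = 1 := by
    rw [← lkgen_col (LKr M C qq ll (gn M s)⁻¹).1 hes]
    have h1 : (LKr M C qq ll (gn M s)⁻¹).1.mulVec ((lk M C qq ll s).mulVec (xv M C (e s))) =
        xv M C (e s) := by
      rw [Matrix.mulVec_mulVec, hinv, Matrix.one_mulVec]
    rw [a1, Matrix.mulVec_smul] at h1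
    have h2 := congrFun h1 ⟨e s, hes⟩
    rw [Pi.smul_apply, smul_eq_mul] at h2
    rw [h2]
    simp [xv]
  -- the entries of the second generator
  have b1 : (lk M C qq ll t).mulVec (xv M C (e t)) = ll • xv M C (e t) := by
    rw [hact t _ het]
    simp [img]
  obtain ⟨c, hc⟩ : ∃ c : R2, (lk M C qq ll t).mulVec (xv M C (e s + e t)) =
      qq • xv M C (e s) + c • xv M C (e t) := by
    rw [hact t _ hes1]
    exact lkgen_img qq ll hne1 hpr1
  have hq : qq ∈ S := by
    have h1 := hmem (gn M t) ⟨e s, hes⟩ ⟨e s + e t, hes1⟩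
    rw [hgn] at h1
    have h2 : lk M C qq ll t ⟨e s, hes⟩ ⟨e s + e t, hes1⟩ = qq := by
      rw [← lkgen_col (lk M C qq ll t) hes1, hc]
      simp [xv, hest]
    rwa [h2] at h1
  have hq' : qq * (LKr M C qq ll (gn M t)⁻¹).1 ⟨e s + e t, hes1⟩ ⟨e s, hes⟩ = 1 := by
    rw [← lkgen_col (LKr M C qq ll (gn M t)⁻¹).1 hes]
    have h1 : (LKr M C qq ll (gn M t)⁻¹).1.mulVec
        ((lk M C qq ll t).mulVec (xv M C (e s + e t))) = xv M C (e s + e t) := by
      rw [Matrix.mulVec_mulVec, hinv, Matrix.one_mulVec]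
    have h2 : (LKr M C qq ll (gn M t)⁻¹).1.mulVec
        ((lk M C qq ll t).mulVec (xv M C (e t))) = xv M C (e t) := by
      rw [Matrix.mulVec_mulVec, hinv, Matrix.one_mulVec]
    rw [hc, Matrix.mulVec_add, Matrix.mulVec_smul, Matrix.mulVec_smul] at h1
    rw [b1, Matrix.mulVec_smul] at h2
    have h3 := congrFun h1 ⟨e s + e t, hes1⟩
    have h4 := congrFun h2 ⟨e s + e t, hes1⟩
    rw [Pi.smul_apply, smul_eq_mul] at h4
    rw [Pi.add_apply, Pi.smul_apply, Pi.smul_apply, smul_eq_mul, smul_eq_mul] at h3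
    have h5 : xv M C (R := R2) (e t) ⟨e s + e t, hes1⟩ = 0 := by
      simp only [xv]
      rw [if_neg hne1]
    rw [h5] at h4
    have h6 : (LKr M C qq ll (gn M t)⁻¹).1.mulVec (xv M C (e t)) ⟨e s + e t, hes1⟩ = 0 :=
      (ll_unit.mul_right_eq_zero).1 h4
    rw [h6, mul_zero, add_zero] at h3
    rw [h3]
    simp [xv]
  exact lkgen_top S hq hl hq' hl' (hmem _ _ _) (hmem _ _ _)

end Pool.Agent.Lib.MP_97567f_al
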