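import Pool.Agent.Lib.MP_97567f_al.SpecR

/-!
# MP_97567f_al: the cubic relation of the generators of the Lawrence-Krammer representation
-/

set_option autoImplicit false

namespace Pool.Agent.Lib.MP_97567f_al

private theorem LkQ_vec {n : ℕ} {M : CoxeterMatrix (Fin n)} {C : Finset (Fin n)} {R : Type}
    [CommRing R] (q : R) (G : Matrix (PR M C) (PR M C) R) (v : PR M C → R) :
    ((G - 1) * (G + q • (1 : Matrix (PR M C) (PR M C) R))).mulVec v =
      G.mulVec (G.mulVec v) + (q - 1) • G.mulVec v - q • v := by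
  rw [← Matrix.mulVec_mulVec, Matrix.add_mulVec, Matrix.smul_mulVec, Matrix.one_mulVec,
    Matrix.sub_mulVec, Matrix.one_mulVec, Matrix.mulVec_add, Matrix.mulVec_smul]
  module

private theorem LkQ_basis {n : ℕ} {M : CoxeterMatrix (Fin n)} (hR : RF M) {C : Finset (Fin n)}
    {R : Type} [CommRing R] (q l : R) {s : Fin n} (hs : e s ∈ roots M C) (hsC : s ∈ C)
    (hroot : ∀ b ∈ roots M C, Rt M b)
    (hup : ∀ b ∈ roots M C, ∀ s, pr M b s = -1 → s ∈ C → b + e s ∈ roots M C)
    (hdn : ∀ b ∈ roots M C, ∀ s, pr M b s = 1 → b - e s ∈ roots M C)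
    (act : ∀ s, ∀ b ∈ roots M C, (lk M C q l s).mulVec (xv M C b) = img M C q l s b)
    (b : Fin n → ℤ) (hb : b ∈ roots M C) :
    ∃ c : R, (b = e s → c = (l - 1) * (l + q)) ∧
      ((lk M C q l s - 1) * (lk M C q l s + q • (1 : Matrix (PR M C) (PR M C) R))).mulVec
        (xv M C b) = c • xv M C (e s) := by
  have hpe := hR.a.pre s
  have es : (lk M C q l s).mulVec (xv M C (e s)) = l • xv M C (e s) := by
    rw [act s _ hs]; simp [img]
  by_cases h : b = e s
  · subst h
    refine ⟨(l - 1) * (l + q), fun _ => rfl, ?_⟩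
    rw [LkQ_vec, es, Matrix.mulVec_smul, es]
    module
  · have hne : ∀ c : Fin n → ℤ, pr M c s ≠ 2 → c ≠ e s := fun c hc h' => hc (by rw [h', hpe])
    rcases hR.a.bnd b s (hroot b hb) h with h1 | h1 | h1
    · have hb' := hup b hb s h1 hsC
      have h2 : pr M (b + e s) s = 1 := by rw [hR.a.pr_add, h1, hpe]; norm_num
      have h3 : b + e s ≠ e s := hne _ (by rw [h2]; norm_num)
      have a1 : (lk M C q l s).mulVec (xv M C b) = (xv M C (b + e s) + (1 - q) • xv M C b) +
          (l * Polynomial.aeval q (fh M s b)) • xv M C (e s) := by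
        rw [act s _ hb]
        unfold img
        rw [if_neg h, if_pos h1]
      have a2 : (lk M C q l s).mulVec (xv M C (b + e s)) = q • xv M C b +
          (l * Polynomial.aeval q (fh M s (b + e s))) • xv M C (e s) := by
        rw [act s _ hb']
        unfold img
        rw [if_neg h3, if_neg (by rw [h2]; norm_num), if_pos h2, add_sub_cancel_right]
      generalize l * Polynomial.aeval q (fh M s b) = f at a1
      generalize l * Polynomial.aeval q (fh M s (b + e s)) = f' at a2
      refine ⟨f' + f * l, fun h' => absurd h' h, ?_⟩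
      rw [LkQ_vec, a1, Matrix.mulVec_add, Matrix.mulVec_add, Matrix.mulVec_smul,
        Matrix.mulVec_smul, a1, a2, es]
      module
    · have a1 : (lk M C q l s).mulVec (xv M C b) = xv M C b +
          (l * Polynomial.aeval q (fh M s b)) • xv M C (e s) := by
        rw [act s _ hb]
        unfold img
        rw [if_neg h, if_neg (by rw [h1]; norm_num), if_neg (by rw [h1]; norm_num)]
      generalize l * Polynomial.aeval q (fh M s b) = f at a1
      refine ⟨f * (q + l), fun h' => absurd h' h, ?_⟩
      rw [LkQ_vec, a1, Matrix.mulVec_add, Matrix.mulVec_smul, a1, es]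
      module
    · have hb' := hdn b hb s h1
      have h2 : pr M (b - e s) s = -1 := by rw [hR.a.pr_sub, h1, hpe]; norm_num
      have h3 : b - e s ≠ e s := hne _ (by rw [h2]; norm_num)
      have a1 : (lk M C q l s).mulVec (xv M C b) = q • xv M C (b - e s) +
          (l * Polynomial.aeval q (fh M s b)) • xv M C (e s) := by
        rw [act s _ hb]
        unfold img
        rw [if_neg h, if_neg (by rw [h1]; norm_num), if_pos h1]
      have a2 : (lk M C q l s).mulVec (xv M C (b - e s)) =
          (xv M C b + (1 - q) • xv M C (b - e s)) +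
          (l * Polynomial.aeval q (fh M s (b - e s))) • xv M C (e s) := by
        rw [act s _ hb']
        unfold img
        rw [if_neg h3, if_pos h2, sub_add_cancel]
      generalize l * Polynomial.aeval q (fh M s b) = f at a1
      generalize l * Polynomial.aeval q (fh M s (b - e s)) = f' at a2
      refine ⟨q * f' + f * (l - 1) + q * f, fun h' => absurd h' h, ?_⟩
      rw [LkQ_vec, a1, Matrix.mulVec_add, Matrix.mulVec_smul,
        Matrix.mulVec_smul, a2, es]
      module

private theorem LkQ_unit {n : ℕ} {M : CoxeterMatrix (Fin n)} {C : Finset (Fin n)} {R : Type}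
    [CommRing R] (q l : R) (hq : IsUnit q) (hl : IsUnit l) (G : Matrix (PR M C) (PR M C) R)
    (F : (PR M C → R) → R) (x : PR M C → R) (hx : G.mulVec x = l • x)
    (hF : ∀ v, ((G - 1) * (G + q • (1 : Matrix (PR M C) (PR M C) R))).mulVec v = F v • x) :
    IsUnit G := by
  have h0 : (G - l • (1 : Matrix (PR M C) (PR M C) R)) *
      ((G - 1) * (G + q • (1 : Matrix (PR M C) (PR M C) R))) = 0 := by
    refine Matrix.ext_of_mulVec_single fun i => ?_
    rw [← Matrix.mulVec_mulVec, hF, Matrix.mulVec_smul, Matrix.sub_mulVec, hx, Matrix.smul_mulVec,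
      Matrix.one_mulVec, sub_self, smul_zero, Matrix.zero_mulVec]
  obtain ⟨u, hu⟩ := hq.mul hl
  have key : G * (G * G + (q - 1 - l) • G - (q + l * (q - 1)) • (1 : Matrix (PR M C) (PR M C) R)) =
      -((q * l) • (1 : Matrix (PR M C) (PR M C) R)) := by
    have h1 : (G - l • (1 : Matrix (PR M C) (PR M C) R)) *
        ((G - 1) * (G + q • (1 : Matrix (PR M C) (PR M C) R))) =
        G * (G * G + (q - 1 - l) • G - (q + l * (q - 1)) • (1 : Matrix (PR M C) (PR M C) R)) +
          (q * l) • (1 : Matrix (PR M C) (PR M C) R) := by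
      simp only [mul_add, mul_sub, sub_mul, mul_one, one_mul, smul_mul_assoc,
        mul_smul_comm, smul_sub, smul_smul, sub_smul, add_smul, one_smul]
      module
    rw [h0] at h1
    exact eq_neg_of_add_eq_zero_left h1.symm
  have h2 : G * (-((↑u⁻¹ : R) • (G * G + (q - 1 - l) • G -
      (q + l * (q - 1)) • (1 : Matrix (PR M C) (PR M C) R)))) = 1 := by
    rw [mul_neg, mul_smul_comm, key, smul_neg, neg_neg, smul_smul, ← hu, Units.inv_mul, one_smul]
  exact IsUnit.of_mul_eq_one _ h2

theorem pLkQ (h1 : SLkA) : SLkQ := by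
  intro n M hR C hC R _ q l
  obtain ⟨hmem, hup, hdn, hes, hact⟩ := h1 n M hR C
  obtain ⟨act, -, dec, one⟩ := hact R q l
  have main : ∀ s ∈ C, ∃ F : (PR M C → R) →ₗ[R] R, F (xv M C (e s)) = (l - 1) * (l + q) ∧
        ∀ v, ((lk M C q l s - 1) * (lk M C q l s + q • (1 : Matrix (PR M C) (PR M C) R))).mulVec v =
          F v • xv M C (e s) := by
    intro s hsC
    have hs := (hes s).2 hsC
    have hb := fun b : PR M C => LkQ_basis hR q l hs hsC (fun b hb => ((hmem b).1 hb).1) hup hdn
      act b.1 b.2
    choose c hc1 hc2 using hb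
    refine ⟨∑ b, c b • LinearMap.proj b, ?_, fun v => ?_⟩
    · rw [LinearMap.sum_apply, Finset.sum_eq_single (⟨e s, hs⟩ : PR M C)]
      · simp [xv, hc1 ⟨e s, hs⟩ rfl]
      · intro b _ hb
        have : b.1 ≠ e s := fun h => hb (Subtype.ext h)
        simp [xv, this]
      · intro h
        exact absurd (Finset.mem_univ _) h
    · conv_lhs => rw [dec v]
      rw [LinearMap.sum_apply, Matrix.mulVec_sum, Finset.sum_smul]
      refine Finset.sum_congr rfl fun b _ => ?_
      rw [Matrix.mulVec_smul, hc2 b, smul_smul]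
      simp [mul_comm]
  refine ⟨main, fun hq hl s => ?_⟩
  by_cases hsC : s ∈ C
  · obtain ⟨F, -, hF⟩ := main s hsC
    refine LkQ_unit q l hq hl _ F (xv M C (e s)) ?_ hF
    rw [act s _ ((hes s).2 hsC)]
    simp [img]
  · rw [one hC s hsC]
    exact isUnit_one

end Pool.Agent.Lib.MP_97567f_al
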