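import Pool.Agent.Lib.MP_97567f_al.SpecR

/-!
# MP_97567f_al: module LkS (the representation is cyclic)
-/

set_option autoImplicit false

namespace Pool.Agent.Lib.MP_97567f_al

open Polynomial

/-- the coefficient -/
private noncomputable def LkS_f {n : ℕ} (M : CoxeterMatrix (Fin n)) {R : Type} [CommRing R]
    (q l : R) (s : Fin n) (b : Fin n → ℤ) : R := l * aeval q (fh M s b)

/-- the action on the basis -/
private structure LkS_D {n : ℕ} (M : CoxeterMatrix (Fin n)) (C : Finset (Fin n)) {R : Type}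
    [CommRing R] (q l : R) : Prop where
  rt : ∀ b ∈ roots M C, Rt M b
  add : ∀ b ∈ roots M C, ∀ s ∈ C, pr M b s = -1 → b + e s ∈ roots M C
  sub : ∀ b ∈ roots M C, ∀ s, pr M b s = 1 → b - e s ∈ roots M C
  es : ∀ s, e s ∈ roots M C ↔ s ∈ C
  ste : ∀ s ∈ C, (lk M C q l s).mulVec (xv M C (e s)) = l • xv M C (e s)
  stm : ∀ s, ∀ b ∈ roots M C, pr M b s = -1 → (lk M C q l s).mulVec (xv M C b) =
    xv M C (b + e s) + (1 - q) • xv M C b + LkS_f M q l s b • xv M C (e s)
  stz : ∀ s, ∀ b ∈ roots M C, pr M b s = 0 → (lk M C q l s).mulVec (xv M C b) =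
    xv M C b + LkS_f M q l s b • xv M C (e s)
  stp : ∀ s, ∀ b ∈ roots M C, pr M b s = 1 → (lk M C q l s).mulVec (xv M C b) =
    q • xv M C (b - e s) + LkS_f M q l s b • xv M C (e s)
  exp : ∀ v : PR M C → R, v = ∑ b, v b • xv M C b.1

private theorem LkS_mk (hL : SLkA) {n : ℕ} {M : CoxeterMatrix (Fin n)} (hM : RF M)
    (C : Finset (Fin n)) {R : Type} [CommRing R] (q l : R) : LkS_D M C q l := by
  obtain ⟨h1, h2, h3, h4, h5⟩ := hL n M hM C
  obtain ⟨a1, a2, a3, a4⟩ := h5 R q l
  have hne : ∀ b s, pr M b s ≠ 2 → b ≠ e s := by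
    rintro b s h rfl
    exact h (hM.a.pre s)
  refine ⟨fun b hb => ((h1 b).1 hb).1, fun b hb s hs hp => h2 b hb s hp hs, h3, h4,
    fun s hs => ?_, fun s b hb hp => ?_, fun s b hb hp => ?_, fun s b hb hp => ?_, a3⟩
  · rw [a1 s _ ((h4 s).2 hs), img, if_pos rfl]
  · rw [a1 s b hb, img, if_neg (hne b s (by rw [hp]; decide)), if_pos hp]
    rfl
  · rw [a1 s b hb, img, if_neg (hne b s (by rw [hp]; decide)), if_neg (by rw [hp]; decide),
      if_neg (by rw [hp]; decide)]
    rfl
  · rw [a1 s b hb, img, if_neg (hne b s (by rw [hp]; decide)), if_neg (by rw [hp]; decide),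
      if_pos hp]
    rfl

private theorem LkS_mem (hL : SLkA) {n : ℕ} {M : CoxeterMatrix (Fin n)} (hM : RF M)
    {C : Finset (Fin n)} {b : Fin n → ℤ} (hb : b ∈ roots M C) {u : Fin n}
    (hu : pr M b u = 1) : u ∈ C := by
  by_contra h
  have h1 := ((hL n M hM C).1 b).1 hb
  have h2 := hM.a.coord b u h1.1 hu
  rw [h1.2 u h] at h2
  norm_num at h2

private theorem LkS_adj {n : ℕ} {M : CoxeterMatrix (Fin n)} (hM : RF M) (hF : FH M (fh M))
    {C : Finset (Fin n)} {R : Type} [CommRing R] {q l : R} (D : LkS_D M C q l) {s t : Fin n}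
    (hs : s ∈ C) (ht : t ∈ C) (h : adj M s t) :
    (lk M C q l s).mulVec ((lk M C q l t).mulVec (xv M C (e s))) = q • xv M C (e t) := by
  have hes := (D.es s).2 hs
  have h1 := D.stm t (e s) hes (hM.a.pra s t h)
  have h2 := D.stp s (e s + e t) (D.add _ hes t ht (hM.a.pra s t h))
    (by rw [hM.a.pr_add, hM.a.pre, hM.a.pra t s (adj_symm h)]; norm_num)
  have h3 : LkS_f M q l t (e s) = 0 := by
    rw [LkS_f, hF.simple t s (adj_ne h).symm, map_zero, mul_zero]
  have h4 : LkS_f M q l s (e s + e t) = l * -(1 - q) := by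
    rw [LkS_f, hF.one s _ (hM.a.up _ _ (D.rt _ hes) (hM.a.pra s t h))
      (by rw [hM.a.pr_add, hM.a.pre, hM.a.pra t s (adj_symm h)]; norm_num),
      hM.b.htu _ _ (D.rt _ hes), hM.b.hte]
    simp
  rw [h1, h3, zero_smul, add_zero, Matrix.mulVec_add, Matrix.mulVec_smul, h2, h4, D.ste s hs,
    add_sub_cancel_left]
  module

theorem pLkS (h1 : SLkA) (h2 : SLKr) : SLkS := by
  intro n M hSL hM hF C hC hcon K _ q l hq hl s hs
  have D := LkS_mk h1 hM C q l
  have hr := (h2 n M hSL hM hF C hC).1 K q l (isUnit_iff_ne_zero.2 hq) (isUnit_iff_ne_zero.2 hl)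
  set S : Set (PR M C → K) := {y | ∃ x ∈ Subgroup.closure (gn M '' (C : Set (Fin n))),
    y = (LKr M C q l x).1.mulVec (xv M C (e s))} with hS
  set U := Submodule.span K S with hU
  have hstab : ∀ t ∈ C, ∀ v ∈ U, (lk M C q l t).mulVec v ∈ U := by
    intro t ht v hv
    induction hv using Submodule.span_induction with
    | mem y hy =>
      obtain ⟨x, hx, rfl⟩ := hy
      refine Submodule.subset_span ⟨gn M t * x,
        mul_mem (Subgroup.subset_closure ⟨t, ht, rfl⟩) hx, ?_⟩
      rw [map_mul, Units.val_mul, ← Matrix.mulVec_mulVec, hr]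
    | zero => rw [Matrix.mulVec_zero]; exact zero_mem _
    | add y z _ _ hy hz => rw [Matrix.mulVec_add]; exact add_mem hy hz
    | smul c y _ hy => rw [Matrix.mulVec_smul]; exact Submodule.smul_mem _ _ hy
  have hse : xv M C (e s) ∈ U := by
    refine Submodule.subset_span ⟨1, one_mem _, ?_⟩
    rw [map_one, Units.val_one, Matrix.one_mulVec]
  have hall : ∀ t, Relation.ReflTransGen (adj M) s t → t ∈ C ∧ xv M C (R := K) (e t) ∈ U := by
    intro t ht
    induction ht with
    | refl => exact ⟨hs, hse⟩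
    | tail _ hjk ih =>
      rename_i j k _
      obtain ⟨hj, hjU⟩ := ih
      have hk := hC j hj k hjk
      refine ⟨hk, ?_⟩
      have h3 := LkS_adj hM hF D hj hk hjk
      have h4 := hstab j hj _ (hstab k hk _ hjU)
      rw [h3] at h4
      exact (Submodule.smul_mem_iff _ hq).1 h4
  have hroot : ∀ k : ℕ, ∀ b ∈ roots M C, ht b ≤ k → xv M C (R := K) b ∈ U := by
    intro k
    induction k with
    | zero =>
      intro b hb h
      have := hM.b.ht1 b (D.rt b hb)
      omega
    | succ k ih =>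
      intro b hb h
      by_cases hsim : ∃ t, b = e t
      · obtain ⟨t, rfl⟩ := hsim
        exact (hall t (hcon s hs t ((D.es t).1 hb))).2
      · push Not at hsim
        obtain ⟨u, hu⟩ := hM.a.desc b (D.rt b hb) hsim
        have huC := LkS_mem h1 hM hb hu
        have hc := D.sub b hb u hu
        have hht := hM.b.htd b u (D.rt b hb) hu
        have h3 := D.stm u (b - e u) hc (by rw [hM.a.pr_sub, hu, hM.a.pre]; norm_num)
        rw [sub_add_cancel] at h3
        have h4 := ih _ hc (by omega)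
        have h5 := hstab u huC _ h4
        have h6 : xv M C (R := K) b = (lk M C q l u).mulVec (xv M C (b - e u)) -
            (1 - q) • xv M C (b - e u) - LkS_f M q l u (b - e u) • xv M C (e u) := by
          rw [h3]
          abel
        rw [h6]
        exact sub_mem (sub_mem h5 (Submodule.smul_mem _ _ h4))
          (Submodule.smul_mem _ _ (hall u (hcon s hs u huC)).2)
  rw [eq_top_iff]
  intro v _
  rw [D.exp v]
  exact sum_mem fun b _ => Submodule.smul_mem _ _ (hroot _ b.1 b.2 le_rfl)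

end Pool.Agent.Lib.MP_97567f_al
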