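import Pool.Agent.Lib.MP_97567f_al.LkB

/-!
# MP_97567f_al: module LkW (the sum of all basis vectors)
-/

set_option autoImplicit false

namespace Pool.Agent.Lib.MP_97567f_al

private theorem LkW_img {n : ℕ} {M : CoxeterMatrix (Fin n)} (hM : RF M) (hF : FH M (fh M))
    (C : Finset (Fin n)) {R : Type} [CommRing R] (q l : R) (s : Fin n) (b : Fin n → ℤ)
    (hb : Rt M b) :
    img M C q l s b = xv M C b + (l * Polynomial.aeval q (fh M s b)) • xv M C (e s)
      - (if b = e s then xv M C (e s) else 0)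
      + (if pr M b s = -1 then xv M C (b + e s) - q • xv M C b else 0)
      + (if pr M b s = 1 then q • xv M C (b - e s) - xv M C b else 0) := by
  by_cases h : b = e s
  · subst h
    rw [img, if_pos rfl, if_pos rfl, hM.a.pre, if_neg (by norm_num), if_neg (by norm_num),
      hF.self, map_one]
    module
  · rcases hM.a.bnd b s hb h with h1 | h1 | h1
    · rw [img, if_neg h, if_neg h, h1, if_pos rfl, if_pos rfl, if_neg (by norm_num)]
      module
    · rw [img, if_neg h, if_neg h, h1, if_neg (by norm_num), if_neg (by norm_num),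
        if_neg (by norm_num), if_neg (by norm_num)]
      module
    · rw [img, if_neg h, if_neg h, h1, if_neg (by norm_num), if_pos rfl,
        if_neg (by norm_num), if_pos rfl]
      module

private theorem LkW_sum (h1 : SLkA) {n : ℕ} {M : CoxeterMatrix (Fin n)} (hM : RF M)
    (hF : FH M (fh M)) (C : Finset (Fin n)) {R : Type} [CommRing R] (q l : R) (s : Fin n)
    (hs : s ∈ C) :
    (lk M C q l s).mulVec (fun _ => 1) = (fun _ => 1) +
      (l * Polynomial.aeval q (∑ b ∈ roots M C, fh M s b) - 1) • xv M C (e s) := by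
  classical
  obtain ⟨hr, hup, hdn, hsi, hR⟩ := h1 n M hM C
  obtain ⟨himg, -, hv, -⟩ := hR R q l
  have hrt : ∀ b ∈ roots M C, Rt M b := fun b hb => ((hr b).1 hb).1
  have hw : (fun _ => 1 : PR M C → R) = ∑ b ∈ roots M C, xv M C b := by
    conv_lhs => rw [hv (fun _ => 1)]
    simp only [one_smul]
    exact Finset.sum_coe_sort (roots M C) (fun b => xv M C (R := R) b)
  have hi : ∀ b ∈ roots M C, (lk M C q l s).mulVec (xv M C b) =
      xv M C b + (l * Polynomial.aeval q (fh M s b)) • xv M C (e s)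
      - (if b = e s then xv M C (e s) else 0)
      + (if pr M b s = -1 then xv M C (b + e s) - q • xv M C b else 0)
      + (if pr M b s = 1 then q • xv M C (b - e s) - xv M C b else 0) :=
    fun b hb => (himg s b hb).trans (LkW_img hM hF C q l s b (hrt b hb))
  rw [hw, Matrix.mulVec_sum, Finset.sum_congr rfl hi]
  rw [Finset.sum_add_distrib, Finset.sum_add_distrib, Finset.sum_sub_distrib,
    Finset.sum_add_distrib, ← Finset.sum_smul, ← Finset.mul_sum, map_sum]
  have e1 : ∑ b ∈ roots M C, (if b = e s then xv M C (R := R) (e s) else 0) = xv M C (e s) := by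
    rw [Finset.sum_ite_eq' (roots M C) (e s), if_pos ((hsi s).2 hs)]
  have e2 : ∑ b ∈ roots M C, (if pr M b s = -1 then xv M C (R := R) (b + e s) - q • xv M C b else 0) =
      (∑ b ∈ (roots M C).filter (fun b => pr M b s = 1), xv M C b) -
        q • ∑ b ∈ (roots M C).filter (fun b => pr M b s = -1), xv M C b := by
    rw [← Finset.sum_filter, Finset.sum_sub_distrib, ← Finset.smul_sum]
    refine congrArg₂ _ ?_ rfl
    refine Finset.sum_nbij' (fun b => b + e s) (fun b => b - e s) ?_ ?_ ?_ ?_ ?_
    · intro b hb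
      rw [Finset.mem_filter] at hb ⊢
      refine ⟨hup b hb.1 s hb.2 hs, ?_⟩
      rw [hM.a.pr_add, hM.a.pre, hb.2]
      norm_num
    · intro b hb
      rw [Finset.mem_filter] at hb ⊢
      refine ⟨hdn b hb.1 s hb.2, ?_⟩
      rw [hM.a.pr_sub, hM.a.pre, hb.2]
      norm_num
    · intro b _
      exact add_sub_cancel_right b (e s)
    · intro b _
      exact sub_add_cancel b (e s)
    · intro b _
      rfl
  have e3 : ∑ b ∈ roots M C, (if pr M b s = 1 then q • xv M C (R := R) (b - e s) - xv M C b else 0) =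
      q • (∑ b ∈ (roots M C).filter (fun b => pr M b s = -1), xv M C b) -
        ∑ b ∈ (roots M C).filter (fun b => pr M b s = 1), xv M C b := by
    rw [← Finset.sum_filter, Finset.sum_sub_distrib, ← Finset.smul_sum]
    refine congrArg₂ _ (congrArg _ ?_) rfl
    refine Finset.sum_nbij' (fun b => b - e s) (fun b => b + e s) ?_ ?_ ?_ ?_ ?_
    · intro b hb
      rw [Finset.mem_filter] at hb ⊢
      refine ⟨hdn b hb.1 s hb.2, ?_⟩
      rw [hM.a.pr_sub, hM.a.pre, hb.2]
      norm_num
    · intro b hb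
      rw [Finset.mem_filter] at hb ⊢
      refine ⟨hup b hb.1 s hb.2 hs, ?_⟩
      rw [hM.a.pr_add, hM.a.pre, hb.2]
      norm_num
    · intro b _
      exact sub_add_cancel b (e s)
    · intro b _
      exact add_sub_cancel_right b (e s)
    · intro b _
      rfl
  rw [e1, e2, e3]
  module

private theorem LkW_aeval {R : Type} [CommRing R] (f : Polynomial ℤ →+* R) (p : Polynomial ℤ) :
    Polynomial.aeval (f Polynomial.X) p = f p := by
  have h : (Polynomial.aeval (f Polynomial.X) : Polynomial ℤ →ₐ[ℤ] R).toRingHom = f := by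
    refine Polynomial.ringHom_ext (fun a => ?_) ?_
    · simp
    · simp
  exact congrArg (fun g : Polynomial ℤ →+* R => g p) h

private theorem LkW_adj (h1 : SLkA) {n : ℕ} {M : CoxeterMatrix (Fin n)} (hM : RF M)
    (hF : FH M (fh M)) (C : Finset (Fin n)) (hC : Sat M C) (s t : Fin n)
    (hs : s ∈ C) (hst : adj M s t) :
    (∑ b ∈ roots M C, fh M s b) = ∑ b ∈ roots M C, fh M t b := by
  classical
  have htC : t ∈ C := hC s hs t hst
  have hts := adj_symm hst
  have hb := pLkB h1 n M hM hF C hC (Polynomial ℤ) Polynomial.X 1 s t hst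
  have hbv := congrArg (fun A => Matrix.mulVec A (fun _ => 1)) hb
  simp only [← Matrix.mulVec_mulVec] at hbv
  obtain ⟨hr, hup, hdn, hsi, hR⟩ := h1 n M hM C
  obtain ⟨himg, -, hv, -⟩ := hR (Polynomial ℤ) Polynomial.X 1
  have ws := LkW_sum h1 hM hF C (Polynomial.X : Polynomial ℤ) 1 s hs
  have wt := LkW_sum h1 hM hF C (Polynomial.X : Polynomial ℤ) 1 t htC
  rw [one_mul] at ws wt
  have hX : ∀ p : Polynomial ℤ, _ = p := fun p => LkW_aeval (RingHom.id (Polynomial ℤ)) p
  rw [RingHom.id_apply] at hX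
  rw [hX] at ws wt
  have hes := (hsi s).2 hs
  have het := (hsi t).2 htC
  have pst := hM.a.pra s t hst
  have pts := hM.a.pra t s hts
  have hestm := hup _ hes t pst htC
  have hne : s ≠ t := by
    rintro rfl
    exact absurd hst (adj_irrefl _)
  have a1 : (lk M C (Polynomial.X : Polynomial ℤ) 1 s).mulVec (xv M C (e s)) = xv M C (e s) := by
    rw [himg s _ hes, img, if_pos rfl, one_smul]
  have a2 : (lk M C (Polynomial.X : Polynomial ℤ) 1 t).mulVec (xv M C (e t)) = xv M C (e t) := by
    rw [himg t _ het, img, if_pos rfl, one_smul]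
  have n1 : e t ≠ (e s : Fin n → ℤ) := by
    intro h
    rw [h, hM.a.pre] at pts
    norm_num at pts
  have n2 : e s ≠ (e t : Fin n → ℤ) := fun h => n1 h.symm
  have a3 : (lk M C (Polynomial.X : Polynomial ℤ) 1 s).mulVec (xv M C (e t)) =
      xv M C (e s + e t) + (1 - Polynomial.X : Polynomial ℤ) • xv M C (e t) := by
    rw [himg s _ het, img, if_neg n1, if_pos pts, hF.simple s t hne, map_zero, mul_zero,
      zero_smul, add_zero, add_comm (e t) (e s)]
  have a4 : (lk M C (Polynomial.X : Polynomial ℤ) 1 t).mulVec (xv M C (e s)) =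
      xv M C (e s + e t) + (1 - Polynomial.X : Polynomial ℤ) • xv M C (e s) := by
    rw [himg t _ hes, img, if_neg n2, if_pos pst, hF.simple t s hne.symm, map_zero, mul_zero,
      zero_smul, add_zero]
  have p1 : pr M (e s + e t) s = 1 := by rw [hM.a.pr_add, hM.a.pre, pts]; norm_num
  have p2 : pr M (e s + e t) t = 1 := by rw [hM.a.pr_add, hM.a.pre, pst]; norm_num
  have hst2 : ht (e s + e t) - 2 = 0 := by
    rw [hM.b.htu _ _ (hM.a.simple s), hM.b.hte]
  have rst : Rt M (e s + e t) := ((hr _).1 hestm).1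
  have m1 : (e s + e t : Fin n → ℤ) ≠ e s := by
    intro h
    rw [h, hM.a.pre] at p1
    norm_num at p1
  have m2 : (e s + e t : Fin n → ℤ) ≠ e t := by
    intro h
    rw [h, hM.a.pre] at p2
    norm_num at p2
  have a5 : (lk M C (Polynomial.X : Polynomial ℤ) 1 s).mulVec (xv M C (e s + e t)) =
      (Polynomial.X : Polynomial ℤ) • xv M C (e t) -
        (1 - Polynomial.X : Polynomial ℤ) • xv M C (e s) := by
    rw [himg s _ hestm, img, if_neg m1, p1, if_neg (by norm_num), if_pos rfl,
      hF.one s _ rst p1, hst2, add_sub_cancel_left, pow_zero, mul_one, one_mul, map_neg, map_sub,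
      map_one, Polynomial.aeval_X]
    module
  have a6 : (lk M C (Polynomial.X : Polynomial ℤ) 1 t).mulVec (xv M C (e s + e t)) =
      (Polynomial.X : Polynomial ℤ) • xv M C (e s) -
        (1 - Polynomial.X : Polynomial ℤ) • xv M C (e t) := by
    rw [himg t _ hestm, img, if_neg m2, p2, if_neg (by norm_num), if_pos rfl,
      hF.one t _ rst p2, hst2, add_sub_cancel_right, pow_zero, mul_one, one_mul, map_neg, map_sub,
      map_one, Polynomial.aeval_X]
    module
  simp only [ws, wt, Matrix.mulVec_add, Matrix.mulVec_smul, a1, a2, a3, a4, a5,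
    a6] at hbv
  have hc := congrFun hbv ⟨e s + e t, hestm⟩
  have x1 : xv M C (R := Polynomial ℤ) (e s) ⟨e s + e t, hestm⟩ = 0 := if_neg m1
  have x2 : xv M C (R := Polynomial ℤ) (e t) ⟨e s + e t, hestm⟩ = 0 := if_neg m2
  have x3 : xv M C (R := Polynomial ℤ) (e s + e t) ⟨e s + e t, hestm⟩ = 1 := if_pos rfl
  simp only [Pi.add_apply, Pi.sub_apply, Pi.smul_apply, x1, x2, x3, smul_eq_mul, mul_zero,
    mul_one, add_zero, sub_zero] at hc
  linear_combination -hc

theorem pLkW (h1 : SLkA) : SLkW := by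
  classical
  intro n M hM hF C hC hconn
  have key : ∀ s t, Relation.ReflTransGen (adj M) s t → s ∈ C →
      t ∈ C ∧ (∑ b ∈ roots M C, fh M s b) = ∑ b ∈ roots M C, fh M t b := by
    intro s t h hs
    induction h with
    | refl => exact ⟨hs, rfl⟩
    | tail _ h2 ih =>
      exact ⟨hC _ ih.1 _ h2, ih.2.trans (LkW_adj h1 hM hF C hC _ _ ih.1 h2)⟩
  rcases C.eq_empty_or_nonempty with rfl | ⟨s0, hs0⟩
  · exact ⟨1, Polynomial.eval_one, fun R _ q l s hs => absurd hs (Finset.notMem_empty s)⟩
  · refine ⟨∑ b ∈ roots M C, fh M s0 b, ?_, ?_⟩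
    · obtain ⟨hr, hup, hdn, hsi, -⟩ := h1 n M hM C
      rw [Polynomial.eval_finsetSum, Finset.sum_eq_single (e s0)]
      · rw [hF.self, Polynomial.eval_one]
      · intro b hb hne
        exact hF.ev s0 b ((hr b).1 hb).1 hne
      · intro h
        exact absurd ((hsi s0).2 hs0) h
    · intro R _ q l s hs
      rw [LkW_sum h1 hM hF C q l s hs, (key s0 s (hconn s0 hs0 s hs) hs0).2]

end Pool.Agent.Lib.MP_97567f_al
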