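import Pool.Agent.Lib.MP_97567f_al.SpecZ

/-!
# MP_97567f_al: the main theorem for positive definite forms
-/

set_option autoImplicit false

namespace Pool.Agent.Lib.MP_97567f_al

theorem pMain (h1 : SAsm) (h2 : SKill) (h3 : SCmp) : SMain := by
  intro n M hM hR hF
  exact h1 (Art M) K2 n n (gn M) (art_closure M)
    (fun s z => ∃ m : K2, (LKr M (cmp M s) qq ll z).1.map (algebraMap R2 K2) =
      m • (1 : Matrix (PR M (cmp M s)) (PR M (cmp M s)) K2))
    (fun s => h3 n M hM hR hF s) (fun z hz hφ => h2 n M hM hR hF z hz hφ)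

end Pool.Agent.Lib.MP_97567f_al
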