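import Pool.Agent.Lib.MP_97567f_al.SpecD

/-!
# MP_97567f_al: the theorem of Matsumoto
-/

set_option autoImplicit false

namespace Pool.Agent.Lib.MP_97567f_al

section Mat

variable {n : ℕ} {M : CoxeterMatrix (Fin n)}

private theorem Mat_act_cons (s : Fin n) (w : List (Fin n)) (x : Fin n → ℤ) :
    act M (s :: w) x = rs M s (act M w x) := rfl

private theorem Mat_iact_cons (s : Fin n) (w : List (Fin n)) (x : Fin n → ℤ) :
    iact M (s :: w) x = iact M w (rs M s x) := rfl

private theorem Mat_wd_cons (s : Fin n) (w : List (Fin n)) :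
    wd M (s :: w) = gn M s * wd M w := by
  unfold wd
  rw [List.map_cons, List.prod_cons]

private theorem Mat_rs_add (h : RF1 M) (s : Fin n) (x y : Fin n → ℤ) :
    rs M s (x + y) = rs M s x + rs M s y := by
  unfold rs
  rw [h.pr_add, add_smul]
  abel

private theorem Mat_pr_neg (h : RF1 M) (s : Fin n) (x : Fin n → ℤ) :
    pr M (-x) s = -pr M x s := by
  have h0 : pr M 0 s = 0 := by
    have := h.pr_add 0 0 s
    rw [add_zero] at this
    omega
  have h1 := h.pr_add (-x) x s
  rw [neg_add_cancel, h0] at h1
  omega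

private theorem Mat_rs_sub (h : RF1 M) (s : Fin n) (x y : Fin n → ℤ) :
    rs M s (x - y) = rs M s x - rs M s y := by
  unfold rs
  rw [h.pr_sub, sub_smul]
  abel

private theorem Mat_pr_smul (h : RF1 M) (s : Fin n) (c : ℤ) (x : Fin n → ℤ) :
    pr M (c • x) s = c * pr M x s := by
  have h0 : pr M 0 s = 0 := by
    have := h.pr_add 0 0 s
    rw [add_zero] at this
    omega
  induction c using Int.induction_on with
  | zero => rw [zero_smul, h0, zero_mul]
  | succ k ih => rw [add_smul, one_smul, h.pr_add, ih]; ring
  | pred k ih => rw [sub_smul, one_smul, h.pr_sub, ih]; ring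

private theorem Mat_rs_smul (h : RF1 M) (s : Fin n) (c : ℤ) (x : Fin n → ℤ) :
    rs M s (c • x) = c • rs M s x := by
  unfold rs
  rw [Mat_pr_smul h, smul_sub, mul_smul]

private theorem Mat_rs_self (h : RF1 M) (s : Fin n) : rs M s (e s) = -e s := by
  unfold rs
  rw [h.pre, two_smul]
  abel

private theorem Mat_rs_n (h : RF1 M) {s t : Fin n} (hst : t ≠ s) (ha : ¬ adj M t s) :
    rs M s (e t) = e t := by
  unfold rs
  rw [h.prn t s hst ha, zero_smul, sub_zero]

private theorem Mat_rs_a (h : RF1 M) {s t : Fin n} (ha : adj M t s) :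
    rs M s (e t) = e t + e s := by
  unfold rs
  rw [h.pra t s ha, neg_smul, one_smul, sub_neg_eq_add]

private theorem Mat_iact_add (h : RF1 M) (w : List (Fin n)) (x y : Fin n → ℤ) :
    iact M w (x + y) = iact M w x + iact M w y := by
  induction w generalizing x y with
  | nil => rfl
  | cons s w ih => rw [Mat_iact_cons, Mat_iact_cons, Mat_iact_cons, Mat_rs_add h, ih]

private theorem Mat_ne_zero {x : Fin n → ℤ} (hx : Rt M x) : x ≠ 0 := by
  rintro rfl
  have h1 := hx.1
  simp [bf] at h1

private theorem Mat_comm (h : RF1 M) {s t : Fin n} (hst : s ≠ t) (ha : ¬ adj M s t)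
    (x : Fin n → ℤ) : rs M s (rs M t x) = rs M t (rs M s x) := by
  have ha' : ¬ adj M t s := fun h' => ha (adj_symm h')
  have e1 : rs M s (rs M t x) = rs M s x - pr M x t • e t := by
    rw [show rs M t x = x - pr M x t • e t from rfl, Mat_rs_sub h, Mat_rs_smul h,
      Mat_rs_n h hst.symm ha']
  have e2 : rs M t (rs M s x) = rs M t x - pr M x s • e s := by
    rw [show rs M s x = x - pr M x s • e s from rfl, Mat_rs_sub h, Mat_rs_smul h,
      Mat_rs_n h hst ha]
  rw [e1, e2]
  unfold rs
  abel

private theorem Mat_braid (h : RF1 M) {s t : Fin n} (ha : adj M s t) (x : Fin n → ℤ) :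
    rs M s (rs M t (rs M s x)) = rs M t (rs M s (rs M t x)) := by
  have ha' : adj M t s := adj_symm ha
  have e1 : ∀ y, rs M s (rs M t y) = rs M s y - pr M y t • (e t + e s) := by
    intro y
    rw [show rs M t y = y - pr M y t • e t from rfl, Mat_rs_sub h, Mat_rs_smul h,
      Mat_rs_a h ha']
  have e2 : ∀ y, rs M t (rs M s y) = rs M t y - pr M y s • (e s + e t) := by
    intro y
    rw [show rs M s y = y - pr M y s • e s from rfl, Mat_rs_sub h, Mat_rs_smul h,
      Mat_rs_a h ha]
  have p1 : pr M (rs M s x) t = pr M x t + pr M x s := by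
    unfold rs
    rw [h.pr_sub, Mat_pr_smul h, h.pra s t ha]
    ring
  have p2 : pr M (rs M t x) s = pr M x s + pr M x t := by
    unfold rs
    rw [h.pr_sub, Mat_pr_smul h, h.pra t s ha']
    ring
  have p3 : pr M (rs M s x) s = -pr M x s := by
    unfold rs
    rw [h.pr_sub, Mat_pr_smul h, h.pre s]
    ring
  have p4 : pr M (rs M t x) t = -pr M x t := by
    unfold rs
    rw [h.pr_sub, Mat_pr_smul h, h.pre t]
    ring
  rw [e1, e2, p1, p2]
  rw [show rs M s (rs M s x) = rs M s x - pr M (rs M s x) s • e s from rfl,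
    show rs M t (rs M t x) = rs M t x - pr M (rs M t x) t • e t from rfl, p3, p4]
  unfold rs
  funext i
  simp only [Pi.sub_apply, Pi.smul_apply, Pi.add_apply, smul_eq_mul]
  ring

end Mat

/-- **The theorem of Matsumoto.** -/
theorem pMat (h1 : SInv) : SMat := by
  intro n M hSL hRF
  have hM := hSL.sl
  have hA := hRF.a
  obtain ⟨i1, i2, i3, i4, i5, i6, i7, i8, i9, i10⟩ := h1 n M hSL hRF
  have rr : ∀ s x, rs M s (rs M s x) = x := fun s x => (i1 [s] x).1
  have rinj : ∀ s x y, rs M s x = rs M s y → x = y := by
    intro s x y hxy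
    rw [← rr s x, hxy, rr]
  have iac : ∀ w w', (∀ x, act M w x = act M w' x) → ∀ x, iact M w x = iact M w' x := by
    intro w w' hw x
    have e1 := (i1 w (iact M w' x)).1
    rw [hw, (i1 w' x).2] at e1
    exact e1
  -- (c) from (b)
  have hQ : ∀ k, (∀ w w', w.length = k → Red M w → Red M w' → (∀ x, act M w x = act M w' x) →
      wd M w = wd M w') → ∀ s w, w.length = k → Red M w → e s ∈ Inv M w →
      ∃ w1 : List (Fin n), Red M w1 ∧ wd M w = gn M s * wd M w1 ∧
      w1.length + 1 = w.length ∧ ∀ x, act M (s :: w1) x = act M w x := by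
    intro k hb s w hk hw hs
    obtain ⟨w1, hl, ha⟩ := i10 s w hs
    have hI := i9 _ _ ha
    have hr : Red M (s :: w1) := by
      unfold Red at hw ⊢
      rw [hI, hw, List.length_cons, hl]
    refine ⟨w1, (i7 s w1 hr).1, ?_, hl, ha⟩
    rw [← Mat_wd_cons]
    exact hb w (s :: w1) hk hw hr fun x => (ha x).symm
  have hP : ∀ k w w', w.length = k → Red M w → Red M w' → (∀ x, act M w x = act M w' x) →
      wd M w = wd M w' := by
    intro k
    induction k using Nat.strong_induction_on with
    | _ k ih =>
    intro w w' hk hw hw' hact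
    have hI := i9 _ _ hact
    have hlen : w'.length = w.length := by
      unfold Red at hw hw'
      rw [← hw, ← hw', hI]
    cases w with
    | nil =>
      cases w' with
      | nil => rfl
      | cons t v' => simp at hlen
    | cons s v =>
    cases w' with
    | nil => simp at hlen
    | cons t v' =>
    simp only [List.length_cons] at hk hlen
    obtain ⟨hv, -, hs⟩ := i7 s v hw
    obtain ⟨hv', -, ht⟩ := i7 t v' hw'
    have ht1 : e t ∈ Inv M (s :: v) := by rw [hI]; exact ht
    have hs1 : e s ∈ Inv M (t :: v') := by rw [← hI]; exact hs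
    by_cases hst : s = t
    · subst hst
      rw [Mat_wd_cons, Mat_wd_cons]
      rw [ih (k - 1) (by omega) v v' (by omega) hv hv' fun x => rinj s _ _ (hact x)]
    · by_cases ha : adj M s t
      · -- adjacent
        have key : ∀ s t v, (s :: v).length = k → Red M (s :: v) → e s ∈ Inv M (s :: v) →
            e t ∈ Inv M (s :: v) → adj M s t → ∃ v3 : List (Fin n), Red M v3 ∧
            v3.length + 3 = k ∧
            wd M (s :: v) = gn M s * gn M t * gn M s * wd M v3 ∧
            ∀ x, act M (s :: v) x = rs M s (rs M t (rs M s (act M v3 x))) := by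
          intro s t v hk hw hs ht ha
          simp only [List.length_cons] at hk
          have ha' := adj_symm ha
          have e1 : iact M v (e t) = iact M (s :: v) (e t) + iact M (s :: v) (e s) := by
            rw [← Mat_iact_add hA, ← Mat_rs_a hA ha', Mat_iact_cons, rr]
          have n1 : ¬ Rt M (iact M v (e t)) := by
            intro hr
            refine Mat_ne_zero hr (funext fun i => ?_)
            have c1 := hr.2 i
            have c2 := ht.2.2 i
            have c3 := hs.2.2 i
            rw [e1] at c1 ⊢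
            simp only [Pi.neg_apply, Pi.add_apply, Pi.zero_apply] at c1 c2 c3 ⊢
            omega
          have ht2 : e t ∈ Inv M v := ⟨hA.simple t, (i2 v _ (hA.simple t)).resolve_left n1⟩
          obtain ⟨hv, -, -⟩ := i7 s v hw
          obtain ⟨v2, hr2, hwd2, hl2, ha2⟩ := hQ (k - 1) (fun w w' => ih (k - 1) (by omega) w w')
            t v (by omega) hv ht2
          have e2 : iact M v2 (e s) = iact M (s :: v) (e t) := by
            have f1 : iact M v2 (e s) = iact M (t :: v2) (rs M t (e s)) := by
              rw [Mat_iact_cons, rr]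
            rw [f1, iac _ _ ha2, Mat_rs_a hA ha, Mat_iact_cons, Mat_rs_a hA ha', add_comm]
          have hs2 : e s ∈ Inv M v2 := by
            refine ⟨hA.simple s, ?_⟩
            rw [e2]
            exact ht.2
          obtain ⟨v3, hr3, hwd3, hl3, ha3⟩ := hQ (k - 2) (fun w w' => ih (k - 2) (by omega) w w')
            s v2 (by omega) hr2 hs2
          refine ⟨v3, hr3, by omega, ?_, fun x => ?_⟩
          · rw [Mat_wd_cons, hwd2, hwd3]
            simp only [mul_assoc]
          · rw [Mat_act_cons, ← ha2, Mat_act_cons, ← ha3, Mat_act_cons]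
        obtain ⟨v3, hr3, hl3, hwd3, ha3⟩ := key s t v (by simpa using hk) hw hs ht1 ha
        obtain ⟨v3', hr3', hl3', hwd3', ha3'⟩ := key t s v' (by simp; omega) hw' ht hs1
          (adj_symm ha)
        have e3 : wd M v3 = wd M v3' := by
          refine ih (k - 3) (by omega) v3 v3' (by omega) hr3 hr3' fun x => ?_
          have f1 := hact x
          rw [ha3, ha3', Mat_braid hA ha] at f1
          exact rinj _ _ _ (rinj _ _ _ (rinj _ _ _ f1))
        rw [hwd3, hwd3', e3, art_braid ha]
      · -- not adjacent
        have ha' : ¬ adj M t s := fun h' => ha (adj_symm h')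
        have ht2 : e t ∈ Inv M v := by
          have := ht1.2
          rw [Mat_iact_cons, Mat_rs_n hA (Ne.symm hst) ha'] at this
          exact ⟨hA.simple t, this⟩
        have hs2 : e s ∈ Inv M v' := by
          have := hs1.2
          rw [Mat_iact_cons, Mat_rs_n hA hst ha] at this
          exact ⟨hA.simple s, this⟩
        obtain ⟨v2, hr2, hwd2, hl2, ha2⟩ := hQ (k - 1) (fun w w' => ih (k - 1) (by omega) w w')
          t v (by omega) hv ht2
        obtain ⟨v2', hr2', hwd2', hl2', ha2'⟩ := hQ (k - 1)
          (fun w w' => ih (k - 1) (by omega) w w') s v' (by omega) hv' hs2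
        have e3 : wd M v2 = wd M v2' := by
          refine ih (k - 2) (by omega) v2 v2' (by omega) hr2 hr2' fun x => ?_
          have f1 := hact x
          rw [Mat_act_cons, Mat_act_cons, ← ha2, ← ha2', Mat_act_cons, Mat_act_cons,
            Mat_comm hA hst ha] at f1
          exact rinj _ _ _ (rinj _ _ _ f1)
        rw [Mat_wd_cons, Mat_wd_cons, hwd2, hwd2', e3, ← mul_assoc, ← mul_assoc,
          art_comm hM hst ha]
  exact ⟨fun w w' hw hw' h => hP w.length w w' rfl hw hw' h,
    fun s w hw hs => hQ w.length (fun w w' => hP _ w w') s w rfl hw hs⟩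

end Pool.Agent.Lib.MP_97567f_al
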