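import Pool.Agent.Lib.MP_97567f_al.SpecD

/-!
# MP_97567f_al: the positive monoid acts faithfully
-/

set_option autoImplicit false

namespace Pool.Agent.Lib.MP_97567f_al

open Polynomial

private theorem Mon_mem {n : ℕ} {M : CoxeterMatrix (Fin n)} (hR : RF M) (s : Fin n) :
    e s ∈ roots M Finset.univ := by
  unfold roots
  rw [dif_pos (hR.b.fin Finset.univ), Set.Finite.mem_toFinset]
  exact ⟨hR.a.simple s, fun i hi => absurd (Finset.mem_univ i) hi⟩

private theorem Mon_aeval {R R' : Type} [CommRing R] [CommRing R'] (φ : R →+* R') (q : R)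
    (p : ℤ[X]) : φ (aeval q p) = aeval (φ q) p := by
  rw [aeval_def, aeval_def, hom_eval₂]
  congr 1
  exact RingHom.ext_int _ _

private theorem Mon_map {n : ℕ} (M : CoxeterMatrix (Fin n)) (C : Finset (Fin n))
    {R R' : Type} [CommRing R] [CommRing R'] (φ : R →+* R') (q l : R) (s : Fin n) :
    (lk M C q l s).map φ = lk M C (φ q) (φ l) s := by
  have hx : ∀ (b : Fin n → ℤ) (g : PR M C), φ (xv M C (R := R) b g) = xv M C (R := R') b g := by
    intro b g
    unfold xv
    split_ifs <;> simp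
  ext g b
  simp only [Matrix.map_apply, lk, Matrix.of_apply, img]
  split_ifs <;> simp [hx, Mon_aeval]

private theorem Mon_inj {n : ℕ} {M : CoxeterMatrix (Fin n)} (h2 : SLkQ) (hR : RF M)
    (s : Fin n) (A B : Matrix (PR M Finset.univ) (PR M Finset.univ) ℚ[X])
    (h : lk M Finset.univ (C (1 / 2 : ℚ)) X s * A = lk M Finset.univ (C (1 / 2 : ℚ)) X s * B) :
    A = B := by
  set K := FractionRing ℚ[X] with hK
  set φ : ℚ[X] →+* K := algebraMap ℚ[X] K with hφ
  have hinj : Function.Injective φ := IsFractionRing.injective ℚ[X] K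
  have hq : IsUnit (φ (C (1 / 2 : ℚ))) := by
    refine IsUnit.map φ (IsUnit.map C ?_)
    exact isUnit_iff_ne_zero.2 (by norm_num)
  have hl : IsUnit (φ (X : ℚ[X])) := by
    refine isUnit_iff_ne_zero.2 fun h0 => ?_
    rw [← map_zero φ] at h0
    exact X_ne_zero (hinj h0)
  have hu := (h2 n M hR Finset.univ (fun i _ j _ => Finset.mem_univ j) K (φ (C (1 / 2 : ℚ)))
    (φ X)).2 hq hl s
  rw [← Mon_map] at hu
  have h3 := congrArg (fun D => D.map φ) h
  simp only [Matrix.map_mul] at h3
  have h4 := hu.mul_left_cancel h3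
  refine Matrix.ext fun i j => ?_
  exact hinj (congrFun (congrFun h4 i) j)

theorem pMon (h1 : SHee) (h2 : SLkQ) : SMon := by
  intro n M hS hR hF w
  obtain ⟨hw, hd⟩ := h1 n M hS hR hF
  induction w with
  | nil =>
    intro w' h
    cases w' with
    | nil => rfl
    | cons t w2 =>
      exfalso
      have h3 := (hd (t :: w2) t).1 ⟨w2, by simp [wd]⟩ ⟨e t, Mon_mem hR t⟩ rfl ⟨e t, Mon_mem hR t⟩
      rw [← h] at h3
      simp [Pw] at h3
  | cons s w1 ih =>
    intro w' h
    have h3 := (hd (s :: w1) s).1 ⟨w1, by simp [wd]⟩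
    rw [h] at h3
    obtain ⟨w2, h4⟩ := (hd w' s).2 h3
    have h5 : wd M w' = wd M (s :: w2) := by
      rw [h4]
      simp [wd]
    have h6 : Pw M w' = Pw M (s :: w2) := hw _ _ h5
    rw [h6] at h
    have h7 : ∀ v, Pw M (s :: v) = lk M Finset.univ (C (1 / 2 : ℚ)) X s * Pw M v := by
      intro v
      simp [Pw]
    rw [h7, h7] at h
    have h8 := ih w2 (Mon_inj h2 hR s _ _ h)
    rw [h5]
    simp only [wd, List.map_cons, List.prod_cons] at h8 ⊢
    rw [h8]

end Pool.Agent.Lib.MP_97567f_al
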