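import Pool.Agent.Lib.MP_97567f_al.SpecG

/-!
# MP_97567f_al: module Mono (the monomial representation for `q = 1`)
-/

set_option autoImplicit false

namespace Pool.Agent.Lib.MP_97567f_al

variable {n : ℕ}

private theorem Mono_pr_smul {M : CoxeterMatrix (Fin n)} (k : ℤ) (a : Fin n → ℤ) (s : Fin n) :
    pr M (k • a) s = k * pr M a s := by
  unfold pr
  simp only [Pi.smul_apply, smul_eq_mul]
  rw [mul_sub, Finset.mul_sum]
  congr 1
  · ring
  · refine Finset.sum_congr rfl fun j _ => ?_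
    split_ifs <;> simp

private theorem Mono_pr_ref {M : CoxeterMatrix (Fin n)} (hM : RF M) (b : Fin n → ℤ) (s : Fin n) :
    pr M (b - pr M b s • e s) s = - pr M b s := by
  rw [hM.a.pr_sub, Mono_pr_smul, hM.a.pre]
  ring

private theorem Mono_ref_ref {M : CoxeterMatrix (Fin n)} (hM : RF M) (b : Fin n → ℤ)
    (s : Fin n) :
    (b - pr M b s • e s) - pr M (b - pr M b s • e s) s • e s = b := by
  rw [Mono_pr_ref hM, neg_smul, sub_neg_eq_add, sub_add_cancel]

private theorem Mono_ref_ne {M : CoxeterMatrix (Fin n)} (hM : RF M) (b : Fin n → ℤ)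
    (s : Fin n) (hb : Rt M b) (h : b ≠ e s) : b - pr M b s • e s ≠ e s := by
  intro h1
  have h2 := Mono_pr_ref hM b s
  rw [h1, hM.a.pre] at h2
  rcases hM.a.bnd b s hb h with h3 | h3 | h3 <;> omega

/-- the property of the first part -/
private def Mono_P {M : CoxeterMatrix (Fin n)} (C : Finset (Fin n)) {K : Type} [Field K] (l : K)
    (A : Matrix (PR M C) (PR M C) K) : Prop :=
  ∃ (σ : Equiv.Perm (PR M C)) (k : PR M C → ℤ), ∀ b : PR M C,
    A.mulVec (xv M C b.1) = (l ^ k b) • xv M C (σ b).1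

private theorem Mono_mul {M : CoxeterMatrix (Fin n)} {C : Finset (Fin n)} {K : Type} [Field K]
    {l : K} (hl : l ≠ 0) {A B : Matrix (PR M C) (PR M C) K} (hA : Mono_P C l A)
    (hB : Mono_P C l B) : Mono_P C l (A * B) := by
  obtain ⟨σ, k, h1⟩ := hA
  obtain ⟨τ, m, h2⟩ := hB
  refine ⟨τ.trans σ, fun b => m b + k (τ b), fun b => ?_⟩
  rw [← Matrix.mulVec_mulVec, h2, Matrix.mulVec_smul, h1, smul_smul, ← zpow_add₀ hl]
  rfl

private theorem Mono_inv {M : CoxeterMatrix (Fin n)} {C : Finset (Fin n)} {K : Type} [Field K]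
    {l : K} (hl : l ≠ 0) {A B : Matrix (PR M C) (PR M C) K} (hA : Mono_P C l A)
    (hBA : B * A = 1) : Mono_P C l B := by
  obtain ⟨σ, k, h1⟩ := hA
  refine ⟨σ.symm, fun b => - k (σ.symm b), fun b => ?_⟩
  have h2 := h1 (σ.symm b)
  rw [Equiv.apply_symm_apply] at h2
  have h3 : B.mulVec (A.mulVec (xv M C (σ.symm b).1)) = xv M C (σ.symm b).1 := by
    rw [Matrix.mulVec_mulVec, hBA, Matrix.one_mulVec]
  rw [h2, Matrix.mulVec_smul] at h3
  rw [← h3, smul_smul, ← zpow_add₀ hl, neg_add_cancel, zpow_zero, one_smul]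

private theorem Mono_gen (h1 : SLkA) (h2 : SLkO) {M : CoxeterMatrix (Fin n)} (hM : RF M)
    (hF : FH M (fh M)) {C : Finset (Fin n)} (hC : Sat M C) {K : Type} [Field K] (l : K)
    (s : Fin n) : Mono_P C l (lk M C 1 l s) := by
  obtain ⟨a1, -, -, a4, a5⟩ := h1 n M hM C
  by_cases hs : s ∈ C
  · have hO := h2 n M hM hF C hC K l s
    classical
    let f : PR M C → PR M C := fun b =>
      if h : b.1 = e s then b else ⟨b.1 - (pr M b.1 s) • e s, ((hO b.1 b.2).2 h).1⟩
    have hf0 : ∀ b : PR M C, b.1 = e s → f b = b := fun b h => by simp only [f, dif_pos h]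
    have hf1 : ∀ b : PR M C, b.1 ≠ e s → (f b).1 = b.1 - (pr M b.1 s) • e s := fun b h => by
      simp only [f, dif_neg h]
    have hff : Function.Involutive f := by
      intro b
      by_cases h : b.1 = e s
      · rw [hf0 b h, hf0 b h]
      · have h3 := hf1 b h
        have h4 : (f b).1 ≠ e s := by
          rw [h3]
          exact Mono_ref_ne hM b.1 s ((a1 b.1).1 b.2).1 h
        refine Subtype.ext ?_
        rw [hf1 (f b) h4, h3, Mono_ref_ref hM]
    refine ⟨hff.toPerm, fun b => if b.1 = e s then 1 else 0, fun b => ?_⟩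
    rw [Function.Involutive.coe_toPerm]
    simp only
    by_cases h : b.1 = e s
    · rw [hf0 b h, if_pos h, zpow_one]
      exact (hO b.1 b.2).1 h
    · rw [hf1 b h, if_neg h, zpow_zero, one_smul]
      exact ((hO b.1 b.2).2 h).2
  · refine ⟨Equiv.refl _, fun _ => 0, fun b => ?_⟩
    rw [(a5 K 1 l).2.2.2 hC s hs, Matrix.one_mulVec, zpow_zero, one_smul]
    rfl

/-- the relation of the second part -/
private def Mono_R (M : CoxeterMatrix (Fin n)) (C : Finset (Fin n)) {K : Type} [Field K] (l : K)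
    (b c : Fin n → ℤ) : Prop :=
  ∃ (x : Art M) (k : ℤ),
      (LKr M C 1 l x).1.mulVec (xv M C b) = (l ^ k) • xv M C c

private theorem Mono_R_refl (M : CoxeterMatrix (Fin n)) (C : Finset (Fin n)) {K : Type} [Field K]
    (l : K) (b : Fin n → ℤ) : Mono_R M C l b b := by
  refine ⟨1, 0, ?_⟩
  rw [map_one, Units.val_one, Matrix.one_mulVec, zpow_zero, one_smul]

private theorem Mono_R_trans {M : CoxeterMatrix (Fin n)} {C : Finset (Fin n)} {K : Type} [Field K]
    {l : K} (hl : l ≠ 0) {b c d : Fin n → ℤ} (h1 : Mono_R M C l b c) (h2 : Mono_R M C l c d) :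
    Mono_R M C l b d := by
  obtain ⟨x, k, h1⟩ := h1
  obtain ⟨y, m, h2⟩ := h2
  refine ⟨y * x, k + m, ?_⟩
  rw [map_mul, Units.val_mul, ← Matrix.mulVec_mulVec, h1, Matrix.mulVec_smul, h2, smul_smul,
    ← zpow_add₀ hl]

private theorem Mono_R_symm {M : CoxeterMatrix (Fin n)} {C : Finset (Fin n)} {K : Type} [Field K]
    {l : K} (hl : l ≠ 0) {b c : Fin n → ℤ} (h1 : Mono_R M C l b c) : Mono_R M C l c b := by
  obtain ⟨x, k, h1⟩ := h1
  refine ⟨x⁻¹, -k, ?_⟩
  have h3 : (LKr M C 1 l x⁻¹).1.mulVec ((LKr M C 1 l x).1.mulVec (xv M C b)) = xv M C b := by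
    rw [Matrix.mulVec_mulVec, ← Units.val_mul, ← map_mul, inv_mul_cancel, map_one,
      Units.val_one, Matrix.one_mulVec]
  rw [h1, Matrix.mulVec_smul] at h3
  rw [← h3, smul_smul, ← zpow_add₀ hl, neg_add_cancel, zpow_zero, one_smul]

theorem pMono (h1 : SLkA) (h2 : SLkO) (h3 : SLKr) : SMono := by
  intro n M hSL hM hF C hC K _ l hl
  obtain ⟨a1, a2, a3, a4, a5⟩ := h1 n M hM C
  have hO := h2 n M hM hF C hC K l
  have hr := (h3 n M hSL hM hF C hC).1 K 1 l isUnit_one (isUnit_iff_ne_zero.2 hl)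
  have hgen : ∀ s, Mono_P C l (LKr M C 1 l (gn M s)).1 := fun s => by
    rw [hr]
    exact Mono_gen h1 h2 hM hF hC l s
  refine ⟨fun x => ?_, fun hcon => ?_⟩
  · induction x using art_induction with
    | h1 =>
      refine ⟨Equiv.refl _, fun _ => 0, fun b => ?_⟩
      rw [map_one, Units.val_one, Matrix.one_mulVec, zpow_zero, one_smul]
      rfl
    | hg i x ih =>
      rw [map_mul, Units.val_mul]
      exact Mono_mul hl (hgen i) ih
    | hi i x ih =>
      rw [map_mul, Units.val_mul]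
      refine Mono_mul hl (Mono_inv hl (hgen i) ?_) ih
      rw [← Units.val_mul, ← map_mul, inv_mul_cancel, map_one, Units.val_one]
  · have hstep : ∀ (b : Fin n → ℤ) (s : Fin n), b ∈ roots M C → b ≠ e s →
        Mono_R M C l b (b - pr M b s • e s) := by
      intro b s hb h
      refine ⟨gn M s, 0, ?_⟩
      rw [hr, ((hO s b hb).2 h).2, zpow_zero, one_smul]
    -- adjacent nodes
    have hadj : ∀ s t, s ∈ C → adj M s t → Mono_R M C l (e s) (e t) := by
      intro s t hs hst
      have hes := (a4 s).2 hs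
      have ht := hC s hs t hst
      have e1 : e s ≠ (e t : Fin n → ℤ) := by
        intro h
        have h4 := hM.a.pra s t hst
        rw [h, hM.a.pre] at h4
        norm_num at h4
      have r1 := hstep (e s) t hes e1
      rw [hM.a.pra s t hst, neg_one_zsmul, sub_neg_eq_add] at r1
      have hst' : pr M (e s + e t) s = 1 := by
        rw [hM.a.pr_add, hM.a.pre, hM.a.pra t s (adj_symm hst)]
        norm_num
      have r2 := hstep (e s + e t) s (a2 _ hes t (hM.a.pra s t hst) ht) (fun h => by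
        rw [h, hM.a.pre] at hst'
        norm_num at hst')
      rw [hst', one_zsmul, add_sub_cancel_left] at r2
      exact Mono_R_trans hl r1 r2
    have hsimp : ∀ s t, s ∈ C → Relation.ReflTransGen (adj M) s t →
        t ∈ C ∧ Mono_R M C l (e s) (e t) := by
      intro s t hs h
      induction h with
      | refl => exact ⟨hs, Mono_R_refl M C l _⟩
      | tail _ hjk ih =>
        rename_i j k _
        exact ⟨hC j ih.1 k hjk, Mono_R_trans hl ih.2 (hadj j k ih.1 hjk)⟩
    have hroot : ∀ m : ℕ, ∀ b ∈ roots M C, ht b ≤ m → ∃ s ∈ C, Mono_R M C l b (e s) := by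
      intro m
      induction m with
      | zero =>
        intro b hb h
        have := hM.b.ht1 b ((a1 b).1 hb).1
        omega
      | succ m ih =>
        intro b hb h
        by_cases hsim : ∃ t, b = e t
        · obtain ⟨t, rfl⟩ := hsim
          exact ⟨t, (a4 t).1 hb, Mono_R_refl M C l _⟩
        · push Not at hsim
          obtain ⟨u, hu⟩ := hM.a.desc b ((a1 b).1 hb).1 hsim
          have hht := hM.b.htd b u ((a1 b).1 hb).1 hu
          obtain ⟨s, hs, h5⟩ := ih _ (a3 b hb u hu) (by omega)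
          have h6 := hstep b u hb (hsim u)
          rw [hu, one_zsmul] at h6
          exact ⟨s, hs, Mono_R_trans hl h6 h5⟩
    intro b c
    obtain ⟨s, hs, h5⟩ := hroot _ b.1 b.2 le_rfl
    obtain ⟨t, ht, h6⟩ := hroot _ c.1 c.2 le_rfl
    exact Mono_R_trans hl (Mono_R_trans hl h5 (hsimp s t hs (hcon s hs t ht)).2)
      (Mono_R_symm hl h6)

end Pool.Agent.Lib.MP_97567f_al
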