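import Pool.Agent.Lib.MP_97567f_al.SpecR

/-!
# MP_97567f_al: a finite simply laced Coxeter group has a positive definite form
-/

set_option autoImplicit false

namespace Pool.Agent.Lib.MP_97567f_al

section Pos

variable {n : ℕ}

/-- The real pairing. -/
private noncomputable def Pos_p (M : CoxeterMatrix (Fin n)) (x : Fin n → ℝ) (s : Fin n) : ℝ :=
  2 * x s - ∑ j, if adj M j s then x j else 0

private theorem Pos_p_add (M : CoxeterMatrix (Fin n)) (x y : Fin n → ℝ) (s : Fin n) :
    Pos_p M (x + y) s = Pos_p M x s + Pos_p M y s := by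
  have h : ∀ j, (if adj M j s then (x + y) j else 0) =
      (if adj M j s then x j else 0) + (if adj M j s then y j else 0) := by
    intro j
    split_ifs
    · rfl
    · rw [add_zero]
  unfold Pos_p
  rw [Finset.sum_congr rfl fun j _ => h j, Finset.sum_add_distrib, Pi.add_apply]
  ring

private theorem Pos_p_smul (M : CoxeterMatrix (Fin n)) (c : ℝ) (x : Fin n → ℝ) (s : Fin n) :
    Pos_p M (c • x) s = c * Pos_p M x s := by
  have h : ∀ j, (if adj M j s then (c • x) j else 0) =
      c * (if adj M j s then x j else 0) := by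
    intro j
    split_ifs
    · rfl
    · rw [mul_zero]
  unfold Pos_p
  rw [Finset.sum_congr rfl fun j _ => h j, ← Finset.mul_sum, Pi.smul_apply, smul_eq_mul]
  ring

private theorem Pos_p_sub (M : CoxeterMatrix (Fin n)) (x y : Fin n → ℝ) (s : Fin n) :
    Pos_p M (x - y) s = Pos_p M x s - Pos_p M y s := by
  have h := Pos_p_add M (x - y) y s
  rw [sub_add_cancel] at h
  rw [h]
  ring

/-- The real simple roots. -/
private noncomputable def Pos_e (s : Fin n) : Fin n → ℝ := Pi.single s 1

private theorem Pos_p_e (M : CoxeterMatrix (Fin n)) (t s : Fin n) :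
    Pos_p M (Pos_e t) s = 2 * (if s = t then 1 else 0) - (if adj M t s then 1 else 0) := by
  unfold Pos_p Pos_e
  have h : ∑ j, (if adj M j s then (Pi.single t (1 : ℝ) : Fin n → ℝ) j else 0) =
      if adj M t s then 1 else 0 := by
    rw [Finset.sum_eq_single t]
    · rw [Pi.single_eq_same]
    · intro j _ hj
      rw [Pi.single_eq_of_ne hj, ite_self]
    · intro h
      exact absurd (Finset.mem_univ t) h
  rw [h, Pi.single_apply]

private theorem Pos_pe (M : CoxeterMatrix (Fin n)) (s : Fin n) : Pos_p M (Pos_e s) s = 2 := by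
  rw [Pos_p_e, if_pos rfl, if_neg (adj_irrefl s)]
  ring

private theorem Pos_pa (M : CoxeterMatrix (Fin n)) {t s : Fin n} (h : adj M t s) :
    Pos_p M (Pos_e t) s = -1 := by
  rw [Pos_p_e, if_neg (adj_ne h).symm, if_pos h]
  ring

private theorem Pos_pn (M : CoxeterMatrix (Fin n)) {t s : Fin n} (hne : t ≠ s)
    (h : ¬ adj M t s) : Pos_p M (Pos_e t) s = 0 := by
  rw [Pos_p_e, if_neg hne.symm, if_neg h]
  ring

/-- The real reflections. -/
private noncomputable def Pos_r (M : CoxeterMatrix (Fin n)) (s : Fin n) :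
    Module.End ℝ (Fin n → ℝ) where
  toFun x := x - Pos_p M x s • Pos_e s
  map_add' x y := by
    rw [Pos_p_add, add_smul]
    abel
  map_smul' c x := by
    rw [Pos_p_smul, RingHom.id_apply, smul_sub, mul_smul]

private theorem Pos_r_apply (M : CoxeterMatrix (Fin n)) (s : Fin n) (x : Fin n → ℝ) :
    Pos_r M s x = x - Pos_p M x s • Pos_e s := rfl

private theorem Pos_p_r (M : CoxeterMatrix (Fin n)) (s t : Fin n) (x : Fin n → ℝ) :
    Pos_p M (Pos_r M s x) t = Pos_p M x t - Pos_p M x s * Pos_p M (Pos_e s) t := by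
  rw [Pos_r_apply, Pos_p_sub, Pos_p_smul]

private theorem Pos_rr (M : CoxeterMatrix (Fin n)) (s : Fin n) :
    Pos_r M s * Pos_r M s = 1 := by
  refine LinearMap.ext fun x => ?_
  rw [Module.End.mul_apply, Module.End.one_apply, Pos_r_apply M s (Pos_r M s x), Pos_p_r,
    Pos_pe, Pos_r_apply]
  funext i
  simp only [Pi.sub_apply, Pi.smul_apply, smul_eq_mul]
  ring

private theorem Pos_comm (M : CoxeterMatrix (Fin n)) {s t : Fin n} (hst : s ≠ t)
    (h : ¬ adj M s t) : Pos_r M s * Pos_r M t = Pos_r M t * Pos_r M s := by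
  refine LinearMap.ext fun x => ?_
  rw [Module.End.mul_apply, Module.End.mul_apply, Pos_r_apply M s (Pos_r M t x),
    Pos_r_apply M t (Pos_r M s x), Pos_p_r, Pos_p_r, Pos_pn M hst h,
    Pos_pn M hst.symm fun h' => h (adj_symm h'), Pos_r_apply, Pos_r_apply]
  funext i
  simp only [Pi.sub_apply, Pi.smul_apply, smul_eq_mul]
  ring

private theorem Pos_braid (M : CoxeterMatrix (Fin n)) {s t : Fin n} (h : adj M s t) :
    Pos_r M s * Pos_r M t * Pos_r M s = Pos_r M t * Pos_r M s * Pos_r M t := by
  have h' := adj_symm h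
  refine LinearMap.ext fun x => ?_
  simp only [Module.End.mul_apply]
  rw [Pos_r_apply M s (Pos_r M t (Pos_r M s x)), Pos_r_apply M t (Pos_r M s (Pos_r M t x))]
  simp only [Pos_p_r]
  rw [Pos_r_apply M t (Pos_r M s x), Pos_r_apply M s (Pos_r M t x), Pos_p_r, Pos_p_r,
    Pos_r_apply, Pos_r_apply, Pos_pe, Pos_pe, Pos_pa M h, Pos_pa M h']
  funext i
  simp only [Pi.sub_apply, Pi.smul_apply, smul_eq_mul]
  ring

private theorem Pos_lift (M : CoxeterMatrix (Fin n))
    (hM : ∀ i j, i ≠ j → M.M i j = 2 ∨ M.M i j = 3) : M.IsLiftable (Pos_r M) := by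
  intro i j
  by_cases hij : i = j
  · subst hij
    rw [Pos_rr, one_pow]
  · by_cases ha : adj M i j
    · have h3 : M i j = 3 := ha
      have hb := Pos_braid M ha
      rw [h3, pow_succ, pow_two]
      have e1 : Pos_r M i * Pos_r M j * (Pos_r M i * Pos_r M j) * (Pos_r M i * Pos_r M j) =
          (Pos_r M i * Pos_r M j * Pos_r M i) * (Pos_r M j * Pos_r M i * Pos_r M j) := by
        simp only [mul_assoc]
      rw [e1, ← hb]
      have e2 : (Pos_r M i * Pos_r M j * Pos_r M i) * (Pos_r M i * Pos_r M j * Pos_r M i) =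
          Pos_r M i * (Pos_r M j * (Pos_r M i * Pos_r M i) * Pos_r M j) * Pos_r M i := by
        simp only [mul_assoc]
      rw [e2, Pos_rr, mul_one, Pos_rr, mul_one, Pos_rr]
    · have h2 : M i j = 2 := (hM i j hij).resolve_right ha
      have hc := Pos_comm M hij ha
      rw [h2, pow_two]
      nth_rewrite 2 [hc]
      have e1 : Pos_r M i * Pos_r M j * (Pos_r M j * Pos_r M i) =
          Pos_r M i * (Pos_r M j * Pos_r M j) * Pos_r M i := by
        simp only [mul_assoc]
      rw [e1, Pos_rr, mul_one, Pos_rr]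

private theorem Pos_main (M : CoxeterMatrix (Fin n))
    (hM : ∀ i j, i ≠ j → M.M i j = 2 ∨ M.M i j = 3) (hf : Finite M.Group)
    (z : Fin n → ℤ) (hz : z ≠ 0) : 0 < bf M z z := by
  classical
  have := Fintype.ofFinite M.Group
  let cs := M.toCoxeterSystem
  let φ : M.Group →* Module.End ℝ (Fin n → ℝ) := cs.lift ⟨Pos_r M, Pos_lift M hM⟩
  have hφ : ∀ s, φ (cs.simple s) = Pos_r M s := fun s => cs.lift_apply_simple (Pos_lift M hM) s
  let H : (Fin n → ℝ) → (Fin n → ℝ) → ℝ := fun x y => ∑ g : M.Group, ∑ i, φ g x i * φ g y i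
  have Hadd : ∀ x y w, H (x + y) w = H x w + H y w := by
    intro x y w
    simp only [H, map_add, Pi.add_apply, add_mul, Finset.sum_add_distrib]
  have Hsmul : ∀ (c : ℝ) x w, H (c • x) w = c * H x w := by
    intro c x w
    simp only [H, map_smul, Pi.smul_apply, smul_eq_mul, mul_assoc, Finset.mul_sum]
  have Hsymm : ∀ x y, H x y = H y x := by
    intro x y
    exact Finset.sum_congr rfl fun g _ => Finset.sum_congr rfl fun i _ => mul_comm _ _
  have Hpos : ∀ x, x ≠ 0 → 0 < H x x := by
    intro x hx
    obtain ⟨i, hi⟩ := Function.ne_iff.1 hx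
    have hi' : 0 < φ 1 x i * φ 1 x i := by
      rw [map_one, Module.End.one_apply]
      exact mul_self_pos.2 hi
    refine Finset.sum_pos' (fun g _ => Finset.sum_nonneg fun i _ => mul_self_nonneg _)
      ⟨1, Finset.mem_univ _, ?_⟩
    exact Finset.sum_pos' (fun i _ => mul_self_nonneg _) ⟨i, Finset.mem_univ _, hi'⟩
  have Hinv : ∀ s x y, H (Pos_r M s x) (Pos_r M s y) = H x y := by
    intro s x y
    simp only [H]
    rw [← hφ s]
    have e1 : ∀ (g : M.Group) (w : Fin n → ℝ), φ g (φ (cs.simple s) w) =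
        φ (g * cs.simple s) w := by
      intro g w
      rw [map_mul, Module.End.mul_apply]
    simp only [e1]
    exact Fintype.sum_equiv (Equiv.mulRight (cs.simple s)) _ _ fun g => rfl
  have Hneg : ∀ x w, H (-x) w = -H x w := by
    intro x w
    have := Hsmul (-1) x w
    rw [neg_smul, one_smul] at this
    rw [this]
    ring
  have Hsub : ∀ x y w, H (x - y) w = H x w - H y w := by
    intro x y w
    rw [sub_eq_add_neg, Hadd, Hneg]
    ring
  have rself : ∀ s, Pos_r M s (Pos_e s) = -Pos_e s := by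
    intro s
    rw [Pos_r_apply, Pos_pe]
    funext i
    simp only [Pi.sub_apply, Pi.smul_apply, smul_eq_mul, Pi.neg_apply]
    ring
  let h : Fin n → ℝ := fun s => H (Pos_e s) (Pos_e s)
  have e_ne : ∀ s : Fin n, Pos_e s ≠ 0 := by
    intro s h0
    have := congrFun h0 s
    unfold Pos_e at this
    rw [Pi.single_eq_same, Pi.zero_apply] at this
    exact one_ne_zero this
  have hpos : ∀ s, 0 < h s := fun s => Hpos _ (e_ne s)
  have Hp : ∀ x s, 2 * H x (Pos_e s) = Pos_p M x s * h s := by
    intro x s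
    have h1 := Hinv s x (Pos_e s)
    rw [rself, Hsymm, Hneg, Hsymm, Pos_r_apply, Hsub, Hsmul] at h1
    simp only [h]
    linarith
  have hadj : ∀ s t, adj M s t → h s = h t := by
    intro s t hst
    have h1 := Hp (Pos_e t) s
    have h2 := Hp (Pos_e s) t
    rw [Pos_pa M (adj_symm hst)] at h1
    rw [Pos_pa M hst, Hsymm] at h2
    linarith
  let u : Fin n → ℝ := fun s => (z s : ℝ) / √(h s)
  have hu : u ≠ 0 := by
    obtain ⟨i, hi⟩ := Function.ne_iff.1 hz
    intro h0
    have h1 := congrFun h0 i
    simp only [u, Pi.zero_apply, div_eq_zero_iff, Int.cast_eq_zero] at h1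
    rcases h1 with h1 | h1
    · exact hi h1
    · exact absurd h1 (Real.sqrt_pos.2 (hpos i)).ne'
  have husum : u = ∑ s, u s • Pos_e s := by
    funext i
    rw [Finset.sum_apply, Finset.sum_eq_single i]
    · simp only [Pi.smul_apply, smul_eq_mul, Pos_e, Pi.single_eq_same, mul_one]
    · intro j _ hj
      simp only [Pi.smul_apply, smul_eq_mul, Pos_e]
      rw [Pi.single_eq_of_ne hj.symm, mul_zero]
    · intro h
      exact absurd (Finset.mem_univ i) h
  have Hsum : ∀ w : Fin n → ℝ, H (∑ s, u s • Pos_e s) w = ∑ s, u s * H (Pos_e s) w := by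
    intro w
    have : ∀ S : Finset (Fin n), H (∑ s ∈ S, u s • Pos_e s) w =
        ∑ s ∈ S, u s * H (Pos_e s) w := by
      intro S
      induction S using Finset.induction_on with
      | empty =>
        rw [Finset.sum_empty, Finset.sum_empty]
        have := Hsmul 0 0 w
        rw [zero_smul, zero_mul] at this
        exact this
      | insert a S ha ih =>
        rw [Finset.sum_insert ha, Finset.sum_insert ha, Hadd, Hsmul, ih]
    exact this Finset.univ
  have key : 2 * H u u = (bf M z z : ℝ) := by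
    have e1 : H u u = ∑ s, u s * H (Pos_e s) u := by
      conv_lhs => rw [show H u u = H (∑ s, u s • Pos_e s) u by rw [← husum]]
      exact Hsum u
    rw [e1, Finset.mul_sum]
    unfold bf
    rw [Int.cast_sum]
    refine Finset.sum_congr rfl fun s _ => ?_
    have hs := hpos s
    have hsq : √(h s) * √(h s) = h s := Real.mul_self_sqrt hs.le
    have hsn : √(h s) ≠ 0 := (Real.sqrt_pos.2 hs).ne'
    have e2 : 2 * (u s * H (Pos_e s) u) = u s * (Pos_p M u s * h s) := by
      rw [← Hp, Hsymm]
      ring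
    have e3 : Pos_p M u s * √(h s) = (pr M z s : ℝ) := by
      unfold Pos_p pr
      rw [sub_mul, Finset.sum_mul]
      push_cast
      have e4 : 2 * u s * √(h s) = 2 * (z s : ℝ) := by
        simp only [u]
        field_simp
      rw [e4]
      congr 1
      refine Finset.sum_congr rfl fun j _ => ?_
      by_cases hj : adj M j s
      · rw [if_pos hj, if_pos hj]
        simp only [u]
        rw [hadj j s hj]
        field_simp
      · rw [if_neg hj, if_neg hj, zero_mul]
    have e5 : u s * √(h s) = (z s : ℝ) := by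
      simp only [u]
      field_simp
    rw [e2, Int.cast_mul, ← e3, ← e5]
    linear_combination (-(u s * Pos_p M u s)) * hsq
  have h1 := Hpos u hu
  have h2 : (0 : ℝ) < (bf M z z : ℝ) := by
    rw [← key]
    linarith
  exact_mod_cast h2

end Pos

/-- **A finite simply laced Coxeter group has a positive definite form.** -/
theorem pPos : SPos := by
  intro n M hM hf
  exact ⟨hM, fun x hx => Pos_main M hM hf x hx⟩

end Pool.Agent.Lib.MP_97567f_al
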