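import Pool.Agent.Lib.MP_97567f_al.SpecR

/-!
# MP_97567f_al, module RF2: more facts on roots, finiteness
-/

set_option autoImplicit false

namespace Pool.Agent.Lib.MP_97567f_al

variable {n : ℕ} {M : CoxeterMatrix (Fin n)}

private theorem RF2_bf_add_left (a a' b : Fin n → ℤ) :
    bf M (a + a') b = bf M a b + bf M a' b := by
  unfold bf
  rw [← Finset.sum_add_distrib]
  refine Finset.sum_congr rfl fun s _ => ?_
  rw [Pi.add_apply, add_mul]

private theorem RF2_bf_add_right (h : RF1 M) (a b b' : Fin n → ℤ) :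
    bf M a (b + b') = bf M a b + bf M a b' := by
  unfold bf
  rw [← Finset.sum_add_distrib]
  refine Finset.sum_congr rfl fun s _ => ?_
  rw [h.pr_add, mul_add]

/-- The matrix of the form. -/
private def RF2_G (M : CoxeterMatrix (Fin n)) : Matrix (Fin n) (Fin n) ℤ :=
  Matrix.of fun s j => (if j = s then 2 else 0) - (if adj M j s then 1 else 0)

private theorem RF2_pr (b : Fin n → ℤ) : (RF2_G M).mulVec b = pr M b := by
  funext s
  unfold pr RF2_G Matrix.mulVec dotProduct
  simp only [Matrix.of_apply, sub_mul, Finset.sum_sub_distrib, ite_mul, zero_mul, one_mul,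
    Finset.sum_ite_eq', Finset.mem_univ, if_true]

private theorem RF2_bf (a b : Fin n → ℤ) : bf M a b = dotProduct a ((RF2_G M).mulVec b) := by
  rw [RF2_pr]
  rfl

private theorem RF2_symm (a b : Fin n → ℤ) : bf M a b = bf M b a := by
  have hT : (RF2_G M).transpose = RF2_G M := by
    ext i j
    unfold RF2_G
    simp only [Matrix.transpose_apply, Matrix.of_apply]
    have h1 : (i = j) = (j = i) := propext ⟨Eq.symm, Eq.symm⟩
    have h2 : adj M i j = adj M j i := propext ⟨adj_symm, adj_symm⟩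
    simp only [h1, h2]
  rw [RF2_bf, RF2_bf, Matrix.dotProduct_mulVec, ← Matrix.mulVec_transpose, hT, dotProduct_comm]

private theorem RF2_e (s : Fin n) (b : Fin n → ℤ) : bf M (e s) b = pr M b s := by
  unfold bf e
  rw [Finset.sum_eq_single s]
  · rw [Pi.single_eq_same, one_mul]
  · intro t _ ht
    rw [Pi.single_eq_of_ne ht, zero_mul]
  · intro h
    exact absurd (Finset.mem_univ s) h

private theorem RF2_smul_left (k : ℤ) (a b : Fin n → ℤ) :
    bf M (k • a) b = k * bf M a b := by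
  rw [RF2_bf, RF2_bf, smul_dotProduct, smul_eq_mul]

private theorem RF2_zero : bf M (0 : Fin n → ℤ) 0 = 0 := by
  rw [RF2_bf, zero_dotProduct]

private theorem RF2_nonneg (hM : SL M) (x : Fin n → ℤ) : 0 ≤ bf M x x := by
  by_cases hx : x = 0
  · rw [hx, RF2_zero]
  · exact (hM.pos x hx).le

private theorem RF2_esame (s : Fin n) : (e s : Fin n → ℤ) s = 1 := by
  unfold e
  rw [Pi.single_eq_same]

private theorem RF2_enonneg (s t : Fin n) : 0 ≤ (e s : Fin n → ℤ) t := by
  unfold e
  by_cases h : t = s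
  · rw [h, Pi.single_eq_same]
    norm_num
  · rw [Pi.single_eq_of_ne h]

private theorem RF2_tri (hM : SL M) (h : RF1 M) (i j k : Fin n) (hij : adj M i j)
    (hjk : adj M j k) : ¬ adj M i k := by
  intro hik
  have hx : e i + e j + e k ≠ (0 : Fin n → ℤ) := by
    intro h0
    have h1 := congrFun h0 j
    rw [Pi.add_apply, Pi.add_apply, RF2_esame] at h1
    have h2 := RF2_enonneg i j
    have h3 := RF2_enonneg k j
    have h4 : (0 : Fin n → ℤ) j = 0 := rfl
    omega
  have h1 := hM.pos _ hx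
  rw [RF2_bf_add_left, RF2_bf_add_left, RF2_bf_add_right h, RF2_bf_add_right h,
    RF2_bf_add_right h, RF2_bf_add_right h, RF2_bf_add_right h, RF2_bf_add_right h] at h1
  simp only [RF2_e] at h1
  rw [h.pre i, h.pre j, h.pre k, h.pra _ _ hij, h.pra _ _ (adj_symm hij), h.pra _ _ hjk,
    h.pra _ _ (adj_symm hjk), h.pra _ _ hik, h.pra _ _ (adj_symm hik)] at h1
  omega

private theorem RF2_nomm (hM : SL M) (h : RF1 M) (b : Fin n → ℤ) (s t : Fin n) (hb : Rt M b)
    (hst : adj M s t) (h1 : pr M b s = -1) (h2 : pr M b t = -1) : False := by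
  have hx : b + e s + e t ≠ (0 : Fin n → ℤ) := by
    intro h0
    have h1 := congrFun h0 s
    rw [Pi.add_apply, Pi.add_apply, RF2_esame] at h1
    have h2 := RF2_enonneg t s
    have h3 := hb.2 s
    have h4 : (0 : Fin n → ℤ) s = 0 := rfl
    omega
  have h3 := hM.pos _ hx
  rw [RF2_bf_add_left, RF2_bf_add_left, RF2_bf_add_right h, RF2_bf_add_right h,
    RF2_bf_add_right h, RF2_bf_add_right h, RF2_bf_add_right h, RF2_bf_add_right h,
    RF2_symm b (e s), RF2_symm b (e t)] at h3
  simp only [RF2_e] at h3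
  rw [h.pre s, h.pre t, h.pra _ _ hst, h.pra _ _ (adj_symm hst), h1, h2, hb.1] at h3
  omega

private theorem RF2_pp (h : RF1 M) (b : Fin n → ℤ) (s t : Fin n) (hb : Rt M b)
    (hst : adj M s t) (h1 : pr M b s = 1) (h2 : pr M b t = 1) : b = e s + e t := by
  have h3 := h.down b s hb h1
  have h4 : pr M (b - e s) t = 2 := by
    rw [h.pr_sub, h2, h.pra _ _ hst]
    norm_num
  by_contra hne
  have h5 : b - e s ≠ e t := by
    intro h6
    exact hne (by rw [← h6]; abel)
  have h6 := h.bnd _ t h3 h5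
  omega

private theorem RF2_hte (s : Fin n) : ht (e s) = 1 := by
  unfold ht e
  rw [Finset.sum_pi_single']
  simp

private theorem RF2_sume (s : Fin n) : ∑ i, (e s : Fin n → ℤ) i = 1 := by
  unfold e
  rw [Finset.sum_pi_single']
  simp

private theorem RF2_htu (b : Fin n → ℤ) (s : Fin n) (hb : Rt M b) :
    ht (b + e s) = ht b + 1 := by
  unfold ht
  have h1 : ∑ i, (b + e s) i = ∑ i, b i + 1 := by
    rw [← RF2_sume s, ← Finset.sum_add_distrib]
    rfl
  have h2 : 0 ≤ ∑ i, b i := Finset.sum_nonneg fun i _ => hb.2 i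
  rw [h1]
  omega

private theorem RF2_htd (h : RF1 M) (b : Fin n → ℤ) (s : Fin n) (hb : Rt M b)
    (h1 : pr M b s = 1) : ht b = ht (b - e s) + 1 := by
  rw [← RF2_htu (b - e s) s (h.down b s hb h1), sub_add_cancel]

private theorem RF2_ht1 (b : Fin n → ℤ) (hb : Rt M b) : 1 ≤ ht b := by
  unfold ht
  have hb0 : b ≠ 0 := by
    intro h0
    have h1 := hb.1
    rw [h0, RF2_zero] at h1
    omega
  obtain ⟨i, hi⟩ := Function.ne_iff.1 hb0
  have h1 : 1 ≤ b i := by
    have h2 := hb.2 i
    have h3 : b i ≠ 0 := hi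
    omega
  have h2 : b i ≤ ∑ j, b j := Finset.single_le_sum (fun j _ => hb.2 j) (Finset.mem_univ i)
  omega

private theorem RF2_ht1e (h : RF1 M) (b : Fin n → ℤ) (hb : Rt M b) (h1 : ht b = 1) :
    ∃ s, b = e s := by
  by_contra hne
  push Not at hne
  obtain ⟨s, hs⟩ := h.desc b hb hne
  have h2 := RF2_htd h b s hb hs
  have h3 := RF2_ht1 _ (h.down b s hb hs)
  omega

private theorem RF2_det (hM : SL M) : (RF2_G M).det ≠ 0 := by
  intro h0
  obtain ⟨v, hv, h1⟩ := Matrix.exists_mulVec_eq_zero_iff.2 h0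
  have h2 := hM.pos v hv
  rw [RF2_bf, h1, dotProduct_zero] at h2
  exact lt_irrefl _ h2

private theorem RF2_dual (i : Fin n) : ∃ c : Fin n → ℤ, ∀ x : Fin n → ℤ,
    bf M x c = (RF2_G M).det * x i := by
  refine ⟨(RF2_G M).adjugate.mulVec (Pi.single i 1), fun x => ?_⟩
  rw [RF2_bf, Matrix.mulVec_mulVec, Matrix.mul_adjugate, Matrix.smul_mulVec, Matrix.one_mulVec,
    dotProduct_smul, dotProduct_single, mul_one, smul_eq_mul]

private theorem RF2_cs (hM : SL M) (h : RF1 M) (x c : Fin n → ℤ) (hx : bf M x x = 2) :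
    bf M x c ^ 2 ≤ 2 * bf M c c := by
  have h1 := RF2_nonneg hM ((2 : ℤ) • c + (-bf M x c) • x)
  have h2 : bf M ((2 : ℤ) • c + (-bf M x c) • x) ((2 : ℤ) • c + (-bf M x c) • x) =
      2 * (2 * bf M c c - bf M x c ^ 2) := by
    rw [RF2_bf_add_left, RF2_bf_add_right h, RF2_bf_add_right h, RF2_smul_left, RF2_smul_left,
      RF2_smul_left, RF2_smul_left, RF2_symm c ((2 : ℤ) • c), RF2_symm c (-bf M x c • x),
      RF2_symm x ((2 : ℤ) • c), RF2_symm x (-bf M x c • x), RF2_smul_left, RF2_smul_left,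
      RF2_smul_left, RF2_smul_left, RF2_symm c x, hx]
    ring
  rw [h2] at h1
  linarith

private theorem RF2_fin (hM : SL M) (h : RF1 M) (C : Finset (Fin n)) :
    {b : Fin n → ℤ | Rt M b ∧ ∀ i, i ∉ C → b i = 0}.Finite := by
  choose c hc using fun i => RF2_dual (M := M) i
  refine (Set.finite_Icc (fun i => -(2 * bf M (c i) (c i)))
    (fun i => 2 * bf M (c i) (c i))).subset ?_
  rintro b ⟨hb, -⟩
  have hd := RF2_det hM
  have h1 : ∀ i, |b i| ≤ 2 * bf M (c i) (c i) := by
    intro i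
    have h2 := RF2_cs hM h b (c i) hb.1
    rw [hc i b] at h2
    have h3 : 1 ≤ (RF2_G M).det ^ 2 := by
      have := Int.one_le_abs hd
      rw [← sq_abs]
      nlinarith
    have h4 : |b i| ≤ b i ^ 2 := by
      rw [← sq_abs]
      by_cases h5 : b i = 0
      · rw [h5]
        norm_num
      · have := Int.one_le_abs h5
        nlinarith
    have h5 : b i ^ 2 ≤ ((RF2_G M).det * b i) ^ 2 := by
      rw [mul_pow]
      nlinarith [sq_nonneg (b i)]
    linarith
  refine ⟨fun i => ?_, fun i => ?_⟩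
  · exact (abs_le.1 (h1 i)).1
  · exact (abs_le.1 (h1 i)).2

theorem pRF2 : SRF2 := by
  intro n M hM h
  exact
    { tri := RF2_tri hM h
      nomm := RF2_nomm hM h
      pp := RF2_pp h
      hte := RF2_hte
      htu := fun b s hb => RF2_htu b s hb
      htd := RF2_htd h
      ht1 := RF2_ht1
      ht1e := RF2_ht1e h
      fin := RF2_fin hM h }

end Pool.Agent.Lib.MP_97567f_al
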