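import Pool.Agent.Lib.MP_97567f_al.SpecR

/-!
# MP_97567f_al: facts on components
-/

set_option autoImplicit false

namespace Pool.Agent.Lib.MP_97567f_al

private theorem RF3_mem {n : ℕ} (M : CoxeterMatrix (Fin n)) (s t : Fin n) :
    t ∈ cmp M s ↔ Relation.ReflTransGen (adj M) s t := by
  classical
  unfold cmp
  simp

private theorem RF3_symm {n : ℕ} (M : CoxeterMatrix (Fin n)) {s t : Fin n}
    (h : Relation.ReflTransGen (adj M) s t) : Relation.ReflTransGen (adj M) t s := by
  induction h with
  | refl => exact Relation.ReflTransGen.refl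
  | tail _ h2 ih => exact Relation.ReflTransGen.head (adj_symm h2) ih

private theorem RF3_cmps {n : ℕ} (M : CoxeterMatrix (Fin n)) (s : Fin n) :
    Sat M (cmp M s) ∧ Conn M (cmp M s) ∧ s ∈ cmp M s := by
  refine ⟨?_, ?_, ?_⟩
  · intro i hi j hij
    rw [RF3_mem] at hi ⊢
    exact hi.tail hij
  · intro i hi j hj
    rw [RF3_mem] at hi hj
    exact (RF3_symm M hi).trans hj
  · rw [RF3_mem]

private theorem RF3_sat {n : ℕ} (M : CoxeterMatrix (Fin n)) (C : Finset (Fin n))
    (b : Fin n → ℤ) (s : Fin n) (hC : Sat M C) (hb : ∀ i, i ∉ C → b i = 0) (hs : s ∉ C) :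
    pr M b s = 0 := by
  unfold pr
  rw [hb s hs, Finset.sum_eq_zero]
  · ring
  · intro j _
    split_ifs with hj
    · refine hb j fun hjC => hs (hC j hjC s hj)
    · rfl

private theorem RF3_leaf {n : ℕ} (M : CoxeterMatrix (Fin n)) (hM : SL M)
    (U : Finset (Fin n)) (hU : U.Nonempty) : ∃ u ∈ U, ∀ v ∈ U, ∀ w ∈ U,
    adj M u v → adj M u w → v = w := by
  classical
  by_contra hcon
  have h1 : ∀ u ∈ U, ∃ v ∈ U, ∃ w ∈ U, adj M u v ∧ adj M u w ∧ v ≠ w := by
    intro u hu
    by_contra h
    refine hcon ⟨u, hu, fun v hv w hw h2 h3 => ?_⟩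
    by_contra h4
    exact h ⟨v, hv, w, hw, h2, h3, h4⟩
  set x : Fin n → ℤ := fun i => if i ∈ U then 1 else 0 with hx
  have hx0 : x ≠ 0 := by
    obtain ⟨u, hu⟩ := hU
    intro h
    have := congrFun h u
    simp [hx, hu] at this
  have hpos := hM.pos x hx0
  have hle : bf M x x ≤ 0 := by
    unfold bf
    refine Finset.sum_nonpos fun s _ => ?_
    by_cases hs : s ∈ U
    · have hxs : x s = 1 := by simp [hx, hs]
      rw [hxs, one_mul]
      unfold pr
      rw [hxs]
      obtain ⟨v, hv, w, hw, hsv, hsw, hvw⟩ := h1 s hs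
      have h2 : (∑ j ∈ ({v, w} : Finset (Fin n)), if adj M j s then x j else 0) ≤
          ∑ j, if adj M j s then x j else 0 := by
        refine Finset.sum_le_sum_of_subset_of_nonneg (Finset.subset_univ _) fun j _ _ => ?_
        split_ifs
        · simp only [hx]
          split_ifs <;> norm_num
        · exact le_refl _
      rw [Finset.sum_pair hvw, if_pos (adj_symm hsv), if_pos (adj_symm hsw)] at h2
      have hxv : x v = 1 := by simp [hx, hv]
      have hxw : x w = 1 := by simp [hx, hw]
      rw [hxv, hxw] at h2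
      linarith
    · have hxs : x s = 0 := by simp [hx, hs]
      rw [hxs, zero_mul]
  linarith

private theorem RF3_suppc {n : ℕ} (M : CoxeterMatrix (Fin n)) (h1 : RF1 M) (h2 : RF2 M) :
    ∀ (k : ℕ) (b : Fin n → ℤ), ht b ≤ k → Rt M b → ∃ s, ∀ i, i ∉ cmp M s → b i = 0 := by
  intro k
  induction k with
  | zero =>
    intro b hk hb
    have := h2.ht1 b hb
    omega
  | succ k ih =>
    intro b hk hb
    by_cases hs : ∀ s, b ≠ e s
    · obtain ⟨u, hu⟩ := h1.desc b hb hs
      have hc := h1.down b u hb hu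
      have hht := h2.htd b u hb hu
      obtain ⟨s, hsup⟩ := ih (b - e u) (by omega) hc
      have hpr : pr M (b - e u) u = -1 := by
        rw [h1.pr_sub, hu, h1.pre]
        norm_num
      have hus : u ∈ cmp M s := by
        by_contra hus
        have h0 := RF3_sat M (cmp M s) (b - e u) u (RF3_cmps M s).1 hsup hus
        rw [h0] at hpr
        norm_num at hpr
      refine ⟨s, fun i hi => ?_⟩
      have h3 := hsup i hi
      have hiu : i ≠ u := by
        rintro rfl
        exact hi hus
      have h4 : (e u : Fin n → ℤ) i = 0 := by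
        unfold e
        rw [Pi.single_eq_of_ne hiu]
      rw [Pi.sub_apply, h4] at h3
      linarith
    · push Not at hs
      obtain ⟨s, rfl⟩ := hs
      refine ⟨s, fun i hi => ?_⟩
      have his : i ≠ s := by
        rintro rfl
        exact hi (RF3_cmps M i).2.2
      unfold e
      rw [Pi.single_eq_of_ne his]

theorem pRF3 : SRF3 := by
  intro n M hM h1 h2
  exact ⟨RF3_leaf M hM, fun b hb => RF3_suppc M h1 h2 (ht b) b (le_refl _) hb,
    RF3_sat M, RF3_cmps M⟩

end Pool.Agent.Lib.MP_97567f_al
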