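import Pool.Agent.Lib.MP_97567f_al.SpecZ

/-!
# MP_97567f_al: module Restr (restriction to a component)
-/

set_option autoImplicit false

namespace Pool.Agent.Lib.MP_97567f_al

open Polynomial

/-- the coefficient -/
private noncomputable def Restr_f {n : ℕ} (M : CoxeterMatrix (Fin n)) {R : Type} [CommRing R]
    (q l : R) (s : Fin n) (b : Fin n → ℤ) : R := l * aeval q (fh M s b)

/-- the action on the basis -/
private structure Restr_D {n : ℕ} (M : CoxeterMatrix (Fin n)) (C : Finset (Fin n)) {R : Type}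
    [CommRing R] (q l : R) : Prop where
  rt : ∀ b ∈ roots M C, Rt M b
  add : ∀ b ∈ roots M C, ∀ s ∈ C, pr M b s = -1 → b + e s ∈ roots M C
  sub : ∀ b ∈ roots M C, ∀ s, pr M b s = 1 → b - e s ∈ roots M C
  es : ∀ s, e s ∈ roots M C ↔ s ∈ C
  ste : ∀ s ∈ C, (lk M C q l s).mulVec (xv M C (e s)) = l • xv M C (e s)
  stm : ∀ s, ∀ b ∈ roots M C, pr M b s = -1 → (lk M C q l s).mulVec (xv M C b) =
    xv M C (b + e s) + (1 - q) • xv M C b + Restr_f M q l s b • xv M C (e s)
  stz : ∀ s, ∀ b ∈ roots M C, pr M b s = 0 → (lk M C q l s).mulVec (xv M C b) =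
    xv M C b + Restr_f M q l s b • xv M C (e s)
  stp : ∀ s, ∀ b ∈ roots M C, pr M b s = 1 → (lk M C q l s).mulVec (xv M C b) =
    q • xv M C (b - e s) + Restr_f M q l s b • xv M C (e s)
  exp : ∀ v : PR M C → R, v = ∑ b, v b • xv M C b.1

private theorem Restr_mk (hL : SLkA) {n : ℕ} {M : CoxeterMatrix (Fin n)} (hM : RF M)
    (C : Finset (Fin n)) {R : Type} [CommRing R] (q l : R) : Restr_D M C q l := by
  obtain ⟨h1, h2, h3, h4, h5⟩ := hL n M hM C
  obtain ⟨a1, a2, a3, a4⟩ := h5 R q l
  have hne : ∀ b s, pr M b s ≠ 2 → b ≠ e s := by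
    rintro b s h rfl
    exact h (hM.a.pre s)
  refine ⟨fun b hb => ((h1 b).1 hb).1, fun b hb s hs hp => h2 b hb s hp hs, h3, h4,
    fun s hs => ?_, fun s b hb hp => ?_, fun s b hb hp => ?_, fun s b hb hp => ?_, a3⟩
  · rw [a1 s _ ((h4 s).2 hs), img, if_pos rfl]
  · rw [a1 s b hb, img, if_neg (hne b s (by rw [hp]; decide)), if_pos hp]
    rfl
  · rw [a1 s b hb, img, if_neg (hne b s (by rw [hp]; decide)), if_neg (by rw [hp]; decide),
      if_neg (by rw [hp]; decide)]
    rfl
  · rw [a1 s b hb, img, if_neg (hne b s (by rw [hp]; decide)), if_neg (by rw [hp]; decide),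
      if_pos hp]
    rfl

private theorem Restr_mem (hL : SLkA) {n : ℕ} {M : CoxeterMatrix (Fin n)} (hM : RF M)
    {C : Finset (Fin n)} {b : Fin n → ℤ} (hb : b ∈ roots M C) {u : Fin n}
    (hu : pr M b u = 1) : u ∈ C := by
  by_contra h
  have h1 := ((hL n M hM C).1 b).1 hb
  have h2 := hM.a.coord b u h1.1 hu
  rw [h1.2 u h] at h2
  norm_num at h2

/-- the polynomials of the roots in another component -/
private theorem Restr_fh (hL : SLkA) {n : ℕ} {M : CoxeterMatrix (Fin n)} (hM : RF M)
    (hF : FH M (fh M)) {C : Finset (Fin n)} (hC : Sat M C) {t : Fin n} (ht₀ : t ∉ C) (k : ℕ) :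
    ∀ b ∈ roots M C, ht b ≤ k → fh M t b = 0 := by
  have D := Restr_mk hL hM C (R := ℤ) 1 1
  induction k with
  | zero =>
    intro b hb h
    have := hM.b.ht1 b (D.rt b hb)
    omega
  | succ k ih =>
    intro b hb h
    by_cases hsim : ∃ s, b = e s
    · obtain ⟨s, rfl⟩ := hsim
      have hs := (D.es s).1 hb
      exact hF.simple t s (fun h' => ht₀ (h' ▸ hs))
    · push Not at hsim
      obtain ⟨u, hu⟩ := hM.a.desc b (D.rt b hb) hsim
      have huC := Restr_mem hL hM hb hu
      have hc := D.sub b hb u hu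
      have hht := hM.b.htd b u (D.rt b hb) hu
      have h1 := ih _ hc (by omega)
      have h2 := hF.comm t u (b - e u) (fun h' => ht₀ (h' ▸ huC))
        (fun h' => ht₀ (hC u huC t (adj_symm h'))) (D.rt _ hc)
        (by rw [hM.a.pr_sub, hu, hM.a.pre]; norm_num)
      rw [sub_add_cancel, h1, mul_zero] at h2
      exact h2

/-- extension by zero as a linear map -/
private theorem Restr_lin {n : ℕ} (M : CoxeterMatrix (Fin n)) (C : Finset (Fin n)) (R : Type)
    [CommRing R] : ∃ L : (PR M C → R) →ₗ[R] (PR M Finset.univ → R), ∀ y, L y = ext0 M C y := by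
  refine ⟨{ toFun := ext0 M C, map_add' := ?_, map_smul' := ?_ }, fun y => rfl⟩
  · intro y z
    funext g
    simp only [ext0, Pi.add_apply]
    split_ifs
    · rfl
    · rw [add_zero]
  · intro c y
    funext g
    simp only [ext0, Pi.smul_apply, RingHom.id_apply]
    split_ifs
    · rfl
    · rw [smul_zero]

private theorem Restr_xv {n : ℕ} (M : CoxeterMatrix (Fin n)) (C : Finset (Fin n)) (R : Type)
    [CommRing R] {b : Fin n → ℤ} (hb : b ∈ roots M C) :
    ext0 M C (xv M C (R := R) b) = xv M Finset.univ b := by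
  funext g
  simp only [ext0, xv]
  by_cases h : g.1 = b
  · rw [dif_pos (h ▸ hb)]
  · rw [if_neg h]
    split_ifs <;> rfl

private theorem Restr_gen (hL : SLkA) {n : ℕ} {M : CoxeterMatrix (Fin n)} (hM : RF M)
    (hF : FH M (fh M)) {C : Finset (Fin n)} (hC : Sat M C) {R : Type} [CommRing R] (q l : R)
    (t : Fin n) (y : PR M C → R) :
    (lk M Finset.univ q l t).mulVec (ext0 M C y) = ext0 M C ((lk M C q l t).mulVec y) := by
  have D := Restr_mk hL hM C q l
  have D' := Restr_mk hL hM Finset.univ q l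
  obtain ⟨L, hLy⟩ := Restr_lin M C R
  have hrr : ∀ b ∈ roots M C, b ∈ roots M Finset.univ := by
    intro b hb
    rw [(hL n M hM Finset.univ).1]
    exact ⟨D.rt b hb, fun i hi => absurd (Finset.mem_univ i) hi⟩
  have hx : ∀ b ∈ roots M C, L (xv M C b) = xv M Finset.univ b := fun b hb => by
    rw [hLy, Restr_xv M C R hb]
  have key : ∀ b ∈ roots M C, (lk M Finset.univ q l t).mulVec (L (xv M C b)) =
      L ((lk M C q l t).mulVec (xv M C b)) := by
    intro b hb
    rw [hx b hb]
    by_cases ht₀ : t ∈ C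
    · have het := (D.es t).2 ht₀
      by_cases hbt : b = e t
      · subst hbt
        rw [D.ste t ht₀, D'.ste t (Finset.mem_univ t), map_smul, hx _ het]
      rcases hM.a.bnd b t (D.rt b hb) hbt with h | h | h
      · rw [D.stm t b hb h, D'.stm t b (hrr b hb) h, map_add, map_add, map_smul, map_smul,
          hx _ (D.add b hb t ht₀ h), hx b hb, hx _ het]
      · rw [D.stz t b hb h, D'.stz t b (hrr b hb) h, map_add, map_smul, hx b hb, hx _ het]
      · rw [D.stp t b hb h, D'.stp t b (hrr b hb) h, map_add, map_smul, map_smul,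
          hx _ (D.sub b hb t h), hx _ het]
    · have hp := hM.c.sat C b t hC ((hL n M hM C).1 b |>.1 hb).2 ht₀
      have hone := ((hL n M hM C).2.2.2.2 R q l).2.2.2 hC t ht₀
      rw [hone, Matrix.one_mulVec, hx b hb, D'.stz t b (hrr b hb) hp, Restr_f,
        Restr_fh hL hM hF hC ht₀ _ b hb le_rfl, map_zero, mul_zero, zero_smul, add_zero]
  rw [← hLy, ← hLy, D.exp y, map_sum, Matrix.mulVec_sum, Matrix.mulVec_sum, map_sum]
  refine Finset.sum_congr rfl fun b _ => ?_
  rw [map_smul, Matrix.mulVec_smul, Matrix.mulVec_smul, map_smul, key b.1 b.2]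

theorem pRestr (h1 : SLkA) (h2 : SLKr) : SRestr := by
  intro n M hSL hM hF C hC R _ q l hq hl x
  have hU : Sat M Finset.univ := fun i _ j _ => Finset.mem_univ j
  have hr := (h2 n M hSL hM hF C hC).1 R q l hq hl
  have hr' := (h2 n M hSL hM hF Finset.univ hU).1 R q l hq hl
  have hg := Restr_gen h1 hM hF hC q l
  induction x using art_induction with
  | h1 =>
    intro y
    rw [map_one, map_one, Units.val_one, Units.val_one, Matrix.one_mulVec, Matrix.one_mulVec]
  | hg i x ih =>
    intro y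
    rw [map_mul, map_mul, Units.val_mul, Units.val_mul, ← Matrix.mulVec_mulVec,
      ← Matrix.mulVec_mulVec, ih, hr, hr', hg]
  | hi i x ih =>
    intro y
    have hcan : ∀ u v : PR M Finset.univ → R,
        (LKr M Finset.univ q l (gn M i)).1.mulVec u =
          (LKr M Finset.univ q l (gn M i)).1.mulVec v → u = v := by
      intro u v huv
      have h3 := congrArg ((LKr M Finset.univ q l (gn M i))⁻¹).1.mulVec huv
      rw [Matrix.mulVec_mulVec, Matrix.mulVec_mulVec, Units.inv_mul, Matrix.one_mulVec,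
        Matrix.one_mulVec] at h3
      exact h3
    apply hcan
    rw [Matrix.mulVec_mulVec, ← Units.val_mul, ← map_mul, mul_inv_cancel_left, ih, hr', hg, ← hr,
      Matrix.mulVec_mulVec, ← Units.val_mul, ← map_mul, mul_inv_cancel_left]

end Pool.Agent.Lib.MP_97567f_al
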