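import Pool.Agent.Lib.MP_97567f_al.SpecD

/-!
# MP_97567f_al: module Rig (rigidity, assembly)
-/

set_option autoImplicit false

namespace Pool.Agent.Lib.MP_97567f_al

/-- the twist of a representation by a character -/
private theorem Rig_tw {A ι F : Type} [Group A] [Fintype ι] [DecidableEq ι] [Field F]
    (χ : A →* Fˣ) (r : A →* GL ι F) :
    ∃ g : A →* ((ι → F) ≃ₗ[F] (ι → F)), ∀ x w, g x w = ((χ x : F)⁻¹) • (r x).1.mulVec w := by
  let φ : A →* Module.End F (ι → F) :=
    { toFun := fun x => ((χ x : F)⁻¹) • (r x).1.mulVecLin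
      map_one' := by
        ext w i
        simp
      map_mul' := by
        intro x y
        refine LinearMap.ext fun w => ?_
        simp only [map_mul, Units.val_mul, LinearMap.smul_apply, Matrix.mulVecLin_apply,
          Module.End.mul_apply, Matrix.mulVec_smul, smul_smul, ← Matrix.mulVec_mulVec, mul_inv] }
  refine ⟨(LinearMap.GeneralLinearGroup.generalLinearEquiv F (ι → F)).toMonoidHom.comp
    φ.toHomUnits, fun x w => ?_⟩
  rfl

private theorem Rig_mv {F ι : Type} [Field F] [Fintype ι] (O : ValuationSubring F)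
    (A : Matrix ι ι O) (w : ι → O) :
    (A.map (algebraMap O F)).mulVec (fun b => (w b : F)) = fun b => ((A.mulVec w b : O) : F) := by
  ext i
  exact (RingHom.map_mulVec (algebraMap O F) A w i).symm

theorem pRig (h1 : SLkA) (h2 : SLKr) (h3 : SD1) (h4 : SD6) (h5 : SD7) (h6 : SD8)
    (h7 : SUniv) : SRig := by
  intro n M hSL hM hF C hC hcon hne F _ _ O q l hG ρ hρ
  obtain ⟨l', v₀, hv₀⟩ := h3 n M hSL hM hF C hC hcon hne F O q l hG ρ hρ
  obtain ⟨a, b, v, hv, ra, rb, hrel⟩ := h4 n M hSL hM hF C hC hcon F O q l hG ρ hρ l' v₀ hv₀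
  obtain ⟨r1, r2, hab, hbb, rr1, rr2, hcomm⟩ :=
    h5 n M hSL hM hF C hC hcon F O q l hG ρ hρ l' a b v hv ra rb hrel
  obtain ⟨hsc, hspan⟩ := h6 n M hSL hM hF C hC hcon hne F O q l hG ρ hρ l' v hv
  obtain ⟨s0, hs0⟩ := hne
  -- an index
  have hes0 : e s0 ∈ roots M C := ((h1 n M hM C).2.2.2.1 s0).2 hs0
  -- units
  have hu1 : IsUnit r1 := by
    rw [← IsLocalRing.residue_ne_zero_iff_isUnit, rr1]
    exact one_ne_zero
  obtain ⟨u1, hu1⟩ := hu1
  have hr1F : (r1 : F) ≠ 0 := by
    intro h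
    have h8 : r1 = 0 := Subtype.ext h
    rw [h8, map_zero] at rr1
    exact zero_ne_one rr1
  have hu1F : ((u1⁻¹ : Oˣ) : O) * r1 = 1 := by
    rw [← hu1]
    exact Units.inv_mul u1
  have hu1r : IsLocalRing.residue O ((u1⁻¹ : Oˣ) : O) = 1 := by
    have h8 := congrArg (IsLocalRing.residue O) hu1F
    rwa [map_mul, rr1, mul_one, map_one] at h8
  have hu1v : (((u1⁻¹ : Oˣ) : O) : F) = (r1 : F)⁻¹ := by
    have h8 : (((u1⁻¹ : Oˣ) : O) : F) * (r1 : F) = 1 := by
      have h9 := congrArg (fun z : O => (z : F)) hu1F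
      simpa using h9
    exact eq_inv_of_mul_eq_one_left h8
  let q' : O := -r2 * ((u1⁻¹ : Oˣ) : O)
  let l'' : O := l' * ((u1⁻¹ : Oˣ) : O)
  have hq' : IsLocalRing.residue O q' = q := by
    change IsLocalRing.residue O (-r2 * ((u1⁻¹ : Oˣ) : O)) = q
    rw [map_mul, map_neg, rr2, hu1r, neg_neg, mul_one]
  have hl'' : IsLocalRing.residue O l'' = l := by
    change IsLocalRing.residue O (l' * ((u1⁻¹ : Oˣ) : O)) = l
    rw [map_mul, hv.rl, hu1r, mul_one]
  have hq'F : (q' : F) = -(r2 : F) * (r1 : F)⁻¹ := by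
    rw [← hu1v]
    simp [q']
  have hl''F : (l'' : F) = (l' : F) * (r1 : F)⁻¹ := by
    rw [← hu1v]
    simp [l'']
  have hq0 : (q' : F) ≠ 0 := by
    intro h
    have h8 : q' = 0 := Subtype.ext h
    rw [h8, map_zero] at hq'
    exact hG.q0 hq'.symm
  have hl0 : (l'' : F) ≠ 0 := by
    intro h
    have h8 : l'' = 0 := Subtype.ext h
    rw [h8, map_zero] at hl''
    exact hG.l0 hl''.symm
  -- the representation over `F`
  let r : Art M →* GL (PR M C) F := (Matrix.GeneralLinearGroup.map (algebraMap O F)).comp ρ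
  have hr : ∀ x, (r x).1 = (ρ x).1.map (algebraMap O F) := fun x => rfl
  choose! m hm using hsc
  have hm0 : ∀ u, u ∉ C → m u ≠ 0 := by
    intro u hu h
    have h8 : (r (gn M u)).1 = 0 := by rw [hr, hm u hu, h, zero_smul]
    have h9 : (r (gn M u)).1 * ((r (gn M u))⁻¹).1 = 1 := Units.mul_inv _
    rw [h8, zero_mul] at h9
    have h10 := congrFun (congrFun h9 ⟨_, hes0⟩) ⟨_, hes0⟩
    rw [Matrix.zero_apply, Matrix.one_apply_eq] at h10
    exact zero_ne_one h10
  -- the character
  classical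
  let f : Fin n → Fˣ := fun u => if h : u ∈ C then Units.mk0 (r1 : F) hr1F else
    Units.mk0 (m u) (hm0 u h)
  have hfC : ∀ u ∈ C, (f u : F) = r1 := fun u hu => by
    simp only [f, dif_pos hu, Units.val_mk0]
  have hfn : ∀ u, u ∉ C → (f u : F) = m u := fun u hu => by
    simp only [f, dif_neg hu, Units.val_mk0]
  obtain ⟨χ, hχ⟩ := art_lift hSL.sl f (fun i j _ _ => mul_comm _ _) (fun i j hij => by
    by_cases hi : i ∈ C
    · have hj := hC i hi j hij
      apply Units.ext
      simp only [Units.val_mul, hfC i hi, hfC j hj]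
    · have hj : j ∉ C := fun h => hi (hC j h i (adj_symm hij))
      apply Units.ext
      simp only [Units.val_mul, hfn i hi, hfn j hj]
      have h8 := congrArg (fun x => (r x).1) (art_braid (M := M) hij)
      simp only [map_mul, Units.val_mul] at h8
      rw [hr, hr, hm i hi, hm j hj] at h8
      simp only [mul_smul_comm, smul_smul, mul_one] at h8
      have h9 := congrFun (congrFun h8 ⟨_, hes0⟩) ⟨_, hes0⟩
      simp only [Matrix.smul_apply, Matrix.one_apply_eq, smul_eq_mul, mul_one] at h9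
      linear_combination h9)
  obtain ⟨g, hg⟩ := Rig_tw χ r
  let w : Fin n → (PR M C → F) := fun s b => (v s b : F)
  have hw : ∀ x s, (r x).1.mulVec (w s) = fun b => (((ρ x).1.mulVec (v s) b : O) : F) := by
    intro x s
    rw [hr]
    exact Rig_mv O _ _
  have H1 : ∀ s ∈ C, g (gn M s) (w s) = (l'' : F) • w s := by
    intro s hs
    rw [hg, hχ, hfC s hs, hw, hv.eig s hs, hl''F]
    ext i
    simp only [Pi.smul_apply, smul_eq_mul, w]
    push_cast
    ring
  have H2 : ∀ s ∈ C, ∀ t, s ≠ t → ¬ adj M s t → g (gn M t) (w s) = w s := by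
    intro s hs t hst ha
    by_cases ht : t ∈ C
    · rw [hg, hχ, hfC t ht, hw, hcomm s hs t ht hst ha]
      ext i
      simp only [Pi.smul_apply, smul_eq_mul, w]
      push_cast
      rw [inv_mul_cancel_left₀ hr1F]
    · rw [hg, hχ, hfn t ht, hr, hm t ht, Matrix.smul_mulVec, Matrix.one_mulVec,
        inv_smul_smul₀ (hm0 t ht)]
  have H3 : ∀ s ∈ C, ∀ t ∈ C, adj M s t → g (gn M s) (g (gn M t) (w s)) = (q' : F) • w t ∧
      g (gn M s) (g (gn M s) (w t)) = (1 - (q' : F)) • g (gn M s) (w t) + (q' : F) • w t -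
        ((1 - (q' : F)) * (l'' : F)) • w s := by
    intro s hs t ht hst
    obtain ⟨k1, k2⟩ := hrel s hs t ht hst
    have k1' : (r (gn M s)).1.mulVec ((r (gn M t)).1.mulVec (w s)) = (-(b : F)) • w t := by
      have k3 := Rig_mv O (ρ (gn M s)).1 ((ρ (gn M t)).1.mulVec (v s))
      rw [hw, hr]
      rw [k3, k1]
      ext i
      simp only [Pi.smul_apply, smul_eq_mul, w]
      push_cast
      ring
    have k2' : (r (gn M s)).1.mulVec ((r (gn M s)).1.mulVec (w t)) =
        (a : F) • (r (gn M s)).1.mulVec (w t) - (b : F) • w t - ((a : F) * l') • w s := by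
      have k3 := Rig_mv O (ρ (gn M s)).1 ((ρ (gn M s)).1.mulVec (v t))
      rw [hw, hr]
      rw [k3, k2]
      ext i
      simp only [Pi.smul_apply, Pi.sub_apply, smul_eq_mul, w]
      push_cast
      ring
    have haF : (a : F) = r1 + r2 := by rw [hab]; push_cast; ring
    have hbF : (b : F) = r1 * r2 := by rw [hbb]; push_cast; ring
    constructor
    · rw [hg, hg, hχ, hχ, hfC s hs, hfC t ht, Matrix.mulVec_smul, k1', hq'F, hbF, smul_smul,
        smul_smul]
      congr 1
      field_simp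
    · rw [hg, hg, hχ, hfC s hs, Matrix.mulVec_smul, k2', hq'F, hl''F, haF, hbF]
      generalize (r (gn M s)).1.mulVec (w t) = y
      ext i
      simp only [Pi.smul_apply, Pi.sub_apply, Pi.add_apply, smul_eq_mul]
      field_simp
      ring
  obtain ⟨Θ, hΘ1, hΘ2⟩ := h7 n M hSL hM hF C hC F (PR M C → F) (q' : F) (l'' : F) g w hq0 hl0
    H1 H2 H3
  have hLK := (h2 n M hSL hM hF C hC).1 F (q' : F) (l'' : F) (isUnit_iff_ne_zero.2 hq0)
    (isUnit_iff_ne_zero.2 hl0)
  -- equivariance
  have heq : ∀ x y, Θ ((LKr M C (q' : F) (l'' : F) x).1.mulVec y) = g x (Θ y) := by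
    intro x
    induction x using art_induction with
    | h1 =>
      intro y
      rw [map_one, map_one, Units.val_one, Matrix.one_mulVec]
      rfl
    | hg i x ih =>
      intro y
      rw [map_mul, map_mul, Units.val_mul, ← Matrix.mulVec_mulVec, hLK, hΘ2, ih]
      rfl
    | hi i x ih =>
      intro y
      apply (g (gn M i)).injective
      rw [← hΘ2, ← hLK, Matrix.mulVec_mulVec, ← Units.val_mul, ← map_mul, mul_inv_cancel_left, ih,
        ← LinearEquiv.mul_apply, ← map_mul, mul_inv_cancel_left]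
  -- surjectivity
  have hsur : LinearMap.range Θ = ⊤ := by
    rw [eq_top_iff, ← hspan s0 hs0, Submodule.span_le]
    rintro _ ⟨x, rfl⟩
    have h8 : (r x).1.mulVec (w s0) = (χ x : F) • g x (w s0) := by
      rw [hg, smul_inv_smul₀ (χ x).ne_zero]
    change (r x).1.mulVec (w s0) ∈ LinearMap.range Θ
    rw [h8, ← hΘ1 s0 hs0, ← heq]
    exact Submodule.smul_mem _ _ ⟨_, rfl⟩
  have hsur' : Function.Surjective Θ := LinearMap.range_eq_top.1 hsur
  have hinj : Function.Injective Θ := LinearMap.injective_iff_surjective.2 hsur'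
  have hunit : IsUnit (LinearMap.toMatrixAlgEquiv' Θ) :=
    ((Module.End.isUnit_iff Θ).2 ⟨hinj, hsur'⟩).map _
  obtain ⟨G, hG'⟩ := hunit
  have hGv : ∀ y, G.1.mulVec y = Θ y := by
    intro y
    rw [hG']
    exact LinearMap.toMatrix'_mulVec Θ y
  refine ⟨q', l'', χ, G, hq', hl'', fun x => ?_⟩
  have key : G.1 * (LKr M C (q' : F) (l'' : F) x).1 =
      ((χ x : F)⁻¹) • (((ρ x).1.map (algebraMap O F)) * G.1) := by
    refine Matrix.toLin'.injective (LinearMap.ext fun y => ?_)
    rw [Matrix.toLin'_apply, Matrix.toLin'_apply, ← Matrix.mulVec_mulVec, hGv, heq, hg, hr,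
      Matrix.smul_mulVec, ← Matrix.mulVec_mulVec, hGv]
  have hGG : G.1 * (G⁻¹).1 = 1 := Units.mul_inv G
  rw [key, smul_mul_assoc, mul_assoc, hGG, mul_one, smul_inv_smul₀ (χ x).ne_zero]

end Pool.Agent.Lib.MP_97567f_al
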