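import Pool.Agent.Lib.MP_97567f_al.SpecG

/-!
# MP_97567f_al: roots with different multiplicities
-/

set_option autoImplicit false

namespace Pool.Agent.Lib.MP_97567f_al

open Polynomial

/-- a root whose multiplicity is different from the multiplicities of all other roots -/
theorem rt_root {K F : Type} [Field K] [CharZero K] [Field F] [Algebra K F] (P : K[X])
    (hP : P ≠ 0) (hs : (P.map (algebraMap K F)).Splits) (w : F)
    (hw : (P.map (algebraMap K F)).IsRoot w)
    (huniq : ∀ v : F, (P.map (algebraMap K F)).rootMultiplicity v =
      (P.map (algebraMap K F)).rootMultiplicity w → v = w) :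
    ∃ w', algebraMap K F w' = w := by
  classical
  have hPF : P.map (algebraMap K F) ≠ 0 := (Polynomial.map_ne_zero_iff (algebraMap K F).injective).2 hP
  have hroot : aeval w P = 0 := by
    rw [IsRoot, eval_map_algebraMap] at hw
    exact hw
  have hint : IsIntegral K w := by
    rw [← isAlgebraic_iff_isIntegral]
    exact ⟨P, hP, hroot⟩
  have hirr := minpoly.irreducible hint
  have hsep : (minpoly K w).Separable := hirr.separable
  have hdvd : minpoly K w ∣ P := minpoly.dvd K w hroot
  obtain ⟨Q, hPQ, hQ⟩ := (FiniteMultiplicity.of_not_isUnit hirr.not_isUnit hP).exists_eq_pow_mul_and_not_dvd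
  set k := multiplicity (minpoly K w) P with hk
  have hμF : (minpoly K w).map (algebraMap K F) ≠ 0 :=
    (Polynomial.map_ne_zero_iff (algebraMap K F).injective).2 hirr.ne_zero
  have hQ0 : Q ≠ 0 := by
    rintro rfl
    exact hQ (dvd_zero _)
  have hQF : Q.map (algebraMap K F) ≠ 0 := (Polynomial.map_ne_zero_iff (algebraMap K F).injective).2 hQ0
  have hcop : IsCoprime (minpoly K w) Q := (hirr.coprime_iff_not_dvd).2 hQ
  have hcopF : IsCoprime ((minpoly K w).map (algebraMap K F)) (Q.map (algebraMap K F)) :=
    hcop.map (Polynomial.mapRingHom (algebraMap K F))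
  have hsepF : ((minpoly K w).map (algebraMap K F)).Separable := hsep.map
  -- every root of the minimal polynomial has multiplicity k
  have hmult : ∀ v : F, ((minpoly K w).map (algebraMap K F)).IsRoot v →
      (P.map (algebraMap K F)).rootMultiplicity v = k := by
    intro v hv
    have h1 : ((minpoly K w).map (algebraMap K F)).rootMultiplicity v = 1 := by
      have h2 := rootMultiplicity_le_one_of_separable hsepF v
      have h3 : 0 < ((minpoly K w).map (algebraMap K F)).rootMultiplicity v :=
        (rootMultiplicity_pos hμF).2 hv
      omega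
    have h4 : (Q.map (algebraMap K F)).rootMultiplicity v = 0 := by
      rw [rootMultiplicity_eq_zero_iff]
      intro h5
      exfalso
      obtain ⟨a, b, hab⟩ := hcopF
      have h6 := congrArg (eval v) hab
      rw [eval_add, eval_mul, eval_mul, hv.eq_zero, h5.eq_zero, mul_zero, mul_zero, add_zero,
        eval_one] at h6
      exact zero_ne_one h6
    have h7 : P.map (algebraMap K F) =
        (minpoly K w).map (algebraMap K F) ^ k * Q.map (algebraMap K F) := by
      conv_lhs => rw [hPQ]
      rw [Polynomial.map_mul, Polynomial.map_pow]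
    rw [h7, rootMultiplicity_mul (mul_ne_zero (pow_ne_zero _ hμF) hQF), h4, add_zero]
    rw [← count_roots, roots_pow, Multiset.count_nsmul, count_roots, h1, mul_one]
  have hwμ : ((minpoly K w).map (algebraMap K F)).IsRoot w := by
    rw [IsRoot, eval_map_algebraMap]
    exact minpoly.aeval K w
  have hall : ∀ v : F, ((minpoly K w).map (algebraMap K F)).IsRoot v → v = w := fun v hv =>
    huniq v ((hmult v hv).trans (hmult w hwμ).symm)
  have hsplit : ((minpoly K w).map (algebraMap K F)).Splits :=
    hs.of_dvd hPF (Polynomial.map_dvd _ hdvd)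
  have hcard : ((minpoly K w).map (algebraMap K F)).roots.card =
      ((minpoly K w).map (algebraMap K F)).natDegree := hsplit.natDegree_eq_card_roots.symm
  have hnd : ((minpoly K w).map (algebraMap K F)).roots.Nodup := nodup_roots hsepF
  have hle : ((minpoly K w).map (algebraMap K F)).roots.card ≤ 1 := by
    have h8 : ((minpoly K w).map (algebraMap K F)).roots.toFinset ⊆ {w} := by
      intro v hv
      rw [Multiset.mem_toFinset, mem_roots hμF] at hv
      rw [Finset.mem_singleton]
      exact hall v hv
    have h9 := Finset.card_le_card h8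
    rw [Finset.card_singleton, Multiset.toFinset_card_of_nodup hnd] at h9
    exact h9
  have hdeg : (minpoly K w).natDegree = 1 := by
    have h10 := minpoly.natDegree_pos hint
    rw [hcard, natDegree_map] at hle
    omega
  have h11 : w ∈ (algebraMap K F).range := by
    rw [← minpoly.natDegree_eq_one_iff]
    exact hdeg
  exact h11

theorem pRt : SRt := by
  classical
  intro K F _ _ _ _ P x y z a b hb hab hxy hyz hxz hP
  have hmon : ((X - C x) * (X - C y) ^ a * (X - C z) ^ b : F[X]).Monic :=
    ((monic_X_sub_C x).mul ((monic_X_sub_C y).pow a)).mul ((monic_X_sub_C z).pow b)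
  have hne : ((X - C x) * (X - C y) ^ a * (X - C z) ^ b : F[X]) ≠ 0 := hmon.ne_zero
  have hP0 : P ≠ 0 := by
    rintro rfl
    rw [Polynomial.map_zero] at hP
    exact hne hP.symm
  have hs : (P.map (algebraMap K F)).Splits := by
    rw [hP]
    exact ((Splits.X_sub_C x).mul ((Splits.X_sub_C y).pow a)).mul ((Splits.X_sub_C z).pow b)
  have hroots : (P.map (algebraMap K F)).roots = {x} + a • {y} + b • {z} := by
    rw [hP, roots_mul hne, roots_mul (left_ne_zero_of_mul hne), roots_pow, roots_pow,
      roots_X_sub_C, roots_X_sub_C, roots_X_sub_C]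
  have hm : ∀ v : F, (P.map (algebraMap K F)).rootMultiplicity v =
      (if v = x then 1 else 0) + a * (if v = y then 1 else 0) + b * (if v = z then 1 else 0) := by
    intro v
    rw [← count_roots, hroots, Multiset.count_add, Multiset.count_add, Multiset.count_nsmul,
      Multiset.count_nsmul, Multiset.count_singleton, Multiset.count_singleton,
      Multiset.count_singleton]
  have hroot : ∀ w : F, 0 < (P.map (algebraMap K F)).rootMultiplicity w →
      (P.map (algebraMap K F)).IsRoot w := fun w hw =>
    (rootMultiplicity_pos (by rw [hP]; exact hne)).1 hw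
  have hmx : (P.map (algebraMap K F)).rootMultiplicity x = 1 := by
    rw [hm]
    simp [hxy, hxz]
  have hmy : (P.map (algebraMap K F)).rootMultiplicity y = a := by
    rw [hm]
    simp [hxy.symm, hyz]
  have hmz : (P.map (algebraMap K F)).rootMultiplicity z = b := by
    rw [hm]
    simp [hxz.symm, hyz.symm]
  have hother : ∀ v : F, (P.map (algebraMap K F)).rootMultiplicity v ≠ 0 →
      v = x ∨ v = y ∨ v = z := by
    intro v hv
    by_contra hcon
    push Not at hcon
    apply hv
    rw [hm]
    simp [hcon.1, hcon.2.1, hcon.2.2]
  refine ⟨rt_root P hP0 hs x (hroot x (by omega)) fun v hv => ?_,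
    rt_root P hP0 hs y (hroot y (by omega)) fun v hv => ?_,
    rt_root P hP0 hs z (hroot z (by omega)) fun v hv => ?_⟩
  · rcases hother v (by omega) with rfl | rfl | rfl
    · rfl
    · omega
    · omega
  · rcases hother v (by omega) with rfl | rfl | rfl
    · omega
    · rfl
    · omega
  · rcases hother v (by omega) with rfl | rfl | rfl
    · omega
    · omega
    · rfl

end Pool.Agent.Lib.MP_97567f_al
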