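import Pool.Agent.Lib.MP_97567f_al.SpecT

/-!
# MP_97567f_al: the representation of dimension two
-/

set_option autoImplicit false

namespace Pool.Agent.Lib.MP_97567f_al

private theorem T1_om : om ^ 2 + om + 1 = 0 := by
  have h : Real.sqrt 3 * Real.sqrt 3 = 3 := Real.mul_self_sqrt (by norm_num)
  apply Complex.ext
  · simp only [om, pow_two, Complex.add_re, Complex.mul_re, Complex.one_re, Complex.zero_re]
    linear_combination (-1 / 4 : ℝ) * h
  · simp only [om, pow_two, Complex.add_im, Complex.mul_im, Complex.one_im, Complex.zero_im]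
    ring

section

variable {n : ℕ} {M : CoxeterMatrix (Fin n)} {s t : Fin n} {R : Type} [CommRing R] {w τ : R}

private theorem T1_w3 (hw : w ^ 2 + w + 1 = 0) : w ^ 3 = 1 := by
  linear_combination (w - 1) * hw

/-- The units. -/
private def T1_gl (s t : Fin n) (w τ : R) (h : w ^ 3 = 1) (u : Fin n) : GL (Fin 2) R :=
  if u = s then
    { val := !![τ, 1; -1, 0]
      inv := !![0, -1; 1, τ]
      val_inv := by
        ext i j
        fin_cases i <;> fin_cases j <;> simp [Matrix.mul_apply, Fin.sum_univ_two]
      inv_val := by
        ext i j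
        fin_cases i <;> fin_cases j <;> simp [Matrix.mul_apply, Fin.sum_univ_two] }
  else if u = t then
    { val := !![0, w; -w ^ 2, τ]
      inv := !![τ, -w; w ^ 2, 0]
      val_inv := by
        have h' : w * w ^ 2 = 1 := by rw [← h]; ring
        have h'' : w ^ 2 * w = 1 := by rw [← h]; ring
        ext i j
        fin_cases i <;> fin_cases j <;>
          simp [Matrix.mul_apply, Fin.sum_univ_two, h', h'', mul_comm τ]
      inv_val := by
        have h' : w * w ^ 2 = 1 := by rw [← h]; ring
        have h'' : w ^ 2 * w = 1 := by rw [← h]; ring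
        ext i j
        fin_cases i <;> fin_cases j <;>
          simp [Matrix.mul_apply, Fin.sum_univ_two, h', h'', mul_comm τ] }
  else 1

private theorem T1_gl_val (h : w ^ 3 = 1) (u : Fin n) :
    (T1_gl s t w τ h u).1 = m2 s t w τ u := by
  unfold T1_gl m2
  split_ifs <;> rfl

private theorem T1_ne (hst : adj M s t) : s ≠ t := adj_ne hst

private theorem T1_exists (hM : SL M) (hst : adj M s t) (hS : Sat M {s, t})
    (hw : w ^ 2 + w + 1 = 0) :
    ∃ ρ : Art M →* GL (Fin 2) R, ∀ u, (ρ (gn M u)).1 = m2 s t w τ u := by
  have h3 := T1_w3 hw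
  have hne := adj_ne hst
  obtain ⟨ρ, hρ⟩ := art_lift hM.sl (T1_gl s t w τ h3) (fun i j hij hn => by
    by_cases hi : i = s
    · subst hi
      have hj : j ≠ t := fun h => hn (h ▸ hst)
      have hj' : T1_gl i t w τ h3 j = 1 := by
        unfold T1_gl
        rw [if_neg (Ne.symm hij), if_neg hj]
      rw [hj', one_mul, mul_one]
    · by_cases hi' : i = t
      · subst hi'
        have hj : j ≠ s := fun h => hn (h ▸ adj_symm hst)
        have hj' : T1_gl s i w τ h3 j = 1 := by
          unfold T1_gl
          rw [if_neg hj, if_neg (Ne.symm hij)]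
        rw [hj', one_mul, mul_one]
      · have hi'' : T1_gl s t w τ h3 i = 1 := by
          unfold T1_gl
          rw [if_neg hi, if_neg hi']
        rw [hi'', one_mul, mul_one]) (fun i j hij => by
    have key : T1_gl s t w τ h3 s * T1_gl s t w τ h3 t * T1_gl s t w τ h3 s =
        T1_gl s t w τ h3 t * T1_gl s t w τ h3 s * T1_gl s t w τ h3 t := by
      apply Units.ext
      rw [Units.val_mul, Units.val_mul, Units.val_mul, Units.val_mul, T1_gl_val, T1_gl_val]
      unfold m2
      rw [if_pos rfl, if_neg (Ne.symm hne), if_pos rfl]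
      ext i j
      fin_cases i <;> fin_cases j
      · simp [Matrix.mul_apply, Fin.sum_univ_two]
        linear_combination (-τ) * hw
      · simp [Matrix.mul_apply, Fin.sum_univ_two]
        ring
      · simp [Matrix.mul_apply, Fin.sum_univ_two]
        linear_combination (-w) * h3
      · simp [Matrix.mul_apply, Fin.sum_univ_two]
        linear_combination (τ * w) * hw
    by_cases hi : i = s
    · have hj : j = t := by
        have h1 := hS i (by simp [hi]) j hij
        rw [Finset.mem_insert, Finset.mem_singleton] at h1
        refine h1.resolve_left fun h2 => ?_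
        exact adj_ne hij (hi.trans h2.symm)
      rw [hi, hj]
      exact key
    · by_cases hi' : i = t
      · have hj : j = s := by
          have h1 := hS i (by simp [hi']) j hij
          rw [Finset.mem_insert, Finset.mem_singleton] at h1
          refine h1.resolve_right fun h2 => ?_
          exact adj_ne hij (hi'.trans h2.symm)
        rw [hi', hj]
        exact key.symm
      · have hj : j ∉ ({s, t} : Finset (Fin n)) := by
          intro h1
          have h2 := hS j h1 i (adj_symm hij)
          rw [Finset.mem_insert, Finset.mem_singleton] at h2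
          exact h2.elim hi hi'
        rw [Finset.mem_insert, Finset.mem_singleton, not_or] at hj
        have e1 : T1_gl s t w τ h3 i = 1 := by
          unfold T1_gl
          rw [if_neg hi, if_neg hi']
        have e2 : T1_gl s t w τ h3 j = 1 := by
          unfold T1_gl
          rw [if_neg hj.1, if_neg hj.2]
        rw [e1, e2])
  exact ⟨ρ, fun u => by rw [hρ, T1_gl_val]⟩

private theorem T1_T2 (hM : SL M) (hst : adj M s t) (hS : Sat M {s, t})
    (hw : w ^ 2 + w + 1 = 0) (u : Fin n) : (T2 M s t w τ (gn M u)).1 = m2 s t w τ u := by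
  have h := T1_exists (τ := τ) hM hst hS hw
  unfold T2
  rw [dif_pos h]
  exact h.choose_spec u

end

theorem pT1 : ST1 := by
  refine ⟨T1_om, fun n M hM s t hst hS => ⟨fun R _ w τ hw => ⟨T1_T2 hM hst hS hw, fun x => ?_⟩,
    fun R R' _ _ φ w τ hw x => ?_, ?_⟩⟩
  · have h3 := T1_w3 hw
    have h : (Matrix.GeneralLinearGroup.det.comp (T2 M s t w τ)) = 1 := by
      apply art_ext
      intro i
      apply Units.ext
      rw [MonoidHom.comp_apply, Matrix.GeneralLinearGroup.val_det_apply, T1_T2 hM hst hS hw]
      unfold m2
      split_ifs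
      · simp [Matrix.det_fin_two]
      · simp [Matrix.det_fin_two]
        linear_combination h3
      · simp
    have h1 := congrArg (fun f : Art M →* Rˣ => ((f x : Rˣ) : R)) h
    exact h1
  · have hw' : φ w ^ 2 + φ w + 1 = 0 := by
      rw [← map_pow, ← map_add, ← map_one φ, ← map_add, hw, map_zero]
    have h : T2 M s t (φ w) (φ τ) = (Matrix.GeneralLinearGroup.map φ).comp (T2 M s t w τ) := by
      apply art_ext
      intro i
      apply Units.ext
      rw [T1_T2 hM hst hS hw', MonoidHom.comp_apply]
      change _ = (T2 M s t w τ (gn M i)).1.map φ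
      rw [T1_T2 hM hst hS hw]
      unfold m2
      split_ifs
      · ext i j
        fin_cases i <;> fin_cases j <;> simp
      · ext i j
        fin_cases i <;> fin_cases j <;> simp
      · simp
    rw [h]
    rfl
  · obtain ⟨δ, hδ⟩ := exists_deg hM.sl hS
    refine ⟨(zpowersHom ℤˣ (-1)).comp δ, fun R _ w τ hw x => ?_⟩
    have hε : ∀ i, ((zpowersHom ℤˣ (-1)).comp δ) (gn M i) =
        if i ∈ ({s, t} : Finset (Fin n)) then -1 else 1 := by
      intro i
      rw [MonoidHom.comp_apply, hδ]
      split_ifs
      · simp
      · simp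
    generalize (zpowersHom ℤˣ (-1)).comp δ = ε at hε
    let c : ℤˣ →* GL (Fin 2) R :=
      Units.map (algebraMap ℤ (Matrix (Fin 2) (Fin 2) R) : ℤ →* Matrix (Fin 2) (Fin 2) R)
    have hc : ∀ e z, c e * z = z * c e := fun e z => Units.ext (Algebra.commutes _ _)
    let D : GL (Fin 2) R :=
      { val := !![1, 0; 0, -1]
        inv := !![1, 0; 0, -1]
        val_inv := by
          ext i j
          fin_cases i <;> fin_cases j <;> simp [Matrix.mul_apply, Fin.sum_univ_two]
        inv_val := by
          ext i j
          fin_cases i <;> fin_cases j <;> simp [Matrix.mul_apply, Fin.sum_univ_two] }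
    let ψ : Art M →* GL (Fin 2) R :=
      { toFun := fun x => c (ε x) * (D * T2 M s t w τ x * D⁻¹)
        map_one' := by simp
        map_mul' := fun x y => by
          rw [map_mul, map_mul, map_mul]
          calc c (ε x) * c (ε y) * (D * (T2 M s t w τ x * T2 M s t w τ y) * D⁻¹)
              = c (ε x) * (c (ε y) * (D * T2 M s t w τ x * D⁻¹)) *
                (D * T2 M s t w τ y * D⁻¹) := by group
            _ = _ := by
              rw [hc (ε y)]
              simp only [mul_assoc] }
    have h : T2 M s t w (-τ) = ψ := by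
      apply art_ext
      intro i
      apply Units.ext
      rw [T1_T2 hM hst hS hw]
      change _ = (algebraMap ℤ (Matrix (Fin 2) (Fin 2) R) (ε (gn M i) : ℤ)) *
        (!![1, 0; 0, -1] * (T2 M s t w τ (gn M i)).1 * !![1, 0; 0, -1])
      rw [T1_T2 hM hst hS hw, hε]
      unfold m2
      by_cases hi : i = s
      · rw [if_pos hi, if_pos hi, if_pos (by simp [hi])]
        ext i j
        fin_cases i <;> fin_cases j <;> simp [Matrix.mul_apply, Fin.sum_univ_two]
      · by_cases hi' : i = t
        · rw [if_neg hi, if_pos hi', if_neg hi, if_pos hi', if_pos (by simp [hi'])]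
          ext i j
          fin_cases i <;> fin_cases j <;> simp [Matrix.mul_apply, Fin.sum_univ_two]
        · rw [if_neg hi, if_neg hi', if_neg hi, if_neg hi', if_neg (by simp [hi, hi'])]
          ext i j
          fin_cases i <;> fin_cases j <;> simp [Matrix.mul_apply, Fin.sum_univ_two]
    have h1 : (T2 M s t w (-τ) x).1 = (algebraMap ℤ (Matrix (Fin 2) (Fin 2) R) (ε x : ℤ)) *
        (!![1, 0; 0, -1] * (T2 M s t w τ x).1 * !![1, 0; 0, -1]) := by
      rw [h]
      rfl
    rw [h1, ← Algebra.smul_def]
    exact (Int.cast_smul_eq_zsmul R _ _).symm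

end Pool.Agent.Lib.MP_97567f_al
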