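import Pool.Agent.Lib.MP_97567f_al.SpecT

/-!
# MP_97567f_al: irreducibility in dimension two
-/

set_option autoImplicit false

namespace Pool.Agent.Lib.MP_97567f_al

private theorem T2_solve {K : Type} [Field K] {w τ : K} (hw : w ^ 2 + w + 1 = 0)
    (hτ : τ ^ 2 ≠ 3) (a b c d : K) : ∃ x0 x1 x2 x3 : K,
      x0 + τ * x1 - w ^ 2 * x3 = a ∧ x1 + w * x2 + (τ * w + τ) * x3 = b ∧
      - x1 - w ^ 2 * x2 = c ∧ x0 + τ * x2 - w * x3 = d := by
  have hD : τ ^ 2 - 3 ≠ 0 := sub_ne_zero.2 hτ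
  obtain ⟨x2, hx2⟩ : ∃ x2 : K, (τ ^ 2 - 3) * x2 =
      (w - w ^ 2) * (b + c) + w ^ 2 * τ * (a - d + τ * c) :=
    ⟨_, mul_div_cancel₀ _ hD⟩
  obtain ⟨x3, hx3⟩ : ∃ x3 : K, (τ ^ 2 - 3) * x3 =
      (w - w ^ 2) * (a - d + τ * c) - τ * w * (b + c) :=
    ⟨_, mul_div_cancel₀ _ hD⟩
  refine ⟨a - τ * (- c - w ^ 2 * x2) + w ^ 2 * x3, - c - w ^ 2 * x2, x2, x3, by ring, ?_,
    by ring, ?_⟩
  · apply mul_left_cancel₀ hD
    linear_combination (w - w ^ 2) * hx2 - w ^ 2 * τ * hx3 +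
      ((w ^ 2 - 3 * w + 3) + τ ^ 2 * (w - 1)) * (b + c) * hw + (τ ^ 2 - 3) * τ * x3 * hw
  · apply mul_left_cancel₀ hD
    linear_combination τ * (w ^ 2 + 1) * hx2 - (w - w ^ 2) * hx3 +
      (τ * ((w - w ^ 2) * (b + c) + w ^ 2 * τ * (a - d + τ * c)) -
        ((w ^ 2 - 3 * w + 3) + τ ^ 2 * (w - 1)) * (a - d + τ * c)) * hw

theorem pT2 (h1 : ST1) : ST2 := by
  intro n M hM s t hst hsat K _ w τ hw hτ
  have hg := ((h1.2 n M hM s t hst hsat).1 K w τ hw).1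
  have hne : t ≠ s := (adj_ne hst).symm
  have hs : (T2 M s t w τ (gn M s)).1 = !![τ, 1; -1, 0] := by
    rw [hg, m2, if_pos rfl]
  have ht : (T2 M s t w τ (gn M t)).1 = !![0, w; -w ^ 2, τ] := by
    rw [hg, m2, if_neg hne, if_pos rfl]
  have hst' : (T2 M s t w τ (gn M s * gn M t)).1 = !![-w ^ 2, τ * w + τ; 0, -w] := by
    rw [map_mul]
    change (T2 M s t w τ (gn M s)).1 * (T2 M s t w τ (gn M t)).1 = _
    rw [hs, ht, Matrix.mul_fin_two]
    ext i j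
    fin_cases i <;> fin_cases j <;> simp
  have h0 : (T2 M s t w τ 1).1 = 1 := by
    rw [map_one]
    rfl
  rw [eq_top_iff]
  rintro X -
  obtain ⟨x0, x1, x2, x3, e1, e2, e3, e4⟩ := T2_solve hw hτ (X 0 0) (X 0 1) (X 1 0) (X 1 1)
  have hX : X = x0 • (T2 M s t w τ 1).1 + x1 • (T2 M s t w τ (gn M s)).1 +
      x2 • (T2 M s t w τ (gn M t)).1 + x3 • (T2 M s t w τ (gn M s * gn M t)).1 := by
    rw [h0, hs, ht, hst']
    ext i j
    fin_cases i <;> fin_cases j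
    · simp
      linear_combination - e1
    · simp
      linear_combination - e2
    · simp
      linear_combination - e3
    · simp
      linear_combination - e4
  rw [hX]
  have hmem : ∀ x : Art M, (T2 M s t w τ x).1 ∈
      Submodule.span K (Set.range fun x : Art M => (T2 M s t w τ x).1) := fun x =>
    Submodule.subset_span ⟨x, rfl⟩
  exact Submodule.add_mem _ (Submodule.add_mem _ (Submodule.add_mem _
    (Submodule.smul_mem _ _ (hmem _)) (Submodule.smul_mem _ _ (hmem _)))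
    (Submodule.smul_mem _ _ (hmem _))) (Submodule.smul_mem _ _ (hmem _))

end Pool.Agent.Lib.MP_97567f_al
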