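import Pool.Agent.Lib.MP_97567f_al.SpecT

/-!
# MP_97567f_al: the reducible case in dimension two
-/

set_option autoImplicit false

namespace Pool.Agent.Lib.MP_97567f_al

open Matrix

private theorem T3_ne {K : Type} [Field K] {v : Fin 2 → K} (hv : v ≠ 0) {g : GL (Fin 2) K}
    {m : K} (h : g.1 *ᵥ v = m • v) : m ≠ 0 ∧ (g⁻¹).1 *ᵥ v = m⁻¹ • v := by
  have h1 : (g⁻¹).1 *ᵥ (g.1 *ᵥ v) = v := by
    rw [Matrix.mulVec_mulVec]
    have h2 : (g⁻¹).1 * g.1 = 1 := Units.inv_mul g
    rw [h2, Matrix.one_mulVec]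
  rw [h, Matrix.mulVec_smul] at h1
  have hm : m ≠ 0 := by
    rintro rfl
    rw [zero_smul] at h1
    exact hv h1.symm
  refine ⟨hm, ?_⟩
  rw [eq_inv_smul_iff₀ hm]
  exact h1

/-- The group elements with the eigenvector `v`. -/
private theorem T3_all {n : ℕ} {M : CoxeterMatrix (Fin n)} {K : Type} [Field K]
    (ρ : Art M →* GL (Fin 2) K) {v : Fin 2 → K} (hv : v ≠ 0)
    (h : ∀ u, ∃ m : K, (ρ (gn M u)).1 *ᵥ v = m • v) (x : Art M) :
    ∃ m : K, (ρ x).1 *ᵥ v = m • v := by
  induction x using art_induction with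
  | h1 =>
    refine ⟨1, ?_⟩
    rw [map_one, one_smul]
    exact Matrix.one_mulVec v
  | hg i x hx =>
    obtain ⟨m, hm⟩ := hx
    obtain ⟨m', hm'⟩ := h i
    refine ⟨m * m', ?_⟩
    rw [map_mul]
    change ((ρ (gn M i)).1 * (ρ x).1) *ᵥ v = _
    rw [← Matrix.mulVec_mulVec, hm, Matrix.mulVec_smul, hm', smul_smul]
  | hi i x hx =>
    obtain ⟨m, hm⟩ := hx
    obtain ⟨m', hm'⟩ := h i
    refine ⟨m * m'⁻¹, ?_⟩
    rw [map_mul, map_inv]
    change (((ρ (gn M i))⁻¹).1 * (ρ x).1) *ᵥ v = _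
    rw [← Matrix.mulVec_mulVec, hm, Matrix.mulVec_smul, (T3_ne hv hm').2, smul_smul]

private theorem T3_tr {K : Type} [Field K] {v : Fin 2 → K} (hv : v ≠ 0)
    {C : Matrix (Fin 2) (Fin 2) K} (hd : C.det = 1) (h : C *ᵥ v = v) : C.trace = 2 := by
  have h1 : (C - 1).det = 0 := by
    rw [← Matrix.exists_mulVec_eq_zero_iff]
    refine ⟨v, hv, ?_⟩
    rw [Matrix.sub_mulVec, h, Matrix.one_mulVec, sub_self]
  rw [Matrix.det_fin_two] at h1 hd
  rw [Matrix.trace_fin_two]
  simp only [Matrix.sub_apply, Matrix.one_apply_eq] at h1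
  rw [Matrix.one_apply_ne (by decide), Matrix.one_apply_ne (by decide)] at h1
  linear_combination hd - h1

private theorem T3_gn {K : Type} [Field K] {n : ℕ} {s t : Fin n} {w τ : K}
    (hw : w ^ 2 + w + 1 = 0) (hτ : τ ^ 2 = 3) (h2 : 2 * w + 1 ≠ 0) (u : Fin n) :
    ∃ m : K, (m2 s t w τ u) *ᵥ ![w ^ 2 * τ, 2 * w + 1] = m • ![w ^ 2 * τ, 2 * w + 1] := by
  obtain ⟨m, hm⟩ : ∃ m : K, (2 * w + 1) * m = -(w ^ 2 * τ) := ⟨_, mul_div_cancel₀ _ h2⟩
  have hm2 : m * (w ^ 2 * τ) = w * (2 * w + 1) := by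
    apply mul_left_cancel₀ h2
    linear_combination (w ^ 2 * τ) * hm - w ^ 4 * hτ - w * (3 * w + 1) * hw
  unfold m2
  split_ifs with h3 h4
  · refine ⟨m, ?_⟩
    ext i
    fin_cases i
    · simp [Matrix.mulVec, dotProduct, Fin.sum_univ_two]
      linear_combination - hm2 + w ^ 2 * hτ + hw
    · simp [Matrix.mulVec, dotProduct, Fin.sum_univ_two]
      linear_combination - hm
  · refine ⟨m, ?_⟩
    ext i
    fin_cases i
    · simp [Matrix.mulVec, dotProduct, Fin.sum_univ_two]
      linear_combination - hm2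
    · simp [Matrix.mulVec, dotProduct, Fin.sum_univ_two]
      linear_combination - hm + τ * (- w ^ 2 + w + 1) * hw
  · exact ⟨1, by rw [Matrix.one_mulVec, one_smul]⟩

/-- Characteristic three: the matrices commute. -/
private theorem T3_comm {n : ℕ} {M : CoxeterMatrix (Fin n)} {K : Type} [Field K]
    (ρ : Art M →* GL (Fin 2) K) {s t : Fin n} (h : ∀ u, (ρ (gn M u)).1 = m2 s t 1 0 u)
    (x y : Art M) : ρ x * ρ y = ρ y * ρ x := by
  have h1 : ∀ u v, ρ (gn M u) * ρ (gn M v) = ρ (gn M v) * ρ (gn M u) := by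
    intro u v
    apply Units.ext
    change (ρ (gn M u)).1 * (ρ (gn M v)).1 = (ρ (gn M v)).1 * (ρ (gn M u)).1
    rw [h, h]
    unfold m2
    split_ifs <;> simp
  have h2 : ∀ u, Commute (ρ (gn M u)) (ρ x) := by
    intro u
    induction x using art_induction with
    | h1 => rw [map_one]; exact Commute.one_right _
    | hg i x hx => rw [map_mul]; exact Commute.mul_right (h1 _ _) hx
    | hi i x hx =>
      rw [map_mul, map_inv]
      exact Commute.mul_right (Commute.inv_right (h1 _ _)) hx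
  have h3 : Commute (ρ y) (ρ x) := by
    induction y using art_induction with
    | h1 => rw [map_one]; exact Commute.one_left _
    | hg i y hy => rw [map_mul]; exact Commute.mul_left (h2 _) hy
    | hi i y hy =>
      rw [map_mul, map_inv]
      exact Commute.mul_left (Commute.inv_left (h2 _)) hy
  exact h3.symm

theorem pT3 (h1 : ST1) : ST3 := by
  intro n M hM s t hst hsat K _ w τ hw
  obtain ⟨hg, hdet⟩ := (h1.2 n M hM s t hst hsat).1 K w τ hw
  refine ⟨fun hτ x y => ?_, ?_⟩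
  · by_cases h2 : 2 * w + 1 = 0
    · have h3 : (3 : K) = 0 := by
        linear_combination (- (2 * w + 1)) * h2 + 4 * hw
      have hw1 : w = 1 := by
        linear_combination - h2 + w * h3
      have hτ0 : τ = 0 := by
        have : τ ^ 2 = 0 := hτ.trans h3
        exact pow_eq_zero_iff (two_ne_zero) |>.1 this
      subst hw1
      subst hτ0
      have h4 := T3_comm (T2 M s t (1 : K) 0) hg x y
      have h5 : T2 M s t (1 : K) 0 (x * y * x⁻¹ * y⁻¹) = 1 := by
        rw [map_mul, map_mul, map_mul, map_inv, map_inv, h4, mul_inv_cancel_right,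
          mul_inv_cancel]
      rw [h5]
      change (1 : Matrix (Fin 2) (Fin 2) K).trace = 2
      rw [Matrix.trace_fin_two]
      simp
      norm_num
    · have hv : ![w ^ 2 * τ, 2 * w + 1] ≠ 0 := by
        intro h
        exact h2 (congrFun h 1)
      have hall := T3_all (T2 M s t w τ) hv fun u => by
        rw [hg]
        exact T3_gn hw hτ h2 u
      obtain ⟨a, ha⟩ := hall x
      obtain ⟨b, hb⟩ := hall y
      have hyx : (T2 M s t w τ (y * x)).1 *ᵥ ![w ^ 2 * τ, 2 * w + 1] =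
          (a * b) • ![w ^ 2 * τ, 2 * w + 1] := by
        rw [map_mul]
        change ((T2 M s t w τ y).1 * (T2 M s t w τ x).1) *ᵥ _ = _
        rw [← Matrix.mulVec_mulVec, ha, Matrix.mulVec_smul, hb, smul_smul]
      have hxy : (T2 M s t w τ (x * y)).1 *ᵥ ![w ^ 2 * τ, 2 * w + 1] =
          (a * b) • ![w ^ 2 * τ, 2 * w + 1] := by
        rw [map_mul]
        change ((T2 M s t w τ x).1 * (T2 M s t w τ y).1) *ᵥ _ = _
        rw [← Matrix.mulVec_mulVec, hb, Matrix.mulVec_smul, ha, smul_smul, mul_comm b a]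
      have hab := (T3_ne hv hyx).1
      refine T3_tr hv (hdet _) ?_
      have h4 : x * y * x⁻¹ * y⁻¹ * (y * x) = x * y := by group
      have h5 : (T2 M s t w τ (x * y * x⁻¹ * y⁻¹)).1 * (T2 M s t w τ (y * x)).1 =
          (T2 M s t w τ (x * y)).1 := by
        have h7 : T2 M s t w τ (x * y * x⁻¹ * y⁻¹ * (y * x)) = T2 M s t w τ (x * y) :=
          congrArg _ h4
        rw [map_mul (T2 M s t w τ) (x * y * x⁻¹ * y⁻¹) (y * x)] at h7
        exact congrArg Units.val h7
      have h6 : (a * b) • ((T2 M s t w τ (x * y * x⁻¹ * y⁻¹)).1 *ᵥ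
          ![w ^ 2 * τ, 2 * w + 1]) = (a * b) • ![w ^ 2 * τ, 2 * w + 1] := by
        rw [← Matrix.mulVec_smul, ← hyx, Matrix.mulVec_mulVec, h5, hxy, hyx]
      exact smul_right_injective _ hab h6
  · have hne : t ≠ s := (adj_ne hst).symm
    have hs : (T2 M s t w τ (gn M s)).1 = !![τ, 1; -1, 0] := by
      rw [hg, m2, if_pos rfl]
    have ht : (T2 M s t w τ (gn M t)).1 = !![0, w; -w ^ 2, τ] := by
      rw [hg, m2, if_neg hne, if_pos rfl]
    have hs' : ((T2 M s t w τ (gn M s))⁻¹).1 = !![0, -1; 1, τ] := by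
      refine Units.inv_eq_of_mul_eq_one_right ?_
      rw [hs, Matrix.mul_fin_two, Matrix.one_fin_two]
      ext i j
      fin_cases i <;> fin_cases j <;> simp
    have ht' : ((T2 M s t w τ (gn M t))⁻¹).1 = !![τ, -w; w ^ 2, 0] := by
      refine Units.inv_eq_of_mul_eq_one_right ?_
      have hw3 : w ^ 2 * w = 1 := by linear_combination (w - 1) * hw
      rw [ht, Matrix.mul_fin_two, Matrix.one_fin_two]
      ext i j
      fin_cases i <;> fin_cases j
      · simp
        linear_combination hw3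
      · simp
      · simp
        ring
      · simp
        linear_combination hw3
    rw [map_mul, map_mul, map_mul, map_inv, map_inv]
    change ((T2 M s t w τ (gn M s)).1 * (T2 M s t w τ (gn M t)).1 *
      ((T2 M s t w τ (gn M s))⁻¹).1 * ((T2 M s t w τ (gn M t))⁻¹).1).trace = _
    rw [hs, ht, hs', ht', Matrix.mul_fin_two, Matrix.mul_fin_two, Matrix.mul_fin_two,
      Matrix.trace_fin_two]
    simp
    linear_combination (w * τ ^ 2 + (w ^ 2 - w + 1)) * hw

end Pool.Agent.Lib.MP_97567f_al
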