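import Pool.Agent.Lib.MP_97567f_al.SpecT

/-!
# MP_97567f_al: the component of the representation of dimension two
-/

set_option autoImplicit false

namespace Pool.Agent.Lib.MP_97567f_al

open Polynomial

private theorem T5_mat {ι F : Type} [Fintype ι] [DecidableEq ι] [Field F] (σ : F →+* F)
    (c d : Fˣ) (g : GL ι F) (A B P Q : Matrix ι ι F)
    (hP : P = (c : F) • (g.1 * A * (g⁻¹).1)) (hQ : Q = (d : F) • (g.1 * B * (g⁻¹).1))
    (h : P = Q.map σ) :
    A = ((Units.map (σ : F →* F) d * c⁻¹ : Fˣ) : F) •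
      ((g⁻¹ * Matrix.GeneralLinearGroup.map σ g).1 * B.map σ *
        ((g⁻¹ * Matrix.GeneralLinearGroup.map σ g)⁻¹).1) := by
  have e1 : Q.map σ = σ (d : F) • ((Matrix.GeneralLinearGroup.map σ g).1 * B.map σ *
      ((Matrix.GeneralLinearGroup.map σ g)⁻¹).1) := by
    rw [hQ, ← map_inv]
    have e2 : (Matrix.GeneralLinearGroup.map σ g).1 = g.1.map σ := rfl
    have e3 : (Matrix.GeneralLinearGroup.map σ g⁻¹).1 = (g⁻¹).1.map σ := rfl
    rw [e2, e3, ← Matrix.map_mul, ← Matrix.map_mul]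
    ext i k
    simp only [Matrix.map_apply, Matrix.smul_apply, smul_eq_mul, map_mul]
  have e4 : (c : F) • (g.1 * A * (g⁻¹).1) = σ (d : F) • ((Matrix.GeneralLinearGroup.map σ g).1 *
      B.map σ * ((Matrix.GeneralLinearGroup.map σ g)⁻¹).1) := by rw [← hP, h, e1]
  have e5 : g.1 * A * (g⁻¹).1 = ((c⁻¹ : Fˣ) : F) • (σ (d : F) •
      ((Matrix.GeneralLinearGroup.map σ g).1 * B.map σ *
        ((Matrix.GeneralLinearGroup.map σ g)⁻¹).1)) := by
    rw [← e4, smul_smul, Units.inv_mul, one_smul]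
  have e6 : (g⁻¹).1 * g.1 = 1 := by rw [← Units.val_mul, inv_mul_cancel, Units.val_one]
  have e7 : A = (g⁻¹).1 * (g.1 * A * (g⁻¹).1) * g.1 := by
    have : (g⁻¹).1 * (g.1 * A * (g⁻¹).1) * g.1 = ((g⁻¹).1 * g.1) * A * ((g⁻¹).1 * g.1) := by
      simp only [Matrix.mul_assoc]
    rw [this, e6, Matrix.one_mul, Matrix.mul_one]
  rw [e7, e5, mul_inv_rev, inv_inv, Units.val_mul, Units.val_mul, Units.val_mul, Units.coe_map,
    smul_smul, mul_comm ((c⁻¹ : Fˣ) : F)]
  simp only [Matrix.mul_smul, Matrix.smul_mul, Matrix.mul_assoc]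
  rfl

private theorem T5_inj {F : Type} [Field F] [Algebra ℂ F] (O : ValuationSubring F)
    (j : ℂ[X] →+* IsLocalRing.ResidueField O) (hj : Function.Injective j)
    (hc : ∀ c : ℂ, ∃ h : algebraMap ℂ F c ∈ O,
        IsLocalRing.residue O ⟨algebraMap ℂ F c, h⟩ = j (algebraMap ℂ ℂ[X] c))
    (τ' : O) (hτ : IsLocalRing.residue O τ' = j X) (p : ℂ[X]) (hp : aeval (τ' : F) p = 0) :
    p = 0 := by
  have key : ∀ p : ℂ[X], ∃ o : O, (o : F) = aeval (τ' : F) p ∧
      IsLocalRing.residue O o = j p := by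
    intro p
    induction p using Polynomial.induction_on' with
    | add p r hp hr =>
      obtain ⟨o, ho, ho'⟩ := hp
      obtain ⟨u, hu, hu'⟩ := hr
      refine ⟨o + u, ?_, ?_⟩
      · rw [map_add, ← ho, ← hu]
        rfl
      · rw [map_add, map_add, ho', hu']
    | monomial n a =>
      obtain ⟨h, hh⟩ := hc a
      refine ⟨⟨algebraMap ℂ F a, h⟩ * τ' ^ n, ?_, ?_⟩
      · rw [aeval_monomial]
        rfl
      · rw [map_mul, map_pow, hτ, hh, ← map_pow, ← map_mul, Polynomial.algebraMap_eq,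
          Polynomial.C_mul_X_pow_eq_monomial]
  obtain ⟨o, ho, ho'⟩ := key p
  rw [hp] at ho
  have h3 : o = 0 := Subtype.ext ho
  rw [h3, map_zero] at ho'
  exact hj (by rw [← ho', map_zero])

/-- **The component of the representation, dimension two.** -/
theorem pT5 (h1 : SComp) (h2 : ST1) (h3 : ST4) : ST5 := by
  intro n M hM s t hst hSat
  obtain ⟨hom, hT⟩ := h2
  obtain ⟨hgen, hmap, -⟩ := hT n M hM s t hst hSat
  have hwC : (C om : ℂ[X]) ^ 2 + C om + 1 = 0 := by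
    have e1 := congrArg (C : ℂ →+* ℂ[X]) hom
    rwa [map_add, map_add, map_pow, map_one, map_zero] at e1
  have hadj : Algebra.adjoin ℂ (Set.range fun p : Art M × Fin 2 × Fin 2 =>
      (T2 M s t (C om : ℂ[X]) X p.1).1 p.2.1 p.2.2) = ⊤ := by
    rw [eq_top_iff, ← Polynomial.adjoin_X]
    refine Algebra.adjoin_mono ?_
    rintro _ rfl
    refine ⟨(gn M s, 0, 0), ?_⟩
    show (T2 M s t (C om : ℂ[X]) X (gn M s)).1 0 0 = X
    rw [(hgen ℂ[X] (C om) X hwC).1 s, m2, if_pos rfl]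
    rfl
  obtain ⟨F, iF, iA, iC, O, j, ρ', H, hH, hj, hc, hρ, hσ⟩ := h1 (Art M) (art_fg M) (Fin 2) ℂ[X]
    (T2 M s t (C om : ℂ[X]) X) hadj
  obtain ⟨hw, hw'⟩ := hc om
  let w : O := ⟨algebraMap ℂ F om, hw⟩
  have hwO : w ^ 2 + w + 1 = 0 := by
    apply Subtype.ext
    show algebraMap ℂ F om ^ 2 + algebraMap ℂ F om + 1 = 0
    have e1 := congrArg (algebraMap ℂ F) hom
    rwa [map_add, map_add, map_pow, map_one, map_zero] at e1
  have hwj : IsLocalRing.residue O w = j (C om) := hw'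
  have key : ∀ a b : ℂ[X], a.eval 0 ≠ b.eval 0 → j a ≠ j b := fun a b h h' =>
    h (congrArg (Polynomial.eval 0) (hj h'))
  have k2 : (2 : IsLocalRing.ResidueField O) ≠ 0 := by
    have := key 2 0 (by norm_num)
    rwa [map_ofNat, map_zero] at this
  have k3 : (3 : IsLocalRing.ResidueField O) ≠ 0 := by
    have := key 3 0 (by norm_num)
    rwa [map_ofNat, map_zero] at this
  have k4 : (j X) ^ 2 ≠ 3 := by
    have := key (X ^ 2) 3 (by norm_num)
    rwa [map_ofNat, map_pow] at this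
  have hred : ∀ u, (ρ' (gn M u)).1.map (IsLocalRing.residue O) =
      m2 s t (IsLocalRing.residue O w) (j X) u := by
    intro u
    have hwj' : (j (C om)) ^ 2 + j (C om) + 1 = 0 := by
      have e1 := congrArg j hwC
      rwa [map_add, map_add, map_pow, map_one, map_zero] at e1
    rw [hρ, ← hmap ℂ[X] _ j (C om) X hwC, (hgen _ (j (C om)) (j X) hwj').1, hwj]
  obtain ⟨τ', χ, g, hτ', hx⟩ := h3 n M hM s t hst hSat F O w (j X) ρ' hwO k2 k3 k4 hred
  have hinj := T5_inj O j hj hc τ' hτ'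
  have hwF : (algebraMap ℂ F om) ^ 2 + algebraMap ℂ F om + 1 = 0 := congrArg Subtype.val hwO
  refine ⟨F, iF, iC, (τ' : F), H, hinj, hH, fun α hα => ?_⟩
  obtain ⟨σ, hσ'⟩ := hσ α hα
  refine ⟨σ (τ' : F), (Units.map ((σ : F →+* F) : F →* F)).comp χ *
    (χ.comp α.toMonoidHom)⁻¹, g⁻¹ * Matrix.GeneralLinearGroup.map (σ : F →+* F) g,
    fun p hp => ?_, fun x => ?_⟩
  · apply hinj
    apply σ.injective
    rw [map_zero, ← hp]
    exact (Polynomial.aeval_algHom_apply (σ : F →ₐ[ℂ] F) (τ' : F) p).symm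
  · have e1 := hmap F F (σ : F →+* F) (algebraMap ℂ F om) (τ' : F) hwF x
    have e2 : (σ : F →+* F) (algebraMap ℂ F om) = algebraMap ℂ F om := σ.commutes om
    have e3 : (σ : F →+* F) (τ' : F) = σ (τ' : F) := rfl
    rw [e2, e3] at e1
    rw [e1]
    exact T5_mat (σ : F →+* F) (χ (α x)) (χ x) g _ _ _ _ (hx (α x)) (hx x) (hσ' x)

end Pool.Agent.Lib.MP_97567f_al
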