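import Pool.Agent.Lib.MP_97567f_al.SpecT

/-!
# MP_97567f_al: the parameter of the representation of dimension two changes at most by the sign (`ST6`)
-/

set_option autoImplicit false

namespace Pool.Agent.Lib.MP_97567f_al

open Polynomial

/-- a character with values of square one is a sign -/
private theorem T6_sign {A : Type} [Group A] {F : Type} [Field F] (h2 : (2 : F) ≠ 0) (χ : A →* Fˣ)
    (hχ : ∀ x, (χ x : F) ^ 2 = 1) : ∃ ε : A →* ℤˣ, ∀ x, ((ε x : ℤ) : F) = (χ x : F) := by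
  classical
  have h11 : (-1 : F) ≠ 1 := by
    intro h
    apply h2
    linear_combination -h
  have hcase : ∀ x, (χ x : F) = 1 ∨ (χ x : F) = -1 := fun x =>
    mul_self_eq_one_iff.1 (by rw [← pow_two]; exact hχ x)
  refine ⟨{ toFun := fun x => if (χ x : F) = 1 then 1 else -1
            map_one' := by simp
            map_mul' := ?_ }, ?_⟩
  · intro x y
    have hm : (χ (x * y) : F) = χ x * χ y := by rw [map_mul, Units.val_mul]
    rcases hcase x with hx | hx <;> rcases hcase y with hy | hy <;> simp [hm, hx, hy, h11]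
  · intro x
    change (((if (χ x : F) = 1 then (1 : ℤˣ) else -1 : ℤˣ) : ℤ) : F) = χ x
    rcases hcase x with hx | hx
    · rw [if_pos hx, hx]; simp
    · rw [if_neg (by rw [hx]; exact h11), hx]; simp

private theorem T6_DD {R : Type} [CommRing R] :
    (!![1, 0; 0, -1] : Matrix (Fin 2) (Fin 2) R) * !![1, 0; 0, -1] = 1 := by
  ext i j
  fin_cases i <;> fin_cases j <;> simp [Matrix.mul_apply, Fin.sum_univ_two]

private theorem T6_trD {R : Type} [CommRing R] (A : Matrix (Fin 2) (Fin 2) R) :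
    (!![1, 0; 0, -1] * A * !![1, 0; 0, -1]).trace = A.trace := by
  rw [Matrix.trace_mul_comm, ← mul_assoc, T6_DD, one_mul]

/-- the trace polynomials -/
private noncomputable def T6_f {n : ℕ} (M : CoxeterMatrix (Fin n)) (s t : Fin n) (x : Art M) : ℂ[X] :=
  (T2 M s t (C om) (X : ℂ[X]) x).1.trace

private theorem T6_wC (h1 : ST1) : (C om : ℂ[X]) ^ 2 + C om + 1 = 0 := by
  rw [← C_pow, ← C_add, ← C_1, ← C_add, h1.1, C_0]

private theorem T6_base (h1 : ST1) {n : ℕ} {M : CoxeterMatrix (Fin n)} (hM : SL M) {s t : Fin n}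
    (hst : adj M s t) (hsat : Sat M {s, t}) {R : Type} [CommRing R] [Algebra ℂ R] (τ : R) (x : Art M) :
    (T2 M s t (algebraMap ℂ R om) τ x).1.trace = aeval τ (T6_f M s t x) := by
  have h := (h1.2 n M hM s t hst hsat).2.1 ℂ[X] R (aeval τ : ℂ[X] →ₐ[ℂ] R).toRingHom (C om) X
    (T6_wC h1) x
  have e1 : (aeval τ : ℂ[X] →ₐ[ℂ] R).toRingHom (C om) = algebraMap ℂ R om := by simp
  have e2 : (aeval τ : ℂ[X] →ₐ[ℂ] R).toRingHom X = τ := by simp
  rw [e1, e2] at h
  rw [h, T6_f, Matrix.trace_fin_two, Matrix.trace_fin_two, map_add]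
  simp

private theorem T6_gs (h1 : ST1) {n : ℕ} {M : CoxeterMatrix (Fin n)} (hM : SL M) {s t : Fin n}
    (hst : adj M s t) (hsat : Sat M {s, t}) : T6_f M s t (gn M s) = X := by
  have h := ((h1.2 n M hM s t hst hsat).1 ℂ[X] (C om) X (T6_wC h1)).1 s
  rw [T6_f, h, m2, if_pos rfl, Matrix.trace_fin_two]
  simp

private theorem T6_tr {F : Type} [Field F] (c : F) (g : GL (Fin 2) F) (A : Matrix (Fin 2) (Fin 2) F) :
    (c • (g.1 * A * (g⁻¹).1)).trace = c * A.trace := by
  rw [Matrix.trace_smul, Matrix.trace_mul_comm, ← mul_assoc, Units.inv_mul, one_mul, smul_eq_mul]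

private theorem T6_det {F : Type} [Field F] (c : F) (g : GL (Fin 2) F) (A : Matrix (Fin 2) (Fin 2) F) :
    (c • (g.1 * A * (g⁻¹).1)).det = c ^ 2 * A.det := by
  have h : g.1.det * (g⁻¹).1.det = 1 := by
    rw [← Matrix.det_mul, Units.mul_inv, Matrix.det_one]
  rw [Matrix.det_smul, Matrix.det_mul, Matrix.det_mul, Fintype.card_fin]
  linear_combination c ^ 2 * A.det * h

/-- parity of the trace polynomials -/
private theorem T6_par (h1 : ST1) {n : ℕ} {M : CoxeterMatrix (Fin n)} (hM : SL M) {s t : Fin n}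
    (hst : adj M s t) (hsat : Sat M {s, t}) (x : Art M) :
    (T6_f M s t x).comp (-X) = T6_f M s t x ∨ (T6_f M s t x).comp (-X) = -T6_f M s t x := by
  obtain ⟨ε, hε⟩ := (h1.2 n M hM s t hst hsat).2.2
  have h2 := hε ℂ[X] (C om) X (T6_wC h1) x
  have h3 := T6_base h1 hM hst hsat (R := ℂ[X]) (-X) x
  have h4 : algebraMap ℂ ℂ[X] om = C om := rfl
  rw [h4, h2, ← Polynomial.comp_eq_aeval] at h3
  rw [← h3, Matrix.trace_smul]
  have h5 : (!![1, 0; 0, -1] * (T2 M s t (C om) (X : ℂ[X]) x).1 * !![1, 0; 0, -1]).trace =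
      T6_f M s t x := T6_trD _
  rw [h5]
  rcases Int.units_eq_one_or (ε x) with h | h
  · left; rw [h]; simp
  · right; rw [h]; simp

/-- the data of an automorphism in `H` -/
private theorem T6_key (h1 : ST1) {n : ℕ} {M : CoxeterMatrix (Fin n)} (hM : SL M) {s t : Fin n}
    (hst : adj M s t) (hsat : Sat M {s, t}) {F : Type} [Field F] [Algebra ℂ F] (τ' : F)
    (hinj : ∀ p : ℂ[X], aeval τ' p = 0 → p = 0) (α : MulAut (Art M)) (τ'' : F) (χ : Art M →* Fˣ)
    (g : GL (Fin 2) F)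
    (hg : ∀ x, (T2 M s t (algebraMap ℂ F om) τ' (α x)).1 =
          (χ x : F) • (g.1 * (T2 M s t (algebraMap ℂ F om) τ'' x).1 * (g⁻¹).1)) :
    ∃ P : ℂ[X], (∀ x, (χ x : F) ^ 2 = 1) ∧ τ'' = aeval τ' P ∧
      (P = T6_f M s t (α (gn M s)) ∨ P = -T6_f M s t (α (gn M s))) ∧
      ∀ x, ((χ x : F) = 1 ∧ T6_f M s t (α x) = (T6_f M s t x).comp P) ∨
        ((χ x : F) = -1 ∧ T6_f M s t (α x) = -(T6_f M s t x).comp P) := by
  have hwF : (algebraMap ℂ F om) ^ 2 + algebraMap ℂ F om + 1 = 0 := by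
    rw [← map_pow, ← map_add, ← map_one (algebraMap ℂ F), ← map_add, h1.1, map_zero]
  have hA := (h1.2 n M hM s t hst hsat).1 F (algebraMap ℂ F om)
  have hχ : ∀ x, (χ x : F) ^ 2 = 1 := by
    intro x
    have h := congrArg Matrix.det (hg x)
    rw [T6_det, (hA τ' hwF).2, (hA τ'' hwF).2, mul_one] at h
    exact h.symm
  have hcase : ∀ x, (χ x : F) = 1 ∨ (χ x : F) = -1 := fun x =>
    mul_self_eq_one_iff.1 (by rw [← pow_two]; exact hχ x)
  have htr : ∀ x, aeval τ' (T6_f M s t (α x)) = (χ x : F) * aeval τ'' (T6_f M s t x) := by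
    intro x
    have h := congrArg Matrix.trace (hg x)
    rw [T6_tr, T6_base h1 hM hst hsat, T6_base h1 hM hst hsat] at h
    exact h
  have hs := htr (gn M s)
  rw [T6_gs h1 hM hst hsat, aeval_X] at hs
  obtain ⟨P, hP1, hP2⟩ : ∃ P : ℂ[X], τ'' = aeval τ' P ∧
      (P = T6_f M s t (α (gn M s)) ∨ P = -T6_f M s t (α (gn M s))) := by
    rcases hcase (gn M s) with h | h
    · exact ⟨_, by rw [hs, h, one_mul], Or.inl rfl⟩
    · exact ⟨_, by rw [map_neg, hs, h]; ring, Or.inr rfl⟩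
  refine ⟨P, hχ, hP1, hP2, fun x => ?_⟩
  have hcomp : aeval τ'' (T6_f M s t x) = aeval τ' ((T6_f M s t x).comp P) := by
    rw [aeval_comp, hP1]
  rcases hcase x with h | h
  · left
    refine ⟨h, ?_⟩
    have h5 := htr x
    rw [h, one_mul, hcomp] at h5
    exact sub_eq_zero.1 (hinj _ (by rw [map_sub, h5, sub_self]))
  · right
    refine ⟨h, ?_⟩
    have h5 := htr x
    rw [h, hcomp] at h5
    exact eq_neg_of_add_eq_zero_left (hinj _ (by rw [map_add, h5]; ring))

theorem pT6 (h1 : ST1) (h2 : ST3) (h3 : ST5) : ST6 := by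
  intro n M hM s t hst hsat
  obtain ⟨F, iF, iA, τ', H, hinj, hfin, hH⟩ := h3 n M hM s t hst hsat
  refine ⟨F, iF, iA, τ', H, hinj, hfin, ?_⟩
  intro α hα
  have h2F : (2 : F) ≠ 0 := by
    intro h
    have h0 : algebraMap ℂ F 2 = 0 := by rw [map_ofNat]; exact h
    rw [map_eq_zero] at h0
    exact two_ne_zero h0
  have hwF : (algebraMap ℂ F om) ^ 2 + algebraMap ℂ F om + 1 = 0 := by
    rw [← map_pow, ← map_add, ← map_one (algebraMap ℂ F), ← map_add, h1.1, map_zero]
  have hm1 : (-1 : F) ≠ 1 := by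
    intro h
    apply h2F
    linear_combination -h
  obtain ⟨τ'', χ, g, _, hg⟩ := hH α hα
  obtain ⟨P, hχ, hP1, hP2, hP3⟩ := T6_key h1 hM hst hsat τ' hinj α τ'' χ g hg
  obtain ⟨τ3, χ3, g3, _, hg3⟩ := hH α⁻¹ (H.inv_mem hα)
  obtain ⟨Q, _, _, hQ2, _⟩ := T6_key h1 hM hst hsat τ' hinj α⁻¹ τ3 χ3 g3 hg3
  -- the degree of `P` is one
  have hdeg : P.natDegree = 1 := by
    have hx := hP3 (α⁻¹ (gn M s))
    rw [MulAut.apply_inv_self, T6_gs h1 hM hst hsat] at hx
    have hR : ∃ R : ℂ[X], X = R.comp P := by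
      rcases hx with ⟨_, h⟩ | ⟨_, h⟩
      · exact ⟨_, h⟩
      · exact ⟨-T6_f M s t (α⁻¹ (gn M s)), by rw [neg_comp]; exact h⟩
    obtain ⟨R, hR⟩ := hR
    have h := congrArg natDegree hR
    rw [natDegree_X, natDegree_comp] at h
    exact (Nat.eq_one_of_mul_eq_one_left h.symm)
  obtain ⟨a, b, hab⟩ := exists_eq_X_add_C_of_natDegree_le_one (le_of_eq hdeg)
  have heval : ∀ z : ℂ, P.eval z = a * z + b := by
    intro z
    rw [hab]; simp
  have ha0 : a ≠ 0 := by
    intro h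
    rw [hab, h] at hdeg
    simp at hdeg
  have hb0 : b = 0 := by
    have hpar : P.comp (-X) = P ∨ P.comp (-X) = -P := by
      rcases T6_par h1 hM hst hsat (α (gn M s)) with h | h <;> rcases hP2 with h' | h' <;> rw [h']
      · exact Or.inl h
      · left; rw [neg_comp, h]
      · exact Or.inr h
      · right; rw [neg_comp, h]
    have hev : ∀ z : ℂ, (P.comp (-X)).eval z = -(a * z) + b := by
      intro z
      rw [eval_comp, heval]; simp
    rcases hpar with h | h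
    · exfalso
      apply ha0
      have h5 := hev 1
      rw [h, heval] at h5
      have h6 : (2 : ℂ) * a = 0 := by linear_combination h5
      rcases mul_eq_zero.1 h6 with h7 | h7
      · exact absurd h7 two_ne_zero
      · exact h7
    · have h5 := hev 0
      rw [h, eval_neg, heval] at h5
      have h6 : (2 : ℂ) * b = 0 := by linear_combination -h5
      rcases mul_eq_zero.1 h6 with h7 | h7
      · exact absurd h7 two_ne_zero
      · exact h7
  have hτ : τ'' = algebraMap ℂ F a * τ' := by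
    rw [hP1, hab, hb0]; simp
  -- `a ^ 2 = 1`
  have hevC : ∀ (z : ℂ) (x : Art M), (T2 M s t om z x).1.trace = (T6_f M s t x).eval z := by
    intro z x
    have h := T6_base h1 hM hst hsat (R := ℂ) z x
    have e : algebraMap ℂ ℂ om = om := rfl
    rw [e] at h
    rw [h, Polynomial.coe_aeval_eq_eval]
  obtain ⟨ξ, hξ⟩ := IsAlgClosed.exists_pow_nat_eq (3 : ℂ) (n := 2) (by norm_num)
  have ha2 : a ^ 2 = 1 := by
    have hc1 : (χ (gn M s * gn M t * (gn M s)⁻¹ * (gn M t)⁻¹) : F) = 1 := by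
      have h5 : χ (gn M s * gn M t * (gn M s)⁻¹ * (gn M t)⁻¹) = 1 := by
        rw [map_mul, map_mul, map_mul, map_inv, map_inv]
        rw [mul_inv_eq_one, mul_comm (χ (gn M s)), mul_assoc, mul_inv_cancel, mul_one]
      rw [h5, Units.val_one]
    have h6 : T6_f M s t (α (gn M s * gn M t * (gn M s)⁻¹ * (gn M t)⁻¹)) =
        (T6_f M s t (gn M s * gn M t * (gn M s)⁻¹ * (gn M t)⁻¹)).comp P := by
      rcases hP3 (gn M s * gn M t * (gn M s)⁻¹ * (gn M t)⁻¹) with ⟨_, h⟩ | ⟨h, _⟩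
      · exact h
      · exact absurd (h.symm.trans hc1) hm1
    have h7 := (h2 n M hM s t hst hsat ℂ om ξ h1.1).1 hξ (α (gn M s)) (α (gn M t))
    have h8 := (h2 n M hM s t hst hsat ℂ om (a * ξ) h1.1).2
    rw [hevC] at h7 h8
    have h9 : α (gn M s * gn M t * (gn M s)⁻¹ * (gn M t)⁻¹) =
        α (gn M s) * α (gn M t) * (α (gn M s))⁻¹ * (α (gn M t))⁻¹ := by
      rw [map_mul, map_mul, map_mul, map_inv, map_inv]
    rw [← h9, h6, eval_comp, heval, hb0, add_zero, h8] at h7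
    linear_combination (1 / 3 : ℂ) * h7 - (1 / 3 : ℂ) * a ^ 2 * hξ
  obtain ⟨ε', hε'⟩ := T6_sign h2F χ hχ
  rcases (mul_self_eq_one_iff.1 (by rw [← pow_two]; exact ha2) : a = 1 ∨ a = -1) with h | h
  · refine ⟨ε', g, fun x => ?_⟩
    rw [hε', hg x, hτ, h, map_one, one_mul]
  · obtain ⟨ε, hε⟩ := (h1.2 n M hM s t hst hsat).2.2
    let Du : GL (Fin 2) F := ⟨!![1, 0; 0, -1], !![1, 0; 0, -1], T6_DD, T6_DD⟩
    refine ⟨ε' * ε, g * Du, fun x => ?_⟩
    have h5 := hε F (algebraMap ℂ F om) τ' hwF x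
    have h6 : τ'' = -τ' := by rw [hτ, h, map_neg, map_one]; ring
    have e1 : (g * Du).1 = g.1 * !![1, 0; 0, -1] := rfl
    have e2 : ((g * Du)⁻¹).1 = !![1, 0; 0, -1] * (g⁻¹).1 := by
      rw [mul_inv_rev]; rfl
    rw [hg x, h6, h5, e1, e2, MonoidHom.mul_apply, Units.val_mul, Int.cast_mul, hε',
      Matrix.mul_smul, Matrix.smul_mul, smul_smul]
    simp only [mul_assoc]

end Pool.Agent.Lib.MP_97567f_al
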