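import Pool.Agent.Lib.MP_97567f_al.SpecT

/-!
# MP_97567f_al: a finite index subgroup acts by twists, dimension two (`ST7`)
-/

set_option autoImplicit false

namespace Pool.Agent.Lib.MP_97567f_al

open Polynomial

private theorem T7_algInj : Function.Injective (algebraMap ℂ[X] K1) :=
  IsFractionRing.injective ℂ[X] K1

private theorem T7_xx : (xx : K1) ≠ 0 := by
  unfold xx
  intro h
  exact X_ne_zero ((map_eq_zero_iff (algebraMap ℂ[X] K1) T7_algInj).1 h)

private theorem T7_inf : Infinite K1 := Infinite.of_injective _ T7_algInj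

/-- `qq` is transcendental -/
private theorem T7_qq (p : ℂ[X]) (h : aeval qq p = 0) : p = 0 := by
  obtain ⟨φ, hφ, _⟩ := R2_lift (S := K1) (a := xx) (b := 1) (isUnit_iff_ne_zero.2 T7_xx) isUnit_one
  have h1 : aeval (φ qq) p = 0 := by
    rw [Polynomial.aeval_algHom_apply, h, map_zero]
  rw [hφ] at h1
  have h2 : aeval (xx : K1) p = algebraMap ℂ[X] K1 p := by
    unfold xx
    rw [aeval_algebraMap_apply, aeval_X_left_apply]
  rw [h2] at h1
  exact (map_eq_zero_iff (algebraMap ℂ[X] K1) T7_algInj).1 h1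

/-- the embedding of `K1` in `K2` -/
private theorem T7_emb : ∃ ι : K1 →+* K2, ι xx = algebraMap R2 K2 qq ∧
    ι (algebraMap ℂ K1 om) = algebraMap R2 K2 (algebraMap ℂ R2 om) := by
  let ψ : ℂ[X] →+* K2 := (algebraMap R2 K2).comp (aeval qq : ℂ[X] →ₐ[ℂ] R2).toRingHom
  have hψ : Function.Injective ψ := by
    rw [injective_iff_map_eq_zero]
    intro p hp
    apply T7_qq
    have hp2 : algebraMap R2 K2 (aeval qq p) = 0 := hp
    exact (map_eq_zero_iff (algebraMap R2 K2) (IsFractionRing.injective R2 K2)).1 hp2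
  refine ⟨IsFractionRing.lift hψ, ?_, ?_⟩
  · unfold xx
    rw [IsFractionRing.lift_algebraMap]
    change algebraMap R2 K2 (aeval qq X) = _
    rw [aeval_X]
  · rw [IsScalarTower.algebraMap_apply ℂ ℂ[X] K1, IsFractionRing.lift_algebraMap]
    change algebraMap R2 K2 (aeval qq (algebraMap ℂ ℂ[X] om)) = _
    rw [AlgHom.commutes]

/-- the map of `K1` to `F` -/
private theorem T7_map {F : Type} [Field F] [Algebra ℂ F] (τ' : F)
    (hinj : ∀ p : ℂ[X], aeval τ' p = 0 → p = 0) :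
    ∃ φ : K1 →+* F, φ xx = τ' ∧ φ (algebraMap ℂ K1 om) = algebraMap ℂ F om := by
  have hψ : Function.Injective (aeval τ' : ℂ[X] →ₐ[ℂ] F).toRingHom := by
    rw [injective_iff_map_eq_zero]
    exact fun p hp => hinj p hp
  refine ⟨IsFractionRing.lift hψ, ?_, ?_⟩
  · unfold xx
    rw [IsFractionRing.lift_algebraMap]
    change aeval τ' X = _
    rw [aeval_X]
  · rw [IsScalarTower.algebraMap_apply ℂ ℂ[X] K1, IsFractionRing.lift_algebraMap]
    change aeval τ' (algebraMap ℂ ℂ[X] om) = _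
    rw [AlgHom.commutes]

private theorem T7_w (h1 : ST1) {R : Type} [CommRing R] [Algebra ℂ R] :
    (algebraMap ℂ R om) ^ 2 + algebraMap ℂ R om + 1 = 0 := by
  rw [← map_pow, ← map_add, ← map_one (algebraMap ℂ R), ← map_add, h1.1, map_zero]

theorem pT7 (h1 : ST1) (h2 : ST6) (h3 : SDesc) : ST7 := by
  intro n M hM s t hst hsat
  obtain ⟨F, iF, iA, τ', H, hinj, hfin, hH⟩ := h2 n M hM s t hst hsat
  refine ⟨H, hfin, ?_⟩
  intro α hα
  obtain ⟨ε, g, hg⟩ := hH α hα
  obtain ⟨φ, hφ1, hφ2⟩ := T7_map τ' hinj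
  obtain ⟨ι, hι1, hι2⟩ := T7_emb
  have hB := (h1.2 n M hM s t hst hsat).2.1
  haveI := T7_inf
  letI : Algebra K1 F := φ.toAlgebra
  have hφF : ∀ x, (T2 M s t (algebraMap ℂ K1 om) xx x).1.map (algebraMap K1 F) =
      (T2 M s t (algebraMap ℂ F om) τ' x).1 := by
    intro x
    have h := hB K1 F φ (algebraMap ℂ K1 om) xx (T7_w h1) x
    rw [hφ1, hφ2] at h
    exact h.symm
  have hιF : ∀ x, (T2 M s t (algebraMap ℂ K1 om) xx x).1.map ι =
      (T2 M s t (algebraMap R2 K2 (algebraMap ℂ R2 om)) (algebraMap R2 K2 qq) x).1 := by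
    intro x
    have h := hB K1 K2 ι (algebraMap ℂ K1 om) xx (T7_w h1) x
    rw [hι1, hι2] at h
    exact h.symm
  have hsm : ∀ (k : ℤ) (L L' : Type) [CommRing L] [CommRing L'] (f : L →+* L')
      (A : Matrix (Fin 2) (Fin 2) L), (((k : ℤ) : L) • A).map f = ((k : ℤ) : L') • A.map f := by
    intro k L L' _ _ f A
    ext i j
    simp
  obtain ⟨h, hh⟩ := h3 K1 F (Fin 2) (Art M)
    (fun x => (T2 M s t (algebraMap ℂ K1 om) xx (α x)).1)
    (fun x => ((ε x : ℤ) : K1) • (T2 M s t (algebraMap ℂ K1 om) xx x).1) g (by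
      intro x
      rw [hφF, hsm, hφF, hg x]
      rw [Matrix.smul_mul, Matrix.mul_smul, mul_assoc, Units.inv_mul, mul_one])
  let χ : Art M →* K2ˣ := (Units.map (Int.castRingHom K2).toMonoidHom).comp ε
  have hχ : ∀ x, (χ x : K2) = ((ε x : ℤ) : K2) := fun x => rfl
  let g2 : GL (Fin 2) K2 := Units.map (ι.mapMatrix : Matrix (Fin 2) (Fin 2) K1 →+* _).toMonoidHom h
  have hg2 : g2.1 = h.1.map ι := rfl
  refine ⟨χ, g2, ?_⟩
  intro x
  have h5 := congrArg (fun A : Matrix (Fin 2) (Fin 2) K1 => A.map ι) (hh x)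
  simp only [Matrix.map_mul] at h5
  rw [hιF, hsm, hιF, ← hg2] at h5
  rw [hχ]
  calc (T2 M s t (algebraMap R2 K2 (algebraMap ℂ R2 om)) (algebraMap R2 K2 qq) (α x)).1
      = (T2 M s t (algebraMap R2 K2 (algebraMap ℂ R2 om)) (algebraMap R2 K2 qq) (α x)).1 *
          (g2.1 * (g2⁻¹).1) := by rw [Units.mul_inv, mul_one]
    _ = _ := by rw [← mul_assoc, h5, Matrix.mul_smul, Matrix.smul_mul]

end Pool.Agent.Lib.MP_97567f_al
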