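import Pool.Agent.Lib.MP_97567f_al.SpecT

/-!
# MP_97567f_al: a normal form in the braid group on three strands
-/

set_option autoImplicit false

namespace Pool.Agent.Lib.MP_97567f_al

section T8

variable {G : Type} [Group G] {x y : G}

/-- the set of the normal forms -/
def t8_N (x y : G) (z : G) : Prop :=
  ∃ (k a : ℤ) (L : List Bool) (b : ℕ), b < 2 ∧ z = (x * x) ^ k * y ^ a * XY x y L * x ^ b

theorem t8_XY_nil : XY x y [] = 1 := rfl

theorem t8_XY_append (L : List Bool) (b : Bool) :
    XY x y (L ++ [b]) = XY x y L * (if b then x * y else x * y⁻¹) := by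
  rw [XY, XY, List.map_append, List.prod_append]
  simp

theorem t8_cx : Commute (x * x) x := (Commute.refl x).mul_left (Commute.refl x)

theorem t8_cy (h : x * x = y * y * y) : Commute (x * x) y := by
  rw [h]
  exact ((Commute.refl y).mul_left (Commute.refl y)).mul_left (Commute.refl y)

theorem t8_cXY (h : x * x = y * y * y) (L : List Bool) : Commute (x * x) (XY x y L) := by
  rw [XY]
  induction L with
  | nil => exact Commute.one_right _
  | cons b L ih =>
    rw [List.map_cons, List.prod_cons]
    refine Commute.mul_right ?_ ih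
    cases b
    · exact t8_cx.mul_right (t8_cy h).inv_right
    · exact t8_cx.mul_right (t8_cy h)

theorem t8_c (h : x * x = y * y * y) {z : G} (hz : t8_N x y z) (j : ℤ) :
    t8_N x y (z * (x * x) ^ j) := by
  obtain ⟨k, a, L, b, hb, rfl⟩ := hz
  refine ⟨k + j, a, L, b, hb, ?_⟩
  have h1 : Commute ((x * x) ^ j) (y ^ a * XY x y L * x ^ b) :=
    ((((t8_cy h).zpow_right a).mul_right (t8_cXY h L)).mul_right (t8_cx.pow_right b)).zpow_left j
  have h2 : (x * x) ^ k * y ^ a * XY x y L * x ^ b * (x * x) ^ j =
      (x * x) ^ k * (y ^ a * XY x y L * x ^ b * (x * x) ^ j) := by group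
  rw [h2, ← h1.eq, zpow_add]
  simp only [mul_assoc]

theorem t8_x (h : x * x = y * y * y) {z : G} (hz : t8_N x y z) : t8_N x y (z * x) := by
  obtain ⟨k, a, L, b, hb, rfl⟩ := hz
  interval_cases b
  · exact ⟨k, a, L, 1, by norm_num, by simp⟩
  · have h1 : t8_N x y ((x * x) ^ k * y ^ a * XY x y L) := ⟨k, a, L, 0, by norm_num, by simp⟩
    have h2 := t8_c h h1 1
    rw [zpow_one] at h2
    rw [pow_one, mul_assoc _ x x]
    exact h2

theorem t8_y (h : x * x = y * y * y) {z : G} (hz : t8_N x y z) : t8_N x y (z * y) := by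
  obtain ⟨k, a, L, b, hb, rfl⟩ := hz
  interval_cases b
  · rw [pow_zero, mul_one]
    rcases List.eq_nil_or_concat L with rfl | ⟨L', e, rfl⟩
    · refine ⟨k, a + 1, [], 0, by norm_num, ?_⟩
      rw [t8_XY_nil, zpow_add, zpow_one]
      simp [mul_assoc]
    · rw [List.concat_eq_append, t8_XY_append]
      cases e
      · refine ⟨k, a, L', 1, by norm_num, ?_⟩
        simp [mul_assoc]
      · have h1 : t8_N x y ((x * x) ^ k * y ^ a * XY x y (L' ++ [false])) :=
          ⟨k, a, L' ++ [false], 0, by norm_num, by simp⟩
        have h2 := t8_c h h1 1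
        rw [zpow_one, t8_XY_append] at h2
        convert h2 using 1
        rw [h]
        simp [mul_assoc]
  · refine ⟨k, a, L ++ [true], 0, by norm_num, ?_⟩
    rw [t8_XY_append]
    simp [mul_assoc]

theorem t8_yi (h : x * x = y * y * y) {z : G} (hz : t8_N x y z) : t8_N x y (z * y⁻¹) := by
  obtain ⟨k, a, L, b, hb, rfl⟩ := hz
  interval_cases b
  · rw [pow_zero, mul_one]
    rcases List.eq_nil_or_concat L with rfl | ⟨L', e, rfl⟩
    · refine ⟨k, a - 1, [], 0, by norm_num, ?_⟩
      rw [t8_XY_nil, zpow_sub, zpow_one]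
      simp [mul_assoc]
    · rw [List.concat_eq_append, t8_XY_append]
      cases e
      · have h1 : t8_N x y ((x * x) ^ k * y ^ a * XY x y (L' ++ [true])) :=
          ⟨k, a, L' ++ [true], 0, by norm_num, by simp⟩
        have h2 := t8_c h h1 (-1)
        rw [zpow_neg, zpow_one, t8_XY_append] at h2
        convert h2 using 1
        rw [h]
        simp [mul_assoc]
      · refine ⟨k, a, L', 1, by norm_num, ?_⟩
        simp [mul_assoc]
  · refine ⟨k, a, L ++ [false], 0, by norm_num, ?_⟩
    rw [t8_XY_append]
    simp [mul_assoc]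

theorem t8_xi (h : x * x = y * y * y) {z : G} (hz : t8_N x y z) : t8_N x y (z * x⁻¹) := by
  have h1 := t8_c h (t8_x h hz) (-1)
  convert h1 using 1
  rw [zpow_neg, zpow_one]
  simp [mul_assoc]

end T8

theorem pT8 : ST8 := by
  intro G _ s t hst z hz
  have h : (s * t * s) * (s * t * s) = (s * t) * (s * t) * (s * t) := by
    calc (s * t * s) * (s * t * s) = (s * t * s) * (t * s * t) := by rw [hst]
      _ = (s * t) * (s * t) * (s * t) := by group
  have key : t8_N (s * t * s) (s * t) z := by
    induction hz using Subgroup.closure_induction_right with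
    | one => exact ⟨0, 0, [], 0, by norm_num, by simp [t8_XY_nil]⟩
    | mul_right u hu v hv ih =>
      rcases hv with rfl | hv
      · have h1 := t8_x h (t8_yi h ih)
        convert h1 using 1
        group
      · rw [Set.mem_singleton_iff] at hv
        subst hv
        have h1 := t8_y h (t8_y h (t8_xi h ih))
        convert h1 using 1
        group
    | mul_inv_cancel u hu v hv ih =>
      rcases hv with rfl | hv
      · have h1 := t8_y h (t8_xi h ih)
        convert h1 using 1
        group
      · rw [Set.mem_singleton_iff] at hv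
        subst hv
        have h1 := t8_x h (t8_yi h (t8_yi h ih))
        convert h1 using 1
        group
  obtain ⟨k, a, L, b, hb, rfl⟩ := key
  refine ⟨k, a, L, b, hb, ?_⟩
  rw [zpow_mul, zpow_ofNat, pow_two]

end Pool.Agent.Lib.MP_97567f_al
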