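import Pool.Agent.Lib.MP_97567f_al.SpecT

/-!
# MP_97567f_al: the kernel of the representation in dimension two
-/

set_option autoImplicit false

namespace Pool.Agent.Lib.MP_97567f_al

/-! ### Group theory -/

private theorem T9_XY_map {G H : Type} [Group G] [Group H] (f : G →* H) (x y : G)
    (L : List Bool) : f (XY x y L) = XY (f x) (f y) L := by
  unfold XY
  rw [map_list_prod, List.map_map]
  congr 1
  refine List.map_congr_left fun b _ => ?_
  cases b <;> simp

private theorem T9_XY_cons {G : Type} [Group G] (x y : G) (b : Bool) (L : List Bool) :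
    XY x y (b :: L) = (if b then x * y else x * y⁻¹) * XY x y L := by
  unfold XY
  rw [List.map_cons, List.prod_cons]

private theorem T9_cs {G : Type} [Group G] {s t : G} (h : s * t * s = t * s * t) :
    Commute (s * t * s * (s * t * s)) s ∧ Commute (s * t * s * (s * t * s)) t ∧
      s * t * (s * t) * (s * t) = s * t * s * (s * t * s) := by
  have h1 : s * (s * t * s) = s * t * s * t := by
    calc s * (s * t * s) = s * (t * s * t) := by rw [h]
      _ = s * t * s * t := by group
  have h2 : t * (s * t * s) = s * t * s * s := by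
    calc t * (s * t * s) = t * s * t * s := by group
      _ = s * t * s * s := by rw [← h]
  refine ⟨?_, ?_, ?_⟩
  · change s * t * s * (s * t * s) * s = s * (s * t * s * (s * t * s))
    calc s * t * s * (s * t * s) * s = s * t * s * (s * t * s * s) := by group
      _ = s * t * s * (t * (s * t * s)) := by rw [h2]
      _ = s * t * s * t * (s * t * s) := by group
      _ = s * (s * t * s) * (s * t * s) := by rw [h1]
      _ = s * (s * t * s * (s * t * s)) := by group
  · change s * t * s * (s * t * s) * t = t * (s * t * s * (s * t * s))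
    calc s * t * s * (s * t * s) * t = s * t * s * (s * t * s * t) := by group
      _ = s * t * s * (s * (s * t * s)) := by rw [h1]
      _ = s * t * s * s * (s * t * s) := by group
      _ = t * (s * t * s) * (s * t * s) := by rw [h2]
      _ = t * (s * t * s * (s * t * s)) := by group
  · calc s * t * (s * t) * (s * t) = s * t * s * (t * s * t) := by group
      _ = s * t * s * (s * t * s) := by rw [h]

/-! ### Integral matrices -/

private def T9_A : GL (Fin 2) ℤ :=
  ⟨!![1, 1; 0, 1], !![1, -1; 0, 1], by decide, by decide⟩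

private def T9_B : GL (Fin 2) ℤ :=
  ⟨!![1, 0; -1, 1], !![1, 0; 1, 1], by decide, by decide⟩

private theorem T9_AB : T9_A * T9_B * T9_A = T9_B * T9_A * T9_B := by
  apply Units.ext
  decide

private theorem T9_x : (T9_A * T9_B * T9_A).1 = !![0, 1; -1, 0] := by decide

private theorem T9_y : (T9_A * T9_B).1 = !![0, 1; -1, 1] := by decide

private theorem T9_y' : ((T9_A * T9_B)⁻¹).1 = !![1, -1; 1, 0] := by decide

private theorem T9_mat (L : List Bool) : ∃ ε p q r u : ℤ, (ε = 1 ∨ ε = -1) ∧ 1 ≤ p ∧ 1 ≤ u ∧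
    0 ≤ q ∧ 0 ≤ r ∧ (L ≠ [] → 0 < q + r) ∧
    (XY (T9_A * T9_B * T9_A) (T9_A * T9_B) L).1 = ε • !![p, -q; -r, u] := by
  induction L with
  | nil =>
    refine ⟨1, 1, 0, 0, 1, Or.inl rfl, le_rfl, le_rfl, le_rfl, le_rfl, fun h => absurd rfl h, ?_⟩
    unfold XY
    rw [List.map_nil, List.prod_nil]
    decide
  | cons b L ih =>
    obtain ⟨ε, p, q, r, u, hε, hp, hu, hq, hr, -, e⟩ := ih
    rw [T9_XY_cons, Units.val_mul, e]
    cases b with
    | true =>
      refine ⟨-ε, p + r, q + u, r, u, ?_, by omega, hu, by omega, hr, fun _ => by omega, ?_⟩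
      · rcases hε with h | h
        · exact Or.inr (by rw [h])
        · exact Or.inl (by rw [h, neg_neg])
      · rw [if_pos rfl, Units.val_mul, T9_x, T9_y]
        ext i j
        fin_cases i <;> fin_cases j <;> simp [Matrix.mul_apply, Fin.sum_univ_two] <;> ring
    | false =>
      refine ⟨ε, p, q, p + r, q + u, hε, hp, by omega, hq, by omega, fun _ => by omega, ?_⟩
      rw [if_neg (by decide), Units.val_mul, T9_x, T9_y']
      ext i j
      fin_cases i <;> fin_cases j <;> simp [Matrix.mul_apply, Fin.sum_univ_two] <;> ring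

private theorem T9_zpow {G : Type} [Group G] {e : G} (he : e * e = 1) (k : ℤ) :
    e ^ k = 1 ∨ e ^ k = e := by
  rcases Int.even_or_odd' k with ⟨m, rfl | rfl⟩
  · left
    rw [zpow_mul, zpow_two, he, one_zpow]
  · right
    rw [zpow_add, zpow_mul, zpow_two, he, one_zpow, one_mul, zpow_one]

/-- If a word in the integral matrices is diagonal then it is trivial. -/
private theorem T9_word (k a : ℤ) (L : List Bool) (b : ℕ) (hb : b < 2)
    (h01 : ((T9_A * T9_B * T9_A) ^ (2 * k) * (T9_A * T9_B) ^ a *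
      XY (T9_A * T9_B * T9_A) (T9_A * T9_B) L * (T9_A * T9_B * T9_A) ^ b).1 0 1 = 0)
    (h10 : ((T9_A * T9_B * T9_A) ^ (2 * k) * (T9_A * T9_B) ^ a *
      XY (T9_A * T9_B * T9_A) (T9_A * T9_B) L * (T9_A * T9_B * T9_A) ^ b).1 1 0 = 0) :
    L = [] ∧ b = 0 ∧ a % 3 = 0 := by
  obtain ⟨ε, p, q, r, u, hε, hp, hu, hq, hr, hL, e⟩ := T9_mat L
  have hc := T9_cs T9_AB
  set x := T9_A * T9_B * T9_A with hx
  set y := T9_A * T9_B with hy
  have hxx : x * x = -1 := by
    apply Units.ext
    decide
  have hc2 : (x * x) * (x * x) = 1 := by rw [hxx]; simp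
  have hy3 : y ^ (3 : ℤ) = x * x := by
    rw [← hc.2.2]
    rw [show (3 : ℤ) = ((3 : ℕ) : ℤ) from rfl, zpow_natCast, pow_succ, pow_two]
  have h1 : x ^ (2 * k) * y ^ a = (x * x) ^ (k + a / 3) * y ^ (a % 3) := by
    conv_lhs => rw [← Int.mul_ediv_add_emod a 3]
    rw [zpow_add, zpow_mul y, hy3, zpow_mul, zpow_two, zpow_add]
    exact (mul_assoc _ _ _).symm
  rw [h1] at h01 h10
  have h2 : ∀ i j, ((x * x) ^ (k + a / 3) * y ^ (a % 3) * XY x y L * x ^ b).1 i j = 0 →
      (y ^ (a % 3) * XY x y L * x ^ b).1 i j = 0 := by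
    intro i j h
    rcases T9_zpow hc2 (k + a / 3) with h' | h'
    · rw [h', one_mul] at h
      exact h
    · rw [h', hxx, mul_assoc, mul_assoc, neg_mul, one_mul, ← mul_assoc, Units.val_neg,
        Matrix.neg_apply, neg_eq_zero] at h
      exact h
  have g01 := h2 0 1 h01
  have g10 := h2 1 0 h10
  have hε0 : ε ≠ 0 := by
    rcases hε with h | h <;> rw [h] <;> decide
  have hd := Int.emod_nonneg a (b := 3) (by decide)
  have hd' := Int.emod_lt_of_pos a (b := 3) (by decide)
  have key : ∀ m, m = a % 3 → m = 0 ∨ m = 1 ∨ m = 2 := by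
    intro m hm
    omega
  rw [Units.val_mul, Units.val_mul, e] at g01 g10
  rcases key _ rfl with h | h | h
  · rw [h, zpow_zero, Units.val_one, one_mul] at g01 g10
    interval_cases b
    · rw [pow_zero, Units.val_one, mul_one] at g01 g10
      simp [hε0] at g01 g10
      refine ⟨?_, rfl, h⟩
      by_contra hne
      have := hL hne
      omega
    · rw [pow_one, T9_x] at g01 g10
      simp [hε0, Matrix.mul_apply, Fin.sum_univ_two] at g01 g10
      omega
  · rw [h, zpow_one, T9_y] at g01 g10
    interval_cases b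
    · rw [pow_zero, Units.val_one, mul_one] at g01 g10
      simp [hε0, Matrix.mul_apply, Fin.sum_univ_two] at g01 g10
      omega
    · rw [pow_one, T9_x] at g01 g10
      simp only [Matrix.mul_apply, Fin.sum_univ_two] at g01 g10
      simp at g01 g10
      rcases hε with h' | h' <;> rw [h'] at g01 g10 <;> omega
  · have hyy : (y ^ (2 : ℤ)).1 = !![-1, 1; -1, 0] := by
      rw [zpow_two, Units.val_mul, T9_y]
      decide
    rw [h, hyy] at g01 g10
    interval_cases b
    · rw [pow_zero, Units.val_one, mul_one] at g01 g10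
      simp only [Matrix.mul_apply, Fin.sum_univ_two] at g01 g10
      simp at g01 g10
      rcases hε with h' | h' <;> rw [h'] at g01 g10 <;> omega
    · rw [pow_one, T9_x] at g01 g10
      simp only [Matrix.mul_apply, Fin.sum_univ_two] at g01 g10
      simp at g01 g10
      rcases hε with h' | h' <;> rw [h'] at g01 g10 <;> omega

section main

variable {n : ℕ} {M : CoxeterMatrix (Fin n)}

private theorem T9_retr (hSL : SL M) {s t : Fin n} (hSat : Sat M {s, t}) :
    ∃ r : Art M →* Art M, r (gn M s) = gn M s ∧ r (gn M t) = gn M t ∧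
      (∀ u, u ∉ ({s, t} : Finset (Fin n)) → r (gn M u) = 1) ∧
      ∀ z, r z ∈ Subgroup.closure {gn M s, gn M t} := by
  have h1 : ∀ i j, adj M i j →
      (i ∈ ({s, t} : Finset (Fin n)) ↔ j ∈ ({s, t} : Finset (Fin n))) :=
    fun i j h => ⟨fun hi => hSat i hi j h, fun hj => hSat j hj i (adj_symm h)⟩
  obtain ⟨r, hr⟩ := art_lift hSL.sl (G := Art M)
    (fun i => if i ∈ ({s, t} : Finset (Fin n)) then gn M i else 1)
    (fun i j hij hadj => by
      by_cases hi : i ∈ ({s, t} : Finset (Fin n)) <;> by_cases hj : j ∈ ({s, t} : Finset (Fin n))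
      · rw [if_pos hi, if_pos hj, art_comm hSL.sl hij hadj]
      · rw [if_neg hj, mul_one, one_mul]
      · rw [if_neg hi, mul_one, one_mul]
      · rw [if_neg hi, if_neg hj])
    (fun i j hadj => by
      by_cases hi : i ∈ ({s, t} : Finset (Fin n))
      · rw [if_pos hi, if_pos ((h1 i j hadj).1 hi), art_braid hadj]
      · rw [if_neg hi, if_neg fun hj => hi ((h1 i j hadj).2 hj)])
  have hs : r (gn M s) = gn M s := by rw [hr, if_pos (by simp)]
  have ht : r (gn M t) = gn M t := by rw [hr, if_pos (by simp)]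
  have hu : ∀ u, u ∉ ({s, t} : Finset (Fin n)) → r (gn M u) = 1 := fun u hu => by
    rw [hr, if_neg hu]
  have hmem : ∀ u, r (gn M u) ∈ Subgroup.closure {gn M s, gn M t} := by
    intro u
    by_cases h : u ∈ ({s, t} : Finset (Fin n))
    · rw [Finset.mem_insert, Finset.mem_singleton] at h
      rcases h with rfl | rfl
      · rw [hs]; exact Subgroup.subset_closure (by simp)
      · rw [ht]; exact Subgroup.subset_closure (by simp)
    · rw [hu u h]; exact one_mem _
  refine ⟨r, hs, ht, hu, fun z => ?_⟩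
  refine art_induction (P := fun z => r z ∈ Subgroup.closure {gn M s, gn M t}) ?_ ?_ ?_ z
  · rw [map_one]; exact one_mem _
  · intro i x hx
    rw [map_mul]; exact mul_mem (hmem i) hx
  · intro i x hx
    rw [map_mul, map_inv]; exact mul_mem (inv_mem (hmem i)) hx

private theorem T9_T2r {R : Type} [CommRing R] (w τ : R) {s t : Fin n}
    (hT : ∀ u, (T2 M s t w τ (gn M u)).1 = m2 s t w τ u) {r : Art M →* Art M}
    (hs : r (gn M s) = gn M s) (ht : r (gn M t) = gn M t)
    (hu : ∀ u, u ∉ ({s, t} : Finset (Fin n)) → r (gn M u) = 1) (z : Art M) :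
    T2 M s t w τ (r z) = T2 M s t w τ z := by
  have h : (T2 M s t w τ).comp r = T2 M s t w τ := by
    refine art_ext fun u => ?_
    rw [MonoidHom.comp_apply]
    by_cases h1 : u = s
    · rw [h1, hs]
    by_cases h2 : u = t
    · rw [h2, ht]
    · rw [hu u (by simp [h1, h2]), map_one]
      apply Units.ext
      rw [hT u]
      simp [m2, h1, h2]
  exact DFunLike.congr_fun h z

private theorem T9_rhoZ (hSL : SL M) {s t : Fin n} (hst : adj M s t) (hSat : Sat M {s, t}) :
    ∃ ρ : Art M →* GL (Fin 2) ℤ, ρ (gn M s) = T9_A ∧ ρ (gn M t) = T9_B ∧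
      ∀ u, u ≠ s → u ≠ t → ρ (gn M u) = 1 := by
  have hne : s ≠ t := adj_ne hst
  have h1 : ∀ i j, adj M i j →
      (i ∈ ({s, t} : Finset (Fin n)) ↔ j ∈ ({s, t} : Finset (Fin n))) :=
    fun i j h => ⟨fun hi => hSat i hi j h, fun hj => hSat j hj i (adj_symm h)⟩
  obtain ⟨r, hr⟩ := art_lift hSL.sl (G := GL (Fin 2) ℤ)
    (fun i => if i = s then T9_A else if i = t then T9_B else 1)
    (fun i j hij hadj => by
      by_cases hi : i = s
      · have hj : j ≠ s := fun h => hij (hi.trans h.symm)
        have hj' : j ≠ t := by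
          rintro rfl
          rw [hi] at hadj
          exact hadj hst
        rw [if_neg hj, if_neg hj', mul_one, one_mul]
      · by_cases hi' : i = t
        · have hj : j ≠ t := fun h => hij (hi'.trans h.symm)
          have hj' : j ≠ s := by
            rintro rfl
            rw [hi'] at hadj
            exact hadj (adj_symm hst)
          rw [if_neg hj', if_neg hj, mul_one, one_mul]
        · rw [if_neg hi, if_neg hi', mul_one, one_mul])
    (fun i j hadj => by
      have hij := adj_ne hadj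
      have h2 := h1 i j hadj
      simp only [Finset.mem_insert, Finset.mem_singleton] at h2
      by_cases hi : i = s
      · have hj : j = t := by
          rcases h2.1 (Or.inl hi) with h | h
          · exact absurd (hi.trans h.symm) hij
          · exact h
        rw [if_pos hi, if_neg (by rw [hj]; exact hne.symm), if_pos hj, T9_AB]
      · by_cases hi' : i = t
        · have hj : j = s := by
            rcases h2.1 (Or.inr hi') with h | h
            · exact h
            · exact absurd (hi'.trans h.symm) hij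
          rw [if_neg hi, if_pos hi', if_pos hj, T9_AB]
        · have hj : ¬ (j = s ∨ j = t) := fun h => by
            rcases h2.2 h with h | h
            · exact hi h
            · exact hi' h
          push Not at hj
          rw [if_neg hi, if_neg hi', if_neg hj.1, if_neg hj.2])
  refine ⟨r, by rw [hr, if_pos rfl], by rw [hr, if_neg hne.symm, if_pos rfl], fun u h h' => ?_⟩
  rw [hr, if_neg h, if_neg h']

private noncomputable def T9_G : Matrix (Fin 2) (Fin 2) ℂ := !![1, -om; -om ^ 2, -om ^ 2]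

private theorem T9_gen (hom : om ^ 2 + om + 1 = 0) {s t : Fin n} (hst : s ≠ t)
    (hT : ∀ u, (T2 M s t om 2 (gn M u)).1 = m2 s t om 2 u) {ρ : Art M →* GL (Fin 2) ℤ}
    (hs : ρ (gn M s) = T9_A) (ht : ρ (gn M t) = T9_B)
    (hu : ∀ u, u ≠ s → u ≠ t → ρ (gn M u) = 1) (u : Fin n) :
    T9_G * (T2 M s t om 2 (gn M u)).1 =
      (Int.castRingHom ℂ).mapMatrix (ρ (gn M u)).1 * T9_G := by
  rw [hT u]
  by_cases h1 : u = s
  · rw [h1, hs]
    ext i j
    fin_cases i <;> fin_cases j <;>
      simp [T9_G, m2, T9_A, Matrix.mul_apply, Fin.sum_univ_two] <;>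
        first | linear_combination hom | ring
  · by_cases h2 : u = t
    · rw [h2, ht]
      ext i j
      fin_cases i <;> fin_cases j <;>
        simp [T9_G, m2, T9_B, Matrix.mul_apply, Fin.sum_univ_two, hst.symm]
      · linear_combination (om - 1) * hom
      · ring
      · linear_combination (om ^ 2 - om + 1) * hom
      · linear_combination -om * hom
    · rw [hu u h1 h2, Units.val_one, map_one, one_mul]
      simp [m2, h1, h2]

private theorem T9_inter (hom : om ^ 2 + om + 1 = 0) {s t : Fin n} (hst : s ≠ t)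
    (hT : ∀ u, (T2 M s t om 2 (gn M u)).1 = m2 s t om 2 u) {ρ : Art M →* GL (Fin 2) ℤ}
    (hs : ρ (gn M s) = T9_A) (ht : ρ (gn M t) = T9_B)
    (hu : ∀ u, u ≠ s → u ≠ t → ρ (gn M u) = 1) (z : Art M) :
    T9_G * (T2 M s t om 2 z).1 = (Int.castRingHom ℂ).mapMatrix (ρ z).1 * T9_G := by
  have hg := T9_gen hom hst hT hs ht hu
  refine art_induction (P := fun z => T9_G * (T2 M s t om 2 z).1 =
    (Int.castRingHom ℂ).mapMatrix (ρ z).1 * T9_G) ?_ ?_ ?_ z
  · rw [map_one, map_one, Units.val_one, Units.val_one, map_one, one_mul, mul_one]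
  · intro i x hx
    rw [map_mul, map_mul, Units.val_mul, Units.val_mul, map_mul, ← mul_assoc, hg i, mul_assoc, hx,
      mul_assoc]
  · intro i x hx
    have h1 : T9_G * (T2 M s t om 2 (gn M i))⁻¹.1 =
        (Int.castRingHom ℂ).mapMatrix (ρ (gn M i))⁻¹.1 * T9_G := by
      have h2 : (Int.castRingHom ℂ).mapMatrix (ρ (gn M i))⁻¹.1 *
          (Int.castRingHom ℂ).mapMatrix (ρ (gn M i)).1 = 1 := by
        rw [← map_mul, Units.inv_mul, map_one]
      have h3 : (T2 M s t om 2 (gn M i)).1 * (T2 M s t om 2 (gn M i))⁻¹.1 = 1 := Units.mul_inv _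
      calc T9_G * (T2 M s t om 2 (gn M i))⁻¹.1
          = (Int.castRingHom ℂ).mapMatrix (ρ (gn M i))⁻¹.1 *
            ((Int.castRingHom ℂ).mapMatrix (ρ (gn M i)).1 * T9_G) *
              (T2 M s t om 2 (gn M i))⁻¹.1 := by
            rw [← mul_assoc, h2, one_mul]
        _ = (Int.castRingHom ℂ).mapMatrix (ρ (gn M i))⁻¹.1 *
            (T9_G * ((T2 M s t om 2 (gn M i)).1 * (T2 M s t om 2 (gn M i))⁻¹.1)) := by
            rw [← hg i]
            simp only [mul_assoc]
        _ = _ := by rw [h3, mul_one]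
    rw [map_mul, map_mul, map_inv, map_inv, Units.val_mul, Units.val_mul, map_mul, ← mul_assoc, h1,
      mul_assoc, hx, mul_assoc]

/-- If the value is scalar then the integral matrix is diagonal. -/
private theorem T9_diag (hom : om ^ 2 + om + 1 = 0) (S : Matrix (Fin 2) (Fin 2) ℤ) (c : ℂ)
    (h : T9_G * (c • (1 : Matrix (Fin 2) (Fin 2) ℂ)) = (Int.castRingHom ℂ).mapMatrix S * T9_G) :
    S 0 1 = 0 ∧ S 1 0 = 0 := by
  have h0 : om ≠ 0 := by
    intro h'
    rw [h'] at hom
    norm_num at hom
  have h00 := congrFun (congrFun h 0) 0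
  have h01 := congrFun (congrFun h 0) 1
  have h10 := congrFun (congrFun h 1) 0
  have h11 := congrFun (congrFun h 1) 1
  simp [T9_G, Matrix.mul_apply, Fin.sum_univ_two] at h00 h01 h10 h11
  constructor
  · have h1 : om * (S 0 1 : ℂ) = 0 := by
      linear_combination -om * h00 - h01 + (S 0 1 : ℂ) * om * hom
    have h2 := (mul_eq_zero.1 h1).resolve_left h0
    exact_mod_cast h2
  · have h1 : om ^ 2 * (S 1 0 : ℂ) = 0 := by
      linear_combination h10 - h11 + (S 1 0 : ℂ) * hom
    have h2 := (mul_eq_zero.1 h1).resolve_left (pow_ne_zero 2 h0)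
    exact_mod_cast h2

/-- A matrix which commutes with a spanning set is scalar. -/
private theorem T9_scalar {ι J K : Type} [Fintype ι] [DecidableEq ι] [Field K]
    (A : J → Matrix ι ι K) (hA : Submodule.span K (Set.range A) = ⊤) (Z : Matrix ι ι K)
    (hZ : ∀ j, A j * Z = Z * A j) : ∃ m : K, Z = m • (1 : Matrix ι ι K) := by
  have h1 : ∀ Y : Matrix ι ι K, Y * Z = Z * Y := by
    intro Y
    have hY : Y ∈ Submodule.span K (Set.range A) := by rw [hA]; trivial
    induction hY using Submodule.span_induction with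
    | mem y hy =>
      obtain ⟨j, rfl⟩ := hy
      exact hZ j
    | zero => rw [zero_mul, mul_zero]
    | add y z _ _ hy hz => rw [add_mul, mul_add, hy, hz]
    | smul c y _ hy => rw [smul_mul_assoc, mul_smul_comm, hy]
  obtain ⟨m, hm⟩ := Matrix.mem_range_scalar_of_commute_single (M := Z) fun i j _ => h1 _
  refine ⟨m, ?_⟩
  rw [← hm, Matrix.scalar_apply, Matrix.smul_one_eq_diagonal]

end main

theorem pT9 (h1 : ST1) (h2 : ST8) (h3 : SIrr) (h4 : SLKr) (h5 : SLkA) : ST9 := by
  intro n M hSL hRF hFH s t hst hSat z hz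
  obtain ⟨m, hm⟩ := hz
  obtain ⟨hom, hT⟩ := h1
  obtain ⟨hTg, hTb, -⟩ := hT n M hSL s t hst hSat
  obtain ⟨r, rs, rt, ru, rcl⟩ := T9_retr hSL hSat
  have hw0 : (algebraMap ℂ R2 om) ^ 2 + algebraMap ℂ R2 om + 1 = 0 := by
    rw [← map_pow, ← map_add, ← map_one (algebraMap ℂ R2), ← map_add, hom, map_zero]
  -- the specialization
  obtain ⟨φ, φq, -⟩ := R2_lift (S := ℂ) (a := 2) (b := 1) (by norm_num) isUnit_one
  have hinj : Function.Injective (algebraMap R2 K2) := IsFractionRing.injective R2 K2
  have e1 := hTb R2 K2 (algebraMap R2 K2) (algebraMap ℂ R2 om) qq hw0 z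
  rw [hm] at e1
  have e2 := hTb R2 ℂ (φ : R2 →+* ℂ) (algebraMap ℂ R2 om) qq hw0 z
  have hφ : (φ : R2 →+* ℂ) (algebraMap ℂ R2 om) = om := φ.commutes om
  have hφq : (φ : R2 →+* ℂ) qq = 2 := φq
  rw [hφ, hφq] at e2
  have e3 : (T2 M s t om 2 z).1 =
      ((φ : R2 →+* ℂ) ((T2 M s t (algebraMap ℂ R2 om) qq z).1 0 0)) •
        (1 : Matrix (Fin 2) (Fin 2) ℂ) := by
    have f : ∀ i j, m * (1 : Matrix (Fin 2) (Fin 2) K2) i j =
        algebraMap R2 K2 ((T2 M s t (algebraMap ℂ R2 om) qq z).1 i j) := by
      intro i j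
      have := congrFun (congrFun e1 i) j
      simpa using this
    have f00 := f 0 0
    have f01 := f 0 1
    have f10 := f 1 0
    have f11 := f 1 1
    rw [Matrix.one_apply_eq, mul_one] at f00 f11
    rw [Matrix.one_apply_ne (by decide), mul_zero] at f01 f10
    have g01 := hinj (f01.symm.trans (map_zero _).symm)
    have g10 := hinj (f10.symm.trans (map_zero _).symm)
    have g11 := hinj (f11.symm.trans f00)
    rw [e2]
    ext i j
    fin_cases i <;> fin_cases j
    · simp
    · simp [g01]
    · simp [g10]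
    · simp [g11]
  have hT2 : ∀ u, (T2 M s t om 2 (gn M u)).1 = m2 s t om 2 u := (hTg ℂ om 2 hom).1
  have e4 : (T2 M s t om 2 (r z)).1 =
      ((φ : R2 →+* ℂ) ((T2 M s t (algebraMap ℂ R2 om) qq z).1 0 0)) •
        (1 : Matrix (Fin 2) (Fin 2) ℂ) := by
    rw [T9_T2r om 2 hT2 rs rt ru, e3]
  obtain ⟨ρ, ρs, ρt, ρu⟩ := T9_rhoZ hSL hst hSat
  have e5 := T9_inter hom (adj_ne hst) hT2 ρs ρt ρu (r z)
  rw [e4] at e5
  obtain ⟨d1, d2⟩ := T9_diag hom _ _ e5
  obtain ⟨k, a, L, b, hb, hword⟩ := h2 (Art M) (gn M s) (gn M t) (art_braid hst) (r z) (rcl z)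
  have e6 : ρ (r z) = (T9_A * T9_B * T9_A) ^ (2 * k) * (T9_A * T9_B) ^ a *
      XY (T9_A * T9_B * T9_A) (T9_A * T9_B) L * (T9_A * T9_B * T9_A) ^ b := by
    rw [hword]
    simp only [map_mul, map_zpow, map_pow, T9_XY_map, ρs, ρt]
  rw [e6] at d1 d2
  obtain ⟨rfl, rfl, ha⟩ := T9_word k a L b hb d1 d2
  obtain ⟨c1, c2, c3⟩ := T9_cs (art_braid hst)
  have hz' : r z = (gn M s * gn M t * gn M s * (gn M s * gn M t * gn M s)) ^ (k + a / 3) := by
    have ha' : a = 3 * (a / 3) := by omega
    rw [hword]
    conv_lhs => rw [ha']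
    have h3' : (gn M s * gn M t) ^ (3 : ℤ) =
        gn M s * gn M t * gn M s * (gn M s * gn M t * gn M s) := by
      rw [← c3, show (3 : ℤ) = ((3 : ℕ) : ℤ) from rfl, zpow_natCast, pow_succ, pow_two]
    rw [zpow_mul (gn M s * gn M t), h3', zpow_mul, zpow_two, zpow_add, pow_zero, mul_one]
    simp [XY]
  have hcs : Commute (r z) (gn M s) := by
    rw [hz']; exact c1.zpow_left _
  have hct : Commute (r z) (gn M t) := by
    rw [hz']; exact c2.zpow_left _
  -- the Lawrence-Krammer representation
  obtain ⟨hLK, -⟩ := h4 n M hSL hRF hFH {s, t} hSat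
  have hLK' := hLK R2 qq ll qq_unit ll_unit
  obtain ⟨-, -, -, -, hA⟩ := h5 n M hRF {s, t}
  obtain ⟨-, -, -, hone⟩ := hA R2 qq ll
  have hu1 : ∀ u, u ∉ ({s, t} : Finset (Fin n)) → LKr M {s, t} qq ll (gn M u) = 1 := by
    intro u hu
    apply Units.ext
    rw [hLK', hone hSat u hu, Units.val_one]
  have hr : LKr M {s, t} qq ll (r z) = LKr M {s, t} qq ll z := by
    have h : (LKr M {s, t} qq ll).comp r = LKr M {s, t} qq ll := by
      refine art_ext fun u => ?_
      rw [MonoidHom.comp_apply]
      by_cases hu : u ∈ ({s, t} : Finset (Fin n))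
      · rw [Finset.mem_insert, Finset.mem_singleton] at hu
        rcases hu with rfl | rfl
        · rw [rs]
        · rw [rt]
      · rw [ru u hu, map_one, hu1 u hu]
    exact DFunLike.congr_fun h z
  have hcomm : ∀ x, Commute (LKr M {s, t} qq ll z) (LKr M {s, t} qq ll x) := by
    have hg : ∀ u, Commute (LKr M {s, t} qq ll z) (LKr M {s, t} qq ll (gn M u)) := by
      intro u
      by_cases hu : u ∈ ({s, t} : Finset (Fin n))
      · rw [← hr]
        rw [Finset.mem_insert, Finset.mem_singleton] at hu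
        rcases hu with rfl | rfl
        · exact hcs.map _
        · exact hct.map _
      · rw [hu1 u hu]
        exact Commute.one_right _
    intro x
    refine art_induction (P := fun x => Commute (LKr M {s, t} qq ll z) (LKr M {s, t} qq ll x))
      ?_ ?_ ?_ x
    · rw [map_one]; exact Commute.one_right _
    · intro i x hx
      rw [map_mul]; exact (hg i).mul_right hx
    · intro i x hx
      rw [map_mul, map_inv]; exact (hg i).inv_right.mul_right hx
  have hconn : Conn M {s, t} := by
    intro i hi j hj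
    rw [Finset.mem_insert, Finset.mem_singleton] at hi hj
    rcases hi with rfl | rfl <;> rcases hj with rfl | rfl
    · exact Relation.ReflTransGen.refl
    · exact Relation.ReflTransGen.single hst
    · exact Relation.ReflTransGen.single (adj_symm hst)
    · exact Relation.ReflTransGen.refl
  refine T9_scalar (fun x : Art M => (LKr M {s, t} qq ll x).1.map (algebraMap R2 K2))
    (h3 n M hSL hRF hFH {s, t} hSat hconn (Finset.insert_nonempty _ _)) _ fun x => ?_
  have h6 : (LKr M {s, t} qq ll x).1 * (LKr M {s, t} qq ll z).1 =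
      (LKr M {s, t} qq ll z).1 * (LKr M {s, t} qq ll x).1 :=
    congrArg Units.val (hcomm x).eq.symm
  change (algebraMap R2 K2).mapMatrix (LKr M {s, t} qq ll x).1 *
    (algebraMap R2 K2).mapMatrix (LKr M {s, t} qq ll z).1 =
    (algebraMap R2 K2).mapMatrix (LKr M {s, t} qq ll z).1 *
      (algebraMap R2 K2).mapMatrix (LKr M {s, t} qq ll x).1
  rw [← map_mul, ← map_mul, h6]

end Pool.Agent.Lib.MP_97567f_al
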