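import Pool.Agent.Lib.MP_97567f_al.SpecG

/-!
# MP_97567f_al: units of the ring of Laurent polynomials
-/

set_option autoImplicit false

namespace Pool.Agent.Lib.MP_97567f_al

open MvPolynomial

/-- Divisors of the powers of the product of the two variables. -/
private theorem Units_div (n : ℕ) (f : P2) (h : f ∣ (X 0 * X 1 : P2) ^ n) :
    ∃ (c : ℂ) (i j : ℕ), c ≠ 0 ∧ f = C c * (X 0 ^ i * X 1 ^ j) := by
  rw [mul_pow] at h
  obtain ⟨a, b, ha, hb, rfl⟩ := exists_dvd_and_dvd_of_dvd_mul h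
  obtain ⟨i, -, hi⟩ := (dvd_prime_pow (X_prime (i := 0) (R := ℂ)) n).1 ha
  obtain ⟨j, -, hj⟩ := (dvd_prime_pow (X_prime (i := 1) (R := ℂ)) n).1 hb
  obtain ⟨w, hw⟩ := (hi.mul_mul hj).symm
  obtain ⟨c, hc, hcw⟩ := isUnit_iff_eq_C_of_isReduced.1 w.isUnit
  refine ⟨c, i, j, hc.ne_zero, ?_⟩
  rw [← hw, hcw, mul_comm]

private theorem Units_alg (c : ℂ) : algebraMap P2 R2 (C c) = algebraMap ℂ R2 c := by
  rw [← MvPolynomial.algebraMap_eq, ← IsScalarTower.algebraMap_apply]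

theorem pUnits : SUnits := by
  intro u hu
  obtain ⟨v, huv⟩ := hu.exists_right_inv
  obtain ⟨n, f, hf⟩ := IsLocalization.Away.surj (X 0 * X 1 : P2) u
  obtain ⟨m, g, hg⟩ := IsLocalization.Away.surj (X 0 * X 1 : P2) v
  have hfg : f * g = (X 0 * X 1 : P2) ^ (n + m) := by
    apply algebraMap_injective
    rw [map_mul, ← hf, ← hg, map_pow]
    calc u * algebraMap P2 R2 (X 0 * X 1) ^ n * (v * algebraMap P2 R2 (X 0 * X 1) ^ m)
        = (u * v) * algebraMap P2 R2 (X 0 * X 1) ^ (n + m) := by ring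
      _ = _ := by rw [huv, one_mul]
  obtain ⟨c, i, j, hc, hfc⟩ := Units_div (n + m) f ⟨g, hfg.symm⟩
  refine ⟨c, (i : ℤ) - n, (j : ℤ) - n, hc, ?_⟩
  have hq : ((qq_unit.unit : R2ˣ) : R2) = qq := qq_unit.unit_spec
  have hl : ((ll_unit.unit : R2ˣ) : R2) = ll := ll_unit.unit_spec
  have hX : algebraMap P2 R2 (X 0 * X 1) = qq * ll := by
    rw [map_mul]; rfl
  have hun : IsUnit ((qq * ll) ^ n) := qqll_unit.pow n
  apply hun.mul_right_cancel
  rw [hX] at hf
  rw [hf, hfc, map_mul, Units_alg, map_mul, map_pow, map_pow]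
  change algebraMap ℂ R2 c * (qq ^ i * ll ^ j) = _
  have key : ((qq_unit.unit ^ ((i : ℤ) - n) * ll_unit.unit ^ ((j : ℤ) - n) : R2ˣ) : R2) * (qq * ll) ^ n
      = qq ^ i * ll ^ j := by
    have e : (qq_unit.unit ^ ((i : ℤ) - n) * ll_unit.unit ^ ((j : ℤ) - n)) * (qq_unit.unit * ll_unit.unit) ^ n
        = qq_unit.unit ^ i * ll_unit.unit ^ j := by
      rw [mul_pow, zpow_sub, zpow_sub, zpow_natCast, zpow_natCast, zpow_natCast, zpow_natCast]
      rw [mul_mul_mul_comm, inv_mul_cancel_right, inv_mul_cancel_right]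
    have e' := congrArg (fun x : R2ˣ => (x : R2)) e
    simpa only [Units.val_mul, Units.val_pow_eq_pow_val, hq, hl] using e'
  rw [mul_assoc, key]

end Pool.Agent.Lib.MP_97567f_al
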