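import Pool.Agent.Lib.MP_97567f_al.SpecD

/-!
# MP_97567f_al: the universal property of the Lawrence-Krammer module
-/

set_option autoImplicit false

namespace Pool.Agent.Lib.MP_97567f_al

open Polynomial

section linear

variable {F W : Type} [Field F] [AddCommGroup W] [Module F W]

private theorem Univ_Qa (T U : W →ₗ[F] W) (q ftd fud ftc fuc ftb : F) (xd xc xb vt vu : W)
    (h1 : xc = T xd - (1 - q) • xd - ftd • vt) (h2 : xb = U xc - (1 - q) • xc - fuc • vu)
    (h3 : U xd = xd + fud • vu) (h4 : T xc = q • xd + ftc • vt)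
    (h5 : T (U (T xd)) = U (T (U xd))) (h6 : T (U vt) = q • vu) (h7 : U (T vu) = q • vt)
    (h8 : U vt - (1 - q) • vt = T vu - (1 - q) • vu)
    (h9 : fuc = ftd - (1 - q) * fud) (h10 : ftb = q * fud - (1 - q) * ftc) :
    T xb = xb + ftb • vt := by
  have e0 : U xc = U (T xd) - (1 - q) • (xd + fud • vu) - ftd • U vt := by
    rw [h1, map_sub, map_sub, map_smul, map_smul, h3]
  have e1 : T (U xc) = U (T xd) + (q * fud) • vt - (1 - q) • T xd - ((1 - q) * fud) • T vu -
      (q * ftd) • vu := by
    have e2 : T (U xc) = T (U (T xd)) - (1 - q) • T (U xd) - ftd • T (U vt) := by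
      rw [h1, map_sub, map_sub, map_smul, map_smul, map_sub, map_sub, map_smul, map_smul]
    have e3 : U (T (U xd)) = U (T xd) + fud • (q • vt) := by
      rw [h3, map_add, map_smul, map_add, map_smul, h7]
    have e4 : T (U xd) = T xd + fud • T vu := by
      rw [h3, map_add, map_smul]
    rw [e2, h5, e3, e4, h6]
    module
  have e5 : T xb = T (U xc) - (1 - q) • T xc - fuc • T vu := by
    rw [h2, map_sub, map_sub, map_smul, map_smul]
  rw [e5, e1, h4, h2, e0, h1, h9, h10]
  linear_combination (norm := module) ftd • h8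

private theorem Univ_Qn (T U : W →ₗ[F] W) (q ft fu ftb : F) (x xb vt vu : W)
    (h1 : xb = U x - (1 - q) • x - fu • vu) (h2 : T x = x + ft • vt) (h3 : T vu = vu)
    (h4 : U vt = vt) (h5 : T (U x) = U (T x)) (h6 : ftb = q * ft) : T xb = xb + ftb • vt := by
  have e1 : U (T x) = U x + ft • vt := by rw [h2, map_add, map_smul, h4]
  rw [h1, map_sub, map_sub, map_smul, map_smul, h5, e1, h2, h3, h6]
  module

private theorem Univ_Ra (T U : W →ₗ[F] W) (q l ftc fuc fub ftb ft' : F) (xc xb vt vu : W)
    (h1 : T xc = xc + ftc • vt) (h2 : xb = U xc - (1 - q) • xc - fuc • vu)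
    (h3 : U (U xc) = (1 - q) • U xc + q • xc + (fub + l * fuc) • vu)
    (h4 : ∀ x, T (U (T x)) = U (T (U x))) (h5 : T (U vt) = q • vu) (h6 : U (T vu) = q • vt)
    (h7 : T vt = l • vt) (h8 : T (T vu) = (1 - q) • T vu + q • vu - ((1 - q) * l) • vt)
    (h9 : U vt - (1 - q) • vt = T vu - (1 - q) • vu)
    (h10 : ft' = q * fub) (h11 : ftb = fuc - (1 - q) * ftc) :
    T (T xb) = (1 - q) • T xb + q • xb + (ft' + l * ftb) • vt := by
  have e0 : U (T xc) = U xc + ftc • U vt := by rw [h1, map_add, map_smul]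
  have e1 : T (U xc) = U (T (U xc)) - (q * ftc) • vu := by
    have e2 := h4 xc
    rw [e0, map_add, map_smul, h5] at e2
    linear_combination (norm := module) e2
  have e3 : U (T (U (U xc))) = (1 - q) • U (T (U xc)) + q • (U xc + ftc • U vt) +
      (fub + l * fuc) • (q • vt) := by
    rw [h3]
    simp only [map_add, map_smul]
    rw [h6, e0]
  have e2 : T (T (U xc)) = U (T (U (U xc))) - (q * ftc) • T vu := by
    have e4 : T (T (U xc)) = T (U (T (U xc))) - (q * ftc) • T vu := by
      conv_lhs => rw [e1]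
      rw [map_sub, map_smul]
    rw [e4, h4]
  have e5 : T (T xc) = xc + ftc • vt + (ftc * l) • vt := by
    rw [h1, map_add, map_smul, h1, h7]
    module
  have e6 : T xb = T (U xc) - (1 - q) • T xc - fuc • T vu := by
    rw [h2, map_sub, map_sub, map_smul, map_smul]
  have e7 : T (T xb) = T (T (U xc)) - (1 - q) • T (T xc) - fuc • T (T vu) := by
    rw [e6, map_sub, map_sub, map_smul, map_smul]
  rw [e7, e6, e2, e3, e5, h8, h1, h2, h10, h11]
  linear_combination (norm := module) (q * ftc) • h9 - (1 - q) • e1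

private theorem Univ_Rn (T U : W →ₗ[F] W) (q κ κ' fu : F) (x xb vt vu : W)
    (h1 : xb = U x - (1 - q) • x - fu • vu)
    (h2 : T (T x) = (1 - q) • T x + q • x + κ • vt) (h3 : T vu = vu)
    (h4 : U vt = vt) (h5 : ∀ x, T (U x) = U (T x)) (h6 : κ' = q * κ) :
    T (T xb) = (1 - q) • T xb + q • xb + κ' • vt := by
  have e1 : U (T (T x)) = (1 - q) • U (T x) + q • U x + κ • vt := by
    rw [h2, map_add, map_add, map_smul, map_smul, map_smul, h4]
  have e6 : T xb = U (T x) - (1 - q) • T x - fu • vu := by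
    rw [h1, map_sub, map_sub, map_smul, map_smul, h5, h3]
  have e7 : T (T xb) = U (T (T x)) - (1 - q) • T (T x) - fu • vu := by
    rw [e6, map_sub, map_sub, map_smul, map_smul, h5, h3]
  rw [e7, e6, e1, h2, h1, h6]
  module

private theorem Univ_Pn (T U : W →ₗ[F] W) (q ft fu : F) (x vt vu : W)
    (h1 : T (U x) = U (T x)) (h3 : T vu = vu) (h4 : U vt = vt) :
    T (U x - (1 - q) • x - fu • vu) - (1 - q) • (U x - (1 - q) • x - fu • vu) - (q * ft) • vt =
    U (T x - (1 - q) • x - ft • vt) - (1 - q) • (T x - (1 - q) • x - ft • vt) - (q * fu) • vu := by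
  simp only [map_sub, map_smul]
  rw [h1, h3, h4]
  module

private theorem Univ_pr (T : W →ₗ[F] W) (q l ft ft' : F) (x xb vt : W)
    (h1 : xb = T x - (1 - q) • x - ft • vt)
    (h2 : T (T x) = (1 - q) • T x + q • x + (ft' + l * ft) • vt) (h3 : T vt = l • vt) :
    T xb = q • x + ft' • vt := by
  rw [h1, map_sub, map_sub, map_smul, map_smul, h2, h3]
  module

end linear

section data

variable {n : ℕ} {M : CoxeterMatrix (Fin n)} {C : Finset (Fin n)}

private theorem Univ_ns (hR : RF M) {b : Fin n → ℤ} {u : Fin n} (h : pr M b u = 1) (t : Fin n) :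
    b ≠ e t := by
  rintro rfl
  by_cases htu : t = u
  · subst htu
    rw [hR.a.pre] at h
    norm_num at h
  · by_cases ha : adj M t u
    · rw [hR.a.pra _ _ ha] at h
      norm_num at h
    · rw [hR.a.prn _ _ htu ha] at h
      norm_num at h

private theorem Univ_ht2 (hR : RF M) {b : Fin n → ℤ} {u : Fin n} (hb : Rt M b)
    (h : pr M b u = 1) : 2 ≤ ht b := by
  have h1 := hR.b.ht1 b hb
  by_contra h2
  obtain ⟨t, ht⟩ := hR.b.ht1e b hb (by omega)
  exact Univ_ns hR h t ht

private theorem Univ_prs (hR : RF M) (b : Fin n → ℤ) (u : Fin n) :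
    pr M (b - e u) u = pr M b u - 2 := by
  rw [hR.a.pr_sub, hR.a.pre]

private theorem Univ_pra (hR : RF M) (b : Fin n → ℤ) {u s : Fin n} (h : adj M s u) :
    pr M (b - e u) s = pr M b s + 1 := by
  rw [hR.a.pr_sub, hR.a.pra _ _ (adj_symm h)]
  ring

private theorem Univ_prn (hR : RF M) (b : Fin n → ℤ) {u s : Fin n} (h : s ≠ u) (h' : ¬ adj M s u) :
    pr M (b - e u) s = pr M b s := by
  rw [hR.a.pr_sub, hR.a.prn _ _ (Ne.symm h) fun h1 => h' (adj_symm h1), sub_zero]

/-- Root supported in `C`. -/
private def Univ_r (M : CoxeterMatrix (Fin n)) (C : Finset (Fin n)) (b : Fin n → ℤ) : Prop :=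
  Rt M b ∧ ∀ i, i ∉ C → b i = 0

private theorem Univ_mem (hR : RF M) {b : Fin n → ℤ} {u : Fin n} (hb : Univ_r M C b)
    (h : pr M b u = 1) : u ∈ C := by
  by_contra h1
  have h2 := hR.a.coord b u hb.1 h
  rw [hb.2 u h1] at h2
  norm_num at h2

private theorem Univ_down (hR : RF M) {b : Fin n → ℤ} {u : Fin n} (hb : Univ_r M C b)
    (h : pr M b u = 1) : Univ_r M C (b - e u) := by
  refine ⟨hR.a.down b u hb.1 h, fun i hi => ?_⟩
  have h1 := Univ_mem hR hb h
  have h2 : i ≠ u := fun h3 => hi (h3 ▸ h1)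
  rw [Pi.sub_apply, hb.2 i hi, e, Pi.single_eq_of_ne h2, sub_zero]

variable {F W : Type} [Field F] [AddCommGroup W] [Module F W]

private structure Univ_D (M : CoxeterMatrix (Fin n)) (C : Finset (Fin n)) (q l : F)
    (G : Fin n → W →ₗ[F] W) (v : Fin n → W) (f : Fin n → (Fin n → ℤ) → F) : Prop where
  inj : ∀ s, Function.Injective (G s)
  br : ∀ s t, adj M s t → ∀ x, G s (G t (G s x)) = G t (G s (G t x))
  cm : ∀ s t, s ≠ t → ¬ adj M s t → ∀ x, G s (G t x) = G t (G s x)
  vs : ∀ s ∈ C, G s (v s) = l • v s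
  vn : ∀ s ∈ C, ∀ t, s ≠ t → ¬ adj M s t → G t (v s) = v s
  va : ∀ s ∈ C, ∀ t ∈ C, adj M s t → G s (G t (v s)) = q • v t
  vb : ∀ s ∈ C, ∀ t ∈ C, adj M s t → G s (G s (v t)) =
    (1 - q) • G s (v t) + q • v t - ((1 - q) * l) • v s
  self : ∀ s, f s (e s) = l
  simple : ∀ s t, s ≠ t → f s (e t) = 0
  one2 : ∀ s t, adj M s t → f t (e s + e t) = -((1 - q) * l)
  one : ∀ u t b, adj M u t → Rt M b → pr M b u = 1 → pr M b t = -1 → f t (b + e t) = q * f u b
  comm : ∀ s u b, s ≠ u → ¬ adj M s u → Rt M b → pr M b u = -1 → f s (b + e u) = q * f s b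
  r0 : ∀ s u b, adj M s u → Rt M b → pr M b s = 0 → pr M b u = -1 →
    f s (b + e u) = f u b - (1 - q) * f s b
  r1 : ∀ s u b, adj M s u → Rt M b → pr M b s = 1 → pr M b u = -1 →
    f s (b + e u) = q * f u (b - e s) - (1 - q) * f s b

variable {q l : F} {G : Fin n → W →ₗ[F] W} {v : Fin n → W} {f : Fin n → (Fin n → ℤ) → F}

private theorem Univ_A (D : Univ_D M C q l G v f) {s t : Fin n} (hs : s ∈ C) (ht : t ∈ C)
    (ha : adj M s t) : G s (v t) - (1 - q) • v t = G t (v s) - (1 - q) • v s := by
  apply D.inj s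
  rw [map_sub, map_sub, map_smul, map_smul, D.vb s hs t ht ha, D.va s hs t ht ha, D.vs s hs]
  module

private theorem Univ_commd (hR : RF M) (D : Univ_D M C q l G v f) {s u : Fin n} {b : Fin n → ℤ}
    (h1 : s ≠ u) (h2 : ¬ adj M s u) (hb : Rt M b) (h3 : pr M b u = 1) :
    f s b = q * f s (b - e u) := by
  have h4 := D.comm s u (b - e u) h1 h2 (hR.a.down b u hb h3) (by
    rw [Univ_prs hR, h3]
    norm_num)
  rwa [sub_add_cancel] at h4

/-- The recursion. -/
private def Univ_R (q : F) (G : Fin n → W →ₗ[F] W) (v : Fin n → W) (f : Fin n → (Fin n → ℤ) → F)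
    (x : (Fin n → ℤ) → W) (b : Fin n → ℤ) (u : Fin n) : W :=
  G u (x (b - e u)) - (1 - q) • x (b - e u) - f u (b - e u) • v u

private structure Univ_N (M : CoxeterMatrix (Fin n)) (C : Finset (Fin n)) (q : F)
    (G : Fin n → W →ₗ[F] W) (v : Fin n → W) (f : Fin n → (Fin n → ℤ) → F) (N : ℕ)
    (x : (Fin n → ℤ) → W) : Prop where
  sim : ∀ s, x (e s) = v s
  P : ∀ b, Univ_r M C b → ht b ≤ N → ∀ u, pr M b u = 1 → x b = Univ_R q G v f x b u

private theorem Univ_ind (hR : RF M) (D : Univ_D M C q l G v f) {N : ℕ} {x : (Fin n → ℤ) → W}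
    (hx : Univ_N M C q G v f N x) {b : Fin n → ℤ} (hb : Univ_r M C b) (hN : ht b ≤ N + 1)
    {u u' : Fin n} (hu : pr M b u = 1) (hu' : pr M b u' = 1) :
    Univ_R q G v f x b u = Univ_R q G v f x b u' := by
  by_cases hne : u = u'
  · rw [hne]
  have hm := Univ_mem hR hb hu
  have hm' := Univ_mem hR hb hu'
  by_cases ha : adj M u u'
  · have h1 := hR.b.pp b u u' hb.1 ha hu hu'
    have h2 : b - e u = e u' := by rw [h1, add_sub_cancel_left]
    have h3 : b - e u' = e u := by rw [h1, add_sub_cancel_right]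
    rw [Univ_R, Univ_R, h2, h3, hx.sim, hx.sim, D.simple u u' hne, D.simple u' u (Ne.symm hne),
      zero_smul, zero_smul, sub_zero, sub_zero]
    exact Univ_A D hm hm' ha
  · have ha' : ¬ adj M u' u := fun h => ha (adj_symm h)
    have hd := Univ_down hR hb hu
    have hd' := Univ_down hR hb hu'
    have hht := hR.b.htd b u hb.1 hu
    have hht' := hR.b.htd b u' hb.1 hu'
    have hpu' : pr M (b - e u) u' = 1 := by rw [Univ_prn hR b (Ne.symm hne) ha', hu']
    have hpu : pr M (b - e u') u = 1 := by rw [Univ_prn hR b hne ha, hu]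
    have hcomm : b - e u' - e u = b - e u - e u' := sub_right_comm _ _ _
    have e1 := hx.P _ hd (by omega) u' hpu'
    have e2 := hx.P _ hd' (by omega) u hpu
    have e3 := Univ_commd hR D hne ha hd.1 hpu'
    have e4 := Univ_commd hR D (Ne.symm hne) ha' hd'.1 hpu
    rw [Univ_R] at e1 e2
    rw [hcomm] at e2 e4
    rw [Univ_R, Univ_R, e1, e2, e3, e4]
    exact Univ_Pn (G u) (G u') q _ _ _ (v u) (v u') (D.cm u u' hne ha _)
      (D.vn u' hm' u (Ne.symm hne) ha') (D.vn u hm u' hne ha)

private theorem Univ_exN (hR : RF M) (D : Univ_D M C q l G v f) (N : ℕ) :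
    ∃ x, Univ_N M C q G v f (N + 1) x := by
  classical
  induction N with
  | zero =>
    refine ⟨fun b => if h : ∃ s, b = e s then v h.choose else 0, fun s => ?_,
      fun b hb hN u hu => ?_⟩
    · have hex : ∃ s', (e s : Fin n → ℤ) = e s' := ⟨s, rfl⟩
      rw [dif_pos hex]
      have key : ∀ s' : Fin n, (e s : Fin n → ℤ) = e s' → s' = s := by
        intro s' h1
        by_contra h3
        have h2 := congrFun h1 s
        unfold e at h2
        rw [Pi.single_eq_same, Pi.single_eq_of_ne (Ne.symm h3)] at h2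
        norm_num at h2
      rw [key _ hex.choose_spec]
    · have := Univ_ht2 hR hb.1 hu
      omega
  | succ N ih =>
    obtain ⟨x, hx⟩ := ih
    let x' : (Fin n → ℤ) → W := fun b => if ht b ≤ N + 1 then x b
      else if h : ∃ u, pr M b u = 1 then Univ_R q G v f x b h.choose else 0
    have h1 : ∀ b, ht b ≤ N + 1 → x' b = x b := fun b h => if_pos h
    refine ⟨x', fun s => ?_, fun b hb hN u hu => ?_⟩
    · rw [h1 _ (by rw [hR.b.hte]; omega), hx.sim]
    · have hht := hR.b.htd b u hb.1 hu
      have h2 : Univ_R q G v f x' b u = Univ_R q G v f x b u := by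
        rw [Univ_R, Univ_R, h1 _ (by omega)]
      rw [h2]
      by_cases h : ht b ≤ N + 1
      · rw [h1 _ h, hx.P b hb h u hu]
      · have hex : ∃ u, pr M b u = 1 := ⟨u, hu⟩
        have h3 : x' b = Univ_R q G v f x b hex.choose := by
          show (if ht b ≤ N + 1 then x b
            else if h : ∃ u, pr M b u = 1 then Univ_R q G v f x b h.choose else 0) = _
          rw [if_neg h, dif_pos hex]
        rw [h3]
        exact Univ_ind hR D hx hb hN hex.choose_spec hu

private theorem Univ_QR (hR : RF M) (D : Univ_D M C q l G v f) {x : (Fin n → ℤ) → W}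
    (hs : ∀ s, x (e s) = v s)
    (hx : ∀ b, Univ_r M C b → ∀ u, pr M b u = 1 → x b = Univ_R q G v f x b u) :
    ∀ (k : ℕ) (b : Fin n → ℤ), Univ_r M C b → ht b ≤ k → ∀ t ∈ C,
      (pr M b t = 0 → G t (x b) = x b + f t b • v t) ∧
      (pr M b t = -1 → G t (G t (x b)) = (1 - q) • G t (x b) + q • x b +
        (f t (b + e t) + l * f t b) • v t) := by
  intro k
  induction k with
  | zero =>
    intro b hb hk
    have := hR.b.ht1 b hb.1
    omega
  | succ k ih =>
    intro b hb hk t htC
    by_cases hsim : ∀ s, b ≠ e s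
    · obtain ⟨u, hu⟩ := hR.a.desc b hb.1 hsim
      have hc := Univ_down hR hb hu
      have hht := hR.b.htd b u hb.1 hu
      have huC := Univ_mem hR hb hu
      have hxb := hx b hb u hu
      have hcu : pr M (b - e u) u = -1 := by rw [Univ_prs hR, hu]; norm_num
      rw [Univ_R] at hxb
      constructor
      · intro h0
        have hne : t ≠ u := by
          rintro rfl
          rw [h0] at hu
          norm_num at hu
        by_cases ha : adj M t u
        · -- adjacent
          have hct : pr M (b - e u) t = 1 := by rw [Univ_pra hR b ha, h0]; norm_num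
          have hd := Univ_down hR hc hct
          have hhd := hR.b.htd _ t hc.1 hct
          have hdt : pr M (b - e u - e t) t = -1 := by rw [Univ_prs hR, hct]; norm_num
          have hdu : pr M (b - e u - e t) u = 0 := by
            rw [Univ_pra hR _ (adj_symm ha), hcu]
            norm_num
          have hxc := hx _ hc t hct
          rw [Univ_R] at hxc
          have e1 := (ih _ hd (by omega) u huC).1 hdu
          have e2 := (ih _ hd (by omega) t htC).2 hdt
          rw [sub_add_cancel] at e2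
          have e3 := Univ_pr (G t) q l _ _ _ _ (v t) hxc e2 (D.vs t htC)
          have e4 := D.r0 u t _ (adj_symm ha) hd.1 hdu hdt
          rw [sub_add_cancel] at e4
          have e5 := D.r1 t u _ ha hc.1 hct hcu
          rw [sub_add_cancel] at e5
          exact Univ_Qa (G t) (G u) q _ _ _ _ _ _ _ _ _ _ hxc hxb e1 e3 (D.br t u ha _)
            (D.va t htC u huC ha) (D.va u huC t htC (adj_symm ha))
            (Univ_A D huC htC (adj_symm ha)) e4 e5
        · have hct : pr M (b - e u) t = 0 := by rw [Univ_prn hR b hne ha, h0]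
          exact Univ_Qn (G t) (G u) q _ _ _ _ _ (v t) (v u) hxb
            ((ih _ hc (by omega) t htC).1 hct)
            (D.vn u huC t (Ne.symm hne) fun h => ha (adj_symm h)) (D.vn t htC u hne ha)
            (D.cm t u hne ha _) (Univ_commd hR D hne ha hb.1 hu)
      · intro h0
        have hne : t ≠ u := by
          rintro rfl
          rw [h0] at hu
          norm_num at hu
        by_cases ha : adj M t u
        · have hct : pr M (b - e u) t = 0 := by rw [Univ_pra hR b ha, h0]; norm_num
          have e1 := (ih _ hc (by omega) t htC).1 hct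
          have e2 := (ih _ hc (by omega) u huC).2 hcu
          rw [sub_add_cancel] at e2
          have e3 := D.one u t b (adj_symm ha) hb.1 hu h0
          have e4 := D.r0 t u _ ha hc.1 hct hcu
          rw [sub_add_cancel] at e4
          exact Univ_Ra (G t) (G u) q l _ _ _ _ _ _ _ (v t) (v u) e1 hxb e2 (D.br t u ha)
            (D.va t htC u huC ha) (D.va u huC t htC (adj_symm ha)) (D.vs t htC)
            (D.vb t htC u huC ha) (Univ_A D huC htC (adj_symm ha)) e3 e4
        · have hct : pr M (b - e u) t = -1 := by rw [Univ_prn hR b hne ha, h0]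
          have hup := hR.a.up b t hb.1 h0
          have hut : pr M (b + e t) u = 1 := by
            rw [hR.a.pr_add, hu, hR.a.prn t u hne ha]
            norm_num
          have e1 := Univ_commd hR D hne ha hb.1 hu
          have e2 := Univ_commd hR D hne ha hup hut
          have e3 : b + e t - e u = b - e u + e t := by abel
          rw [e3] at e2
          refine Univ_Rn (G t) (G u) q _ _ _ _ _ (v t) (v u) hxb
            ((ih _ hc (by omega) t htC).2 hct)
            (D.vn u huC t (Ne.symm hne) fun h => ha (adj_symm h)) (D.vn t htC u hne ha)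
            (D.cm t u hne ha) ?_
          rw [e1, e2]
          ring
    · push Not at hsim
      obtain ⟨s, rfl⟩ := hsim
      have hsC : s ∈ C := by
        by_contra h
        have h1 := hb.2 s h
        rw [e, Pi.single_eq_same] at h1
        norm_num at h1
      rw [hs]
      by_cases hst : s = t
      · subst hst
        rw [hR.a.pre]
        exact ⟨fun h => by norm_num at h, fun h => by norm_num at h⟩
      · by_cases ha : adj M s t
        · rw [hR.a.pra _ _ ha, D.vb t htC s hsC (adj_symm ha), D.one2 s t ha,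
            D.simple t s (Ne.symm hst)]
          refine ⟨fun h => by norm_num at h, fun _ => ?_⟩
          module
        · rw [hR.a.prn _ _ hst ha, D.simple t s (Ne.symm hst), D.vn s hsC t hst ha]
          refine ⟨fun _ => ?_, fun h => by norm_num at h⟩
          module

private theorem Univ_S (hR : RF M) (hC : Sat M C) (D : Univ_D M C q l G v f)
    {x : (Fin n → ℤ) → W} (hs : ∀ s, x (e s) = v s)
    (hx : ∀ b, Univ_r M C b → ∀ u, pr M b u = 1 → x b = Univ_R q G v f x b u) :
    ∀ (k : ℕ) (b : Fin n → ℤ), Univ_r M C b → ht b ≤ k → ∀ t, t ∉ C → G t (x b) = x b := by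
  intro k
  induction k with
  | zero =>
    intro b hb hk
    have := hR.b.ht1 b hb.1
    omega
  | succ k ih =>
    intro b hb hk t htC
    have key : ∀ u, u ∈ C → u ≠ t ∧ ¬ adj M u t := fun u hu =>
      ⟨fun h => htC (h ▸ hu), fun h => htC (hC u hu t h)⟩
    by_cases hsim : ∀ s, b ≠ e s
    · obtain ⟨u, hu⟩ := hR.a.desc b hb.1 hsim
      have hc := Univ_down hR hb hu
      have hht := hR.b.htd b u hb.1 hu
      have huC := Univ_mem hR hb hu
      obtain ⟨h1, h2⟩ := key u huC
      have h3 := ih _ hc (by omega) t htC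
      rw [hx b hb u hu, Univ_R, map_sub, map_sub, map_smul, map_smul, D.vn u huC t h1 h2, h3,
        ← D.cm u t h1 h2, h3]
    · push Not at hsim
      obtain ⟨s, rfl⟩ := hsim
      have hsC : s ∈ C := by
        by_contra h
        have h1 := hb.2 s h
        rw [e, Pi.single_eq_same] at h1
        norm_num at h1
      obtain ⟨h1, h2⟩ := key s hsC
      rw [hs, D.vn s hsC t h1 h2]

end data

/-- **The universal property of the Lawrence-Krammer module.** -/
theorem pUniv (h1 : SLkA) : SUniv := by
  intro n M hM hR hF C hC F W _ _ _ q l g v hq hl hvs hvn hva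
  obtain ⟨hr, hrup, hrdn, hre, hrest⟩ := h1 n M hR C
  obtain ⟨hmul, hxz, hsum, hid⟩ := hrest F q l
  let G : Fin n → W →ₗ[F] W := fun s => (g (gn M s)).toLinearMap
  have hG : ∀ s x, G s x = g (gn M s) x := fun s x => rfl
  let f : Fin n → (Fin n → ℤ) → F := fun s b => l * aeval q (fh M s b)
  have hf : ∀ s b, f s b = l * aeval q (fh M s b) := fun s b => rfl
  have D : Univ_D M C q l G v f := by
    refine ⟨fun s => (g (gn M s)).injective, ?_, ?_, hvs, hvn, fun s hs t ht ha =>
      (hva s hs t ht ha).1, fun s hs t ht ha => (hva s hs t ht ha).2, ?_, ?_, ?_, ?_, ?_, ?_, ?_⟩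
    · intro s t ha x
      have h2 := congrArg (fun z => g z x) (art_braid ha)
      simp only [map_mul] at h2
      exact h2
    · intro s t hst ha x
      have h2 := congrArg (fun z => g z x) (art_comm hM.sl hst ha)
      simp only [map_mul] at h2
      exact h2
    · intro s
      rw [hf, hF.self, map_one, mul_one]
    · intro s t hst
      rw [hf, hF.simple s t hst, map_zero, mul_zero]
    · intro s t ha
      have hRt : Rt M (e s + e t) := hR.a.up (e s) t (hR.a.simple s) (hR.a.pra s t ha)
      have hpr : pr M (e s + e t) t = 1 := by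
        rw [hR.a.pr_add, hR.a.pra s t ha, hR.a.pre]
        norm_num
      rw [hf, hF.one t _ hRt hpr, hR.b.htu (e s) t (hR.a.simple s), hR.b.hte]
      simp
      ring
    · intro u t b ha hb hu ht0
      have hRt := hR.a.up b t hb ht0
      have hpr : pr M (b + e t) t = 1 := by
        rw [hR.a.pr_add, ht0, hR.a.pre]
        norm_num
      have h2 := Univ_ht2 hR hb hu
      have h3 : ht b + 1 - 2 = (ht b - 2) + 1 := by omega
      rw [hf, hf, hF.one t _ hRt hpr, hF.one u _ hb hu, hR.b.htu b t hb, h3]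
      simp only [map_mul, map_neg, map_sub, map_one, aeval_X, map_pow, pow_succ]
      ring
    · intro s u b h2 h3 h4 h5
      rw [hf, hf, hF.comm s u b h2 h3 h4 h5]
      simp only [map_mul, aeval_X]
      ring
    · intro s u b h2 h3 h4 h5
      rw [hf, hf, hf, hF.r0 s u b h2 h3 h4 h5]
      simp only [map_mul, map_sub, map_one, aeval_X]
      ring
    · intro s u b h2 h3 h4 h5
      rw [hf, hf, hf, hF.r1 s u b h2 h3 h4 h5]
      simp only [map_mul, map_sub, map_one, aeval_X]
      ring
  -- the vectors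
  obtain ⟨x, hsim, hP⟩ : ∃ x : (Fin n → ℤ) → W, (∀ s, x (e s) = v s) ∧
      ∀ b, Univ_r M C b → ∀ u, pr M b u = 1 → x b = Univ_R q G v f x b u := by
    obtain ⟨N, hN⟩ : ∃ N, ∀ b, Rt M b → ht b ≤ N + 1 := by
      have h1 := (hR.b.fin Finset.univ).image ht
      obtain ⟨N, hN⟩ := h1.bddAbove
      refine ⟨N, fun b hb => ?_⟩
      have h2 : ht b ≤ N := hN ⟨b, ⟨hb, fun i hi => absurd (Finset.mem_univ i) hi⟩, rfl⟩
      omega
    obtain ⟨x, hx⟩ := Univ_exN hR D N
    exact ⟨x, hx.sim, fun b hb u hu => hx.P b hb (hN b hb.1) u hu⟩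
  have hQR := Univ_QR hR D hsim hP
  have hS := Univ_S hR hC D hsim hP
  -- the map
  let Θ : (PR M C → F) →ₗ[F] W := Fintype.linearCombination F (fun b : PR M C => x b.1)
  have hΘ : ∀ b ∈ roots M C, Θ (xv M C b) = x b := by
    intro b hb
    show Fintype.linearCombination F (fun b : PR M C => x b.1) (xv M C b) = x b
    rw [Fintype.linearCombination_apply, Finset.sum_eq_single ⟨b, hb⟩]
    · show (if b = b then (1 : F) else 0) • x b = x b
      rw [if_pos rfl, one_smul]
    · intro c _ hc
      have h2 : c.1 ≠ b := fun h => hc (Subtype.ext h)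
      show (if c.1 = b then (1 : F) else 0) • x c.1 = 0
      rw [if_neg h2, zero_smul]
    · intro h
      exact absurd (Finset.mem_univ _) h
  have hkey : ∀ s, ∀ b ∈ roots M C, Θ ((lk M C q l s).mulVec (xv M C b)) = G s (x b) := by
    intro s b hb
    have hb' : Univ_r M C b := (hr b).1 hb
    by_cases hsC : s ∈ C
    · rw [hmul s b hb, img]
      have hes := (hre s).2 hsC
      by_cases hbs : b = e s
      · rw [if_pos hbs, map_smul, hΘ _ hes, hbs, hsim]
        exact (hvs s hsC).symm
      · rw [if_neg hbs]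
        rcases hR.a.bnd b s hb'.1 hbs with h0 | h0 | h0
        · have hup := hrup b hb s h0 hsC
          rw [if_pos h0, map_add, map_add, map_smul, map_smul, hΘ _ hes, hΘ _ hb, hΘ _ hup, hsim,
            hP _ ((hr _).1 hup) s (by rw [hR.a.pr_add, h0, hR.a.pre]; norm_num), Univ_R,
            add_sub_cancel_right, hf]
          module
        · rw [if_neg (by rw [h0]; norm_num), if_neg (by rw [h0]; norm_num), map_add, map_smul,
            hΘ _ hes, hΘ _ hb, hsim, (hQR _ b hb' le_rfl s hsC).1 h0]
        · have hdn := hrdn b hb s h0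
          have e1 : pr M (b - e s) s = -1 := by rw [Univ_prs hR, h0]; norm_num
          have e2 := (hQR _ _ ((hr _).1 hdn) le_rfl s hsC).2 e1
          rw [sub_add_cancel] at e2
          have e3 := hP b hb' s h0
          rw [Univ_R] at e3
          rw [if_neg (by rw [h0]; norm_num), if_pos h0, map_add, map_smul, map_smul,
            hΘ _ hes, hΘ _ hdn, hsim,
            Univ_pr (G s) q l _ _ _ _ (v s) e3 e2 (hvs s hsC)]
    · rw [hid hC s hsC, Matrix.one_mulVec, hΘ b hb, hS _ b hb' le_rfl s hsC]
  refine ⟨Θ, fun s hs => by rw [hΘ _ ((hre s).2 hs), hsim], fun s y => ?_⟩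
  have h2 : Θ ∘ₗ (lk M C q l s).mulVecLin = G s ∘ₗ Θ := by
    apply LinearMap.ext
    intro y
    rw [hsum y]
    simp only [map_sum, map_smul]
    refine Finset.sum_congr rfl fun b _ => ?_
    congr 1
    show Θ ((lk M C q l s).mulVec (xv M C b.1)) = G s (Θ (xv M C b.1))
    rw [hkey s b.1 b.2, hΘ b.1 b.2]
  exact LinearMap.congr_fun h2 y

end Pool.Agent.Lib.MP_97567f_al
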