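import Pool.Agent.Lib.MP_97567f_al.SpecD

/-!
# MP_97567f_al: eigenvectors lift from the residue field to the valuation ring
-/

set_option autoImplicit false

namespace Pool.Agent.Lib.MP_97567f_al

open Polynomial

private theorem VEig_max {F : Type} [Field F] (O : ValuationSubring F) {m : Type} [Fintype m]
    (c : m → F) (k1 : m) (h1 : c k1 ≠ 0) : ∃ k0, c k0 ≠ 0 ∧ ∀ k, c k / c k0 ∈ O := by
  obtain ⟨k0, _, h0⟩ := Finset.exists_max_image (Finset.univ : Finset m)
    (fun k => O.valuation (c k)) ⟨k1, Finset.mem_univ _⟩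
  have h2 : c k0 ≠ 0 := by
    intro h3
    have h4 := h0 k1 (Finset.mem_univ _)
    rw [h3, map_zero, le_zero_iff, map_eq_zero] at h4
    exact h1 h4
  refine ⟨k0, h2, fun k => ?_⟩
  rw [← O.valuation_le_one_iff, map_div₀]
  exact div_le_one_of_le₀ (h0 k (Finset.mem_univ _)) zero_le

/-- A root over the residue field lifts to a root in the valuation ring. -/
private theorem VEig_root {F : Type} [Field F] [IsAlgClosed F] (O : ValuationSubring F)
    (p : O[X]) (hp : p.Monic) (lam : IsLocalRing.ResidueField O)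
    (h : (p.map (IsLocalRing.residue O)).eval lam = 0) :
    ∃ l' : O, IsLocalRing.residue O l' = lam ∧ p.eval l' = 0 := by
  have h1 : ∀ r ∈ (p.map (algebraMap O F)).roots, ∃ y : O, (y : F) = r := by
    intro r hr
    rw [mem_roots (hp.map _).ne_zero, IsRoot.def, eval_map] at hr
    have h2 : IsIntegral O r := ⟨p, hp, hr⟩
    obtain ⟨y, hy⟩ := IsIntegrallyClosed.isIntegral_iff.1 h2
    exact ⟨y, hy⟩
  obtain ⟨s, hs⟩ : ∃ s : Multiset O, s.map (fun y : O => (y : F)) =
      (p.map (algebraMap O F)).roots := by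
    generalize (p.map (algebraMap O F)).roots = R at h1
    induction R using Multiset.induction_on with
    | empty => exact ⟨0, rfl⟩
    | cons a R ih =>
      obtain ⟨s, hs⟩ := ih fun r hr => h1 r (Multiset.mem_cons_of_mem hr)
      obtain ⟨y, hy⟩ := h1 a (Multiset.mem_cons_self _ _)
      exact ⟨y ::ₘ s, by rw [Multiset.map_cons, hs, hy]⟩
  have h3 : p.map (algebraMap O F) = ((s.map fun y => X - C y).prod).map (algebraMap O F) := by
    rw [(IsAlgClosed.splits (p.map (algebraMap O F))).eq_prod_roots_of_monic (hp.map _), ← hs,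
      Polynomial.map_multiset_prod, Multiset.map_map, Multiset.map_map]
    congr 1
    refine Multiset.map_congr rfl fun y _ => ?_
    simp
  have h4 : p = (s.map fun y => X - C y).prod :=
    Polynomial.map_injective _ (FaithfulSMul.algebraMap_injective O F) h3
  rw [h4, Polynomial.map_multiset_prod, Multiset.map_map, eval_multiset_prod,
    Multiset.map_map, Multiset.prod_eq_zero_iff, Multiset.mem_map] at h
  obtain ⟨y, hy, h5⟩ := h
  refine ⟨y, ?_, ?_⟩
  · simp only [Function.comp_apply, Polynomial.map_sub, map_X, map_C, eval_sub, eval_X,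
      eval_C] at h5
    exact (sub_eq_zero.1 h5).symm
  · rw [h4, eval_multiset_prod, Multiset.map_map, Multiset.prod_eq_zero_iff, Multiset.mem_map]
    exact ⟨y, hy, by simp⟩

private theorem VEig_det {K ι : Type} [Field K] [Fintype ι] [DecidableEq ι]
    (G : Matrix ι ι K) (μ : K) (w : ι → K) (hw : w ≠ 0) (h : G.mulVec w = μ • w) :
    G.charpoly.eval μ = 0 := by
  rw [Matrix.eval_charpoly]
  refine Matrix.exists_mulVec_eq_zero_iff.1 ⟨w, hw, ?_⟩
  rw [Matrix.sub_mulVec, h]
  simp [Matrix.scalar_apply, ← Matrix.smul_one_eq_diagonal, Matrix.smul_mulVec]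

private theorem VEig_vec {K ι : Type} [Field K] [Fintype ι] [DecidableEq ι]
    (G : Matrix ι ι K) (μ : K) (h : G.charpoly.eval μ = 0) :
    ∃ w : ι → K, w ≠ 0 ∧ G.mulVec w = μ • w := by
  rw [Matrix.eval_charpoly] at h
  obtain ⟨w, hw, h1⟩ := Matrix.exists_mulVec_eq_zero_iff.2 h
  refine ⟨w, hw, ?_⟩
  rw [Matrix.sub_mulVec, sub_eq_zero] at h1
  rw [← h1]
  simp [Matrix.scalar_apply, ← Matrix.smul_one_eq_diagonal, Matrix.smul_mulVec]

theorem pVEig (h1 : SVKer) : SVEig := by
  intro F _ _ O ι _ _ G lam w hw hG huniq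
  obtain ⟨l', hl', hroot⟩ := VEig_root O G.charpoly (Matrix.charpoly_monic G) lam (by
    rw [← Matrix.charpoly_map]
    exact VEig_det _ _ w hw hG)
  have hF : (G.map (algebraMap O F)).charpoly.eval ((l' : O) : F) = 0 := by
    rw [Matrix.charpoly_map, Polynomial.eval_map]
    exact (Polynomial.eval₂_at_apply (algebraMap O F) l').trans (by rw [hroot, map_zero])
  obtain ⟨x, hx, hGx⟩ := VEig_vec _ _ hF
  obtain ⟨i1, hi1⟩ : ∃ i, x i ≠ 0 := by
    by_contra hne
    push Not at hne
    exact hx (funext hne)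
  obtain ⟨i0, hi0, hd⟩ := VEig_max O x i1 hi1
  let u : ι → O := fun i => ⟨x i / x i0, hd i⟩
  have hu0 : u i0 = 1 := Subtype.ext (div_self hi0)
  have hGu : G.mulVec u = l' • u := by
    funext i
    apply Subtype.ext
    have h3 := congrFun hGx i
    simp only [Matrix.mulVec, dotProduct, Matrix.map_apply, Pi.smul_apply, smul_eq_mul] at h3 ⊢
    rw [AddSubmonoidClass.coe_finsetSum]
    have h4 : ∑ k, (G i k : F) * (x k / x i0) = (∑ k, (G i k : F) * x k) / x i0 := by
      rw [Finset.sum_div]
      exact Finset.sum_congr rfl fun k _ => by ring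
    refine Eq.trans ?_ (h4.trans ?_)
    · rfl
    · have h5 : ∑ k, (G i k : F) * x k = (l' : F) * x i := h3
      rw [h5]
      change (l' : F) * x i / x i0 = (l' : F) * (x i / x i0)
      ring
  have hred : (G.map (IsLocalRing.residue O)).mulVec (fun i => IsLocalRing.residue O (u i)) =
      lam • fun i => IsLocalRing.residue O (u i) := by
    funext i
    have h3 := congrArg (IsLocalRing.residue O) (congrFun hGu i)
    simp only [Matrix.mulVec, dotProduct, Pi.smul_apply, smul_eq_mul, map_sum, map_mul] at h3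
    simp only [Matrix.mulVec, dotProduct, Matrix.map_apply, Pi.smul_apply, smul_eq_mul]
    rw [h3, hl']
  obtain ⟨c, hc⟩ := huniq _ hred
  have hc1 : 1 = c * w i0 := by
    have h3 := congrFun hc i0
    simp only [hu0, map_one, Pi.smul_apply, smul_eq_mul] at h3
    exact h3
  have hc0 : c ≠ 0 := by
    rintro rfl
    rw [zero_mul] at hc1
    exact one_ne_zero hc1
  obtain ⟨c', hc'⟩ := IsLocalRing.residue_surjective c
  have hcu : IsUnit c' := by
    by_contra hne
    apply hc0
    rw [← hc', IsLocalRing.residue_eq_zero_iff]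
    exact hne
  obtain ⟨d, rfl⟩ := hcu
  let v : ι → O := fun i => (d⁻¹ : Oˣ) * u i
  have hv : ∀ i, IsLocalRing.residue O (v i) = w i := by
    intro i
    have h3 := congrFun hc i
    simp only [Pi.smul_apply, smul_eq_mul] at h3
    change IsLocalRing.residue O ((d⁻¹ : Oˣ) * u i) = w i
    rw [map_mul, h3, ← mul_assoc, ← hc', ← map_mul, Units.inv_mul, map_one, one_mul]
  have hGv : G.mulVec v = l' • v := by
    have h3 : v = ((d⁻¹ : Oˣ) : O) • u := rfl
    rw [h3, Matrix.mulVec_smul, hGu, smul_comm]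
  refine ⟨l', v, hl', hv, hGv, fun y hy => ?_⟩
  have hker := h1 F O ι (G - l' • (1 : Matrix ι ι O))
  have hk2 : Module.finrank (IsLocalRing.ResidueField O) (LinearMap.ker
      ((G - l' • (1 : Matrix ι ι O)).map (IsLocalRing.residue O)).mulVecLin) ≤ 1 := by
    have hmem : ∀ z : ι → IsLocalRing.ResidueField O,
        z ∈ LinearMap.ker ((G - l' • (1 : Matrix ι ι O)).map (IsLocalRing.residue O)).mulVecLin ↔
          (G.map (IsLocalRing.residue O)).mulVec z = lam • z := by
      intro z
      rw [LinearMap.mem_ker, Matrix.mulVecLin_apply]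
      have h3 : (G - l' • (1 : Matrix ι ι O)).map (IsLocalRing.residue O) =
          G.map (IsLocalRing.residue O) - lam • (1 : Matrix ι ι (IsLocalRing.ResidueField O)) := by
        ext i j
        simp only [Matrix.map_apply, Matrix.sub_apply, Matrix.smul_apply, smul_eq_mul, map_sub,
          map_mul, hl']
        congr 2
        rw [Matrix.one_apply, Matrix.one_apply]
        split_ifs <;> simp
      rw [h3, Matrix.sub_mulVec, sub_eq_zero, Matrix.smul_mulVec, Matrix.one_mulVec]
    refine finrank_le_one ⟨w, (hmem w).2 hG⟩ ?_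
    rintro ⟨z, hz⟩
    obtain ⟨a, ha⟩ := huniq z ((hmem z).1 hz)
    exact ⟨a, Subtype.ext ha.symm⟩
  have hk1 := hker.trans hk2
  have hmem : ∀ z : ι → F,
      (G.map (algebraMap O F)).mulVec z = (l' : F) • z →
      z ∈ LinearMap.ker ((G - l' • (1 : Matrix ι ι O)).map (algebraMap O F)).mulVecLin := by
    intro z hz
    rw [LinearMap.mem_ker, Matrix.mulVecLin_apply]
    have h3 : (G - l' • (1 : Matrix ι ι O)).map (algebraMap O F) =
        G.map (algebraMap O F) - (l' : F) • (1 : Matrix ι ι F) := by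
      ext i j
      simp only [Matrix.map_apply, Matrix.sub_apply, Matrix.smul_apply, smul_eq_mul, map_sub,
        map_mul]
      congr 2
      rw [Matrix.one_apply, Matrix.one_apply]
      split_ifs <;> simp
    rw [h3, Matrix.sub_mulVec, sub_eq_zero, Matrix.smul_mulVec, Matrix.one_mulVec]
    exact hz
  obtain ⟨⟨g, hg⟩, hgen⟩ := finrank_le_one_iff.1 hk1
  have hvF : (G.map (algebraMap O F)).mulVec (fun i => (v i : F)) =
      (l' : F) • fun i => (v i : F) := by
    funext i
    have h3 := congrArg (algebraMap O F) (congrFun hGv i)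
    simp only [Matrix.mulVec, dotProduct, Pi.smul_apply, smul_eq_mul, map_sum, map_mul] at h3
    simp only [Matrix.mulVec, dotProduct, Matrix.map_apply, Pi.smul_apply, smul_eq_mul]
    exact h3
  obtain ⟨a, ha⟩ := hgen ⟨_, hmem _ hvF⟩
  obtain ⟨b, hb⟩ := hgen ⟨_, hmem _ hy⟩
  have ha' : ∀ i, a * g i = (v i : F) := fun i => congrFun (congrArg Subtype.val ha) i
  have hb' : ∀ i, b * g i = y i := fun i => congrFun (congrArg Subtype.val hb) i
  have ha0 : a ≠ 0 := by
    rintro rfl
    have h3 := ha' i0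
    rw [zero_mul] at h3
    have h4 : v i0 = 0 := Subtype.ext h3.symm
    have h5 := hv i0
    rw [h4, map_zero] at h5
    rw [← h5, mul_zero] at hc1
    exact one_ne_zero hc1
  refine ⟨b / a, funext fun i => ?_⟩
  rw [← hb' i, ← ha' i]
  field_simp

end Pool.Agent.Lib.MP_97567f_al
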