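import Pool.Agent.Lib.MP_97567f_al.SpecD

/-!
# MP_97567f_al: the kernel of a matrix over a valuation ring does not grow
-/

set_option autoImplicit false

namespace Pool.Agent.Lib.MP_97567f_al

private theorem VKer_null {K ι : Type} [Field K] [Fintype ι] [DecidableEq ι]
    (G : Matrix ι ι K) : Module.finrank K (LinearMap.ker G.mulVecLin) =
      Fintype.card ι - G.rank := by
  have h := LinearMap.finrank_range_add_finrank_ker G.mulVecLin
  rw [Module.finrank_fintype_fun_eq_card] at h
  unfold Matrix.rank
  omega

theorem pVKer (h1 : SVLI) : SVKer := by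
  intro F _ O ι _ _ G
  rw [VKer_null, VKer_null]
  refine Nat.sub_le_sub_left ?_ _
  rw [Matrix.rank_eq_finrank_span_cols, Matrix.rank_eq_finrank_span_cols]
  obtain ⟨f, hf, -, hli⟩ := Submodule.exists_fun_fin_finrank_span_eq (IsLocalRing.ResidueField O)
    (Set.range (G.map (IsLocalRing.residue O)).col)
  choose c hc using hf
  have h2 := (h1 F O ι (Fin (Module.finrank (IsLocalRing.ResidueField O)
    (Submodule.span (IsLocalRing.ResidueField O)
      (Set.range (G.map (IsLocalRing.residue O)).col)))) (fun k i => G i (c k)) (by
        have h3 : (fun k i => IsLocalRing.residue O (G i (c k))) = f := by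
          funext k
          exact hc k
        rw [h3]
        exact hli)).1
  have h4 := finrank_span_eq_card h2
  rw [Fintype.card_fin] at h4
  rw [← h4]
  refine Submodule.finrank_mono (Submodule.span_mono ?_)
  rintro _ ⟨k, rfl⟩
  exact ⟨c k, rfl⟩

end Pool.Agent.Lib.MP_97567f_al
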