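import Pool.Agent.Lib.MP_97567f_al.SpecD

/-!
# MP_97567f_al: independence lifts from the residue field to the valuation ring
-/

set_option autoImplicit false

namespace Pool.Agent.Lib.MP_97567f_al

private theorem VLI_key {F : Type} [Field F] {O : ValuationSubring F} {ι m : Type} [Fintype m]
    {v : m → ι → O}
    (hv : LinearIndependent (IsLocalRing.ResidueField O)
      (fun k i => IsLocalRing.residue O (v k i)))
    (d : m → O) (r : ι → O) (hr : ∀ i, IsLocalRing.residue O (r i) = 0)
    (h : ∀ i, ∑ k, d k * v k i = r i) (k : m) : IsLocalRing.residue O (d k) = 0 := by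
  refine Fintype.linearIndependent_iff.1 hv (fun k => IsLocalRing.residue O (d k)) ?_ k
  funext i
  rw [Finset.sum_apply]
  simp only [Pi.smul_apply, smul_eq_mul, Pi.zero_apply]
  rw [← hr i, ← h i, map_sum]
  refine Finset.sum_congr rfl fun k _ => ?_
  rw [map_mul]

private theorem VLI_max {F : Type} [Field F] (O : ValuationSubring F) {m : Type} [Fintype m]
    (c : m → F) (k1 : m) (h1 : c k1 ≠ 0) : ∃ k0, c k0 ≠ 0 ∧ ∀ k, c k / c k0 ∈ O := by
  obtain ⟨k0, _, h0⟩ := Finset.exists_max_image (Finset.univ : Finset m)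
    (fun k => O.valuation (c k)) ⟨k1, Finset.mem_univ _⟩
  have h2 : c k0 ≠ 0 := by
    intro h3
    have h4 := h0 k1 (Finset.mem_univ _)
    rw [h3, map_zero, le_zero_iff, map_eq_zero] at h4
    exact h1 h4
  refine ⟨k0, h2, fun k => ?_⟩
  rw [← O.valuation_le_one_iff, map_div₀]
  exact div_le_one_of_le₀ (h0 k (Finset.mem_univ _)) zero_le

theorem pVLI : SVLI := by
  intro F _ O ι m _ _ v hv
  refine ⟨?_, fun w c hw => ?_⟩
  · rw [Fintype.linearIndependent_iff]
    intro g hg
    by_contra hne
    push Not at hne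
    obtain ⟨k1, hk1⟩ := hne
    obtain ⟨k0, h0, hd⟩ := VLI_max O g k1 hk1
    have h1 := VLI_key hv (fun k => ⟨g k / g k0, hd k⟩) (fun _ => 0) (fun _ => map_zero _)
      (fun i => ?_) k0
    · have h2 : (⟨g k0 / g k0, hd k0⟩ : O) = 1 := Subtype.ext (div_self h0)
      simp only [h2, map_one] at h1
      exact one_ne_zero h1
    · apply Subtype.ext
      rw [AddSubmonoidClass.coe_finsetSum]
      have h3 := congrFun hg i
      rw [Finset.sum_apply] at h3
      simp only [Pi.smul_apply, smul_eq_mul, Pi.zero_apply] at h3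
      have h4 : ∑ k, g k / g k0 * (v k i : F) = (∑ k, g k * (v k i : F)) / g k0 := by
        rw [Finset.sum_div]
        exact Finset.sum_congr rfl fun k _ => by ring
      refine Eq.trans ?_ (h4.trans ?_)
      · rfl
      · rw [h3, zero_div]
        rfl
  · by_contra hne
    push Not at hne
    obtain ⟨k1, hk1⟩ := hne
    have hk1' : c k1 ≠ 0 := fun h => hk1 (h ▸ O.zero_mem)
    obtain ⟨k0, h0, hd⟩ := VLI_max O c k1 hk1'
    have hc0 : c k0 ∉ O := by
      intro h
      apply hk1
      have := O.mul_mem _ _ (hd k1) h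
      rwa [div_mul_cancel₀ _ h0] at this
    have hinv : (c k0)⁻¹ ∈ O := (O.mem_or_inv_mem (c k0)).resolve_left hc0
    have hmax : IsLocalRing.residue O (⟨(c k0)⁻¹, hinv⟩ : O) = 0 := by
      rw [IsLocalRing.residue_eq_zero_iff, IsLocalRing.mem_maximalIdeal, mem_nonunits_iff]
      intro hu
      obtain ⟨u, hu⟩ := hu
      apply hc0
      have h5 : ((u : O) : F) * (((u⁻¹ : Oˣ) : O) : F) = 1 := by
        exact congrArg (fun z : O => (z : F)) (Units.mul_inv u)
      rw [hu] at h5
      have h6 : c k0 = (((u⁻¹ : Oˣ) : O) : F) := by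
        have h7 : (c k0)⁻¹ * (((u⁻¹ : Oˣ) : O) : F) = 1 := h5
        field_simp at h7
        exact h7.symm
      rw [h6]
      exact Subtype.mem _
    have h1 := VLI_key hv (fun k => ⟨c k / c k0, hd k⟩) (fun i => ⟨(c k0)⁻¹, hinv⟩ * w i)
      (fun i => by rw [map_mul, hmax, zero_mul]) (fun i => ?_) k0
    · have h2 : (⟨c k0 / c k0, hd k0⟩ : O) = 1 := Subtype.ext (div_self h0)
      simp only [h2, map_one] at h1
      exact one_ne_zero h1
    · apply Subtype.ext
      rw [AddSubmonoidClass.coe_finsetSum]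
      have h4 : ∑ k, c k / c k0 * (v k i : F) = (∑ k, c k * (v k i : F)) / c k0 := by
        rw [Finset.sum_div]
        exact Finset.sum_congr rfl fun k _ => by ring
      refine Eq.trans ?_ (h4.trans ?_)
      · rfl
      · rw [← hw i]
        change (w i : F) / c k0 = (c k0)⁻¹ * (w i : F)
        ring

end Pool.Agent.Lib.MP_97567f_al
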