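import Pool.Agent.Lib.MP_97567f_al.RF1
import Pool.Agent.Lib.MP_97567f_al.RF2
import Pool.Agent.Lib.MP_97567f_al.RF3
import Pool.Agent.Lib.MP_97567f_al.Pos
import Pool.Agent.Lib.MP_97567f_al.FHex
import Pool.Agent.Lib.MP_97567f_al.LkA
import Pool.Agent.Lib.MP_97567f_al.LkC
import Pool.Agent.Lib.MP_97567f_al.LkB
import Pool.Agent.Lib.MP_97567f_al.LkQ
import Pool.Agent.Lib.MP_97567f_al.LKr
import Pool.Agent.Lib.MP_97567f_al.LkW
import Pool.Agent.Lib.MP_97567f_al.LkO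
import Pool.Agent.Lib.MP_97567f_al.LkS
import Pool.Agent.Lib.MP_97567f_al.Hee
import Pool.Agent.Lib.MP_97567f_al.Mon
import Pool.Agent.Lib.MP_97567f_al.Inv
import Pool.Agent.Lib.MP_97567f_al.Mat
import Pool.Agent.Lib.MP_97567f_al.Gar
import Pool.Agent.Lib.MP_97567f_al.Fai
import Pool.Agent.Lib.MP_97567f_al.Comp
import Pool.Agent.Lib.MP_97567f_al.VLI
import Pool.Agent.Lib.MP_97567f_al.VKer
import Pool.Agent.Lib.MP_97567f_al.VEig
import Pool.Agent.Lib.MP_97567f_al.D1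
import Pool.Agent.Lib.MP_97567f_al.D2
import Pool.Agent.Lib.MP_97567f_al.D3
import Pool.Agent.Lib.MP_97567f_al.D4
import Pool.Agent.Lib.MP_97567f_al.D5
import Pool.Agent.Lib.MP_97567f_al.D6
import Pool.Agent.Lib.MP_97567f_al.D7
import Pool.Agent.Lib.MP_97567f_al.D8
import Pool.Agent.Lib.MP_97567f_al.Univ
import Pool.Agent.Lib.MP_97567f_al.Rig
import Pool.Agent.Lib.MP_97567f_al.Units
import Pool.Agent.Lib.MP_97567f_al.KerQ
import Pool.Agent.Lib.MP_97567f_al.KerF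
import Pool.Agent.Lib.MP_97567f_al.Stab
import Pool.Agent.Lib.MP_97567f_al.FinU
import Pool.Agent.Lib.MP_97567f_al.FinA
import Pool.Agent.Lib.MP_97567f_al.Rt
import Pool.Agent.Lib.MP_97567f_al.Desc
import Pool.Agent.Lib.MP_97567f_al.LkGen
import Pool.Agent.Lib.MP_97567f_al.Mono
import Pool.Agent.Lib.MP_97567f_al.Irr
import Pool.Agent.Lib.MP_97567f_al.Char
import Pool.Agent.Lib.MP_97567f_al.IdA
import Pool.Agent.Lib.MP_97567f_al.IdB
import Pool.Agent.Lib.MP_97567f_al.IdC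
import Pool.Agent.Lib.MP_97567f_al.IdD
import Pool.Agent.Lib.MP_97567f_al.IdE
import Pool.Agent.Lib.MP_97567f_al.G0
import Pool.Agent.Lib.MP_97567f_al.G1
import Pool.Agent.Lib.MP_97567f_al.G2
import Pool.Agent.Lib.MP_97567f_al.G3
import Pool.Agent.Lib.MP_97567f_al.G4
import Pool.Agent.Lib.MP_97567f_al.G6
import Pool.Agent.Lib.MP_97567f_al.T1
import Pool.Agent.Lib.MP_97567f_al.T2
import Pool.Agent.Lib.MP_97567f_al.T3
import Pool.Agent.Lib.MP_97567f_al.T4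
import Pool.Agent.Lib.MP_97567f_al.T5
import Pool.Agent.Lib.MP_97567f_al.T6
import Pool.Agent.Lib.MP_97567f_al.T7
import Pool.Agent.Lib.MP_97567f_al.T8
import Pool.Agent.Lib.MP_97567f_al.T9
import Pool.Agent.Lib.MP_97567f_al.Ind
import Pool.Agent.Lib.MP_97567f_al.Blk
import Pool.Agent.Lib.MP_97567f_al.Ad
import Pool.Agent.Lib.MP_97567f_al.Ab
import Pool.Agent.Lib.MP_97567f_al.Asm
import Pool.Agent.Lib.MP_97567f_al.Restr
import Pool.Agent.Lib.MP_97567f_al.Sca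
import Pool.Agent.Lib.MP_97567f_al.Kill
import Pool.Agent.Lib.MP_97567f_al.Cmp
import Pool.Agent.Lib.MP_97567f_al.Main

/-!
# MP_97567f_al: the main theorem for the simply laced types, assembled
-/

set_option autoImplicit false

namespace Pool.Agent.Lib.MP_97567f_al

theorem aLkA : SLkA := pLkA
theorem aLkC : SLkC := pLkC aLkA
theorem aLkB : SLkB := pLkB aLkA
theorem aLkQ : SLkQ := pLkQ aLkA
theorem aLKr : SLKr := pLKr aLkC aLkB aLkQ
theorem aLkW : SLkW := pLkW aLkA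
theorem aLkO : SLkO := pLkO aLkA
theorem aLkS : SLkS := pLkS aLkA aLKr
theorem aHee : SHee := pHee aLkA aLKr
theorem aMon : SMon := pMon aHee aLkQ
theorem aMat : SMat := pMat pInv
theorem aGar : SGar := pGar pInv aMat
theorem aFai : SFai := pFai aMon aGar aLKr
theorem aVKer : SVKer := pVKer pVLI
theorem aVEig : SVEig := pVEig aVKer
theorem aD1 : SD1 := pD1 aLkA aLkQ aLKr aVEig
theorem aD2 : SD2 := pD2 aLkA
theorem aD3 : SD3 := pD3 aLkA aLKr pVLI aVKer aD2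
theorem aD4 : SD4 := pD4 aLkA pVLI aD3
theorem aD5 : SD5 := pD5 aLkA pVLI aD4
theorem aD6 : SD6 := pD6 aLkA aD5
theorem aD7 : SD7 := pD7 aLkA pVLI
theorem aD8 : SD8 := pD8 aLkA aLKr aLkS pVLI
theorem aUniv : SUniv := pUniv aLkA
theorem aRig : SRig := pRig aLkA aLKr aD1 aD6 aD7 aD8 aUniv
theorem aFinU : SFinU := pFinU pUnits pKerQ pKerF
theorem aFinA : SFinA := pFinA pStab aFinU pKerQ pKerF
theorem aLkGen : SLkGen := pLkGen aLkA aLKr
theorem aMono : SMono := pMono aLkA aLkO aLKr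
theorem aIrr : SIrr := pIrr aLkA aLkQ aLKr aLkS aLkO aMono pKerQ
theorem aChar : SChar := pChar aLkA aLkQ aLKr
theorem aIdA : SIdA := pIdA aLkA aLkQ aLKr aIrr
theorem aIdB : SIdB := pIdB aMono pKerQ aLKr
theorem aIdC : SIdC := pIdC aIrr
theorem aIdD : SIdD := pIdD aLkA aLkW pKerF aLKr
theorem aIdE : SIdE := pIdE aLKr
theorem aG0 : SG0 := pG0 pComp aRig aLkGen aLKr
theorem aG1 : SG1 := pG1 aChar pRt aLKr aLkA
theorem aG2 : SG2 := pG2 aG0 aG1 pDesc aLKr
theorem aG3 : SG3 := pG3 aChar aLKr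
theorem aG4 : SG4 := pG4 aLKr
theorem aG6 : SG6 := pG6 aG2 aG3 aG4 aFinA aIdA aIdB aIdC aIdD aIdE
theorem aT2 : ST2 := pT2 pT1
theorem aT3 : ST3 := pT3 pT1
theorem aT4 : ST4 := pT4 pT1 aT2
theorem aT5 : ST5 := pT5 pComp pT1 aT4
theorem aT6 : ST6 := pT6 pT1 aT3 aT5
theorem aT7 : ST7 := pT7 pT1 aT6 pDesc
theorem aT9 : ST9 := pT9 pT1 pT8 aIrr aLKr aLkA
theorem aAsm : SAsm := pAsm pInd pBlk pAd pAb
theorem aRestr : SRestr := pRestr aLkA aLKr
theorem aSca : SSca := pSca aLkA aLKr pUnits pKerQ aMono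
theorem aKill : SKill := pKill aRestr aSca aFai aLkA
theorem aCmp : SCmp := pCmp aLkA aLKr aIrr aChar aG6 pT1 aT2 aT7 aT9
theorem aMain : SMain := pMain aAsm aKill aCmp

/-- All facts on roots. -/
theorem all_RF {n : ℕ} {M : CoxeterMatrix (Fin n)} (h : SL M) : RF M := by
  have h1 : RF1 M := pRF1 n M h
  have h2 : RF2 M := pRF2 n M h h1
  exact ⟨h1, h2, pRF3 n M h h1 h2⟩

/-- The automorphism groups of the simply laced Artin groups of finite type are linear. -/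
theorem simply_laced (n : ℕ) (M : CoxeterMatrix (Fin n))
    (hM : ∀ i j, i ≠ j → M.M i j = 2 ∨ M.M i j = 3) (hf : Finite M.Group) :
    LinOver K2 (MulAut (Art M)) := by
  have h := pPos n M hM hf
  have hr := all_RF h
  exact aMain n M h hr (pFHex n M hr)

end Pool.Agent.Lib.MP_97567f_al
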