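import Pool.Agent.Lib.MP_97567f_al.Base

/-!
# MP_97567f_al: the presentation of the simply laced Artin groups
-/

set_option autoImplicit false

namespace Pool.Agent.Lib.MP_97567f_al

variable {n : ℕ} {M : CoxeterMatrix (Fin n)}

theorem adj_symm {i j : Fin n} (h : adj M i j) : adj M j i := by
  unfold adj at h ⊢
  rw [← h]
  exact M.symmetric j i

theorem adj_irrefl (i : Fin n) : ¬ adj M i i := by
  unfold adj
  have := M.diagonal i
  rw [show M.M i i = 1 from this]
  norm_num

theorem adj_ne {i j : Fin n} (h : adj M i j) : i ≠ j := by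
  rintro rfl
  exact adj_irrefl i h

private theorem alt_two {G : Type} [Monoid G] (a b : G) :
    ((List.range 2).map (fun k : ℕ => if k % 2 = 0 then a else b)).prod = a * b := by
  simp [List.range_succ]

private theorem alt_three {G : Type} [Monoid G] (a b : G) :
    ((List.range 3).map (fun k : ℕ => if k % 2 = 0 then a else b)).prod = a * b * a := by
  simp [List.range_succ, mul_assoc]

private theorem alt_one {G : Type} [Monoid G] (a b : G) :
    ((List.range 1).map (fun k : ℕ => if k % 2 = 0 then a else b)).prod = a := by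
  simp [List.range_succ]

/-- The universal property: maps out of the Artin group. -/
theorem art_lift (hM : ∀ i j, i ≠ j → M.M i j = 2 ∨ M.M i j = 3) {G : Type} [Group G]
    (f : Fin n → G) (h2 : ∀ i j, i ≠ j → ¬ adj M i j → f i * f j = f j * f i)
    (h3 : ∀ i j, adj M i j → f i * f j * f i = f j * f i * f j) :
    ∃ φ : Art M →* G, ∀ i, φ (gn M i) = f i := by
  refine ⟨PresentedGroup.toGroup (f := f) ?_, fun i => PresentedGroup.toGroup.of _⟩
  rintro _ ⟨⟨i, j⟩, rfl⟩
  have key : ∀ (m : ℕ) (a b : Fin n), FreeGroup.lift f
      ((List.range m).map (fun k : ℕ => if k % 2 = 0 then FreeGroup.of a else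
        FreeGroup.of b)).prod =
      ((List.range m).map (fun k : ℕ => if k % 2 = 0 then f a else f b)).prod := by
    intro m a b
    rw [map_list_prod, List.map_map]
    congr 1
    refine List.map_congr_left fun k _ => ?_
    simp only [Function.comp_apply]
    split_ifs <;> simp
  simp only
  rw [map_mul, map_inv, key, key]
  by_cases hij : i = j
  · subst hij
    rw [mul_inv_cancel]
  · rcases hM i j hij with h | h
    · rw [h, alt_two, alt_two, mul_inv_eq_one]
      refine h2 i j hij ?_
      unfold adj
      rw [h]
      norm_num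
    · rw [h, alt_three, alt_three, mul_inv_eq_one]
      exact h3 i j h

private theorem art_rel (i j : Fin n) :
    ((List.range (M.M i j)).map (fun k : ℕ => if k % 2 = 0 then gn M i else gn M j)).prod =
      ((List.range (M.M i j)).map (fun k : ℕ => if k % 2 = 0 then gn M j else gn M i)).prod := by
  have key : ∀ (m : ℕ) (a b : Fin n), (QuotientGroup.mk' _ : FreeGroup (Fin n) →* Art M)
      ((List.range m).map (fun k : ℕ => if k % 2 = 0 then FreeGroup.of a else
        FreeGroup.of b)).prod =
      ((List.range m).map (fun k : ℕ => if k % 2 = 0 then gn M a else gn M b)).prod := by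
    intro m a b
    rw [map_list_prod, List.map_map]
    congr 1
    refine List.map_congr_left fun k _ => ?_
    simp only [Function.comp_apply]
    split_ifs <;> rfl
  have h1 : (QuotientGroup.mk' _ : FreeGroup (Fin n) →* Art M)
      (((List.range (M.M i j)).map (fun k : ℕ => if k % 2 = 0 then FreeGroup.of i else
        FreeGroup.of j)).prod *
      (((List.range (M.M i j)).map (fun k : ℕ => if k % 2 = 0 then FreeGroup.of j else
        FreeGroup.of i)).prod)⁻¹) = 1 := by
    refine (QuotientGroup.eq_one_iff _).2 (Subgroup.subset_normalClosure ?_)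
    exact ⟨(i, j), rfl⟩
  rw [map_mul, map_inv, key, key, mul_inv_eq_one] at h1
  exact h1

theorem art_comm (hM : ∀ i j, i ≠ j → M.M i j = 2 ∨ M.M i j = 3) {i j : Fin n} (hij : i ≠ j)
    (h : ¬ adj M i j) : gn M i * gn M j = gn M j * gn M i := by
  have h1 := art_rel (M := M) i j
  rw [(hM i j hij).resolve_right h, alt_two, alt_two] at h1
  exact h1

theorem art_braid {i j : Fin n} (h : adj M i j) :
    gn M i * gn M j * gn M i = gn M j * gn M i * gn M j := by
  have h1 := art_rel (M := M) i j
  rw [show M.M i j = 3 from h, alt_three, alt_three] at h1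
  exact h1

/-- The generators generate. -/
theorem art_closure (M : CoxeterMatrix (Fin n)) :
    Subgroup.closure (Set.range (gn M)) = (⊤ : Subgroup (Art M)) :=
  PresentedGroup.closure_range_of _

theorem art_fg (M : CoxeterMatrix (Fin n)) : Group.FG (Art M) := by
  refine ⟨⟨(Set.finite_range (gn M)).toFinset, ?_⟩⟩
  rw [Set.Finite.coe_toFinset]
  exact art_closure M

/-- Homomorphisms which agree on the generators are equal. -/
theorem art_ext {G : Type} [Group G] {φ ψ : Art M →* G} (h : ∀ i, φ (gn M i) = ψ (gn M i)) :
    φ = ψ :=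
  PresentedGroup.ext h

/-- Induction on the words in the generators and their inverses. -/
theorem art_induction {P : Art M → Prop} (h1 : P 1) (hg : ∀ i x, P x → P (gn M i * x))
    (hi : ∀ i x, P x → P ((gn M i)⁻¹ * x)) (x : Art M) : P x := by
  have hx : x ∈ Subgroup.closure (Set.range (gn M)) := by
    rw [art_closure]
    trivial
  induction hx using Subgroup.closure_induction_left with
  | one => exact h1
  | mul_left y hy z _ hz =>
    obtain ⟨i, rfl⟩ := hy
    exact hg i z hz
  | inv_mul_cancel y hy z _ hz =>
    obtain ⟨i, rfl⟩ := hy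
    exact hi i z hz

/-- The total exponent of the generators in `C`. -/
theorem exists_deg (hM : ∀ i j, i ≠ j → M.M i j = 2 ∨ M.M i j = 3) {C : Finset (Fin n)}
    (hC : Sat M C) : ∃ φ : Art M →* Multiplicative ℤ,
      ∀ i, φ (gn M i) = if i ∈ C then Multiplicative.ofAdd 1 else 1 := by
  refine art_lift hM _ (fun i j _ _ => mul_comm _ _) fun i j h => ?_
  have h1 : i ∈ C ↔ j ∈ C := ⟨fun hi => hC i hi j h, fun hj => hC j hj i (adj_symm h)⟩
  by_cases hi : i ∈ C
  · rw [if_pos hi, if_pos (h1.1 hi)]
  · rw [if_neg hi, if_neg fun hj => hi (h1.2 hj)]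

end Pool.Agent.Lib.MP_97567f_al
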