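import Mathlib

/-!
# MP_97567f_al: automorphism groups of simply laced Artin groups of finite type: definitions

`Art M`: the Artin group (as in the frozen statement). `adj`: the bonds. `pr M b s`: the pairing of `b` with the simple
root `e s`. `SL M`: simply laced and positive definite. `Rt M b`: `b` is a positive root. `PR M C`: the positive roots with
support in `C`. `fh`: the polynomials of the Lawrence-Krammer representation. `lk`, `LKr`: the Lawrence-Krammer
representation of the nodes in `C`.
-/

set_option autoImplicit false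

namespace Pool.Agent.Lib.MP_97567f_al

variable {n : ℕ}

/-- The Artin group of `M`. -/
abbrev Art (M : CoxeterMatrix (Fin n)) : Type :=
  PresentedGroup (Set.range (fun p : Fin n × Fin n =>
          ((List.range (M.M p.1 p.2)).map (fun k : ℕ =>
              if k % 2 = 0 then FreeGroup.of p.1 else FreeGroup.of p.2)).prod *
          (((List.range (M.M p.1 p.2)).map (fun k : ℕ =>
              if k % 2 = 0 then FreeGroup.of p.2 else FreeGroup.of p.1)).prod)⁻¹))

/-- The generators. -/
def gn (M : CoxeterMatrix (Fin n)) (i : Fin n) : Art M := PresentedGroup.of i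

/-- The bonds. -/
def adj (M : CoxeterMatrix (Fin n)) (i j : Fin n) : Prop := M.M i j = 3

instance (M : CoxeterMatrix (Fin n)) : DecidableRel (adj M) := fun i j =>
  inferInstanceAs (Decidable (M.M i j = 3))

/-- The pairing with the simple root `s`. -/
def pr (M : CoxeterMatrix (Fin n)) (b : Fin n → ℤ) (s : Fin n) : ℤ :=
  2 * b s - ∑ j, if adj M j s then b j else 0

/-- The bilinear form. -/
def bf (M : CoxeterMatrix (Fin n)) (a b : Fin n → ℤ) : ℤ := ∑ s, a s * pr M b s

/-- The simple roots. -/
def e (s : Fin n) : Fin n → ℤ := Pi.single s 1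

/-- Simply laced, with a positive definite form. -/
structure SL (M : CoxeterMatrix (Fin n)) : Prop where
  sl : ∀ i j, i ≠ j → M.M i j = 2 ∨ M.M i j = 3
  pos : ∀ x : Fin n → ℤ, x ≠ 0 → 0 < bf M x x

/-- The positive roots. -/
def Rt (M : CoxeterMatrix (Fin n)) (b : Fin n → ℤ) : Prop := bf M b b = 2 ∧ ∀ i, 0 ≤ b i

/-- The height. -/
def ht (b : Fin n → ℤ) : ℕ := (∑ i, b i).toNat

/-- The set of nodes `C` is a union of components. -/
def Sat (M : CoxeterMatrix (Fin n)) (C : Finset (Fin n)) : Prop :=
  ∀ i ∈ C, ∀ j, adj M i j → j ∈ C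

/-- The set of nodes `C` is connected. -/
def Conn (M : CoxeterMatrix (Fin n)) (C : Finset (Fin n)) : Prop :=
  ∀ i ∈ C, ∀ j ∈ C, Relation.ReflTransGen (adj M) i j

open Classical in
/-- The component of `s`. -/
noncomputable def cmp (M : CoxeterMatrix (Fin n)) (s : Fin n) : Finset (Fin n) :=
  Finset.univ.filter fun t => Relation.ReflTransGen (adj M) s t

open Classical in
/-- The finite set of the positive roots with support in `C`. -/
noncomputable def roots (M : CoxeterMatrix (Fin n)) (C : Finset (Fin n)) :
    Finset (Fin n → ℤ) :=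
  if h : {b : Fin n → ℤ | Rt M b ∧ ∀ i, i ∉ C → b i = 0}.Finite then h.toFinset else ∅

/-- The type of the positive roots with support in `C`. -/
abbrev PR (M : CoxeterMatrix (Fin n)) (C : Finset (Fin n)) : Type := {b // b ∈ roots M C}

/-- The properties of the polynomials of the Lawrence-Krammer representation. -/
structure FH (M : CoxeterMatrix (Fin n)) (f : Fin n → (Fin n → ℤ) → Polynomial ℤ) : Prop where
  self : ∀ s, f s (e s) = 1
  simple : ∀ s t, s ≠ t → f s (e t) = 0
  one : ∀ s b, Rt M b → pr M b s = 1 →
    f s b = -(1 - Polynomial.X) * Polynomial.X ^ (ht b - 2)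
  comm : ∀ s u b, s ≠ u → ¬ adj M s u → Rt M b → pr M b u = -1 →
    f s (b + e u) = Polynomial.X * f s b
  r0 : ∀ s u b, adj M s u → Rt M b → pr M b s = 0 → pr M b u = -1 →
    f s (b + e u) = f u b - (1 - Polynomial.X) * f s b
  r1 : ∀ s u b, adj M s u → Rt M b → pr M b s = 1 → pr M b u = -1 →
    f s (b + e u) = Polynomial.X * f u (b - e s) - (1 - Polynomial.X) * f s b
  zz : ∀ s u b, adj M s u → Rt M b → pr M b s = 0 → pr M b u = 0 → f s b = f u b
  ev : ∀ s b, Rt M b → b ≠ e s → (f s b).eval 1 = 0

open Classical in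
/-- The polynomials of the Lawrence-Krammer representation. -/
noncomputable def fh (M : CoxeterMatrix (Fin n)) : Fin n → (Fin n → ℤ) → Polynomial ℤ :=
  if h : ∃ f, FH M f then h.choose else fun _ _ => 0

section lk

variable (M : CoxeterMatrix (Fin n)) (C : Finset (Fin n)) {R : Type} [CommRing R] (q l : R)

/-- The basis vector of the root `b` (zero if `b` is not a root). -/
def xv (b : Fin n → ℤ) : PR M C → R := fun g => if g.1 = b then 1 else 0

/-- The image of the basis vector of the root `b` under the generator `s`. -/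
noncomputable def img (s : Fin n) (b : Fin n → ℤ) : PR M C → R :=
  if b = e s then l • xv M C (e s)
  else (if pr M b s = -1 then xv M C (b + e s) + (1 - q) • xv M C b
    else if pr M b s = 1 then q • xv M C (b - e s) else xv M C b) +
      (l * Polynomial.aeval q (fh M s b)) • xv M C (e s)

/-- The matrix of the generator `s`. -/
noncomputable def lk (s : Fin n) : Matrix (PR M C) (PR M C) R :=
  Matrix.of fun g b => img M C q l s b.1 g

open Classical in
/-- The Lawrence-Krammer representation of the nodes in `C` with the parameters `q`, `l`. -/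
noncomputable def LKr : Art M →* GL (PR M C) R :=
  if h : ∃ ρ : Art M →* GL (PR M C) R, ∀ s, (ρ (gn M s)).1 = lk M C q l s then h.choose else 1

end lk

/-- Generic parameters. -/
structure Gen {κ : Type} [Field κ] (q l : κ) : Prop where
  two : (2 : κ) ≠ 0
  q0 : q ≠ 0
  l0 : l ≠ 0
  q1 : q ≠ 1
  qm : q ≠ -1
  l1 : l ≠ 1
  lq : l ≠ -q
  z1 : l ^ 2 * q ^ 2 ≠ 1
  z3 : l ^ 2 * q ^ 2 ≠ q ^ 3

/-- The linear groups over the field `K`. -/
def LinOver (K : Type) [Field K] (G : Type) [Group G] : Prop :=
  ∃ (d : ℕ) (f : G →* GL (Fin d) K), Function.Injective f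

end Pool.Agent.Lib.MP_97567f_al
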