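import Pool.Agent.Lib.MP_97567f_al.FPos

/-!
# MP_97567f_al: the components of a finite Coxeter group with a label greater than 3
-/

set_option autoImplicit false

namespace Pool.Agent.Lib.MP_97567f_al

section Cls

variable {n : ℕ}

/-- The form. -/
private noncomputable def Cls_q (M : CoxeterMatrix (Fin n)) (x : Fin n → ℝ) : ℝ :=
  ∑ s, ∑ t, x s * x t * cg (M.M s t)

/-- The pairing with a simple root. -/
private noncomputable def Cls_b (M : CoxeterMatrix (Fin n)) (x : Fin n → ℝ) (s : Fin n) : ℝ :=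
  ∑ t, x t * cg (M.M t s)

private theorem Cls_b_add (M : CoxeterMatrix (Fin n)) (x y : Fin n → ℝ) (s : Fin n) :
    Cls_b M (x + y) s = Cls_b M x s + Cls_b M y s := by
  unfold Cls_b
  simp only [Pi.add_apply, add_mul, Finset.sum_add_distrib]

private theorem Cls_b_single (M : CoxeterMatrix (Fin n)) (t : Fin n) (c : ℝ) (s : Fin n) :
    Cls_b M (Pi.single t c) s = c * cg (M.M t s) := by
  unfold Cls_b
  rw [Finset.sum_eq_single t]
  · rw [Pi.single_eq_same]
  · intro j _ hj
    rw [Pi.single_eq_of_ne hj, zero_mul]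
  · intro h
    exact absurd (Finset.mem_univ t) h

private theorem Cls_q_eq (M : CoxeterMatrix (Fin n)) (x : Fin n → ℝ) :
    Cls_q M x = ∑ s, x s * Cls_b M x s := by
  unfold Cls_q Cls_b
  refine Finset.sum_congr rfl fun s _ => ?_
  rw [Finset.mul_sum]
  refine Finset.sum_congr rfl fun t _ => ?_
  rw [M.symmetric s t]
  ring

private theorem Cls_q_add (M : CoxeterMatrix (Fin n)) (x : Fin n → ℝ) (s : Fin n) (c : ℝ) :
    Cls_q M (x + Pi.single s c) = Cls_q M x + 2 * c * Cls_b M x s + c ^ 2 := by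
  have h1 : ∀ y : Fin n → ℝ, ∑ t, (Pi.single s c : Fin n → ℝ) t * y t = c * y s := by
    intro y
    rw [Finset.sum_eq_single s]
    · rw [Pi.single_eq_same]
    · intro j _ hj
      rw [Pi.single_eq_of_ne hj, zero_mul]
    · intro h
      exact absurd (Finset.mem_univ s) h
  have h2 : ∑ t, x t * Cls_b M (Pi.single s c) t = c * Cls_b M x s := by
    unfold Cls_b
    rw [Finset.mul_sum]
    refine Finset.sum_congr rfl fun t _ => ?_
    have := Cls_b_single M s c t
    unfold Cls_b at this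
    rw [this, M.symmetric s t]
    ring
  rw [Cls_q_eq, Cls_q_eq]
  simp only [Pi.add_apply, add_mul, Finset.sum_add_distrib, Cls_b_add, mul_add, h1, h2]
  rw [Cls_b_single, M.diagonal, cg_one]
  ring

/-- The vector of a path. -/
private noncomputable def Cls_X (v : ℕ → Fin n) (c : ℕ → ℝ) (j : ℕ) : Fin n → ℝ :=
  ∑ i ∈ Finset.range (j + 1), Pi.single (v i) (c i)

private theorem Cls_X_succ (v : ℕ → Fin n) (c : ℕ → ℝ) (j : ℕ) :
    Cls_X v c (j + 1) = Cls_X v c j + Pi.single (v (j + 1)) (c (j + 1)) :=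
  Finset.sum_range_succ _ _

private theorem Cls_b_X (M : CoxeterMatrix (Fin n)) (v : ℕ → Fin n) (c : ℕ → ℝ) (j : ℕ)
    (s : Fin n) : Cls_b M (Cls_X v c j) s = ∑ i ∈ Finset.range (j + 1), c i * cg (M.M (v i) s) := by
  induction j with
  | zero =>
    unfold Cls_X
    rw [zero_add, Finset.sum_range_one, Finset.sum_range_one, Cls_b_single]
  | succ j ih =>
    rw [Cls_X_succ, Cls_b_add, ih, Cls_b_single, Finset.sum_range_succ _ (j + 1)]

private theorem Cls_cg_nonpos (M : CoxeterMatrix (Fin n)) {s t : Fin n} (h : s ≠ t) :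
    cg (M.M s t) ≤ 0 := by
  by_cases h0 : M.M s t = 0
  · rw [h0, cg_zero]
    norm_num
  · have h1 : M.M s t ≠ 1 := M.off_diagonal s t h
    have h2 := cg_anti (k := 2) (m := M.M s t) (by norm_num) (by omega)
    rw [cg_two] at h2
    exact h2

/-- The pairing of the vector of a path with a node outside. -/
private theorem Cls_b_le (M : CoxeterMatrix (Fin n)) (v : ℕ → Fin n) (c : ℕ → ℝ)
    (hc : ∀ i, 0 ≤ c i) (j : ℕ) (s : Fin n) (hs : ∀ i, i ≤ j → v i ≠ s) :
    Cls_b M (Cls_X v c j) s ≤ c j * cg (M.M (v j) s) := by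
  rw [Cls_b_X, Finset.sum_range_succ]
  have : ∑ i ∈ Finset.range j, c i * cg (M.M (v i) s) ≤ 0 :=
    Finset.sum_nonpos fun i hi => mul_nonpos_of_nonneg_of_nonpos (hc i)
      (Cls_cg_nonpos M (hs i (Finset.mem_range.1 hi).le))
  linarith

/-- The pairing with a node outside, two terms. -/
private theorem Cls_b_le2 (M : CoxeterMatrix (Fin n)) (v : ℕ → Fin n) (c : ℕ → ℝ)
    (hc : ∀ i, 0 ≤ c i) (j : ℕ) (s : Fin n) (hs : ∀ i, i ≤ j + 1 → v i ≠ s) :
    Cls_b M (Cls_X v c (j + 1)) s ≤ c (j + 1) * cg (M.M (v (j + 1)) s) + c 0 * cg (M.M (v 0) s) := by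
  rw [Cls_b_X, Finset.sum_range_succ, Finset.sum_range_succ']
  have : ∑ i ∈ Finset.range j, c (i + 1) * cg (M.M (v (i + 1)) s) ≤ 0 :=
    Finset.sum_nonpos fun i hi => mul_nonpos_of_nonneg_of_nonpos (hc _)
      (Cls_cg_nonpos M (hs _ (by have := Finset.mem_range.1 hi; omega)))
  linarith

/-- The form on the vector of a path. -/
private theorem Cls_path (M : CoxeterMatrix (Fin n)) (v : ℕ → Fin n) (c : ℕ → ℝ)
    (hc : ∀ i, 0 ≤ c i) (g : ℕ → ℝ) (k : ℕ) (hv : ∀ i j, i ≤ k → j ≤ k → v i = v j → i = j)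
    (hg : ∀ i, i < k → cg (M.M (v i) (v (i + 1))) ≤ g i) :
    Cls_q M (Cls_X v c k) ≤ ∑ i ∈ Finset.range (k + 1), c i ^ 2 +
      2 * ∑ i ∈ Finset.range k, c i * c (i + 1) * g i := by
  induction k with
  | zero =>
    unfold Cls_X
    rw [zero_add, Finset.sum_range_one, Finset.sum_range_one, Finset.sum_range_zero]
    have h := Cls_q_add M 0 (v 0) (c 0)
    rw [zero_add] at h
    have h0 : Cls_q M 0 = 0 := by
      unfold Cls_q
      simp
    have h1 : Cls_b M 0 (v 0) = 0 := by
      unfold Cls_b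
      simp
    rw [h, h0, h1]
    linarith
  | succ k ih =>
    have ih' := ih (fun i j hi hj => hv i j (by omega) (by omega)) (fun i hi => hg i (by omega))
    rw [Cls_X_succ, Cls_q_add, Finset.sum_range_succ _ (k + 1), Finset.sum_range_succ _ k]
    have h1 : Cls_b M (Cls_X v c k) (v (k + 1)) ≤ c k * cg (M.M (v k) (v (k + 1))) := by
      refine Cls_b_le M v c hc k _ fun i hi h => ?_
      have := hv i (k + 1) (by omega) le_rfl h
      omega
    have h2 : c k * cg (M.M (v k) (v (k + 1))) ≤ c k * g k :=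
      mul_le_mul_of_nonneg_left (hg k (by omega)) (hc k)
    have h3 : c (k + 1) * Cls_b M (Cls_X v c k) (v (k + 1)) ≤ c (k + 1) * (c k * g k) :=
      mul_le_mul_of_nonneg_left (h1.trans h2) (hc (k + 1))
    rw [Finset.sum_range_succ _ k] at *
    linarith

/-- A linked sequence of different nodes. -/
private structure ClsP (M : CoxeterMatrix (Fin n)) (k : ℕ) (v : ℕ → Fin n) : Prop where
  inj : ∀ i j, i ≤ k → j ≤ k → v i = v j → i = j
  link : ∀ i, i < k → 3 ≤ M.M (v i) (v (i + 1))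

private theorem ClsP.shift {M : CoxeterMatrix (Fin n)} {k : ℕ} {v : ℕ → Fin n} (h : ClsP M k v)
    (p l : ℕ) (hp : p + l ≤ k) : ClsP M l fun i => v (p + i) where
  inj i j hi hj hij := by
    have := h.inj _ _ (by omega) (by omega) hij
    omega
  link i hi := h.link (p + i) (by omega)

private theorem ClsP.rev {M : CoxeterMatrix (Fin n)} {k : ℕ} {v : ℕ → Fin n} (h : ClsP M k v)
    (p : ℕ) (hp : p ≤ k) : ClsP M p fun i => v (p - i) where
  inj i j hi hj hij := by
    have := h.inj _ _ (by omega) (by omega) hij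
    omega
  link i hi := by
    have h1 := h.link (p - (i + 1)) (by omega)
    rw [M.symmetric, show p - (i + 1) + 1 = p - i by omega] at h1
    exact h1

private theorem Cls_X_ne {v : ℕ → Fin n} {c : ℕ → ℝ} (hc : ∀ i, 0 ≤ c i) (h0 : 0 < c 0) (k : ℕ) :
    0 < Cls_X v c k (v 0) := by
  unfold Cls_X
  rw [Finset.sum_apply]
  refine Finset.sum_pos' (fun i _ => ?_) ⟨0, Finset.mem_range.2 (by omega), ?_⟩
  · rw [Pi.single_apply]
    split_ifs
    · exact hc i
    · exact le_rfl
  · rw [Pi.single_eq_same]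
    exact h0

/-- A linked sequence on which the form would not be positive. -/
private theorem ClsP.contra {M : CoxeterMatrix (Fin n)} (hf : Finite M.Group) {k : ℕ}
    {v : ℕ → Fin n} (h : ClsP M k v) (c : ℕ → ℝ) (hc : ∀ i, 0 ≤ c i) (h0 : 0 < c 0) (m : ℕ → ℕ)
    (hm : ∀ i, i < k → 1 ≤ m i ∧ m i ≤ M.M (v i) (v (i + 1)))
    (hs : ∑ i ∈ Finset.range (k + 1), c i ^ 2 +
      2 * ∑ i ∈ Finset.range k, c i * c (i + 1) * cg (m i) ≤ 0) : False := by
  have h1 := Cls_path M v c hc (fun i => cg (m i)) k h.inj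
    (fun i hi => cg_anti (hm i hi).1 (hm i hi).2)
  have h2 : Cls_X v c k ≠ 0 := by
    intro h3
    have := Cls_X_ne (v := v) hc h0 k
    rw [h3] at this
    exact lt_irrefl _ this
  have h3 := fpos M hf _ h2
  unfold Cls_q at h1
  linarith

/-- No cycles. -/
private theorem ClsP.acyc {M : CoxeterMatrix (Fin n)} (hf : Finite M.Group) {k : ℕ}
    {v : ℕ → Fin n} (h : ClsP M (k + 1) v) (w : Fin n) (hw : ∀ i, i ≤ k + 1 → v i ≠ w)
    (h0 : 3 ≤ M.M (v 0) w) (h1 : 3 ≤ M.M (v (k + 1)) w) : False := by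
  have hc : ∀ i : ℕ, (0 : ℝ) ≤ (fun _ => (1 : ℝ)) i := fun _ => zero_le_one
  have e1 := Cls_path M v (fun _ => 1) hc (fun _ => -(1 / 2)) (k + 1) h.inj (fun i hi => by
    rw [← cg_three]
    exact cg_anti (by norm_num) (h.link i hi))
  have e2 := Cls_b_le2 M v (fun _ => 1) hc k w hw
  have e3 := cg_anti (k := 3) (by norm_num) h0
  have e4 := cg_anti (k := 3) (by norm_num) h1
  rw [cg_three] at e3 e4
  have e5 := Cls_q_add M (Cls_X v (fun _ => 1) (k + 1)) w 1
  have e6 : Cls_X v (fun _ => 1) (k + 1) + Pi.single w 1 ≠ 0 := by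
    intro h3
    have e7 := Cls_X_ne (v := v) hc (zero_lt_one' ℝ) (k + 1)
    have e8 := congrFun h3 (v 0)
    rw [Pi.add_apply, Pi.single_eq_of_ne (hw 0 (by omega)), add_zero, Pi.zero_apply] at e8
    exact e7.ne' e8
  have e9 := fpos M hf _ e6
  unfold Cls_q at e5 e1
  rw [e5] at e9
  simp only [Finset.sum_const, Finset.card_range, nsmul_eq_mul, one_pow, one_mul] at e1 e2
  push_cast at e1
  linarith

/-- The coefficients `1, √2, √2, …`. -/
private noncomputable def Cls_c (i : ℕ) : ℝ := if i = 0 then 1 else √2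

private theorem Cls_c_nonneg (i : ℕ) : 0 ≤ Cls_c i := by
  unfold Cls_c
  split_ifs
  · exact zero_le_one
  · exact Real.sqrt_nonneg 2

private theorem Cls_sum (k : ℕ) : ∑ i ∈ Finset.range (k + 1 + 1), Cls_c i ^ 2 +
    2 * ∑ i ∈ Finset.range (k + 1), Cls_c i * Cls_c (i + 1) * cg (if i = 0 then 4 else 3) = 1 := by
  have h2 : √2 * √2 = (2 : ℝ) := Real.mul_self_sqrt (by norm_num)
  induction k with
  | zero =>
    rw [zero_add, Finset.sum_range_one, Finset.sum_range_succ, Finset.sum_range_one, if_pos rfl,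
      cg_four]
    unfold Cls_c
    norm_num
    linear_combination (-1) * h2
  | succ k ih =>
    rw [Finset.sum_range_succ (fun i => Cls_c i ^ 2) (k + 1 + 1), Finset.sum_range_succ
      (fun i => Cls_c i * Cls_c (i + 1) * cg (if i = 0 then 4 else 3)) (k + 1),
      if_neg (Nat.succ_ne_zero k), cg_three]
    have e1 : Cls_c (k + 1) = √2 := if_neg (by omega)
    have e2 : Cls_c (k + 1 + 1) = √2 := if_neg (by omega)
    rw [e1, e2]
    linear_combination ih

private theorem ClsP.le_one {M : CoxeterMatrix (Fin n)} {k : ℕ}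
    {v : ℕ → Fin n} (h : ClsP M (k + 1) v) (h4 : 4 ≤ M.M (v 0) (v 1)) :
    Cls_q M (Cls_X v Cls_c (k + 1)) ≤ 1 := by
  rw [← Cls_sum k]
  refine Cls_path M v Cls_c Cls_c_nonneg _ (k + 1) h.inj fun i hi => ?_
  by_cases h0 : i = 0
  · subst h0
    rw [if_pos rfl]
    exact cg_anti (by norm_num) h4
  · rw [if_neg h0]
    exact cg_anti (by norm_num) (h.link i hi)

/-- At most one label greater than 3. -/
private theorem ClsP.one {M : CoxeterMatrix (Fin n)} (hf : Finite M.Group) {k : ℕ}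
    {v : ℕ → Fin n} (h : ClsP M (k + 2) v) (h4 : 4 ≤ M.M (v 0) (v 1))
    (h5 : 4 ≤ M.M (v (k + 1)) (v (k + 2))) : False := by
  have e0 : ClsP M (k + 1) v := ⟨fun i j hi hj => h.inj i j (by omega) (by omega),
    fun i hi => h.link i (by omega)⟩
  have e1 := e0.le_one h4
  have hw : ∀ i, i ≤ k + 1 → v i ≠ v (k + 2) := by
    intro i hi h6
    have := h.inj _ _ (by omega) le_rfl h6
    omega
  have e2 := Cls_b_le M v Cls_c Cls_c_nonneg (k + 1) (v (k + 2)) hw
  have e3 := cg_anti (k := 4) (by norm_num) h5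
  rw [cg_four] at e3
  have e4 : Cls_c (k + 1) = √2 := if_neg (by omega)
  have e5 := Cls_q_add M (Cls_X v Cls_c (k + 1)) (v (k + 2)) 1
  have e6 : Cls_X v Cls_c (k + 1) + Pi.single (v (k + 2)) 1 ≠ 0 := by
    intro h3
    have e7 := Cls_X_ne (v := v) Cls_c_nonneg (by unfold Cls_c; norm_num) (k + 1)
    have e8 := congrFun h3 (v 0)
    rw [Pi.add_apply, Pi.single_eq_of_ne (hw 0 (by omega)), add_zero, Pi.zero_apply] at e8
    exact e7.ne' e8
  have e9 := fpos M hf _ e6
  rw [e4] at e2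
  have h2 : √2 * √2 = (2 : ℝ) := Real.mul_self_sqrt (by norm_num)
  have e10 : √2 * cg (M.M (v (k + 1)) (v (k + 2))) ≤ √2 * (-(√2 / 2)) :=
    mul_le_mul_of_nonneg_left e3 (Real.sqrt_nonneg 2)
  unfold Cls_q at e5 e1
  rw [e5] at e9
  nlinarith

/-- No branching. -/
private theorem ClsP.branch {M : CoxeterMatrix (Fin n)} (hf : Finite M.Group) {k : ℕ}
    {v : ℕ → Fin n} (h : ClsP M (k + 1) v) (h4 : 4 ≤ M.M (v 0) (v 1)) (a b : Fin n)
    (ha : ∀ i, i ≤ k + 1 → v i ≠ a) (hb : ∀ i, i ≤ k + 1 → v i ≠ b) (hab : a ≠ b)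
    (h5 : 3 ≤ M.M (v (k + 1)) a) (h6 : 3 ≤ M.M (v (k + 1)) b) : False := by
  have e1 := h.le_one h4
  have ea := Cls_b_le M v Cls_c Cls_c_nonneg (k + 1) a ha
  have eb := Cls_b_le M v Cls_c Cls_c_nonneg (k + 1) b hb
  have e3 := cg_anti (k := 3) (by norm_num) h5
  have e3' := cg_anti (k := 3) (by norm_num) h6
  rw [cg_three] at e3 e3'
  have e4 : Cls_c (k + 1) = √2 := if_neg (by omega)
  have e5 := Cls_q_add M (Cls_X v Cls_c (k + 1)) a (√2 / 2)
  have e5' := Cls_q_add M (Cls_X v Cls_c (k + 1) + Pi.single a (√2 / 2)) b (√2 / 2)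
  rw [Cls_b_add, Cls_b_single, e5] at e5'
  have e6 : Cls_X v Cls_c (k + 1) + Pi.single a (√2 / 2) + Pi.single b (√2 / 2) ≠ 0 := by
    intro h3
    have e7 := Cls_X_ne (v := v) Cls_c_nonneg (by unfold Cls_c; norm_num) (k + 1)
    have e8 := congrFun h3 (v 0)
    rw [Pi.add_apply, Pi.add_apply, Pi.single_eq_of_ne (ha 0 (by omega)),
      Pi.single_eq_of_ne (hb 0 (by omega)), add_zero, add_zero, Pi.zero_apply] at e8
    exact e7.ne' e8
  have e9 := fpos M hf _ e6
  rw [e4] at ea eb
  have h2 : √2 * √2 = (2 : ℝ) := Real.mul_self_sqrt (by norm_num)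
  have h2' : 0 ≤ √(2 : ℝ) := Real.sqrt_nonneg 2
  have e10 : √2 * cg (M.M (v (k + 1)) a) ≤ √2 * (-(1 / 2)) :=
    mul_le_mul_of_nonneg_left e3 h2'
  have e11 : √2 * cg (M.M (v (k + 1)) b) ≤ √2 * (-(1 / 2)) :=
    mul_le_mul_of_nonneg_left e3' h2'
  have e12 := Cls_cg_nonpos M hab
  have e13 : √2 * Cls_b M (Cls_X v Cls_c (k + 1)) a ≤ √2 * (√2 * (-(1 / 2))) :=
    mul_le_mul_of_nonneg_left (ea.trans e10) h2'
  have e14 : √2 * Cls_b M (Cls_X v Cls_c (k + 1)) b ≤ √2 * (√2 * (-(1 / 2))) :=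
    mul_le_mul_of_nonneg_left (eb.trans e11) h2'
  unfold Cls_q at e5' e1
  rw [e5'] at e9
  nlinarith

/-- A label of at least 6 has no further neighbours. -/
private theorem ClsP.six {M : CoxeterMatrix (Fin n)} (hf : Finite M.Group)
    {v : ℕ → Fin n} (h : ClsP M 2 v) (h6 : 6 ≤ M.M (v 0) (v 1)) : False := by
  refine h.contra hf (fun i => if i = 0 then √3 else if i = 1 then 2 else 1) (fun i => ?_) ?_
    (fun i => if i = 0 then 6 else 3) (fun i hi => ?_) ?_
  · split_ifs
    · exact Real.sqrt_nonneg 3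
    · norm_num
    · norm_num
  · rw [if_pos rfl]
    exact Real.sqrt_pos.2 (by norm_num)
  · by_cases h0 : i = 0
    · subst h0
      rw [if_pos rfl]
      exact ⟨by norm_num, h6⟩
    · rw [if_neg h0]
      exact ⟨by norm_num, h.link i hi⟩
  · have h3 : √3 * √3 = (3 : ℝ) := Real.mul_self_sqrt (by norm_num)
    simp only [Finset.sum_range_succ, Finset.sum_range_zero]
    norm_num [cg_six, cg_three]
    nlinarith

/-- A label 5 is at the end of a path. -/
private theorem ClsP.five {M : CoxeterMatrix (Fin n)} (hf : Finite M.Group)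
    {v : ℕ → Fin n} (h : ClsP M 3 v) (h5 : 5 ≤ M.M (v 1) (v 2)) : False := by
  refine h.contra hf (fun i => if i = 0 then 1 else if i = 1 then 2 else if i = 2 then 2 else 1)
    (fun i => ?_) ?_ (fun i => if i = 1 then 5 else 3) (fun i hi => ?_) ?_
  · split_ifs <;> norm_num
  · norm_num
  · by_cases h0 : i = 1
    · subst h0
      rw [if_pos rfl]
      exact ⟨by norm_num, h5⟩
    · rw [if_neg h0]
      exact ⟨by norm_num, h.link i hi⟩
  · have h3 : (2 : ℝ) ≤ √5 := Real.le_sqrt_of_sq_le (by norm_num)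
    simp only [Finset.sum_range_succ, Finset.sum_range_zero]
    norm_num [cg_five, cg_three]
    linarith

/-- A path with a label 5 has at most four nodes. -/
private theorem ClsP.five' {M : CoxeterMatrix (Fin n)} (hf : Finite M.Group)
    {v : ℕ → Fin n} (h : ClsP M 4 v) (h5 : 5 ≤ M.M (v 0) (v 1)) : False := by
  refine h.contra hf (fun i => if i = 0 then 1 + √5 else if i = 1 then 4 else if i = 2 then 3
      else if i = 3 then 2 else 1)
    (fun i => ?_) ?_ (fun i => if i = 0 then 5 else 3) (fun i hi => ?_) ?_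
  · have := Real.sqrt_nonneg 5
    split_ifs <;> linarith
  · have := Real.sqrt_nonneg 5
    rw [if_pos rfl]
    linarith
  · by_cases h0 : i = 0
    · subst h0
      rw [if_pos rfl]
      exact ⟨by norm_num, h5⟩
    · rw [if_neg h0]
      exact ⟨by norm_num, h.link i hi⟩
  · have h3 : (2 : ℝ) ≤ √5 := Real.le_sqrt_of_sq_le (by norm_num)
    have h4 : √5 * √5 = (5 : ℝ) := Real.mul_self_sqrt (by norm_num)
    simp only [Finset.sum_range_succ, Finset.sum_range_zero]
    norm_num [cg_five, cg_three]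
    nlinarith

/-- The extended diagram of `F_4`. -/
private theorem ClsP.eff {M : CoxeterMatrix (Fin n)} (hf : Finite M.Group)
    {v : ℕ → Fin n} (h : ClsP M 4 v) (h4 : 4 ≤ M.M (v 2) (v 3)) : False := by
  refine h.contra hf (fun i => if i = 0 then 1 else if i = 1 then 2 else if i = 2 then 3
      else if i = 3 then 2 * √2 else √2)
    (fun i => ?_) ?_ (fun i => if i = 2 then 4 else 3) (fun i hi => ?_) ?_
  · have := Real.sqrt_nonneg 2
    split_ifs <;> linarith
  · norm_num
  · by_cases h0 : i = 2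
    · subst h0
      rw [if_pos rfl]
      exact ⟨by norm_num, h4⟩
    · rw [if_neg h0]
      exact ⟨by norm_num, h.link i hi⟩
  · have h4 : √2 * √2 = (2 : ℝ) := Real.mul_self_sqrt (by norm_num)
    simp only [Finset.sum_range_succ, Finset.sum_range_zero]
    norm_num [cg_four, cg_three]
    nlinarith

private theorem ClsP.bound {M : CoxeterMatrix (Fin n)} {k : ℕ} {v : ℕ → Fin n} (h : ClsP M k v) :
    k + 1 ≤ n := by
  have h1 : Function.Injective fun i : Fin (k + 1) => v i := by
    intro i j hij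
    exact Fin.ext (h.inj _ _ (by omega) (by omega) hij)
  have := Fintype.card_le_of_injective _ h1
  rwa [Fintype.card_fin, Fintype.card_fin] at this

private theorem Cls_two {M : CoxeterMatrix (Fin n)} (hf : Finite M.Group) {s t : Fin n}
    (h : s ≠ t) (h3 : ¬ 3 ≤ M.M s t) : M.M s t = 2 := by
  have h0 := fpos_ne_zero M hf s t
  have h1 : M.M s t ≠ 1 := M.off_diagonal s t h
  omega

/-- A maximal path. -/
private theorem Cls_max {M : CoxeterMatrix (Fin n)} (hf : Finite M.Group) {s t : Fin n}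
    (h4 : 4 ≤ M.M s t) : ∃ (k p : ℕ) (v : ℕ → Fin n), ClsP M k v ∧ p < k ∧ v p = s ∧
      v (p + 1) = t ∧ ∀ i, i ≤ k → ∀ u, (∀ j, j ≤ k → v j ≠ u) → M.M (v i) u = 2 := by
  let S : Set ℕ := {k | ∃ (p : ℕ) (v : ℕ → Fin n), ClsP M k v ∧ p < k ∧ v p = s ∧ v (p + 1) = t}
  have hst : s ≠ t := by
    intro h
    rw [h, M.diagonal] at h4
    omega
  have hne : S.Nonempty := by
    refine ⟨1, 0, fun i => if i = 0 then s else t, ⟨?_, ?_⟩, by omega, rfl, rfl⟩
    · intro i j hi hj hij
      by_cases h0 : i = 0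
      · by_cases h1 : j = 0
        · omega
        · rw [if_pos h0, if_neg h1] at hij
          exact absurd hij hst
      · by_cases h1 : j = 0
        · rw [if_neg h0, if_pos h1] at hij
          exact absurd hij.symm hst
        · omega
    · intro i hi
      have : i = 0 := by omega
      subst this
      exact (by norm_num : 3 ≤ 4).trans h4
  have hbd : BddAbove S := ⟨n, fun k ⟨p, v, h, _⟩ => by
    have := h.bound
    omega⟩
  obtain ⟨p, v, hv, hp, hs, ht⟩ := Nat.sSup_mem hne hbd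
  have hmax : ∀ k ∈ S, k ≤ sSup S := fun k hk => le_csSup hbd hk
  generalize sSup S = k at hv hp hmax
  refine ⟨k, p, v, hv, hp, hs, ht, fun i hi u hu => ?_⟩
  refine Cls_two hf (hu i hi) fun h3 => ?_
  by_cases hik : i = k
  · subst hik
    have h5 : i + 1 ∈ S := by
      refine ⟨p, fun j => if j ≤ i then v j else u, ⟨?_, ?_⟩, by omega, ?_, ?_⟩
      · intro a b ha hb hab
        by_cases h6 : a ≤ i
        · by_cases h7 : b ≤ i
          · rw [if_pos h6, if_pos h7] at hab
            exact hv.inj a b h6 h7 hab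
          · rw [if_pos h6, if_neg h7] at hab
            exact absurd hab (hu a h6)
        · by_cases h7 : b ≤ i
          · rw [if_neg h6, if_pos h7] at hab
            exact absurd hab.symm (hu b h7)
          · omega
      · intro a ha
        rw [if_pos (by omega)]
        by_cases h6 : a + 1 ≤ i
        · rw [if_pos h6]
          exact hv.link a (by omega)
        · rw [if_neg h6]
          have : a = i := by omega
          rw [this]
          exact h3
      · beta_reduce
        rw [if_pos (by omega)]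
        exact hs
      · beta_reduce
        rw [if_pos (by omega)]
        exact ht
    have := hmax _ h5
    omega
  by_cases hi0 : i = 0
  · subst hi0
    have h5 : k + 1 ∈ S := by
      refine ⟨p + 1, fun j => if j = 0 then u else v (j - 1), ⟨?_, ?_⟩, by omega, ?_, ?_⟩
      · intro a b ha hb hab
        by_cases h6 : a = 0
        · by_cases h7 : b = 0
          · omega
          · rw [if_pos h6, if_neg h7] at hab
            exact absurd hab.symm (hu _ (by omega))
        · by_cases h7 : b = 0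
          · rw [if_neg h6, if_pos h7] at hab
            exact absurd hab (hu _ (by omega))
          · rw [if_neg h6, if_neg h7] at hab
            have := hv.inj _ _ (by omega) (by omega) hab
            omega
      · intro a ha
        rw [if_neg (by omega : ¬ a + 1 = 0), Nat.add_sub_cancel]
        by_cases h6 : a = 0
        · rw [if_pos h6, h6, M.symmetric]
          exact h3
        · rw [if_neg h6]
          have h7 := hv.link (a - 1) (by omega)
          rw [show a - 1 + 1 = a by omega] at h7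
          exact h7
      · beta_reduce
        rw [if_neg (by omega), Nat.add_sub_cancel]
        exact hs
      · beta_reduce
        rw [if_neg (by omega), Nat.add_sub_cancel]
        exact ht
    have := hmax _ h5
    omega
  by_cases hip : p + 1 ≤ i
  · obtain ⟨l, rfl⟩ : ∃ l, i = p + (l + 1) := ⟨i - p - 1, by omega⟩
    have h5 := hv.shift p (l + 1) (by omega)
    refine ClsP.branch hf h5 ?_ (v (p + (l + 1) + 1)) u ?_ ?_ ?_ ?_ ?_
    · rw [add_zero, hs, ht]
      exact h4
    · intro a ha h6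
      have := hv.inj _ _ (by omega) (by omega) h6
      omega
    · intro a ha
      exact hu _ (by omega)
    · exact hu _ (by omega)
    · exact hv.link _ (by omega)
    · exact h3
  · obtain ⟨l, hl⟩ : ∃ l, p + 1 = i + (l + 1) := ⟨p - i, by omega⟩
    have h5 := (hv.rev (p + 1) (by omega))
    have h6 := h5.shift 0 (l + 1) (by omega)
    refine ClsP.branch hf h6 ?_ (v (i - 1)) u ?_ ?_ ?_ ?_ ?_
    · rw [show p + 1 - (0 + 0) = p + 1 by omega, show p + 1 - (0 + 1) = p by omega, hs, ht,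
        M.symmetric]
      exact h4
    · intro a ha h7
      have := hv.inj _ _ (by omega) (by omega) h7
      omega
    · intro a ha
      exact hu _ (by omega)
    · exact hu _ (by omega)
    · rw [show p + 1 - (0 + (l + 1)) = i by omega, M.symmetric]
      have h8 := hv.link (i - 1) (by omega)
      rw [show i - 1 + 1 = i by omega] at h8
      exact h8
    · rw [show p + 1 - (0 + (l + 1)) = i by omega]
      exact h3

/-- The labels of a path with one special edge. -/
def labP (p m i j : ℕ) : ℕ :=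
  if i = j then 1 else if (i = p ∧ j = p + 1) ∨ (i = p + 1 ∧ j = p) then m
    else if i + 1 = j ∨ j + 1 = i then 3 else 2

/-- The labels along the maximal path. -/
private theorem Cls_lab {M : CoxeterMatrix (Fin n)} (hf : Finite M.Group) {s t : Fin n}
    (h4 : 4 ≤ M.M s t) {k p : ℕ} {v : ℕ → Fin n} (hv : ClsP M k v) (hp : p < k) (hs : v p = s)
    (ht : v (p + 1) = t) : ∀ i j, i ≤ k → j ≤ k → M.M (v i) (v j) = labP p (M.M s t) i j := by
  have hchord : ∀ i j, i + 2 ≤ j → j ≤ k → M.M (v i) (v j) = 2 := by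
    intro i j hij hj
    refine Cls_two hf (fun h => ?_) fun h3 => ?_
    · have := hv.inj i j (by omega) hj h
      omega
    · obtain ⟨l, rfl⟩ : ∃ l, j = i + (l + 1) + 1 := ⟨j - i - 2, by omega⟩
      refine ClsP.acyc hf (hv.shift i (l + 1) (by omega)) (v (i + (l + 1) + 1)) ?_ ?_ ?_
      · intro a ha h5
        have := hv.inj _ _ (by omega) (by omega) h5
        omega
      · exact h3
      · exact hv.link _ (by omega)
  have hthree : ∀ i, i < k → i ≠ p → M.M (v i) (v (i + 1)) = 3 := by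
    intro i hi hip
    by_contra h3
    have h5 := hv.link i hi
    have h6 : 4 ≤ M.M (v i) (v (i + 1)) := by omega
    rcases lt_or_gt_of_ne hip with h7 | h7
    · obtain ⟨l, rfl⟩ : ∃ l, p = i + (l + 1) := ⟨p - i - 1, by omega⟩
      refine ClsP.one hf (hv.shift i (l + 2) (by omega)) h6 ?_
      rw [show i + (l + 2) = i + (l + 1) + 1 by omega, hs, ht]
      exact h4
    · obtain ⟨l, rfl⟩ : ∃ l, i = p + (l + 1) := ⟨i - p - 1, by omega⟩
      refine ClsP.one hf (hv.shift p (l + 2) (by omega)) ?_ ?_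
      · rw [add_zero, hs, ht]
        exact h4
      · exact h6
  have hlt : ∀ i j, i < j → j ≤ k → M.M (v i) (v j) = labP p (M.M s t) i j := by
    intro i j hij hj
    unfold labP
    rw [if_neg hij.ne]
    by_cases h5 : i + 1 = j
    · subst h5
      by_cases h6 : i = p
      · subst h6
        rw [if_pos (Or.inl ⟨rfl, rfl⟩), hs, ht]
      · rw [if_neg (by omega), if_pos (Or.inl rfl)]
        exact hthree i (by omega) h6
    · rw [if_neg (by omega), if_neg (by omega)]
      exact hchord i j (by omega) hj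
  have hsym : ∀ i j, labP p (M.M s t) i j = labP p (M.M s t) j i := by
    intro i j
    unfold labP
    by_cases h5 : i = j
    · rw [if_pos h5, if_pos h5.symm]
    · rw [if_neg h5, if_neg (Ne.symm h5)]
      have h6 : ((i = p ∧ j = p + 1) ∨ (i = p + 1 ∧ j = p)) ↔
          ((j = p ∧ i = p + 1) ∨ (j = p + 1 ∧ i = p)) := by tauto
      have h7 : (i + 1 = j ∨ j + 1 = i) ↔ (j + 1 = i ∨ i + 1 = j) := or_comm
      simp only [h6, h7]
  intro i j hi hj
  rcases lt_trichotomy i j with h5 | h5 | h5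
  · exact hlt i j h5 hj
  · subst h5
    unfold labP
    rw [if_pos rfl, M.diagonal]
  · rw [M.symmetric, hsym]
    exact hlt j i h5 hi

private theorem Cls_types {M : CoxeterMatrix (Fin n)} (hf : Finite M.Group) {s t : Fin n}
    (h4 : 4 ≤ M.M s t) {k p : ℕ} {v : ℕ → Fin n} (hv : ClsP M k v) (hp : p < k) (hs : v p = s)
    (ht : v (p + 1) = t) :
    k = 1 ∨ (M.M s t = 4 ∧ (p = 0 ∨ p + 1 = k)) ∨ (M.M s t = 4 ∧ k = 3 ∧ p = 1) ∨
      (M.M s t = 5 ∧ k ≤ 3 ∧ (p = 0 ∨ p + 1 = k)) := by
  by_cases hk : k = 1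
  · exact Or.inl hk
  have h5 : M.M s t < 6 := by
    by_contra h6
    by_cases h7 : p + 1 = k
    · have h8 := (hv.rev (p + 1) (by omega)).shift 0 2 (by omega)
      refine ClsP.six hf h8 ?_
      rw [show p + 1 - (0 + 0) = p + 1 by omega, show p + 1 - (0 + 1) = p by omega, hs, ht,
        M.symmetric]
      omega
    · refine ClsP.six hf (hv.shift p 2 (by omega)) ?_
      rw [add_zero, hs, ht]
      omega
  have h9 : M.M s t = 4 ∨ M.M s t = 5 := by omega
  rcases h9 with h9 | h9
  · by_cases h10 : p = 0 ∨ p + 1 = k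
    · exact Or.inr (Or.inl ⟨h9, h10⟩)
    · refine Or.inr (Or.inr (Or.inl ⟨h9, ?_⟩))
      by_contra h11
      by_cases h12 : p + 3 ≤ k
      · have h8 := (hv.rev (p + 3) h12).shift 0 4 (by omega)
        refine ClsP.eff hf h8 ?_
        rw [show p + 3 - (0 + 2) = p + 1 by omega, show p + 3 - (0 + 3) = p by omega, hs, ht,
          M.symmetric]
        exact h4
      · have h8 := hv.shift (p - 2) 4 (by omega)
        refine ClsP.eff hf h8 ?_
        rw [show p - 2 + 2 = p by omega, show p - 2 + 3 = p + 1 by omega, hs, ht]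
        exact h4
  · have h10 : p = 0 ∨ p + 1 = k := by
      by_contra h11
      have h8 := hv.shift (p - 1) 3 (by omega)
      refine ClsP.five hf h8 ?_
      rw [show p - 1 + 1 = p by omega, show p - 1 + 2 = p + 1 by omega, hs, ht]
      omega
    refine Or.inr (Or.inr (Or.inr ⟨h9, ?_, h10⟩))
    by_contra h11
    rcases h10 with h10 | h10
    · subst h10
      refine ClsP.five' hf (hv.shift 0 4 (by omega)) ?_
      rw [show 0 + 0 = 0 by omega, hs, ht]
      omega
    · have h8 := (hv.rev (p + 1) (by omega)).shift 0 4 (by omega)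
      refine ClsP.five' hf h8 ?_
      rw [show p + 1 - (0 + 0) = p + 1 by omega, show p + 1 - (0 + 1) = p by omega, hs, ht,
        M.symmetric]
      omega

end Cls

/-- **The paths.** In a finite Coxeter group an edge `s, t` with a label `m ≥ 4` lies in a component
which is a path `v 0, …, v k` of one of the types `I_2 (m)`, `B_(k+1)` or `H_3`, `H_4` (special edge
`k - 1, k` with the label `m`), `F_4`. -/
theorem cls_path {n : ℕ} (M : CoxeterMatrix (Fin n)) (hf : Finite M.Group) (s t : Fin n)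
    (h4 : 4 ≤ M.M s t) : ∃ (k p : ℕ) (v : ℕ → Fin n), 1 ≤ k ∧ (∃ i, i ≤ k ∧ v i = s) ∧
      (∀ i j, i ≤ k → j ≤ k → v i = v j → i = j) ∧
      (∀ i, i ≤ k → ∀ u, (∀ j, j ≤ k → v j ≠ u) → M.M (v i) u = 2) ∧
      (∀ i j, i ≤ k → j ≤ k → M.M (v i) (v j) = labP p (M.M s t) i j) ∧
      ((p + 1 = k ∧ (k = 1 ∨ M.M s t = 4 ∨ (M.M s t = 5 ∧ k ≤ 3))) ∨
        (k = 3 ∧ p = 1 ∧ M.M s t = 4)) := by
  obtain ⟨k, p, v, hv, hp, hs, ht, hcl⟩ := Cls_max hf h4
  have hlab := Cls_lab hf h4 hv hp hs ht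
  have htyp := Cls_types hf h4 hv hp hs ht
  by_cases h1 : p + 1 = k
  · exact ⟨k, p, v, by omega, ⟨p, by omega, hs⟩, hv.inj, hcl, hlab, by omega⟩
  by_cases h2 : k = 3 ∧ p = 1 ∧ M.M s t = 4
  · exact ⟨k, p, v, by omega, ⟨p, by omega, hs⟩, hv.inj, hcl, hlab, Or.inr h2⟩
  have h3 : p = 0 := by omega
  subst h3
  refine ⟨k, k - 1, fun i => v (k - i), by omega, ⟨k, le_rfl, ?_⟩, ?_, ?_, ?_, ?_⟩
  · beta_reduce
    rw [Nat.sub_self, hs]
  · intro i j hi hj hij
    have := hv.inj _ _ (by omega) (by omega) hij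
    omega
  · intro i hi u hu
    refine hcl (k - i) (by omega) u fun j hj => ?_
    have := hu (k - j) (by omega)
    beta_reduce at this
    rwa [show k - (k - j) = j by omega] at this
  · intro i j hi hj
    rw [hlab (k - i) (k - j) (by omega) (by omega)]
    unfold labP
    have e1 : k - i = k - j ↔ i = j := by omega
    have e2 : (k - i = 0 ∧ k - j = 0 + 1 ∨ k - i = 0 + 1 ∧ k - j = 0) ↔
        (i = k - 1 ∧ j = k - 1 + 1 ∨ i = k - 1 + 1 ∧ j = k - 1) := by omega
    have e3 : (k - i + 1 = k - j ∨ k - j + 1 = k - i) ↔ (i + 1 = j ∨ j + 1 = i) := by omega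
    simp only [e1, e2, e3]
  · refine Or.inl ⟨by omega, ?_⟩
    omega

/-- Two different nodes are linked. -/
def lnk {n : ℕ} (M : CoxeterMatrix (Fin n)) (i j : Fin n) : Prop := i ≠ j ∧ M.M i j ≠ 2

open Classical in
/-- The component of `s`. -/
noncomputable def cm {n : ℕ} (M : CoxeterMatrix (Fin n)) (s : Fin n) : Finset (Fin n) :=
  Finset.univ.filter fun t => Relation.ReflTransGen (lnk M) s t

theorem mem_cm {n : ℕ} {M : CoxeterMatrix (Fin n)} {s t : Fin n} :
    t ∈ cm M s ↔ Relation.ReflTransGen (lnk M) s t := by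
  unfold cm
  simp only [Finset.mem_filter, Finset.mem_univ, true_and]

theorem lnk_symm {n : ℕ} {M : CoxeterMatrix (Fin n)} {i j : Fin n} (h : lnk M i j) :
    lnk M j i := ⟨h.1.symm, by rw [M.symmetric]; exact h.2⟩

theorem cm_symm {n : ℕ} {M : CoxeterMatrix (Fin n)} {s t : Fin n} (h : t ∈ cm M s) :
    s ∈ cm M t := by
  rw [mem_cm] at h ⊢
  induction h with
  | refl => exact Relation.ReflTransGen.refl
  | tail _ h ih => exact Relation.ReflTransGen.head (lnk_symm h) ih

theorem cm_trans {n : ℕ} {M : CoxeterMatrix (Fin n)} {s t u : Fin n} (h : t ∈ cm M s)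
    (h' : u ∈ cm M t) : u ∈ cm M s := by
  rw [mem_cm] at h h' ⊢
  exact h.trans h'

/-- The component of an element of the path is the path. -/
private theorem Cls_cm {n : ℕ} {M : CoxeterMatrix (Fin n)} {k : ℕ} {v : ℕ → Fin n} {p m : ℕ}
    (hm : 4 ≤ m) (hinj : ∀ i j, i ≤ k → j ≤ k → v i = v j → i = j)
    (hcl : ∀ i, i ≤ k → ∀ u, (∀ j, j ≤ k → v j ≠ u) → M.M (v i) u = 2)
    (hlab : ∀ i j, i ≤ k → j ≤ k → M.M (v i) (v j) = labP p m i j) {i₀ : ℕ} (hi₀ : i₀ ≤ k)
    (t : Fin n) : t ∈ cm M (v i₀) ↔ ∃ i, i ≤ k ∧ v i = t := by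
  constructor
  · intro h
    rw [mem_cm] at h
    induction h with
    | refl => exact ⟨i₀, hi₀, rfl⟩
    | tail _ h ih =>
      obtain ⟨i, hi, rfl⟩ := ih
      by_contra h1
      refine h.2 (hcl i hi _ fun j hj h2 => h1 ⟨j, hj, h2⟩)
  · have hstep : ∀ i, i < k → lnk M (v i) (v (i + 1)) := by
      intro i hi
      refine ⟨fun h => ?_, ?_⟩
      · have := hinj _ _ hi.le hi h
        omega
      · rw [hlab i (i + 1) hi.le hi]
        unfold labP
        rw [if_neg (by omega)]
        split_ifs with h1 h2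
        · omega
        · norm_num
        · exact absurd (Or.inl rfl) h2
    have h0 : ∀ i, i ≤ k → v i ∈ cm M (v 0) := by
      intro i
      induction i with
      | zero =>
        intro _
        rw [mem_cm]
      | succ i ih =>
        intro hi
        have h1 := ih (by omega)
        rw [mem_cm] at h1 ⊢
        exact h1.tail (hstep i (by omega))
    rintro ⟨i, hi, rfl⟩
    exact cm_trans (cm_symm (h0 i₀ hi₀)) (h0 i hi)

/-- **Classification.** A component of a finite Coxeter group is simply laced or one of the types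
`I_2 (m)`, `B_k`, `F_4`, `H_3`, `H_4`. -/
theorem cls {n : ℕ} (M : CoxeterMatrix (Fin n)) (hf : Finite M.Group) (s : Fin n) :
    (∀ i ∈ cm M s, ∀ j ∈ cm M s, i ≠ j → M.M i j = 2 ∨ M.M i j = 3) ∨
    (∃ m, 4 ≤ m ∧ ∃ e : Fin 2 ≃ {i // i ∈ cm M s},
      ∀ i j, M.M (e i) (e j) = if i = j then 1 else m) ∨
    (∃ k, 3 ≤ k ∧ ∃ e : Fin k ≃ {i // i ∈ cm M s},
      ∀ i j, M.M (e i) (e j) = (CoxeterMatrix.B k).M i j) ∨
    (∃ e : Fin 4 ≃ {i // i ∈ cm M s}, ∀ i j, M.M (e i) (e j) = CoxeterMatrix.F₄.M i j) ∨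
    (∃ e : Fin 3 ≃ {i // i ∈ cm M s}, ∀ i j, M.M (e i) (e j) = CoxeterMatrix.H₃.M i j) ∨
    (∃ e : Fin 4 ≃ {i // i ∈ cm M s}, ∀ i j, M.M (e i) (e j) = CoxeterMatrix.H₄.M i j) := by
  by_cases h : ∀ i ∈ cm M s, ∀ j ∈ cm M s, i ≠ j → M.M i j = 2 ∨ M.M i j = 3
  · exact Or.inl h
  refine Or.inr ?_
  push Not at h
  obtain ⟨a, ha, b, hb, hab, h2, h3⟩ := h
  have h4 : 4 ≤ M.M a b := by
    have h0 := fpos_ne_zero M hf a b
    have h1 : M.M a b ≠ 1 := M.off_diagonal a b hab
    omega
  obtain ⟨k, p, v, hk, ⟨i₀, hi₀, hv⟩, hinj, hcl, hlab, htyp⟩ := cls_path M hf a b h4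
  have hmem : ∀ t, t ∈ cm M s ↔ ∃ i, i ≤ k ∧ v i = t := by
    intro t
    rw [← Cls_cm h4 hinj hcl hlab hi₀ t, hv]
    exact ⟨fun h => cm_trans (cm_symm ha) h, fun h => cm_trans ha h⟩
  let e : Fin (k + 1) ≃ {i // i ∈ cm M s} := Equiv.ofBijective
    (fun i => ⟨v i, (hmem _).2 ⟨i, by omega, rfl⟩⟩)
    ⟨fun i j hij => Fin.ext (hinj i j (by omega) (by omega) (congrArg Subtype.val hij)),
      fun x => by
        obtain ⟨i, hi, h⟩ := (hmem x.1).1 x.2
        exact ⟨⟨i, by omega⟩, Subtype.ext h⟩⟩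
  have he : ∀ i j : Fin (k + 1), M.M (e i) (e j) = labP p (M.M a b) i j :=
    fun i j => hlab i j (by omega) (by omega)
  clear_value e
  generalize M.M a b = m at *
  rcases htyp with ⟨hpk, htyp⟩ | ⟨rfl, rfl, rfl⟩
  · rcases htyp with rfl | rfl | ⟨rfl, hk3⟩
    · refine Or.inl ⟨m, h4, e, fun i j => ?_⟩
      have : p = 0 := by omega
      subst this
      rw [he]
      fin_cases i <;> fin_cases j <;> rfl
    · by_cases hk1 : k = 1
      · subst hk1
        refine Or.inl ⟨4, le_rfl, e, fun i j => ?_⟩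
        have : p = 0 := by omega
        subst this
        rw [he]
        fin_cases i <;> fin_cases j <;> rfl
      · refine Or.inr (Or.inl ⟨k + 1, by omega, e, fun i j => ?_⟩)
        rw [he]
        change labP p 4 i j = if i = j then 1 else
          (if (i : ℕ) = k + 1 - 1 ∧ (j : ℕ) = k + 1 - 2 ∨ (j : ℕ) = k + 1 - 1 ∧ (i : ℕ) = k + 1 - 2
            then 4 else (if (j : ℕ) + 1 = i ∨ (i : ℕ) + 1 = j then 3 else 2))
        unfold labP
        have e1 : ((i : ℕ) = (j : ℕ)) ↔ i = j := Fin.ext_iff.symm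
        have e2 : ((i : ℕ) = p ∧ (j : ℕ) = p + 1 ∨ (i : ℕ) = p + 1 ∧ (j : ℕ) = p) ↔
            ((i : ℕ) = k + 1 - 1 ∧ (j : ℕ) = k + 1 - 2 ∨
              (j : ℕ) = k + 1 - 1 ∧ (i : ℕ) = k + 1 - 2) := by omega
        have e3 : ((i : ℕ) + 1 = j ∨ (j : ℕ) + 1 = i) ↔ ((j : ℕ) + 1 = i ∨ (i : ℕ) + 1 = j) :=
          or_comm
        simp only [e1, e2, e3]
    · have hk4 : k = 1 ∨ k = 2 ∨ k = 3 := by omega
      rcases hk4 with rfl | rfl | rfl
      · refine Or.inl ⟨5, h4, e, fun i j => ?_⟩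
        have : p = 0 := by omega
        subst this
        rw [he]
        fin_cases i <;> fin_cases j <;> rfl
      · have : p = 1 := by omega
        subst this
        refine Or.inr (Or.inr (Or.inr (Or.inl ⟨e, fun i j => ?_⟩)))
        rw [he]
        fin_cases i <;> fin_cases j <;> rfl
      · have : p = 2 := by omega
        subst this
        refine Or.inr (Or.inr (Or.inr (Or.inr ⟨e, fun i j => ?_⟩)))
        rw [he]
        fin_cases i <;> fin_cases j <;> rfl
  · refine Or.inr (Or.inr (Or.inl ⟨e, fun i j => ?_⟩))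
    rw [he]
    fin_cases i <;> fin_cases j <;> rfl

end Pool.Agent.Lib.MP_97567f_al
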