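import Pool.Agent.Lib.MP_97567f_al.SpecD

/-!
# MP_97567f_al: eigenvectors of the generators
-/

set_option autoImplicit false

namespace Pool.Agent.Lib.MP_97567f_al

private theorem D1_conj {n : ℕ} {M : CoxeterMatrix (Fin n)} {s t : Fin n}
    (h : Relation.ReflTransGen (adj M) s t) : ∃ x : Art M, x * gn M s = gn M t * x := by
  induction h with
  | refl => exact ⟨1, by rw [one_mul, mul_one]⟩
  | @tail t u _ h ih =>
    obtain ⟨x, hx⟩ := ih
    refine ⟨gn M t * gn M u * x, ?_⟩
    have h1 := art_braid h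
    rw [mul_assoc, hx, ← mul_assoc (gn M t * gn M u), h1]
    simp only [mul_assoc]

section mat

variable {ι R S A : Type} [Fintype ι] [DecidableEq ι] [CommRing R] [CommRing S] [Group A]

private theorem D1_mm (ρ : A →* GL ι R) (f : R →+* S) (x y : A) (v : ι → S) :
    ((ρ x).1.map f).mulVec (((ρ y).1.map f).mulVec v) = ((ρ (x * y)).1.map f).mulVec v := by
  rw [Matrix.mulVec_mulVec, map_mul, Units.val_mul, Matrix.map_mul]

private theorem D1_one (ρ : A →* GL ι R) (f : R →+* S) (v : ι → S) :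
    ((ρ 1).1.map f).mulVec v = v := by
  rw [map_one, Units.val_one, Matrix.map_one f (map_zero f) (map_one f), Matrix.one_mulVec]

private theorem D1_map (G : Matrix ι ι R) (f : R →+* S) (v : ι → R) :
    (G.map f).mulVec (fun i => f (v i)) = fun i => f (G.mulVec v i) := by
  funext i
  exact (RingHom.map_mulVec f G v i).symm

private theorem D1_mv (ρ : A →* GL ι R) (x y : A) (v : ι → R) :
    (ρ x).1.mulVec ((ρ y).1.mulVec v) = (ρ (x * y)).1.mulVec v := by
  rw [Matrix.mulVec_mulVec, map_mul, Units.val_mul]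

end mat

theorem pD1 (h1 : SLkA) (h2 : SLkQ) (_ : SLKr) (h4 : SVEig) : SD1 := by
  intro n M hSL hRF hFH C hSat hConn hne F _ _ O q l hG ρ hρ
  obtain ⟨s0, hs0⟩ := hne
  obtain ⟨-, -, -, hA4, hA5⟩ := h1 n M hRF C
  obtain ⟨hA5, -, -, -⟩ := hA5 (IsLocalRing.ResidueField O) q l
  obtain ⟨hQ, -⟩ := h2 n M hRF C hSat (IsLocalRing.ResidueField O) q l
  have hxv : ∀ s ∈ C, xv M C (R := IsLocalRing.ResidueField O) (e s) ≠ 0 := by
    intro s hs h
    have h5 := congrFun h ⟨e s, (hA4 s).2 hs⟩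
    unfold xv at h5
    rw [if_pos rfl] at h5
    exact one_ne_zero h5
  have hne : (l - 1) * (l + q) ≠ 0 := by
    refine mul_ne_zero (sub_ne_zero.2 hG.l1) fun h => hG.lq ?_
    exact eq_neg_of_add_eq_zero_left h
  -- the eigenspaces of the reduction
  have hred : ∀ s ∈ C, ∀ x : PR M C → IsLocalRing.ResidueField O,
      (lk M C q l s).mulVec x = l • x → ∃ c : IsLocalRing.ResidueField O,
        x = c • xv M C (e s) := by
    intro s hs x hx
    obtain ⟨f, -, hf⟩ := hQ s hs
    have h5 := hf x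
    rw [← Matrix.mulVec_mulVec, Matrix.add_mulVec, Matrix.smul_mulVec, Matrix.one_mulVec, hx,
      ← add_smul, Matrix.mulVec_smul, Matrix.sub_mulVec, Matrix.one_mulVec, hx] at h5
    refine ⟨((l - 1) * (l + q))⁻¹ * f x, ?_⟩
    have h6 : ((l - 1) * (l + q)) • x = f x • xv M C (e s) := by
      rw [← h5, mul_comm, mul_smul, sub_smul, one_smul]
    rw [mul_smul, ← h6, smul_smul, inv_mul_cancel₀ hne, one_smul]
  obtain ⟨l', v0, hl', hv0, hE0, hS0⟩ := h4 F O (PR M C) (ρ (gn M s0)).1 l
    (xv M C (e s0)) (hxv s0 hs0) (by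
      rw [hρ s0, hA5 s0 (e s0) ((hA4 s0).2 hs0)]
      unfold img
      rw [if_pos rfl]) (by
      intro x hx
      rw [hρ s0] at hx
      exact hred s0 hs0 x hx)
  have key : ∀ t, ∃ vt : PR M C → O, t ∈ C →
      (∀ b, IsLocalRing.residue O (vt b) = xv M C (e t) b) ∧
      (ρ (gn M t)).1.mulVec vt = l' • vt ∧
      ∀ x : PR M C → F, ((ρ (gn M t)).1.map (algebraMap O F)).mulVec x = (l' : F) • x →
        ∃ c : F, x = fun b => c * (vt b : F) := by
    intro t
    by_cases ht : t ∈ C
    swap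
    · exact ⟨0, fun h => absurd h ht⟩
    obtain ⟨x, hx⟩ := D1_conj (hConn s0 hs0 t ht)
    set v' : PR M C → O := (ρ x).1.mulVec v0 with hv'
    have hev' : (ρ (gn M t)).1.mulVec v' = l' • v' := by
      rw [hv', D1_mv, ← hx, ← D1_mv, hE0, Matrix.mulVec_smul]
    have hr : (lk M C q l t).mulVec (fun b => IsLocalRing.residue O (v' b)) =
        l • fun b => IsLocalRing.residue O (v' b) := by
      rw [← hρ t, D1_map, hev']
      funext b
      rw [Pi.smul_apply, Pi.smul_apply, smul_eq_mul, smul_eq_mul, map_mul, hl']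
    obtain ⟨c, hc⟩ := hred t ht _ hr
    have hc0 : c ≠ 0 := by
      rintro rfl
      rw [zero_smul] at hc
      have h5 : (fun b => IsLocalRing.residue O (v0 b)) =
          ((ρ x⁻¹).1.map (IsLocalRing.residue O)).mulVec
            (fun b => IsLocalRing.residue O (v' b)) := by
        rw [hv', ← D1_map, D1_mm, inv_mul_cancel, D1_one]
      rw [hc, Matrix.mulVec_zero] at h5
      refine hxv s0 hs0 ?_
      rw [← h5]
      funext b
      exact (hv0 b).symm
    obtain ⟨c', hc'⟩ := IsLocalRing.residue_surjective c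
    have hu : IsUnit c' := by
      rw [← IsLocalRing.residue_ne_zero_iff_isUnit, hc']
      exact hc0
    obtain ⟨u, hu⟩ := hu
    refine ⟨(↑u⁻¹ : O) • v', fun _ => ⟨fun b => ?_, ?_, fun y hy => ?_⟩⟩
    · have h5 := congrFun hc b
      rw [Pi.smul_apply, smul_eq_mul] at h5
      rw [Pi.smul_apply, smul_eq_mul, map_mul, h5, ← mul_assoc, ← hc', ← hu, ← map_mul,
        Units.inv_mul, map_one, one_mul]
    · rw [Matrix.mulVec_smul, hev', smul_comm]
    · obtain ⟨c₁, hc₁⟩ := hS0 (((ρ x⁻¹).1.map (algebraMap O F)).mulVec y) (by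
        have h6 : gn M s0 * x⁻¹ = x⁻¹ * gn M t := by
          rw [eq_inv_mul_iff_mul_eq, ← mul_assoc, hx, mul_assoc, mul_inv_cancel, mul_one]
        rw [D1_mm, h6, ← D1_mm, hy, Matrix.mulVec_smul])
      have h7 : y = ((ρ x).1.map (algebraMap O F)).mulVec
          (((ρ x⁻¹).1.map (algebraMap O F)).mulVec y) := by
        rw [D1_mm, mul_inv_cancel, D1_one]
      refine ⟨c₁ * (c' : F), ?_⟩
      have h8 : (fun i => c₁ * (v0 i : F)) = c₁ • fun i => algebraMap O F (v0 i) := rfl
      rw [h7, hc₁, h8, Matrix.mulVec_smul, D1_map]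
      funext b
      rw [Pi.smul_apply, Pi.smul_apply, smul_eq_mul, smul_eq_mul, mul_assoc]
      congr 1
      have h9 : v' b = c' * ((↑u⁻¹ : O) * v' b) := by
        rw [← mul_assoc, ← hu, Units.mul_inv, one_mul]
      have h10 := congrArg (algebraMap O F) h9
      rw [map_mul] at h10
      exact h10
  choose v hv using key
  exact ⟨l', v, hl', fun s hs => (hv s hs).1, fun s hs => (hv s hs).2.1,
    fun s hs => (hv s hs).2.2⟩

end Pool.Agent.Lib.MP_97567f_al
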