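import Mathlib

/-!
# MP_97567f_al: a finite Coxeter group has a positive definite form

`cg m = - cos (π / m)` for `m ≥ 1` and `cg 0 = -1`, the entries of the Gram matrix.
-/

set_option autoImplicit false

namespace Pool.Agent.Lib.MP_97567f_al

/-- The entry of the Gram matrix for the label `m` (`0` stands for infinity). -/
noncomputable def cg (m : ℕ) : ℝ := if m = 0 then -1 else -Real.cos (Real.pi / m)

theorem cg_zero : cg 0 = -1 := if_pos rfl

theorem cg_pos {m : ℕ} (h : m ≠ 0) : cg m = -Real.cos (Real.pi / m) := if_neg h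

theorem cg_one : cg 1 = 1 := by
  rw [cg_pos one_ne_zero, Nat.cast_one, div_one, Real.cos_pi, neg_neg]

theorem cg_two : cg 2 = 0 := by
  rw [cg_pos two_ne_zero, Nat.cast_two, Real.cos_pi_div_two, neg_zero]

theorem cg_three : cg 3 = -(1 / 2) := by
  rw [cg_pos three_ne_zero]
  norm_num [Real.cos_pi_div_three]

theorem cg_four : cg 4 = -(√2 / 2) := by
  rw [cg_pos four_ne_zero]
  norm_num [Real.cos_pi_div_four]

theorem cg_five : cg 5 = -((1 + √5) / 4) := by
  rw [cg_pos (by norm_num)]
  norm_num [Real.cos_pi_div_five]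

theorem cg_six : cg 6 = -(√3 / 2) := by
  rw [cg_pos (by norm_num)]
  norm_num [Real.cos_pi_div_six]

/-- The entries decrease with the label. -/
theorem cg_anti {k m : ℕ} (hk : 1 ≤ k) (h : k ≤ m) : cg m ≤ cg k := by
  have hk0 : (0 : ℝ) < k := by exact_mod_cast hk
  have hm0 : (0 : ℝ) < m := by exact_mod_cast hk.trans h
  have hkm : (k : ℝ) ≤ m := by exact_mod_cast h
  rw [cg_pos (by omega), cg_pos (by omega), neg_le_neg_iff]
  refine Real.cos_le_cos_of_nonneg_of_le_pi ?_ ?_ ?_
  · exact div_nonneg Real.pi_pos.le hm0.le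
  · rw [div_le_iff₀ hk0]
    have : (1 : ℝ) ≤ k := by exact_mod_cast hk
    nlinarith [Real.pi_pos]
  · exact div_le_div_of_nonneg_left Real.pi_pos.le hk0 hkm

/-- The entry for the label infinity is the smallest one. -/
theorem cg_ge (m : ℕ) : -1 ≤ cg m := by
  by_cases h : m = 0
  · rw [h, cg_zero]
  · rw [cg_pos h, neg_le_neg_iff]
    exact Real.cos_le_one _

section Pos

variable {n : ℕ}

/-- The pairing with the simple coroots. -/
private noncomputable def FPos_p (M : CoxeterMatrix (Fin n)) (x : Fin n → ℝ) (s : Fin n) : ℝ :=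
  2 * ∑ j, x j * cg (M.M j s)

private theorem FPos_p_add (M : CoxeterMatrix (Fin n)) (x y : Fin n → ℝ) (s : Fin n) :
    FPos_p M (x + y) s = FPos_p M x s + FPos_p M y s := by
  unfold FPos_p
  simp only [Pi.add_apply, add_mul, Finset.sum_add_distrib, mul_add]

private theorem FPos_p_smul (M : CoxeterMatrix (Fin n)) (c : ℝ) (x : Fin n → ℝ) (s : Fin n) :
    FPos_p M (c • x) s = c * FPos_p M x s := by
  unfold FPos_p
  simp only [Pi.smul_apply, smul_eq_mul, mul_assoc, ← Finset.mul_sum]
  ring

private theorem FPos_p_sub (M : CoxeterMatrix (Fin n)) (x y : Fin n → ℝ) (s : Fin n) :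
    FPos_p M (x - y) s = FPos_p M x s - FPos_p M y s := by
  have h := FPos_p_add M (x - y) y s
  rw [sub_add_cancel] at h
  rw [h]
  ring

/-- The simple roots. -/
private noncomputable def FPos_e (s : Fin n) : Fin n → ℝ := Pi.single s 1

private theorem FPos_p_e (M : CoxeterMatrix (Fin n)) (t s : Fin n) :
    FPos_p M (FPos_e t) s = 2 * cg (M.M t s) := by
  unfold FPos_p FPos_e
  rw [Finset.sum_eq_single t]
  · rw [Pi.single_eq_same, one_mul]
  · intro j _ hj
    rw [Pi.single_eq_of_ne hj, zero_mul]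
  · intro h
    exact absurd (Finset.mem_univ t) h

private theorem FPos_pe (M : CoxeterMatrix (Fin n)) (s : Fin n) : FPos_p M (FPos_e s) s = 2 := by
  rw [FPos_p_e, M.diagonal, cg_one, mul_one]

/-- The reflections. -/
private noncomputable def FPos_r (M : CoxeterMatrix (Fin n)) (s : Fin n) :
    Module.End ℝ (Fin n → ℝ) where
  toFun x := x - FPos_p M x s • FPos_e s
  map_add' x y := by
    rw [FPos_p_add, add_smul]
    abel
  map_smul' c x := by
    rw [FPos_p_smul, RingHom.id_apply, smul_sub, mul_smul]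

private theorem FPos_r_apply (M : CoxeterMatrix (Fin n)) (s : Fin n) (x : Fin n → ℝ) :
    FPos_r M s x = x - FPos_p M x s • FPos_e s := rfl

private theorem FPos_p_r (M : CoxeterMatrix (Fin n)) (s t : Fin n) (x : Fin n → ℝ) :
    FPos_p M (FPos_r M s x) t = FPos_p M x t - FPos_p M x s * FPos_p M (FPos_e s) t := by
  rw [FPos_r_apply, FPos_p_sub, FPos_p_smul]

private theorem FPos_rr (M : CoxeterMatrix (Fin n)) (s : Fin n) :
    FPos_r M s * FPos_r M s = 1 := by
  refine LinearMap.ext fun x => ?_
  rw [Module.End.mul_apply, Module.End.one_apply, FPos_r_apply M s (FPos_r M s x), FPos_p_r,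
    FPos_pe, FPos_r_apply]
  funext i
  simp only [Pi.sub_apply, Pi.smul_apply, smul_eq_mul]
  ring

/-- The powers of a rotation. -/
private theorem FPos_pow (M : CoxeterMatrix (Fin n)) {s t : Fin n} (φ : ℝ)
    (hφ : cg (M.M s t) = -Real.cos φ) (x : Fin n → ℝ) (k : ℕ) :
    (Real.sin φ ^ 2) • (((FPos_r M s * FPos_r M t) ^ k) x) = (Real.sin φ ^ 2) • x -
      (Real.sin (k * φ) * (FPos_p M x s * Real.sin (k * φ) +
        FPos_p M x t * Real.sin ((k + 1) * φ))) • FPos_e s -
      (Real.sin (k * φ) * (FPos_p M x t * Real.sin (k * φ) +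
        FPos_p M x s * Real.sin ((k - 1) * φ))) • FPos_e t := by
  have hts : cg (M.M t s) = -Real.cos φ := by rw [M.symmetric t s, hφ]
  induction k with
  | zero =>
    rw [pow_zero, Module.End.one_apply]
    norm_num
  | succ k ih =>
    have h1 : (FPos_r M s * FPos_r M t) ^ (k + 1) =
        (FPos_r M s * FPos_r M t) * (FPos_r M s * FPos_r M t) ^ k := pow_succ' _ _
    rw [h1, Module.End.mul_apply, ← map_smul, ih, Module.End.mul_apply]
    have e1 : Real.sin (((k + 1 : ℕ) : ℝ) * φ) =
        Real.sin (k * φ) * Real.cos φ + Real.cos (k * φ) * Real.sin φ := by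
      rw [← Real.sin_add]
      congr 1
      push_cast
      ring
    have e2 : Real.sin ((((k + 1 : ℕ) : ℝ) + 1) * φ) =
        Real.sin (k * φ) * (Real.cos φ ^ 2 - Real.sin φ ^ 2) +
          Real.cos (k * φ) * (2 * Real.sin φ * Real.cos φ) := by
      rw [← Real.sin_two_mul, ← Real.cos_two_mul', ← Real.sin_add]
      congr 1
      push_cast
      ring
    have e3 : Real.sin ((((k + 1 : ℕ) : ℝ) - 1) * φ) = Real.sin (k * φ) := by
      congr 1
      push_cast
      ring
    have e4 : Real.sin (((k : ℝ) + 1) * φ) =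
        Real.sin (k * φ) * Real.cos φ + Real.cos (k * φ) * Real.sin φ := by
      rw [← Real.sin_add]
      congr 1
      ring
    have e5 : Real.sin (((k : ℝ) - 1) * φ) =
        Real.sin (k * φ) * Real.cos φ - Real.cos (k * φ) * Real.sin φ := by
      rw [← Real.sin_sub]
      congr 1
      ring
    have e6 := Real.sin_sq_add_cos_sq φ
    have e7 := Real.sin_sq_add_cos_sq (k * φ)
    rw [e1, e2, e3, e4, e5]
    set S := Real.sin φ
    set C := Real.cos φ
    set a := Real.sin (k * φ)
    set b := Real.cos (k * φ)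
    set P := FPos_p M x s
    set Q := FPos_p M x t
    rw [FPos_r_apply M s, FPos_p_r, FPos_r_apply M t]
    simp only [FPos_p_sub, FPos_p_smul, FPos_p_e, M.diagonal, cg_one, hφ, hts]
    funext i
    simp only [Pi.sub_apply, Pi.smul_apply, smul_eq_mul]
    set E := FPos_e s i
    set F := FPos_e t i
    linear_combination (-E * P * a ^ 2 - E * Q * (a * b * S + 3 * a ^ 2 * C) - F * Q * a ^ 2) * e6 +
      (E * P * S ^ 2 + 2 * E * Q * C * S ^ 2 + F * Q * S ^ 2) * e7

private theorem FPos_lift (M : CoxeterMatrix (Fin n)) : M.IsLiftable (FPos_r M) := by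
  intro i j
  by_cases hij : i = j
  · subst hij
    rw [FPos_rr, one_pow]
  by_cases h0 : M i j = 0
  · rw [h0, pow_zero]
  have h1 : M i j ≠ 1 := M.off_diagonal i j hij
  have h2 : (2 : ℝ) ≤ M i j := by
    have : 2 ≤ M i j := by omega
    exact_mod_cast this
  have hφ : cg (M.M i j) = -Real.cos (Real.pi / (M i j : ℕ)) := cg_pos h0
  have hs : 0 < Real.sin (Real.pi / (M i j : ℕ)) := by
    refine Real.sin_pos_of_pos_of_lt_pi (div_pos Real.pi_pos (by linarith)) ?_
    rw [div_lt_iff₀ (by linarith)]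
    nlinarith [Real.pi_pos]
  refine LinearMap.ext fun x => ?_
  have h := FPos_pow M _ hφ x (M i j)
  have h3 : ((M i j : ℕ) : ℝ) * (Real.pi / (M i j : ℕ)) = Real.pi := by
    field_simp
  rw [h3, Real.sin_pi, zero_mul, zero_mul, zero_smul, zero_smul, sub_zero, sub_zero] at h
  have h4 : Real.sin (Real.pi / (M i j : ℕ)) ^ 2 ≠ 0 := pow_ne_zero _ hs.ne'
  rw [Module.End.one_apply]
  exact smul_right_injective _ h4 h

private theorem FPos_main (M : CoxeterMatrix (Fin n)) (hf : Finite M.Group)
    (z : Fin n → ℝ) (hz : z ≠ 0) : 0 < ∑ s, ∑ t, z s * z t * cg (M.M s t) := by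
  classical
  have := Fintype.ofFinite M.Group
  let cs := M.toCoxeterSystem
  let φ : M.Group →* Module.End ℝ (Fin n → ℝ) := cs.lift ⟨FPos_r M, FPos_lift M⟩
  have hφ : ∀ s, φ (cs.simple s) = FPos_r M s := fun s => cs.lift_apply_simple (FPos_lift M) s
  let H : (Fin n → ℝ) → (Fin n → ℝ) → ℝ := fun x y => ∑ g : M.Group, ∑ i, φ g x i * φ g y i
  have Hadd : ∀ x y w, H (x + y) w = H x w + H y w := by
    intro x y w
    simp only [H, map_add, Pi.add_apply, add_mul, Finset.sum_add_distrib]
  have Hsmul : ∀ (c : ℝ) x w, H (c • x) w = c * H x w := by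
    intro c x w
    simp only [H, map_smul, Pi.smul_apply, smul_eq_mul, mul_assoc, Finset.mul_sum]
  have Hsymm : ∀ x y, H x y = H y x := by
    intro x y
    exact Finset.sum_congr rfl fun g _ => Finset.sum_congr rfl fun i _ => mul_comm _ _
  have Hpos : ∀ x, x ≠ 0 → 0 < H x x := by
    intro x hx
    obtain ⟨i, hi⟩ := Function.ne_iff.1 hx
    have hi' : 0 < φ 1 x i * φ 1 x i := by
      rw [map_one, Module.End.one_apply]
      exact mul_self_pos.2 hi
    refine Finset.sum_pos' (fun g _ => Finset.sum_nonneg fun i _ => mul_self_nonneg _)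
      ⟨1, Finset.mem_univ _, ?_⟩
    exact Finset.sum_pos' (fun i _ => mul_self_nonneg _) ⟨i, Finset.mem_univ _, hi'⟩
  have Hinv : ∀ s x y, H (FPos_r M s x) (FPos_r M s y) = H x y := by
    intro s x y
    simp only [H]
    rw [← hφ s]
    have e1 : ∀ (g : M.Group) (w : Fin n → ℝ), φ g (φ (cs.simple s) w) =
        φ (g * cs.simple s) w := by
      intro g w
      rw [map_mul, Module.End.mul_apply]
    simp only [e1]
    exact Fintype.sum_equiv (Equiv.mulRight (cs.simple s)) _ _ fun g => rfl
  have Hneg : ∀ x w, H (-x) w = -H x w := by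
    intro x w
    have := Hsmul (-1) x w
    rw [neg_smul, one_smul] at this
    rw [this]
    ring
  have Hsub : ∀ x y w, H (x - y) w = H x w - H y w := by
    intro x y w
    rw [sub_eq_add_neg, Hadd, Hneg]
    ring
  have rself : ∀ s, FPos_r M s (FPos_e s) = -FPos_e s := by
    intro s
    rw [FPos_r_apply, FPos_pe]
    funext i
    simp only [Pi.sub_apply, Pi.smul_apply, smul_eq_mul, Pi.neg_apply]
    ring
  let h : Fin n → ℝ := fun s => H (FPos_e s) (FPos_e s)
  have e_ne : ∀ s : Fin n, FPos_e s ≠ 0 := by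
    intro s h0
    have := congrFun h0 s
    unfold FPos_e at this
    rw [Pi.single_eq_same, Pi.zero_apply] at this
    exact one_ne_zero this
  have hpos : ∀ s, 0 < h s := fun s => Hpos _ (e_ne s)
  have Hp : ∀ x s, 2 * H x (FPos_e s) = FPos_p M x s * h s := by
    intro x s
    have h1 := Hinv s x (FPos_e s)
    rw [rself, Hsymm, Hneg, Hsymm, FPos_r_apply, Hsub, Hsmul] at h1
    simp only [h]
    linarith
  have hadj : ∀ s t, cg (M.M s t) ≠ 0 → h s = h t := by
    intro s t hst
    have h1 := Hp (FPos_e t) s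
    have h2 := Hp (FPos_e s) t
    rw [FPos_p_e, M.symmetric t s] at h1
    rw [FPos_p_e, Hsymm] at h2
    have h3 : cg (M.M s t) * h s = cg (M.M s t) * h t := by linarith
    exact mul_left_cancel₀ hst h3
  let u : Fin n → ℝ := fun s => z s / √(h s)
  have hu : u ≠ 0 := by
    obtain ⟨i, hi⟩ := Function.ne_iff.1 hz
    intro h0
    have h1 := congrFun h0 i
    simp only [u, Pi.zero_apply, div_eq_zero_iff] at h1
    rcases h1 with h1 | h1
    · exact hi h1
    · exact absurd h1 (Real.sqrt_pos.2 (hpos i)).ne'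
  have husum : u = ∑ s, u s • FPos_e s := by
    funext i
    rw [Finset.sum_apply, Finset.sum_eq_single i]
    · simp only [Pi.smul_apply, smul_eq_mul, FPos_e, Pi.single_eq_same, mul_one]
    · intro j _ hj
      simp only [Pi.smul_apply, smul_eq_mul, FPos_e]
      rw [Pi.single_eq_of_ne hj.symm, mul_zero]
    · intro h
      exact absurd (Finset.mem_univ i) h
  have Hsum : ∀ w : Fin n → ℝ, H (∑ s, u s • FPos_e s) w = ∑ s, u s * H (FPos_e s) w := by
    intro w
    have : ∀ S : Finset (Fin n), H (∑ s ∈ S, u s • FPos_e s) w =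
        ∑ s ∈ S, u s * H (FPos_e s) w := by
      intro S
      induction S using Finset.induction_on with
      | empty =>
        rw [Finset.sum_empty, Finset.sum_empty]
        have := Hsmul 0 0 w
        rw [zero_smul, zero_mul] at this
        exact this
      | insert a S ha ih =>
        rw [Finset.sum_insert ha, Finset.sum_insert ha, Hadd, Hsmul, ih]
    exact this Finset.univ
  have key : H u u = ∑ s, ∑ t, z s * z t * cg (M.M s t) := by
    have e1 : H u u = ∑ s, u s * H (FPos_e s) u := by
      conv_lhs => rw [show H u u = H (∑ s, u s • FPos_e s) u by rw [← husum]]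
      exact Hsum u
    rw [e1]
    refine Finset.sum_congr rfl fun s _ => ?_
    have hs := hpos s
    have hsq : √(h s) * √(h s) = h s := Real.mul_self_sqrt hs.le
    have hsn : √(h s) ≠ 0 := (Real.sqrt_pos.2 hs).ne'
    have e2 : u s * H (FPos_e s) u = u s * h s * ∑ j, u j * cg (M.M j s) := by
      have h3 := Hp u s
      rw [Hsymm] at h3
      unfold FPos_p at h3
      linear_combination (1 / 2) * u s * h3
    rw [e2, Finset.mul_sum]
    refine Finset.sum_congr rfl fun j _ => ?_
    rw [M.symmetric j s]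
    by_cases hc : cg (M.M s j) = 0
    · rw [hc]
      ring
    · simp only [u]
      rw [← hadj s j hc]
      nth_rewrite 2 [← hsq]
      field_simp
  rw [← key]
  exact Hpos u hu

end Pos

/-- **A finite Coxeter group has a positive definite form.** -/
theorem fpos {n : ℕ} (M : CoxeterMatrix (Fin n)) (hf : Finite M.Group) (x : Fin n → ℝ)
    (hx : x ≠ 0) : 0 < ∑ s, ∑ t, x s * x t * cg (M.M s t) := FPos_main M hf x hx

/-- In a finite Coxeter group no label is infinite. -/
theorem fpos_ne_zero {n : ℕ} (M : CoxeterMatrix (Fin n)) (hf : Finite M.Group) (s t : Fin n) :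
    M.M s t ≠ 0 := by
  intro h0
  have hst : s ≠ t := by
    intro h
    rw [h, M.diagonal] at h0
    exact one_ne_zero h0
  have hx : (Pi.single s 1 + Pi.single t 1 : Fin n → ℝ) ≠ 0 := by
    intro h
    have h1 := congrFun h s
    rw [Pi.add_apply, Pi.single_eq_same, Pi.single_eq_of_ne hst, add_zero, Pi.zero_apply] at h1
    exact one_ne_zero h1
  have h := fpos M hf _ hx
  have e1 : ∀ i j : Fin n, (Pi.single s 1 + Pi.single t 1 : Fin n → ℝ) i *
      (Pi.single s 1 + Pi.single t 1 : Fin n → ℝ) j * cg (M.M i j) =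
      (Pi.single s 1 : Fin n → ℝ) i * ((Pi.single s 1 : Fin n → ℝ) j * cg (M.M i j)) +
      (Pi.single s 1 : Fin n → ℝ) i * ((Pi.single t 1 : Fin n → ℝ) j * cg (M.M i j)) +
      (Pi.single t 1 : Fin n → ℝ) i * ((Pi.single s 1 : Fin n → ℝ) j * cg (M.M i j)) +
      (Pi.single t 1 : Fin n → ℝ) i * ((Pi.single t 1 : Fin n → ℝ) j * cg (M.M i j)) := by
    intro i j
    rw [Pi.add_apply, Pi.add_apply]
    ring
  simp only [e1, Finset.sum_add_distrib, ← Finset.mul_sum] at h
  simp only [Pi.single_apply, ite_mul, one_mul, zero_mul, Finset.sum_ite_eq', Finset.mem_univ,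
    if_true, M.diagonal, cg_one, h0, M.symmetric t s, cg_zero] at h
  norm_num at h

end Pool.Agent.Lib.MP_97567f_al
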