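import Pool.Agent.Lib.MP_97567f_al.SpecG

/-!
# MP_97567f_al: statements of the modules, part 4 (components with two nodes)

`T2 M s t w τ`: the representation of dimension two of the component `{s, t}` (`s`, `t` adjacent) with trace `τ`; `w` is a
primitive cube root of unity. `TS ρ α`: the representation `ρ ∘ α` is a twist of `ρ`.
-/

set_option autoImplicit false

namespace Pool.Agent.Lib.MP_97567f_al

open Polynomial

/-- `ρ ∘ α` is equivalent to `ρ` up to a character. -/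
def TS {A : Type} [Group A] {K : Type} [Field K] {ι : Type} [Fintype ι] [DecidableEq ι]
    (ρ : A →* GL ι K) (α : MulAut A) : Prop :=
  ∃ (χ : A →* Kˣ) (g : GL ι K), ∀ x, (ρ (α x)).1 = (χ x : K) • (g.1 * (ρ x).1 * (g⁻¹).1)

section T2

variable {n : ℕ} (M : CoxeterMatrix (Fin n)) (s t : Fin n) {R : Type} [CommRing R] (w τ : R)

/-- The matrices of the representation of dimension two. -/
def m2 (u : Fin n) : Matrix (Fin 2) (Fin 2) R :=
  if u = s then !![τ, 1; -1, 0] else if u = t then !![0, w; -w ^ 2, τ] else 1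

open Classical in
/-- The representation of dimension two. -/
noncomputable def T2 : Art M →* GL (Fin 2) R :=
  if h : ∃ ρ : Art M →* GL (Fin 2) R, ∀ u, (ρ (gn M u)).1 = m2 s t w τ u then h.choose else 1

end T2

/-- A primitive cube root of unity. -/
noncomputable def om : ℂ := ⟨-1 / 2, Real.sqrt 3 / 2⟩

section stmts

/-- **The representation exists.**
Proof. `om ^ 2 + om + 1 = 0`: real and imaginary parts. All determinants are `1` (`w ^ 3 = 1`). The braid relation for `s, t`: both sides are `!![0, -w ^ 2; w, 0]` (use `w ^ 2 + w + 1 = 0`, `w ^ 3 = 1`). The other generators are mapped to `1`; if `u` is adjacent to `s` then `u = t` (`Sat`), if `u` is adjacent to `t` then `u = s`. If `u ≠ u'` are not adjacent then one of them is mapped to `1`.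
`art_lift`. Base change: `art_ext` for `GL (Fin 2) R →* GL (Fin 2) R'`. Determinant and last part: `art_ext` (`D = diag (1, -1)`: `D s(τ) D⁻¹ = - s(-τ)`, the same for `t`; `ε` from `exists_deg` followed by `Multiplicative ℤ →* ℤˣ`). -/
def ST1 : Prop :=
  om ^ 2 + om + 1 = 0 ∧
  ∀ (n : ℕ) (M : CoxeterMatrix (Fin n)), SL M → ∀ (s t : Fin n), adj M s t → Sat M {s, t} →
    (∀ (R : Type) [CommRing R] (w τ : R), w ^ 2 + w + 1 = 0 →
      (∀ u, (T2 M s t w τ (gn M u)).1 = m2 s t w τ u) ∧ ∀ x, (T2 M s t w τ x).1.det = 1) ∧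
    (∀ (R R' : Type) [CommRing R] [CommRing R'] (φ : R →+* R') (w τ : R), w ^ 2 + w + 1 = 0 →
      ∀ x, (T2 M s t (φ w) (φ τ) x).1 = (T2 M s t w τ x).1.map φ) ∧
    ∃ ε : Art M →* ℤˣ, ∀ (R : Type) [CommRing R] (w τ : R), w ^ 2 + w + 1 = 0 →
      ∀ x, (T2 M s t w (-τ) x).1 = ((ε x : ℤ) : R) •
        (!![1, 0; 0, -1] * (T2 M s t w τ x).1 * !![1, 0; 0, -1])

/-- **Irreducibility** (from `ST1`).
Proof. The matrices of `1`, `gn s`, `gn t`, `gn s * gn t` are `1`, `!![τ, 1; -1, 0]`, `!![0, w; -w ^ 2, τ]`, `!![-w ^ 2, -w ^ 2 * τ; 0, -w]`. The determinant of the four vectors of entries is (up to sign and a power of `w`) `τ ^ 2 - 3` (check: it is computed with `w ^ 2 = - w - 1`). So they are independent and span the space of matrices. -/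
def ST2 : Prop :=
  ∀ (n : ℕ) (M : CoxeterMatrix (Fin n)), SL M → ∀ (s t : Fin n), adj M s t → Sat M {s, t} →
    ∀ (K : Type) [Field K] (w τ : K), w ^ 2 + w + 1 = 0 → τ ^ 2 ≠ 3 →
      Submodule.span K (Set.range fun x : Art M => (T2 M s t w τ x).1) = ⊤

/-- **Reducibility for `τ ^ 2 = 3`, and the trace of a commutator** (from `ST1`).
Proof. If `τ ^ 2 = 3` then `s` and `t` have a common eigenvector: `st = !![-w ^ 2, -w ^ 2 * τ; 0, -w]` has the eigenvectors `(1, 0)` (not an eigenvector of `s`) and `(w ^ 2 * τ, w - w ^ 2)` for `-w` (check), and this is an eigenvector of `s` if `τ ^ 2 = 3`: `s (w ^ 2 τ, w - w ^ 2) = (w ^ 2 τ ^ 2 + w - w ^ 2, - w ^ 2 τ)`, proportional iff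
`(w ^ 2 τ ^ 2 + w - w ^ 2) (w - w ^ 2) + w ^ 4 τ ^ 2 = 0`; `w (w - w ^ 2) = w ^ 2 - 1`, compute: it is `- τ ^ 2 + 3` up to a factor. (Alternatively choose the other eigenvector if this one fails; one has `trace ⁅s, t⁆ = τ ^ 2 - 1 = 2`.) So in a suitable basis all matrices of the representation are upper triangular, and a commutator has diagonal entries `1`: trace `2`. The trace of `s t s⁻¹ t⁻¹`
is computed directly from the matrices (`s⁻¹ = !![0, -1; 1, τ]`, `t⁻¹ = !![τ, -w; w ^ 2, 0]`). -/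
def ST3 : Prop :=
  ∀ (n : ℕ) (M : CoxeterMatrix (Fin n)), SL M → ∀ (s t : Fin n), adj M s t → Sat M {s, t} →
    ∀ (K : Type) [Field K] (w τ : K), w ^ 2 + w + 1 = 0 →
      (τ ^ 2 = 3 → ∀ x y : Art M, (T2 M s t w τ (x * y * x⁻¹ * y⁻¹)).1.trace = 2) ∧
      (T2 M s t w τ (gn M s * gn M t * (gn M s)⁻¹ * (gn M t)⁻¹)).1.trace = τ ^ 2 - 1

/-- **Rigidity in dimension two** (from `ST1`, `ST2`, 200 lines).
Proof. Let `S, T ∈ GL_2 (O)` be the matrices of `gn s`, `gn t`, reducing to `m2`. `det S = det T` (braid relation). `F` is algebraically closed and `O` integrally closed: there is `c ∈ O` with `c ^ 2 = det S` and residue `1` (the residue of `c` is `1` or `-1`, change the sign; `2 ≠ 0`). Replace `S, T` by `S / c`, `T / c` (`c` is a unit): determinant `1`, same residues, braid relation. `S, T` generate the matrix algebra over `F`: the residues of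
`1, S, T, S T` are independent (`ST2` over the residue field; the determinant of the four vectors is a unit of `O`). `Y = S T`: `Y ^ 3` commutes with `S` and `T` (braid relation), so it is a scalar `ζ` with `ζ ^ 2 = det = 1` and residue `-1` (`Y ^ 3 = - 1` for `m2`), so `Y ^ 3 = - 1` (`2 ≠ 0`). `Y` has trace `y` and determinant `1`: `Y ^ 2 = y Y - 1`, `Y ^ 3 = (y ^ 2 - 1) Y - y`, and `Y` is not scalar
(its residue is not), so `y ^ 2 = 1` and `y = 1` (residue `- w ^ 2 - w = 1`). So `Y` has the eigenvalues `- w`, `- w ^ 2` (roots of `X ^ 2 - X + 1`), which are different (`3 ≠ 0`). Let `e1 ∈ F ^ 2` be a nonzero vector with `Y e1 = - w ^ 2 e1`, `τ' = trace S ∈ O`, `e2 = τ' e1 - S e1`. `e1, e2` are independent (otherwise `e1` is a common eigenvector of `S` and `Y`, so of the matrix algebra).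
`S e2 = τ' S e1 - S ^ 2 e1 = e1` (Cayley-Hamilton). `T e1 = S⁻¹ Y e1 = - w ^ 2 S⁻¹ e1 = - w ^ 2 e2`. `T e2 = a e1 + b e2` with `b = trace T = trace S = τ'` (`T` and `S` are conjugate: `(S T) S (S T)⁻¹ = T`) and `a w ^ 2 = det T = 1`, `a = w`. So in the basis `e1, e2` the matrices are `m2 s t w τ'`; `g` has the columns `e1, e2`. The other generators `u` commute with `S` and `T`,
so they are mapped to scalars `m u ∈ F`. The character `χ`: `gn s ↦ c`, `gn t ↦ c`, `gn u ↦ m u` (`art_lift`; adjacent `u, u'`: the braid relation of scalars gives `m u = m u'`). -/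
def ST4 : Prop :=
  ∀ (n : ℕ) (M : CoxeterMatrix (Fin n)), SL M → ∀ (s t : Fin n), adj M s t → Sat M {s, t} →
    ∀ (F : Type) [Field F] [IsAlgClosed F] (O : ValuationSubring F) (w : O)
      (τ : IsLocalRing.ResidueField O) (ρ : Art M →* GL (Fin 2) O), w ^ 2 + w + 1 = 0 →
      (2 : IsLocalRing.ResidueField O) ≠ 0 → (3 : IsLocalRing.ResidueField O) ≠ 0 → τ ^ 2 ≠ 3 →
      (∀ u, (ρ (gn M u)).1.map (IsLocalRing.residue O) = m2 s t (IsLocalRing.residue O w) τ u) →
      ∃ (τ' : O) (χ : Art M →* Fˣ) (g : GL (Fin 2) F), IsLocalRing.residue O τ' = τ ∧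
        ∀ x, (ρ x).1.map (algebraMap O F) =
          (χ x : F) • (g.1 * (T2 M s t (w : F) (τ' : F) x).1 * (g⁻¹).1)

/-- **The component of the representation** (from `SComp`, `ST1`, `ST4`).
Proof. `SComp` for `A = Art M`, `ι = Fin 2`, `R = ℂ[X]`, `ρ = T2 M s t (C om) X` (the entries generate `ℂ[X]`: `X` is the trace entry of `gn s`). `ℂ ⊆ O` by the third property of `SComp`; `w = om ∈ O`. `τ = j X`; `τ ^ 2 ≠ 3`, `2 ≠ 0`, `3 ≠ 0` as `j` is injective. `ST4` gives `τ'`, `χ`, `g`. The map `ψ : ℂ[X] → F`, `X ↦ τ'`, is injective: `ψ p ∈ O` has the residue `j p`. For `α ∈ H`, `ρ' (α x) = σ (ρ' x)`: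
`T2 om τ' (α x) = (χ (α x))⁻¹ σ (χ x) • g⁻¹ σ(g) T2 om (σ τ') x σ(g)⁻¹ g` (`σ om = om`). -/
def ST5 : Prop :=
  ∀ (n : ℕ) (M : CoxeterMatrix (Fin n)), SL M → ∀ (s t : Fin n), adj M s t → Sat M {s, t} →
    ∃ (F : Type) (_ : Field F) (_ : Algebra ℂ F) (τ' : F) (H : Subgroup (MulAut (Art M))),
      (∀ p : ℂ[X], aeval τ' p = 0 → p = 0) ∧ H.FiniteIndex ∧
      ∀ α ∈ H, ∃ (τ'' : F) (χ : Art M →* Fˣ) (g : GL (Fin 2) F),
        (∀ p : ℂ[X], aeval τ'' p = 0 → p = 0) ∧ ∀ x,
        (T2 M s t (algebraMap ℂ F om) τ' (α x)).1 =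
          (χ x : F) • (g.1 * (T2 M s t (algebraMap ℂ F om) τ'' x).1 * (g⁻¹).1)

/-- **The parameter changes at most by the sign** (from `ST1`, `ST3`, `ST5`, 150 lines).
Proof. `F`, `τ'`, `H` from `ST5`. Let `f x ∈ ℂ[X]` be the trace of `T2 (C om) X x`. Let `α ∈ H`, and `τ''`, `χ` as in `ST5`. Determinants: `χ x ^ 2 = 1`. Traces: `f (α x) (τ') = χ x * f x (τ'')`. `x = gn s`: `τ'' = χ (gn s) f (α (gn s)) (τ') = P (τ')`, `P = ± f (α (gn s)) ∈ ℂ[X]`. So `f (α x) = ± (f x).comp P` in `ℂ[X]` for all `x` (the sign is `χ x`; `τ'` is transcendental). By the last part of `ST1`, `(f x).comp (-X) = ± f x` for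
all `x`, so `P.comp (-X) = ± P`. For `α⁻¹ ∈ H` let `Q` be the polynomial: `f x = f (α (α⁻¹ x)) = ± (f (α⁻¹ x)).comp P = ± ((f x).comp Q).comp P`; `x = gn s`: `X = ± Q.comp P`, so the degree of `P` is `1` (`natDegree_comp`). With the parity: `P = a X`, `a ≠ 0`. Let `ξ ∈ ℂ`, `ξ ^ 2 = 3`. By `ST3` for `τ = ξ`: `f (c) (ξ) = 2` for all commutators `c = x y x⁻¹ y⁻¹`. `c = gn s gn t (gn s)⁻¹ (gn t)⁻¹`: `α c` is a commutator, and
`f (α c) = (f c).comp P` (`χ c = 1`), so `2 = f (α c) (ξ) = f c (a ξ) = (a ξ) ^ 2 - 1` (`ST3`), so `a ^ 2 = 1`. So `τ'' = τ'` or `τ'' = - τ'`; in the second case use the last part of `ST1` (multiply `χ` by `ε` and `g` by `diag (1, -1)`). The new `χ` has values `± 1`, as its square is `1`. -/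
def ST6 : Prop :=
  ∀ (n : ℕ) (M : CoxeterMatrix (Fin n)), SL M → ∀ (s t : Fin n), adj M s t → Sat M {s, t} →
    ∃ (F : Type) (_ : Field F) (_ : Algebra ℂ F) (τ' : F) (H : Subgroup (MulAut (Art M))),
      (∀ p : ℂ[X], aeval τ' p = 0 → p = 0) ∧ H.FiniteIndex ∧
      ∀ α ∈ H, ∃ (ε : Art M →* ℤˣ) (g : GL (Fin 2) F), ∀ x,
        (T2 M s t (algebraMap ℂ F om) τ' (α x)).1 =
          ((ε x : ℤ) : F) • (g.1 * (T2 M s t (algebraMap ℂ F om) τ' x).1 * (g⁻¹).1)

/-- **A finite index subgroup acts by twists, dimension two** (from `ST1`, `ST6`, `SDesc`).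
Proof. `F` is an algebra over `K1` by `xx ↦ τ'`. `SDesc` for `K = K1`, `A x = T2 om xx (α x)`, `B x = ε x • T2 om xx x` gives `h ∈ GL_2 (K1)` with `T2 om xx (α x) = ε x • h T2 om xx x h⁻¹`. Map to `K2` by the injective ring homomorphism `K1 → K2` with `xx ↦ qq`, identity on `ℂ`. -/
def ST7 : Prop :=
  ∀ (n : ℕ) (M : CoxeterMatrix (Fin n)), SL M → ∀ (s t : Fin n), adj M s t → Sat M {s, t} →
    ∃ H : Subgroup (MulAut (Art M)), H.FiniteIndex ∧
      ∀ α ∈ H, TS (T2 M s t (algebraMap R2 K2 (algebraMap ℂ R2 om)) (algebraMap R2 K2 qq)) α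

/-- The matrices `x y`, `x y⁻¹` of `SL_2 (ℤ)` up to sign and a change of signs: the products of these are nonnegative. -/
def UL (L : List Bool) : Matrix (Fin 2) (Fin 2) ℤ :=
  (L.map fun b => if b then !![1, 1; 0, 1] else !![1, 0; 1, 1]).prod

/-- The product of the elements `x * y`, `x * y⁻¹`. -/
def XY {G : Type} [Group G] (x y : G) (L : List Bool) : G :=
  (L.map fun b => if b then x * y else x * y⁻¹).prod

/-- **A normal form** (120 lines).
Proof. Let `x = s t s`, `y = s t`, `c = x ^ 2`. Then `c = y ^ 3` (`(s t) ^ 3 = s t s t s t = s t s s t s` by the braid relation), `c` commutes with `x` and `y`, `s = y⁻¹ x`, `t = x⁻¹ y ^ 2` (`x = y s` and `s = y⁻¹ x`; `t = s⁻¹ y = x⁻¹ y y`). Let `N` be the set of all `c ^ k * y ^ a * XY x y L * x ^ b`, `a, k ∈ ℤ`, `b ∈ {0, 1}`. It contains `1`, and it is stable under multiplication from the right by `x`, `x⁻¹ = c⁻¹ x`, `y`, `y⁻¹`: for `x`: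
`b = 0` clear, `b = 1`: `x ^ 2 = c`. For `y`: `b = 1`: `x y` is appended to `L`. `b = 0` and `L = []`: clear. `b = 0`, the last factor of `XY` is `x y`: `x y y = x y⁻¹ c`. `x y⁻¹`: `x y⁻¹ y = x`: drop it and `b = 1`. For `y⁻¹` similarly (`x y⁻¹ y⁻¹ = x y c⁻¹`). So `N` contains the subgroup generated by `s`, `t`. -/
def ST8 : Prop :=
  ∀ (G : Type) [Group G] (s t : G), s * t * s = t * s * t → ∀ z ∈ Subgroup.closure {s, t},
    ∃ (k a : ℤ) (L : List Bool) (b : ℕ), b < 2 ∧
      z = (s * t * s) ^ (2 * k) * (s * t) ^ a * XY (s * t * s) (s * t) L * (s * t * s) ^ b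

/-- **The kernel of the representation in dimension two** (from `ST1`, `ST8`, `SIrr`, `SLKr`, `SLkA`, 200 lines).
Proof. There is a homomorphism `r : Art M →* Art M` with `r (gn s) = gn s`, `r (gn t) = gn t`, `r (gn u) = 1` otherwise (`art_lift`), and both `T2` and `LKr M {s, t}` satisfy `ρ (r z) = ρ z` (`art_ext`; `SLkA`). `r z` is in the subgroup generated by `gn s`, `gn t`. Write it as in `ST8`: `r z = c ^ k * W`, `W = y ^ a * XY x y L * x ^ b`; as `y ^ 3 = c` one may take `a ∈ {0, 1, -1}` (change `k`). `T2 (c) = - 1`, so `T2 W` is scalar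
over `K2`. Its entries are in `R2` (`ST1`, base change), so also for the parameters `om, 2 ∈ ℂ` (apply `R2 → ℂ`, `qq ↦ 2`) `T2 om 2 W` is scalar. Let `G = !![1, -om; -om ^ 2, -om ^ 2]` (determinant `om`): `!![1, 1; 0, 1] G = G s`, `!![1, 0; -1, 1] G = G t` for the matrices `s, t` of `T2 om 2` (check). So with the integral matrices `s = !![1, 1; 0, 1]`, `t = !![1, 0; -1, 1]`, `x = s t s = !![0, 1; -1, 0]`,
`y = s t = !![0, 1; -1, 1]`, the matrix `y ^ a XY x y L x ^ b` is a scalar, of determinant `1`, so `± 1`. `x y = - D !![1, 1; 0, 1] D`, `x y⁻¹ = D' ..`: precisely `x y = !![-1, 1; 0, -1] = - D !![1, 1; 0, 1] D` and `x y⁻¹ = !![1, 0; -1, 1] = D !![1, 0; 1, 1] D` for `D = diag (1, -1)`. So `XY x y L = ± D (UL L) D`, `UL L` has entries `≥ 0`, diagonal entries `≥ 1`, and for `L ≠ []` a nonzero entry off the diagonal. On the other side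
`XY x y L = ± y ^ (-a) x ^ (-b)`, and `D y ^ (-a) x ^ (-b) D` is (up to sign), for `(a, b)`: `(0, 0)`: `1`; `(-1, 0)`: `!![0, -1; 1, 1]`; `(1, 0)`: `!![1, 1; -1, 0]`; `(0, 1)`: `!![0, -1; 1, 0]`; `(-1, 1)`: `!![-1, 0; 1, -1]`; `(1, 1)`: `!![1, -1; 0, 1]`: all except the first have entries of both signs. So `a = b = 0` and `UL L = 1`, `L = []`. So `r z = c ^ k` commutes with `gn s`, `gn t`. So
`LKr z = LKr (r z)` commutes with the matrices of all `x ∈ Art M` (over `K2`: with all matrices, `SIrr`), so it is scalar. -/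
def ST9 : Prop :=
  ∀ (n : ℕ) (M : CoxeterMatrix (Fin n)), SL M → RF M → FH M (fh M) → ∀ (s t : Fin n),
    adj M s t → Sat M {s, t} → ∀ z : Art M,
      (∃ m : K2, (T2 M s t (algebraMap R2 K2 (algebraMap ℂ R2 om)) (algebraMap R2 K2 qq) z).1 =
        m • (1 : Matrix (Fin 2) (Fin 2) K2)) →
      ∃ m : K2, (LKr M {s, t} qq ll z).1.map (algebraMap R2 K2) =
        m • (1 : Matrix (PR M {s, t}) (PR M {s, t}) K2)

end stmts

end Pool.Agent.Lib.MP_97567f_al
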