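import Pool.Agent.Lib.MP_97567f_al.SpecG

/-!
# MP_97567f_al: the ideal of the Gram determinants is not zero
-/

set_option autoImplicit false

namespace Pool.Agent.Lib.MP_97567f_al

/-- A spanning family of matrices contains a basis. -/
private theorem IdC_basis {K ι G : Type} [Field K] [Fintype ι] [DecidableEq ι]
    (v : G → Matrix ι ι K) (hv : Submodule.span K (Set.range v) = ⊤) :
    ∃ x : ι × ι → G, LinearIndependent K (fun i => v (x i)) ∧
      Submodule.span K (Set.range fun i => v (x i)) = ⊤ := by
  classical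
  obtain ⟨b, hbt, hsp, hli⟩ := exists_linearIndependent K (Set.range v)
  have htop : ⊤ ≤ Submodule.span K (Set.range (Subtype.val : b → Matrix ι ι K)) := by
    rw [Subtype.range_coe, hsp, hv]
  let B : Module.Basis b K (Matrix ι ι K) := Module.Basis.mk hli htop
  let e : ι × ι ≃ b := (Matrix.stdBasis K ι ι).indexEquiv B
  have hx : ∀ i : ι × ι, ∃ g : G, v g = ((e i : b) : Matrix ι ι K) := fun i => hbt (e i).2
  choose x hx using hx
  refine ⟨x, ?_, ?_⟩
  · have h1 : (fun i => v (x i)) = (Subtype.val : b → Matrix ι ι K) ∘ e := by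
      funext i
      exact hx i
    rw [h1]
    exact hli.comp e e.injective
  · have h1 : (Set.range fun i => v (x i)) = b := by
      ext m
      constructor
      · rintro ⟨i, rfl⟩
        simp only [hx]
        exact (e i).2
      · intro hm
        refine ⟨e.symm ⟨m, hm⟩, ?_⟩
        simp [hx]
    rw [h1, hsp, hv]

/-- The Gram determinant of a basis is not zero. -/
private theorem IdC_gram {K ι : Type} [Field K] [Fintype ι] [DecidableEq ι]
    (Y : ι × ι → Matrix ι ι K) (hli : LinearIndependent K Y)
    (hsp : Submodule.span K (Set.range Y) = ⊤) :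
    (Matrix.of fun i j => (Y i * Y j).trace).det ≠ 0 := by
  intro h0
  obtain ⟨c, hc, hc0⟩ := Matrix.exists_mulVec_eq_zero_iff.2 h0
  apply hc
  have h1 : ∀ i, (Y i * ∑ j, c j • Y j).trace = 0 := by
    intro i
    have h2 := congrFun hc0 i
    rw [Pi.zero_apply] at h2
    rw [← h2]
    simp only [Matrix.mulVec, dotProduct, Matrix.of_apply, Finset.mul_sum, Matrix.trace_sum,
      Matrix.mul_smul, Matrix.trace_smul, smul_eq_mul]
    exact Finset.sum_congr rfl fun j _ => mul_comm _ _
  have h2 : ∀ Z : Matrix ι ι K, (Z * ∑ j, c j • Y j).trace = 0 := by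
    intro Z
    have hZ : Z ∈ Submodule.span K (Set.range Y) := by rw [hsp]; trivial
    induction hZ using Submodule.span_induction with
    | mem z hz => obtain ⟨i, rfl⟩ := hz; exact h1 i
    | zero => simp
    | add a b _ _ ha hb => rw [add_mul, Matrix.trace_add, ha, hb, add_zero]
    | smul a z _ hz => rw [Matrix.smul_mul, Matrix.trace_smul, hz, smul_zero]
  have h3 : ∑ j, c j • Y j = 0 := by
    apply Matrix.ext_iff_trace_mul_left.2
    intro Z
    rw [h2 Z, mul_zero, Matrix.trace_zero]
  funext j
  exact Fintype.linearIndependent_iff.1 hli c h3 j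

theorem pIdC (h1 : SIrr) : SIdC := by
  intro n M hSL hRF hFH C hSat hConn hne hbot
  obtain ⟨x, hli, hsp⟩ := IdC_basis
    (fun y : Art M => (LKr M C qq ll y).1.map (algebraMap R2 K2)) (h1 n M hSL hRF hFH C hSat hConn hne)
  have hr : (Matrix.of fun i j => (LKr M C qq ll (x i * x j)).1.trace).det ∈ I2 M C :=
    Ideal.subset_span ⟨x, rfl⟩
  rw [hbot, Ideal.mem_bot] at hr
  apply IdC_gram _ hli hsp
  have h2 := congrArg (algebraMap R2 K2) hr
  rw [map_zero, RingHom.map_det] at h2
  rw [← h2]
  congr 1
  ext i j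
  simp only [Matrix.of_apply, RingHom.mapMatrix_apply, Matrix.map_apply]
  rw [map_mul, Units.val_mul, AddMonoidHom.map_trace, Matrix.map_mul]

end Pool.Agent.Lib.MP_97567f_al
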