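import Pool.Agent.Lib.MP_97567f_al.SpecG

/-!
# MP_97567f_al: the curve `F (q) l = 1`
-/

set_option autoImplicit false

namespace Pool.Agent.Lib.MP_97567f_al

open Polynomial

private theorem KerF_aeval {R R' : Type} [CommRing R] [CommRing R'] [Algebra ℤ R]
    [Algebra ℤ R'] (φ : R →+* R') (q : R)
    (p : ℤ[X]) : φ (aeval q p) = aeval (φ q) p := by
  rw [aeval_def, aeval_def, hom_eval₂]
  congr 1
  exact RingHom.ext_int _ _

private theorem KerF_map {R : Type} [CommRing R] [Algebra ℂ R] [Algebra ℤ R] (q : R) (p : ℤ[X]) :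
    aeval q (p.map (Int.castRingHom ℂ)) = aeval q p := by
  rw [aeval_def, aeval_def, eval₂_map]
  congr 1
  exact RingHom.ext_int _ _

private theorem KerF_xx (r : ℂ[X]) : aeval xx r = algebraMap ℂ[X] K1 r := by
  unfold xx
  rw [aeval_algebraMap_apply, aeval_X_left_apply]

private theorem KerF_inj {r : ℂ[X]} (h : aeval xx r = 0) : r = 0 := by
  rw [KerF_xx] at h
  exact (map_eq_zero_iff _ (IsFractionRing.injective ℂ[X] K1)).1 h

private theorem KerF_xx_ne : xx ≠ 0 := by
  intro h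
  have h1 : aeval xx (X : ℂ[X]) = 0 := by rw [aeval_X, h]
  exact X_ne_zero (KerF_inj h1)

private theorem KerF_xx_one : xx - 1 ≠ 0 := by
  intro h
  have h1 : aeval xx (X - C 1 : ℂ[X]) = 0 := by
    rw [map_sub, aeval_X, aeval_C, map_one, h]
  exact X_sub_C_ne_zero (1 : ℂ) (KerF_inj h1)

/-- The elements which are polynomials in `qq` modulo `J` up to units. -/
private def KerF_P (Q : R2) (J : Ideal R2) (x : R2) : Prop :=
  ∃ (k d : ℕ) (r : ℂ[X]), qq ^ k * Q ^ d * x - aeval qq r ∈ J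

private theorem KerF_add {G : ℂ[X]} {J : Ideal R2} {x y : R2} (hx : KerF_P (aeval qq G) J x)
    (hy : KerF_P (aeval qq G) J y) : KerF_P (aeval qq G) J (x + y) := by
  obtain ⟨k, d, r, h⟩ := hx
  obtain ⟨k', d', r', h'⟩ := hy
  refine ⟨k + k', d + d', X ^ k' * G ^ d' * r + X ^ k * G ^ d * r', ?_⟩
  have e : qq ^ (k + k') * aeval qq G ^ (d + d') * (x + y) -
      aeval qq (X ^ k' * G ^ d' * r + X ^ k * G ^ d * r') =
      qq ^ k' * aeval qq G ^ d' * (qq ^ k * aeval qq G ^ d * x - aeval qq r) +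
      qq ^ k * aeval qq G ^ d * (qq ^ k' * aeval qq G ^ d' * y - aeval qq r') := by
    simp only [map_add, map_mul, map_pow, aeval_X]
    ring
  rw [e]
  exact J.add_mem (J.mul_mem_left _ h) (J.mul_mem_left _ h')

private theorem KerF_mul {G : ℂ[X]} {J : Ideal R2} {x y : R2} (hx : KerF_P (aeval qq G) J x)
    (hy : KerF_P (aeval qq G) J y) : KerF_P (aeval qq G) J (x * y) := by
  obtain ⟨k, d, r, h⟩ := hx
  obtain ⟨k', d', r', h'⟩ := hy
  refine ⟨k + k', d + d', r * r', ?_⟩
  have e : qq ^ (k + k') * aeval qq G ^ (d + d') * (x * y) - aeval qq (r * r') =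
      (qq ^ k * aeval qq G ^ d * x) * (qq ^ k' * aeval qq G ^ d' * y - aeval qq r') +
      aeval qq r' * (qq ^ k * aeval qq G ^ d * x - aeval qq r) := by
    simp only [map_mul]
    ring
  rw [e]
  exact J.add_mem (J.mul_mem_left _ h') (J.mul_mem_left _ h)

private theorem KerF_pow {G : ℂ[X]} {J : Ideal R2} {x : R2} (hx : KerF_P (aeval qq G) J x)
    (k : ℕ) : KerF_P (aeval qq G) J (x ^ k) := by
  induction k with
  | zero => exact ⟨0, 0, 1, by simp⟩
  | succ k ih =>
    rw [pow_succ]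
    exact KerF_mul ih hx

private theorem KerF_all {G : ℂ[X]} {J : Ideal R2} (hJ : aeval qq G * ll - 1 ∈ J) (x : R2) :
    KerF_P (aeval qq G) J x := by
  have hq : KerF_P (aeval qq G) J qq := ⟨0, 0, X, by simp⟩
  have hl : KerF_P (aeval qq G) J ll := ⟨0, 1, 1, by simpa using hJ⟩
  obtain ⟨qi, hqi⟩ := qq_unit.exists_right_inv
  obtain ⟨li, hli⟩ := ll_unit.exists_right_inv
  have hqi' : KerF_P (aeval qq G) J qi := ⟨1, 0, 1, by simp [hqi]⟩
  have hli' : KerF_P (aeval qq G) J li := by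
    refine ⟨0, 0, G, ?_⟩
    have e : qq ^ 0 * aeval qq G ^ 0 * li - aeval qq G = -li * (aeval qq G * ll - 1) := by
      linear_combination (aeval qq G) * hli
    rw [e]
    exact J.mul_mem_left _ hJ
  have hp : ∀ p : P2, KerF_P (aeval qq G) J (algebraMap P2 R2 p) := by
    intro p
    induction p using MvPolynomial.induction_on with
    | C c =>
      refine ⟨0, 0, C c, ?_⟩
      have e1 : algebraMap P2 R2 (MvPolynomial.C c) = algebraMap ℂ R2 c := by
        rw [← MvPolynomial.algebraMap_eq, ← IsScalarTower.algebraMap_apply]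
      rw [e1, aeval_C]
      simp
    | add p q hp hq =>
      rw [map_add]
      exact KerF_add hp hq
    | mul_X p i hp =>
      rw [map_mul]
      refine KerF_mul hp ?_
      fin_cases i
      · exact hq
      · exact hl
  obtain ⟨p, ⟨_, k, rfl⟩, rfl⟩ := IsLocalization.exists_mk'_eq
    (Submonoid.powers (MvPolynomial.X 0 * MvPolynomial.X 1 : P2)) x
  have h1 := IsLocalization.mk'_spec R2 p (⟨(MvPolynomial.X 0 * MvPolynomial.X 1) ^ k, k, rfl⟩ :
    Submonoid.powers (MvPolynomial.X 0 * MvPolynomial.X 1 : P2))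
  set y := IsLocalization.mk' R2 p (⟨(MvPolynomial.X 0 * MvPolynomial.X 1) ^ k, k, rfl⟩ :
    Submonoid.powers (MvPolynomial.X 0 * MvPolynomial.X 1 : P2)) with hy
  have h2 : y * (qq * ll) ^ k = algebraMap P2 R2 p := by
    rw [← h1]
    simp only [map_pow, map_mul]
    rfl
  have h3 : y = algebraMap P2 R2 p * (qi * li) ^ k := by
    rw [← h2, mul_assoc, ← mul_pow]
    have e : qq * ll * (qi * li) = 1 := by
      calc qq * ll * (qi * li) = (qq * qi) * (ll * li) := by ring
        _ = 1 := by rw [hqi, hli, one_mul]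
    rw [e, one_pow, mul_one]
  change KerF_P (aeval qq G) J y
  rw [h3]
  exact KerF_mul (hp p) (KerF_pow (KerF_mul hqi' hli') k)

theorem pKerF : SKerF := by
  intro F hF
  set G : ℂ[X] := F.map (Int.castRingHom ℂ) with hG
  have hG1 : ∀ {R : Type} [CommRing R] [Algebra ℂ R] [Algebra ℤ R] (q : R),
      aeval q F = aeval q G :=
    fun q => (KerF_map q F).symm
  have hGne : G ≠ 0 := by
    intro h
    have h1 : G.eval 1 = 1 := by
      rw [hG, eval_map, eval₂_at_one, hF]
      simp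
    rw [h, eval_zero] at h1
    exact zero_ne_one h1
  have hf : aeval xx F ≠ 0 := by
    rw [hG1]
    exact fun h => hGne (KerF_inj h)
  refine ⟨hf, ?_⟩
  obtain ⟨π, hπq, hπl⟩ := R2_lift (S := K1) (a := xx) (b := (aeval xx F)⁻¹)
    (isUnit_iff_ne_zero.2 KerF_xx_ne) (isUnit_iff_ne_zero.2 (inv_ne_zero hf))
  have hπG : ∀ r : ℂ[X], π (aeval qq r) = aeval xx r := by
    intro r
    rw [← aeval_algHom_apply, hπq]
  have hgen : π (aeval qq F * ll - 1) = 0 := by
    rw [hG1 qq, map_sub, map_mul, hπG, hπl, hG1 xx, map_one]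
    rw [hG1 xx] at hf
    rw [mul_inv_cancel₀ hf, sub_self]
  have hker : ∀ x, π x = 0 → x ∈ Ideal.span {aeval qq F * ll - 1} := by
    intro x hx
    have hJ : aeval qq G * ll - 1 ∈ Ideal.span {aeval qq F * ll - 1} := by
      rw [hG1 qq]
      exact Ideal.subset_span rfl
    have hJπ : ∀ y ∈ Ideal.span {aeval qq F * ll - 1}, π y = 0 := by
      intro y hy
      obtain ⟨z, rfl⟩ := Ideal.mem_span_singleton.1 hy
      rw [map_mul, hgen, zero_mul]
    obtain ⟨k, d, r, h⟩ := KerF_all hJ x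
    have h1 := hJπ _ h
    rw [map_sub, map_mul, hx, mul_zero, hπG, zero_sub, neg_eq_zero] at h1
    rw [KerF_inj h1, map_zero, sub_zero] at h
    obtain ⟨qi, hqi⟩ := qq_unit.exists_right_inv
    have e : x = (qi ^ k * ll ^ d) * (qq ^ k * aeval qq G ^ d * x) -
        ((aeval qq G * ll) ^ d - 1) * x := by
      have e1 : (qi ^ k * ll ^ d) * (qq ^ k * aeval qq G ^ d * x) =
          (qq * qi) ^ k * (aeval qq G * ll) ^ d * x := by
        rw [mul_pow, mul_pow]
        ring
      rw [e1, hqi, one_pow]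
      ring
    rw [e]
    refine Ideal.sub_mem _ (Ideal.mul_mem_left _ _ h) (Ideal.mul_mem_right _ _ ?_)
    have h2 : aeval qq G * ll - 1 ∣ (aeval qq G * ll) ^ d - 1 := by
      simpa using sub_dvd_pow_sub_pow (aeval qq G * ll) 1 d
    exact Ideal.mem_of_dvd _ h2 hJ
  refine ⟨π, hπq, hπl, hker, ?_⟩
  have hne : aeval qq F * ll - 1 ≠ 0 := by
    intro h
    obtain ⟨π', h1, h2⟩ := R2_lift (S := K1) (a := 1) (b := xx) isUnit_one
      (isUnit_iff_ne_zero.2 KerF_xx_ne)
    have h3 := congrArg π' h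
    have h4 : π' (aeval qq F) = 1 := by
      have h5 := KerF_aeval (π' : R2 →+* K1) qq F
      have h6 : (π' : R2 →+* K1) qq = 1 := h1
      rw [h6] at h5
      refine h5.trans ?_
      rw [aeval_def, eval₂_at_one, hF, map_one]
    rw [map_sub, map_mul, h4, h2, one_mul, map_one, map_zero] at h3
    exact KerF_xx_one h3
  rw [← Ideal.span_singleton_prime hne]
  have h5 : Ideal.span {aeval qq F * ll - 1} = RingHom.ker (π : R2 →+* K1) := by
    refine le_antisymm ?_ fun x hx => hker x hx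
    rw [Ideal.span_singleton_le_iff_mem]
    exact hgen
  rw [h5]
  exact RingHom.ker_isPrime _

end Pool.Agent.Lib.MP_97567f_al
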