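import Pool.Agent.Lib.MP_97567f_al.SpecR

/-!
# MP_97567f_al: the Lawrence-Krammer matrices for `q = 1`
-/

set_option autoImplicit false

namespace Pool.Agent.Lib.MP_97567f_al

private theorem LkO_aeval {R : Type} [CommRing R] (p : Polynomial ℤ) (h : p.eval 1 = 0) :
    Polynomial.aeval (1 : R) p = 0 := by
  have h1 : (1 : R) = algebraMap ℤ R 1 := by simp
  rw [h1, Polynomial.aeval_algebraMap_apply, Polynomial.coe_aeval_eq_eval, h, map_zero]

theorem pLkO (h1 : SLkA) : SLkO := by
  intro n M hR hF C hC R _ l s b hb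
  obtain ⟨hroots, hup, hdown, hsimple, hact⟩ := h1 n M hR C
  obtain ⟨hmul, -, -, -⟩ := hact R 1 l
  have hb' := (hroots b).1 hb
  refine ⟨fun hbs => ?_, fun hbs => ?_⟩
  · rw [hmul s b hb, img, if_pos hbs, hbs]
  · have hz : Polynomial.aeval (1 : R) (fh M s b) = 0 := LkO_aeval _ (hF.ev s b hb'.1 hbs)
    have himg : (lk M C 1 l s).mulVec (xv M C b) =
        (if pr M b s = -1 then xv M C (b + e s) + (1 - (1 : R)) • xv M C b
          else if pr M b s = 1 then (1 : R) • xv M C (b - e s) else xv M C b) := by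
      rw [hmul s b hb, img, if_neg hbs, hz, mul_zero, zero_smul, add_zero]
    rcases hR.a.bnd b s hb'.1 hbs with h | h | h
    · have hs : s ∈ C := by
        by_contra hs
        have := hR.c.sat C b s hC hb'.2 hs
        omega
      have e1 : b - pr M b s • e s = b + e s := by rw [h, neg_one_zsmul, sub_neg_eq_add]
      rw [himg, if_pos h, e1, sub_self, zero_smul, add_zero]
      exact ⟨hup b hb s h hs, rfl⟩
    · have e1 : b - pr M b s • e s = b := by rw [h, zero_zsmul, sub_zero]
      rw [himg, if_neg (by omega), if_neg (by omega), e1]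
      exact ⟨hb, rfl⟩
    · have e1 : b - pr M b s • e s = b - e s := by rw [h, one_zsmul]
      rw [himg, if_neg (by omega), if_pos h, e1, one_smul]
      exact ⟨hdown b hb s h, rfl⟩

end Pool.Agent.Lib.MP_97567f_al
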