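import Pool.Agent.Lib.MP_97567f_al.SpecR

/-!
# MP_97567f_al: first facts on roots
-/

set_option autoImplicit false

namespace Pool.Agent.Lib.MP_97567f_al

variable {n : ℕ} {M : CoxeterMatrix (Fin n)}

private theorem RF1_pr_add (a b : Fin n → ℤ) (s : Fin n) :
    pr M (a + b) s = pr M a s + pr M b s := by
  unfold pr
  have h : ∑ j, (if adj M j s then (a + b) j else 0) =
      ∑ j, (if adj M j s then a j else 0) + ∑ j, (if adj M j s then b j else 0) := by
    rw [← Finset.sum_add_distrib]
    refine Finset.sum_congr rfl fun j _ => ?_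
    split_ifs
    · rfl
    · rw [add_zero]
  rw [h, Pi.add_apply]
  ring

private theorem RF1_pr_neg (a : Fin n → ℤ) (s : Fin n) : pr M (-a) s = -pr M a s := by
  unfold pr
  have h : ∑ j, (if adj M j s then (-a) j else 0) = -∑ j, (if adj M j s then a j else 0) := by
    rw [← Finset.sum_neg_distrib]
    refine Finset.sum_congr rfl fun j _ => ?_
    split_ifs
    · rfl
    · rw [neg_zero]
  rw [h, Pi.neg_apply]
  ring

private theorem RF1_pr_sub (a b : Fin n → ℤ) (s : Fin n) :
    pr M (a - b) s = pr M a s - pr M b s := by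
  rw [sub_eq_add_neg, RF1_pr_add, RF1_pr_neg, ← sub_eq_add_neg]

private theorem RF1_e_self (s : Fin n) : e s s = 1 := Pi.single_eq_same s 1

private theorem RF1_e_ne {s t : Fin n} (h : t ≠ s) : e s t = 0 := Pi.single_eq_of_ne h 1

private theorem RF1_e_nonneg (s t : Fin n) : 0 ≤ e s t := by
  by_cases h : t = s
  · rw [h, RF1_e_self]
    norm_num
  · rw [RF1_e_ne h]

private theorem RF1_pr_e (s t : Fin n) :
    pr M (e s) t = 2 * e s t - if adj M s t then 1 else 0 := by
  unfold pr
  congr 1
  rw [Finset.sum_eq_single s]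
  · rw [RF1_e_self]
  · intro j _ hj
    rw [RF1_e_ne hj, ite_self]
  · intro h
    exact absurd (Finset.mem_univ s) h

private theorem RF1_bf_add_left (a b c : Fin n → ℤ) : bf M (a + b) c = bf M a c + bf M b c := by
  unfold bf
  rw [← Finset.sum_add_distrib]
  refine Finset.sum_congr rfl fun s _ => ?_
  rw [Pi.add_apply, add_mul]

private theorem RF1_bf_neg_left (a c : Fin n → ℤ) : bf M (-a) c = -bf M a c := by
  unfold bf
  rw [← Finset.sum_neg_distrib]
  refine Finset.sum_congr rfl fun s _ => ?_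
  rw [Pi.neg_apply, neg_mul]

private theorem RF1_bf_add_right (a b c : Fin n → ℤ) :
    bf M a (b + c) = bf M a b + bf M a c := by
  unfold bf
  rw [← Finset.sum_add_distrib]
  refine Finset.sum_congr rfl fun s _ => ?_
  rw [RF1_pr_add, mul_add]

private theorem RF1_bf_neg_right (a b : Fin n → ℤ) : bf M a (-b) = -bf M a b := by
  unfold bf
  rw [← Finset.sum_neg_distrib]
  refine Finset.sum_congr rfl fun s _ => ?_
  rw [RF1_pr_neg, mul_neg]

private theorem RF1_bf_eq (a b : Fin n → ℤ) :
    bf M a b = 2 * ∑ s, a s * b s - ∑ s, ∑ j, if adj M j s then a s * b j else 0 := by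
  unfold bf pr
  rw [Finset.mul_sum, ← Finset.sum_sub_distrib]
  refine Finset.sum_congr rfl fun s _ => ?_
  rw [mul_sub, Finset.mul_sum]
  congr 1
  · ring
  · refine Finset.sum_congr rfl fun j _ => ?_
    split_ifs
    · rfl
    · rw [mul_zero]

private theorem RF1_bf_symm (a b : Fin n → ℤ) : bf M a b = bf M b a := by
  rw [RF1_bf_eq, RF1_bf_eq]
  congr 1
  · congr 1
    refine Finset.sum_congr rfl fun s _ => ?_
    ring
  · rw [Finset.sum_comm]
    refine Finset.sum_congr rfl fun s _ => Finset.sum_congr rfl fun j _ => ?_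
    by_cases h : adj M s j
    · rw [if_pos h, if_pos (adj_symm h), mul_comm]
    · rw [if_neg h, if_neg fun h' => h (adj_symm h')]

private theorem RF1_bf_e_left (s : Fin n) (b : Fin n → ℤ) : bf M (e s) b = pr M b s := by
  unfold bf
  rw [Finset.sum_eq_single s]
  · rw [RF1_e_self, one_mul]
  · intro j _ hj
    rw [RF1_e_ne hj, zero_mul]
  · intro h
    exact absurd (Finset.mem_univ s) h

private theorem RF1_bf_e_right (s : Fin n) (b : Fin n → ℤ) : bf M b (e s) = pr M b s := by
  rw [RF1_bf_symm, RF1_bf_e_left]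

private theorem RF1_pre (s : Fin n) : pr M (e s) s = 2 := by
  rw [RF1_pr_e, if_neg (adj_irrefl s), RF1_e_self]
  norm_num

private theorem RF1_bf_add_sq (a b : Fin n → ℤ) :
    bf M (a + b) (a + b) = bf M a a + 2 * bf M a b + bf M b b := by
  rw [RF1_bf_add_left, RF1_bf_add_right, RF1_bf_add_right, RF1_bf_symm b a]
  ring

private theorem RF1_bf_sub_sq (a b : Fin n → ℤ) :
    bf M (a - b) (a - b) = bf M a a - 2 * bf M a b + bf M b b := by
  rw [sub_eq_add_neg, RF1_bf_add_sq, RF1_bf_neg_right, RF1_bf_neg_left, RF1_bf_neg_right]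
  ring

private theorem RF1_even (x : Fin n → ℤ) : Even (bf M x x) := by
  rw [RF1_bf_eq]
  refine Even.sub (even_two_mul _) ?_
  rw [← (ZMod.intCast_zmod_eq_zero_iff_dvd _ 2).trans even_iff_two_dvd.symm]
  rw [← Finset.sum_product']
  push_cast
  refine Finset.sum_involution (fun p _ => (p.2, p.1)) ?_ ?_ ?_ ?_
  · rintro ⟨s, j⟩ _
    simp only
    by_cases h : adj M j s
    · rw [if_pos h, if_pos (adj_symm h)]
      have h2 : (2 : ZMod 2) = 0 := rfl
      linear_combination (x s : ZMod 2) * (x j : ZMod 2) * h2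
    · rw [if_neg h, if_neg fun h' => h (adj_symm h')]
      simp
  · rintro ⟨s, j⟩ _ h0 h
    simp only [Prod.mk.injEq] at h
    apply h0
    simp only
    rw [← h.1, if_neg (adj_irrefl _)]
  · rintro p _
    exact Finset.mem_univ _
  · rintro p _
    rfl

private theorem RF1_two_le (hM : SL M) {x : Fin n → ℤ} (hx : x ≠ 0) : 2 ≤ bf M x x := by
  have h1 := hM.pos x hx
  obtain ⟨k, hk⟩ := RF1_even (M := M) x
  omega

/-- a vector of norm two is nonnegative or nonpositive -/
private theorem RF1_sign (hM : SL M) {x : Fin n → ℤ} (hx : bf M x x = 2) :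
    (∀ i, 0 ≤ x i) ∨ ∀ i, x i ≤ 0 := by
  set p : Fin n → ℤ := fun i => max (x i) 0 with hp
  set m : Fin n → ℤ := fun i => max (-x i) 0 with hm
  have hpi : ∀ i, 0 ≤ p i := fun i => le_max_right _ _
  have hmi : ∀ i, 0 ≤ m i := fun i => le_max_right _ _
  have hpm : ∀ i, p i * m i = 0 := by
    intro i
    rcases le_total (x i) 0 with h | h
    · rw [hp]
      simp only
      rw [max_eq_right h, zero_mul]
    · rw [hm]
      simp only
      rw [max_eq_right (neg_nonpos.2 h), mul_zero]
  have hx' : x = p - m := by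
    funext i
    rw [Pi.sub_apply]
    rcases le_total (x i) 0 with h | h
    · rw [hp, hm]
      simp only
      rw [max_eq_right h, max_eq_left (neg_nonneg.2 h)]
      ring
    · rw [hp, hm]
      simp only
      rw [max_eq_left h, max_eq_right (neg_nonpos.2 h)]
      ring
  have h1 : bf M p m ≤ 0 := by
    rw [RF1_bf_eq]
    have h2 : ∑ s, p s * m s = 0 := Finset.sum_eq_zero fun s _ => hpm s
    rw [h2, mul_zero, zero_sub, neg_nonpos]
    refine Finset.sum_nonneg fun s _ => Finset.sum_nonneg fun j _ => ?_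
    split_ifs
    · exact mul_nonneg (hpi s) (hmi j)
    · exact le_rfl
  rw [hx', RF1_bf_sub_sq] at hx
  by_cases hp0 : p = 0
  · right
    intro i
    have := congrFun hp0 i
    rw [hp] at this
    exact max_eq_right_iff.1 this
  · by_cases hm0 : m = 0
    · left
      intro i
      have := congrFun hm0 i
      rw [hm] at this
      exact neg_nonpos.1 (max_eq_right_iff.1 this)
    · have := RF1_two_le hM hp0
      have := RF1_two_le hM hm0
      omega

private theorem RF1_simple (s : Fin n) : Rt M (e s) := by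
  refine ⟨?_, RF1_e_nonneg s⟩
  rw [RF1_bf_e_left, RF1_pre]

private theorem RF1_bnd (hM : SL M) (b : Fin n → ℤ) (s : Fin n) (hb : Rt M b) (hbs : b ≠ e s) :
    pr M b s = -1 ∨ pr M b s = 0 ∨ pr M b s = 1 := by
  have h1 := RF1_two_le hM (sub_ne_zero.2 hbs)
  have h2 : 2 ≤ bf M (b + e s) (b + e s) := by
    refine RF1_two_le hM fun h => ?_
    have h3 := congrFun h s
    rw [Pi.add_apply, RF1_e_self, Pi.zero_apply] at h3
    have := hb.2 s
    omega
  rw [RF1_bf_sub_sq, hb.1, RF1_bf_e_right, RF1_bf_e_left, RF1_pre] at h1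
  rw [RF1_bf_add_sq, hb.1, RF1_bf_e_right, RF1_bf_e_left, RF1_pre] at h2
  omega

private theorem RF1_up (b : Fin n → ℤ) (s : Fin n) (hb : Rt M b) (h : pr M b s = -1) :
    Rt M (b + e s) := by
  refine ⟨?_, fun i => ?_⟩
  · rw [RF1_bf_add_sq, hb.1, RF1_bf_e_right, RF1_bf_e_left, RF1_pre, h]
    norm_num
  · rw [Pi.add_apply]
    exact add_nonneg (hb.2 i) (RF1_e_nonneg s i)

private theorem RF1_down (hM : SL M) (b : Fin n → ℤ) (s : Fin n) (hb : Rt M b)
    (h : pr M b s = 1) : Rt M (b - e s) := by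
  have h1 : bf M (b - e s) (b - e s) = 2 := by
    rw [RF1_bf_sub_sq, hb.1, RF1_bf_e_right, RF1_bf_e_left, RF1_pre, h]
    norm_num
  refine ⟨h1, ?_⟩
  rcases RF1_sign hM h1 with h2 | h2
  · exact h2
  · exfalso
    have h3 : ∀ j, j ≠ s → b j = 0 := by
      intro j hj
      have h4 := h2 j
      rw [Pi.sub_apply, RF1_e_ne hj, sub_zero] at h4
      exact le_antisymm h4 (hb.2 j)
    have h5 : pr M b s = 2 * b s := by
      unfold pr
      rw [Finset.sum_eq_zero, sub_zero]
      intro j _
      split_ifs with h6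
      · exact h3 j (adj_ne h6)
      · rfl
    omega

private theorem RF1_desc (hM : SL M) (b : Fin n → ℤ) (hb : Rt M b) (h : ∀ s, b ≠ e s) :
    ∃ s, pr M b s = 1 := by
  by_contra h1
  push Not at h1
  have h2 : ∀ s, pr M b s ≤ 0 := by
    intro s
    rcases RF1_bnd hM b s hb (h s) with h3 | h3 | h3
    · omega
    · omega
    · exact absurd h3 (h1 s)
  have h3 : bf M b b ≤ 0 := by
    unfold bf
    exact Finset.sum_nonpos fun s _ => mul_nonpos_of_nonneg_of_nonpos (hb.2 s) (h2 s)
  rw [hb.1] at h3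
  norm_num at h3

theorem pRF1 : SRF1 := by
  intro n M hM
  refine ⟨RF1_pr_add, RF1_pr_sub, RF1_pre, ?_, ?_, RF1_simple, RF1_bnd hM, RF1_up,
    RF1_down hM, RF1_desc hM, ?_⟩
  · intro s t h
    rw [RF1_pr_e, if_pos h, RF1_e_ne (adj_ne h).symm]
    norm_num
  · intro s t hst h
    rw [RF1_pr_e, if_neg h, RF1_e_ne hst.symm]
    norm_num
  · intro b s hb h
    have h1 := (RF1_down hM b s hb h).2 s
    rw [Pi.sub_apply, RF1_e_self] at h1
    omega

end Pool.Agent.Lib.MP_97567f_al
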