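import Pool.Agent.Lib.MP_97567f_al.Base

/-!
# MP_97567f_al: the ring of Laurent polynomials in two variables

`R2 = ℂ[q, 1/q, l, 1/l]`, `K2` its field of fractions. `GenPair a b`: `a`, `b` are algebraically independent.
-/

set_option autoImplicit false

namespace Pool.Agent.Lib.MP_97567f_al

open MvPolynomial

/-- The polynomial ring in two variables. -/
abbrev P2 : Type := MvPolynomial (Fin 2) ℂ

/-- The ring of Laurent polynomials in two variables. -/
abbrev R2 : Type := Localization.Away (X 0 * X 1 : P2)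

theorem X01_ne : (X 0 * X 1 : P2) ≠ 0 := mul_ne_zero (X_ne_zero 0) (X_ne_zero 1)

theorem powers_le : Submonoid.powers (X 0 * X 1 : P2) ≤ nonZeroDivisors P2 :=
  powers_le_nonZeroDivisors_of_noZeroDivisors X01_ne

instance : IsDomain R2 := IsLocalization.isDomain_localization powers_le

instance : IsNoetherianRing R2 :=
  IsLocalization.isNoetherianRing (Submonoid.powers (X 0 * X 1 : P2)) _ inferInstance

/-- The first parameter. -/
noncomputable def qq : R2 := algebraMap P2 R2 (X 0)

/-- The second parameter. -/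
noncomputable def ll : R2 := algebraMap P2 R2 (X 1)

theorem qqll_unit : IsUnit (qq * ll) := by
  unfold qq ll
  rw [← map_mul]
  exact IsLocalization.Away.algebraMap_isUnit _

theorem qq_unit : IsUnit qq := isUnit_of_mul_isUnit_left qqll_unit

theorem ll_unit : IsUnit ll := isUnit_of_mul_isUnit_right qqll_unit

theorem algebraMap_injective : Function.Injective (algebraMap P2 R2) :=
  IsLocalization.injective R2 powers_le

/-- The field of fractions. -/
abbrev K2 : Type := FractionRing R2

/-- The universal property. -/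
theorem R2_lift {S : Type} [CommRing S] [Algebra ℂ S] {a b : S} (ha : IsUnit a) (hb : IsUnit b) :
    ∃ φ : R2 →ₐ[ℂ] S, φ qq = a ∧ φ ll = b := by
  let ψ : P2 →ₐ[ℂ] S := aeval ![a, b]
  have h1 : IsUnit (ψ (X 0 * X 1)) := by
    rw [map_mul]
    simp only [ψ, aeval_X]
    exact ha.mul hb
  have h2 : ∀ y : Submonoid.powers (X 0 * X 1 : P2), IsUnit (ψ y) := by
    rintro ⟨_, k, rfl⟩
    rw [map_pow]
    exact h1.pow k
  refine ⟨IsLocalization.liftAlgHom (M := Submonoid.powers (X 0 * X 1 : P2)) (f := ψ) h2, ?_, ?_⟩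
  · unfold qq
    rw [IsLocalization.liftAlgHom_apply]
    simp [ψ]
  · unfold ll
    rw [IsLocalization.liftAlgHom_apply]
    simp [ψ]

/-- Uniqueness. -/
theorem R2_ext {S : Type} [CommRing S] [Algebra ℂ S] {φ ψ : R2 →ₐ[ℂ] S} (hq : φ qq = ψ qq)
    (hl : φ ll = ψ ll) : φ = ψ := by
  have h1 : (φ : R2 →+* S).comp (algebraMap P2 R2) = (ψ : R2 →+* S).comp (algebraMap P2 R2) := by
    refine MvPolynomial.ringHom_ext (fun c => ?_) fun i => ?_
    · have e1 : algebraMap P2 R2 (C c) = algebraMap ℂ R2 c := by
        rw [← MvPolynomial.algebraMap_eq, ← IsScalarTower.algebraMap_apply]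
      change φ (algebraMap P2 R2 (C c)) = ψ (algebraMap P2 R2 (C c))
      rw [e1, AlgHom.commutes, AlgHom.commutes]
    · fin_cases i
      · exact hq
      · exact hl
  have h2 : (φ : R2 →+* S) = (ψ : R2 →+* S) :=
    IsLocalization.ringHom_ext (Submonoid.powers (X 0 * X 1 : P2)) h1
  exact AlgHom.ext fun x => congrArg (fun f => f x) h2

/-- `a`, `b` are algebraically independent over the complex numbers. -/
def GenPair {F : Type} [Field F] [Algebra ℂ F] (a b : F) : Prop :=
  ∃ φ : R2 →ₐ[ℂ] F, Function.Injective φ ∧ φ qq = a ∧ φ ll = b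

/-- Monomials in `R2`. -/
theorem qq_ne : qq ≠ 0 := qq_unit.ne_zero

theorem ll_ne : ll ≠ 0 := ll_unit.ne_zero

/-- Polynomial identities in `R2` can be checked in the polynomial ring. -/
theorem R2_ne {f g : P2} (h : f ≠ g) : algebraMap P2 R2 f ≠ algebraMap P2 R2 g :=
  fun h' => h (algebraMap_injective h')

end Pool.Agent.Lib.MP_97567f_al
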