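import Pool.Agent.Lib.MP_97567f_al.SpecZ

/-!
# MP_97567f_al: scalars are trivial
-/

set_option autoImplicit false

namespace Pool.Agent.Lib.MP_97567f_al

open Polynomial

private theorem Sca_inj : Function.Injective (algebraMap R2 K2) := IsFractionRing.injective R2 K2

private theorem Sca_xx : xx ≠ 0 := by
  unfold xx
  rw [Ne, IsFractionRing.to_map_eq_zero_iff]
  exact X_ne_zero

private theorem Sca_cz : CharZero K2 := by
  refine ⟨fun a b h => ?_⟩
  have h1 : algebraMap ℂ K2 (a : ℂ) = algebraMap ℂ K2 (b : ℂ) := by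
    rw [map_natCast, map_natCast]
    exact h
  exact Nat.cast_injective ((algebraMap ℂ K2).injective h1)

private theorem Sca_pow {a b : ℂ} (hb : b ≠ 0) (k : ℕ)
    (h : algebraMap ℂ K1 a * xx ^ k = algebraMap ℂ K1 b) : k = 0 := by
  have e1 : ∀ c : ℂ, algebraMap ℂ K1 c = algebraMap ℂ[X] K1 (C c) := by
    intro c
    rw [← Polynomial.algebraMap_eq, ← IsScalarTower.algebraMap_apply]
  rw [e1, e1] at h
  unfold xx at h
  rw [← map_pow, ← map_mul] at h
  have h1 := IsFractionRing.injective ℂ[X] K1 h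
  by_contra hk
  have h2 := congrArg (Polynomial.eval 0) h1
  rw [eval_mul, eval_C, eval_pow, eval_X, eval_C, zero_pow hk, mul_zero] at h2
  exact hb h2.symm

private theorem Sca_zpow {a : ℂ} (k : ℤ) (h : algebraMap ℂ K1 a * xx ^ k = 1) :
    k = 0 ∧ a = 1 := by
  have hk : k = 0 := by
    rcases Int.le_total 0 k with h0 | h0
    · obtain ⟨m, rfl⟩ := Int.eq_ofNat_of_zero_le h0
      rw [zpow_natCast] at h
      have h1 := Sca_pow (a := a) (b := 1) one_ne_zero m (by rw [h, map_one])
      rw [h1]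
      rfl
    · obtain ⟨m, hm⟩ := Int.eq_ofNat_of_zero_le (neg_nonneg.2 h0)
      have hk : k = -(m : ℤ) := by rw [← hm, neg_neg]
      subst hk
      rw [zpow_neg, zpow_natCast] at h
      have h1 : algebraMap ℂ K1 1 * xx ^ m = algebraMap ℂ K1 a := by
        rw [map_one, one_mul]
        exact (eq_of_mul_inv_eq_one h).symm
      have ha : a ≠ 0 := by
        rintro rfl
        rw [map_zero, zero_mul] at h
        exact zero_ne_one h
      rw [Sca_pow ha m h1]
      rfl
  refine ⟨hk, ?_⟩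
  rw [hk, zpow_zero, mul_one] at h
  exact (algebraMap ℂ K1).injective (h.trans (map_one _).symm)

theorem pSca (h1 : SLkA) (h2 : SLKr) (h3 : SUnits) (h4 : SKerQ) (h5 : SMono) : SSca := by
  intro n M hM hRF hFH C hSat hConn hne z hz hφ
  obtain ⟨s, hs⟩ := hne
  obtain ⟨-, -, -, hes, hlk⟩ := h1 n M hRF C
  obtain ⟨hgen, hbase⟩ := h2 n M hM hRF hFH C hSat
  let i0 : PR M C := ⟨e s, (hes s).2 hs⟩
  obtain ⟨m, hm⟩ := hz
  let r : R2 := (LKr M C qq ll z).1 i0 i0
  have hmr : m = algebraMap R2 K2 r := by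
    have e1 := congrFun (congrFun hm i0) i0
    rw [Matrix.map_apply, Matrix.smul_apply, Matrix.one_apply_eq, smul_eq_mul, mul_one] at e1
    exact e1.symm
  have hr : (LKr M C qq ll z).1 = r • (1 : Matrix (PR M C) (PR M C) R2) := by
    ext i j
    apply Sca_inj
    have e1 := congrFun (congrFun hm i) j
    rw [Matrix.map_apply, hmr] at e1
    rw [e1, Matrix.smul_apply, Matrix.smul_apply, smul_eq_mul, smul_eq_mul, map_mul]
    congr 1
    by_cases hij : i = j
    · subst hij
      rw [Matrix.one_apply_eq, Matrix.one_apply_eq, map_one]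
    · rw [Matrix.one_apply_ne hij, Matrix.one_apply_ne hij, map_zero]
  -- the degree
  obtain ⟨deg, hdeg⟩ := exists_deg hM.sl hSat
  have hdz : deg z = 1 := by
    have e1 := hφ ((AddMonoidHom.toMultiplicative (Int.castAddHom K2)).comp deg)
    have e2 : ((Multiplicative.toAdd (deg z) : ℤ) : K2) = 0 := congrArg Multiplicative.toAdd e1
    have := Sca_cz
    have e3 : Multiplicative.toAdd (deg z) = 0 := by exact_mod_cast e2
    exact Multiplicative.toAdd.injective e3
  -- the determinant
  obtain ⟨D, hDdef⟩ : ∃ D : Art M →* R2ˣ, ∀ x, D x =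
      Matrix.GeneralLinearGroup.det (LKr M C qq ll x) :=
    ⟨Matrix.GeneralLinearGroup.det.comp (LKr M C qq ll), fun _ => rfl⟩
  have hDadj : ∀ a b, adj M a b → D (gn M a) = D (gn M b) := by
    intro a b hab
    have e1 := congrArg D (art_braid hab)
    rw [map_mul, map_mul, map_mul, map_mul] at e1
    have e2 : D (gn M a) * D (gn M b) * D (gn M a) = D (gn M a) * D (gn M b) * D (gn M b) := by
      rw [e1, mul_comm (D (gn M b)) (D (gn M a))]
    exact mul_left_cancel e2
  have hDC' : ∀ t, Relation.ReflTransGen (adj M) s t → D (gn M t) = D (gn M s) := by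
    intro t e1
    induction e1 with
    | refl => rfl
    | tail _ h23 ih => exact (hDadj _ _ h23).symm.trans ih
  have hDC : ∀ t ∈ C, D (gn M t) = D (gn M s) := fun t ht => hDC' t (hConn s hs t ht)
  have hD : D = (zpowersHom R2ˣ (D (gn M s))).comp deg := by
    apply art_ext
    intro t
    change D (gn M t) = zpowersHom R2ˣ (D (gn M s)) (deg (gn M t))
    rw [hdeg]
    by_cases ht : t ∈ C
    · rw [if_pos ht, hDC t ht, zpowersHom_apply]
      simp
    · rw [if_neg ht, map_one, hDdef]
      have e1 : LKr M C qq ll (gn M t) = 1 := by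
        apply Units.ext
        rw [hgen R2 qq ll qq_unit ll_unit t, (hlk R2 qq ll).2.2.2 hSat t ht, Units.val_one]
      rw [e1, map_one]
  have hDz : D z = 1 := by
    rw [hD]
    change zpowersHom R2ˣ (D (gn M s)) (deg z) = 1
    rw [hdz, map_one]
  have hdet : r ^ Fintype.card (PR M C) = 1 := by
    have e1 : ((LKr M C qq ll z).1).det = 1 := by
      rw [hDdef] at hDz
      exact congrArg Units.val hDz
    rw [hr, Matrix.det_smul, Matrix.det_one, mul_one] at e1
    exact e1
  have hN : Fintype.card (PR M C) ≠ 0 := by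
    have : Nonempty (PR M C) := ⟨i0⟩
    exact Fintype.card_ne_zero
  have hru : IsUnit r := IsUnit.of_pow_eq_one hdet hN
  obtain ⟨c, i, j, hc, hrc⟩ := h3 r hru
  -- images of `r`
  have himg : ∀ (φ : R2 →ₐ[ℂ] K1), algebraMap ℂ K1 (c ^ Fintype.card (PR M C)) *
      (φ qq ^ i * φ ll ^ j) ^ Fintype.card (PR M C) = 1 := by
    intro φ
    have e1 := congrArg φ hdet
    rw [map_pow, map_one, hrc, map_mul, AlgHom.commutes, mul_pow, ← map_pow] at e1
    rw [← e1]
    congr 2
    have e2 : ∀ (u : R2ˣ) (k : ℤ), φ ((u ^ k : R2ˣ) : R2) = φ (u : R2) ^ k := by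
      intro u k
      have e3 := congrArg Units.val (map_zpow (Units.map (φ : R2 →* K1)) u k)
      rw [Units.val_zpow_eq_zpow_val] at e3
      exact e3
    rw [Units.val_mul, map_mul, e2, e2]
    rfl
  obtain ⟨φ1, hφ1q, hφ1l⟩ := R2_lift (S := K1) (a := xx) (b := 1) (isUnit_iff_ne_zero.2 Sca_xx)
    isUnit_one
  obtain ⟨π, hπq, hπl, -, -⟩ := h4
  have hi : i = 0 := by
    have e1 := himg φ1
    rw [hφ1q, hφ1l, one_zpow, mul_one, ← zpow_natCast (xx ^ i), ← zpow_mul] at e1
    have e2 := (Sca_zpow _ e1).1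
    rcases mul_eq_zero.1 e2 with e3 | e3
    · exact e3
    · exact absurd (by exact_mod_cast e3) hN
  have hj : j = 0 := by
    have e1 := himg π
    rw [hπq, hπl, one_zpow, one_mul, ← zpow_natCast (xx ^ j), ← zpow_mul] at e1
    have e2 := (Sca_zpow _ e1).1
    rcases mul_eq_zero.1 e2 with e3 | e3
    · exact e3
    · exact absurd (by exact_mod_cast e3) hN
  have hrc' : r = algebraMap ℂ R2 c := by
    rw [hrc, hi, hj, zpow_zero, zpow_zero, one_mul, Units.val_one, mul_one]
  -- the line `q = 1`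
  have hK : (LKr M C 1 xx z).1 = algebraMap ℂ K1 c • (1 : Matrix (PR M C) (PR M C) K1) := by
    have e1 := hbase R2 K1 (π : R2 →+* K1) qq ll qq_unit ll_unit z
    have e2 : (π : R2 →+* K1) qq = 1 := hπq
    have e3 : (π : R2 →+* K1) ll = xx := hπl
    rw [e2, e3] at e1
    rw [e1, hr, hrc']
    ext a b
    rw [Matrix.map_apply, Matrix.smul_apply, Matrix.smul_apply, smul_eq_mul, smul_eq_mul, map_mul]
    congr 1
    · exact AlgHom.commutes π c
    · by_cases hab : a = b
      · subst hab
        rw [Matrix.one_apply_eq, Matrix.one_apply_eq, map_one]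
      · rw [Matrix.one_apply_ne hab, Matrix.one_apply_ne hab, map_zero]
  obtain ⟨σ, k, hσ⟩ := (h5 n M hM hRF hFH C hSat K1 xx Sca_xx).1 z
  have e1 := hσ i0
  rw [hK, Matrix.smul_mulVec, Matrix.one_mulVec] at e1
  have e2 := congrFun e1 i0
  have e3 : xv M C (R := K1) i0.1 i0 = 1 := if_pos rfl
  rw [Pi.smul_apply, Pi.smul_apply, smul_eq_mul, smul_eq_mul, e3, mul_one] at e2
  have hcK : algebraMap ℂ K1 c ≠ 0 := by
    rw [Ne, map_eq_zero]
    exact hc
  have e4 : xv M C (R := K1) (σ i0).1 i0 = 1 := by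
    unfold xv
    rw [if_pos]
    by_contra hne
    apply hcK
    rw [e2]
    unfold xv
    rw [if_neg hne, mul_zero]
  rw [e4, mul_one] at e2
  have e5 : algebraMap ℂ K1 c * xx ^ (-(k i0)) = 1 := by
    rw [e2, ← zpow_add₀ Sca_xx, add_neg_cancel, zpow_zero]
  have hc1 := (Sca_zpow _ e5).2
  apply Units.ext
  rw [hr, hrc', hc1, map_one, one_smul, Units.val_one]

end Pool.Agent.Lib.MP_97567f_al
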