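import Pool.Agent.Lib.MP_97567f_al.SpecR
import Pool.Agent.Lib.MP_97567f_al.Rg

/-!
# MP_97567f_al: statements of the modules, part 2 (faithfulness, components, rigidity)

Every statement is a proposition `SName`; the module `Name.lean` proves `pName : SName`, or, if the docstring names
other statements, `pName` takes these as hypotheses.
-/

set_option autoImplicit false

namespace Pool.Agent.Lib.MP_97567f_al

open Polynomial

section faithful

/-- The element of a positive word. -/
def wd {n : ℕ} (M : CoxeterMatrix (Fin n)) (w : List (Fin n)) : Art M := (w.map (gn M)).prod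

/-- The matrix of a positive word for `q = 1 / 2`, `l = X`. -/
noncomputable def Pw {n : ℕ} (M : CoxeterMatrix (Fin n)) (w : List (Fin n)) :
    Matrix (PR M Finset.univ) (PR M Finset.univ) ℚ[X] :=
  (w.map (lk M Finset.univ (C (1 / 2)) X)).prod

/-- **Positivity** (from `SLkA`).
Proof. All entries of the matrices `lk s` have the value `≥ 0` at `X = 0` (they are `0`, `1`, `1 / 2` modulo `X`), so the same holds for `Pw w`. Claim, by induction on the length of `w`: if no `w'` satisfies
`wd w = gn s * wd w'` then the row `e s` of `Pw w` is not zero at `X = 0`. `w = []`: the identity matrix. `w = t :: w1`: `t ≠ s`. If `t, s` are not adjacent then the row `e s` of `lk t` at `X = 0` has the entry `1` at `e s`, and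
`s` does not divide `wd w1` (otherwise `wd w = gn t gn s .. = gn s gn t ..`), so by induction and positivity the row of `Pw w` is not zero. If they are adjacent the row `e s` of `lk t` has the entry `1 / 2`
at `e s` and `1 / 2` at `e s + e t`. If `s` does not divide `wd w1`: induction. If `wd w1 = gn s * wd w2` then `Pw w1 = Pw (s :: w2)` (hypothesis of well-definedness, see below), the row `e s + e t` of `lk s` at `X = 0` has
the entry `1` at `e t` (and no negative one), and `t` does not divide `wd w2` (otherwise `wd w = gn t gn s gn t .. = gn s gn t gn s ..`), so by induction (`w2` is shorter: apply the homomorphism to `ℤ` of `exists_deg` to compare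
the lengths) the row `e t` of `Pw w2` is not zero. Well-definedness: `wd w = wd w'` implies `Pw w = Pw w'`: map to the field of fractions of `ℚ[X]`, where it is `LKr` of `wd w` (`SLKr`). Do the induction over the length `n`, for all words `w` and all `s`. -/
def SHee : Prop :=
  ∀ (n : ℕ) (M : CoxeterMatrix (Fin n)), SL M → RF M → FH M (fh M) →
    (∀ w w', wd M w = wd M w' → Pw M w = Pw M w') ∧
    ∀ (w : List (Fin n)) (s : Fin n),
      (∃ w', wd M w = gn M s * wd M w') ↔
        ∀ g : PR M Finset.univ, g.1 = e s → ∀ b, (Pw M w g b).eval 0 = 0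

/-- **The positive monoid acts faithfully** (from `SHee`).
Proof. Induction on the length of `w`. If `w = []` then no row `e s` of `Pw w' = 1` is zero at `X = 0`, so `w' = []` (otherwise its first letter divides). If `w = s :: w1` then the row `e s` of `Pw w = Pw w'` is zero at `X = 0`, so
`wd w' = gn s * wd w2`, `Pw w' = lk s * Pw w2` (first part of `SHee`), `lk s` is injective (its determinant is not zero: it becomes a unit in the field of fractions, `SLkQ`), so `Pw w1 = Pw w2` and
`wd w1 = wd w2` by induction. -/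
def SMon : Prop :=
  ∀ (n : ℕ) (M : CoxeterMatrix (Fin n)), SL M → RF M → FH M (fh M) →
    ∀ w w', Pw M w = Pw M w' → wd M w = wd M w'

/-- The reflection of the simple root `e s`. -/
def rs {n : ℕ} (M : CoxeterMatrix (Fin n)) (s : Fin n) (x : Fin n → ℤ) : Fin n → ℤ :=
  x - (pr M x s) • e s

/-- The action of the word `w` (the last letter acts first). -/
def act {n : ℕ} (M : CoxeterMatrix (Fin n)) (w : List (Fin n)) (x : Fin n → ℤ) : Fin n → ℤ :=
  w.foldr (rs M) x

/-- The inverse of `act M w` (the first letter acts first). -/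
def iact {n : ℕ} (M : CoxeterMatrix (Fin n)) (w : List (Fin n)) (x : Fin n → ℤ) : Fin n → ℤ :=
  w.foldl (fun y s => rs M s y) x

/-- The inversions: the positive roots which `iact M w` maps to negative roots. -/
def Inv {n : ℕ} (M : CoxeterMatrix (Fin n)) (w : List (Fin n)) : Set (Fin n → ℤ) :=
  {b | Rt M b ∧ Rt M (-(iact M w b))}

/-- The word is reduced. -/
def Red {n : ℕ} (M : CoxeterMatrix (Fin n)) (w : List (Fin n)) : Prop :=
  (Inv M w).ncard = w.length

/-- **Inversions** (200 lines).
Proof. `rs M s` is an involution of `Fin n → ℤ`, additive, preserves `bf` and maps `e s` to `- e s`; `iact M w (act M w x) = x`. For every `b` with `bf b b = 2` exactly one of `b`, `- b` is a positive root (if `bf x x = 2` then `x ≥ 0` or `x ≤ 0`: with `x = p - m`, `p = max x 0`, `m = max (-x) 0`,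
`bf p m ≤ 0`, so `2 = bf x x ≥ bf p p + bf m m`, and a nonzero integral vector has `bf ≥ 2` as `bf x x` is even and positive). `rs M s` permutes the positive roots different from `e s` (from `RF1`: `up`, `down`, `bnd`). All sets `Inv w` are finite (`RF2.fin` with `C = univ`). `iact (s :: w) b = iact w (rs s b)`. (1) If `iact w (e s)` is positive
then `Inv (s :: w)` is the disjoint union of `{e s}` and the image of `Inv w` under `rs s`. (2) If `e s ∈ Inv w` then `Inv (s :: w)` is the image of `Inv w \ {e s}` under `rs s`. So (3) `(Inv w).ncard ≤ w.length`, and `s :: w` reduced implies `w` reduced and `e s ∉ Inv w`, and `w` reduced, `e s ∉ Inv w` implies `s :: w` reduced. (4) `e s ∈ Inv w`, `e t ∈ Inv w`, `s, t` adjacent: `e s + e t ∈ Inv w`.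
(5) Deletion: let `iact w (e s)` be negative, `w = s1 .. sk`. Let `j` be the first index with `iact (s1 .. sj) (e s)` negative; the root `iact (s1 .. s(j-1)) (e s)` is positive and its image under `rs sj` is negative, so it is `e sj`. With `u = s1 .. s(j-1)`: `act u (e sj) = e s`, so (`rs` is determined by the root: `rs s x = x - bf x (e s) • e s`, invariance) `rs s ∘ act u = act u ∘ rs sj`. So
with `w1 = w` without `sj`: `rs s ∘ act w1 = rs s (act u (act u' ..)) = act u (rs sj (act u' ..)) = act w` (`w = u ++ sj :: u'`), that is `act (s :: w1) = act w`, `w1.length + 1 = w.length`. -/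
def SInv : Prop :=
  ∀ (n : ℕ) (M : CoxeterMatrix (Fin n)), SL M → RF M →
    (∀ w x, iact M w (act M w x) = x ∧ act M w (iact M w x) = x) ∧
    (∀ w b, Rt M b → Rt M (iact M w b) ∨ Rt M (-(iact M w b))) ∧
    (∀ w b, Rt M b → Rt M (act M w b) ∨ Rt M (-(act M w b))) ∧
    (∀ s w, e s ∉ Inv M w → (Inv M (s :: w)).ncard = (Inv M w).ncard + 1) ∧
    (∀ s w, e s ∈ Inv M w → (Inv M (s :: w)).ncard + 1 = (Inv M w).ncard) ∧
    (∀ w, (Inv M w).Finite ∧ (Inv M w).ncard ≤ w.length) ∧
    (∀ s w, Red M (s :: w) → Red M w ∧ e s ∉ Inv M w ∧ e s ∈ Inv M (s :: w)) ∧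
    (∀ s w, Red M w → e s ∉ Inv M w → Red M (s :: w)) ∧
    (∀ w w', (∀ x, act M w x = act M w' x) → Inv M w = Inv M w') ∧
    ∀ s w, e s ∈ Inv M w → ∃ w1 : List (Fin n), w1.length + 1 = w.length ∧
      ∀ x, act M (s :: w1) x = act M w x

/-- **The theorem of Matsumoto** (from `SInv`, 150 lines).
Proof. By strong induction on `k` prove (b) for words of length `k` and (c) for words of length `k`: (b) if `w`, `w'` are reduced of length `k` with the same `act` then `wd w = wd w'`; (c) if `w` is reduced of length `k` and `e s ∈ Inv w` then there is `w1` of length `k - 1`, reduced, with `wd w = gn s * wd w1` and `act (s :: w1) = act w`.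
(c) from (b): the word `w1` of the last part of `SInv`; `s :: w1` has length `k` and the same `Inv` as `w`, so it is reduced, so `w1` is reduced; `wd w = wd (s :: w1)` by (b).
(b): `k = 0` clear. `w = s :: v`, `w' = t :: v'`; `v`, `v'` are reduced, `e s ∈ Inv w`, `e t ∈ Inv w' = Inv w`. `s = t`: `act v = act v'` (apply `rs s`), (b) for `k - 1`. `s ≠ t` not adjacent: `iact v (e t) = iact w (rs s (e t)) = iact w (e t)` is negative, so `e t ∈ Inv v` and (c) for `k - 1`: `wd v = gn t * wd v2`, `act (t :: v2) = act v`; similarly `wd v' = gn s * wd v2'`. `act v2 = rs t rs s act w = act v2'`,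
both reduced of length `k - 2`, so `wd v2 = wd v2'` and `gn s gn t = gn t gn s` (`art_comm`). Adjacent: `iact v (e t) = iact w (e s + e t)` is the sum of two negative roots, a root, so negative: `e t ∈ Inv v`, (c): `wd v = gn t * wd v2`, `act (t :: v2) = act v`. `iact v2 (e s) = iact w (rs s (rs t (e s))) = iact w (e t)` is negative, so
(c) for `k - 2`: `wd v2 = gn s * wd v3`. Similarly `wd v' = gn s * gn t * wd v3'`. `act v3 = rs s rs t rs s act w`, `act v3' = rs t rs s rs t act w` are equal, (b) for `k - 3`, `art_braid`. -/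
def SMat : Prop :=
  ∀ (n : ℕ) (M : CoxeterMatrix (Fin n)), SL M → RF M →
    (∀ w w', Red M w → Red M w' → (∀ x, act M w x = act M w' x) → wd M w = wd M w') ∧
    ∀ s w, Red M w → e s ∈ Inv M w → ∃ w1 : List (Fin n), Red M w1 ∧ wd M w = gn M s * wd M w1 ∧
      w1.length + 1 = w.length ∧ ∀ x, act M (s :: w1) x = act M w x

/-- **The Garside element** (from `SMat`, `SInv`, 200 lines).
Proof. Among all reduced words (their lengths are at most the number of positive roots, `[]` is reduced) let `w0` be one of maximal length. Then every `e s` is in `Inv w0` (otherwise `s :: w0` is reduced), so all positive roots are (nonnegative combinations of simple roots, `iact` is additive: the coordinates of the image are `≤ 0`). By `SMat` every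
`gn s` divides `wd w0` on the left. `iact w0` maps positive roots to negative ones and is a bijection of the set of all roots, so `x ↦ - iact w0 x` permutes the positive roots, and also the simple ones: `- iact w0 (e s)` is a positive root; the inverse `x ↦ - act w0 x` also maps positive roots to positive roots; if `- iact w0 (e s)` is not simple it is `c + e u`
with `c` a positive root (`RF1.desc`, `down`), and applying the inverse `e s` is a sum of two positive roots, impossible (coordinates). So `iact w0 (e s) = - e (τ s)`, `τ : Fin n → Fin n` injective, a permutation. `act w0 (e (τ s)) = - e s`, so `rs s ∘ act w0 = act w0 ∘ rs (τ s)` (`bf` is invariant). By `SMat`: `wd w0 = gn s * wd w1`, `act (s :: w1) = act w0`. The word `w1 ++ [τ s]` has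
`act = rs s ∘ act w0 ∘ rs (τ s) = act w0`, so the same `Inv`, and the length of `w0`: it is reduced and `wd w1 * gn (τ s) = wd w0`. So `gn s * wd w0 = gn s * wd w1 * gn (τ s) = wd w0 * gn (τ s)`. By induction `gn s * wd w0 ^ k = wd w0 ^ k * gn (τ ^ k s)`. Let `z` be the word `w0` repeated `N` times, `N = orderOf τ > 0`. If `n = 0`: `z = []`. -/
def SGar : Prop :=
  ∀ (n : ℕ) (M : CoxeterMatrix (Fin n)), SL M → RF M → ∃ z : List (Fin n),
    (∀ s, gn M s * wd M z = wd M z * gn M s) ∧ ∀ s, ∃ w, wd M z = gn M s * wd M w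

/-- **Faithfulness** (from `SMon`, `SGar`, `SLKr`).
Proof. Let `Z = wd z`, central. Every `x` in `Art M` is `wd w * (Z ^ k)⁻¹` (`art_induction`: `(gn s)⁻¹ = wd w' * Z⁻¹`). If `LKr x = 1` over `R2` then `LKr (wd w) = LKr (Z ^ k)`, where `Z ^ k` is the element of a
positive word `w'`. Map `R2` to the field of fractions of `ℂ[X]` by `qq ↦ 1 / 2`, `ll ↦ X` (`R2_lift`, second part of `SLKr`): the images of `Pw w` and `Pw w'` under the injective map `ℚ[X] → Frac ℂ[X]` are equal, so
`Pw w = Pw w'` and `wd w = wd w'`, `x = 1`. -/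
def SFai : Prop :=
  ∀ (n : ℕ) (M : CoxeterMatrix (Fin n)), SL M → RF M → FH M (fh M) →
    Function.Injective (LKr M Finset.univ qq ll)

end faithful

section components

/-- **Components of the variety of representations** (300 lines).
Proof. UNIVERSAL RING. `B = MvPolynomial (A × ι × ι) ℂ ⧸ I`, `I` generated by `X (1, i, k) - δ i k` and `X (x * y, i, k) - ∑ m, X (x, i, m) X (y, m, k)`; `ρu : A →* GL ι B` (the inverse of the matrix of `x` is that of `x⁻¹`). For every `ℂ`-algebra `S` and
`τ : A →* GL ι S` there is exactly one `ℂ`-algebra map `B → S` which maps `ρu` to `τ`. `B` is generated by the entries of `ρu s`, `ρu s⁻¹`, `s` in a finite generating set (the set of the `x` all whose entries lie in the subalgebra generated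
by them is a submonoid), so it is of finite type and Noetherian. For `α : MulAut A` let `σ α : B →ₐ B` be given by `ρu ∘ α`: `σ α (ρu x) = ρu (α x)`, so `σ (α * β) = σ α ∘ σ β`, `σ 1 = id`: an action of `MulAut A` on `B`
and on the finite set of the minimal primes of `B` (`finite_minimalPrimes_of_isNoetherianRing`). `π : B → R` given by `ρ`, surjective by hypothesis; `P = ker π` is prime; `p ≤ P` minimal (`Ideal.exists_minimalPrimes_le`). `H` = stabilizer of `p` (`σ α p = p`), of finite index.
`D = B ⧸ p` is a domain, `L` its field of fractions, `F` the algebraic closure of `L`, `P' = P / p` the prime of `D` with `D ⧸ P' = R`. The local ring of `D` at `P'` maps injectively into `F`; `LocalSubring.exists_le_valuationSubring` (or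
`exists_factor_valuationRing`) gives a valuation ring `O` of `F` which dominates it: `D ⊆ O` and the maximal ideal of `O` meets `D` in `P'`. So the residue field contains `D ⧸ P' = R`: `j`, injective, with `j (π b) = residue b`.
`ρ'` = image of `ρu`. For `α ∈ H` the automorphism of `D` induced by `σ α` extends to `L` and to the algebraic closure `F` (`IsAlgClosure.equivOfEquiv` or `IsAlgClosed.lift`). -/
def SComp : Prop :=
  ∀ (A : Type) [Group A], Group.FG A → ∀ (ι : Type) [Fintype ι] [DecidableEq ι] (R : Type)
    [CommRing R] [IsDomain R] [Algebra ℂ R] (ρ : A →* GL ι R),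
    Algebra.adjoin ℂ (Set.range fun p : A × ι × ι => (ρ p.1).1 p.2.1 p.2.2) = ⊤ →
    ∃ (F : Type) (_ : Field F) (_ : IsAlgClosed F) (_ : Algebra ℂ F) (O : ValuationSubring F)
      (j : R →+* IsLocalRing.ResidueField O) (ρ' : A →* GL ι O) (H : Subgroup (MulAut A)),
      H.FiniteIndex ∧ Function.Injective j ∧
      (∀ c : ℂ, ∃ h : algebraMap ℂ F c ∈ O,
        IsLocalRing.residue O ⟨algebraMap ℂ F c, h⟩ = j (algebraMap ℂ R c)) ∧
      (∀ x, (ρ' x).1.map (IsLocalRing.residue O) = (ρ x).1.map j) ∧
      ∀ α ∈ H, ∃ σ : F ≃ₐ[ℂ] F, ∀ x, (ρ' (α x)).1.map (algebraMap O F) =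
        ((ρ' x).1.map (algebraMap O F)).map σ

end components

section valuation

/-- **Independence lifts.**
Proof. Let `∑ c k v k = w` with `w` in `O^ι` (or `w = 0`). Let `c m` be one with the largest valuation. If `c m ∉ O` divide by `c m`: the relation `∑ (c k / c m) v k = w / c m` has coefficients in `O`, the right side
is in the maximal ideal, and its reduction is a nontrivial relation. So all `c k ∈ O`. For `w = 0`, `c ≠ 0`: divide by `c m` in any case. -/
def SVLI : Prop :=
  ∀ (F : Type) [Field F] (O : ValuationSubring F) (ι m : Type) [Fintype ι] [Fintype m]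
    (v : m → ι → O),
    LinearIndependent (IsLocalRing.ResidueField O) (fun k i => IsLocalRing.residue O (v k i)) →
    LinearIndependent F (fun k i => (v k i : F)) ∧
    ∀ (w : ι → O) (c : m → F), (∀ i, (w i : F) = ∑ k, c k * (v k i : F)) → ∀ k, c k ∈ O

/-- **The kernel does not grow** (from `SVLI`).
Proof. Let `r` be the rank of the reduction of `G`: `r` columns are independent modulo the maximal ideal, so (`SVLI`) these columns of `G` are independent over `F`. So the rank of `G` over `F` is at least `r`; rank and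
nullity. -/
def SVKer : Prop :=
  ∀ (F : Type) [Field F] (O : ValuationSubring F) (ι : Type) [Fintype ι] [DecidableEq ι]
    (G : Matrix ι ι O),
    Module.finrank F (LinearMap.ker (G.map (algebraMap O F)).mulVecLin) ≤
      Module.finrank (IsLocalRing.ResidueField O)
        (LinearMap.ker (G.map (IsLocalRing.residue O)).mulVecLin)

/-- **Eigenvectors lift** (from `SVKer`).
Proof. The characteristic polynomial of `G` is monic over `O` and splits over `F`; its roots are integral over `O`, so in `O`; modulo the maximal ideal it is the product of the `X - root`, and `lam` is a root of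
it, so some root `l'` lifts `lam`. Let `x ≠ 0` be an eigenvector over `F` for `l'`; divide by the coordinate of largest valuation: `x ∈ O^ι` with a coordinate `1`. Its reduction is a nonzero eigenvector for `lam`, so `c v̄` with
`c ≠ 0`; lift `c` to a unit and divide. The eigenspace over `F` has dimension `≤ 1` by `SVKer` applied to `G - l'`. -/
def SVEig : Prop :=
  ∀ (F : Type) [Field F] [IsAlgClosed F] (O : ValuationSubring F) (ι : Type) [Fintype ι]
    [DecidableEq ι] (G : Matrix ι ι O) (lam : IsLocalRing.ResidueField O)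
    (w : ι → IsLocalRing.ResidueField O), w ≠ 0 →
    (G.map (IsLocalRing.residue O)).mulVec w = lam • w →
    (∀ x, (G.map (IsLocalRing.residue O)).mulVec x = lam • x → ∃ c : IsLocalRing.ResidueField O,
      x = c • w) →
    ∃ (l' : O) (v : ι → O), IsLocalRing.residue O l' = lam ∧
      (∀ i, IsLocalRing.residue O (v i) = w i) ∧ G.mulVec v = l' • v ∧
      ∀ x : ι → F, (G.map (algebraMap O F)).mulVec x = (l' : F) • x →
        ∃ c : F, x = fun i => c * (v i : F)

end valuation

section rigidity

variable {n : ℕ}

/-- A deformation of the Lawrence-Krammer representation over a valuation ring. -/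
def IsDef (M : CoxeterMatrix (Fin n)) (C : Finset (Fin n)) {F : Type} [Field F]
    (O : ValuationSubring F) (q l : IsLocalRing.ResidueField O) (ρ : Art M →* GL (PR M C) O) :
    Prop :=
  ∀ s, (ρ (gn M s)).1.map (IsLocalRing.residue O) = lk M C q l s

/-- The lifted eigenvectors. -/
structure Eig (M : CoxeterMatrix (Fin n)) (C : Finset (Fin n)) {F : Type} [Field F]
    (O : ValuationSubring F) (l : IsLocalRing.ResidueField O) (ρ : Art M →* GL (PR M C) O)
    (l' : O) (v : Fin n → PR M C → O) : Prop where
  rl : IsLocalRing.residue O l' = l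
  rv : ∀ s ∈ C, ∀ b, IsLocalRing.residue O (v s b) = xv M C (e s) b
  eig : ∀ s ∈ C, (ρ (gn M s)).1.mulVec (v s) = l' • v s
  sgl : ∀ s ∈ C, ∀ x : PR M C → F,
    ((ρ (gn M s)).1.map (algebraMap O F)).mulVec x = (l' : F) • x →
      ∃ c : F, x = fun b => c * (v s b : F)

/-- The relations of two adjacent nodes. -/
structure Edg (M : CoxeterMatrix (Fin n)) (C : Finset (Fin n)) {F : Type} [Field F]
    (O : ValuationSubring F) (q : IsLocalRing.ResidueField O) (ρ : Art M →* GL (PR M C) O)
    (l' : O) (v : Fin n → PR M C → O) (s t : Fin n) (a b k : O) : Prop where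
  ra : IsLocalRing.residue O a = 1 - q
  rb : IsLocalRing.residue O b = -q
  rk : IsLocalRing.residue O k = q
  st : (ρ (gn M s)).1.mulVec ((ρ (gn M t)).1.mulVec (v s)) = k • v t
  qu : ∃ c : O, c * k = a * b * l' ∧
    (ρ (gn M s)).1.mulVec ((ρ (gn M s)).1.mulVec (v t)) =
      a • (ρ (gn M s)).1.mulVec (v t) - b • v t + c • v s

/-- **Eigenvectors** (from `SVEig`, `SLkQ`, `SLkA`, `SLKr`).
Proof. Modulo the maximal ideal: if `lk s x = l x` then `(l - 1) (l + q) x = F x • xv (e s)` (`SLkQ`), so `x` is a multiple of `xv (e s)` (`Gen.l1`, `Gen.lq`). Take one `s0 ∈ C` and `SVEig`: `l'`, `v s0`. For `t ∈ C` there is `x ∈ Art M` with `x * gn s0 * x⁻¹ = gn t`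
(for adjacent `s, t`: `(gn s gn t) gn s (gn s gn t)⁻¹ = gn t`). So `ρ x (v s0)` is an eigenvector of `gn t` for `l'`, its reduction is an eigenvector, a nonzero multiple `c` of `xv (e t)`; divide by a lift of `c`. The property `sgl` is transported by `ρ x`. -/
def SD1 : Prop :=
  ∀ (n : ℕ) (M : CoxeterMatrix (Fin n)), SL M → RF M → FH M (fh M) → ∀ (C : Finset (Fin n)),
    Sat M C → Conn M C → C.Nonempty → ∀ (F : Type) [Field F] [IsAlgClosed F]
    (O : ValuationSubring F) (q l : IsLocalRing.ResidueField O), Gen q l →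
    ∀ ρ : Art M →* GL (PR M C) O, IsDef M C O q l ρ →
      ∃ (l' : O) (v : Fin n → PR M C → O), Eig M C O l ρ l' v

/-- **The rank three part** (from `SLkA`, `SLkQ`).
Proof. Let `T` be the span of `xv (e s)`, `xv (e t)`, `xv (e s + e t)`. For all `x`: `(z - 1) (z - q ^ 3) x ∈ T`, `z = (g s g t) ^ 3`: check on the basis. A root `b` with both pairings zero is fixed modulo `T` by `g s` and `g t`. The
other roots outside of `T` form triples `b, b + s, b + s + t` with `pr b s = -1`, `pr b t = 0` (or `s, t` exchanged), on which (modulo `T`) `g s` has the matrix `[[1 - q, q, 0], [1, 0, 0], [0, 0, 1]]` and `g t` has `[[1, 0, 0], [0, 1 - q, q], [0, 1, 0]]`;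
compute `z = (g s g t) ^ 3` and `(z - 1) (z - q ^ 3) = 0`. If `z x = l ^ 2 q ^ 2 x` then `(l ^ 2 q ^ 2 - 1) (l ^ 2 q ^ 2 - q ^ 3) x ∈ T`, so `x ∈ T` (`Gen.z1`, `Gen.z3`), and `T` has dimension `≤ 3`. -/
def SD2 : Prop :=
  ∀ (n : ℕ) (M : CoxeterMatrix (Fin n)), RF M → FH M (fh M) → ∀ (C : Finset (Fin n)),
    Sat M C → ∀ (K : Type) [Field K] (q l : K), Gen q l → ∀ s ∈ C, ∀ t ∈ C, adj M s t →
      Module.finrank K (LinearMap.ker (((lk M C q l s * lk M C q l t) ^ 3 -
        (l ^ 2 * q ^ 2) • (1 : Matrix (PR M C) (PR M C) K)).mulVecLin)) ≤ 3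

/-- **The relation of two adjacent nodes, first form** (from `SD2`, `SVKer`, `SVLI`, `SLkA`).
Proof. `(st) s (st)⁻¹ = t`, so `ρ (st) (v s)` is an eigenvector of `gn t` for `l'`: `= k v t` (`sgl`; `k ∈ O` and `residue k = q` by reduction: `g s g t x (e s) = q x (e t)`; `k ∈ O` since a coordinate of `v t` is a unit).
`z = (st) ^ 3` commutes with `s` and `t`. So `z (v s) = ζ v s`, `ζ ∈ O` lifts `l ^ 2 q ^ 2` (compute `z x (e s)` in the reduction: `z = s ^ 2 (t s ^ 2 t)`, `g t g s g s g t x (e s) = q ^ 2 x (e s)`, from `g s g t x (e s) = q x (e t)` twice),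
and `z (v t) = ζ v t` (as `v t` is a multiple of `st v s`). The kernel of `z - ζ` over `F` has dimension `≤ 3` (`SVKer`, `SD2`), is stable under `s`, and contains `v s`, `v t`, `s v t`, `s ^ 2 v t`; the first three are independent modulo the maximal ideal
(`x (e s)`, `x (e t)`, `x (e s + e t) + (1 - q) x (e t)`), so `s ^ 2 v t = a s v t - b v t + c v s` with `a, b, c ∈ O` (`SVLI`), and by reduction `a, b, c` lift `1 - q`, `- q`, `- (1 - q) l`. -/
def SD3 : Prop :=
  ∀ (n : ℕ) (M : CoxeterMatrix (Fin n)), SL M → RF M → FH M (fh M) → ∀ (C : Finset (Fin n)),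
    Sat M C → ∀ (F : Type) [Field F] [IsAlgClosed F]
    (O : ValuationSubring F) (q l : IsLocalRing.ResidueField O), Gen q l →
    ∀ ρ : Art M →* GL (PR M C) O, IsDef M C O q l ρ → ∀ (l' : O) (v : Fin n → PR M C → O),
      Eig M C O l ρ l' v → ∀ s ∈ C, ∀ t ∈ C, adj M s t →
      ∃ a b c k : O, IsLocalRing.residue O a = 1 - q ∧ IsLocalRing.residue O b = -q ∧
        IsLocalRing.residue O c = -((1 - q) * l) ∧ IsLocalRing.residue O k = q ∧
        (ρ (gn M s)).1.mulVec ((ρ (gn M t)).1.mulVec (v s)) = k • v t ∧
        (ρ (gn M s)).1.mulVec ((ρ (gn M s)).1.mulVec (v t)) =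
          a • (ρ (gn M s)).1.mulVec (v t) - b • v t + c • v s

/-- **The relation of two adjacent nodes, second form** (from `SD3`, `SVLI`).
Proof. Let `k = k s t`, `k' = k t s`, `(a, b, c)` from `SD3` for `(s, t)`. Apply `t` to `s t v s = k v t`... First: `(t, s)` has the same `a, b`: conjugate by `st`: `t ^ 2 (st v t) = a t (st v t) - b (st v t) + c (st v s)`, with `st v t = l' s v t`,
`t s v t = k' v s`, `s v t = k' t⁻¹ v s`: `t ^ 2 v s = a t v s - b v s + c' v t` with `c' = c k / k'` (all are units except perhaps `c`; multiply out; `k`, `k'`, `b` lift nonzero elements, so they are units). Second: with `w = s v t`: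
`s⁻¹ v t = b⁻¹ (a v t + (c / l') v s - w)`, `t v s = k s⁻¹ v t`, `t w = k' v s`. Insert in `t ^ 2 v s = a t v s - b v s + c' v t`:
`((k c) / (b l') - a) t v s + ((k a l') / b - c') v t + (b - k k' / b) v s = 0`. `t v s`, `v t`, `v s` are independent modulo the maximal ideal, so `c k = a b l'`, `k k' = b ^ 2` (and `c' k' = a b l'`). -/
def SD4 : Prop :=
  ∀ (n : ℕ) (M : CoxeterMatrix (Fin n)), SL M → RF M → FH M (fh M) → ∀ (C : Finset (Fin n)),
    Sat M C → ∀ (F : Type) [Field F] [IsAlgClosed F]
    (O : ValuationSubring F) (q l : IsLocalRing.ResidueField O), Gen q l →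
    ∀ ρ : Art M →* GL (PR M C) O, IsDef M C O q l ρ → ∀ (l' : O) (v : Fin n → PR M C → O),
      Eig M C O l ρ l' v → ∀ s ∈ C, ∀ t ∈ C, adj M s t →
      ∃ a b k k' : O, k * k' = b ^ 2 ∧ Edg M C O q ρ l' v s t a b k ∧
        Edg M C O q ρ l' v t s a b k'

/-- **The same coefficients for all edges** (from `SD4`, `SVLI`).
Proof. `a, b` are determined by `(s, t)` and `v` (independence of `v s`, `v t`, `s v t`; they do not depend on the scaling of the eigenvectors). `(t, s)` has the same ones (`SD4`). For a path `s - t - u`, `s ≠ u` (so `s, u` commute, `tri`):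
`x = gn s * gn t * gn u` satisfies `x gn s x⁻¹ = gn t`, `x gn t x⁻¹ = gn u`, so `ρ x (v s)`, `ρ x (v t)` are multiples of `v t`, `v u` by units (`sgl`), and the relation for `(s, t)` is transported to the relation for `(t, u)` with the same `a, b`. `C` is connected: all edges
have the same `a, b` (induct along a path). If `C` has no edges take lifts of `1 - q`, `- q`. -/
def SD5 : Prop :=
  ∀ (n : ℕ) (M : CoxeterMatrix (Fin n)), SL M → RF M → FH M (fh M) → ∀ (C : Finset (Fin n)),
    Sat M C → Conn M C → ∀ (F : Type) [Field F] [IsAlgClosed F]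
    (O : ValuationSubring F) (q l : IsLocalRing.ResidueField O), Gen q l →
    ∀ ρ : Art M →* GL (PR M C) O, IsDef M C O q l ρ → ∀ (l' : O) (v : Fin n → PR M C → O),
      Eig M C O l ρ l' v → ∃ a b : O, IsLocalRing.residue O a = 1 - q ∧
        IsLocalRing.residue O b = -q ∧ ∀ s ∈ C, ∀ t ∈ C, adj M s t →
        ∃ k k' : O, k * k' = b ^ 2 ∧ Edg M C O q ρ l' v s t a b k ∧
          Edg M C O q ρ l' v t s a b k'

/-- **Scaling** (from `SD5`).
Proof. Let `k s t` be the elements of `SD5` (they are determined by `v`, as `v t ≠ 0`), units. We look for `c s ∈ O` with residue `1` such that `v' s = c s • v s` satisfies `s t v' s = - b v' t`: `c s k s t = - b c t`. For `(t, s)` it is the same condition, since `k s t k t s = b ^ 2`. The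
graph has no cycles: prove by induction on the number of elements of `U ⊆ C` that there is such a family `c` on `U` for all edges inside of `U` (`RF3.leaf`: remove `u` with at most one neighbour in `U`, and define `c u` by this neighbour; the residue of
`c s k s t / (- b)` is `1`). `Eig` holds for `v'`; `c = - a l'` in the quadratic relation. -/
def SD6 : Prop :=
  ∀ (n : ℕ) (M : CoxeterMatrix (Fin n)), SL M → RF M → FH M (fh M) → ∀ (C : Finset (Fin n)),
    Sat M C → Conn M C → ∀ (F : Type) [Field F] [IsAlgClosed F]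
    (O : ValuationSubring F) (q l : IsLocalRing.ResidueField O), Gen q l →
    ∀ ρ : Art M →* GL (PR M C) O, IsDef M C O q l ρ → ∀ (l' : O) (v : Fin n → PR M C → O),
      Eig M C O l ρ l' v → ∃ (a b : O) (v' : Fin n → PR M C → O), Eig M C O l ρ l' v' ∧
        IsLocalRing.residue O a = 1 - q ∧ IsLocalRing.residue O b = -q ∧
        ∀ s ∈ C, ∀ t ∈ C, adj M s t →
        (ρ (gn M s)).1.mulVec ((ρ (gn M t)).1.mulVec (v' s)) = (-b) • v' t ∧
        (ρ (gn M s)).1.mulVec ((ρ (gn M s)).1.mulVec (v' t)) =
          a • (ρ (gn M s)).1.mulVec (v' t) - b • v' t - (a * l') • v' s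

/-- **Commuting nodes** (from `SVLI`, `SLkA`).
Proof. Let `s, t ∈ C` be different and not adjacent. `gn t` commutes with `gn s`, so `ρ (gn t) (v s) = μ v s` (`sgl`), `μ ∈ O` lifts `1`. PATH s - u - t. Write `s, u, t` for the operators, `κ = - b`, `f = - a l'`. `y = u v s`, `y1 = t y`. `u t u = t u t` gives `u y1 = μ y1` (`u t u v s = t u t v s`).
`u y = u u v s = a y - b v s + f v u`. `(t ^ 2 - a t + b) y = (..) v t`: `(t ^ 2 - a t + b) v u = f v t`; `s⁻¹` commutes with `t` and `v t` is an eigenvector of `s`, and `s u v s = κ v u` (relation for `(s, u)`), so `y = κ s⁻¹ v u`. So `t y1 = a y1 - b y + m v t` for some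
`m`. `t u v t = κ v u` (relation for `(t, u)`). Now `t u t y1`: `u t y1 = a μ y1 - b u y + m u v t`, `t u t y1 = a μ t y1 - b t u y + m κ v u` has the component `a μ a - b a` at `y1` (with respect to the vectors `y1, y, v s, v u, v t, u v t`; `t u y = a y1 - b μ v s + f t v u`, and
`t v u = κ u⁻¹ v t`, a combination of `u v t`, `v t`, `v u`, from `u u v t = a u v t - b v t + f v u`). `u t u y1 = μ u t y1 = μ (a μ y1 - b u y + m u v t)` has the component `a μ ^ 2`. The six vectors are independent modulo the maximal ideal (their reductions are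
`x (s + u + t) + lower terms`, `x (s + u) + ..`, `x s`, `x u`, `x t`, `x (u + t) + ..`), so over `F`: `a ^ 2 μ - a b = a μ ^ 2`, and `a ≠ 0`: `μ ^ 2 - a μ + b = 0`. The polynomial `X ^ 2 - a X + b` has two roots `r1, r2` in `O`, lifting `1` and `- q` (`F` algebraically closed, `O` integrally closed), so `μ = r1`.
GENERAL PAIRS: if `t, t'` are adjacent and both different from and not adjacent to `s`, then `x = gn t gn t'` commutes with `gn s`, `x gn t x⁻¹ = gn t'`, so the two eigenvalues on `v s` are equal. Take a path from `t` to `s` in `C` (`Conn`) and the first node on it adjacent to `s`: this reduces to a path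
`s - u - t'`. -/
def SD7 : Prop :=
  ∀ (n : ℕ) (M : CoxeterMatrix (Fin n)), SL M → RF M → FH M (fh M) → ∀ (C : Finset (Fin n)),
    Sat M C → Conn M C → ∀ (F : Type) [Field F] [IsAlgClosed F]
    (O : ValuationSubring F) (q l : IsLocalRing.ResidueField O), Gen q l →
    ∀ ρ : Art M →* GL (PR M C) O, IsDef M C O q l ρ →
    ∀ (l' a b : O) (v : Fin n → PR M C → O), Eig M C O l ρ l' v →
      IsLocalRing.residue O a = 1 - q → IsLocalRing.residue O b = -q →
      (∀ s ∈ C, ∀ t ∈ C, adj M s t →
        (ρ (gn M s)).1.mulVec ((ρ (gn M t)).1.mulVec (v s)) = (-b) • v t ∧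
        (ρ (gn M s)).1.mulVec ((ρ (gn M s)).1.mulVec (v t)) =
          a • (ρ (gn M s)).1.mulVec (v t) - b • v t - (a * l') • v s) →
      ∃ r1 r2 : O, a = r1 + r2 ∧ b = r1 * r2 ∧ IsLocalRing.residue O r1 = 1 ∧
        IsLocalRing.residue O r2 = -q ∧
        ∀ s ∈ C, ∀ t ∈ C, s ≠ t → ¬ adj M s t → (ρ (gn M t)).1.mulVec (v s) = r1 • v s

/-- **The other nodes act by scalars** (from `SVLI`, `SLkS`, `SLKr`).
Proof. `u ∉ C` is not adjacent to any node of `C`, so `gn u` commutes with the subgroup generated by the `gn t`, `t ∈ C`; `ρ (gn u) (v s) = m v s` (`sgl`). The vectors `ρ x (v s)`, `x` in this subgroup, reduce to a generating system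
(`SLkS`), so some of them form a basis over `F` (`SVLI`). -/
def SD8 : Prop :=
  ∀ (n : ℕ) (M : CoxeterMatrix (Fin n)), SL M → RF M → FH M (fh M) → ∀ (C : Finset (Fin n)),
    Sat M C → Conn M C → C.Nonempty → ∀ (F : Type) [Field F] [IsAlgClosed F]
    (O : ValuationSubring F) (q l : IsLocalRing.ResidueField O), Gen q l →
    ∀ ρ : Art M →* GL (PR M C) O, IsDef M C O q l ρ → ∀ (l' : O) (v : Fin n → PR M C → O),
      Eig M C O l ρ l' v →
      (∀ u, u ∉ C → ∃ m : F, (ρ (gn M u)).1.map (algebraMap O F) =
        m • (1 : Matrix (PR M C) (PR M C) F)) ∧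
      ∀ s ∈ C, Submodule.span F {y : PR M C → F | ∃ x : Art M,
        y = ((ρ x).1.map (algebraMap O F)).mulVec fun b => (v s b : F)} = ⊤

/-- **The universal property of the Lawrence-Krammer module** (300 lines; from `SLkA`).
Proof. Write `f s b = l * aeval q (fh M s b)`. Define `x b ∈ W` for roots `b` with support in `C` by recursion on the height: `x (e s) = v s`; otherwise choose `u` with `pr b u = 1` and let `x b = g u x' - (1 - q) x' - f u (b - u) v u`, `x' = x (b - u)`. Claims, by strong induction on the height: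
(P) this holds for every `u` with `pr b u = 1`; (Q) `g t x b = x b + f t b v t` if `pr b t = 0`; (R) `(g t ^ 2 - (1 - q) g t - q) x b = (f t (b + t) + l f t b) v t` if `pr b t = -1`.
Preliminary: for adjacent `s, t` in `C`: `t v s = q s⁻¹ v t`, and from `s s v t = (1 - q) s v t + q v t - (1 - q) l v s`: `s v t - (1 - q) v t = t v s - (1 - q) v s` (multiply by `s`). (A)
(P) `u, u'` both with pairing `1`: adjacent: `b = e u + e u'` and (A). Not adjacent: `b2 = b - u - u'`, insert (P) for `b - u` and `b - u'`: both sides are `g u g u' x2 - (1 - q) (g u + g u') x2 + (1 - q) ^ 2 x2 - q f u' b2 v u' - q f u b2 v u` (`comm`).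
(Q) simple `b`: hypothesis. `u` with `pr b u = 1`, not adjacent to `t`: apply `g t` to the formula, `comm`. Adjacent: `c = b - u`, `d = c - t` (`pr d t = -1`, `pr d u = 0`), `x c = g t x d - (1 - q) x d - f t d v t`, `x b = g u x c - (1 - q) x c - f u c v u`, `g u x d = x d + f u d v u`, `g t x c = q x d + f t c v t` (from (P), (R));
`g t g u x c = g u g t x d + q f u d v t - (1 - q) g t x d - (1 - q) f u d g t v u - q f t d v u` (braid relation, `g t g u v t = q v u`, `g u g t v u = q v t`); then, with `f u c = f t d - (1 - q) f u d` (`r0`), `g t x b - x b = f t d (g u v t - g t v u + (1 - q) v u) + (q f u d - (1 - q) f t c - (1 - q) f t d) v t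
= (q f u d - (1 - q) f t c) v t` by (A), and this is `f t b v t` (`r1`).
(R) simple `b`: hypothesis (`one`). `u` with `pr b u = 1`, not adjacent to `t`: apply the operator to `x b = g u x' - ..`, `comm`. Adjacent: `c = b - u`, `pr c t = 0`, `pr c u = -1`; `L = g t ^ 2 - (1 - q) g t - q`. `L x c = f t c (l + q) v t`, `L v u = - (1 - q) l v t`. `g u x c = g u g t x c - f t c g u v t`,
`g t g u x c = g u g t g u x c - q f t c v u`, `g t ^ 2 g u x c = g u g t g u ^ 2 x c - q f t c g t v u`, `g u ^ 2 x c = (1 - q) g u x c + q x c + Φ v u`, `Φ = f u b + l f u c` (R), so `L g u x c = q Φ v t + q (1 - q) f t c v t` (A). So `L x b = (q Φ - (1 - q) l f t c + (1 - q) l f u c) v t`, and with `one`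
(`f t (b + t) = q f u b`) and `r0` (`f t b = f u c - (1 - q) f t c`) this is the claim.
`Θ` is the linear map with `xv b ↦ x b`; `pr b t = 1`: `g t x b = q x (b - t) + f t b v t` from (P) and (R). `u ∉ C`: `g u` fixes all `x b` (it commutes with the `g t`, `t ∈ C`). -/
def SUniv : Prop :=
  ∀ (n : ℕ) (M : CoxeterMatrix (Fin n)), SL M → RF M → FH M (fh M) → ∀ (C : Finset (Fin n)),
    Sat M C → ∀ (F W : Type) [Field F] [AddCommGroup W] [Module F W] (q l : F) (g : Art M →* (W ≃ₗ[F] W))
    (v : Fin n → W), q ≠ 0 → l ≠ 0 →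
    (∀ s ∈ C, g (gn M s) (v s) = l • v s) →
    (∀ s ∈ C, ∀ t, s ≠ t → ¬ adj M s t → g (gn M t) (v s) = v s) →
    (∀ s ∈ C, ∀ t ∈ C, adj M s t → g (gn M s) (g (gn M t) (v s)) = q • v t ∧
      g (gn M s) (g (gn M s) (v t)) =
        (1 - q) • g (gn M s) (v t) + q • v t - ((1 - q) * l) • v s) →
    ∃ Θ : (PR M C → F) →ₗ[F] W, (∀ s ∈ C, Θ (xv M C (e s)) = v s) ∧
      ∀ s y, Θ ((lk M C q l s).mulVec y) = g (gn M s) (Θ y)

/-- **Rigidity** (from `SD1`, `SD6`, `SD7`, `SD8`, `SUniv`, `SLkA`, `SLKr`).
Proof. `l'`, `v`, `a`, `b`, `r1`, `r2`, `m u` (`u ∉ C`, a unit of `F`) from these statements. The character `χ : Art M →* Fˣ`, `gn s ↦ r1` for `s ∈ C`, `gn u ↦ m u` (`art_lift`; for adjacent `u, u' ∉ C` the braid relation for the scalar matrices gives `m u = m u'`). The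
representation `g x = χ x⁻¹ ρ x` on `W = PR M C → F` with `q' = - r2 / r1`, `l'' = l' / r1` (elements of `O`, as `r1` is a unit, lifting `q`, `l`) satisfies the hypotheses of `SUniv`. `Θ` is surjective: its range is stable under all `g x` and contains `v s`; `SD8`. So `Θ` is bijective (equal
dimensions); its matrix is `g` in the claim. -/
def SRig : Prop :=
  ∀ (n : ℕ) (M : CoxeterMatrix (Fin n)), SL M → RF M → FH M (fh M) → ∀ (C : Finset (Fin n)),
    Sat M C → Conn M C → C.Nonempty → ∀ (F : Type) [Field F] [IsAlgClosed F]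
    (O : ValuationSubring F) (q l : IsLocalRing.ResidueField O), Gen q l →
    ∀ ρ : Art M →* GL (PR M C) O, IsDef M C O q l ρ →
      ∃ (q' l' : O) (χ : Art M →* Fˣ) (g : GL (PR M C) F), IsLocalRing.residue O q' = q ∧
        IsLocalRing.residue O l' = l ∧ ∀ x, (ρ x).1.map (algebraMap O F) =
          (χ x : F) • (g.1 * (LKr M C (q' : F) (l' : F) x).1 * (g⁻¹).1)

end rigidity

end Pool.Agent.Lib.MP_97567f_al
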