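import Pool.Agent.Lib.MP_97567f_al.SpecD

/-!
# MP_97567f_al: statements of the modules, part 3 (the parameters)

Every statement is a proposition `SName`; the module `Name.lean` proves `pName : SName`, or, if the docstring names
other statements, `pName` takes these as hypotheses. `C` is a component with at least three nodes. `ψ : R2 →ₐ[ℂ] F` injective
is the choice of two algebraically independent parameters in `F`.
-/

set_option autoImplicit false

namespace Pool.Agent.Lib.MP_97567f_al

open Polynomial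

instance : IsIntegrallyClosed R2 :=
  isIntegrallyClosed_of_isLocalization R2 (Submonoid.powers (MvPolynomial.X 0 * MvPolynomial.X 1 : P2)) powers_le

instance : UniqueFactorizationMonoid R2 := inferInstance

/-- The field of rational functions in one variable. -/
abbrev K1 : Type := FractionRing ℂ[X]

/-- The variable of `K1`. -/
noncomputable def xx : K1 := algebraMap ℂ[X] K1 X

section rings

/-- **The units** (80 lines).
Proof. `u = algebraMap f / (X0 X1) ^ k`, `u⁻¹ = algebraMap g / (X0 X1) ^ m`, so `f * g = (X0 X1) ^ (k + m)` in the factorial ring `P2`, where `X0`, `X1` are prime. So `f = c * X0 ^ i * X1 ^ j` up to a unit of `P2` (by induction on `k + m`: remove prime factors), and the units of `P2` are the nonzero constants. -/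
def SUnits : Prop :=
  ∀ u : R2, IsUnit u → ∃ (c : ℂ) (i j : ℤ), c ≠ 0 ∧
    u = algebraMap ℂ R2 c * ((qq_unit.unit ^ i * ll_unit.unit ^ j : R2ˣ) : R2)

/-- **The line `q = 1`.**
Proof. `π` from `R2_lift`. Kernel: `R2` is spanned by the `qq ^ i * ll ^ j` (`i, j ∈ ℤ`), and `qq ^ i - 1` is a multiple of `qq - 1` (also for `i < 0`), so every `x ∈ R2` is congruent to a combination `y` of the `ll ^ j` modulo `qq - 1`; multiply by a power of `ll`: `ll ^ m * y` is a polynomial `p` in `ll`, and
`π (ll ^ m * y) = p (xx) = 0` implies `p = 0`. `qq - 1` is prime: the quotient by the span embeds into `K1`, and `qq - 1 ≠ 0`. -/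
def SKerQ : Prop :=
  ∃ π : R2 →ₐ[ℂ] K1, π qq = 1 ∧ π ll = xx ∧ (∀ x, π x = 0 → x ∈ Ideal.span {qq - 1}) ∧
    Prime (qq - 1)

/-- **The curve `F (q) l = 1`.**
Proof. Let `f = aeval xx F`, not zero in `K1` (`F ≠ 0` since `F (1) = 1`, characteristic 0; `xx` is transcendental over `ℂ`). `π` from `R2_lift`. Kernel: let `J` be the span of `aeval qq F * ll - 1`. `Q := aeval qq F` satisfies `Q * ll ≡ 1` modulo `J`, so for `x ∈ R2`, `x = algebraMap p / (qq * ll) ^ k`, with `d` the degree of `p` in `X1`: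
`Q ^ d * algebraMap p ≡ aeval qq r` for a polynomial `r ∈ ℂ[X]`. If `π x = 0` then `aeval xx r = 0`, `r = 0`, so `Q ^ d * algebraMap p ∈ J`; multiply by `ll ^ d` (`(Q * ll) ^ d ≡ 1`): `algebraMap p ∈ J`, so `x ∈ J` (unit). `aeval qq F * ll - 1` is not zero (`π' : qq ↦ 1, ll ↦ xx` maps it to `xx - 1`), and it is prime since the quotient embeds into the
field `K1`. -/
def SKerF : Prop :=
  ∀ F : ℤ[X], F.eval 1 = 1 → aeval xx F ≠ 0 ∧
    ∃ π : R2 →ₐ[ℂ] K1, π qq = xx ∧ π ll = (aeval xx F)⁻¹ ∧
      (∀ x, π x = 0 → x ∈ Ideal.span {aeval qq F * ll - 1}) ∧ Prime (aeval qq F * ll - 1)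

/-- **Stabilizers of curves** (100 lines).
Proof. Let `S` be the set of the ideals `span {θ p}`, `θ ∈ Γ`. For `θ ∈ Γ`: `I ≤ span {θ p}` (apply `θ` to `I ≤ span {p}` and use `I ≤ θ (I)`, since `θ⁻¹ ∈ Γ` preserves `I`), and `θ p` is prime. Each `P ∈ S` is a minimal prime over `I`: if `I ≤ P' ≤ P = span {p'}`, `P'` prime, `P' ≠ P`, then `p' ∉ P'`, so every `x = p' y ∈ P'` has `y ∈ P'`, so all
elements of `P'` are divisible by all powers of `p'`, so `P' = ⊥` (in the domain `R2`, factorial: a nonzero element is divisible only by finitely many powers of a prime, `FiniteMultiplicity`), but `I ≠ ⊥`. So `S` is finite (`Ideal.finite_minimalPrimes_of_isNoetherianRing`). `Γ` acts on `S` (`θ • span {a} = span {θ a}`; use `Ideal.map` or `Ideal.comap`), and the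
stabilizer of `span {p}` has finite index (orbit and stabilizer); it is `Γ'`. -/
def SStab : Prop :=
  ∀ (Γ : Subgroup (R2 ≃ₐ[ℂ] R2)) (I : Ideal R2) (p : R2), Prime p → I ≠ ⊥ →
    I ≤ Ideal.span {p} → (∀ θ ∈ Γ, ∀ x ∈ I, θ x ∈ I) →
    ∃ Γ' : Subgroup (R2 ≃ₐ[ℂ] R2), Γ' ≤ Γ ∧ (Γ'.subgroupOf Γ).FiniteIndex ∧
      ∀ θ ∈ Γ', Ideal.span {θ p} = Ideal.span {p}

/-- **The automorphisms fixing both curves** (from `SUnits`, `SKerQ`, `SKerF`, 120 lines).
Proof. Let `θ` be in the set, and `η = θ⁻¹`, which also is in it. `θ qq` is a unit, `θ qq = c q ^ i l ^ j` (`SUnits`). `π₁ (θ (qq - 1)) = 0` for the map `π₁` of `SKerQ` (`π₁ (qq - 1) = 0`), so `c * xx ^ j = 1`, so `j = 0`, `c = 1` and `θ qq = qq ^ i`. Similarly `η qq = qq ^ i'`, and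
`qq = θ (η qq) = qq ^ (i i')`, so `i = 1` or `i = -1`. `θ ll = c q ^ k l ^ m` and `η ll = c' q ^ k' l ^ m'`, `ll = η (θ ll) = c (..) q ^ (..) l ^ (m m')`, so `m = 1` or `m = -1` (independence of the monomials: apply the homomorphism `qq ↦ 1`, `ll ↦ xx`). The map `π` of `SKerF` gives
`0 = π (θ (aeval qq F * ll - 1)) = aeval (xx ^ i) F * c * xx ^ k * (aeval xx F) ^ (- m) - 1`. So `c * xx ^ k` is determined by `i` and `m`; so `c` and `k` are. `θ` is determined by `θ qq`, `θ ll` (`R2_ext`), so there are at most 4 elements. -/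
def SFinU : Prop :=
  ∀ F : ℤ[X], F.eval 1 = 1 → {θ : R2 ≃ₐ[ℂ] R2 | Ideal.span {θ (qq - 1)} = Ideal.span {qq - 1} ∧
    Ideal.span {θ (aeval qq F * ll - 1)} = Ideal.span {aeval qq F * ll - 1}}.Finite

/-- **A finite group of automorphisms** (from `SStab`, `SFinU`, `SKerQ`, `SKerF`).
Proof. `SStab` for `I`, `qq - 1` and for `J`, `aeval qq F * ll - 1` gives two subgroups of finite index in `Γ`; their intersection is contained in the finite set of `SFinU` and has finite index in `Γ`. -/
def SFinA : Prop :=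
  ∀ (Γ : Subgroup (R2 ≃ₐ[ℂ] R2)) (I J : Ideal R2) (F : ℤ[X]), F.eval 1 = 1 → I ≠ ⊥ → J ≠ ⊥ →
    I ≤ Ideal.span {qq - 1} → J ≤ Ideal.span {aeval qq F * ll - 1} →
    (∀ θ ∈ Γ, ∀ x ∈ I, θ x ∈ I) → (∀ θ ∈ Γ, ∀ x ∈ J, θ x ∈ J) → Finite Γ

/-- **Roots with different multiplicities** (100 lines).
Proof. Let `w` be one of `x, y, z`, of multiplicity `m ∈ {1, a, b}` (these are different), algebraic over `K` (`P ≠ 0`), `μ = minpoly K w`, irreducible and separable (characteristic 0). Write `P = μ ^ k * Q` with `μ ∤ Q`. Over `F`: `μ` and `Q` have no common root (they are coprime over `K`), and `μ` splits with simple roots (its roots are roots of `P`, it divides `P`).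
So every root of `μ` in `F` has multiplicity `k` in `P`; as `w` is one, `k = m` and every root of `μ` has the multiplicity `m`, so it is `w`. So `μ` has degree 1 and `w ∈ K`. -/
def SRt : Prop :=
  ∀ (K F : Type) [Field K] [CharZero K] [Field F] [Algebra K F] (P : K[X]) (x y z : F) (a b : ℕ),
    1 < b → b < a → x ≠ y → y ≠ z → x ≠ z →
    P.map (algebraMap K F) = (X - C x) * (X - C y) ^ a * (X - C z) ^ b →
    (∃ x', algebraMap K F x' = x) ∧ (∃ y', algebraMap K F y' = y) ∧ ∃ z', algebraMap K F z' = z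

/-- **Descent of the intertwiner** (80 lines).
Proof. Let `e 1, .., e r` be a basis of the `K`-span of the entries of `g`, `g = ∑ k, e k • g k` with matrices `g k` over `K`. Comparing coefficients: `A j * g k = g k * B j` for all `j, k`. The polynomial `det (∑ k, X k • g k)` in `MvPolynomial (Fin r) K` is not zero, since its value at `e` is `det g ≠ 0`. As `K` is infinite it
has a nonzero value at some `t : Fin r → K` (`MvPolynomial.funext`); `h = ∑ k, t k • g k`. -/
def SDesc : Prop :=
  ∀ (K F : Type) [Field K] [Infinite K] [Field F] [Algebra K F] (ι J : Type) [Fintype ι]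
    [DecidableEq ι] (A B : J → Matrix ι ι K) (g : GL ι F),
    (∀ j, (A j).map (algebraMap K F) * g.1 = g.1 * (B j).map (algebraMap K F)) →
    ∃ h : GL ι K, ∀ j, A j * h.1 = h.1 * B j

end rings

section irr

variable {n : ℕ}

/-- **The entries generate the ring** (from `SLkA`, `SLKr`).
Proof. Let `s, t ∈ C` be adjacent (`C` is connected with at least 2 elements). The matrix `lk s` has the entry `ll` at `(e s, e s)` and its inverse `ll⁻¹`; `lk t` has the entry `qq` at `(e s, e s + e t)`, and `lk t x (e s + e t) = q x (e s) - (1 - q) l x (e t)`, `lk t x (e t) = l x (e t)` give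
`(lk t)⁻¹ x (e s) = q⁻¹ (x (e s + e t) + (1 - q) x (e t))`, so `(lk t)⁻¹` has the entry `qq⁻¹` at `(e s + e t, e s)`. `R2` is generated by `ℂ`, `qq`, `ll` and their inverses. -/
def SLkGen : Prop :=
  ∀ (n : ℕ) (M : CoxeterMatrix (Fin n)), SL M → RF M → FH M (fh M) → ∀ (C : Finset (Fin n)),
    Sat M C → Conn M C → 2 ≤ C.card →
    Algebra.adjoin ℂ (Set.range fun p : Art M × PR M C × PR M C =>
      (LKr M C qq ll p.1).1 p.2.1 p.2.2) = ⊤

/-- **The monomial representation `q = 1`** (from `SLkA`, `SLkO`, `SLKr`).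
Proof. First part: the set of the `x` with this property is a subgroup (`zpow` of the field `K`), and it contains the generators by `SLkO`: for `s ∈ C` the map `b ↦ b` if `b = e s`, `b - pr b s • e s` otherwise is an involution of `PR M C`; `s ∉ C`: identity. Second part: by induction on the height every `b` is mapped to a simple root (`RF1.desc`), and for adjacent
`s, t`: `gn s * gn t` maps `x (e s)` to `x (e t)` at `q = 1` (`x (e s) ↦ x (e s + e t) ↦ x (e t)`), `Conn`; inverses. -/
def SMono : Prop :=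
  ∀ (n : ℕ) (M : CoxeterMatrix (Fin n)), SL M → RF M → FH M (fh M) → ∀ (C : Finset (Fin n)),
    Sat M C → ∀ (K : Type) [Field K] (l : K), l ≠ 0 →
    (∀ x : Art M, ∃ (σ : Equiv.Perm (PR M C)) (k : PR M C → ℤ), ∀ b : PR M C,
      (LKr M C 1 l x).1.mulVec (xv M C b.1) = (l ^ k b) • xv M C (σ b).1) ∧
    (Conn M C → ∀ b c : PR M C, ∃ (x : Art M) (k : ℤ),
      (LKr M C 1 l x).1.mulVec (xv M C b.1) = (l ^ k) • xv M C c.1)

/-- **Absolute irreducibility** (from `SLkA`, `SLkQ`, `SLKr`, `SLkS`, `SLkO`, `SMono`, `SKerQ`, 200 lines).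
Proof. Let `A` be the span, a subalgebra (the matrices of a group). Fix `s ∈ C`. `A` contains the matrix of `v ↦ F v • x (e s)`, `F` the functional of `SLkQ` over `K2` (entries in `R2`: use the functional `F0` over `R2` too). By `SLkS` for every `b` the vector `x b` is a combination of the `LKr y x (e s)`, so `A` contains `v ↦ F v • x b` and (multiply by group elements on the right)
`v ↦ F (LKr h v) • x b` for all `h ∈ Art M`. For `b ∈ PR M C` choose `h b` with `LKr 1 xx (h b) x b = xx ^ k • x (e s)` over `K1` (`SMono`). The matrix `Q = (F0 (LKr (h b) (x c)))` (rows `b`, columns `c`, entries in `R2`) is mapped by `π : R2 → K1` of `SKerQ` to a diagonal matrix with nonzero diagonal entries: at `q = 1`,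
`(g s - 1) (g s + 1) x c = g s ^ 2 x c - x c` is `0` for `c ≠ e s` and `(xx ^ 2 - 1) x (e s)` for `c = e s` (`SLkO`), so the functional is `(xx ^ 2 - 1)` times the coordinate at `e s`, and `LKr (h b) (x c)` is a multiple of a basis vector `x c'`, `c' ≠ e s` for `c ≠ b` (`SMono`, `σ` is injective). So `det Q ≠ 0`, the functionals `v ↦ F (LKr (h b) v)` are
independent over `K2`, so they span the dual space, and `A` contains all matrices `v ↦ φ v • x b`, so all matrices. -/
def SIrr : Prop :=
  ∀ (n : ℕ) (M : CoxeterMatrix (Fin n)), SL M → RF M → FH M (fh M) → ∀ (C : Finset (Fin n)),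
    Sat M C → Conn M C → C.Nonempty →
    Submodule.span K2 (Set.range fun x : Art M => (LKr M C qq ll x).1.map (algebraMap R2 K2)) = ⊤

/-- **The characteristic polynomial of a generator** (from `SLkA`, `SLkQ`, `SLKr`, 200 lines).
Proof. Let `m0`, `m1` be the numbers of `b ∈ roots M C` with `pr b s = 0`, `pr b s = -1`; the number with `pr b s = 1` is also `m1` (`b ↦ b - e s`), `e s` is the only one with `pr b s = 2`. `a = m0 + m1`, `b = m1`. Diagonal entries of `lk s`: `l` at `e s`, `1` if `pr b s = 0`, `1 - q` if `pr b s = -1`, `0` if `pr b s = 1`. So the trace is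
`l + m0 + m1 (1 - q)`. Over `K2` the matrix `G` is annihilated by `(X - l) (X - 1) (X + q)` (`SLkQ` and `G x (e s) = l x (e s)`), so in an algebraic closure (or in `K2` itself: all irreducible factors of the characteristic polynomial divide the minimal polynomial, `Matrix.minpoly_dvd_charpoly` and eigenvalues) the characteristic polynomial is
`(X - l) ^ m (X - 1) ^ a' (X + q) ^ b'`, and the trace `m l + a' - b' q` gives `m = 1`, `a' = m0 + m1`, `b' = m1` (`1`, `qq`, `ll` are independent over the integers). The characteristic polynomial is the image of the one over `R2`, so the identity holds over `R2` and after `ψ`. `1 < m1`, `0 < m0`: there are adjacent `s, t` and `u ≠ s, t` in `C` adjacent to `s` or `t`.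
If `t, u` are adjacent (so `s, u` are not, `tri`): `e t`, `e t + e u` have pairing `-1`, `e u` has pairing `0`. If `s, u` are adjacent: `e t`, `e u` have pairing `-1`, `e s + e t + e u` is a root with pairing `0`. -/
def SChar : Prop :=
  ∀ (n : ℕ) (M : CoxeterMatrix (Fin n)), SL M → RF M → FH M (fh M) → ∀ (C : Finset (Fin n)),
    Sat M C → Conn M C → 3 ≤ C.card → ∀ s ∈ C, ∃ a b : ℕ, 1 < b ∧ b < a ∧
      ∀ (F : Type) [Field F] [Algebra ℂ F] (ψ : R2 →ₐ[ℂ] F),
        (lk M C (ψ qq) (ψ ll) s).charpoly = (X - Polynomial.C (ψ ll)) * (X - Polynomial.C 1) ^ a *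
          (X - Polynomial.C (-ψ qq)) ^ b ∧
        (lk M C (ψ qq) (ψ ll) s).trace = ψ ll + a - b * ψ qq

/-- The commutator of the powers with exponent `N!`, `N` the number of the roots. -/
noncomputable def cmx (M : CoxeterMatrix (Fin n)) (C : Finset (Fin n)) (x y : Art M) : Art M :=
  x ^ (Fintype.card (PR M C)).factorial * y ^ (Fintype.card (PR M C)).factorial *
    (x ^ (Fintype.card (PR M C)).factorial)⁻¹ * (y ^ (Fintype.card (PR M C)).factorial)⁻¹

/-- The ideal of the commutators of powers. -/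
noncomputable def I1 (M : CoxeterMatrix (Fin n)) (C : Finset (Fin n)) : Ideal R2 :=
  Ideal.span {r | ∃ x y z : Art M, r =
    (LKr M C qq ll (z * cmx M C x y)).1.trace - (LKr M C qq ll z).1.trace}

/-- The ideal of the Gram determinants. -/
noncomputable def I2 (M : CoxeterMatrix (Fin n)) (C : Finset (Fin n)) : Ideal R2 :=
  Ideal.span {r | ∃ x : PR M C × PR M C → Art M, r =
    (Matrix.of fun i j => (LKr M C qq ll (x i * x j)).1.trace).det}

/-- The representation with the parameters `θ qq`, `θ ll` is a twist of the one composed with `α`. -/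
def Tw (M : CoxeterMatrix (Fin n)) (C : Finset (Fin n)) (α : MulAut (Art M))
    (θ : R2 →ₐ[ℂ] R2) : Prop :=
  Function.Injective θ ∧ ∃ (χ : Art M →* R2ˣ) (g : GL (PR M C) K2), ∀ x,
    (LKr M C qq ll (α x)).1.map (algebraMap R2 K2) =
      (algebraMap R2 K2 (χ x : R2)) •
        (g.1 * (LKr M C (θ qq) (θ ll) x).1.map (algebraMap R2 K2) * (g⁻¹).1)

/-- **The ideal `I1` is not zero** (from `SLkA`, `SLkQ`, `SLKr`, `SIrr`, 200 lines).
Proof. Let `N = card (PR M C)`, `j = N! ≥ 1`, `s, t` adjacent in `C`. If `I1 = ⊥` then with `Y` the matrix of `cmx M C (gn s) (gn t)` over `K2`: `trace (ρ z * (Y - 1)) = 0` for all `z`, so by `SIrr` `trace (Z * (Y - 1)) = 0` for all matrices `Z` and `Y = 1`: the matrices `S = lk s ^ j` and `T = lk t ^ j` commute. `T x (e t) = l ^ j x (e t)`, so `y = S x (e t)`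
satisfies `T y = l ^ j y`. `y = A j x (e s + e t) + A (j + 1) x (e t) + (..) x (e s)`, where `A 0 = 0`, `A 1 = 1`, `A (k + 2) = (1 - q) A (k + 1) + q A k`, so `(1 + q) A k = 1 - (- q) ^ k`, which is not zero for `k = j` (`q` transcendental). The polynomials `(X - 1) (X + q)` and `X ^ j - l ^ j` are coprime over `K2` (`1`, `- q` are not roots of the second one), the vector
`u = (lk t - l) y` is annihilated by `lk t ^ j - l ^ j` and by `(lk t - 1) (lk t + q)` (`SLkQ`: the image of this is in the line of `x (e t)`, on which `lk t = l`), so `u = 0`. So `(l - 1) (l + q) y = F y • x (e t)`, and `y` is a multiple of `x (e t)`: contradiction to `A j ≠ 0`. -/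
def SIdA : Prop :=
  ∀ (n : ℕ) (M : CoxeterMatrix (Fin n)), SL M → RF M → FH M (fh M) → ∀ (C : Finset (Fin n)),
    Sat M C → Conn M C → 2 ≤ C.card → I1 M C ≠ ⊥

/-- **The ideal `I1` on the line `q = 1`** (from `SMono`, `SKerQ`, `SLKr`).
Proof. `π : R2 → K1` of `SKerQ`. The matrices `LKr 1 xx x` are monomial with permutation `σ` (`SMono`); `σ ^ N! = 1`, so `LKr 1 xx (x ^ N!)` is diagonal. Diagonal matrices commute, so the image of `cmx M C x y` is the identity and `π` maps all generators of `I1` to `0`. -/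
def SIdB : Prop :=
  ∀ (n : ℕ) (M : CoxeterMatrix (Fin n)), SL M → RF M → FH M (fh M) → ∀ (C : Finset (Fin n)),
    Sat M C → I1 M C ≤ Ideal.span {qq - 1}

/-- **The ideal `I2` is not zero** (from `SIrr`).
Proof. By `SIrr` there are `x i ∈ Art M` (`i ∈ PR M C × PR M C`, the number of these is the dimension of the space of matrices) whose matrices `Y i` over `K2` are a basis of the space of matrices. If `∑ j, c j * trace (Y i * Y j) = 0` for all `i`, then `Y = ∑ j, c j • Y j` satisfies `trace (Z * Y) = 0` for all `Z`, so `Y = 0`, `c = 0`. So the determinant is not zero. -/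
def SIdC : Prop :=
  ∀ (n : ℕ) (M : CoxeterMatrix (Fin n)), SL M → RF M → FH M (fh M) → ∀ (C : Finset (Fin n)),
    Sat M C → Conn M C → C.Nonempty → I2 M C ≠ ⊥

/-- **The ideal `I2` on the curve `F (q) l = 1`** (from `SLkA`, `SLkW`, `SKerF`, `SLKr`).
Proof. `F` from `SLkW` and `π : R2 → K1` from `SKerF`. Over `K1`, with the parameters `xx`, `(aeval xx F)⁻¹`, the vector `w = (1, .., 1)` is fixed by all `lk s` (`s ∈ C`: `SLkW`; `s ∉ C`: `lk s = 1`), so by all `LKr x`. The linear map `Y ↦ Y w - (Y w) (b0) w` (`b0` a fixed root) on the matrices is zero on all `LKr x` and not zero, since there are at least two roots. So the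
`LKr x` span a proper subspace, and for every family `x i`, `i ∈ PR M C × PR M C`, the matrices are linearly dependent: `∑ j, c j • LKr (x j) = 0`, `c ≠ 0`. So `∑ j, c j * trace (LKr (x i * x j)) = 0` for all `i` and the determinant is `0` in `K1`. -/
def SIdD : Prop :=
  ∀ (n : ℕ) (M : CoxeterMatrix (Fin n)), SL M → RF M → FH M (fh M) → ∀ (C : Finset (Fin n)),
    Sat M C → Conn M C → 2 ≤ C.card → ∃ F : ℤ[X], F.eval 1 = 1 ∧
      I2 M C ≤ Ideal.span {aeval qq F * ll - 1}

/-- **The ideals are invariant** (from `SLKr`).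
Proof. Taking traces in `Tw`: `trace (ρ (α x)) = χ x * θ (trace (ρ x))` in `R2` (`algebraMap` to `K2` is injective, `LKr (θ qq) (θ ll) x` is the image of `LKr qq ll x`). So for a generator of `I1`: `θ (trace ρ (z * cmx x y) - trace ρ z) = (χ z)⁻¹ (trace ρ (α z * cmx (α x) (α y)) - trace ρ (α z))`, as `χ` is trivial on commutators.
For `I2`: `θ (det (trace ρ (x i * x j))) = det ((χ (x i))⁻¹ (χ (x j))⁻¹ trace ρ (α (x i) * α (x j)))` is a unit times a generator. -/
def SIdE : Prop :=
  ∀ (n : ℕ) (M : CoxeterMatrix (Fin n)), SL M → RF M → FH M (fh M) → ∀ (C : Finset (Fin n)),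
    Sat M C → ∀ (α : MulAut (Art M)) (θ : R2 →ₐ[ℂ] R2), Tw M C α θ →
      (∀ r ∈ I1 M C, θ r ∈ I1 M C) ∧ ∀ r ∈ I2 M C, θ r ∈ I2 M C

end irr

section params

variable {n : ℕ}

/-- **The component of the representation** (from `SComp`, `SRig`, `SLkGen`, `SLKr`).
Proof. `SComp` for `A = Art M` (`art_fg`), `ι = PR M C`, `R = R2`, `ρ = LKr M C qq ll`. With `q = j qq`, `l = j ll` in the residue field the parameters are generic (`Gen`: all of these are images of nonzero elements of `R2`, and `j` is injective; an inequality in `R2` by applying a homomorphism to `ℂ` (`R2_lift`) with suitable values) and `IsDef` holds: `lk M C q l s = (lk M C qq ll s).map j` (`SLKr`).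
`SRig` gives `q', l' ∈ O`, `χ`, `g`. `q', l'` are units of `O`, and the `ℂ`-algebra map `ψ : R2 → F` with `ψ qq = q'`, `ψ ll = l'` is injective: for `p ∈ P2`: `ψ (p) ∈ O` and its residue is `j (p (qq, ll))` (third property of `SComp`), so it is not zero if `p ≠ 0`. For `α ∈ H`: `σ : F ≃ₐ F` with `ρ' (α x) = σ (ρ' x)`: insert `ρ' x = χ x • g LKr q' l' x g⁻¹` on both sides:
`LKr q' l' (α x) = (χ (α x))⁻¹ σ (χ x) • g⁻¹ σ(g) LKr (σ q') (σ l') x σ(g)⁻¹ g`. `ψ' = σ ∘ ψ`. -/
def SG0 : Prop :=
  ∀ (n : ℕ) (M : CoxeterMatrix (Fin n)), SL M → RF M → FH M (fh M) → ∀ (C : Finset (Fin n)),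
    Sat M C → Conn M C → 2 ≤ C.card →
    ∃ (F : Type) (_ : Field F) (_ : Algebra ℂ F) (ψ : R2 →ₐ[ℂ] F) (H : Subgroup (MulAut (Art M))),
      Function.Injective ψ ∧ H.FiniteIndex ∧ ∀ α ∈ H, ∃ (ψ' : R2 →ₐ[ℂ] F) (χ : Art M →* Fˣ)
        (g : GL (PR M C) F), Function.Injective ψ' ∧ ∀ x, (LKr M C (ψ qq) (ψ ll) (α x)).1 =
          (χ x : F) • (g.1 * (LKr M C (ψ' qq) (ψ' ll) x).1 * (g⁻¹).1)

/-- **The parameters are units of `R2`** (from `SChar`, `SRt`, `SLKr`, `SLkA`, 150 lines).
Proof. `F` is an algebra over `K2` by the extension of `ψ`. For `s ∈ C`, `c = χ (gn s)`: the characteristic polynomial of `LKr qq ll (α (gn s))` over `R2` is mapped by `ψ` to the one of `c • g lk (ψ' qq) (ψ' ll) s g⁻¹`, which is `(X - c ψ' ll) (X - c) ^ a (X + c ψ' qq) ^ b` (`SChar`; scaling), with three different roots (`ψ'` is injective). `SRt`: the roots are in the image of `K2`, and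
since they are roots of a monic polynomial over the integrally closed domain `R2` they are in the image of `R2`: `c ψ' ll = ψ x`, `c = ψ y`, `- c ψ' qq = ψ z`. The same for the inverse: `x * y ^ a * z ^ b` is up to sign the determinant of `LKr qq ll (α (gn s))`, a unit, so `x, y, z` are units of `R2`. So `ψ' qq`, `ψ' ll`, `χ (gn s)` are images of units. For `s ∉ C`: `LKr (ψ' ..) (gn s) = 1`, so
`LKr (ψ ..) (α (gn s)) = χ (gn s)` is a scalar matrix, which is the image of a matrix over `R2` with inverse over `R2`; so `χ (gn s)` is the image of a unit. So `χ` has values in the image of `R2ˣ` (`art_closure`), and as `ψ` is injective `χ = ψ ∘ χ'`. `θ` from `R2_lift`; `ψ ∘ θ = ψ'` (`R2_ext`), so `θ` is injective. -/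
def SG1 : Prop :=
  ∀ (n : ℕ) (M : CoxeterMatrix (Fin n)), SL M → RF M → FH M (fh M) → ∀ (C : Finset (Fin n)),
    Sat M C → Conn M C → 3 ≤ C.card → ∀ (F : Type) [Field F] [Algebra ℂ F]
    (ψ ψ' : R2 →ₐ[ℂ] F), Function.Injective ψ → Function.Injective ψ' →
    ∀ (α : MulAut (Art M)) (χ : Art M →* Fˣ) (g : GL (PR M C) F),
      (∀ x, (LKr M C (ψ qq) (ψ ll) (α x)).1 =
        (χ x : F) • (g.1 * (LKr M C (ψ' qq) (ψ' ll) x).1 * (g⁻¹).1)) →
      ∃ (θ : R2 →ₐ[ℂ] R2) (χ' : Art M →* R2ˣ), Function.Injective θ ∧ (∀ r, ψ (θ r) = ψ' r) ∧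
        ∀ x, ψ (χ' x : R2) = χ x

/-- **Existence of the twist** (from `SG0`, `SG1`, `SDesc`, `SLKr`).
Proof. `F`, `ψ`, `H` from `SG0`; for `α ∈ H` let `θ`, `χ'` be as in `SG1`. `F` is an algebra over `K2` by the extension of `ψ`. `SDesc` with `J = Art M`, `A x` the matrix of `LKr qq ll (α x)` over `K2`, `B x` the matrix `χ' x • LKr (θ qq) (θ ll) x` over `K2`, and the `g` of `SG0` gives the matrix `h`. -/
def SG2 : Prop :=
  ∀ (n : ℕ) (M : CoxeterMatrix (Fin n)), SL M → RF M → FH M (fh M) → ∀ (C : Finset (Fin n)),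
    Sat M C → Conn M C → 3 ≤ C.card → ∃ H : Subgroup (MulAut (Art M)), H.FiniteIndex ∧
      ∀ α ∈ H, ∃ θ : R2 →ₐ[ℂ] R2, Tw M C α θ

/-- **Uniqueness** (from `SChar`, `SLKr`).
Proof. Let `s ∈ C`, `c = χ (gn s)`. Comparing characteristic polynomials over `K2`: `(X - l) (X - 1) ^ a (X + q) ^ b = (X - c θ l) (X - c) ^ a (X + c θ q) ^ b`, with three different roots of multiplicities `1`, `a`, `b` on both sides (`Polynomial.rootMultiplicity`, or count the roots). So `c = 1`, `θ l = l`, `θ q = q`; `R2_ext`. -/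
def SG3 : Prop :=
  ∀ (n : ℕ) (M : CoxeterMatrix (Fin n)), SL M → RF M → FH M (fh M) → ∀ (C : Finset (Fin n)),
    Sat M C → Conn M C → 3 ≤ C.card → ∀ θ : R2 →ₐ[ℂ] R2, Tw M C 1 θ → θ = AlgHom.id ℂ R2

/-- **Composition** (from `SLKr`).
Proof. `ρ = LKr qq ll`. `ρ (α (β x)) = χ (β x) • g θ(ρ (β x)) g⁻¹` and `ρ (β x) = χ' x • h η(ρ x) h⁻¹`, apply `θ` (extended to `K2 → K2`, it is injective): `ρ (α (β x)) = χ (β x) θ (χ' x) • g θ(h) θ(η(ρ x)) θ(h)⁻¹ g⁻¹`. `LKr (θ (η qq)) (θ (η ll)) x` is the image of `ρ x` under `θ ∘ η` (`SLKr`). -/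
def SG4 : Prop :=
  ∀ (n : ℕ) (M : CoxeterMatrix (Fin n)), SL M → RF M → FH M (fh M) → ∀ (C : Finset (Fin n)),
    Sat M C → ∀ (α β : MulAut (Art M)) (θ η : R2 →ₐ[ℂ] R2), Tw M C α θ → Tw M C β η →
      Tw M C (α * β) (θ.comp η)

/-- **A finite index subgroup acts by twists with the same parameters** (from `SG2`, `SG3`, `SG4`, `SFinA`, `SIdA`, `SIdB`, `SIdC`, `SIdD`, `SIdE`).
Proof. Let `H` be as in `SG2`. For `α ∈ H` and `Tw α θ`, `Tw α⁻¹ η`: `Tw 1 (θ ∘ η)`, `Tw 1 (η ∘ θ)`, so `θ ∘ η = id = η ∘ θ` and `θ` is an automorphism, determined by `α` (if also `Tw α θ'` then `θ' ∘ η = id`). So there is a homomorphism `Θ : H →* (R2 ≃ₐ[ℂ] R2)` with `Tw α (Θ α)`. Its range `Γ` preserves `I1` and `I2`, so it is finite (`SFinA`, with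
`F` from `SIdD`). The kernel of `Θ` has finite index in `H`; its image in `MulAut (Art M)` has finite index. -/
def SG6 : Prop :=
  ∀ (n : ℕ) (M : CoxeterMatrix (Fin n)), SL M → RF M → FH M (fh M) → ∀ (C : Finset (Fin n)),
    Sat M C → Conn M C → 3 ≤ C.card → ∃ H : Subgroup (MulAut (Art M)), H.FiniteIndex ∧
      ∀ α ∈ H, Tw M C α (AlgHom.id ℂ R2)

end params

end Pool.Agent.Lib.MP_97567f_al
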