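import Pool.Agent.Lib.MP_97567f_al.ArtB

/-!
# MP_97567f_al: statements of the modules, part 1 (roots, the Lawrence-Krammer representation)

Every statement is a proposition `SName`; the module `Name.lean` proves `pName : SName`, or, if the docstring names
other statements, `pName` takes these as hypotheses. Universal hypotheses as `RF M` (facts on roots) and `FH M (fh M)`
(properties of the polynomials) are part of the statements.
-/

set_option autoImplicit false

namespace Pool.Agent.Lib.MP_97567f_al

/-- First facts on roots. -/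
structure RF1 {n : ℕ} (M : CoxeterMatrix (Fin n)) : Prop where
  pr_add : ∀ a b s, pr M (a + b) s = pr M a s + pr M b s
  pr_sub : ∀ a b s, pr M (a - b) s = pr M a s - pr M b s
  pre : ∀ s, pr M (e s) s = 2
  pra : ∀ s t, adj M s t → pr M (e s) t = -1
  prn : ∀ s t, s ≠ t → ¬ adj M s t → pr M (e s) t = 0
  simple : ∀ s, Rt M (e s)
  bnd : ∀ b s, Rt M b → b ≠ e s → pr M b s = -1 ∨ pr M b s = 0 ∨ pr M b s = 1
  up : ∀ b s, Rt M b → pr M b s = -1 → Rt M (b + e s)
  down : ∀ b s, Rt M b → pr M b s = 1 → Rt M (b - e s)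
  desc : ∀ b, Rt M b → (∀ s, b ≠ e s) → ∃ s, pr M b s = 1
  coord : ∀ b s, Rt M b → pr M b s = 1 → 1 ≤ b s

/-- More facts on roots. -/
structure RF2 {n : ℕ} (M : CoxeterMatrix (Fin n)) : Prop where
  tri : ∀ i j k, adj M i j → adj M j k → ¬ adj M i k
  nomm : ∀ b s t, Rt M b → adj M s t → pr M b s = -1 → pr M b t = -1 → False
  pp : ∀ b s t, Rt M b → adj M s t → pr M b s = 1 → pr M b t = 1 → b = e s + e t
  hte : ∀ s : Fin n, ht (e s) = 1
  htu : ∀ b s, Rt M b → ht (b + e s) = ht b + 1
  htd : ∀ b s, Rt M b → pr M b s = 1 → ht b = ht (b - e s) + 1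
  ht1 : ∀ b, Rt M b → 1 ≤ ht b
  ht1e : ∀ b, Rt M b → ht b = 1 → ∃ s, b = e s
  fin : ∀ C : Finset (Fin n), {b : Fin n → ℤ | Rt M b ∧ ∀ i, i ∉ C → b i = 0}.Finite

/-- Facts on components. -/
structure RF3 {n : ℕ} (M : CoxeterMatrix (Fin n)) : Prop where
  leaf : ∀ U : Finset (Fin n), U.Nonempty → ∃ u ∈ U, ∀ v ∈ U, ∀ w ∈ U,
    adj M u v → adj M u w → v = w
  suppc : ∀ b, Rt M b → ∃ s, ∀ i, i ∉ cmp M s → b i = 0
  sat : ∀ (C : Finset (Fin n)) b s, Sat M C → (∀ i, i ∉ C → b i = 0) → s ∉ C → pr M b s = 0
  cmps : ∀ s, Sat M (cmp M s) ∧ Conn M (cmp M s) ∧ s ∈ cmp M s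

/-- All facts on roots. -/
structure RF {n : ℕ} (M : CoxeterMatrix (Fin n)) : Prop where
  a : RF1 M
  b : RF2 M
  c : RF3 M

/-- **First facts on roots.**
Proof. `pr_add`, `pr_sub`, `pre`, `pra`, `prn` are direct computations (`adj_irrefl`, `adj_symm`, `Pi.single`). `bf` is bilinear and
symmetric, `bf M b (e s) = pr M b s = bf M (e s) b`. `simple`: `bf (e s) (e s) = 2`. `bf x x` is even (`Σ 2 x_s ^ 2 - 2 Σ_{s < t}`; or: `bf x x = Σ_s x_s pr x s` and the
sum over the ordered pairs of neighbours is twice an integer), so `2 ≤ bf x x` for `x ≠ 0`. Key fact: if `bf x x = 2` then `x ≥ 0` or `x ≤ 0`: with `x = p - m`, `p = max x 0`,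
`m = max (-x) 0` (disjoint supports), `bf p m ≤ 0` (off the diagonal the form is `≤ 0`), so `2 = bf x x ≥ bf p p + bf m m`, and both are `≥ 2` if `p ≠ 0 ≠ m`. `bnd`:
`bf (b - e s) (b - e s) = 4 - 2 pr b s` and `bf (b + e s) (b + e s) = 4 + 2 pr b s` are `≥ 2` unless `b = e s` (`b + e s ≠ 0` as `b ≥ 0`): so `pr b s ≤ 1` and `-1 ≤ pr b s`. `up`: clear.
`down`: `bf (b - e s) (b - e s) = 2`, so `b - e s ≥ 0` or `≤ 0`; in the second case `0 ≤ b ≤ e s`, `b = e s` or `b = 0`, but `pr (e s) s = 2`. `desc`: `2 = Σ_s b_s pr b s`, so `pr b s > 0` for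
some `s`; `bnd`. `coord`: `b - e s ≥ 0` by `down`. -/
def SRF1 : Prop := ∀ (n : ℕ) (M : CoxeterMatrix (Fin n)), SL M → RF1 M

/-- **More facts on roots.**
Proof. `tri`: `x = e i + e j + e k` has `bf x x = 6 - 6 = 0` and `x ≠ 0`. `nomm`: `b + e s + e t` has norm `2 + 2 + 2 - 2 - 2 - 2 = 0`, but it is `≠ 0` since all coordinates are `≥ 0`.
`pp`: `b - e s` is a root or `b = e s` (excluded, `pr (e s) s = 2`), `pr (b - e s) t = 2`, so `b - e s = e t` by `bnd`. Heights: `∑ b` is `≥ 0`, so `ht b` is the sum. `ht1`: `b ≠ 0`.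
`ht1e`: `desc` and `htd` give `ht (b - e s) = 0` otherwise. `fin`: the vectors with `bf x x ≤ 2` are finite in number: for example by induction on the height every root of height `h`
lies in the finite set `T_h`, `T_1` the simple roots, `T_{h+1} = {b + e s}`; the heights are bounded: if there were roots of arbitrary large height there would be infinitely many integral
vectors of norm 2, but `bf` is positive definite over the rational numbers (clear denominators), so over the reals it is positive semidefinite, and its determinant is not zero, so it is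
positive definite over the reals and the set is bounded (`Matrix.PosDef`; or the following elementary argument: the integral matrix `G` of `bf` is invertible over `ℚ`, so for each `i` there are
an integer `d > 0` and an integral vector `c` with `bf x c = d * x i` for all `x`; by Cauchy-Schwarz (from positivity on integral vectors) `(d x_i)^2 ≤ bf x x * bf c c = 2 bf c c`). -/
def SRF2 : Prop := ∀ (n : ℕ) (M : CoxeterMatrix (Fin n)), SL M → RF1 M → RF2 M

/-- **Facts on components.**
Proof. `leaf`: otherwise every `u ∈ U` has two different neighbours in `U`, so `x = Σ_{u ∈ U} e u` has `bf x x = Σ_u (2 - number of neighbours in U) ≤ 0`. `suppc`: induction on the height (`desc`, `htd`, `down`):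
`b = e t`: the component of `t`. `b = c + e u` with `pr c u = -1`: `c` is supported in `cmp M s`, and `u` is adjacent to a node `j` with `c j ≠ 0`
(otherwise `pr c u = 2 c u ≥ 0`), so `u ∈ cmp M s`. `sat`: if `s ∉ C` then no neighbour `j` of `s` is in `C`. `cmps`: `Relation.ReflTransGen`, symmetric since `adj` is. -/
def SRF3 : Prop := ∀ (n : ℕ) (M : CoxeterMatrix (Fin n)), SL M → RF1 M → RF2 M → RF3 M

/-- **A finite simply laced Coxeter group has a positive definite form.**
Proof. Let `r s : (Fin n → ℝ) ≃ₗ[ℝ] (Fin n → ℝ)`, `r s x = x - pr x s • e s` (real version of `pr`). `r s ^ 2 = 1`, `(r s r t) ^ 2 = 1` if `s, t` are not adjacent, `(r s r t) ^ 3 = 1` if they are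
(direct computation), so there is a homomorphism of `M.Group` to the linear group (`CoxeterSystem.lift` or the presentation) and the image `G` is finite. `H x y = ∑ g ∈ G, ⟨g x, g y⟩` (standard
scalar product) is invariant, symmetric, positive definite. `H x (e s) = H (r s x) (r s (e s)) = - H x (e s) + pr x s * H (e s) (e s)`, so `2 H x (e s) = pr x s * h s`, `h s = H (e s) (e s) > 0`. For adjacent
`s, t`: `2 H (e t) (e s) = - h s = - h t`, so `h s = h t`. Let `x ≠ 0` be integral, `u s = x s / √(h s)`; then `2 H u u = Σ_{s,t} x_s x_t h_s B_{st} / (√(h s) √(h t)) = bf x x`, since `h s = h t` if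
`B_{st} ≠ 0`. So `bf x x > 0`. -/
def SPos : Prop :=
  ∀ (n : ℕ) (M : CoxeterMatrix (Fin n)), (∀ i j, i ≠ j → M.M i j = 2 ∨ M.M i j = 3) →
    Finite M.Group → SL M

/-- **Existence of the polynomials** (300 lines).
Proof. Write `q` for `X`. Define `f s b` by recursion on the height (fuel `k ≥ ht b`, structural recursion on `k`, or well founded recursion): `f s (e s) = 1`, `f s (e t) = 0`,
`f s b = - (1 - q) q ^ (ht b - 2)` if `pr b s = 1`; otherwise (`pr b s ∈ {0, -1}`, `b` not simple) choose a node `u` with `pr b u = 1` (so `u ≠ s`) and let `f s b = R u`, where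
`R u = q f s (b - u)` if `u, s` are not adjacent; `R u = f u (b - u) - (1 - q) f s (b - u)` if they are adjacent and `pr b s = -1`;
`R u = q f u (b - u - s) - (1 - q) f s (b - u)` if they are adjacent and `pr b s = 0` (then `pr (b - u) s = 1`). All values on the right have smaller height.
INDEPENDENCE: `R u = R u'` if `pr b u = pr b u' = 1`, `u ≠ u'`, by induction on the height. If `u, u'` are adjacent then `b = e u + e u'` (`pp`) and all values are zero (`s` is adjacent to at most one of
them, `tri`). Otherwise `b2 = b - u - u'` is a root. (1) `s` not adjacent to both: both are `q ^ 2 f s b2`. (2) `s` adjacent to `u'` only: `R u = q f s (b - u) = q R' u'` with `R'` for the root `b - u`, and this is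
`R u'` since every term of `R u'` gets a factor `q` if `u` is added (`u` commutes with `s` and `u'`; for the term with `pr = 1` use the formula with the height). (3) `s` adjacent to both: if `pr b s = 0` then
`b2 = e s`, and both are `- (1 - q) f s (e s + e u) = (1 - q) ^ 2` (the heights and pairings agree). If `pr b s = -1` then `pr b2 s = 1`, `b3 = b2 - s` is a root,
`f u (b - u) = q f u b2 = q (f s b3 - (1 - q) f u b3)`, `f s (b - u) = q f u' b3 - (1 - q) f s b2`, so `R u = q f s b3 - q (1 - q) (f u b3 + f u' b3) + (1 - q) ^ 2 f s b2`, symmetric.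
The properties `comm`, `r0`, `r1` for `f s (b + e u)`: `pr (b + e u) u = 1`; if `pr (b + e u) s` is `0` or `-1` it is the formula `R u` for `b + e u`. In `comm` the other cases are `pr b s = 1` (formula with the
height, `ht b ≥ 2`) and `pr b s = 2`, that is `b = e s`, which is excluded by `pr b u = -1`.
`zz`: induction on the height, for all `s, u`. Simple `b`: both zero. Otherwise `v` with `pr b v = 1`; not adjacent to both: `q` times the values at `b - v`. `v` adjacent to `s` (so not to `u`, `tri`): `c = b - v` has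
`pr c s = 1`, `pr c u = 0`; `d = c - s` has `pr d v = 0`, `pr d s = -1`, `pr d u = 1`, and `d1 = d - u` is a root with `pr d1 s = 0`, `pr d1 v = 0`. `f s b = q f v d - (1 - q) f s c` (`r1`), `f v d = q f v d1` (`comm`),
`f u b = q f u c` (`comm`), `f u c = f u (d1 + u + s) = q f s d1 - (1 - q) f u (d1 + u)` (`r1`), and `f v d1 = f s d1` by induction; the terms with `pr = 1` are given by the height.
`ev`: induction on the height. -/
def SFHex : Prop := ∀ (n : ℕ) (M : CoxeterMatrix (Fin n)), RF M → FH M (fh M)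

section lk

/-- **The action on basis vectors.**
Proof. For a root `b` with support in `C` (in `roots M C`, which is the set of all of them by `RF2.fin`) `xv M C b` is the basis vector `Pi.single ⟨b, _⟩ 1`. -/
def SLkA : Prop :=
  ∀ (n : ℕ) (M : CoxeterMatrix (Fin n)), RF M → ∀ (C : Finset (Fin n)),
    (∀ b, b ∈ roots M C ↔ Rt M b ∧ ∀ i, i ∉ C → b i = 0) ∧
    (∀ b ∈ roots M C, ∀ s, pr M b s = -1 → s ∈ C → b + e s ∈ roots M C) ∧
    (∀ b ∈ roots M C, ∀ s, pr M b s = 1 → b - e s ∈ roots M C) ∧
    (∀ s, e s ∈ roots M C ↔ s ∈ C) ∧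
    ∀ (R : Type) [CommRing R] (q l : R),
      (∀ s, ∀ b ∈ roots M C, (lk M C q l s).mulVec (xv M C b) = img M C q l s b) ∧
      (∀ s, s ∉ C → xv M C (R := R) (e s) = 0) ∧
      (∀ v : PR M C → R, v = ∑ b, v b • xv M C b.1) ∧
      (Sat M C → ∀ s, s ∉ C → lk M C q l s = 1)

/-- **Commuting generators** (from `SLkA`).
Proof. Let `φ s` be the linear map without the terms with `fh`, `f s` the functional `x b ↦ l * fh s b` (so `f s (x (e s)) = l`), `g s = φ s + f s ⊗ x (e s)`. For `s ≠ t` not adjacent:
`φ s φ t = φ t φ s` (check on the basis: the pairings with `s` do not change if `e t` is added), `φ s x (e t) = x (e t)`, `f s (x (e t)) = 0` (`simple`), and `f s ∘ φ t = f s`: for `x b`,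
`pr b t = 0` clear, `pr b t = -1`: `comm`, `pr b t = 1`: `comm` for `b - e t`, `b = e t`: both zero (`φ t x (e t) = 0`). If `s ∉ C` or `t ∉ C` the matrix is `1`. So both products are
`φ s φ t x + f t x • x (e t) + f s x • x (e s)`. -/
def SLkC : Prop :=
  ∀ (n : ℕ) (M : CoxeterMatrix (Fin n)), RF M → FH M (fh M) → ∀ (C : Finset (Fin n)), Sat M C →
    ∀ (R : Type) [CommRing R] (q l : R) (s t : Fin n), s ≠ t → ¬ adj M s t →
      lk M C q l s * lk M C q l t = lk M C q l t * lk M C q l s

/-- **The braid relation** (from `SLkA`, 250 lines).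
Proof. Notation of `SLkC`, `s, t` adjacent, both in `C` (otherwise both matrices are `1`). `φ s φ t φ s = φ t φ s φ t` on the basis: `x (e s)`, `x (e t)`, `x (e s + e t)` are mapped to `0` by both; a root with
both pairings `0` is fixed; the other roots form triples `b, b + s, b + s + t` (or with `s, t` exchanged) with `pr b s = -1`, `pr b t = 0`, a direct computation.
`f t ∘ φ s = f s ∘ φ t` on the basis: `b = e s`: `0` and `f s (x (s + t)) + (1 - q) l = 0` (`one`); `b = e s + e t`: `q l` both; pairings `(1, 0)`: `one` for `b` and `b - s`; `(1, -1)`: `r1`; `(0, -1)`: `r0`; `(0, 0)`: `zz`; `(-1, -1)`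
does not occur. With `φ s ^ 2 x b = (1 - q) φ s x b + q x b` for `b ≠ e s` one gets `f s (φ t φ s x) = (1 - q) f s (φ t x) + q f t x` for all `x` (for `x (e s)` both sides are zero). Then
`g s g t g s x = φ s φ t φ s x + f s (φ t φ s x) x (e s) + f t (φ s x) x (s + t) + ((1 - q) f t (φ s x) + q f s x) x (e t)` is symmetric in `s, t`. -/
def SLkB : Prop :=
  ∀ (n : ℕ) (M : CoxeterMatrix (Fin n)), RF M → FH M (fh M) → ∀ (C : Finset (Fin n)), Sat M C →
    ∀ (R : Type) [CommRing R] (q l : R) (s t : Fin n), adj M s t →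
      lk M C q l s * lk M C q l t * lk M C q l s = lk M C q l t * lk M C q l s * lk M C q l t

/-- **The cubic relation** (from `SLkA`).
Proof. On the basis: `(g s - 1) (g s + q) x b` is a multiple of `x (e s)`: `pr b s = 0`: `g x = x + f x_s`, `g ^ 2 x = x + f x_s + f l x_s`; `pr b s = -1`: `g x = y + (1 - q) x + f x_s`, `g y = q x + f' x_s`. `F` is the linear functional with
these coefficients; `F (x (e s)) = (l - 1) (l + q)`. Unit: `(g s - 1) (g s + q) (g s - l) = 0`, so `g s * (polynomial in g s) = - l q`. -/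
def SLkQ : Prop :=
  ∀ (n : ℕ) (M : CoxeterMatrix (Fin n)), RF M → ∀ (C : Finset (Fin n)), Sat M C →
    ∀ (R : Type) [CommRing R] (q l : R),
      (∀ s ∈ C, ∃ F : (PR M C → R) →ₗ[R] R, F (xv M C (e s)) = (l - 1) * (l + q) ∧
        ∀ v, ((lk M C q l s - 1) * (lk M C q l s + q • (1 : Matrix (PR M C) (PR M C) R))).mulVec v =
          F v • xv M C (e s)) ∧
      (IsUnit q → IsUnit l → ∀ s, IsUnit (lk M C q l s))

/-- **The representation exists** (from `SLkC`, `SLkB`, `SLkQ`).
Proof. `art_lift` with the units. Ring homomorphisms: `art_ext`. -/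
def SLKr : Prop :=
  ∀ (n : ℕ) (M : CoxeterMatrix (Fin n)), SL M → RF M → FH M (fh M) → ∀ (C : Finset (Fin n)), Sat M C →
    (∀ (R : Type) [CommRing R] (q l : R), IsUnit q → IsUnit l →
      ∀ s, (LKr M C q l (gn M s)).1 = lk M C q l s) ∧
    ∀ (R R' : Type) [CommRing R] [CommRing R'] (φ : R →+* R') (q l : R), IsUnit q → IsUnit l →
      ∀ x : Art M, (LKr M C (φ q) (φ l) x).1 = (LKr M C q l x).1.map φ

/-- **The sum of all basis vectors** (from `SLkA`).
Proof. For `s ∈ C`: `φ s w = w - x (e s)` (the pairs `b, b + e s` with `pr b s = -1`: `φ (x b + x (b + s)) = x (b + s) + (1 - q) x b + q x b`), so `g s w = w + (f s w - 1) x (e s)`, `f s w = l * F s q` with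
`F s = ∑ b, fh s b`. `F s (1) = 1` (`ev`, `self`). For adjacent `s, t ∈ C`: `f s (φ t w) = f s w` (as `f s (x (e t)) = 0`), and `f s ∘ φ t = f t ∘ φ s` (proof of `SLkB`; apply it for `R = ℤ[X]`, `q = X`,
`l = 1`), so `F s = F t`; `C` is connected. -/
def SLkW : Prop :=
  ∀ (n : ℕ) (M : CoxeterMatrix (Fin n)), RF M → FH M (fh M) → ∀ (C : Finset (Fin n)), Sat M C →
    Conn M C → ∃ F : Polynomial ℤ, F.eval 1 = 1 ∧
      ∀ (R : Type) [CommRing R] (q l : R), ∀ s ∈ C, (lk M C q l s).mulVec (fun _ => 1) =
        (fun _ => 1) + (l * Polynomial.aeval q F - 1) • xv M C (e s)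

/-- **The case `q = 1`** (from `SLkA`).
Proof. `fh s b` vanishes at `1` for `b ≠ e s` (`ev`). -/
def SLkO : Prop :=
  ∀ (n : ℕ) (M : CoxeterMatrix (Fin n)), RF M → FH M (fh M) → ∀ (C : Finset (Fin n)), Sat M C →
    ∀ (R : Type) [CommRing R] (l : R), ∀ s, ∀ b ∈ roots M C,
      (b = e s → (lk M C 1 l s).mulVec (xv M C b) = l • xv M C b) ∧
      (b ≠ e s → b - (pr M b s) • e s ∈ roots M C ∧
        (lk M C 1 l s).mulVec (xv M C b) = xv M C (b - (pr M b s) • e s))

/-- **The representation is cyclic** (from `SLkA`, `SLKr`).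
Proof. Let `U` be the span. It is stable under `LKr x` for `x` in the subgroup generated by the `gn t`, `t ∈ C`. It contains `x (e t)` for all `t ∈ C`: for adjacent `s, t` in `C`
`g s g t x (e s) = q x (e t)` (`fh s (s + t) = - (1 - q)`), `q` invertible, and `C` is connected.
It contains all `x b` by induction on the height: `x (b + u) = g u x b - (1 - q) x b - f x (e u)`. -/
def SLkS : Prop :=
  ∀ (n : ℕ) (M : CoxeterMatrix (Fin n)), SL M → RF M → FH M (fh M) → ∀ (C : Finset (Fin n)), Sat M C →
    Conn M C → ∀ (K : Type) [Field K] (q l : K), q ≠ 0 → l ≠ 0 → ∀ s ∈ C,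
      Submodule.span K {y | ∃ x ∈ Subgroup.closure (gn M '' (C : Set (Fin n))),
        y = (LKr M C q l x).1.mulVec (xv M C (e s))} = ⊤

end lk

end Pool.Agent.Lib.MP_97567f_al
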