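import Pool.Agent.Lib.MP_97567f_al.SpecT

/-!
# MP_97567f_al: statements of the modules, part 5 (assembly)
-/

set_option autoImplicit false

namespace Pool.Agent.Lib.MP_97567f_al

open Polynomial

section general

/-- **Induced representations** (100 lines).
Proof. Let `f : H →* GL (Fin d) K` be injective. `W` = the `K`-space of the functions `v : G → (Fin d → K)` with `v (h * x) = f h (v x)` for `h ∈ H`. It is finite-dimensional: `v` is determined by its values on a finite set of representatives of the cosets `H x`. `G` acts linearly: `(g v) x = v (x * g)`. If `g` acts trivially: for `u : Fin d → K` let `v h = f h u` for `h ∈ H`, `v = 0` outside of `H`;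
then `v g = v 1 = u` for all `u`, so `g ∈ H` (take `u ≠ 0`; if `d = 0` then `H` is trivial: use `d + 1` instead, or treat it separately) and `f g = 1`. A basis of `W` gives the homomorphism to `GL (Fin r) K`. -/
def SInd : Prop :=
  ∀ (K : Type) [Field K] (G : Type) [Group G] (H : Subgroup G), H.FiniteIndex →
    LinOver K H → LinOver K G

/-- **Block diagonal matrices** (60 lines).
Proof. Induction on `m`, or `Matrix.blockDiagonal'` (and `Matrix.reindex` by an equivalence with `Fin r`). -/
def SBlk : Prop :=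
  ∀ (K : Type) [Field K] (G : Type) [Group G] (m : ℕ) (r : Fin m → ℕ)
    (f : ∀ c, G →* GL (Fin (r c)) K), (∀ x, (∀ c, f c x = 1) → x = 1) → LinOver K G

/-- **The action on the matrices** (120 lines).
Proof. For `α ∈ H` choose `χ, g` as in `TS`, and let `Φ α` be the linear map `Y ↦ g Y g⁻¹` of the space of matrices. It does not depend on the choice: if `χ', g'` is another one and `h = g'⁻¹ g` then `h ρ(x) h⁻¹ = η x • ρ x` with `η = χ' / χ`; the traces are equal, so `η (S i) = 1` for all `i`, so `η = 1`, and `h` commutes with all `ρ x`, so with all matrices (`span = ⊤`). `Φ (α β) = Φ α Φ β`: for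
`α β` one may take `x ↦ χ_α (β x) χ_β x` and `g_α g_β`. If `Φ α = 1` then `ρ (α x) = χ x • g ρ(x) g⁻¹ = χ x • ρ x`. A basis of the space of matrices gives the homomorphism to `GL (Fin r) K`. -/
def SAd : Prop :=
  ∀ (A : Type) [Group A] (K : Type) [Field K] (n : ℕ) (S : Fin n → A),
    Subgroup.closure (Set.range S) = ⊤ → ∀ (d : Type) [Fintype d] [DecidableEq d]
    (ρ : A →* GL d K) (H : Subgroup (MulAut A)),
    Submodule.span K (Set.range fun x => (ρ x).1) = ⊤ → (∀ i, (ρ (S i)).1.trace ≠ 0) →
    (∀ α ∈ H, TS ρ α) → ∃ (r : ℕ) (Φ : H →* GL (Fin r) K), ∀ α : H, Φ α = 1 →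
      ∃ χ : A →* Kˣ, ∀ x, (ρ (α.1 x)).1 = (χ x : K) • (ρ x).1

/-- **The action on the additive characters** (80 lines).
Proof. `V` = the set of the functions `φ : A → K` with `φ (x * y) = φ x + φ y`, a `K`-subspace of `A → K`; it is finite-dimensional, since `φ` is determined by the values `φ (S i)` (the set where two of them agree is a subgroup). `MulAut A` acts by `φ ↦ φ ∘ α⁻¹`. A basis of `V` gives `Ψ`. -/
def SAb : Prop :=
  ∀ (A : Type) [Group A] (K : Type) [Field K] (n : ℕ) (S : Fin n → A),
    Subgroup.closure (Set.range S) = ⊤ → ∃ (r : ℕ) (Ψ : MulAut A →* GL (Fin r) K),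
      ∀ α, Ψ α = 1 → ∀ (φ : A →* Multiplicative K) (x : A), φ (α x) = φ x

/-- **Assembly of the components** (from `SInd`, `SBlk`, `SAd`, `SAb`).
Proof. Let `H` be the intersection of the `H_c`, of finite index. The restrictions of the `Φ_c` (`SAd`) and of `Ψ` (`SAb`) to `H` satisfy the hypothesis of `SBlk`: if `α ∈ H` is in all kernels and `z = x⁻¹ * α x` then `ρ_c z = (ρ_c x)⁻¹ (χ x • ρ_c x)` is scalar, so `Sc c z`, and `φ z = 1` for all `φ`, so `z = 1`, `α x = x`. So `H` is linear over `K`, and `SInd`. -/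
def SAsm : Prop :=
  ∀ (A : Type) [Group A] (K : Type) [Field K] (n m : ℕ) (S : Fin n → A),
    Subgroup.closure (Set.range S) = ⊤ → ∀ Sc : Fin m → A → Prop,
    (∀ c, ∃ (d : Type) (_ : Fintype d) (_ : DecidableEq d) (ρ : A →* GL d K)
      (H : Subgroup (MulAut A)), H.FiniteIndex ∧
      Submodule.span K (Set.range fun x => (ρ x).1) = ⊤ ∧ (∀ i, (ρ (S i)).1.trace ≠ 0) ∧
      (∀ α ∈ H, TS ρ α) ∧ ∀ z, (∃ a : K, (ρ z).1 = a • (1 : Matrix d d K)) → Sc c z) →
    (∀ z, (∀ c, Sc c z) → (∀ φ : A →* Multiplicative K, φ z = 1) → z = 1) →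
    LinOver K (MulAut A)

end general

section final

variable {n : ℕ}

open Classical in
/-- Extension by zero from the roots of `C` to all roots. -/
noncomputable def ext0 (M : CoxeterMatrix (Fin n)) (C : Finset (Fin n)) {R : Type} [CommRing R]
    (y : PR M C → R) : PR M Finset.univ → R :=
  fun g => if h : g.1 ∈ roots M C then y ⟨g.1, h⟩ else 0

/-- **Restriction to a component** (from `SLkA`, `SLKr`, 120 lines).
Proof. For the generators `t`, on the basis vectors: `ext0 (xv C b) = xv univ b` for `b ∈ roots M C`. If `t ∈ C` the formulas of `img` are the same. If `t ∉ C` then `lk M C t = 1` (`SLkA`) and `lk M univ t (xv b) = xv b + (l * aeval q (fh t b)) • xv (e t)`, as `pr b t = 0` (`RF3.sat`) and `b ≠ e t`; `fh t b = 0` for all roots `b` with support in `C`, by induction on the height: `FH.simple` for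
simple roots; otherwise `b = b' + e u` with `pr b' u = -1` (`RF1.desc`, `down`), `u ∈ C` is different from and not adjacent to `t` (`Sat`), and `FH.comm`. Then for all `x` (`art_induction`; for inverses apply the inverse matrix to both sides). -/
def SRestr : Prop :=
  ∀ (n : ℕ) (M : CoxeterMatrix (Fin n)), SL M → RF M → FH M (fh M) → ∀ (C : Finset (Fin n)),
    Sat M C → ∀ (R : Type) [CommRing R] (q l : R), IsUnit q → IsUnit l → ∀ (x : Art M)
    (y : PR M C → R), (LKr M Finset.univ q l x).1.mulVec (ext0 M C y) =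
      ext0 M C ((LKr M C q l x).1.mulVec y)

/-- **Scalars are trivial** (from `SLkA`, `SLKr`, `SUnits`, `SKerQ`, `SMono`, 120 lines).
Proof. Let `N = card (PR M C) ≥ 1` (`e s`, `s ∈ C`). The scalar is `algebraMap r`, `r ∈ R2` (diagonal entry), and `LKr z = r • 1` over `R2`. The homomorphism `x ↦ det (LKr x) ∈ R2ˣ` is `1` on `gn t`, `t ∉ C` (`SLkA`), and has the same value `δ` on all `gn t`, `t ∈ C` (braid relation for adjacent ones, `Conn`), so it is `x ↦ δ ^ deg x`, `deg` from `exists_deg`. `deg z = 0`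
(compose `deg` with `ℤ → K2`, injective), so `r ^ N = 1`. `SUnits`: `r = c q ^ i l ^ j`; `r ^ N = 1` gives `i = j = 0` (apply the homomorphisms `R2 → K1` with `qq ↦ 1, ll ↦ xx` and `qq ↦ xx, ll ↦ 1`, `R2_lift`). So `r = c` is constant. `π` of `SKerQ` maps `LKr qq ll z` to `LKr 1 xx z` (`SLKr`), so `c • x b = xx ^ k • x (σ b)` (`SMono`): `c = xx ^ k`, so `k = 0` and `c = 1`. -/
def SSca : Prop :=
  ∀ (n : ℕ) (M : CoxeterMatrix (Fin n)), SL M → RF M → FH M (fh M) → ∀ (C : Finset (Fin n)),
    Sat M C → Conn M C → C.Nonempty → ∀ z : Art M,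
      (∃ m : K2, (LKr M C qq ll z).1.map (algebraMap R2 K2) =
        m • (1 : Matrix (PR M C) (PR M C) K2)) →
      (∀ φ : Art M →* Multiplicative K2, φ z = 1) → LKr M C qq ll z = 1

/-- **The kernel is trivial** (from `SRestr`, `SSca`, `SFai`, `SLkA`).
Proof. `SSca` for all components `cmp M s` (`RF3.cmps`). Every root `b` is supported in a component (`RF3.suppc`), and `xv univ b = ext0 (xv C b)`, so `LKr univ z` fixes all `xv univ b` (`SRestr`), so it is `1` (`SLkA`), and `z = 1` by `SFai`. -/
def SKill : Prop :=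
  ∀ (n : ℕ) (M : CoxeterMatrix (Fin n)), SL M → RF M → FH M (fh M) → ∀ z : Art M,
    (∀ s, ∃ m : K2, (LKr M (cmp M s) qq ll z).1.map (algebraMap R2 K2) =
      m • (1 : Matrix (PR M (cmp M s)) (PR M (cmp M s)) K2)) →
    (∀ φ : Art M →* Multiplicative K2, φ z = 1) → z = 1

/-- **One component** (from `SLkA`, `SLKr`, `SIrr`, `SChar`, `SG6`, `ST1`, `ST2`, `ST7`, `ST9`).
Proof. `C = cmp M s`. If `C` has at least 3 elements: `ρ = LKr M C (algebraMap qq) (algebraMap ll)` over `K2` (`SLKr`: the image of `LKr qq ll`), `SIrr`, `H` from `SG6` (`TS`: `χ` composed with `R2ˣ → K2ˣ`, `g` of `Tw`; `θ = id`). Traces: for `s' ∈ C`: `l + a - b q ≠ 0` by `SChar` for `ψ = ` the map `R2 → K2`; for `s' ∉ C` the matrix is `1` and the trace is the number of roots, not `0`.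
If `C = {s, t}`, `s ≠ t`, then `s, t` are adjacent (`Conn`, `Sat`): `ρ = T2 M s t om qq` over `K2`, `H` from `ST7`, `ST2` (`qq ^ 2 ≠ 3`), traces `qq`, `qq`, `2`, and `ST9` for the last property. If `C = {s}`: `d = Fin 1`, `ρ = 1`, `H = ⊤`; `PR M C = {e s}` has one element (a root supported in `{s}` is `e s`), so every `1 × 1` matrix is scalar. -/
def SCmp : Prop :=
  ∀ (n : ℕ) (M : CoxeterMatrix (Fin n)), SL M → RF M → FH M (fh M) → ∀ s : Fin n,
    ∃ (d : Type) (_ : Fintype d) (_ : DecidableEq d) (ρ : Art M →* GL d K2)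
      (H : Subgroup (MulAut (Art M))), H.FiniteIndex ∧
      Submodule.span K2 (Set.range fun x => (ρ x).1) = ⊤ ∧
      (∀ i, (ρ (gn M i)).1.trace ≠ 0) ∧ (∀ α ∈ H, TS ρ α) ∧
      ∀ z, (∃ a : K2, (ρ z).1 = a • (1 : Matrix d d K2)) →
        ∃ m : K2, (LKr M (cmp M s) qq ll z).1.map (algebraMap R2 K2) =
          m • (1 : Matrix (PR M (cmp M s)) (PR M (cmp M s)) K2)

/-- **The main theorem for positive definite forms** (from `SAsm`, `SKill`, `SCmp`).
Proof. `SAsm` with `S = gn M` (`art_closure`), `Sc s z` = the matrix of `z` for the component of `s` is scalar. -/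
def SMain : Prop :=
  ∀ (n : ℕ) (M : CoxeterMatrix (Fin n)), SL M → RF M → FH M (fh M) →
    LinOver K2 (MulAut (Art M))

end final

end Pool.Agent.Lib.MP_97567f_al
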