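import Pool.Agent.Lib.MP_97567f_al.SpecT

/-!
# MP_97567f_al: module T4 (rigidity in dimension two)
-/

set_option autoImplicit false

namespace Pool.Agent.Lib.MP_97567f_al

/-! ### Matrices with two rows -/

private theorem T4_ch {R : Type} [CommRing R] (A : Matrix (Fin 2) (Fin 2) R) :
    A * A = A.trace • A - A.det • (1 : Matrix (Fin 2) (Fin 2) R) := by
  ext i j
  fin_cases i <;> fin_cases j <;>
    simp [Matrix.mul_apply, Fin.sum_univ_two, Matrix.trace_fin_two, Matrix.det_fin_two] <;> ring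

private theorem T4_tr2 {R : Type} [CommRing R] (A : Matrix (Fin 2) (Fin 2) R) :
    (A * A).trace = A.trace ^ 2 - 2 * A.det := by
  simp only [Matrix.mul_apply, Fin.sum_univ_two, Matrix.trace_fin_two, Matrix.det_fin_two]
  ring

private theorem T4_tr3 {R : Type} [CommRing R] (A B : Matrix (Fin 2) (Fin 2) R) :
    (A * (B * (B * B))).trace = (B.trace ^ 2 - B.det) * (A * B).trace -
      B.trace * B.det * A.trace := by
  simp only [Matrix.mul_apply, Fin.sum_univ_two, Matrix.trace_fin_two, Matrix.det_fin_two]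
  ring

/-- The trace of the product. -/
private theorem T4_tr {R : Type} [CommRing R] (S T : Matrix (Fin 2) (Fin 2) R)
    (hS : S.det = 1) (hT : T.det = 1) (htr : S.trace = T.trace)
    (hb : S * T * S = T * S * T) :
    ((S * T).trace - 1) * ((S * T).trace - (S.trace ^ 2 - 2)) = 0 := by
  have h1 : (S * T * (S * T)).trace = (S * T).trace ^ 2 - 2 := by
    rw [T4_tr2, Matrix.det_mul, hS, hT]
    ring
  have h2 : (S * T * (S * T)).trace = (S * (T * (T * T))).trace := by
    rw [← mul_assoc, hb]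
    rw [Matrix.trace_mul_comm (T * S * T) T]
    rw [show S * (T * (T * T)) = S * (T * T) * T by simp only [mul_assoc]]
    rw [Matrix.trace_mul_comm (S * (T * T)) T]
    rw [show T * (T * S * T) = T * T * (S * T) by simp only [mul_assoc]]
    rw [Matrix.trace_mul_comm (T * T) (S * T)]
    rw [show S * T * (T * T) = S * (T * T) * T by simp only [mul_assoc]]
    rw [Matrix.trace_mul_comm (S * (T * T)) T]
  rw [h1, T4_tr3, hT, ← htr] at h2
  linear_combination h2

/-- The vectors of the new basis. -/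
private theorem T4_vec {F : Type} [Field F] (S T : Matrix (Fin 2) (Fin 2) F) (w τ : F)
    (hw : w ^ 2 + w + 1 = 0) (hS : S * S = τ • S - 1) (hT : T * T = τ • T - 1)
    (hY : S * T * (S * T) = S * T - 1) (E1 E2 : Matrix (Fin 2) (Fin 2) F)
    (h1 : E1 = S * T + w • 1) (h2 : E2 = τ • E1 - S * E1) :
    S * E1 = τ • E1 - E2 ∧ S * E2 = E1 ∧ T * E1 = (-w ^ 2) • E2 ∧ T * E2 = w • E1 + τ • E2 := by
  have hw3 : w ^ 3 = 1 := by linear_combination (w - 1) * hw
  have a1 : S * E1 = τ • E1 - E2 := by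
    rw [h2]
    abel
  have a2 : S * E2 = E1 := by
    rw [h2, mul_sub, mul_smul_comm, ← mul_assoc, hS, sub_mul, smul_mul_assoc, one_mul]
    abel
  have a3 : S * T * E1 = (-w ^ 2) • E1 := by
    rw [h1, mul_add, hY, mul_smul_comm, mul_one, smul_add, smul_smul]
    have h4 : -w ^ 2 * w = -1 := by linear_combination -hw3
    have h5 : (-w ^ 2 : F) = 1 + w := by linear_combination -hw
    rw [h4, h5, add_smul, one_smul, neg_one_smul]
    abel
  have a4 : T * E1 = (-w ^ 2) • E2 := by
    have h6 : T = (τ • (1 : Matrix (Fin 2) (Fin 2) F) - S) * (S * T) := by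
      rw [sub_mul, smul_mul_assoc, one_mul, ← mul_assoc, hS, sub_mul, smul_mul_assoc, one_mul]
      abel
    calc T * E1 = (τ • (1 : Matrix (Fin 2) (Fin 2) F) - S) * (S * T * E1) := by
          conv_lhs => rw [h6]
          rw [mul_assoc]
      _ = (-w ^ 2) • E2 := by
          rw [a3, mul_smul_comm, sub_mul, smul_mul_assoc, one_mul, ← h2]
  refine ⟨a1, a2, a4, ?_⟩
  have h7 : E2 = (-w) • (T * E1) := by
    rw [a4, smul_smul]
    have h8 : -w * -w ^ 2 = 1 := by linear_combination hw3
    rw [h8, one_smul]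
  calc T * E2 = (-w) • (T * T * E1) := by
        conv_lhs => rw [h7]
        rw [mul_smul_comm, mul_assoc]
    _ = w • E1 + τ • E2 := by
        rw [hT, sub_mul, smul_mul_assoc, one_mul, smul_sub, smul_smul, a4, smul_smul]
        have h9 : -w * τ * -w ^ 2 = τ := by linear_combination τ * hw3
        rw [h9, neg_smul, sub_neg_eq_add, add_comm]

/-- The matrix with the first columns of `E1`, `E2`. -/
private def T4_g {R : Type} [CommRing R] (E1 E2 : Matrix (Fin 2) (Fin 2) R) :
    Matrix (Fin 2) (Fin 2) R := !![E1 0 0, E2 0 0; E1 1 0, E2 1 0]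

private theorem T4_mul_g {R : Type} [CommRing R] (X E1 E2 : Matrix (Fin 2) (Fin 2) R)
    (a b c d : R) (h1 : X * E1 = a • E1 + b • E2) (h2 : X * E2 = c • E1 + d • E2) :
    X * T4_g E1 E2 = T4_g E1 E2 * !![a, c; b, d] := by
  have e1 : ∀ i, (X * E1) i 0 = a * E1 i 0 + b * E2 i 0 := fun i => by rw [h1]; simp
  have e2 : ∀ i, (X * E2) i 0 = c * E1 i 0 + d * E2 i 0 := fun i => by rw [h2]; simp
  simp only [Matrix.mul_apply, Fin.sum_univ_two] at e1 e2
  ext i j
  have f1 := e1 i
  have f2 := e2 i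
  fin_cases i <;> fin_cases j <;>
    simp [T4_g, Matrix.mul_apply, Fin.sum_univ_two] at f1 f2 ⊢ <;>
    first | linear_combination f1 | linear_combination f2

/-- The centralizer of the two matrices. -/
private theorem T4_cent {F : Type} [Field F] (N : Matrix (Fin 2) (Fin 2) F) (w τ : F)
    (hw : w ^ 2 + w + 1 = 0) (h3 : (3 : F) ≠ 0) (hA : N * !![τ, 1; -1, 0] = !![τ, 1; -1, 0] * N)
    (hB : N * !![0, w; -w ^ 2, τ] = !![0, w; -w ^ 2, τ] * N) :
    N = N 0 0 • (1 : Matrix (Fin 2) (Fin 2) F) := by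
  have a01 := congrFun (congrFun hA 0) 1
  have a00 := congrFun (congrFun hA 0) 0
  have b00 := congrFun (congrFun hB 0) 0
  simp only [Matrix.mul_apply, Fin.sum_univ_two, Matrix.of_apply, Matrix.cons_val_zero,
    Matrix.cons_val_one, Matrix.cons_val_fin_one] at a01 a00 b00
  have hq : N 1 0 = -N 0 1 := by linear_combination -a00
  have hww : w * (w - 1) ≠ 0 := by
    intro h
    apply h3
    linear_combination (4 - (2 * w + 1)) * hw + (2 * w + 1) * h
  have h01 : N 0 1 = 0 := by
    have h : w * (w - 1) * N 0 1 = 0 := by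
      rw [hq] at b00
      linear_combination -b00
    exact (mul_eq_zero.1 h).resolve_left hww
  have h10 : N 1 0 = 0 := by rw [hq, h01, neg_zero]
  have h11 : N 1 1 = N 0 0 := by
    rw [h01] at a01
    linear_combination -a01
  ext i j
  fin_cases i <;> fin_cases j <;> simp [h01, h10, h11]

/-- `c • S` for the matrices of the generators. -/
private theorem T4_main {F : Type} [Field F] [IsAlgClosed F] (O : ValuationSubring F) (w : O)
    (τ : IsLocalRing.ResidueField O) (A B : GL (Fin 2) O) (hw : w ^ 2 + w + 1 = 0)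
    (h2 : (2 : IsLocalRing.ResidueField O) ≠ 0) (h3 : (3 : IsLocalRing.ResidueField O) ≠ 0)
    (hτ : τ ^ 2 ≠ 3) (hb : A * B * A = B * A * B)
    (hA : A.1.map (IsLocalRing.residue O) = !![τ, 1; -1, 0])
    (hB : B.1.map (IsLocalRing.residue O) = !![0, IsLocalRing.residue O w;
      -IsLocalRing.residue O w ^ 2, τ]) :
    ∃ (τ' : O) (c : Oˣ) (g : GL (Fin 2) F), IsLocalRing.residue O τ' = τ ∧
      A.1.map (algebraMap O F) = ((c : O) : F) • (g.1 * !![(τ' : F), 1; -1, 0] * (g⁻¹).1) ∧
      B.1.map (algebraMap O F) = ((c : O) : F) • (g.1 * !![0, (w : F); -(w : F) ^ 2, (τ' : F)] *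
        (g⁻¹).1) := by
  set π := IsLocalRing.residue O with hπ
  have hwF : (w : F) ^ 2 + (w : F) + 1 = 0 := by
    have h := congrArg (algebraMap O F) hw
    rw [map_add, map_add, map_pow, map_one, map_zero] at h
    exact h
  have hwk : π w ^ 2 + π w + 1 = 0 := by
    have h := congrArg π hw
    rw [map_add, map_add, map_pow, map_one, map_zero] at h
    exact h
  -- the determinants
  have hdet : A.1.det = B.1.det := by
    have h := congrArg (fun x : GL (Fin 2) O => x.1.det) hb
    simp only [Units.val_mul, Matrix.det_mul] at h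
    have hAu : IsUnit A.1.det := (Matrix.isUnit_iff_isUnit_det _).1 A.isUnit
    have hBu : IsUnit B.1.det := (Matrix.isUnit_iff_isUnit_det _).1 B.isUnit
    have h' : A.1.det * B.1.det * A.1.det = A.1.det * B.1.det * B.1.det := by
      rw [h]
      ring
    exact (hAu.mul hBu).mul_left_cancel h'
  have hdk : π A.1.det = 1 := by
    rw [RingHom.map_det, RingHom.mapMatrix_apply, hA, Matrix.det_fin_two_of]
    ring
  -- the square root
  obtain ⟨c₀, hc₀⟩ := IsAlgClosed.exists_eq_mul_self ((A.1.det : O) : F)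
  have hc₀O : c₀ ∈ O := by
    rcases O.mem_or_inv_mem c₀ with h | h
    · exact h
    · by_cases hz : c₀ = 0
      · rw [hz]
        exact O.zero_mem
      · have h4 : c₀ = ((A.1.det : O) : F) * c₀⁻¹ := by
          rw [hc₀]
          field_simp
        rw [h4]
        exact O.mul_mem _ _ (A.1.det).2 h
  obtain ⟨c, hcc, hck⟩ : ∃ c : O, c * c = A.1.det ∧ π c = 1 := by
    have h4 : (⟨c₀, hc₀O⟩ : O) * ⟨c₀, hc₀O⟩ = A.1.det := Subtype.ext hc₀.symm
    have h5 : (π ⟨c₀, hc₀O⟩ - 1) * (π ⟨c₀, hc₀O⟩ + 1) = 0 := by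
      have h6 := congrArg π h4
      rw [map_mul, hdk] at h6
      linear_combination h6
    rcases mul_eq_zero.1 h5 with h6 | h6
    · exact ⟨⟨c₀, hc₀O⟩, h4, sub_eq_zero.1 h6⟩
    · refine ⟨-⟨c₀, hc₀O⟩, by rw [neg_mul_neg, h4], ?_⟩
      rw [map_neg]
      linear_combination -h6
  have hcu : IsUnit c := by
    rw [← IsLocalRing.residue_ne_zero_iff_isUnit, ← hπ, hck]
    exact one_ne_zero
  obtain ⟨u, rfl⟩ := hcu
  have huk : π ((u⁻¹ : Oˣ) : O) = 1 := by
    have h := congrArg π (Units.inv_mul u)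
    rw [map_mul, hck, mul_one, map_one] at h
    exact h
  -- the normalized matrices
  set S : Matrix (Fin 2) (Fin 2) O := ((u⁻¹ : Oˣ) : O) • A.1 with hS
  set T : Matrix (Fin 2) (Fin 2) O := ((u⁻¹ : Oˣ) : O) • B.1 with hT
  have hSA : A.1 = (u : O) • S := by
    rw [hS, smul_smul, Units.mul_inv, one_smul]
  have hTB : B.1 = (u : O) • T := by
    rw [hT, smul_smul, Units.mul_inv, one_smul]
  have hSd : S.det = 1 := by
    rw [hS, Matrix.det_smul, Fintype.card_fin, ← hcc]
    have h := Units.inv_mul u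
    linear_combination (((u⁻¹ : Oˣ) : O) * (u : O) + 1) * h
  have hTd : T.det = 1 := by
    rw [hT, Matrix.det_smul, Fintype.card_fin, ← hdet, ← hcc]
    have h := Units.inv_mul u
    linear_combination (((u⁻¹ : Oˣ) : O) * (u : O) + 1) * h
  have hbm : A.1 * B.1 * A.1 = B.1 * A.1 * B.1 := congrArg Units.val hb
  have hbST : S * T * S = T * S * T := by
    rw [hS, hT]
    simp only [smul_mul_assoc, mul_smul_comm, smul_smul]
    rw [hbm]
  have htr : S.trace = T.trace := by
    have h1 : B = A * B * A * (A * B)⁻¹ := by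
      rw [hb, mul_inv_rev]
      group
    have h2 : B.1.trace = A.1.trace := by
      have h3 : B.1 = ((A * B : GL (Fin 2) O) : Matrix (Fin 2) (Fin 2) O) * A.1 *
          (((A * B)⁻¹ : GL (Fin 2) O) : Matrix (Fin 2) (Fin 2) O) := by
        conv_lhs => rw [h1]
        rfl
      rw [h3, Matrix.trace_units_conj]
    rw [hS, hT, Matrix.trace_smul, Matrix.trace_smul, h2]
  have hSk : S.map π = !![τ, 1; -1, 0] := by
    rw [hS, ← hA]
    ext i j
    simp [huk]
  have hTk : T.map π = !![0, π w; -π w ^ 2, τ] := by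
    rw [hT, ← hB]
    ext i j
    simp [huk]
  have s00 : π (S 0 0) = τ := congrFun (congrFun hSk 0) 0
  have s01 : π (S 0 1) = 1 := congrFun (congrFun hSk 0) 1
  have s10 : π (S 1 0) = -1 := congrFun (congrFun hSk 1) 0
  have s11 : π (S 1 1) = 0 := congrFun (congrFun hSk 1) 1
  have t00 : π (T 0 0) = 0 := congrFun (congrFun hTk 0) 0
  have t01 : π (T 0 1) = π w := congrFun (congrFun hTk 0) 1
  have t10 : π (T 1 0) = -π w ^ 2 := congrFun (congrFun hTk 1) 0
  have t11 : π (T 1 1) = τ := congrFun (congrFun hTk 1) 1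
  have hτk : π S.trace = τ := by
    rw [Matrix.trace_fin_two, map_add, s00, s11, add_zero]
  -- the trace of the product
  have hy : (S * T).trace = 1 := by
    have h4 := T4_tr S T hSd hTd htr hbST
    have h5 : (S * T).trace - (S.trace ^ 2 - 2) ≠ 0 := by
      intro h6
      have h7 := congrArg π h6
      rw [map_sub, map_sub, map_pow, hτk, map_zero, Matrix.trace_fin_two] at h7
      simp only [Matrix.mul_apply, Fin.sum_univ_two, map_add, map_mul, s00, s01, s10, s11, t00,
        t01, t10, t11, map_ofNat] at h7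
      apply hτ
      linear_combination -h7 - hwk
    have h6 := (mul_eq_zero.1 h4).resolve_right h5
    exact sub_eq_zero.1 h6
  -- the new basis
  set E1 : Matrix (Fin 2) (Fin 2) O := S * T + w • 1 with hE1
  set E2 : Matrix (Fin 2) (Fin 2) O := S.trace • E1 - S * E1 with hE2
  have e00 : π (E1 0 0) = π w - π w ^ 2 := by
    rw [hE1]
    simp only [Matrix.add_apply, Matrix.mul_apply, Fin.sum_univ_two, Matrix.smul_apply,
      Matrix.one_apply_eq, smul_eq_mul, mul_one, map_add, map_mul, s00, s01, t00, t10]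
    ring
  have e10 : π (E1 1 0) = 0 := by
    rw [hE1]
    simp only [Matrix.add_apply, Matrix.mul_apply, Fin.sum_univ_two, Matrix.smul_apply,
      Matrix.one_apply_ne (show (1 : Fin 2) ≠ 0 by decide), smul_eq_mul, mul_zero, map_add,
      map_mul, s10, s11, t00, t10, map_zero]
    ring
  have f00 : π (E2 0 0) = 0 := by
    rw [hE2]
    simp only [Matrix.sub_apply, Matrix.mul_apply, Fin.sum_univ_two, Matrix.smul_apply,
      smul_eq_mul, map_sub, map_add, map_mul, s00, s01, hτk, e00, e10]
    ring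
  have f10 : π (E2 1 0) = π w - π w ^ 2 := by
    rw [hE2]
    simp only [Matrix.sub_apply, Matrix.mul_apply, Fin.sum_univ_two, Matrix.smul_apply,
      smul_eq_mul, map_sub, map_add, map_mul, s10, s11, hτk, e00, e10]
    ring
  have hgd : π (T4_g E1 E2).det = -3 := by
    rw [T4_g, Matrix.det_fin_two_of, map_sub, map_mul, map_mul, e00, e10, f00, f10]
    linear_combination (π w ^ 2 - 3 * π w + 3) * hwk
  have hgF : ((T4_g E1 E2).map (algebraMap O F)).det ≠ 0 := by
    intro h
    have h4 : algebraMap O F (T4_g E1 E2).det = 0 := by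
      rw [RingHom.map_det, RingHom.mapMatrix_apply]
      exact h
    have h5 : (T4_g E1 E2).det = 0 := Subtype.ext h4
    rw [h5, map_zero] at hgd
    exact h3 (by linear_combination hgd)
  set ι := algebraMap O F with hι
  set SF := S.map ι with hSF
  set TF := T.map ι with hTF
  have dS : SF.det = 1 := by
    have h := RingHom.map_det ι S
    rw [hSd, map_one] at h
    exact h.symm
  have dT : TF.det = 1 := by
    have h := RingHom.map_det ι T
    rw [hTd, map_one] at h
    exact h.symm
  have trS : SF.trace = ι S.trace := by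
    rw [Matrix.trace_fin_two, Matrix.trace_fin_two, map_add]
    rfl
  have trT : TF.trace = ι S.trace := by
    rw [htr, Matrix.trace_fin_two, Matrix.trace_fin_two, map_add]
    rfl
  have trY : (SF * TF).trace = 1 := by
    have h : SF * TF = (S * T).map ι := (Matrix.map_mul).symm
    rw [h, Matrix.trace_fin_two, Matrix.map_apply, Matrix.map_apply, ← map_add,
      ← Matrix.trace_fin_two, hy, map_one]
  have cS : SF * SF = ι S.trace • SF - 1 := by
    rw [T4_ch SF, dS, trS, one_smul]
  have cT : TF * TF = ι S.trace • TF - 1 := by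
    rw [T4_ch TF, dT, trT, one_smul]
  have cY : SF * TF * (SF * TF) = SF * TF - 1 := by
    rw [T4_ch (SF * TF), Matrix.det_mul, dS, dT, trY, mul_one, one_smul, one_smul]
  have m1 : E1.map ι = SF * TF + ι w • 1 := by
    rw [hE1, Matrix.map_add _ (map_add ι), Matrix.map_mul]
    congr 1
    ext i j
    simp only [Matrix.map_apply, Matrix.smul_apply, smul_eq_mul, map_mul, Matrix.one_apply]
    split_ifs
    · rw [map_one]
    · rw [map_zero]
  have m2' : E2.map ι = ι S.trace • E1.map ι - SF * E1.map ι := by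
    rw [hE2, Matrix.map_sub _ (map_sub ι), Matrix.map_mul]
    have h : (S.trace • E1).map ι = ι S.trace • E1.map ι := by
      ext i j
      simp only [Matrix.map_apply, Matrix.smul_apply, smul_eq_mul, map_mul]
    rw [h]
  obtain ⟨v1, v2, v3, v4⟩ := T4_vec SF TF (ι w) (ι S.trace) hwF cS cT cY _ _ m1 m2'
  have hgm : (T4_g E1 E2).map ι = T4_g (E1.map ι) (E2.map ι) := by
    ext i j
    fin_cases i <;> fin_cases j <;> rfl
  have q1 : SF * T4_g (E1.map ι) (E2.map ι) =
      T4_g (E1.map ι) (E2.map ι) * !![ι S.trace, 1; -1, 0] := by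
    refine T4_mul_g _ _ _ _ _ _ _ ?_ ?_
    · rw [v1, neg_one_smul, sub_eq_add_neg]
    · rw [v2, one_smul, zero_smul, add_zero]
  have q2 : TF * T4_g (E1.map ι) (E2.map ι) =
      T4_g (E1.map ι) (E2.map ι) * !![0, ι w; -(ι w) ^ 2, ι S.trace] := by
    refine T4_mul_g _ _ _ _ _ _ _ ?_ ?_
    · rw [v3, zero_smul, zero_add]
    · rw [v4]
  rw [hgm] at hgF
  set g : GL (Fin 2) F := Matrix.GeneralLinearGroup.mkOfDetNeZero _ hgF with hg
  have hg1 : g.1 = T4_g (E1.map ι) (E2.map ι) := rfl
  rw [← hg1] at q1 q2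
  refine ⟨S.trace, u, g, hτk, ?_, ?_⟩
  · change A.1.map ι = ι (u : O) • (g.1 * !![ι S.trace, 1; -1, 0] * (g⁻¹).1)
    rw [hSA, ← q1, mul_assoc, Units.mul_inv, mul_one]
    ext i j
    simp [hSF]
  · change B.1.map ι = ι (u : O) • (g.1 * !![0, ι w; -(ι w) ^ 2, ι S.trace] * (g⁻¹).1)
    rw [hTB, ← q2, mul_assoc, Units.mul_inv, mul_one]
    ext i j
    simp [hTF]

/-- Commuting with a conjugate. -/
private theorem T4_cj {F : Type} [Field F] (g : GL (Fin 2) F) (A U : Matrix (Fin 2) (Fin 2) F)
    (c : F) (hc : c ≠ 0)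
    (h : U * (c • (g.1 * A * (g⁻¹).1)) = (c • (g.1 * A * (g⁻¹).1)) * U) :
    ((g⁻¹).1 * U * g.1) * A = A * ((g⁻¹).1 * U * g.1) := by
  have h1 : U * (g.1 * A * (g⁻¹).1) = (g.1 * A * (g⁻¹).1) * U := by
    rw [mul_smul_comm, smul_mul_assoc] at h
    exact smul_right_injective _ hc h
  calc ((g⁻¹).1 * U * g.1) * A = (g⁻¹).1 * (U * (g.1 * A * (g⁻¹).1)) * g.1 := by
        simp only [mul_assoc]
        rw [Units.inv_mul, mul_one]
    _ = (g⁻¹).1 * ((g.1 * A * (g⁻¹).1) * U) * g.1 := by rw [h1]
    _ = ((g⁻¹).1 * g.1) * A * ((g⁻¹).1 * U * g.1) := by simp only [mul_assoc]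
    _ = A * ((g⁻¹).1 * U * g.1) := by rw [Units.inv_mul, one_mul]

/-- The scalar matrices. -/
private noncomputable def T4_s (F : Type) [Field F] : Fˣ →* GL (Fin 2) F :=
  Units.map (algebraMap F (Matrix (Fin 2) (Fin 2) F)).toMonoidHom

private theorem T4_s_val {F : Type} [Field F] (c : Fˣ) :
    (T4_s F c).1 = (c : F) • (1 : Matrix (Fin 2) (Fin 2) F) :=
  Algebra.algebraMap_eq_smul_one _

private theorem T4_s_comm {F : Type} [Field F] (c : Fˣ) (g : GL (Fin 2) F) :
    T4_s F c * g = g * T4_s F c := by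
  apply Units.ext
  rw [Units.val_mul, Units.val_mul, T4_s_val, smul_mul_assoc, one_mul, mul_smul_comm, mul_one]

/-- The twist of a conjugate of a representation. -/
private theorem T4_hom {A F : Type} [Group A] [Field F] (χ : A →* Fˣ) (g : GL (Fin 2) F)
    (r : A →* GL (Fin 2) F) :
    ∃ ψ : A →* GL (Fin 2) F, ∀ x, (ψ x).1 = (χ x : F) • (g.1 * (r x).1 * (g⁻¹).1) := by
  refine ⟨MonoidHom.mk' (fun x => T4_s F (χ x) * (g * r x * g⁻¹)) ?_, fun x => ?_⟩
  · intro x y
    rw [map_mul, map_mul, map_mul]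
    have h := T4_s_comm (χ y) (g * r x * g⁻¹)
    calc T4_s F (χ x) * T4_s F (χ y) * (g * (r x * r y) * g⁻¹)
        = T4_s F (χ x) * (T4_s F (χ y) * (g * r x * g⁻¹)) * (g * r y * g⁻¹) := by group
      _ = T4_s F (χ x) * (g * r x * g⁻¹ * T4_s F (χ y)) * (g * r y * g⁻¹) := by rw [h]
      _ = T4_s F (χ x) * (g * r x * g⁻¹) * (T4_s F (χ y) * (g * r y * g⁻¹)) := by group
  · change (T4_s F (χ x) * (g * r x * g⁻¹)).1 = _
    rw [Units.val_mul, T4_s_val, smul_mul_assoc, one_mul, Units.val_mul, Units.val_mul]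

theorem pT4 (h1 : ST1) (_h2 : ST2) : ST4 := by
  intro n M hSL s t hst hsat F _ _ O w τ ρ hw h2k h3k hτ hρ
  have hne : s ≠ t := adj_ne hst
  have hA : (ρ (gn M s)).1.map (IsLocalRing.residue O) = !![τ, 1; -1, 0] := by
    have h := hρ s
    rw [m2, if_pos rfl] at h
    exact h
  have hB : (ρ (gn M t)).1.map (IsLocalRing.residue O) = !![0, IsLocalRing.residue O w;
      -IsLocalRing.residue O w ^ 2, τ] := by
    have h := hρ t
    rw [m2, if_neg hne.symm, if_pos rfl] at h
    exact h
  have hb : ρ (gn M s) * ρ (gn M t) * ρ (gn M s) = ρ (gn M t) * ρ (gn M s) * ρ (gn M t) := by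
    rw [← map_mul, ← map_mul, ← map_mul, ← map_mul, art_braid hst]
  obtain ⟨τ', c, g, hτ', eA, eB⟩ := T4_main O w τ _ _ hw h2k h3k hτ hb hA hB
  have hwF : (w : F) ^ 2 + (w : F) + 1 = 0 := by
    have h := congrArg (algebraMap O F) hw
    rw [map_add, map_add, map_pow, map_one, map_zero] at h
    exact h
  have h3F : (3 : F) ≠ 0 := by
    intro h
    apply h3k
    have h4 : (3 : O) = 0 := by
      apply Subtype.ext
      have h5 : ((3 : O) : F) = 3 := rfl
      rw [h5, h]
      rfl
    have h5 := congrArg (IsLocalRing.residue O) h4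
    rw [map_zero, map_ofNat] at h5
    exact h5
  have ht2 := ((h1.2 n M hSL s t hst hsat).1 F (w : F) (τ' : F) hwF).1
  set ι := algebraMap O F with hι
  set ρF : Art M →* GL (Fin 2) F := (Matrix.GeneralLinearGroup.map ι).comp ρ with hρF
  have hval : ∀ x, (ρF x).1 = (ρ x).1.map ι := fun x => rfl
  have hc0 : ((c : O) : F) ≠ 0 := by
    intro h
    have h4 : (c : O) = 0 := Subtype.ext h
    exact c.ne_zero h4
  have hnadj : ∀ u, u ≠ s → u ≠ t → ∀ v, (v = s ∨ v = t) → ¬ adj M u v := by
    intro u hus hut v hv hadj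
    have h4 : v ∈ ({s, t} : Finset (Fin n)) := by
      rcases hv with rfl | rfl <;> simp
    have h5 := hsat v h4 u (adj_symm hadj)
    rw [Finset.mem_insert, Finset.mem_singleton] at h5
    exact h5.elim hus hut
  -- the other generators
  have key : ∀ u, u ≠ s → u ≠ t → ∃ p : Fˣ,
      (ρF (gn M u)).1 = (p : F) • (1 : Matrix (Fin 2) (Fin 2) F) := by
    intro u hus hut
    have c1 : ρF (gn M u) * ρF (gn M s) = ρF (gn M s) * ρF (gn M u) := by
      rw [← map_mul, ← map_mul, art_comm hSL.sl hus (hnadj u hus hut s (Or.inl rfl))]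
    have c2 : ρF (gn M u) * ρF (gn M t) = ρF (gn M t) * ρF (gn M u) := by
      rw [← map_mul, ← map_mul, art_comm hSL.sl hut (hnadj u hus hut t (Or.inr rfl))]
    have d1 := congrArg Units.val c1
    have d2 := congrArg Units.val c2
    rw [Units.val_mul, Units.val_mul, hval (gn M s), eA] at d1
    rw [Units.val_mul, Units.val_mul, hval (gn M t), eB] at d2
    have e1 := T4_cj g _ _ _ hc0 d1
    have e2 := T4_cj g _ _ _ hc0 d2
    have h4 := T4_cent _ (w : F) (τ' : F) hwF h3F e1 e2
    set p := ((g⁻¹).1 * (ρF (gn M u)).1 * g.1) 0 0 with hp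
    have h5 : (ρF (gn M u)).1 = p • (1 : Matrix (Fin 2) (Fin 2) F) := by
      calc (ρF (gn M u)).1 = g.1 * ((g⁻¹).1 * (ρF (gn M u)).1 * g.1) * (g⁻¹).1 := by
            simp only [mul_assoc]
            rw [Units.mul_inv, mul_one, ← mul_assoc, Units.mul_inv, one_mul]
        _ = p • (1 : Matrix (Fin 2) (Fin 2) F) := by
            rw [h4, mul_smul_comm, mul_one, smul_mul_assoc, Units.mul_inv]
    have hp0 : p ≠ 0 := by
      intro h6
      rw [h6, zero_smul] at h5
      have h7 := (ρF (gn M u)).mul_inv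
      rw [h5, zero_mul] at h7
      exact zero_ne_one h7
    exact ⟨Units.mk0 p hp0, h5⟩
  choose! p hp using key
  set f : Fin n → Fˣ := fun u => if u = s ∨ u = t then Units.map (ι : O →* F) c else p u with hf
  obtain ⟨χ, hχ⟩ := art_lift (M := M) hSL.sl f (fun i j _ _ => mul_comm _ _) (by
    intro i j hij
    by_cases hi : i = s ∨ i = t
    · have hj : j = s ∨ j = t := by
        by_contra hcon
        rw [not_or] at hcon
        exact hnadj j hcon.1 hcon.2 i hi (adj_symm hij)
      simp only [hf]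
      rw [if_pos hi, if_pos hj]
    · have hj : ¬ (j = s ∨ j = t) := by
        intro hcon
        rw [not_or] at hi
        exact hnadj i hi.1 hi.2 j hcon hij
      simp only [hf]
      rw [if_neg hi, if_neg hj]
      rw [not_or] at hi hj
      have h4 : ρF (gn M i) * ρF (gn M j) * ρF (gn M i) =
          ρF (gn M j) * ρF (gn M i) * ρF (gn M j) := by
        rw [← map_mul, ← map_mul, ← map_mul, ← map_mul, art_braid hij]
      have h5 := congrArg (fun x : GL (Fin 2) F => x.1 0 0) h4
      simp only [Units.val_mul] at h5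
      rw [hp i hi.1 hi.2, hp j hj.1 hj.2] at h5
      simp only [smul_mul_assoc, one_mul, mul_smul_comm, mul_one, Matrix.smul_apply,
        Matrix.one_apply_eq, smul_eq_mul] at h5
      apply Units.ext
      rw [Units.val_mul, Units.val_mul, Units.val_mul, Units.val_mul]
      linear_combination h5)
  obtain ⟨ψ, hψ⟩ := T4_hom χ g (T2 M s t (w : F) (τ' : F))
  refine ⟨τ', χ, g, hτ', fun x => ?_⟩
  have hext : ρF = ψ := by
    refine art_ext fun u => Units.ext ?_
    rw [hψ, ht2, hχ]
    by_cases hus : u = s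
    · have hfu : f u = Units.map (ι : O →* F) c := if_pos (Or.inl hus)
      rw [hfu, hus, m2, if_pos rfl]
      exact eA
    · by_cases hut : u = t
      · have hfu : f u = Units.map (ι : O →* F) c := if_pos (Or.inr hut)
        rw [hfu, hut, m2, if_neg hne.symm, if_pos rfl]
        exact eB
      · have hfu : f u = p u := if_neg (not_or.2 ⟨hus, hut⟩)
        rw [hfu, m2, if_neg hus, if_neg hut, mul_one, Units.mul_inv]
        exact hp u hus hut
  rw [← hψ, ← hext]
  rfl

end Pool.Agent.Lib.MP_97567f_al
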